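import Mathlib


-- toolkit of helper91, part Asg
section

namespace Pool.Agent.MP_646035_al.PT

open Finset

variable {Q M : Type*} [DecidableEq Q]

open Classical in
/-- The functions with values in `B` on `X` and equal to `d` outside `X`. -/
noncomputable def asg (d : M) (X : Finset Q) (B : Finset M) : Finset (Q → M) :=
  (X.pi fun _ => B).image fun f j => if h : j ∈ X then f j h else d

lemma mem_asg {d : M} {X : Finset Q} {B : Finset M} {f : Q → M} :
    f ∈ asg d X B ↔ (∀ j ∈ X, f j ∈ B) ∧ ∀ j ∉ X, f j = d := by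
  classical
  simp only [asg, mem_image, mem_pi]
  constructor
  · rintro ⟨g, hg, rfl⟩
    exact ⟨fun j hj => by simpa [hj] using hg j hj, fun j hj => by simp [hj]⟩
  · rintro ⟨h1, h2⟩
    refine ⟨fun j _ => f j, h1, funext fun j => ?_⟩
    by_cases hj : j ∈ X
    · simp [hj]
    · simp [hj, h2 j hj]

lemma asg_empty (d : M) (B : Finset M) : asg d (∅ : Finset Q) B = {fun _ => d} := by
  ext f
  simp only [mem_asg, notMem_empty, IsEmpty.forall_iff, implies_true, not_false_eq_true, forall_const, true_and, mem_singleton, funext_iff]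

lemma sum_asg_union {R : Type*} [AddCommMonoid R] (d : M) {X₁ X₂ : Finset Q}
    (h : Disjoint X₁ X₂) (B : Finset M) (F : (Q → M) → R) :
    ∑ f ∈ asg d (X₁ ∪ X₂) B, F f
      = ∑ f₁ ∈ asg d X₁ B, ∑ f₂ ∈ asg d X₂ B, F (X₁.piecewise f₁ f₂) := by
  rw [← sum_product']
  symm
  refine sum_nbij' (fun p => X₁.piecewise p.1 p.2)
    (fun f => (X₁.piecewise f fun _ => d, X₂.piecewise f fun _ => d)) ?_ ?_ ?_ ?_ fun _ _ => rfl
  · rintro ⟨f₁, f₂⟩ hp
    simp only [mem_product, mem_asg, mem_union] at hp ⊢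
    refine ⟨fun j hj => ?_, fun j hj => ?_⟩
    · by_cases h1 : j ∈ X₁
      · simpa [piecewise, h1] using hp.1.1 j h1
      · simpa [piecewise, h1] using hp.2.1 j (hj.resolve_left h1)
    · push Not at hj
      simpa [piecewise, hj.1] using hp.2.2 j hj.2
  · intro f hf
    simp only [mem_product, mem_asg, mem_union] at hf ⊢
    exact ⟨⟨fun j hj => by simpa [piecewise, hj] using hf.1 j (.inl hj),
      fun j hj => by simp [piecewise, hj]⟩,
      fun j hj => by simpa [piecewise, hj] using hf.1 j (.inr hj),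
      fun j hj => by simp [piecewise, hj]⟩
  · rintro ⟨f₁, f₂⟩ hp
    simp only [mem_product, mem_asg] at hp
    refine Prod.ext (funext fun j => ?_) (funext fun j => ?_)
    · by_cases h1 : j ∈ X₁
      · simp [piecewise, h1]
      · simp [piecewise, h1, hp.1.2 j h1]
    · by_cases h2 : j ∈ X₂
      · simp [piecewise, h2, disjoint_right.1 h h2]
      · simp [piecewise, h2, hp.2.2 j h2]
  · intro f hf
    simp only [mem_asg, mem_union] at hf
    funext j
    by_cases h1 : j ∈ X₁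
    · simp [piecewise, h1]
    · by_cases h2 : j ∈ X₂
      · simp [piecewise, h1, h2]
      · simp [piecewise, h1, h2, hf.2 j (by tauto)]

lemma sum_asg_prod {R : Type*} [CommSemiring R] (d : M) (X : Finset Q) (B : Finset M)
    (g : Q → M → R) :
    ∑ f ∈ asg d X B, ∏ j ∈ X, g j (f j) = ∏ j ∈ X, ∑ b ∈ B, g j b := by
  classical
  rw [prod_sum, asg, sum_image]
  · refine sum_congr rfl fun f _ => ?_
    rw [← prod_attach]
    exact prod_congr rfl fun j _ => by simp [j.2]
  · intro f _ f' _ hff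
    funext j hj
    simpa [hj] using congrFun hff j

lemma card_asg (d : M) (X : Finset Q) (B : Finset M) : (asg d X B).card = B.card ^ X.card := by
  simpa using sum_asg_prod (R := ℕ) d X B fun _ _ => 1

/-- Transport along a map `π` of sites injective on `X` and a permutation `ι` of the values. -/
lemma sum_asg_map {Q' R : Type*} [DecidableEq Q'] [AddCommMonoid R] (d : M) (X : Finset Q')
    (B : Finset M) (π : Q' → Q) (hπ : Set.InjOn π X) (ι : M ≃ M) (hι : ∀ b, ι b ∈ B ↔ b ∈ B)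
    (F : (Q → M) → R) (F' : (Q' → M) → R)
    (h : ∀ f ∈ asg d (X.image π) B, ∀ f' ∈ asg d X B, (∀ j ∈ X, f' j = ι (f (π j))) →
      F f = F' f') :
    ∑ f ∈ asg d (X.image π) B, F f = ∑ f' ∈ asg d X B, F' f' := by
  classical
  have hmem : ∀ f ∈ asg d (X.image π) B,
      (fun j => if j ∈ X then ι (f (π j)) else d) ∈ asg d X B := fun f hf => by
    rw [mem_asg] at hf ⊢
    exact ⟨fun j hj => by simpa [hj, hι] using hf.1 _ (mem_image_of_mem π hj),
      fun j hj => by simp [hj]⟩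
  refine sum_bij (fun f _ => fun j => if j ∈ X then ι (f (π j)) else d) hmem ?_ ?_ ?_
  · intro f hf f' hf' hff
    rw [mem_asg] at hf hf'
    funext v
    by_cases hv : v ∈ X.image π
    · obtain ⟨j, hj, rfl⟩ := mem_image.1 hv
      simpa [hj] using congrFun hff j
    · rw [hf.2 v hv, hf'.2 v hv]
  · intro g hg
    rw [mem_asg] at hg
    refine ⟨fun v => if hv : v ∈ X.image π then ι.symm (g (mem_image.1 hv).choose) else d,
      mem_asg.2 ⟨fun v hv => ?_, fun v hv => by simp only [hv, dite_false]⟩, funext fun j => ?_⟩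
    · simp only [hv, dite_true]
      rw [← hι, Equiv.apply_symm_apply]
      exact hg.1 _ (mem_image.1 hv).choose_spec.1
    · by_cases hj : j ∈ X
      · have hv : π j ∈ X.image π := mem_image_of_mem π hj
        have := (mem_image.1 hv).choose_spec
        simp only [hj, if_true, hv, dite_true, Equiv.apply_symm_apply]
        rw [hπ this.1 hj this.2]
      · simp [hj, hg.2 j hj]
  · intro f hf
    exact h f hf _ (hmem f hf) fun j hj => by simp [hj]

end Pool.Agent.MP_646035_al.PT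

end


-- toolkit of helper91, part Poly
section

namespace Pool.Agent.MP_646035_al.PT

open Finset

section Poly

variable {Pt Γ : Type*} [DecidableEq Pt] [DecidableEq Γ]

/-- The supports of the members of `F` are pairwise disjoint. -/
def Compat (supp : Γ → Finset Pt) (F : Finset Γ) : Prop :=
  ∀ γ ∈ F, ∀ δ ∈ F, γ ≠ δ → Disjoint (supp γ) (supp δ)

open Classical in
/-- The partition function of the polymers in `Λ`. -/
noncomputable def Xi (supp : Γ → Finset Pt) (w : Γ → ℝ) (Λ : Finset Γ) : ℝ :=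
  ∑ F ∈ Λ.powerset with Compat supp F, ∏ γ ∈ F, w γ

/-- The polymers of `Λ` whose support avoids `A`. -/
def away (supp : Γ → Finset Pt) (Λ : Finset Γ) (A : Finset Pt) : Finset Γ :=
  Λ.filter fun δ => Disjoint (supp δ) A

/-- The change of `log Xi` when the polymers meeting `A` are removed. -/
noncomputable def Dl (supp : Γ → Finset Pt) (w : Γ → ℝ) (Λ : Finset Γ) (A : Finset Pt) : ℝ :=
  Real.log (Xi supp w Λ) - Real.log (Xi supp w (away supp Λ A))

/-- The smallness condition on a finite universe `U` of polymers. -/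
structure KP (supp : Γ → Finset Pt) (w : Γ → ℝ) (U : Finset Γ) : Prop where
  ne : ∀ γ ∈ U, (supp γ).Nonempty
  sum : ∀ q : Pt, ∑ δ ∈ U with q ∈ supp δ, |w δ| * Real.exp (supp δ).card ≤ 1 / 2

variable {supp : Γ → Finset Pt} {w : Γ → ℝ} {U : Finset Γ}

lemma Xi_empty : Xi supp w ∅ = 1 := by
  classical
  have hc : Compat supp (∅ : Finset Γ) := by simp [Compat]
  simp [Xi, Finset.sum_filter, hc]

lemma Xi_congr {w' : Γ → ℝ} {Λ : Finset Γ} (h : ∀ γ ∈ Λ, w γ = w' γ) :
    Xi supp w Λ = Xi supp w' Λ := by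
  classical
  unfold Xi
  refine Finset.sum_congr rfl fun F hF => Finset.prod_congr rfl fun γ hγ => h γ ?_
  exact Finset.mem_powerset.mp (Finset.mem_filter.mp hF).1 hγ

/-- Split the families according to whether they contain `γ`. -/
lemma Xi_erase {Λ : Finset Γ} {γ : Γ} (hγ : γ ∈ Λ) :
    Xi supp w Λ = Xi supp w (Λ.erase γ) + w γ * Xi supp w (away supp (Λ.erase γ) (supp γ)) := by
  classical
  have hn : γ ∉ Λ.erase γ := Finset.notMem_erase γ Λ
  have e1 : Xi supp w Λ = ∑ F ∈ (insert γ (Λ.erase γ)).powerset,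
      if Compat supp F then ∏ δ ∈ F, w δ else 0 := by
    rw [Finset.insert_erase hγ, Xi, Finset.sum_filter]
  rw [e1, Finset.sum_powerset_insert hn]
  congr 1
  · rw [Xi, Finset.sum_filter]
  · have e2 : (away supp (Λ.erase γ) (supp γ)).powerset =
        (Λ.erase γ).powerset.filter fun F => ∀ δ ∈ F, Disjoint (supp δ) (supp γ) := by
      ext F
      simp only [away, Finset.mem_powerset, Finset.mem_filter, Finset.subset_iff]
      exact ⟨fun h => ⟨fun x hx => (h hx).1, fun x hx => (h hx).2⟩,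
        fun h x hx => ⟨h.1 hx, h.2 x hx⟩⟩
    rw [Xi, e2, Finset.filter_filter, Finset.sum_filter, Finset.mul_sum]
    refine Finset.sum_congr rfl fun F hF => ?_
    have hF' : γ ∉ F := fun hh => hn (Finset.mem_powerset.mp hF hh)
    have e3 : Compat supp (insert γ F) ↔
        (∀ δ ∈ F, Disjoint (supp δ) (supp γ)) ∧ Compat supp F := by
      constructor
      · intro hc
        refine ⟨fun δ hδ => hc δ (Finset.mem_insert_of_mem hδ) γ (Finset.mem_insert_self _ _) ?_,
          fun a ha b hb hab =>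
            hc a (Finset.mem_insert_of_mem ha) b (Finset.mem_insert_of_mem hb) hab⟩
        rintro rfl
        exact hF' hδ
      · rintro ⟨h1, h2⟩ a ha b hb hab
        rcases Finset.mem_insert.mp ha with ha1 | ha1
        · rcases Finset.mem_insert.mp hb with hb1 | hb1
          · exact absurd (ha1.trans hb1.symm) hab
          · rw [ha1]
            exact (h1 b hb1).symm
        · rcases Finset.mem_insert.mp hb with hb1 | hb1
          · rw [hb1]
            exact h1 a ha1
          · exact h2 a ha1 b hb1 hab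
    by_cases hc : (∀ δ ∈ F, Disjoint (supp δ) (supp γ)) ∧ Compat supp F
    · rw [if_pos (e3.mpr hc), if_pos hc, Finset.prod_insert hF']
    · rw [if_neg (fun h => hc (e3.mp h)), if_neg hc, mul_zero]

lemma KP.mono (h : KP supp w U) {Λ : Finset Γ} (hΛ : Λ ⊆ U) : KP supp w Λ := by
  refine ⟨fun γ hγ => h.ne γ (hΛ hγ), fun q => le_trans ?_ (h.sum q)⟩
  exact Finset.sum_le_sum_of_subset_of_nonneg (Finset.filter_subset_filter _ hΛ)
    fun _ _ _ => by positivity

/-- Every polymer meeting `A` contains a point of `A`. -/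
lemma KP.sum_touch (h : KP supp w U) (A : Finset Pt) :
    ∑ δ ∈ U with ¬ Disjoint (supp δ) A, 2 * |w δ| * Real.exp (supp δ).card ≤ A.card := by
  calc ∑ δ ∈ U with ¬ Disjoint (supp δ) A, 2 * |w δ| * Real.exp (supp δ).card
      ≤ ∑ δ ∈ U, ∑ q ∈ A, if q ∈ supp δ then 2 * (|w δ| * Real.exp (supp δ).card) else 0 := by
        rw [Finset.sum_filter]
        refine Finset.sum_le_sum fun δ _ => ?_
        split_ifs with hd
        · exact Finset.sum_nonneg fun q _ => by split_ifs <;> positivity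
        · obtain ⟨q, hq1, hq2⟩ := Finset.not_disjoint_iff.mp hd
          refine le_trans ?_ (Finset.single_le_sum (f := fun q =>
            if q ∈ supp δ then 2 * (|w δ| * Real.exp (supp δ).card) else 0)
            (fun q _ => by split_ifs <;> positivity) hq2)
          simp only [if_pos hq1]
          exact le_of_eq (by ring)
    _ = ∑ q ∈ A, 2 * ∑ δ ∈ U with q ∈ supp δ, |w δ| * Real.exp (supp δ).card := by
        rw [Finset.sum_comm]
        refine Finset.sum_congr rfl fun q _ => ?_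
        rw [Finset.mul_sum, Finset.sum_filter]
    _ ≤ ∑ _q ∈ A, (1 : ℝ) := Finset.sum_le_sum fun q _ => by linarith only [h.sum q]
    _ = A.card := by simp

lemma poly_remove (f : Finset Γ → ℝ) (c : Γ → ℝ) (Λ : Finset Γ)
    (hs : ∀ M ⊆ Λ, ∀ γ ∈ M, c γ ≤ f M - f (M.erase γ)) (N : Finset Γ) :
    ∑ δ ∈ Λ with δ ∈ N, c δ ≤ f Λ - f (Λ \ N) := by
  induction N using Finset.induction_on with
  | empty => simp
  | insert a N ha ih =>
    rw [Finset.sdiff_insert]
    by_cases haΛ : a ∈ Λ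
    · have e : Λ.filter (fun δ => δ ∈ insert a N) = insert a (Λ.filter fun δ => δ ∈ N) := by
        ext δ
        simp only [Finset.mem_filter, Finset.mem_insert]
        constructor
        · rintro ⟨h1, h2 | h2⟩
          · exact Or.inl h2
          · exact Or.inr ⟨h1, h2⟩
        · rintro (h1 | h1)
          · exact ⟨h1 ▸ haΛ, Or.inl h1⟩
          · exact ⟨h1.1, Or.inr h1.2⟩
      rw [e, Finset.sum_insert (fun hh => ha (Finset.mem_filter.mp hh).2)]
      have := hs (Λ \ N) Finset.sdiff_subset a (Finset.mem_sdiff.mpr ⟨haΛ, ha⟩)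
      linarith
    · have e : Λ.filter (fun δ => δ ∈ insert a N) = Λ.filter fun δ => δ ∈ N := by
        refine Finset.filter_congr fun δ hδ => ?_
        rw [Finset.mem_insert]
        exact ⟨fun hh => hh.resolve_left (fun h1 => haΛ (h1 ▸ hδ)), Or.inr⟩
      rw [e, Finset.erase_eq_of_notMem (fun hh => haΛ (Finset.mem_sdiff.mp hh).1)]
      exact ih

lemma poly_remove_abs (f : Finset Γ → ℝ) (c : Γ → ℝ) (Λ : Finset Γ)
    (hs : ∀ M ⊆ Λ, ∀ γ ∈ M, |f M - f (M.erase γ)| ≤ c γ) (N : Finset Γ) :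
    |f Λ - f (Λ \ N)| ≤ ∑ δ ∈ Λ with δ ∈ N, c δ := by
  have h1 := poly_remove f (fun γ => -c γ) Λ
    (fun M hM γ hγ => (abs_le.mp (hs M hM γ hγ)).1) N
  have h2 := poly_remove (fun M => -f M) (fun γ => -c γ) Λ
    (fun M hM γ hγ => by linarith [(abs_le.mp (hs M hM γ hγ)).2]) N
  rw [Finset.sum_neg_distrib] at h1 h2
  exact abs_le.mpr ⟨h1, by linarith⟩

lemma poly_Dl (h : KP supp w U) {Λ : Finset Γ} (hΛ : Λ ⊆ U)
    (hs : ∀ M ⊆ Λ, ∀ γ ∈ M, |Real.log (Xi supp w M) - Real.log (Xi supp w (M.erase γ))|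
      ≤ 2 * |w γ| * Real.exp (supp γ).card) (A : Finset Pt) :
    |Dl supp w Λ A| ≤ A.card := by
  have e : away supp Λ A = Λ \ U.filter fun δ => ¬ Disjoint (supp δ) A := by
    ext δ
    simp only [away, Finset.mem_filter, Finset.mem_sdiff]
    constructor
    · rintro ⟨h1, h2⟩
      exact ⟨h1, fun hh => hh.2 h2⟩
    · rintro ⟨h1, h2⟩
      exact ⟨h1, by_contra fun hh => h2 ⟨hΛ h1, hh⟩⟩
  rw [Dl, e]
  refine (poly_remove_abs (fun M => Real.log (Xi supp w M)) _ Λ hs _).trans ?_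
  refine le_trans ?_ (h.sum_touch A)
  exact Finset.sum_le_sum_of_subset_of_nonneg (fun δ hδ => (Finset.mem_filter.mp hδ).2)
    fun _ _ _ => by positivity

lemma poly_small (h : KP supp w U) {γ : Γ} (hγ : γ ∈ U) {D : ℝ} (hD : |D| ≤ (supp γ).card) :
    |w γ * Real.exp (-D)| ≤ |w γ| * Real.exp (supp γ).card ∧
      |w γ| * Real.exp (supp γ).card ≤ 1 / 2 := by
  constructor
  · rw [abs_mul, abs_of_pos (Real.exp_pos _)]
    exact mul_le_mul_of_nonneg_left (Real.exp_le_exp.mpr (by linarith [(abs_le.mp hD).1]))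
      (abs_nonneg _)
  · obtain ⟨q, hq⟩ := h.ne γ hγ
    refine le_trans ?_ (h.sum q)
    exact Finset.single_le_sum (f := fun δ => |w δ| * Real.exp (supp δ).card)
      (fun _ _ => by positivity) (Finset.mem_filter.mpr ⟨hγ, hq⟩)

lemma poly_factor {Λ : Finset Γ} {γ : Γ} (hγ : γ ∈ Λ) (p1 : 0 < Xi supp w (Λ.erase γ))
    (p2 : 0 < Xi supp w (away supp (Λ.erase γ) (supp γ))) :
    Xi supp w Λ = Xi supp w (Λ.erase γ) *
      (1 + w γ * Real.exp (-Dl supp w (Λ.erase γ) (supp γ))) := by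
  rw [Xi_erase hγ, Dl, neg_sub, Real.exp_sub, Real.exp_log p1, Real.exp_log p2]
  field_simp

lemma poly_log_ge {y : ℝ} (h0 : 0 ≤ y) (h1 : y ≤ 1) : y / 2 ≤ Real.log (1 + y) := by
  have h := Real.one_sub_inv_le_log_of_pos (show 0 < 1 + y by linarith)
  refine le_trans ?_ h
  have e : 1 - (1 + y)⁻¹ = y / (1 + y) := by field_simp; ring
  rw [e]
  exact div_le_div_of_nonneg_left h0 (by linarith only [h0]) (by linarith only [h1])

lemma poly_log {y : ℝ} (hy : |y| ≤ 1 / 2) : |Real.log (1 + y)| ≤ 2 * |y| := by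
  obtain ⟨h1, h2⟩ := abs_le.mp hy
  have hp : 0 < 1 + y := by linarith only [h1]
  have ha := Real.log_le_sub_one_of_pos hp
  have hb := Real.one_sub_inv_le_log_of_pos hp
  have e : 1 - (1 + y)⁻¹ = y / (1 + y) := by field_simp; ring
  rw [e] at hb
  refine abs_le.mpr ⟨le_trans ?_ hb, by linarith only [le_abs_self y, abs_nonneg y, ha]⟩
  rw [le_div_iff₀ hp]
  rcases le_total 0 y with h0 | h0
  · rw [abs_of_nonneg h0]
    nlinarith only [h0]
  · rw [abs_of_nonpos h0]
    nlinarith only [h1, h0]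

/-- Dobrushin induction on the size of `Λ`: prove `pos` and `step` together.  By `Xi_erase`,
`Xi Λ / Xi (Λ.erase γ) = 1 + w γ * ρ` with `ρ = exp (-Dl (Λ.erase γ) (supp γ))`; remove the
polymers meeting `supp γ` one at a time (induction hypothesis, `sum_touch`) to get
`|Dl| ≤ card (supp γ)`; `|w γ| exp (card) ≤ 1/2` by `KP.sum` at a point of `supp γ`;
`|log (1 + y)| ≤ 2 |y|` for `|y| ≤ 1/2`. -/
lemma KP.pos_step (h : KP supp w U) (Λ : Finset Γ) (hΛ : Λ ⊆ U) :
    0 < Xi supp w Λ ∧ ∀ γ ∈ Λ,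
      |Real.log (Xi supp w Λ) - Real.log (Xi supp w (Λ.erase γ))|
        ≤ 2 * |w γ| * Real.exp (supp γ).card := by
  induction Λ using Finset.strongInduction with
  | H Λ ih =>
    have key : ∀ γ ∈ Λ, 0 < Xi supp w Λ ∧
        |Real.log (Xi supp w Λ) - Real.log (Xi supp w (Λ.erase γ))|
          ≤ 2 * |w γ| * Real.exp (supp γ).card := by
      intro γ hγ
      have hss : ∀ M, M ⊆ Λ.erase γ → M ⊂ Λ := fun M hM =>
        lt_of_le_of_lt hM (Finset.erase_ssubset hγ)
      have hU : Λ.erase γ ⊆ U := (Finset.erase_subset _ _).trans hΛ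
      have p1 := (ih _ (hss _ subset_rfl) hU).1
      have hs2 : away supp (Λ.erase γ) (supp γ) ⊆ Λ.erase γ := Finset.filter_subset _ _
      have p2 := (ih _ (hss _ hs2) (hs2.trans hU)).1
      have hD : |Dl supp w (Λ.erase γ) (supp γ)| ≤ (supp γ).card :=
        poly_Dl h hU (fun M hM => (ih M (hss M hM) (hM.trans hU)).2) _
      have hy := poly_small h (hΛ hγ) hD
      have e := poly_factor (supp := supp) (w := w) hγ p1 p2
      have hpos : 0 < 1 + w γ * Real.exp (-Dl supp w (Λ.erase γ) (supp γ)) := by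
        linarith only [(abs_le.mp (hy.1.trans hy.2)).1]
      refine ⟨by rw [e]; positivity, ?_⟩
      rw [e, Real.log_mul p1.ne' hpos.ne', add_sub_cancel_left]
      refine (poly_log (hy.1.trans hy.2)).trans ?_
      linarith only [hy.1]
    refine ⟨?_, fun γ hγ => (key γ hγ).2⟩
    rcases Λ.eq_empty_or_nonempty with rfl | ⟨γ, hγ⟩
    · rw [Xi_empty]
      exact one_pos
    · exact (key γ hγ).1

lemma KP.pos (h : KP supp w U) {Λ : Finset Γ} (hΛ : Λ ⊆ U) : 0 < Xi supp w Λ :=
  (h.pos_step Λ hΛ).1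

lemma KP.remove (h : KP supp w U) {Λ N : Finset Γ} (hΛ : Λ ⊆ U) :
    |Real.log (Xi supp w Λ) - Real.log (Xi supp w (Λ \ N))|
      ≤ ∑ δ ∈ Λ with δ ∈ N, 2 * |w δ| * Real.exp (supp δ).card := by
  exact poly_remove_abs (fun M => Real.log (Xi supp w M)) _ Λ
    (fun M hM => (h.pos_step M (hM.trans hΛ)).2) N

lemma KP.Dl_le (h : KP supp w U) {Λ : Finset Γ} (hΛ : Λ ⊆ U) (A : Finset Pt) :
    |Dl supp w Λ A| ≤ A.card := by
  exact poly_Dl h hΛ (fun M hM => (h.pos_step M (hM.trans hΛ)).2) A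

lemma KP.step_eq (h : KP supp w U) {Λ : Finset Γ} (hΛ : Λ ⊆ U) {γ : Γ} (hγ : γ ∈ Λ) :
    Real.log (Xi supp w Λ) - Real.log (Xi supp w (Λ.erase γ))
      = Real.log (1 + w γ * Real.exp (-Dl supp w (Λ.erase γ) (supp γ))) := by
  have hU : Λ.erase γ ⊆ U := (Finset.erase_subset _ _).trans hΛ
  have p1 := h.pos hU
  have p2 := h.pos (Λ := away supp (Λ.erase γ) (supp γ)) ((Finset.filter_subset _ _).trans hU)
  have hy := poly_small h (hΛ hγ) (h.Dl_le hU (supp γ))
  have hpos : 0 < 1 + w γ * Real.exp (-Dl supp w (Λ.erase γ) (supp γ)) := by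
    linarith only [(abs_le.mp (hy.1.trans hy.2)).1]
  rw [poly_factor (supp := supp) (w := w) hγ p1 p2, Real.log_mul p1.ne' hpos.ne',
    add_sub_cancel_left]

/-- Adding the polymers of `N`: those of nonnegative weight do not lower `log Xi`, those of `N₁`
raise it (`log (1 + y) ≥ y / 2` for `0 ≤ y ≤ 1`). -/
lemma KP.gain (h : KP supp w U) {Λ N N₁ : Finset Γ} (hΛ : Λ ⊆ U) (hN : N ⊆ Λ) (hN₁ : N₁ ⊆ N)
    (hpos : ∀ γ ∈ N₁, 0 ≤ w γ) :
    ∑ γ ∈ N₁, w γ * Real.exp (-((supp γ).card : ℝ)) / 2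
        - ∑ γ ∈ N with w γ < 0, 2 * |w γ| * Real.exp (supp γ).card
      ≤ Real.log (Xi supp w Λ) - Real.log (Xi supp w (Λ \ N)) := by
  have key := poly_remove (fun M => Real.log (Xi supp w M))
    (fun γ => (if γ ∈ N₁ then w γ * Real.exp (-((supp γ).card : ℝ)) / 2 else 0) -
      (if w γ < 0 then 2 * |w γ| * Real.exp (supp γ).card else 0)) Λ ?_ N
  · refine le_trans (le_of_eq ?_) key
    have e1 : Λ.filter (fun δ => δ ∈ N) = N := by
      ext δ
      simp only [Finset.mem_filter]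
      exact ⟨fun h => h.2, fun h => ⟨hN h, h⟩⟩
    have e2 : N.filter (fun δ => δ ∈ N₁) = N₁ := by
      ext δ
      simp only [Finset.mem_filter]
      exact ⟨fun h => h.2, fun h => ⟨hN₁ h, h⟩⟩
    rw [e1, Finset.sum_sub_distrib, ← Finset.sum_filter, ← Finset.sum_filter, e2]
  · intro M hM γ hγ
    have hMU := hM.trans hΛ
    by_cases hw : w γ < 0
    · have hn : γ ∉ N₁ := fun hh => absurd (hpos γ hh) (not_le.mpr hw)
      have := (abs_le.mp ((h.pos_step M hMU).2 γ hγ)).1
      simp only [if_pos hw, if_neg hn]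
      linarith
    · have hw' : 0 ≤ w γ := not_lt.mp hw
      have hU : M.erase γ ⊆ U := (Finset.erase_subset _ _).trans hMU
      have hD := h.Dl_le hU (supp γ)
      have hy := poly_small h (hMU hγ) hD
      have hy0 : 0 ≤ w γ * Real.exp (-Dl supp w (M.erase γ) (supp γ)) := by positivity
      have hy1 := (abs_le.mp (hy.1.trans hy.2)).2
      have hl := poly_log_ge hy0 (by linarith only [hy1])
      have hm : w γ * Real.exp (-((supp γ).card : ℝ)) ≤
          w γ * Real.exp (-Dl supp w (M.erase γ) (supp γ)) :=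
        mul_le_mul_of_nonneg_left (Real.exp_le_exp.mpr (by linarith only [(abs_le.mp hD).2])) hw'
      simp only [if_neg hw]
      rw [h.step_eq hMU hγ]
      split_ifs <;> linarith only [hl, hm, hy0]

/-- The polymers of `U` all of whose points lie over `A`. -/
def above {ι : Type*} [DecidableEq ι] (supp : Γ → Finset Pt) (site : Pt → ι) (U : Finset Γ)
    (A : Finset ι) : Finset Γ :=
  U.filter fun δ => ∀ q ∈ supp δ, site q ∈ A

/-- Remove the sites of `A` in increasing order (induction on the least element of `A`). -/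
lemma telescope {ι κ : Type*} [DecidableEq ι] [LinearOrder κ] (site : Pt → ι)
    (fib : ι → Finset Pt) (hfib : ∀ q v, q ∈ fib v ↔ site q = v)
    (hne : ∀ γ ∈ U, (supp γ).Nonempty) (rk : ι → κ) (hrk : Function.Injective rk)
    (A : Finset ι) :
    Real.log (Xi supp w (above supp site U A))
      = ∑ v ∈ A, Dl supp w (above supp site U (A.filter fun u => rk v ≤ rk u)) (fib v) := by
  induction A using Finset.induction_on_min_value rk with
  | empty =>
    have e : above supp site U ∅ = ∅ := by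
      refine Finset.filter_eq_empty_iff.mpr fun δ hδ hh => ?_
      obtain ⟨q, hq⟩ := hne δ hδ
      simpa using hh q hq
    rw [e, Xi_empty]
    simp only [Real.log_one, filter_empty, sum_empty]
  | insert a s ha hmin ih =>
    have e1 : (insert a s).filter (fun u => rk a ≤ rk u) = insert a s := by
      refine Finset.filter_true_of_mem fun u hu => ?_
      rcases Finset.mem_insert.mp hu with rfl | hu
      · exact le_rfl
      · exact hmin u hu
    have e2 : ∀ v ∈ s, (insert a s).filter (fun u => rk v ≤ rk u) =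
        s.filter (fun u => rk v ≤ rk u) := by
      intro v hv
      rw [Finset.filter_insert, if_neg]
      intro hle
      have : v = a := hrk (le_antisymm hle (hmin v hv))
      exact ha (this ▸ hv)
    have e3 : away supp (above supp site U (insert a s)) (fib a) = above supp site U s := by
      ext δ
      simp only [away, above, Finset.mem_filter, Finset.disjoint_left, hfib, Finset.mem_insert]
      constructor
      · rintro ⟨⟨h1, h2⟩, h3⟩
        exact ⟨h1, fun q hq => (h2 q hq).resolve_left (h3 hq)⟩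
      · rintro ⟨h1, h2⟩
        exact ⟨⟨h1, fun q hq => Or.inr (h2 q hq)⟩, fun q hq hh => ha (hh ▸ h2 q hq)⟩
    rw [Finset.sum_insert ha, e1, Finset.sum_congr rfl fun v hv => by rw [e2 v hv], ← ih, Dl, e3]
    ring

end Poly

end Pool.Agent.MP_646035_al.PT

end


-- toolkit of helper91, part Conn
section

namespace Pool.Agent.MP_646035_al.PT

open Finset

variable {Pt At : Type*} [DecidableEq Pt] [DecidableEq At]

/-- The support of a set of atoms. -/
def SS (supp : At → Finset Pt) (C : Finset At) : Finset Pt := C.biUnion supp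

/-- `C` is nonempty and cannot be split into two parts with disjoint supports. -/
def Conn (supp : At → Finset Pt) (C : Finset At) : Prop :=
  C.Nonempty ∧ ∀ D ⊆ C, D.Nonempty → D ≠ C → ¬ Disjoint (SS supp D) (SS supp (C \ D))

open Classical in
/-- The connected subsets of `𝒜`. -/
noncomputable def conns (supp : At → Finset Pt) (𝒜 : Finset At) : Finset (Finset At) :=
  𝒜.powerset.filter (Conn supp)

variable {supp : At → Finset Pt}

lemma mem_conns {𝒜 C : Finset At} : C ∈ conns supp 𝒜 ↔ C ⊆ 𝒜 ∧ Conn supp C := by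
  classical
  simp [conns]

omit [DecidableEq At] in
lemma mem_SS {C : Finset At} {q : Pt} : q ∈ SS supp C ↔ ∃ α ∈ C, q ∈ supp α := by
  simp only [SS, mem_biUnion]

omit [DecidableEq At] in
lemma conn_disj_iff {A B : Finset At} : Disjoint (SS supp A) (SS supp B) ↔
    ∀ α ∈ A, ∀ β ∈ B, Disjoint (supp α) (supp β) := by
  simp only [SS, disjoint_biUnion_left, disjoint_biUnion_right]
  exact ⟨fun h α hα β hβ => h β hβ α hα, fun h β hβ α hα => h α hα β hβ⟩

lemma conn_union_bound {X I : Type*} (S : Finset X) (T : Finset I) (R : I → X → Prop)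
    [∀ i x, Decidable (R i x)] (P : X → Prop) [DecidablePred P] (f : X → ℝ)
    (hf : ∀ x ∈ S, 0 ≤ f x) (hP : ∀ x ∈ S, P x → ∃ i ∈ T, R i x) :
    ∑ x ∈ S with P x, f x ≤ ∑ i ∈ T, ∑ x ∈ S with R i x, f x := by
  simp only [sum_filter]
  rw [sum_comm]
  refine sum_le_sum fun x hx => ?_
  have h0 : ∀ i ∈ T, 0 ≤ (if R i x then f x else 0) := fun i _ => by
    split_ifs
    · exact hf x hx
    · exact le_rfl
  split_ifs with h
  · obtain ⟨i, hi, hR⟩ := hP x hx h
    have := single_le_sum h0 hi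
    simpa only [if_pos hR] using this
  · exact sum_nonneg h0

/-- Induction along a connected set. -/
lemma Conn.induction {C : Finset At} (hC : Conn supp C) (Pr : At → Prop) {α₀ : At}
    (h0 : α₀ ∈ C) (hp : Pr α₀)
    (step : ∀ α ∈ C, ∀ β ∈ C, Pr α → ¬ Disjoint (supp α) (supp β) → Pr β) :
    ∀ α ∈ C, Pr α := by
  classical
  by_contra hcon
  have hne : C.filter Pr ≠ C := fun h => hcon (filter_eq_self.mp h)
  apply hC.2 _ (filter_subset Pr C) ⟨α₀, mem_filter.mpr ⟨h0, hp⟩⟩ hne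
  rw [conn_disj_iff]
  intro α hα β hβ
  by_contra hd
  rw [mem_filter] at hα
  rw [mem_sdiff, mem_filter] at hβ
  exact hβ.2 ⟨hβ.1, step α hα.1 β hβ.1 hα.2 hd⟩

/-- Converse of `Conn.induction`. -/
lemma conn_of_induction {C : Finset At} {α₀ : At} (h0 : α₀ ∈ C)
    (h : ∀ D ⊆ C, α₀ ∈ D → (∀ α ∈ D, ∀ β ∈ C, ¬ Disjoint (supp α) (supp β) → β ∈ D) → D = C) :
    Conn supp C := by
  refine ⟨⟨α₀, h0⟩, fun D hD hne hDC hdis => ?_⟩
  rw [conn_disj_iff] at hdis
  by_cases hm : α₀ ∈ D
  · refine hDC (h D hD hm fun α hα β hβ hd => ?_)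
    by_contra hβD
    exact hd (hdis α hα β (mem_sdiff.mpr ⟨hβ, hβD⟩))
  · have := h (C \ D) sdiff_subset (mem_sdiff.mpr ⟨h0, hm⟩) fun α hα β hβ hd => by
      refine mem_sdiff.mpr ⟨hβ, fun hβD => hd (hdis β hβD α hα).symm⟩
    obtain ⟨γ, hγ⟩ := hne
    have h2 : γ ∈ C \ D := by rw [this]; exact hD hγ
    exact (mem_sdiff.mp h2).2 hγ

lemma Conn.image {Pt' At' : Type*} [DecidableEq Pt'] [DecidableEq At'] {supp' : At' → Finset Pt'}
    {C : Finset At'} (hC : Conn supp' C) (f : At' → At)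
    (hf : ∀ α ∈ C, ∀ β ∈ C, ¬ Disjoint (supp' α) (supp' β) →
      ¬ Disjoint (supp (f α)) (supp (f β))) :
    Conn supp (C.image f) := by
  obtain ⟨α₀, h0⟩ := hC.1
  refine conn_of_induction (mem_image_of_mem f h0) fun D hD hm hcl => ?_
  refine Subset.antisymm hD (image_subset_iff.mpr ?_)
  exact hC.induction (fun α => f α ∈ D) h0 hm fun α hα β hβ hp hd =>
    hcl _ hp _ (mem_image_of_mem f hβ) (hf α hα β hβ hd)

/-- Every atom of `C` lies in a connected part of `C` whose support avoids the rest. -/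
lemma exists_component {C : Finset At} {α : At} (hα : α ∈ C) :
    ∃ D ⊆ C, α ∈ D ∧ Conn supp D ∧ Disjoint (SS supp D) (SS supp (C \ D)) := by
  classical
  obtain ⟨D, hD, hmin⟩ := exists_min_image
    (C.powerset.filter fun D => α ∈ D ∧ Disjoint (SS supp D) (SS supp (C \ D))) card
    ⟨C, by simp only [SS, mem_filter, mem_powerset, Std.le_refl, hα, sdiff_self, bot_eq_empty, biUnion_empty, disjoint_empty_right, and_self]⟩
  rw [mem_filter, mem_powerset] at hD
  obtain ⟨hDC, hαD, hdis⟩ := hD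
  refine ⟨D, hDC, hαD, conn_of_induction hαD fun E hE hαE hcl => ?_, hdis⟩
  refine eq_of_subset_of_card_le hE (hmin E ?_)
  rw [mem_filter, mem_powerset]
  refine ⟨hE.trans hDC, hαE, conn_disj_iff.mpr fun γ hγ β hβ => ?_⟩
  rw [mem_sdiff] at hβ
  by_cases hβD : β ∈ D
  · by_contra hd
    exact hβ.2 (hcl γ hγ β hβD hd)
  · exact conn_disj_iff.mp hdis γ (hE hγ) β (mem_sdiff.mpr ⟨hβ.1, hβD⟩)

/-- The components of `C`. -/
noncomputable def connComps (supp : At → Finset Pt) (C : Finset At) : Finset (Finset At) :=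
  (conns supp C).filter fun D => Disjoint (SS supp D) (SS supp (C \ D))

lemma conn_mem_comps {C D : Finset At} : D ∈ connComps supp C ↔
    D ⊆ C ∧ Conn supp D ∧ Disjoint (SS supp D) (SS supp (C \ D)) := by
  simp [connComps, mem_conns, and_assoc]

lemma conn_comps_union (C : Finset At) : (connComps supp C).biUnion id = C := by
  ext α
  simp only [mem_biUnion, id]
  constructor
  · rintro ⟨D, hD, hα⟩
    exact (conn_mem_comps.mp hD).1 hα
  · intro hα
    obtain ⟨D, h1, h2, h3, h4⟩ := exists_component (supp := supp) hα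
    exact ⟨D, conn_mem_comps.mpr ⟨h1, h3, h4⟩, h2⟩

lemma conn_comps_closed {C D : Finset At} (hD : D ∈ connComps supp C) {α β : At} (hα : α ∈ D)
    (hβ : β ∈ C) (hd : ¬ Disjoint (supp α) (supp β)) : β ∈ D := by
  by_contra h
  exact hd (conn_disj_iff.mp (conn_mem_comps.mp hD).2.2 α hα β (mem_sdiff.mpr ⟨hβ, h⟩))

lemma conn_comps_eq {C D D' : Finset At} (hD : D ∈ connComps supp C) (hD' : D' ∈ connComps supp C)
    {β : At} (h : β ∈ D) (h' : β ∈ D') : D = D' := by
  have key : ∀ {D D' : Finset At}, D ∈ connComps supp C → D' ∈ connComps supp C → β ∈ D →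
      β ∈ D' → D ⊆ D' := by
    intro D D' hD hD' h h'
    exact (conn_mem_comps.mp hD).2.1.induction (fun γ => γ ∈ D') h h' fun γ _ δ hδ hp hd =>
      conn_comps_closed hD' hp ((conn_mem_comps.mp hD).1 hδ) hd
  exact Subset.antisymm (key hD hD' h h') (key hD' hD h' h)

lemma conn_comps_compat (C : Finset At) : Compat (SS supp) (connComps supp C) := by
  intro D hD D' hD' hne
  rw [conn_disj_iff]
  intro α hα β hβ
  by_contra hd
  exact hne (conn_comps_eq hD hD'
    (conn_comps_closed hD hα ((conn_mem_comps.mp hD').1 hβ) hd) hβ)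

lemma conn_comps_prod (C : Finset At) (ω : At → ℝ) :
    ∏ β ∈ C, ω β = ∏ D ∈ connComps supp C, ∏ β ∈ D, ω β := by
  conv_lhs => rw [← conn_comps_union (supp := supp) C]
  rw [prod_biUnion]
  · rfl
  · intro D hD D' hD' hne
    exact disjoint_left.mpr fun β h h' => hne (conn_comps_eq hD hD' h h')

lemma conn_comps_of_family {F : Finset (Finset At)} (hF : ∀ D ∈ F, Conn supp D)
    (hc : Compat (SS supp) F) (hne : ∀ D ∈ F, ∀ α ∈ D, (supp α).Nonempty) :
    connComps supp (F.biUnion id) = F := by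
  have h1 : F ⊆ connComps supp (F.biUnion id) := by
    intro D hD
    refine conn_mem_comps.mpr ⟨subset_biUnion_of_mem id hD, hF D hD,
      conn_disj_iff.mpr fun α hα β hβ => ?_⟩
    rw [mem_sdiff, mem_biUnion] at hβ
    obtain ⟨⟨D', hD', hβ'⟩, hβD⟩ := hβ
    have hDD : D ≠ D' := by
      rintro rfl
      exact hβD hβ'
    exact conn_disj_iff.mp (hc D hD D' hD' hDD) α hα β hβ'
  refine Subset.antisymm (fun D hD => ?_) h1
  obtain ⟨α, hα⟩ := (conn_mem_comps.mp hD).2.1.1
  obtain ⟨D', hD', hα'⟩ := mem_biUnion.mp ((conn_mem_comps.mp hD).1 hα)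
  rw [conn_comps_eq hD (h1 hD') hα hα']
  exact hD'

lemma conn_w_family (𝒜 : Finset At) (w : Finset At → ℝ) (h0 : w ∅ = 1)
    (hmul : ∀ C₁ ⊆ 𝒜, ∀ C₂ ⊆ 𝒜, Disjoint (SS supp C₁) (SS supp C₂) →
      w (C₁ ∪ C₂) = w C₁ * w C₂) (F : Finset (Finset At)) (hF : ∀ D ∈ F, D ⊆ 𝒜)
    (hc : Compat (SS supp) F) : w (F.biUnion id) = ∏ D ∈ F, w D := by
  induction F using Finset.induction_on with
  | empty => simpa using h0
  | insert D F hD ih =>
    rw [biUnion_insert, prod_insert hD, ← ih (fun E hE => hF E (mem_insert_of_mem hE))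
      (fun E hE E' hE' => hc E (mem_insert_of_mem hE) E' (mem_insert_of_mem hE'))]
    refine hmul _ (hF D (mem_insert_self _ _)) _
      (biUnion_subset.mpr fun E hE => hF E (mem_insert_of_mem hE)) ?_
    rw [conn_disj_iff]
    intro α hα β hβ
    obtain ⟨E, hE, hβE⟩ := mem_biUnion.mp hβ
    have hDE : D ≠ E := by
      rintro rfl
      exact hD hE
    exact conn_disj_iff.mp (hc D (mem_insert_self _ _) E (mem_insert_of_mem hE) hDE) α hα β hβE

/-- A multiplicative weight summed over all subsets is the partition function of the connected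
subsets.  (Strong induction on `𝒜`: pick `α ∈ 𝒜`, sort the subsets containing `α` by the
component of `α` and the compatible families by their member containing `α`; or show that
`F ↦ F.biUnion id` is a bijection from compatible families onto the subsets.) -/
theorem sum_eq_Xi (𝒜 : Finset At) (hne : ∀ α ∈ 𝒜, (supp α).Nonempty) (w : Finset At → ℝ)
    (h0 : w ∅ = 1)
    (hmul : ∀ C₁ ⊆ 𝒜, ∀ C₂ ⊆ 𝒜, Disjoint (SS supp C₁) (SS supp C₂) →
      w (C₁ ∪ C₂) = w C₁ * w C₂) :
    ∑ C ∈ 𝒜.powerset, w C = Xi (SS supp) w (conns supp 𝒜) := by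
  classical
  unfold Xi
  refine sum_nbij' (connComps supp) (fun F => F.biUnion id) ?_ ?_ ?_ ?_ ?_
  · intro C hC
    rw [mem_powerset] at hC
    rw [mem_filter, mem_powerset]
    exact ⟨fun D hD => mem_conns.mpr ⟨(conn_mem_comps.mp hD).1.trans hC,
      (conn_mem_comps.mp hD).2.1⟩, conn_comps_compat C⟩
  · intro F hF
    rw [mem_filter, mem_powerset] at hF
    exact mem_powerset.mpr (biUnion_subset.mpr fun D hD => (mem_conns.mp (hF.1 hD)).1)
  · intro C _
    exact conn_comps_union C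
  · intro F hF
    rw [mem_filter, mem_powerset] at hF
    exact conn_comps_of_family (fun D hD => (mem_conns.mp (hF.1 hD)).2) hF.2
      fun D hD α hα => hne α ((mem_conns.mp (hF.1 hD)).1 hα)
  · intro C hC
    rw [mem_powerset] at hC
    rw [← conn_w_family 𝒜 w h0 hmul _ (fun D hD => (conn_mem_comps.mp hD).1.trans hC)
      (conn_comps_compat C), conn_comps_union]

/-- Tree bound.  Strong induction on `𝒜`: the components of `C.erase α` all contain an atom of
`𝒜.erase α` meeting `supp α`, so the sum is at most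
`ω α * ∏ β, (1 + ∑ over connected C' ⊆ 𝒜.erase α containing β)`, `β` meeting `supp α`. -/
theorem tree_bound (𝒜 : Finset At) (ω g : At → ℝ) (hω : ∀ α ∈ 𝒜, 0 ≤ ω α)
    (hg : ∀ α ∈ 𝒜, ∑ β ∈ 𝒜 with ¬ Disjoint (supp α) (supp β), ω β * Real.exp (g β) ≤ g α)
    {α : At} (hα : α ∈ 𝒜) :
    ∑ C ∈ conns supp 𝒜 with α ∈ C, ∏ β ∈ C, ω β ≤ ω α * Real.exp (g α) := by
  classical
  induction 𝒜 using Finset.strongInduction generalizing α with
  | H 𝒜 ih =>
  set 𝒜' := 𝒜.erase α with h𝒜'
  have hsub : 𝒜' ⊆ 𝒜 := erase_subset _ _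
  have hω' : ∀ β ∈ 𝒜', 0 ≤ ω β := fun β hβ => hω β (hsub hβ)
  have hmono : ∀ γ, ∑ β ∈ 𝒜' with ¬ Disjoint (supp γ) (supp β), ω β * Real.exp (g β) ≤
      ∑ β ∈ 𝒜 with ¬ Disjoint (supp γ) (supp β), ω β * Real.exp (g β) := fun γ =>
    sum_le_sum_of_subset_of_nonneg (filter_subset_filter _ hsub) fun β hβ _ =>
      mul_nonneg (hω β (mem_filter.mp hβ).1) (Real.exp_pos _).le
  have ih' : ∀ β ∈ 𝒜', ∑ C ∈ conns supp 𝒜' with β ∈ C, ∏ γ ∈ C, ω γ ≤ ω β * Real.exp (g β) :=
    fun β hβ => ih 𝒜' (erase_ssubset hα) hω' (fun γ hγ => (hmono γ).trans (hg γ (hsub hγ))) hβ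
  have hW : ∀ D ∈ conns supp 𝒜', 0 ≤ ∏ γ ∈ D, ω γ := fun D hD =>
    prod_nonneg fun γ hγ => hω' γ ((mem_conns.mp hD).1 hγ)
  set N := 𝒜'.filter fun β => ¬ Disjoint (supp α) (supp β) with hN
  set T := (conns supp 𝒜').filter fun D => ∃ β ∈ N, β ∈ D with hT
  have hTsum : ∑ D ∈ T, ∏ γ ∈ D, ω γ ≤ g α := by
    refine (conn_union_bound (conns supp 𝒜') N (fun β D => β ∈ D) _ _ hW
      fun D _ h => h).trans ?_
    refine (sum_le_sum fun β hβ => ih' β (mem_filter.mp hβ).1).trans ?_
    exact (hmono α).trans (hg α hα)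
  have hexp : ∑ F ∈ T.powerset, ∏ D ∈ F, ∏ γ ∈ D, ω γ ≤ Real.exp (g α) := by
    rw [← prod_one_add]
    refine le_trans ?_ (Real.exp_le_exp.mpr hTsum)
    rw [Real.exp_sum]
    refine prod_le_prod (fun D hD => ?_) fun D _ => ?_
    · have := hW D (mem_filter.mp hD).1
      linarith
    · have := Real.add_one_le_exp (∏ γ ∈ D, ω γ)
      linarith only [this]
  have h1 : ∑ C ∈ conns supp 𝒜 with α ∈ C, ∏ β ∈ C, ω β =
      ω α * ∑ C ∈ conns supp 𝒜 with α ∈ C,
        ∏ D ∈ connComps supp (C.erase α), ∏ γ ∈ D, ω γ := by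
    rw [mul_sum]
    refine sum_congr rfl fun C hC => ?_
    rw [← conn_comps_prod, mul_prod_erase _ _ (mem_filter.mp hC).2]
  rw [h1]
  refine mul_le_mul_of_nonneg_left (le_trans ?_ hexp) (hω α hα)
  have hinj : Set.InjOn (fun C : Finset At => connComps supp (C.erase α))
      ((conns supp 𝒜).filter fun C => α ∈ C : Finset (Finset At)) := by
    intro C hC C' hC' h
    have h2 : C.erase α = C'.erase α := by
      rw [← conn_comps_union (supp := supp) (C.erase α), ← conn_comps_union (supp := supp)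
        (C'.erase α)]
      exact congrArg (fun F : Finset (Finset At) => F.biUnion id) h
    rw [← insert_erase (mem_filter.mp (mem_coe.mp hC)).2, h2,
      insert_erase (mem_filter.mp (mem_coe.mp hC')).2]
  rw [← sum_image (f := fun F : Finset (Finset At) => ∏ D ∈ F, ∏ γ ∈ D, ω γ) hinj]
  refine sum_le_sum_of_subset_of_nonneg ?_ fun F hF _ =>
    prod_nonneg fun D hD => hW D (mem_filter.mp (mem_powerset.mp hF hD)).1
  intro F hF
  obtain ⟨C, hC, rfl⟩ := mem_image.mp hF
  rw [mem_filter, mem_conns] at hC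
  obtain ⟨⟨hC𝒜, hCc⟩, hαC⟩ := hC
  refine mem_powerset.mpr fun D hD => ?_
  obtain ⟨hD1, hD2, hD3⟩ := conn_mem_comps.mp hD
  have hD𝒜 : D ⊆ 𝒜' := hD1.trans (erase_subset_erase α hC𝒜)
  refine mem_filter.mpr ⟨mem_conns.mpr ⟨hD𝒜, hD2⟩, ?_⟩
  have hαD : α ∉ D := fun h => (notMem_erase α C) (hD1 h)
  have hnd := hCc.2 D (hD1.trans (erase_subset _ _)) hD2.1 (fun h => hαD (h ▸ hαC))
  rw [conn_disj_iff] at hnd hD3
  push Not at hnd
  obtain ⟨γ, hγ, β, hβ, hd⟩ := hnd
  rw [mem_sdiff] at hβ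
  have hβα : β = α := by
    by_contra hne
    exact hd (hD3 γ hγ β (mem_sdiff.mpr ⟨mem_erase.mpr ⟨hne, hβ.1⟩, hβ.2⟩))
  subst hβα
  exact ⟨γ, mem_filter.mpr ⟨hD𝒜 hγ, fun h => hd h.symm⟩, hγ⟩

theorem tree_bound_pt (𝒜 : Finset At) (ω : At → ℝ) (hω : ∀ α ∈ 𝒜, 0 ≤ ω α) {s : ℝ}
    (hs : s ≤ 1)
    (hpt : ∀ q, ∑ β ∈ 𝒜 with q ∈ supp β, ω β * Real.exp (supp β).card ≤ s) (q : Pt) :
    ∑ C ∈ conns supp 𝒜 with q ∈ SS supp C, ∏ β ∈ C, ω β ≤ s := by
  have hg : ∀ α ∈ 𝒜, ∑ β ∈ 𝒜 with ¬ Disjoint (supp α) (supp β),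
      ω β * Real.exp (supp β).card ≤ ((supp α).card : ℝ) := by
    intro α _
    refine (conn_union_bound 𝒜 (supp α) (fun p β => p ∈ supp β) _ _
      (fun β hβ => mul_nonneg (hω β hβ) (Real.exp_pos _).le)
      fun β _ h => not_disjoint_iff.mp h).trans ?_
    refine (sum_le_sum fun p _ => (hpt p).trans hs).trans ?_
    simp
  refine (conn_union_bound (conns supp 𝒜) (𝒜.filter fun β => q ∈ supp β) (fun β C => β ∈ C) _ _
    (fun C hC => prod_nonneg fun γ hγ => hω γ ((mem_conns.mp hC).1 hγ)) fun C hC h => ?_).trans ?_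
  · obtain ⟨β, hβ, hq⟩ := mem_SS.mp h
    exact ⟨β, mem_filter.mpr ⟨(mem_conns.mp hC).1 hβ, hq⟩, hβ⟩
  · refine le_trans (sum_le_sum fun β hβ => ?_) (hpt q)
    exact tree_bound 𝒜 ω (fun β => ((supp β).card : ℝ)) hω hg (mem_filter.mp hβ).1

end Pool.Agent.MP_646035_al.PT

end


-- toolkit of helper91, part Model
section

namespace Pool.Agent.MP_646035_al.PT

open Finset

variable {Q : Type*} [AddCommGroup Q] [DecidableEq Q]

/-- Every site is an end of an even number of bonds of `D`. -/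
def Bal (e : Fin 2 → Q) (D : Finset (Q × Fin 2)) : Prop :=
  ∀ v, Even ((D.filter fun b => b.1 = v).card + (D.filter fun b => b.1 - e b.2 = v).card)

/-- Maps of sites that respect the two directions. -/
def Mor {Q' : Type*} [AddCommGroup Q'] (e' : Fin 2 → Q') (e : Fin 2 → Q) (π : Q' → Q) : Prop :=
  ∀ p k, π (p + e' k) = π p + e k

omit [DecidableEq Q] in
lemma Mor.sub {Q' : Type*} [AddCommGroup Q'] {e' : Fin 2 → Q'} {e : Fin 2 → Q} {π : Q' → Q}
    (h : Mor e' e π) (p : Q') (k : Fin 2) : π (p - e' k) = π p - e k := by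
  have := h (p - e' k) k
  rw [sub_add_cancel] at this
  rw [this, add_sub_cancel_right]

end Pool.Agent.MP_646035_al.PT

end


-- toolkit of helper91, part GBasic
section

namespace Pool.Agent.MP_646035_al.PT

open Finset

variable {Q : Type*} [AddCommGroup Q] [DecidableEq Q] {e : Fin 2 → Q}

omit [AddCommGroup Q] in
lemma gbasic_K_insert (g : Finset Q → ℝ) {a : Q} {Y : Finset Q} (ha : a ∉ Y) :
    ∑ V ∈ (insert a Y).powerset, (-1) ^ (insert a Y \ V).card * g V =
      ∑ V ∈ Y.powerset, (-1) ^ (Y \ V).card * (g (insert a V) - g V) := by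
  rw [sum_powerset_insert ha, ← sum_add_distrib]
  refine sum_congr rfl fun V hV => ?_
  have haV : a ∉ V := fun h => ha (mem_powerset.1 hV h)
  rw [insert_sdiff_of_notMem _ haV, card_insert_of_notMem (by simp [ha]), insert_sdiff_insert,
    sdiff_insert_of_notMem ha]
  ring

omit [AddCommGroup Q] in
lemma gbasic_moebius (g : Finset Q → ℝ) (Λ : Finset Q) :
    ∑ Y ∈ Λ.powerset, ∑ V ∈ Y.powerset, (-1) ^ (Y \ V).card * g V = g Λ := by
  induction Λ using Finset.induction_on generalizing g with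
  | empty => simp only [powerset_empty, sum_singleton, empty_sdiff, card_empty, pow_zero, one_mul]
  | insert a Λ ha ih =>
    rw [sum_powerset_insert ha, ← sum_add_distrib, ← ih fun V => g (insert a V)]
    refine sum_congr rfl fun Y hY => ?_
    rw [gbasic_K_insert g fun h => ha (mem_powerset.1 hY h), ← sum_add_distrib]
    exact sum_congr rfl fun V _ => by ring

omit [AddCommGroup Q] in
lemma gbasic_sum_powerset_union {R : Type*} [AddCommMonoid R] {Y₁ Y₂ : Finset Q}
    (h : Disjoint Y₁ Y₂) (F : Finset Q → R) :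
    ∑ V ∈ (Y₁ ∪ Y₂).powerset, F V = ∑ V₁ ∈ Y₁.powerset, ∑ V₂ ∈ Y₂.powerset, F (V₁ ∪ V₂) := by
  rw [← sum_product']
  symm
  refine sum_nbij' (fun p => p.1 ∪ p.2) (fun V => (V ∩ Y₁, V ∩ Y₂)) ?_ ?_ ?_ ?_ fun _ _ => rfl
  · intro p hp
    simp only [mem_product, mem_powerset] at hp ⊢
    exact union_subset_union hp.1 hp.2
  · intro V _
    simp
  · rintro ⟨V₁, V₂⟩ hp
    simp only [mem_product, mem_powerset] at hp
    have h1 : Disjoint V₂ Y₁ := h.symm.mono_left hp.2
    have h2 : Disjoint V₁ Y₂ := h.mono_left hp.1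
    simp only [union_inter_distrib_right, inter_eq_left.2 hp.1, inter_eq_left.2 hp.2,
      disjoint_iff_inter_eq_empty.1 h1, disjoint_iff_inter_eq_empty.1 h2, union_empty,
      empty_union]
  · intro V hV
    simp only [← inter_union_distrib_left]
    exact inter_eq_left.2 (mem_powerset.1 hV)

end Pool.Agent.MP_646035_al.PT

end


-- toolkit of helper91, part RepA
section

namespace Pool.Agent.MP_646035_al.PT

open Finset

variable {Q : Type*} [AddCommGroup Q] [DecidableEq Q] {e : Fin 2 → Q}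

lemma repa_compat {Γ Pt : Type*} [DecidableEq Γ] {supp : Γ → Finset Pt} {F₁ F₂ : Finset Γ}
    (h : ∀ γ ∈ F₁, ∀ δ ∈ F₂, Disjoint (supp γ) (supp δ)) :
    Compat supp (F₁ ∪ F₂) ↔ Compat supp F₁ ∧ Compat supp F₂ := by
  constructor
  · exact fun H => ⟨fun γ hγ δ hδ => H γ (mem_union_left _ hγ) δ (mem_union_left _ hδ),
      fun γ hγ δ hδ => H γ (mem_union_right _ hγ) δ (mem_union_right _ hδ)⟩
  · rintro ⟨H1, H2⟩ γ hγ δ hδ hne
    rcases mem_union.1 hγ with h1 | h1 <;> rcases mem_union.1 hδ with h2 | h2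
    exacts [H1 γ h1 δ h2 hne, h γ h1 δ h2, (h δ h2 γ h1).symm, H2 γ h1 δ h2 hne]

end Pool.Agent.MP_646035_al.PT

end


-- toolkit of helper91, part Geom
section

namespace Pool.Agent.MP_646035_al.PT

open Finset

variable {Q Q' : Type*} [AddCommGroup Q] [DecidableEq Q] [AddCommGroup Q'] [DecidableEq Q']
  {e : Fin 2 → Q} {e' : Fin 2 → Q'} {π : Q' → Q}

/-- The diameter of a finite set of integers. -/
def diam (S : Finset ℤ) : ℕ := (S ×ˢ S).sup fun p => (p.1 - p.2).natAbs

lemma le_diam {S : Finset ℤ} {a b : ℤ} (ha : a ∈ S) (hb : b ∈ S) : (a - b).natAbs ≤ diam S :=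
  le_sup (f := fun p : ℤ × ℤ => (p.1 - p.2).natAbs) (mk_mem_product ha hb)

lemma diam_le {S : Finset ℤ} {k : ℕ} (h : ∀ a ∈ S, ∀ b ∈ S, (a - b).natAbs ≤ k) : diam S ≤ k :=
  Finset.sup_le fun _ hp => h _ (mem_product.1 hp).1 _ (mem_product.1 hp).2

lemma diam_mono {S T : Finset ℤ} (h : S ⊆ T) : diam S ≤ diam T :=
  diam_le fun _ ha _ hb => le_diam (h ha) (h hb)

lemma diam_union {S T : Finset ℤ} (h : ¬ Disjoint S T) : diam (S ∪ T) ≤ diam S + diam T := by
  obtain ⟨c, hcS, hcT⟩ := not_disjoint_iff.1 h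
  refine diam_le fun a ha b hb => ?_
  rcases mem_union.1 ha with ha | ha <;> rcases mem_union.1 hb with hb | hb
  · have := le_diam ha hb
    omega
  · have h1 := le_diam ha hcS
    have h2 := le_diam hcT hb
    omega
  · have h1 := le_diam ha hcT
    have h2 := le_diam hcS hb
    omega
  · have := le_diam ha hb
    omega

end Pool.Agent.MP_646035_al.PT

end


-- toolkit of helper91, part Summ
section

namespace Pool.Agent.MP_646035_al.PT

open Finset

variable {Q : Type*} [AddCommGroup Q] [DecidableEq Q] {e : Fin 2 → Q}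

lemma summ_exp (n : ℕ) : Real.exp n ≤ 3 ^ n := by
  rw [← Real.exp_one_pow]
  exact pow_le_pow_left₀ (Real.exp_pos 1).le (by linarith [Real.exp_one_lt_d9]) n

lemma summ_few {ι : Type*} {S T : Finset ι} {f : ι → ℝ} {c : ℝ} {k : ℕ} (hc : 0 ≤ c)
    (hS : S ⊆ T) (hT : T.card ≤ k) (hf : ∀ i ∈ S, f i ≤ c) : ∑ i ∈ S, f i ≤ k * c := by
  refine (sum_le_card_nsmul S f c hf).trans ?_
  rw [nsmul_eq_mul]
  exact mul_le_mul_of_nonneg_right (Nat.cast_le.mpr ((card_le_card hS).trans hT)) hc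

end Pool.Agent.MP_646035_al.PT

end


-- toolkit of helper91, part GeomCut
section

namespace Pool.Agent.MP_646035_al.PT

open Finset

variable {Q : Type*} [AddCommGroup Q] [DecidableEq Q] {e : Fin 2 → Q}

/-- The diameter is bounded as soon as all ordered differences are. -/
lemma geomcut_diam_le {S : Finset ℤ} {k : ℕ} (h : ∀ a ∈ S, ∀ b ∈ S, a ≤ b → b - a ≤ k) :
    diam S ≤ k := by
  refine diam_le fun a ha b hb => ?_
  rcases le_total a b with h1 | h1
  · have := h a ha b hb h1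
    omega
  · have := h b hb a ha h1
    omega

/-- A balanced set of bonds crosses every level an even number of times. -/
lemma geomcut_even {D : Finset (Q × Fin 2)} (hB : Bal e D) (ht : Q →+ ℤ)
    (hht : ∀ k, ht (e k) = 0 ∨ ht (e k) = 1) (t : ℤ) :
    Even (D.filter fun b => ht b.1 = t ∧ ht (e b.2) = 1).card := by
  set V := (D.image Prod.fst ∪ D.image fun b => b.1 - e b.2).filter fun v => ht v < t with hV
  have h1 : Even (∑ v ∈ V, ((D.filter fun b => b.1 = v).card +
      (D.filter fun b => b.1 - e b.2 = v).card)) := even_sum _ fun v _ => hB v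
  rw [sum_add_distrib, sum_card_fiberwise_eq_card_filter, sum_card_fiberwise_eq_card_filter] at h1
  have e1 : (D.filter fun b => b.1 ∈ V) = D.filter fun b => ht b.1 < t := by
    refine filter_congr fun b hb => ?_
    rw [hV, mem_filter]
    exact ⟨fun h => h.2, fun h => ⟨mem_union_left _ (mem_image_of_mem _ hb), h⟩⟩
  have e2 : (D.filter fun b => b.1 - e b.2 ∈ V) =
      (D.filter fun b => ht b.1 < t) ∪ D.filter fun b => ht b.1 = t ∧ ht (e b.2) = 1 := by
    rw [← filter_or]
    refine filter_congr fun b hb => ?_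
    have h4 := hht b.2
    rw [hV, mem_filter, map_sub]
    exact ⟨fun h => by have := h.2; omega, fun h =>
      ⟨mem_union_right _ (mem_image_of_mem (fun b : Q × Fin 2 => b.1 - e b.2) hb), by omega⟩⟩
  rw [e1, e2, card_union_of_disjoint (disjoint_filter.2 fun b _ h1 h2 => by omega),
    ← add_assoc] at h1
  exact (Nat.even_add.1 h1).1 ⟨_, rfl⟩

end Pool.Agent.MP_646035_al.PT

end


-- toolkit of helper91, part Compare
section

namespace Pool.Agent.MP_646035_al.PT

open Finset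

variable {Pt Γ Pt' Γ' : Type*} [DecidableEq Pt] [DecidableEq Γ] [DecidableEq Pt'] [DecidableEq Γ']

/-- Data of a covering: the primed system (universe: the set `V`) covers the other one (universe
`U`) through `π` on polymers and `p` on points; `len` measures the size of a set of points and
`n₀` is the size below which the covering is faithful. -/
structure Cover (supp' : Γ' → Finset Pt') (w' : Γ' → ℝ) (V : Set Γ')
    (supp : Γ → Finset Pt) (w : Γ → ℝ) (U : Finset Γ)
    (π : Γ' → Γ) (p : Pt' → Pt) (len : Finset Pt' → ℕ) (n₀ : ℕ) (y : ℝ) : Prop where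
  one_le : 1 ≤ y
  mono : ∀ A B, A ⊆ B → len A ≤ len B
  union : ∀ A B, ¬ Disjoint A B → len (A ∪ B) ≤ len A + len B
  ne : ∀ δ ∈ V, (supp' δ).Nonempty
  small : ∀ δ ∈ V, len (supp' δ) < n₀ → w (π δ) = w' δ ∧ supp (π δ) = (supp' δ).image p
  lift : ∀ δ ∈ U, ∀ q, p q ∈ supp δ →
    ∃ δ' ∈ V, π δ' = δ ∧ q ∈ supp' δ' ∧ len (supp' δ') < n₀
  uniq : ∀ δ ∈ V, ∀ δ' ∈ V, π δ = π δ' → ∀ q ∈ supp' δ, len (supp' δ) < n₀ →
    len (insert q (supp' δ')) < n₀ → δ = δ'
  sum : ∀ N : Finset Γ', (∀ δ ∈ N, δ ∈ V) → ∀ q,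
    ∑ δ ∈ N with q ∈ supp' δ,
      |w' δ| * Real.exp (2 * (supp' δ).card) * y ^ len (supp' δ) ≤ 1 / 6
  kp : KP supp w U

lemma compare_log_lip {a b : ℝ} (ha : |a| ≤ 1 / 2) (hb : |b| ≤ 1 / 2) :
    |Real.log (1 + a) - Real.log (1 + b)| ≤ 2 * |a - b| := by
  have key : ∀ a b : ℝ, |a| ≤ 1 / 2 → |b| ≤ 1 / 2 →
      Real.log (1 + a) - Real.log (1 + b) ≤ 2 * |a - b| := by
    intro a b ha hb
    have ha' := abs_le.1 ha
    have hb' := abs_le.1 hb
    have h1 : 0 < 1 + a := by linarith only [ha'.1]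
    have h2 : 0 < 1 + b := by linarith only [hb'.1]
    rw [← Real.log_div h1.ne' h2.ne']
    have h3 := Real.log_le_sub_one_of_pos (div_pos h1 h2)
    have h4 : (1 + a) / (1 + b) - 1 = (a - b) / (1 + b) := by field_simp; ring
    have h5 : (a - b) / (1 + b) ≤ 2 * |a - b| := by
      rw [div_le_iff₀ h2]
      have := le_abs_self (a - b)
      have h6 := abs_nonneg (a - b)
      nlinarith only [hb'.1, this, h6]
    linarith only [h3, h4, h5]
  rw [abs_le]
  refine ⟨?_, key a b ha hb⟩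
  have := key b a hb ha
  rw [abs_sub_comm] at this
  linarith only [this]

lemma compare_exp_lip {s t c : ℝ} (hs : |s| ≤ c) (ht : |t| ≤ c) :
    |Real.exp (-s) - Real.exp (-t)| ≤ Real.exp c * |s - t| := by
  have key : ∀ s t : ℝ, |s| ≤ c → Real.exp (-s) - Real.exp (-t) ≤ Real.exp c * |s - t| := by
    intro s t hs
    have h1 : Real.exp (-t) = Real.exp (-s) * Real.exp (s - t) := by
      rw [← Real.exp_add]; ring_nf
    have h2 := Real.add_one_le_exp (s - t)
    have h3 : Real.exp (-s) ≤ Real.exp c := Real.exp_le_exp.2 (by linarith [(abs_le.1 hs).1])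
    have h4 := Real.exp_pos (-s)
    have h5 := neg_abs_le (s - t)
    have h6 := abs_nonneg (s - t)
    calc Real.exp (-s) - Real.exp (-t) = Real.exp (-s) * (1 - Real.exp (s - t)) := by
          rw [h1]; ring
      _ ≤ Real.exp (-s) * |s - t| := by
          apply mul_le_mul_of_nonneg_left _ h4.le
          linarith
      _ ≤ Real.exp c * |s - t| := mul_le_mul_of_nonneg_right h3 h6
  rw [abs_le]
  refine ⟨?_, key s t hs⟩
  have := key t s ht
  rw [abs_sub_comm] at this
  linarith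

section Aux

variable {supp' : Γ' → Finset Pt'} {w' : Γ' → ℝ} {V : Set Γ'}
    {supp : Γ → Finset Pt} {w : Γ → ℝ} {U : Finset Γ}
    {π : Γ' → Γ} {p : Pt' → Pt} {len : Finset Pt' → ℕ} {n₀ : ℕ} {y : ℝ}

lemma compare_term_le (h : Cover supp' w' V supp w U π p len n₀ y) (δ : Γ') :
    |w' δ| * Real.exp (supp' δ).card
      ≤ |w' δ| * Real.exp (2 * (supp' δ).card) * y ^ len (supp' δ) := by
  have h1 : (1 : ℝ) ≤ y ^ len (supp' δ) := one_le_pow₀ h.one_le
  have h2 : Real.exp (supp' δ).card ≤ Real.exp (2 * (supp' δ).card) := by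
    apply Real.exp_le_exp.2
    have : (0 : ℝ) ≤ (supp' δ).card := Nat.cast_nonneg _
    linarith
  have h3 := mul_le_mul_of_nonneg_left h2 (abs_nonneg (w' δ))
  have h4 : 0 ≤ |w' δ| * Real.exp (2 * (supp' δ).card) := by positivity
  nlinarith only [h1, h3, h4]

lemma compare_kp (h : Cover supp' w' V supp w U π p len n₀ y) (L : Finset Γ')
    (hL : ∀ δ ∈ L, δ ∈ V) : KP supp' w' L := by
  refine ⟨fun γ hγ => h.ne γ (hL γ hγ), fun q => ?_⟩
  have h1 := h.sum L hL q
  have h2 : ∑ δ ∈ L with q ∈ supp' δ, |w' δ| * Real.exp (supp' δ).card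
      ≤ ∑ δ ∈ L with q ∈ supp' δ,
        |w' δ| * Real.exp (2 * (supp' δ).card) * y ^ len (supp' δ) :=
    Finset.sum_le_sum fun δ _ => compare_term_le h δ
  linarith

lemma compare_single (h : Cover supp' w' V supp w U π p len n₀ y) {δ : Γ'} (hδ : δ ∈ V) :
    |w' δ| * Real.exp (supp' δ).card ≤ 1 / 2 := by
  obtain ⟨q, hq⟩ := h.ne δ hδ
  have h1 := (compare_kp h {δ} (by simpa using hδ)).sum q
  rw [Finset.filter_singleton, if_pos hq, Finset.sum_singleton] at h1
  exact h1

/-- Removing polymers that meet `H` keeps the invariant. -/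
lemma compare_inv (h : Cover supp' w' V supp w U π p len n₀ y)
    (Λ' : Finset Γ') (Λ : Finset Γ) (H : Finset Pt')
    (hinv : ∀ δ ∈ V, len (H ∪ supp' δ) < n₀ → (δ ∈ Λ' ↔ π δ ∈ Λ))
    (M : Finset Γ') (hM : ∀ δ ∈ M, δ ∈ V ∧ ¬ Disjoint (supp' δ) H) :
    ∀ δ ∈ V, len (H ∪ supp' δ) < n₀ →
      (δ ∈ Λ' \ M ↔ π δ ∈ Λ \ (M.filter fun ε => len (supp' ε) < n₀).image π) := by
  intro δ hδ hl
  rw [Finset.mem_sdiff, Finset.mem_sdiff, hinv δ hδ hl]
  refine and_congr_right fun _ => not_congr ⟨fun hm => ?_, fun hm => ?_⟩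
  · exact Finset.mem_image.2 ⟨δ, Finset.mem_filter.2
      ⟨hm, lt_of_le_of_lt (h.mono _ _ Finset.subset_union_right) hl⟩, rfl⟩
  · obtain ⟨ε, hε, he⟩ := Finset.mem_image.1 hm
    obtain ⟨hεM, hεl⟩ := Finset.mem_filter.1 hε
    obtain ⟨hεV, hd⟩ := hM ε hεM
    obtain ⟨q, hq1, hq2⟩ := Finset.not_disjoint_iff.1 hd
    have h1 : insert q (supp' δ) ⊆ H ∪ supp' δ :=
      Finset.insert_subset (Finset.mem_union_left _ hq2) Finset.subset_union_right
    have := h.uniq ε hεV δ hδ he q hq1 hεl (lt_of_le_of_lt (h.mono _ _ h1) hl)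
    exact this ▸ hεM

/-- One removal. -/
lemma compare_step (h : Cover supp' w' V supp w U π p len n₀ y) (n : ℕ)
    (ih : ∀ (Λ' : Finset Γ'), (∀ δ ∈ Λ', δ ∈ V) → ∀ (Λ : Finset Γ), Λ ⊆ U →
      Λ'.card + Λ.card < n → ∀ (H A : Finset Pt'), A ⊆ H →
      (∀ δ ∈ V, len (H ∪ supp' δ) < n₀ → (δ ∈ Λ' ↔ π δ ∈ Λ)) →
      |Dl supp' w' Λ' A - Dl supp w Λ (A.image p)| ≤ A.card * (y ^ len H / y ^ n₀))
    (L' : Finset Γ') (hL' : ∀ δ ∈ L', δ ∈ V) (L : Finset Γ) (hL : L ⊆ U)
    (hn : L'.card + L.card ≤ n) (H : Finset Pt')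
    (hinv : ∀ δ ∈ V, len (H ∪ supp' δ) < n₀ → (δ ∈ L' ↔ π δ ∈ L))
    {δ : Γ'} (hδ : δ ∈ V) (hd : ¬ Disjoint (supp' δ) H) :
    |(Real.log (Xi supp' w' L') - Real.log (Xi supp' w' (L'.erase δ)))
      - (Real.log (Xi supp w L) - Real.log (Xi supp w
          (if len (supp' δ) < n₀ then L.erase (π δ) else L)))|
      ≤ 6 * (|w' δ| * Real.exp (2 * (supp' δ).card) * y ^ len (supp' δ))
          * (y ^ len H / y ^ n₀) := by
  have hy : 0 < y := lt_of_lt_of_le one_pos h.one_le
  have hkp' := compare_kp h L' hL'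
  have hun : len (H ∪ supp' δ) ≤ len H + len (supp' δ) :=
    h.union _ _ (fun hh => hd hh.symm)
  have hw0 := abs_nonneg (w' δ)
  have hcard : ∀ (hs : len (supp' δ) < n₀), ((supp (π δ)).card : ℝ) ≤ (supp' δ).card := by
    intro hs
    rw [(h.small δ hδ hs).2]
    exact_mod_cast Finset.card_image_le
  by_cases hc : len (H ∪ supp' δ) < n₀
  · have hs : len (supp' δ) < n₀ := lt_of_le_of_lt (h.mono _ _ Finset.subset_union_right) hc
    rw [if_pos hs]
    by_cases hm : δ ∈ L'
    · have hm2 : π δ ∈ L := (hinv δ hδ hc).1 hm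
      rw [hkp'.step_eq (Finset.Subset.refl _) hm, h.kp.step_eq hL hm2, (h.small δ hδ hs).1]
      have hinv2 : ∀ ε ∈ V, len (H ∪ supp' δ ∪ supp' ε) < n₀ →
          (ε ∈ L'.erase δ ↔ π ε ∈ L.erase (π δ)) := by
        intro ε hε hl
        have hl2 : len (H ∪ supp' ε) < n₀ := lt_of_le_of_lt (h.mono _ _
          (Finset.union_subset_union Finset.subset_union_left (Finset.Subset.refl _))) hl
        have := compare_inv h L' L H hinv {δ} (by simpa using ⟨hδ, hd⟩) ε hε hl2
        rw [Finset.filter_singleton, if_pos hs, Finset.image_singleton,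
          Finset.sdiff_singleton_eq_erase, Finset.sdiff_singleton_eq_erase] at this
        exact this
      have hlt : (L'.erase δ).card + (L.erase (π δ)).card < n := by
        have a1 := Finset.card_erase_lt_of_mem hm
        have a2 := Finset.card_erase_lt_of_mem hm2
        omega
      have hI := ih (L'.erase δ) (fun ε hε => hL' ε (Finset.mem_of_mem_erase hε)) (L.erase (π δ))
        ((Finset.erase_subset _ _).trans hL) hlt (H ∪ supp' δ) (supp' δ)
        Finset.subset_union_right hinv2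
      rw [← (h.small δ hδ hs).2] at hI
      set s := Dl supp' w' (L'.erase δ) (supp' δ) with hsdef
      set t := Dl supp w (L.erase (π δ)) (supp (π δ)) with htdef
      set c : ℝ := ((supp' δ).card : ℝ) with hcdef
      have hsc : |s| ≤ c := hkp'.Dl_le (Finset.erase_subset _ _) _
      have htc : |t| ≤ c :=
        (h.kp.Dl_le ((Finset.erase_subset _ _).trans hL) _).trans (hcard hs)
      have hone := compare_single h hδ
      have hb : ∀ u : ℝ, |u| ≤ c → |w' δ * Real.exp (-u)| ≤ 1 / 2 := by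
        intro u hu
        rw [abs_mul, abs_of_pos (Real.exp_pos _)]
        have : Real.exp (-u) ≤ Real.exp c := Real.exp_le_exp.2 (by linarith only [(abs_le.1 hu).1])
        exact (mul_le_mul_of_nonneg_left this hw0).trans hone
      have h1 := compare_log_lip (hb s hsc) (hb t htc)
      have h2 := compare_exp_lip hsc htc
      have h3 : |w' δ * Real.exp (-s) - w' δ * Real.exp (-t)|
          = |w' δ| * |Real.exp (-s) - Real.exp (-t)| := by rw [← mul_sub, abs_mul]
      have h4 : y ^ len (H ∪ supp' δ) / y ^ n₀ ≤ y ^ len (supp' δ) * (y ^ len H / y ^ n₀) := by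
        rw [← mul_div_assoc, ← pow_add]
        apply div_le_div_of_nonneg_right _ (by positivity)
        exact pow_le_pow_right₀ h.one_le (by omega)
      have hc0 : 0 ≤ c := Nat.cast_nonneg _
      have h5 : c ≤ Real.exp c := by linarith only [Real.add_one_le_exp c]
      set z := y ^ len (supp' δ) * (y ^ len H / y ^ n₀) with hz
      have hz0 : 0 ≤ z := by positivity
      have h6 : |s - t| ≤ Real.exp c * z :=
        hI.trans (mul_le_mul h5 h4 (by positivity) (Real.exp_pos _).le)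
      have h7 : Real.exp (2 * c) = Real.exp c * Real.exp c := by rw [← Real.exp_add]; ring_nf
      have h8 : |Real.exp (-s) - Real.exp (-t)| ≤ Real.exp (2 * c) * z := by
        rw [h7, mul_assoc]
        exact h2.trans (mul_le_mul_of_nonneg_left h6 (Real.exp_pos _).le)
      have h9 := mul_le_mul_of_nonneg_left h8 hw0
      have h10 : 0 ≤ |w' δ| * (Real.exp (2 * c) * z) := by positivity
      calc _ ≤ 2 * (|w' δ| * (Real.exp (2 * c) * z)) := by rw [h3] at h1; linarith only [h1, h9]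
        _ ≤ 6 * (|w' δ| * (Real.exp (2 * c) * z)) := by linarith only [h10]
        _ = _ := by rw [hz]; ring
    · have hm2 : π δ ∉ L := fun hh => hm ((hinv δ hδ hc).2 hh)
      rw [Finset.erase_eq_of_notMem hm, Finset.erase_eq_of_notMem hm2]
      simp only [sub_self, abs_zero]
      positivity
  · have h1 : 1 ≤ y ^ len (supp' δ) * (y ^ len H / y ^ n₀) := by
      rw [← mul_div_assoc, ← pow_add, le_div_iff₀ (by positivity), one_mul]
      exact pow_le_pow_right₀ h.one_le (by omega)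
    have h0 : 0 ≤ 2 * |w' δ| * Real.exp (supp' δ).card := by positivity
    have ha : |Real.log (Xi supp' w' L') - Real.log (Xi supp' w' (L'.erase δ))|
        ≤ 2 * |w' δ| * Real.exp (supp' δ).card := by
      by_cases hm : δ ∈ L'
      · exact (hkp'.pos_step L' (Finset.Subset.refl _)).2 δ hm
      · rw [Finset.erase_eq_of_notMem hm]; simpa only [sub_self, abs_zero] using h0
    have hb : |Real.log (Xi supp w L) - Real.log (Xi supp w
          (if len (supp' δ) < n₀ then L.erase (π δ) else L))|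
        ≤ 2 * |w' δ| * Real.exp (supp' δ).card := by
      split_ifs with hs
      · by_cases hm : π δ ∈ L
        · refine ((h.kp.pos_step L hL).2 _ hm).trans ?_
          rw [(h.small δ hδ hs).1]
          exact mul_le_mul_of_nonneg_left (Real.exp_le_exp.2 (hcard hs)) (by positivity)
        · rw [Finset.erase_eq_of_notMem hm]; simpa only [sub_self, abs_zero] using h0
      · simpa only [sub_self, abs_zero] using h0
    have h2 : Real.exp (supp' δ).card ≤ Real.exp (2 * (supp' δ).card) := by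
      apply Real.exp_le_exp.2
      have : (0 : ℝ) ≤ (supp' δ).card := Nat.cast_nonneg _
      linarith only []
    have h3 := mul_le_mul_of_nonneg_left h2 hw0
    have h4 : 0 ≤ |w' δ| * Real.exp (2 * (supp' δ).card) := by positivity
    have h5 := mul_le_mul_of_nonneg_left h1 h4
    calc _ ≤ _ := abs_sub _ _
      _ ≤ 6 * (|w' δ| * Real.exp (2 * (supp' δ).card)
            * (y ^ len (supp' δ) * (y ^ len H / y ^ n₀))) := by linarith only [h0, ha, hb, h3, h5]
      _ = _ := by ring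

/-- Removal of a whole finite set. -/
lemma compare_many (h : Cover supp' w' V supp w U π p len n₀ y) (n : ℕ)
    (ih : ∀ (Λ' : Finset Γ'), (∀ δ ∈ Λ', δ ∈ V) → ∀ (Λ : Finset Γ), Λ ⊆ U →
      Λ'.card + Λ.card < n → ∀ (H A : Finset Pt'), A ⊆ H →
      (∀ δ ∈ V, len (H ∪ supp' δ) < n₀ → (δ ∈ Λ' ↔ π δ ∈ Λ)) →
      |Dl supp' w' Λ' A - Dl supp w Λ (A.image p)| ≤ A.card * (y ^ len H / y ^ n₀))
    (L' : Finset Γ') (hL' : ∀ δ ∈ L', δ ∈ V) (L : Finset Γ) (hL : L ⊆ U)
    (hn : L'.card + L.card ≤ n) (H : Finset Pt')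
    (hinv : ∀ δ ∈ V, len (H ∪ supp' δ) < n₀ → (δ ∈ L' ↔ π δ ∈ L))
    (M : Finset Γ') (hM : ∀ δ ∈ M, δ ∈ V ∧ ¬ Disjoint (supp' δ) H) :
    |(Real.log (Xi supp' w' L') - Real.log (Xi supp' w' (L' \ M)))
      - (Real.log (Xi supp w L) - Real.log (Xi supp w
          (L \ (M.filter fun ε => len (supp' ε) < n₀).image π)))|
      ≤ ∑ δ ∈ M, 6 * (|w' δ| * Real.exp (2 * (supp' δ).card) * y ^ len (supp' δ))
          * (y ^ len H / y ^ n₀) := by
  induction M using Finset.induction_on with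
  | empty => simp
  | insert δ M hδM ihM =>
    have hM' : ∀ ε ∈ M, ε ∈ V ∧ ¬ Disjoint (supp' ε) H :=
      fun ε hε => hM ε (Finset.mem_insert_of_mem hε)
    obtain ⟨hδV, hδd⟩ := hM δ (Finset.mem_insert_self _ _)
    have h1 := ihM hM'
    have hc1 : (L' \ M).card ≤ L'.card := Finset.card_le_card Finset.sdiff_subset
    have hc2 : (L \ (M.filter fun ε => len (supp' ε) < n₀).image π).card ≤ L.card :=
      Finset.card_le_card Finset.sdiff_subset
    have h2 := compare_step h n ih (L' \ M) (fun ε hε => hL' ε (Finset.mem_sdiff.1 hε).1)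
      (L \ (M.filter fun ε => len (supp' ε) < n₀).image π) (Finset.sdiff_subset.trans hL)
      (by omega) H (compare_inv h L' L H hinv M hM') hδV hδd
    have e1 : L' \ insert δ M = (L' \ M).erase δ := Finset.sdiff_insert _ _ _
    have e2 : L \ ((insert δ M).filter fun ε => len (supp' ε) < n₀).image π
        = if len (supp' δ) < n₀
          then (L \ (M.filter fun ε => len (supp' ε) < n₀).image π).erase (π δ)
          else L \ (M.filter fun ε => len (supp' ε) < n₀).image π := by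
      rw [Finset.filter_insert]
      split_ifs with hs
      · rw [Finset.image_insert, Finset.sdiff_insert]
      · rfl
    rw [e1, e2, Finset.sum_insert hδM]
    have h3 := abs_le.1 h1
    have h4 := abs_le.1 h2
    rw [abs_le]
    constructor <;> linarith only [h3.1, h3.2, h4.1, h4.2]

lemma compare_sum (h : Cover supp' w' V supp w U π p len n₀ y) (A : Finset Pt')
    (N : Finset Γ') (hN : ∀ δ ∈ N, δ ∈ V ∧ ¬ Disjoint (supp' δ) A) :
    ∑ δ ∈ N, 6 * (|w' δ| * Real.exp (2 * (supp' δ).card) * y ^ len (supp' δ)) ≤ A.card := by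
  have hy : 0 < y := lt_of_lt_of_le one_pos h.one_le
  have h1 : ∑ δ ∈ N, |w' δ| * Real.exp (2 * (supp' δ).card) * y ^ len (supp' δ)
      ≤ ∑ δ ∈ N, ∑ q ∈ A, if q ∈ supp' δ then
        |w' δ| * Real.exp (2 * (supp' δ).card) * y ^ len (supp' δ) else 0 := by
    refine Finset.sum_le_sum fun δ hδ => ?_
    obtain ⟨q, hq1, hq2⟩ := Finset.not_disjoint_iff.1 (hN δ hδ).2
    have := Finset.single_le_sum (f := fun q => if q ∈ supp' δ then
        |w' δ| * Real.exp (2 * (supp' δ).card) * y ^ len (supp' δ) else 0)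
        (fun q _ => by split_ifs <;> positivity) hq2
    simpa only [if_pos hq1] using this
  rw [Finset.sum_comm] at h1
  have h2 : ∑ q ∈ A, ∑ δ ∈ N, (if q ∈ supp' δ then
        |w' δ| * Real.exp (2 * (supp' δ).card) * y ^ len (supp' δ) else 0)
      ≤ ∑ _q ∈ A, (1 / 6 : ℝ) := by
    refine Finset.sum_le_sum fun q _ => ?_
    rw [← Finset.sum_filter]
    exact h.sum N (fun δ hδ => (hN δ hδ).1) q
  rw [Finset.sum_const, nsmul_eq_mul] at h2
  rw [← Finset.mul_sum]
  linarith

lemma compare_aux (h : Cover supp' w' V supp w U π p len n₀ y) (n : ℕ) :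
    ∀ (Λ' : Finset Γ'), (∀ δ ∈ Λ', δ ∈ V) → ∀ (Λ : Finset Γ), Λ ⊆ U →
      Λ'.card + Λ.card < n → ∀ (H A : Finset Pt'), A ⊆ H →
      (∀ δ ∈ V, len (H ∪ supp' δ) < n₀ → (δ ∈ Λ' ↔ π δ ∈ Λ)) →
      |Dl supp' w' Λ' A - Dl supp w Λ (A.image p)| ≤ A.card * (y ^ len H / y ^ n₀) := by
  have hy : 0 < y := lt_of_lt_of_le one_pos h.one_le
  induction n with
  | zero => intro _ _ _ _ hlt; omega
  | succ n ih =>
    intro Λ' hΛ' Λ hΛ hlt H A hA hinv
    have hex : ∀ δ : {δ // δ ∈ Λ.filter fun δ => ¬ Disjoint (supp δ) (A.image p)},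
        ∃ δ' ∈ V, π δ' = δ.1 ∧ ¬ Disjoint (supp' δ') A ∧ len (supp' δ') < n₀ := by
      rintro ⟨δ, hδ⟩
      obtain ⟨hδ1, hδ2⟩ := Finset.mem_filter.1 hδ
      obtain ⟨r, hr1, hr2⟩ := Finset.not_disjoint_iff.1 hδ2
      obtain ⟨q, hq, rfl⟩ := Finset.mem_image.1 hr2
      obtain ⟨δ', a1, a2, a3, a4⟩ := h.lift δ (hΛ hδ1) q hr1
      exact ⟨δ', a1, a2, Finset.not_disjoint_iff.2 ⟨q, a3, hq⟩, a4⟩
    choose f hfV hfπ hfd hfl using hex
    set N : Finset Γ' := (Λ'.filter fun δ => ¬ Disjoint (supp' δ) A) ∪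
      (Λ.filter fun δ => ¬ Disjoint (supp δ) (A.image p)).attach.image f with hNdef
    have hN : ∀ δ ∈ N, δ ∈ V ∧ ¬ Disjoint (supp' δ) A := by
      intro δ hδ
      rcases Finset.mem_union.1 hδ with h1 | h1
      · exact ⟨hΛ' δ (Finset.mem_filter.1 h1).1, (Finset.mem_filter.1 h1).2⟩
      · obtain ⟨ε, -, rfl⟩ := Finset.mem_image.1 h1
        exact ⟨hfV ε, hfd ε⟩
    have hNH : ∀ δ ∈ N, δ ∈ V ∧ ¬ Disjoint (supp' δ) H :=
      fun δ hδ => ⟨(hN δ hδ).1, fun hh => (hN δ hδ).2 (hh.mono_right hA)⟩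
    have h1 := compare_many h n ih Λ' hΛ' Λ hΛ (by omega) H hinv N hNH
    have e1 : Λ' \ N = away supp' Λ' A := by
      ext δ
      rw [Finset.mem_sdiff, away, Finset.mem_filter]
      refine and_congr_right fun hδ => ⟨fun hn => ?_, fun hd hn => (hN δ hn).2 hd⟩
      by_contra hd
      exact hn (Finset.mem_union_left _ (Finset.mem_filter.2 ⟨hδ, hd⟩))
    have e2 : Λ \ (N.filter fun ε => len (supp' ε) < n₀).image π
        = away supp Λ (A.image p) := by
      ext δ
      rw [Finset.mem_sdiff, away, Finset.mem_filter]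
      refine and_congr_right fun hδ => ⟨fun hn => ?_, fun hd hn => ?_⟩
      · by_contra hd
        apply hn
        have hm : δ ∈ Λ.filter fun δ => ¬ Disjoint (supp δ) (A.image p) :=
          Finset.mem_filter.2 ⟨hδ, hd⟩
        refine Finset.mem_image.2 ⟨f ⟨δ, hm⟩, Finset.mem_filter.2 ⟨?_, hfl _⟩, hfπ _⟩
        exact Finset.mem_union_right _ (Finset.mem_image.2 ⟨⟨δ, hm⟩, Finset.mem_attach _ _, rfl⟩)
      · obtain ⟨ε, hε, rfl⟩ := Finset.mem_image.1 hn
        obtain ⟨hε1, hε2⟩ := Finset.mem_filter.1 hε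
        obtain ⟨q, hq1, hq2⟩ := Finset.not_disjoint_iff.1 (hN ε hε1).2
        rw [(h.small ε (hN ε hε1).1 hε2).2] at hd
        exact Finset.disjoint_left.1 hd (Finset.mem_image_of_mem p hq1)
          (Finset.mem_image_of_mem p hq2)
    rw [e1, e2, ← Finset.sum_mul] at h1
    exact h1.trans (mul_le_mul_of_nonneg_right (compare_sum h A N hN) (by positivity))

end Aux

/-- Strong induction on `Λ'.card + Λ.card`.  Let `N` be the finite set of the `δ ∈ V` meeting `A`
that lie in `Λ'` or are lifts (`lift`) of members of `Λ` meeting `A.image p`.  Remove its members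
one at a time: `δ` from `Λ'` and, when `len (supp' δ) < n₀`, `π δ` from `Λ`; `uniq` keeps `hinv`
(same `H`).  One removal changes the two logarithms by amounts whose difference is at most
`6 |w' δ| exp (2 card) y ^ len (supp' δ) * y ^ len H / y ^ n₀`: if `len (H ∪ supp' δ) < n₀` both
or neither are present, use `KP.step_eq`, the outer induction hypothesis with `H ∪ supp' δ` and
`supp' δ`, `|log (1 + a) - log (1 + b)| ≤ 2 |a - b|` for `|a|, |b| ≤ 1/2` and
`|exp (-s) - exp (-t)| ≤ exp c * |s - t|` for `|s|, |t| ≤ c`; otherwise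
`n₀ ≤ len H + len (supp' δ)` and `KP.pos_step` bounds both changes.  (`sum` with `N = Λ'` gives
`KP supp' w' Λ'`; `card (supp (π δ)) ≤ card (supp' δ)`.) -/
theorem Cover.compare {supp' : Γ' → Finset Pt'} {w' : Γ' → ℝ} {V : Set Γ'}
    {supp : Γ → Finset Pt} {w : Γ → ℝ} {U : Finset Γ}
    {π : Γ' → Γ} {p : Pt' → Pt} {len : Finset Pt' → ℕ} {n₀ : ℕ} {y : ℝ}
    (h : Cover supp' w' V supp w U π p len n₀ y)
    (Λ' : Finset Γ') (hΛ' : ∀ δ ∈ Λ', δ ∈ V) (Λ : Finset Γ) (hΛ : Λ ⊆ U)
    (H A : Finset Pt') (hA : A ⊆ H)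
    (hinv : ∀ δ ∈ V, len (H ∪ supp' δ) < n₀ → (δ ∈ Λ' ↔ π δ ∈ Λ)) :
    |Dl supp' w' Λ' A - Dl supp w Λ (A.image p)| ≤ A.card * (y ^ len H / y ^ n₀) := by
  exact compare_aux h _ Λ' hΛ' Λ hΛ (Nat.lt_succ_self _) H A hA hinv

end Pool.Agent.MP_646035_al.PT

end


-- toolkit of helper91, part Cyl
section

namespace Pool.Agent.MP_646035_al.PT

open Finset


/-- The directions of the plane. -/
def eP : Fin 2 → ℤ × ℤ
  | 0 => (1, 0)
  | 1 => (0, 1)

@[simp] lemma eP_zero : eP 0 = (1, 0) := rfl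
@[simp] lemma eP_one : eP 1 = (0, 1) := rfl

lemma cyl_mor (u : ℤ × ℤ) : Mor eP eP fun v => v + u := fun _ _ => add_right_comm _ _ _

end Pool.Agent.MP_646035_al.PT

end


-- toolkit of helper91, part Cyc
section

namespace Pool.Agent.MP_646035_al.PT

open Finset


/-- Some residue is not the residue of a member of a small set. -/
lemma cyc_residue {n : ℕ} {S : Finset ℤ} (h : S.card < n) :
    ∃ ρ : ℤ, ∀ j ∈ S, (j - ρ) % n ≠ 0 := by
  have h1 : (S.image fun j => j % (n : ℤ)).card < (Ico (0 : ℤ) n).card := by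
    rw [Int.card_Ico, sub_zero, Int.toNat_natCast]
    exact card_image_le.trans_lt h
  obtain ⟨ρ, hρ, hρ'⟩ := exists_mem_notMem_of_card_lt_card h1
  rw [mem_Ico] at hρ
  refine ⟨ρ, fun j hj h0 => hρ' (mem_image.2 ⟨j, hj, ?_⟩)⟩
  rw [← Int.emod_emod_of_dvd, Int.emod_eq_emod_iff_emod_sub_eq_zero.2 h0,
    Int.emod_eq_of_lt hρ.1 hρ.2, Int.emod_eq_of_lt hρ.1 hρ.2]
  exact dvd_rfl

end Pool.Agent.MP_646035_al.PT

end


-- toolkit of helper91, part Bulk
section

namespace Pool.Agent.MP_646035_al.PT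

open Finset


noncomputable def sq (R : ℕ) : Finset (ℤ × ℤ) := Ico (0 : ℤ) R ×ˢ Ico (0 : ℤ) R

lemma bulk_card_sq (R : ℕ) : ((sq R).card : ℝ) = (R : ℝ) ^ 2 := by
  simp [sq, sq]
  ring

lemma bulk_sum_le {ι : Type*} [DecidableEq ι] (S B : Finset ι) (f : ι → ℝ) {ε c : ℝ} (hε : 0 ≤ ε)
    (hc : 0 ≤ c) (h1 : ∀ i ∈ S, i ∉ B → f i ≤ ε) (h2 : ∀ i ∈ S, f i ≤ c) :
    ∑ i ∈ S, f i ≤ S.card * ε + B.card * c := by
  calc ∑ i ∈ S, f i ≤ ∑ i ∈ S, (ε + if i ∈ B then c else 0) := by
        refine sum_le_sum fun i hi => ?_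
        split_ifs with hb
        · linarith [h2 i hi]
        · linarith [h1 i hi hb]
    _ ≤ _ := by
        rw [sum_add_distrib, sum_const, nsmul_eq_mul, ← sum_filter, sum_const, nsmul_eq_mul]
        refine add_le_add le_rfl (mul_le_mul_of_nonneg_right ?_ hc)
        exact_mod_cast card_le_card fun i hi => (mem_filter.1 hi).2

end Pool.Agent.MP_646035_al.PT

end


-- toolkit of helper91, part Rep
section

namespace Pool.Agent.MP_646035_al.PT

open Finset

variable {Q : Type*} [AddCommGroup Q] [DecidableEq Q] {e : Fin 2 → Q}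

open Classical in
lemma rep_sum_pairs {Pt Γ : Type*} [DecidableEq Γ] (supp : Γ → Finset Pt) (S : Finset Γ)
    (hne : ∀ γ ∈ S, (supp γ).Nonempty) (g : Finset Γ → Finset Γ → ℝ) :
    ∑ F ∈ S.powerset with Compat supp F, ∑ U ∈ F.powerset, g U (F \ U)
      = ∑ U ∈ S.powerset, ∑ V ∈ S.powerset,
        if Compat supp U ∧ Compat supp V ∧ ∀ X ∈ U, ∀ X' ∈ V, Disjoint (supp X) (supp X') then
          g U V else 0 := by
  rw [← sum_product', ← sum_filter, sum_sigma']
  refine sum_nbij' (fun p => (p.2, p.1 \ p.2)) (fun p => ⟨p.1 ∪ p.2, p.1⟩) ?_ ?_ ?_ ?_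
    fun _ _ => rfl
  · rintro ⟨F, U⟩ hp
    simp only [mem_sigma, mem_filter, mem_powerset, mem_product] at hp ⊢
    obtain ⟨⟨hF, hc⟩, hU⟩ := hp
    refine ⟨⟨hU.trans hF, sdiff_subset.trans hF⟩,
      fun γ hγ δ hδ => hc γ (hU hγ) δ (hU hδ),
      fun γ hγ δ hδ => hc γ (sdiff_subset hγ) δ (sdiff_subset hδ),
      fun γ hγ δ hδ => hc γ (hU hγ) δ (sdiff_subset hδ) ?_⟩
    rintro rfl
    exact (mem_sdiff.1 hδ).2 hγ
  · rintro ⟨U, V⟩ hp
    simp only [mem_sigma, mem_filter, mem_powerset, mem_product] at hp ⊢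
    obtain ⟨⟨hU, hV⟩, h1, h2, h3⟩ := hp
    refine ⟨⟨union_subset hU hV, fun γ hγ δ hδ hn => ?_⟩, subset_union_left⟩
    rcases mem_union.1 hγ with hγ | hγ <;> rcases mem_union.1 hδ with hδ | hδ
    · exact h1 γ hγ δ hδ hn
    · exact h3 γ hγ δ hδ
    · exact (h3 δ hδ γ hγ).symm
    · exact h2 γ hγ δ hδ hn
  · rintro ⟨F, U⟩ hp
    simp only [mem_sigma, mem_filter, mem_powerset] at hp
    simp only [union_sdiff_of_subset hp.2]
  · rintro ⟨U, V⟩ hp
    simp only [mem_filter, mem_powerset, mem_product] at hp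
    obtain ⟨⟨hU, -⟩, -, -, h3⟩ := hp
    have hd : Disjoint U V := disjoint_left.2 fun γ hγ hγ' =>
      (hne γ (hU hγ)).ne_empty (disjoint_self.1 (h3 γ hγ γ hγ'))
    simp only [union_sdiff_cancel_left hd]

lemma rep_sum_disjSum {α β : Type*} (s : Finset α) (t : Finset β) (f : Finset (α ⊕ β) → ℝ) :
    ∑ C ∈ (s.disjSum t).powerset, f C
      = ∑ a ∈ s.powerset, ∑ b ∈ t.powerset, f (a.disjSum b) := by
  rw [← sum_product']
  refine sum_nbij' (fun C => (C.toLeft, C.toRight)) (fun q => q.1.disjSum q.2) ?_ ?_ ?_ ?_ ?_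
  · intro C hC
    simp only [mem_powerset, mem_product] at hC ⊢
    exact ⟨fun a ha => by simpa using hC (mem_toLeft.1 ha),
      fun b hb => by simpa using hC (mem_toRight.1 hb)⟩
  · rintro ⟨a, b⟩ hq
    simp only [mem_powerset, mem_product] at hq ⊢
    exact disjSum_mono hq.1 hq.2
  · intro C _
    exact toLeft_disjSum_toRight
  · rintro ⟨a, b⟩ _
    simp
  · intro C _
    simp only [toLeft_disjSum_toRight]

end Pool.Agent.MP_646035_al.PT

end


-- toolkit of helper91, part Rel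
section

namespace Pool.Agent.MP_646035_al.PT

open Finset

variable {Q : Type*} [AddCommGroup Q] [DecidableEq Q] {e : Fin 2 → Q}

omit [DecidableEq Q] in
lemma rel_split (ρ : Q → ℕ) (p d : Q) (a b : ℕ) :
    ∑ k ∈ Icc (-(a : ℤ)) b, ρ (p + k • d) ≤
      ∑ k ∈ range (a + 1), ρ (p + k • (-d)) + ∑ k ∈ range (b + 1), ρ (p + k • d) := by
  have h1 : Icc (-(a : ℤ)) b ⊆
      (range (a + 1)).image (fun k : ℕ => -(k : ℤ)) ∪ (range (b + 1)).image fun k : ℕ => (k : ℤ) := by
    intro k hk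
    rw [mem_Icc] at hk
    simp only [mem_union, mem_image, mem_range]
    rcases le_total k 0 with h | h
    · exact .inl ⟨(-k).toNat, by omega, by omega⟩
    · exact .inr ⟨k.toNat, by omega, by omega⟩
  refine (sum_le_sum_of_subset h1).trans ?_
  refine le_trans (Nat.le_add_right _ _) (le_of_eq (sum_union_inter.trans ?_))
  rw [sum_image fun k _ l _ h => by simpa using h, sum_image fun k _ l _ h => by simpa using h]
  simp only [neg_smul, natCast_zsmul, smul_neg, Nat.add_left_cancel_iff]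

end Pool.Agent.MP_646035_al.PT

end

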