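import Pool.Agent.MP_646035_al.PC.Grp
import Pool.Agent.MP_646035_al.PC.Tool

/-!
Generating functions of digit vectors with given charge, words at one site, programs.
-/

namespace Pool.Agent.MP_646035_al.PC

open Finset PT

/-- The digits of size at most `B`. -/
noncomputable def bx (B : ℕ) : Finset ℤ := Icc (-(B : ℤ)) B

lemma mem_bx {B : ℕ} {m : ℤ} : m ∈ bx B ↔ |m| ≤ B := by simp [bx, abs_le]

/-- The generating function of one digit. -/
noncomputable def gam (B : ℕ) (x : ℝ) : ℝ := ∑ m ∈ bx B, x ^ m.natAbs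

/-- The generating function of `j` digits with given sum. -/
noncomputable def WW (B : ℕ) (x : ℝ) : ℕ → ℤ → ℝ
  | 0 => fun σ => if σ = 0 then 1 else 0
  | j + 1 => fun σ => ∑ m ∈ bx B, x ^ m.natAbs * WW B x j (σ - m)

lemma WW_zero (B : ℕ) (x : ℝ) (σ : ℤ) : WW B x 0 σ = if σ = 0 then 1 else 0 := rfl

lemma WW_succ (B : ℕ) (x : ℝ) (j : ℕ) (σ : ℤ) :
    WW B x (j + 1) σ = ∑ m ∈ bx B, x ^ m.natAbs * WW B x j (σ - m) := rfl

/-- The weight of a site with `j` toggles. -/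
noncomputable def AA (B : ℕ) (x : ℝ) (j : ℕ) : ℝ := WW B x j 0 + WW B x j 1

/-- The weight of the words in two families of moving letters with total charge one. -/
noncomputable def GW (x : ℝ) (a b : ℕ) : ℝ :=
  WW 2 x a 1 * WW 2 x b 0 + WW 2 x a 0 * WW 2 x b 1

/-- The range of parameters (`x = u ^ 4`, `λ = k x`). -/
structure Good (k : ℕ) (u : ℝ) : Prop where
  pos : 0 < u
  big : 10 ^ 15 ≤ k * u ^ 4
  small : (k * u ^ 4) ^ 20 * u ≤ 1
  eq : (u ^ 4 * gam 2 (u ^ 4) * AA 2 (u ^ 4) k) ^ 2 * (1 + u ^ 5) = 1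

/-- The activity of a special toggle. -/
noncomputable def aT (x : ℝ) (j : ℕ) : ℝ :=
  x * (WW 2 x j 0 + 2 * WW 2 x j 1 + WW 2 x j 2) / AA 2 x j

/-- The activity of a special letter in the other lane. -/
noncomputable def aF (x : ℝ) (j : ℕ) : ℝ := 2 * x * (AA 2 x j - 1) / AA 2 x j

variable {n k : ℕ}

section site

variable {ι : Type} [DecidableEq ι]

/-- The size of a digit vector. -/
def szJ (J : Finset ι) (y : ι → ℤ) : ℕ := ∑ i ∈ J, (y i).natAbs

/-- The charge of a digit vector. -/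
def tch (Tl : ι → El n k) (J : Finset ι) (y : ι → ℤ) : ℤ := ∑ i ∈ J with (Tl i).s = 1, y i

/-- The number of toggles in `J`. -/
def nT (Tl : ι → El n k) (J : Finset ι) : ℕ := (J.filter fun i => (Tl i).s = 1).card

/-- The number of other letters in `J`. -/
def nN (Tl : ι → El n k) (J : Finset ι) : ℕ := (J.filter fun i => (Tl i).s = 0).card

/-- The digit vectors that can be written at one visit. -/
noncomputable def sset (Tl : ι → El n k) (J : Finset ι) : Finset (ι → ℤ) :=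
  (asg 0 J (bx 2)).filter fun y => tch Tl J y = 0 ∨ tch Tl J y = 1

/-- The element that writes the digits `y`. -/
def sw (Tl : ι → El n k) (J : Finset ι) (y : ι → ℤ) : El n k :=
  ⟨∑ i ∈ J, y i • (Tl i).w, 1, (tch Tl J y : ZMod 2)⟩

end site

/-- The state of a site: a special letter with sign and version, and the other digits. -/
abbrev St0 (k : ℕ) : Type := Option (Option (Fin k) × ZMod 2 × Bool) × (Option (Fin k) → ℤ)

/-- The digits of a state. -/
def dig (ω : St0 k) (o : Option (Fin k)) : ℤ :=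
  ω.2 o + ω.1.elim 0 fun t => if t.1 = o then sgz t.2.1 else 0

/-- The digits of a state, as seen by the lane invariant part. -/
def tdig (ω : St0 k) (o : Option (Fin k)) : ℤ :=
  ω.2 o + ω.1.elim 0 fun t => if t.1 = o then (if t.2.2 then -sgz t.2.1 else sgz t.2.1) else 0

open Classical in
/-- The admissible states of a site of parity `s`. -/
noncomputable def pset (Yl : Option (Fin k) → El n k) (Sp : Finset (Option (Fin k)))
    (al : Finset ((Option (Fin k) × ZMod 2) × Bool)) (s : ZMod 2) : Finset (St0 k) :=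
  (univ ×ˢ asg 0 Spᶜ (bx 2)).filter fun ω =>
    (tch Yl univ (dig ω) = 0 ∨ tch Yl univ (dig ω) = 1) ∧
      ∀ o ε φ, ω.1 = some (o, ε, φ) → ((o, s), φ) ∈ al ∧
        ((Yl o).s = 0 → φ = true → ∃ o', (Yl o').s = 1 ∧ ω.2 o' ≠ 0)

/-- The element that realises a state. -/
def se (Yl : Option (Fin k) → El n k) (ω : St0 k) : El n k :=
  ⟨∑ o, dig ω o • (Yl o).w -
      ω.1.elim 0 fun t => if t.2.2 then sgz t.2.1 • ((Yl t.1).w + iot 1 (Yl t.1).w) else 0,
    1, (tch Yl univ (dig ω) : ZMod 2)⟩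

/-- The number of letters of a state. -/
def scost (ω : St0 k) : ℕ := szJ univ ω.2 + if ω.1.isSome then 1 else 0

/-- A forward sweep over `N` periods, applying `h b s` at the site `(b, s)`. -/
def sweep (h : ℕ → ZMod 2 → El n k) : ℕ → El n k
  | 0 => 1
  | N + 1 => sweep h N * (h N 0 * mv rho0 * h N 1 * mv rho1)

/-- The lane on arrival at the site `(b, s)` of a sweep. -/
def slane (h : ℕ → ZMod 2 → El n k) (b : ℕ) (s : ZMod 2) : ZMod 2 :=
  (∑ b' ∈ range b, ((h b' 0).s + (h b' 1).s)) + s * (h b 0).s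

/-- The site elements of a program. -/
def hP (Yl : Option (Fin k) → El n k) {N : ℕ} (P : Fin N × ZMod 2 → St0 k) (b : ℕ)
    (s : ZMod 2) : El n k :=
  if hb : b < N then se Yl (P (⟨b, hb⟩, s)) else 1

/-- The value of a program. -/
def pval (Yl : Option (Fin k) → El n k) {N : ℕ} (P : Fin N × ZMod 2 → St0 k) : El n k :=
  sweep (hP Yl P) N

/-- The signed digits of type `τ`. -/
noncomputable def dpoly (Yl : Option (Fin k) → El n k) {N : ℕ} (P : Fin N × ZMod 2 → St0 k)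
    (τ : Option (Fin k) × ZMod 2) : LP :=
  ∑ b : Fin N, LaurentPolynomial.C (sgz (slane (hP Yl P) b τ.2) * dig (P (b, τ.2)) τ.1) *
    LaurentPolynomial.T (b.val : ℤ)

/-- The digits of type `τ` as seen by the lane invariant part. -/
noncomputable def mpoly {N : ℕ} (P : Fin N × ZMod 2 → St0 k) (τ : Option (Fin k) × ZMod 2) : LP :=
  ∑ b : Fin N, LaurentPolynomial.C (tdig (P (b, τ.2)) τ.1) * LaurentPolynomial.T (b.val : ℤ)

/-- The program uses the special letter at the point `f` shifted by `D`. -/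
def Lit {N : ℕ} (P : Fin N × ZMod 2 → St0 k) (f : (Option (Fin k) × ZMod 2) × ℤ) (D : ℤ) : Prop :=
  ∃ b : Fin N, (b.val : ℤ) = f.2 + D ∧ ∃ ε φ, (P (b, f.1.2)).1 = some (f.1.1, ε, φ)

/-- Of two programs with the same value one is lit at two points of a translate of `F`. -/
def Confl (Yl : Option (Fin k) → El n k) (Sp : Finset (Option (Fin k)))
    (al : Finset ((Option (Fin k) × ZMod 2) × Bool))
    (F : Finset ((Option (Fin k) × ZMod 2) × ℤ)) : Prop :=
  ∀ (N : ℕ) (P P' : Fin N × ZMod 2 → St0 k), (∀ p, P p ∈ pset Yl Sp al p.2) →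
    (∀ p, P' p ∈ pset Yl Sp al p.2) → P ≠ P' → pval Yl P = pval Yl P' →
      ∃ D : ℤ, ∃ f ∈ F, ∃ f' ∈ F, f ≠ f' ∧
        ((Lit P f D ∧ Lit P f' D) ∨ (Lit P' f D ∧ Lit P' f' D))

/-- All special letters in the current lane, and the letter `E` at even sites in both lanes. -/
def alC (Sp : Finset (Option (Fin k))) (E : Option (Fin k)) :
    Finset ((Option (Fin k) × ZMod 2) × Bool) :=
  insert ((E, 0), true) ((Sp ×ˢ univ) ×ˢ {false})

/-- The activity of an allowed special letter. -/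
noncomputable def actv (Yl : Option (Fin k) → El n k) (x : ℝ) (j : ℕ)
    (a : (Option (Fin k) × ZMod 2) × Bool) : ℝ :=
  if (Yl a.1.1).s = 1 then aT x j else if a.2 then aF x j else 2 * x

end Pool.Agent.MP_646035_al.PC

namespace Pool.Agent.MP_646035_al.PC

open Finset PT

variable {n k : ℕ} {Q : Type} [AddCommGroup Q] [DecidableEq Q] {e : Fin 2 → Q}

lemma wa_zero_mem (B : ℕ) : (0 : ℤ) ∈ bx B := mem_bx.2 (by simp)

lemma wa_bx_zero : bx 0 = {0} := by
  ext m; simp [mem_bx]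

lemma wa_sum_succ (B : ℕ) (f : ℤ → ℝ) :
    ∑ m ∈ bx (B + 1), f m = ∑ m ∈ bx B, f m + f ((B : ℤ) + 1) + f (-((B : ℤ) + 1)) := by
  have h : bx (B + 1) = insert (-((B : ℤ) + 1)) (insert ((B : ℤ) + 1) (bx B)) := by
    ext m
    simp only [mem_insert, mem_bx, abs_le]
    push_cast
    omega
  have h1 : ((B : ℤ) + 1) ∉ bx B := by
    simp only [mem_bx, abs_le]; omega
  have h2 : -((B : ℤ) + 1) ∉ insert ((B : ℤ) + 1) (bx B) := by
    simp only [mem_insert, mem_bx, abs_le]; omega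
  rw [h, sum_insert h2, sum_insert h1]
  ring

lemma wa_sum_neg (B : ℕ) (f : ℤ → ℝ) : ∑ m ∈ bx B, f (-m) = ∑ m ∈ bx B, f m := by
  induction B with
  | zero => simp [wa_bx_zero]
  | succ B ih =>
    rw [wa_sum_succ, wa_sum_succ, ih, neg_neg]
    ring

lemma wa_subset {B B' : ℕ} (hB : B ≤ B') : bx B ⊆ bx B' := fun m hm => by
  rw [mem_bx] at hm ⊢
  exact hm.trans (by exact_mod_cast hB)

lemma wa_natAbs_succ (B : ℕ) : ((B : ℤ) + 1).natAbs = B + 1 := by omega

lemma wa_natAbs_neg_succ (B : ℕ) : (-((B : ℤ) + 1)).natAbs = B + 1 := by omega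

lemma wa_gam_zero (x : ℝ) : gam 0 x = 1 := by simp [gam, wa_bx_zero]

lemma wa_gam_succ (B : ℕ) (x : ℝ) : gam (B + 1) x = gam B x + 2 * x ^ (B + 1) := by
  unfold gam
  rw [wa_sum_succ, wa_natAbs_succ, wa_natAbs_neg_succ]
  ring

lemma wa_gam_eq (B : ℕ) (x : ℝ) : (1 - x) * gam B x = 1 + x - 2 * x ^ (B + 1) := by
  induction B with
  | zero => rw [wa_gam_zero]; ring
  | succ B ih => rw [wa_gam_succ, mul_add, ih]; ring

lemma one_le_gam (B : ℕ) {x : ℝ} (hx : 0 ≤ x) : 1 ≤ gam B x := by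
  induction B with
  | zero => rw [wa_gam_zero]
  | succ B ih =>
    rw [wa_gam_succ]
    have : 0 ≤ x ^ (B + 1) := by positivity
    linarith

lemma wa_gam_mono_B {B B' : ℕ} (hB : B ≤ B') {x : ℝ} (hx : 0 ≤ x) : gam B x ≤ gam B' x :=
  sum_le_sum_of_subset_of_nonneg (wa_subset hB) fun _ _ _ => by positivity

lemma gam_ge {B : ℕ} (hB : 1 ≤ B) {x : ℝ} (hx : 0 ≤ x) : 1 + 2 * x ≤ gam B x := by
  refine le_trans (le_of_eq ?_) (wa_gam_mono_B hB hx)
  have := wa_gam_succ 0 x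
  rw [wa_gam_zero] at this
  rw [zero_add] at this
  rw [this]; ring

lemma gam_le (B : ℕ) {x : ℝ} (hx : 0 ≤ x) (hx1 : x < 1) : gam B x ≤ (1 + x) / (1 - x) := by
  rw [le_div_iff₀ (by linarith), mul_comm, wa_gam_eq]
  have : 0 ≤ x ^ (B + 1) := by positivity
  linarith

lemma gam_le' (B : ℕ) {x : ℝ} (hx : 0 ≤ x) (hx1 : x ≤ 1 / 100) :
    gam B x ≤ 1 + 2 * x + 3 * x ^ 2 := by
  refine (gam_le B hx (by linarith)).trans ?_
  rw [div_le_iff₀ (by linarith)]
  have h : 0 ≤ x ^ 2 * (1 - 3 * x) := mul_nonneg (by positivity) (by linarith)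
  nlinarith

lemma gam_tail {B : ℕ} (hB : 2 ≤ B) {x : ℝ} (hx : 0 ≤ x) (hx1 : x ≤ 1 / 100) :
    gam B x ≤ gam 2 x + 3 * x ^ 3 := by
  have _ := hB
  have h1 := wa_gam_eq B x
  have h2 := wa_gam_eq 2 x
  have h3 : 0 ≤ x ^ (B + 1) := by positivity
  have h4 : 0 ≤ x ^ 3 * (1 - 3 * x) := mul_nonneg (by positivity) (by linarith)
  refine le_of_mul_le_mul_left ?_ (show (0 : ℝ) < 1 - x by linarith)
  rw [mul_add, h1, h2]
  have e1 : (1 - x) * (3 * x ^ 3) = 2 * x ^ (2 + 1) + x ^ 3 * (1 - 3 * x) := by ring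
  rw [e1]
  linarith

lemma gam_mono_B {B B' : ℕ} (hB : B ≤ B') {x : ℝ} (hx : 0 ≤ x) : gam B x ≤ gam B' x :=
  wa_gam_mono_B hB hx

lemma gam_mono_x (B : ℕ) {x x' : ℝ} (hx : 0 ≤ x) (h : x ≤ x') : gam B x ≤ gam B x' :=
  sum_le_sum fun _ _ => pow_le_pow_left₀ hx h _

lemma WW_nonneg (B : ℕ) {x : ℝ} (hx : 0 ≤ x) (j : ℕ) (σ : ℤ) : 0 ≤ WW B x j σ := by
  induction j generalizing σ with
  | zero => rw [WW_zero]; split_ifs <;> norm_num
  | succ j ih =>
    rw [WW_succ]
    exact sum_nonneg fun m _ => mul_nonneg (by positivity) (ih _)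

lemma WW_neg (B : ℕ) (x : ℝ) (j : ℕ) (σ : ℤ) : WW B x j (-σ) = WW B x j σ := by
  induction j generalizing σ with
  | zero => simp [WW_zero]
  | succ j ih =>
    rw [WW_succ, WW_succ, ← wa_sum_neg B (fun m => x ^ m.natAbs * WW B x j (σ - m))]
    refine sum_congr rfl fun m _ => ?_
    rw [Int.natAbs_neg, ← ih (σ - -m)]
    congr 2
    ring

lemma wa_step (W : ℤ → ℝ) (hW : ∀ σ σ' : ℤ, |σ| ≤ |σ'| → W σ' ≤ W σ) {x : ℝ} (hx : 0 ≤ x)
    (hx1 : x ≤ 1) {s : ℤ} (hs : 0 ≤ s) (B : ℕ) :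
    x ^ B * (W (s - B) - W (s + 1 + B)) ≤
      ∑ m ∈ bx B, x ^ m.natAbs * (W (s - m) - W (s + 1 - m)) := by
  induction B with
  | zero => simp [wa_bx_zero]
  | succ B ih =>
    rw [wa_sum_succ, wa_natAbs_succ, wa_natAbs_neg_succ]
    have hE : 0 ≤ W (s - B) - W (s + 1 + B) := by
      refine sub_nonneg.2 (hW _ _ ?_)
      rw [abs_of_nonneg (by omega : (0 : ℤ) ≤ s + 1 + B), abs_le]
      omega
    have hp : x ^ (B + 1) ≤ x ^ B := pow_le_pow_of_le_one hx hx1 (Nat.le_succ B)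
    have h1 := mul_le_mul_of_nonneg_right hp hE
    have e1 : s + 1 - ((B : ℤ) + 1) = s - B := by ring
    have e2 : s - -((B : ℤ) + 1) = s + 1 + B := by ring
    have e3 : s + 1 - -((B : ℤ) + 1) = s + 1 + ((B : ℤ) + 1) := by ring
    rw [e1, e2, e3]
    push_cast
    linarith

lemma wa_anti (B : ℕ) {x : ℝ} (hx : 0 ≤ x) (hx1 : x ≤ 1) (j : ℕ) :
    ∀ σ σ' : ℤ, |σ| ≤ |σ'| → WW B x j σ' ≤ WW B x j σ := by
  induction j with
  | zero =>
    intro σ σ' h
    rw [WW_zero, WW_zero]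
    by_cases h' : σ' = 0
    · have : σ = 0 := by
        rw [h', abs_zero] at h
        exact abs_nonpos_iff.1 h
      rw [if_pos h', if_pos this]
    · rw [if_neg h']
      split_ifs <;> norm_num
  | succ j ih =>
    have h1 : ∀ s : ℕ, WW B x (j + 1) ((s + 1 : ℕ) : ℤ) ≤ WW B x (j + 1) (s : ℤ) := by
      intro s
      have h2 := wa_step (WW B x j) ih hx hx1 (Int.natCast_nonneg s) B
      have hE : 0 ≤ WW B x j (s - B) - WW B x j (s + 1 + B) := by
        refine sub_nonneg.2 (ih _ _ ?_)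
        rw [abs_of_nonneg (by omega : (0 : ℤ) ≤ s + 1 + B), abs_le]
        omega
      have h3 := (mul_nonneg (pow_nonneg hx B) hE).trans h2
      simp only [mul_sub, sum_sub_distrib] at h3
      rw [WW_succ, WW_succ]
      push_cast
      linarith
    have h4 : Antitone fun s : ℕ => WW B x (j + 1) (s : ℤ) := antitone_nat_of_succ_le h1
    have h5 : ∀ σ : ℤ, WW B x (j + 1) σ = WW B x (j + 1) (σ.natAbs : ℤ) := by
      intro σ
      rcases Int.natAbs_eq σ with h | h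
      · rw [← h]
      · rw [← WW_neg B x (j + 1) (σ.natAbs : ℤ), ← h]
    intro σ σ' h
    rw [h5 σ, h5 σ']
    refine h4 ?_
    rw [Int.abs_eq_natAbs, Int.abs_eq_natAbs] at h
    exact_mod_cast h

theorem WW_anti (B : ℕ) {x : ℝ} (hx : 0 ≤ x) (hx1 : x ≤ 1) (j : ℕ) {σ σ' : ℤ}
    (h : |σ| ≤ |σ'|) : WW B x j σ' ≤ WW B x j σ := wa_anti B hx hx1 j σ σ' h

lemma wa_le_succ (B : ℕ) {x : ℝ} (hx : 0 ≤ x) (j : ℕ) (σ : ℤ) :
    WW B x j σ ≤ WW B x (j + 1) σ := by
  rw [WW_succ]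
  have := single_le_sum (f := fun m : ℤ => x ^ m.natAbs * WW B x j (σ - m))
    (fun m _ => mul_nonneg (by positivity) (WW_nonneg B hx j _)) (wa_zero_mem B)
  simpa using this

lemma WW_mono_j (B : ℕ) {x : ℝ} (hx : 0 ≤ x) {j j' : ℕ} (h : j ≤ j') (σ : ℤ) :
    WW B x j σ ≤ WW B x j' σ :=
  monotone_nat_of_le_succ (f := fun j => WW B x j σ) (fun j => wa_le_succ B hx j σ) h

lemma WW_mono_B {B B' : ℕ} (hB : B ≤ B') {x : ℝ} (hx : 0 ≤ x) (j : ℕ) (σ : ℤ) :
    WW B x j σ ≤ WW B' x j σ := by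
  induction j generalizing σ with
  | zero => rw [WW_zero, WW_zero]
  | succ j ih =>
    rw [WW_succ, WW_succ]
    refine le_trans (sum_le_sum fun m _ => mul_le_mul_of_nonneg_left (ih _) (by positivity)) ?_
    exact sum_le_sum_of_subset_of_nonneg (wa_subset hB)
      fun m _ _ => mul_nonneg (by positivity) (WW_nonneg B' hx j _)

lemma WW_mono_x (B : ℕ) {x x' : ℝ} (hx : 0 ≤ x) (h : x ≤ x') (j : ℕ) (σ : ℤ) :
    WW B x j σ ≤ WW B x' j σ := by
  induction j generalizing σ with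
  | zero => rw [WW_zero, WW_zero]
  | succ j ih =>
    rw [WW_succ, WW_succ]
    exact sum_le_sum fun m _ => mul_le_mul (pow_le_pow_left₀ hx h _) (ih _)
      (WW_nonneg B hx j _) (pow_nonneg (hx.trans h) _)

lemma one_le_WW (B : ℕ) {x : ℝ} (hx : 0 ≤ x) (j : ℕ) : 1 ≤ WW B x j 0 := by
  have := WW_mono_j B hx (Nat.zero_le j) 0
  rwa [WW_zero, if_pos rfl] at this

lemma WW_one_ge {B : ℕ} (hB : 1 ≤ B) {x : ℝ} (hx : 0 ≤ x) (j : ℕ) :
    j * x ≤ WW B x j 1 := by
  induction j with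
  | zero => simp [WW_zero]
  | succ j ih =>
    rw [WW_succ]
    have hsub : ({0, 1} : Finset ℤ) ⊆ bx B := by
      intro m hm
      rw [mem_bx, abs_le]
      simp only [mem_insert, mem_singleton] at hm
      omega
    have h1 := sum_le_sum_of_subset_of_nonneg
      (f := fun m : ℤ => x ^ m.natAbs * WW B x j (1 - m)) hsub
      (fun m _ _ => mul_nonneg (by positivity) (WW_nonneg B hx j _))
    rw [sum_pair (by norm_num)] at h1
    have h2 := mul_le_mul_of_nonneg_left (one_le_WW B hx j) hx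
    simp only [Int.natAbs_zero, pow_zero, one_mul, sub_zero, Int.natAbs_one, pow_one,
      sub_self] at h1
    push_cast
    linarith

lemma WW_succ_le (B : ℕ) {x : ℝ} (hx : 0 ≤ x) (hx1 : x ≤ 1) (j : ℕ) (σ : ℤ) :
    WW B x (j + 1) σ ≤ gam B x * WW B x j 0 := by
  rw [WW_succ, gam, sum_mul]
  exact sum_le_sum fun m _ => mul_le_mul_of_nonneg_left
    (WW_anti B hx hx1 j (by simp)) (by positivity)

lemma WW_le_pow (B : ℕ) {x : ℝ} (hx : 0 ≤ x) (j : ℕ) (σ : ℤ) :
    WW B x j σ ≤ gam B x ^ j := by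
  induction j generalizing σ with
  | zero => rw [WW_zero, pow_zero]; split_ifs <;> norm_num
  | succ j ih =>
    rw [WW_succ, pow_succ']
    nth_rewrite 1 [gam]
    rw [sum_mul]
    exact sum_le_sum fun m _ => mul_le_mul_of_nonneg_left (ih _) (by positivity)

lemma one_le_AA (B : ℕ) {x : ℝ} (hx : 0 ≤ x) (j : ℕ) : 1 ≤ AA B x j := by
  have h1 := one_le_WW B hx j
  have h2 := WW_nonneg B hx j 1
  unfold AA
  linarith

lemma AA_mono (B : ℕ) {x : ℝ} (hx : 0 ≤ x) {j j' : ℕ} (h : j ≤ j') : AA B x j ≤ AA B x j' :=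
  add_le_add (WW_mono_j B hx h 0) (WW_mono_j B hx h 1)

theorem AA_gain {B : ℕ} (hB : 1 ≤ B) {x : ℝ} (hx : 0 ≤ x) (hx1 : x ≤ 1) (j : ℕ) :
    AA B x (j + 1) + x * (WW B x j 0 - WW B x j 2) ≤ gam B x * AA B x j := by
  have hm : (-1 : ℤ) ∈ bx B := by
    rw [mem_bx, abs_le]; omega
  have h1 := single_le_sum (f := fun m : ℤ => x ^ m.natAbs *
      (AA B x j - (WW B x j (0 - m) + WW B x j (1 - m)))) (s := bx B)
    (fun m _ => mul_nonneg (by positivity) (by
      unfold AA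
      rcases le_or_gt m 0 with h | h
      · have h2 : WW B x j (0 - m) ≤ WW B x j 0 := WW_anti B hx hx1 j (by simp)
        have h3 : WW B x j (1 - m) ≤ WW B x j 1 := WW_anti B hx hx1 j (by
          rw [abs_one, abs_of_nonneg (by omega)]; omega)
        linarith
      · have h2 : WW B x j (1 - m) ≤ WW B x j 0 := WW_anti B hx hx1 j (by simp)
        have h3 : WW B x j (0 - m) ≤ WW B x j 1 := WW_anti B hx hx1 j (by
          rw [abs_one, abs_of_nonpos (by omega)]; omega)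
        linarith)) hm
  simp only [mul_sub, mul_add, sum_sub_distrib, sum_add_distrib] at h1
  rw [← sum_mul, ← WW_succ, ← WW_succ] at h1
  have e1 : (0 : ℤ) - -1 = 1 := by norm_num
  have e2 : (1 : ℤ) - -1 = 2 := by norm_num
  have e3 : (-1 : ℤ).natAbs = 1 := rfl
  rw [e1, e2, e3, pow_one] at h1
  unfold gam
  unfold AA at h1 ⊢
  linarith

lemma AA_add_le {B : ℕ} (hB : 1 ≤ B) {x : ℝ} (hx : 0 ≤ x) (hx1 : x ≤ 1) (j m : ℕ) :
    AA B x (j + m) ≤ gam B x ^ m * AA B x j := by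
  induction m with
  | zero => simp
  | succ m ih =>
    have h1 := AA_gain hB hx hx1 (j + m)
    have h2 : WW B x (j + m) 2 ≤ WW B x (j + m) 0 := WW_anti B hx hx1 _ (by simp)
    have h3 : 0 ≤ x * (WW B x (j + m) 0 - WW B x (j + m) 2) :=
      mul_nonneg hx (sub_nonneg.2 h2)
    have h4 := mul_le_mul_of_nonneg_left ih (zero_le_one.trans (one_le_gam B hx))
    rw [← add_assoc, pow_succ', mul_assoc]
    linarith

lemma AA_sub_le {B : ℕ} (hB : 1 ≤ B) {x : ℝ} (hx : 0 ≤ x) (hx1 : x ≤ 1) (j m : ℕ) :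
    AA B x j ≤ gam B x ^ m * AA B x (j - m) :=
  (AA_mono B hx (by omega)).trans (AA_add_le hB hx hx1 (j - m) m)

lemma GW_mono {x : ℝ} (hx : 0 ≤ x) {a a' b b' : ℕ} (ha : a ≤ a') (hb : b ≤ b') :
    GW x a b ≤ GW x a' b' :=
  add_le_add
    (mul_le_mul (WW_mono_j 2 hx ha 1) (WW_mono_j 2 hx hb 0) (WW_nonneg 2 hx _ _)
      (WW_nonneg 2 hx _ _))
    (mul_le_mul (WW_mono_j 2 hx ha 0) (WW_mono_j 2 hx hb 1) (WW_nonneg 2 hx _ _)
      (WW_nonneg 2 hx _ _))

lemma continuous_gam (B : ℕ) : Continuous (gam B) := by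
  unfold gam
  exact continuous_finsetSum _ fun m _ => continuous_pow _

lemma continuous_WW (B j : ℕ) (σ : ℤ) : Continuous fun x => WW B x j σ := by
  induction j generalizing σ with
  | zero => exact continuous_const
  | succ j ih =>
    simp only [WW_succ]
    exact continuous_finsetSum _ fun m _ => (continuous_pow _).mul (ih _)

end Pool.Agent.MP_646035_al.PC

namespace Pool.Agent.MP_646035_al.PC

open Finset PT

variable {n k : ℕ} {Q : Type} [AddCommGroup Q] [DecidableEq Q] {e : Fin 2 → Q}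

lemma wb_sum_bx (B : ℕ) (f : ℤ → ℝ) :
    ∑ m ∈ bx B, f m = f 0 + ∑ i ∈ range B, (f ((i : ℤ) + 1) + f (-((i : ℤ) + 1))) := by
  induction B with
  | zero => simp [bx]
  | succ B ih =>
    have h : bx (B + 1) = insert ((B : ℤ) + 1) (insert (-((B : ℤ) + 1)) (bx B)) := by
      ext m
      simp only [bx, mem_insert, mem_Icc]
      push_cast
      omega
    have h1 : ((B : ℤ) + 1) ∉ insert (-((B : ℤ) + 1)) (bx B) := by
      simp only [bx, mem_insert, mem_Icc]
      omega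
    have h2 : (-((B : ℤ) + 1)) ∉ bx B := by
      simp only [bx, mem_Icc]
      omega
    rw [h, sum_insert h1, sum_insert h2, ih, sum_range_succ]
    ring

theorem WW_size (B : ℕ) (x : ℝ) (j : ℕ) (σ : ℤ) :
    (σ : ℝ) * WW B x (j + 1) σ =
      (j + 1) * ∑ m ∈ bx B, (m : ℝ) * x ^ m.natAbs * WW B x j (σ - m) := by
  induction j generalizing σ with
  | zero =>
    rw [WW_succ, mul_sum, Nat.cast_zero, zero_add, one_mul]
    refine sum_congr rfl fun m _ => ?_
    rw [WW_zero]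
    split_ifs with h
    · rw [sub_eq_zero.1 h]; ring
    · simp
  | succ j ih =>
    have h1 : (σ : ℝ) * WW B x (j + 1 + 1) σ =
        ∑ m ∈ bx B, (m : ℝ) * x ^ m.natAbs * WW B x (j + 1) (σ - m) +
          ∑ m ∈ bx B, x ^ m.natAbs * (((σ - m : ℤ) : ℝ) * WW B x (j + 1) (σ - m)) := by
      rw [WW_succ B x (j + 1) σ, mul_sum, ← sum_add_distrib]
      refine sum_congr rfl fun m _ => ?_
      push_cast
      ring
    have h2 : ∑ m ∈ bx B, x ^ m.natAbs * (((σ - m : ℤ) : ℝ) * WW B x (j + 1) (σ - m)) =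
        (j + 1) * ∑ m ∈ bx B, (m : ℝ) * x ^ m.natAbs * WW B x (j + 1) (σ - m) := by
      simp only [ih]
      simp only [WW_succ B x j, mul_sum]
      rw [sum_comm]
      refine sum_congr rfl fun m _ => sum_congr rfl fun m' _ => ?_
      rw [sub_right_comm σ m' m]
      ring
    rw [h1, h2]
    push_cast
    ring

lemma wb_one (B : ℕ) (x : ℝ) (j : ℕ) :
    WW B x (j + 1) 1 = (j + 1) * ∑ i ∈ range B,
      ((i : ℝ) + 1) * x ^ (i + 1) * (WW B x j i - WW B x j ((i : ℤ) + 2)) := by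
  have h := WW_size B x j 1
  rw [Int.cast_one, one_mul, wb_sum_bx] at h
  rw [h]
  congr 1
  rw [Int.cast_zero, zero_mul, zero_mul, zero_add]
  refine sum_congr rfl fun i _ => ?_
  have e1 : ((i : ℤ) + 1).natAbs = i + 1 := by omega
  have e2 : (-((i : ℤ) + 1)).natAbs = i + 1 := by omega
  have e3 : (1 : ℤ) - ((i : ℤ) + 1) = -(i : ℤ) := by ring
  have e4 : (1 : ℤ) - -((i : ℤ) + 1) = (i : ℤ) + 2 := by ring
  rw [e1, e2, e3, e4, WW_neg]
  push_cast
  ring

theorem gap_hi {B : ℕ} (hB : 1 ≤ B) {x : ℝ} (hx : 0 ≤ x) (hx1 : x ≤ 1) (j : ℕ) :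
    (j + 1) * x * (WW B x j 0 - WW B x j 2) ≤ gam B x * WW B x j 0 := by
  refine le_trans ?_ (WW_succ_le B hx hx1 j 1)
  rw [wb_one, mul_assoc]
  refine mul_le_mul_of_nonneg_left ?_ (by positivity)
  have h := single_le_sum (s := range B)
    (f := fun i : ℕ => ((i : ℝ) + 1) * x ^ (i + 1) * (WW B x j i - WW B x j ((i : ℤ) + 2)))
    (fun i _ => mul_nonneg (by positivity) (sub_nonneg.2 (WW_anti B hx hx1 j (by
      rw [abs_of_nonneg (by positivity), abs_of_nonneg (by positivity)]; omega))))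
    (a := 0) (mem_range.2 (by omega))
  simpa using h

lemma wb_geom {x : ℝ} (hx : 0 ≤ x) (hx1 : x ≤ 1 / 100) (N : ℕ) :
    ∑ i ∈ range N, ((i : ℝ) + 2) * x ^ i + 3 / 2 * (((N : ℝ) + 2) * x ^ N) ≤ 3 := by
  induction N with
  | zero => norm_num
  | succ N ih =>
    rw [sum_range_succ]
    have h1 : 0 ≤ x ^ N := by positivity
    have h2 : 3 / 2 * (((N : ℝ) + 1 + 2) * x) ≤ 1 / 2 * ((N : ℝ) + 2) := by
      have hN : (0 : ℝ) ≤ N := Nat.cast_nonneg N
      nlinarith
    have h3 := mul_le_mul_of_nonneg_right h2 h1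
    push_cast
    rw [pow_succ]
    nlinarith

theorem gap_lo {B : ℕ} (hB : 1 ≤ B) {x : ℝ} (hx : 0 ≤ x) (hx1 : x ≤ 1 / 100) (j : ℕ) :
    WW B x j 1 - 3 * (j + 1) * x ^ 2 * WW B x j 0 ≤
      (j + 1) * x * (WW B x j 0 - WW B x j 2) := by
  have hx1' : x ≤ 1 := by linarith
  have h0 : WW B x j 1 ≤ WW B x (j + 1) 1 := WW_mono_j B hx (Nat.le_succ j) 1
  obtain ⟨N, rfl⟩ : ∃ N, B = N + 1 := ⟨B - 1, by omega⟩
  rw [wb_one, sum_range_succ'] at h0
  have hW : 0 ≤ WW (N + 1) x j 0 := WW_nonneg _ hx j 0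
  have h1 : ∑ i ∈ range N, (((i + 1 : ℕ) : ℝ) + 1) * x ^ (i + 1 + 1) *
      (WW (N + 1) x j ((i + 1 : ℕ) : ℤ) - WW (N + 1) x j (((i + 1 : ℕ) : ℤ) + 2)) ≤
      (∑ i ∈ range N, ((i : ℝ) + 2) * x ^ i) * (x ^ 2 * WW (N + 1) x j 0) := by
    rw [sum_mul]
    refine sum_le_sum fun i _ => ?_
    have a1 : WW (N + 1) x j ((i + 1 : ℕ) : ℤ) ≤ WW (N + 1) x j 0 :=
      WW_anti _ hx hx1' j (by rw [abs_zero]; exact abs_nonneg _)
    have a2 := WW_nonneg (N + 1) hx j (((i + 1 : ℕ) : ℤ) + 2)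
    calc _ ≤ (((i + 1 : ℕ) : ℝ) + 1) * x ^ (i + 1 + 1) * WW (N + 1) x j 0 :=
          mul_le_mul_of_nonneg_left (by linarith) (by positivity)
      _ = _ := by push_cast; ring
  have h2 : ∑ i ∈ range N, ((i : ℝ) + 2) * x ^ i ≤ 3 := by
    have := wb_geom hx hx1 N
    have h3 : 0 ≤ 3 / 2 * (((N : ℝ) + 2) * x ^ N) := by positivity
    linarith
  have h3 := h1.trans (mul_le_mul_of_nonneg_right h2 (by positivity))
  have h4 := h0.trans (mul_le_mul_of_nonneg_left (add_le_add_left h3 _) (by positivity))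
  simp only [Nat.cast_zero, zero_add, pow_one, one_mul] at h4
  linarith

lemma wb_sub {B : ℕ} (hB : 2 ≤ B) : bx 2 ⊆ bx B := fun m hm => by
  rw [mem_bx] at hm ⊢
  exact hm.trans (by exact_mod_cast hB)

lemma wb_tail {B : ℕ} (hB : 2 ≤ B) {x : ℝ} (hx : 0 ≤ x) (j : ℕ) (σ : ℤ) :
    WW B x (j + 1) σ ≤ WW 2 x (j + 1) σ +
      (j + 1) * ∑ m ∈ bx B \ bx 2, x ^ m.natAbs * WW B x j (σ - m) := by
  induction j generalizing σ with
  | zero =>
    rw [WW_succ, WW_succ, ← sum_sdiff (wb_sub hB), Nat.cast_zero, zero_add, one_mul, add_comm]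
    exact le_rfl
  | succ j ih =>
    rw [WW_succ B x (j + 1), WW_succ 2 x (j + 1), ← sum_sdiff (wb_sub hB)]
    have h1 : ∑ m ∈ bx 2, x ^ m.natAbs * WW B x (j + 1) (σ - m) ≤
        ∑ m ∈ bx 2, x ^ m.natAbs * (WW 2 x (j + 1) (σ - m) +
          (j + 1) * ∑ m' ∈ bx B \ bx 2, x ^ m'.natAbs * WW B x j (σ - m - m')) :=
      sum_le_sum fun m _ => mul_le_mul_of_nonneg_left (ih _) (by positivity)
    have h2 : ∑ m ∈ bx 2, x ^ m.natAbs *
          ((j + 1) * ∑ m' ∈ bx B \ bx 2, x ^ m'.natAbs * WW B x j (σ - m - m')) ≤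
        (j + 1) * ∑ m' ∈ bx B \ bx 2, x ^ m'.natAbs * WW B x (j + 1) (σ - m') := by
      simp only [mul_sum]
      rw [sum_comm]
      refine sum_le_sum fun m' _ => ?_
      rw [WW_succ B x j, mul_sum, mul_sum]
      refine le_trans (le_of_eq (sum_congr rfl fun m _ => ?_))
        (sum_le_sum_of_subset_of_nonneg (wb_sub hB) fun m _ _ => ?_)
      · rw [sub_right_comm σ m m']
        ring
      · have := WW_nonneg B hx j (σ - m' - m)
        positivity
    simp only [mul_add, sum_add_distrib] at h1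
    push_cast
    linarith

theorem WW_tail {B : ℕ} (hB : 2 ≤ B) {x : ℝ} (hx : 0 ≤ x) (hx1 : x ≤ 1 / 100) (j : ℕ) (σ : ℤ) :
    WW B x j σ ≤ WW 2 x j σ + 3 * j * x ^ 3 * WW B x j 0 := by
  have hx1' : x ≤ 1 := by linarith
  cases j with
  | zero => simp [WW_zero]
  | succ j =>
    refine (wb_tail hB hx j σ).trans (add_le_add_right ?_ _)
    have hW : 0 ≤ WW B x (j + 1) 0 := WW_nonneg _ hx _ 0
    have h1 : ∑ m ∈ bx B \ bx 2, x ^ m.natAbs * WW B x j (σ - m) ≤
        (∑ m ∈ bx B \ bx 2, x ^ m.natAbs) * WW B x (j + 1) 0 := by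
      rw [sum_mul]
      refine sum_le_sum fun m _ => mul_le_mul_of_nonneg_left ?_ (by positivity)
      exact (WW_anti B hx hx1' j (by rw [abs_zero]; exact abs_nonneg _)).trans
        (WW_mono_j B hx (Nat.le_succ j) 0)
    have h2 : ∑ m ∈ bx B \ bx 2, x ^ m.natAbs ≤ 3 * x ^ 3 := by
      have a1 := gam_tail hB hx hx1
      unfold gam at a1
      rw [← sum_sdiff (wb_sub hB)] at a1
      linarith
    have h3 := h1.trans (mul_le_mul_of_nonneg_right h2 hW)
    calc _ ≤ ((j : ℝ) + 1) * (3 * x ^ 3 * WW B x (j + 1) 0) :=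
          mul_le_mul_of_nonneg_left h3 (by positivity)
      _ = _ := by push_cast; ring

end Pool.Agent.MP_646035_al.PC

namespace Pool.Agent.MP_646035_al.PC

open Finset PT

variable {n k : ℕ} {Q : Type} [AddCommGroup Q] [DecidableEq Q] {e : Fin 2 → Q}

/-- The Fourier transform of the weight of one digit. -/
noncomputable def wc_phi (B : ℕ) (x θ : ℝ) : ℝ := ∑ m ∈ bx B, x ^ m.natAbs * Real.cos (m * θ)

lemma wc_cont (B : ℕ) (x : ℝ) : Continuous (wc_phi B x) := by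
  unfold wc_phi; fun_prop

lemma wc_sin (B : ℕ) (x θ : ℝ) : ∑ m ∈ bx B, x ^ m.natAbs * Real.sin (m * θ) = 0 := by
  refine sum_involution (fun m _ => -m) (fun m _ => ?_) (fun m _ h e => h ?_) (fun m hm => ?_)
    fun m _ => neg_neg m
  · simp
  · have : m = 0 := by omega
    simp [this]
  · rw [mem_bx, abs_neg]; exact mem_bx.1 hm

lemma wc_mul (B : ℕ) (x θ : ℝ) (σ : ℤ) : wc_phi B x θ * Real.cos (σ * θ) =
    ∑ m ∈ bx B, x ^ m.natAbs * Real.cos (((σ - m : ℤ) : ℝ) * θ) := by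
  have h : ∀ m : ℤ, x ^ m.natAbs * Real.cos (((σ - m : ℤ) : ℝ) * θ) =
      x ^ m.natAbs * Real.cos (m * θ) * Real.cos (σ * θ) +
        x ^ m.natAbs * Real.sin (m * θ) * Real.sin (σ * θ) := fun m => by
    push_cast
    rw [sub_mul, Real.cos_sub]
    ring
  simp only [h, sum_add_distrib, ← sum_mul, wc_sin, zero_mul, add_zero, wc_phi]

lemma wc_int (B : ℕ) (x : ℝ) (j : ℕ) (σ : ℤ) :
    ∫ θ in (0 : ℝ)..2 * Real.pi, wc_phi B x θ ^ j * Real.cos (σ * θ) =
      2 * Real.pi * WW B x j σ := by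
  induction j generalizing σ with
  | zero =>
    rw [WW_zero]
    split_ifs with h
    · simp [h]
    · have h' : (σ : ℝ) ≠ 0 := by exact_mod_cast h
      simp only [pow_zero, one_mul, mul_zero]
      rw [intervalIntegral.integral_comp_mul_left (fun t => Real.cos t) h', integral_cos,
        mul_zero, Real.sin_zero, sub_zero, show (σ : ℝ) * (2 * Real.pi) = ((2 * σ : ℤ) : ℝ) * Real.pi
          by push_cast; ring, Real.sin_int_mul_pi, smul_zero]
  | succ j ih =>
    have hc := wc_cont B x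
    have h : ∀ θ, wc_phi B x θ ^ (j + 1) * Real.cos (σ * θ) = ∑ m ∈ bx B,
        x ^ m.natAbs * (wc_phi B x θ ^ j * Real.cos (((σ - m : ℤ) : ℝ) * θ)) := fun θ => by
      rw [pow_succ, mul_assoc, wc_mul, mul_sum]
      exact sum_congr rfl fun m _ => by ring
    simp only [h]
    rw [intervalIntegral.integral_finsetSum fun m _ => Continuous.intervalIntegrable
      (by fun_prop) _ _, WW_succ, mul_sum]
    refine sum_congr rfl fun m _ => ?_
    rw [intervalIntegral.integral_const_mul, ih]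
    ring

lemma wc_nonneg (B : ℕ) {x : ℝ} (hx : 0 ≤ x) (hx1 : x ≤ 1 / 100) (θ : ℝ) : 0 ≤ wc_phi B x θ := by
  have h : ∑ m ∈ bx B, ((if m = 0 then 2 else 0) - x ^ m.natAbs) ≤ wc_phi B x θ := by
    refine sum_le_sum fun m _ => ?_
    split_ifs with h
    · simp [h]; norm_num
    · have := mul_le_mul_of_nonneg_left (Real.neg_one_le_cos (m * θ)) (pow_nonneg hx m.natAbs)
      linarith
  rw [sum_sub_distrib, sum_ite_eq' , if_pos (mem_bx.2 (by simp))] at h
  have h2 := gam_le' B hx hx1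
  unfold gam at h2
  nlinarith

lemma wc_s2 (B : ℕ) {x : ℝ} (hx : 0 ≤ x) (hx1 : x ≤ 1 / 100) :
    ∑ m ∈ bx B, x ^ m.natAbs * (m : ℝ) ^ 2 ≤ 3 * x := by
  have h : ∑ m ∈ bx B, x ^ m.natAbs * (m : ℝ) ^ 2 ≤
      ∑ m ∈ bx B, ((4 * x) ^ m.natAbs - if m = 0 then 1 else 0) / 4 := by
    refine sum_le_sum fun m _ => ?_
    split_ifs with h
    · simp [h]
    · have h1 : 2 * m.natAbs ≤ 2 ^ m.natAbs := Nat.mul_le_pow (by norm_num) _
      have h2 : (2 : ℝ) * |(m : ℝ)| ≤ 2 ^ m.natAbs := by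
        rw [← Int.cast_abs, Int.abs_eq_natAbs]; exact_mod_cast h1
      have h3 : (4 : ℝ) ^ m.natAbs = (2 ^ m.natAbs) ^ 2 := by
        rw [← pow_mul, mul_comm, pow_mul]; norm_num
      have h4 := pow_le_pow_left₀ (by positivity) h2 2
      rw [mul_pow, sq_abs, ← h3] at h4
      have h5 := mul_le_mul_of_nonneg_left h4 (pow_nonneg hx m.natAbs)
      rw [mul_pow]
      linarith
  rw [← sum_div, sum_sub_distrib, sum_ite_eq', if_pos (mem_bx.2 (by simp))] at h
  have h2 := gam_le B (x := 4 * x) (by linarith) (by linarith)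
  have h3 : (1 + 4 * x) / (1 - 4 * x) ≤ 1 + 12 * x := by
    rw [div_le_iff₀ (by linarith)]; nlinarith
  unfold gam at h2
  linarith

lemma wc_ge (B : ℕ) {x : ℝ} (hx : 0 ≤ x) (hx1 : x ≤ 1 / 100) (θ : ℝ) :
    gam B x * (1 + -(3 * x * θ ^ 2 / 2)) ≤ wc_phi B x θ := by
  have h : ∑ m ∈ bx B, (x ^ m.natAbs - x ^ m.natAbs * (m : ℝ) ^ 2 * (θ ^ 2 / 2)) ≤
      wc_phi B x θ := by
    refine sum_le_sum fun m _ => ?_
    have := mul_le_mul_of_nonneg_left (Real.one_sub_sq_div_two_le_cos (x := m * θ))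
      (pow_nonneg hx m.natAbs)
    linarith
  rw [sum_sub_distrib, ← sum_mul] at h
  have h1 := mul_le_mul_of_nonneg_right (wc_s2 B hx hx1) (show 0 ≤ θ ^ 2 / 2 by positivity)
  have h2 := mul_le_mul_of_nonneg_right (one_le_gam B hx)
    (show 0 ≤ 3 * x * θ ^ 2 / 2 by positivity)
  unfold gam at h2 ⊢
  linarith

theorem WW_pd (B : ℕ) {x : ℝ} (hx : 0 ≤ x) (hx1 : x ≤ 1 / 100) (j : ℕ) :
    WW B x j 0 - WW B x j 2 ≤ 4 * (WW B x j 0 - WW B x j 1) := by
  have hc := wc_cont B x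
  have h0 := wc_int B x j 0
  have h1 := wc_int B x j 1
  have h2 := wc_int B x j 2
  have h : 0 ≤ ∫ θ in (0 : ℝ)..2 * Real.pi,
      (3 * (wc_phi B x θ ^ j * Real.cos (((0 : ℤ) : ℝ) * θ)) -
        4 * (wc_phi B x θ ^ j * Real.cos (((1 : ℤ) : ℝ) * θ)) +
        wc_phi B x θ ^ j * Real.cos (((2 : ℤ) : ℝ) * θ)) := by
    refine intervalIntegral.integral_nonneg Real.two_pi_pos.le fun θ _ => ?_
    have := mul_nonneg (pow_nonneg (wc_nonneg B hx hx1 θ) j) (sq_nonneg (1 - Real.cos θ))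
    push_cast
    rw [zero_mul, one_mul, Real.cos_zero, Real.cos_two_mul]
    linarith
  rw [intervalIntegral.integral_add (Continuous.intervalIntegrable (by fun_prop) _ _)
    (Continuous.intervalIntegrable (by fun_prop) _ _),
    intervalIntegral.integral_sub (Continuous.intervalIntegrable (by fun_prop) _ _)
    (Continuous.intervalIntegrable (by fun_prop) _ _), intervalIntegral.integral_const_mul,
    intervalIntegral.integral_const_mul, h0, h1, h2] at h
  have h3 : 0 ≤ 2 * Real.pi * (3 * WW B x j 0 - 4 * WW B x j 1 + WW B x j 2) := by linarith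
  have := (mul_nonneg_iff_of_pos_left Real.two_pi_pos).1 h3
  linarith

theorem WW_cheb (B : ℕ) {x : ℝ} (hx : 0 ≤ x) (hx1 : x ≤ 1 / 100) (j : ℕ) :
    gam B x ^ j ≤ 24 * (1 + j * x) * WW B x j 0 := by
  have hc := wc_cont B x
  have h0 := wc_int B x j 0
  simp only [Int.cast_zero, zero_mul, Real.cos_zero, mul_one] at h0
  obtain ⟨y, hy⟩ : ∃ y : ℝ, y = j * x := ⟨_, rfl⟩
  have y0 : 0 ≤ y := by rw [hy]; positivity
  obtain ⟨δ, hδ⟩ : ∃ δ : ℝ, δ = 1 / (1 + y) := ⟨_, rfl⟩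
  have d0 : 0 < δ := by rw [hδ]; positivity
  have d1 : δ * (1 + y) = 1 := by rw [hδ]; field_simp
  have d2 : δ ≤ 1 := by nlinarith
  have g0 : 0 ≤ gam B x := zero_le_one.trans (one_le_gam B hx)
  have h1 : ∫ θ in (0 : ℝ)..δ, wc_phi B x θ ^ j ≤ ∫ θ in (0 : ℝ)..2 * Real.pi, wc_phi B x θ ^ j :=
    intervalIntegral.integral_mono_interval le_rfl d0.le (by linarith [Real.pi_gt_three])
      (Filter.Eventually.of_forall fun θ => pow_nonneg (wc_nonneg B hx hx1 θ) j)
      (Continuous.intervalIntegrable (by fun_prop) _ _)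
  have h2 : ∫ _ in (0 : ℝ)..δ, gam B x ^ j * (5 / 8) ≤ ∫ θ in (0 : ℝ)..δ, wc_phi B x θ ^ j := by
    refine intervalIntegral.integral_mono_on d0.le (Continuous.intervalIntegrable (by fun_prop) _ _)
      (Continuous.intervalIntegrable (by fun_prop) _ _) fun θ hθ => ?_
    have t1 : θ ^ 2 ≤ δ ^ 2 := pow_le_pow_left₀ hθ.1 hθ.2 2
    have t2 : θ ^ 2 ≤ 1 := by nlinarith
    have t3 : 0 ≤ 1 + -(3 * x * θ ^ 2 / 2) := by nlinarith
    have t4 := one_add_mul_le_pow (a := -(3 * x * θ ^ 2 / 2)) (by linarith) j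
    have t5 : y * θ ^ 2 ≤ 1 / 4 := by
      have := mul_le_mul_of_nonneg_left t1 y0
      nlinarith [sq_nonneg (δ * (1 - y))]
    have t6 : 5 / 8 ≤ 1 + j * -(3 * x * θ ^ 2 / 2) := by
      have : (j : ℝ) * -(3 * x * θ ^ 2 / 2) = -(3 / 2) * (y * θ ^ 2) := by rw [hy]; ring
      linarith
    refine le_trans ?_ (pow_le_pow_left₀ (mul_nonneg g0 t3) (wc_ge B hx hx1 θ) j)
    rw [mul_pow]
    exact mul_le_mul_of_nonneg_left (t6.trans t4) (pow_nonneg g0 j)
  rw [intervalIntegral.integral_const, sub_zero, smul_eq_mul] at h2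
  have h3 := mul_le_mul_of_nonneg_right ((h2.trans h1).trans_eq h0) (show 0 ≤ 1 + y by linarith)
  have h4 : δ * (gam B x ^ j * (5 / 8)) * (1 + y) = gam B x ^ j * (5 / 8) := by
    linear_combination (gam B x ^ j * (5 / 8)) * d1
  have h5 := mul_le_mul_of_nonneg_right Real.pi_le_four
    (mul_nonneg (WW_nonneg B hx j 0) (show 0 ≤ 1 + y by linarith))
  have h6 := mul_nonneg (WW_nonneg B hx j 0) (show 0 ≤ 1 + y by linarith)
  rw [← hy]
  linarith

end Pool.Agent.MP_646035_al.PC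

namespace Pool.Agent.MP_646035_al.PC

open Finset PT

variable {n k : ℕ} {Q : Type} [AddCommGroup Q] [DecidableEq Q] {e : Fin 2 → Q}

lemma site_mm_add (a b : Wm n k) : mm (a + b) = mm a * mm b := by
  rw [mm_mul]
  rfl

lemma site_mm_mul (a : Wm n k) (h : El n k) : (⟨a + h.w, h.g, h.s⟩ : El n k) = mm a * h :=
  (mm_mul a h).symm

lemma site_pair {Z Z' : El n k} (hg : Z.g = Z'.g) (hs : Z.s = Z'.s) :
    mm (Z.w - Z'.w) = Z * Z'⁻¹ := by
  refine eq_mul_inv_of_mul_eq ?_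
  rw [mm_mul, sub_add_cancel, ← hg, ← hs]

lemma site_sum_single {ι M : Type} [DecidableEq ι] [AddCommGroup M] {J : Finset ι} {i : ι}
    (hi : i ∈ J) (w : ι → M) (y : ι → ℤ) (c : ℤ) :
    ∑ l ∈ J, (y + Pi.single i c : ι → ℤ) l • w l = ∑ l ∈ J, y l • w l + c • w i := by
  simp only [Pi.add_apply, add_smul, sum_add_distrib]
  rw [sum_eq_single_of_mem i hi (f := fun l => (Pi.single i c : ι → ℤ) l • w l)
    fun l _ hl => by rw [Pi.single_eq_of_ne hl, zero_smul], Pi.single_eq_same]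

lemma site_sum_single' {ι : Type} [DecidableEq ι] {J : Finset ι} {i : ι}
    (hi : i ∈ J) (y : ι → ℤ) (c : ℤ) :
    ∑ l ∈ J, (y + Pi.single i c : ι → ℤ) l = ∑ l ∈ J, y l + c := by
  simpa only [smul_eq_mul, mul_one] using site_sum_single hi (fun _ => (1 : ℤ)) y c

lemma site_sz_single {ι : Type} [DecidableEq ι] {J : Finset ι} {i : ι}
    (hi : i ∈ J) (y : ι → ℤ) (c : ℤ) :
    szJ J (y + Pi.single i c) + (y i).natAbs = szJ J y + (y i + c).natAbs := by
  unfold szJ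
  rw [← add_sum_erase J _ hi, ← add_sum_erase J (fun l => (y l).natAbs) hi,
    sum_congr rfl (g := fun l => (y l).natAbs) fun l hl => by
      rw [Pi.add_apply, Pi.single_eq_of_ne (ne_of_mem_erase hl), add_zero],
    Pi.add_apply, Pi.single_eq_same]
  omega

theorem alt0 {ι : Type} [DecidableEq ι] {S : Finset (El n k)} (Z : ι → El n k) (J : Finset ι)
    (g : Dh) (s : ZMod 2) (hZ : ∀ i ∈ J, Z i ∈ ball S 1 ∧ (Z i).g = g ∧ (Z i).s = s)
    (y : ι → ℤ) (h : ∑ i ∈ J, y i = 0) :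
    mm (∑ i ∈ J, y i • (Z i).w) ∈ ball S (szJ J y) := by
  induction hm : szJ J y using Nat.strong_induction_on generalizing y with
  | _ m ih =>
  by_cases h0 : ∀ i ∈ J, y i = 0
  · rw [sum_eq_zero fun i hi => by rw [h0 i hi, zero_smul]]
    exact one_mem_ball S m
  obtain ⟨i, hi, hi'⟩ : ∃ i ∈ J, 0 < y i := by
    by_contra hc
    push Not at hc
    exact h0 ((sum_eq_zero_iff_of_nonpos hc).1 h)
  obtain ⟨j, hj, hj'⟩ : ∃ j ∈ J, y j < 0 := by
    by_contra hc
    push Not at hc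
    exact h0 ((sum_eq_zero_iff_of_nonneg hc).1 h)
  have hij : j ≠ i := fun e => by
    rw [e] at hj'
    omega
  have e1 := site_sz_single hi y (-1)
  have e2 := site_sz_single hj (y + Pi.single i (-1)) 1
  rw [Pi.add_apply, Pi.single_eq_of_ne hij, add_zero] at e2
  have e3 : szJ J (y + Pi.single i (-1) + Pi.single j 1) + (1 + 1) = m := by omega
  have e4 := ih _ (by omega) (y + Pi.single i (-1) + Pi.single j 1)
    (by rw [site_sum_single' hj, site_sum_single' hi, h]; rfl) rfl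
  rw [site_sum_single hj, site_sum_single hi] at e4
  have e5 := mul_mem_ball e4 (mul_mem_ball (hZ i hi).1 (inv_mem_ball (hZ j hj).1))
  rw [← site_pair ((hZ i hi).2.1.trans (hZ j hj).2.1.symm) ((hZ i hi).2.2.trans (hZ j hj).2.2.symm),
    ← site_mm_add, e3] at e5
  refine (congrArg (fun w => mm w ∈ ball S m) ?_).mp e5
  rw [neg_smul, one_smul, one_smul]
  abel

theorem alt1 {ι : Type} [DecidableEq ι] {S : Finset (El n k)} (Z : ι → El n k) (J : Finset ι)
    (g : Dh) (s : ZMod 2) (hZ : ∀ i ∈ J, Z i ∈ ball S 1 ∧ (Z i).g = g ∧ (Z i).s = s)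
    (y : ι → ℤ) (h : ∑ i ∈ J, y i = 1) :
    (⟨∑ i ∈ J, y i • (Z i).w, g, s⟩ : El n k) ∈ ball S (szJ J y) := by
  obtain ⟨i, hi, hi'⟩ : ∃ i ∈ J, 0 < y i := by
    by_contra hc
    push Not at hc
    have := sum_nonpos hc
    omega
  have e1 := site_sz_single hi y (-1)
  have e3 : szJ J (y + Pi.single i (-1)) + 1 = szJ J y := by omega
  have e4 := alt0 Z J g s hZ (y + Pi.single i (-1)) (by rw [site_sum_single' hi, h]; rfl)
  rw [site_sum_single hi] at e4
  have e5 := mul_mem_ball e4 (hZ i hi).1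
  rwa [mm_mul, e3, (hZ i hi).2.1, (hZ i hi).2.2, neg_smul, one_smul, neg_add_cancel_right] at e5

lemma site_nsmul {S : Finset (El n k)} {w : Wm n k} (h : mm w ∈ ball S 1) (m : ℕ) :
    mm (m • w) ∈ ball S m := by
  induction m with
  | zero =>
    rw [zero_smul]
    exact one_mem_ball S 0
  | succ m ih =>
    rw [succ_nsmul, site_mm_add]
    exact mul_mem_ball ih h

lemma site_mm_neg (w : Wm n k) : mm (-w) = (mm w)⁻¹ := by
  refine eq_inv_of_mul_eq_one_left ?_
  rw [← site_mm_add, neg_add_cancel]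
  rfl

lemma mm_zsmul_mem {S : Finset (El n k)} {w : Wm n k} (h : mm w ∈ ball S 1) (z : ℤ) :
    mm (z • w) ∈ ball S z.natAbs := by
  obtain ⟨m, rfl | rfl⟩ := z.eq_nat_or_neg
  · rw [natCast_zsmul, Int.natAbs_natCast]
    exact site_nsmul h m
  · rw [neg_smul, natCast_zsmul, Int.natAbs_neg, Int.natAbs_natCast, site_mm_neg]
    exact inv_mem_ball (site_nsmul h m)

lemma site_mm_sum {ι : Type} [DecidableEq ι] {S : Finset (El n k)} (w : ι → Wm n k) (J : Finset ι)
    (h : ∀ i ∈ J, mm (w i) ∈ ball S 1) (y : ι → ℤ) :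
    mm (∑ i ∈ J, y i • w i) ∈ ball S (szJ J y) := by
  unfold szJ
  induction J using Finset.induction_on with
  | empty => exact one_mem_ball S _
  | insert a J ha ih =>
    rw [sum_insert ha, sum_insert ha, site_mm_add]
    exact mul_mem_ball (mm_zsmul_mem (h a (mem_insert_self _ _)) _)
      (ih fun i hi => h i (mem_insert_of_mem hi))

lemma site_insert {ι : Type} [DecidableEq ι] {J : Finset ι} {a : ι} (ha : a ∉ J) (D : Finset ℤ)
    (F : (ι → ℤ) → ℝ) : ∑ y ∈ asg 0 (insert a J) D, F y =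
      ∑ m ∈ D, ∑ y ∈ asg 0 J D, F (Function.update y a m) := by
  rw [insert_eq, sum_asg_union 0 (disjoint_singleton_left.2 ha)]
  have := sum_asg_prod (R := ℝ) 0 {a} D fun _ m => ∑ y ∈ asg 0 J D, F (Function.update y a m)
  simp only [prod_singleton] at this
  simp only [piecewise_singleton]
  exact this

lemma site_gen {ι : Type} [DecidableEq ι] (p : ι → Prop) [DecidablePred p] (J : Finset ι) (B : ℕ)
    (x : ℝ) (σ : ℤ) :
    ∑ y ∈ asg 0 J (bx B), (if ∑ i ∈ J with p i, y i = σ then x ^ szJ J y else 0) =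
      gam B x ^ (J.filter fun i => ¬ p i).card * WW B x (J.filter p).card σ := by
  induction J using Finset.induction_on generalizing σ with
  | empty =>
    rw [asg_empty]
    simp [WW_zero, szJ, eq_comm]
  | insert a J ha ih =>
    have h1 : ∀ (y : ι → ℤ) (m : ℤ), szJ (insert a J) (Function.update y a m) =
        m.natAbs + szJ J y := fun y m => by
      unfold szJ
      rw [sum_insert ha, Function.update_self]
      exact congrArg _ (sum_congr rfl fun i hi => by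
        rw [Function.update_of_ne (ne_of_mem_of_not_mem hi ha)])
    have h2 : ∀ (y : ι → ℤ) (m : ℤ), ∑ i ∈ J with p i, Function.update y a m i =
        ∑ i ∈ J with p i, y i := fun y m => sum_congr rfl fun i hi => by
      rw [Function.update_of_ne (ne_of_mem_of_not_mem (mem_filter.1 hi).1 ha)]
    have h3 : a ∉ J.filter p := fun h => ha (mem_filter.1 h).1
    have h4 : a ∉ J.filter fun i => ¬ p i := fun h => ha (mem_filter.1 h).1
    rw [site_insert ha, filter_insert, filter_insert]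
    by_cases hp : p a
    · rw [if_pos hp, if_neg (not_not.2 hp), card_insert_of_notMem h3, WW_succ, mul_sum]
      refine sum_congr rfl fun m _ => ?_
      rw [mul_left_comm, ← ih, mul_sum]
      refine sum_congr rfl fun y _ => ?_
      rw [sum_insert h3, Function.update_self, h1, h2, pow_add, mul_ite, mul_zero]
      exact if_congr eq_sub_iff_add_eq'.symm rfl rfl
    · rw [if_neg hp, if_pos hp, card_insert_of_notMem h4, pow_succ', mul_assoc, ← ih, gam, sum_mul]
      refine sum_congr rfl fun m _ => ?_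
      rw [mul_sum]
      refine sum_congr rfl fun y _ => ?_
      rw [h1, h2, pow_add, mul_ite, mul_zero]

lemma site_filter {ι : Type} (Tl : ι → El n k) (J : Finset ι) :
    (J.filter fun i => ¬ (Tl i).s = 1) = J.filter fun i => (Tl i).s = 0 :=
  filter_congr fun i _ => by
    rcases z2_cases (Tl i).s with h | h <;> rw [h] <;> decide

theorem sum_asg_gam {ι : Type} [DecidableEq ι] (J : Finset ι) (B : ℕ) (x : ℝ) :
    ∑ y ∈ asg 0 J (bx B), x ^ szJ J y = gam B x ^ J.card := by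
  have := sum_asg_prod (R := ℝ) 0 J (bx B) fun _ m => x ^ m.natAbs
  rw [prod_const] at this
  refine Eq.trans (sum_congr rfl fun y _ => ?_) this
  rw [prod_pow_eq_pow_sum, szJ]

theorem sum_asg_WW {ι : Type} [DecidableEq ι] (J : Finset ι) (B : ℕ) (x : ℝ) (σ : ℤ) :
    ∑ y ∈ (asg 0 J (bx B)).filter (fun y => ∑ i ∈ J, y i = σ), x ^ szJ J y =
      WW B x J.card σ := by
  have := site_gen (fun _ => True) J B x σ
  rw [sum_filter]
  simpa using this

theorem sum_tch {ι : Type} [DecidableEq ι] (Tl : ι → El n k) (J : Finset ι) (B : ℕ) (x : ℝ)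
    (σ : ℤ) : ∑ y ∈ (asg 0 J (bx B)).filter (fun y => tch Tl J y = σ), x ^ szJ J y =
      gam B x ^ nN Tl J * WW B x (nT Tl J) σ := by
  have := site_gen (fun i => (Tl i).s = 1) J B x σ
  rw [site_filter] at this
  rw [sum_filter]
  exact this

lemma nN_add_nT {ι : Type} [DecidableEq ι] (Tl : ι → El n k) (J : Finset ι) :
    nN Tl J + nT Tl J = J.card := by
  rw [nN, nT, ← site_filter, add_comm]
  exact card_filter_add_card_filter_not _

theorem sw_mem_ball {ι : Type} [DecidableEq ι] {S : Finset (El n k)} (Tl : ι → El n k)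
    (J : Finset ι) (hT : ∀ i ∈ J, Tl i ∈ ball S 1 ∧ (Tl i).g = 1) {y : ι → ℤ}
    (hy : y ∈ sset Tl J) : sw Tl J y ∈ ball S (szJ J y) := by
  have h0 := site_mm_sum (S := S) (fun i => (Tl i).w) (J.filter fun i => ¬ (Tl i).s = 1)
    (fun i hi => by
      rw [site_filter] at hi
      obtain ⟨h1, h2⟩ := mem_filter.1 hi
      have e1 : mm (Tl i).w = Tl i := El.ext rfl (hT i h1).2.symm h2.symm
      rw [e1]
      exact (hT i h1).1) y
  have hZ : ∀ i ∈ J.filter fun i => (Tl i).s = 1,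
      Tl i ∈ ball S 1 ∧ (Tl i).g = 1 ∧ (Tl i).s = 1 := fun i hi =>
    ⟨(hT i (mem_filter.1 hi).1).1, (hT i (mem_filter.1 hi).1).2, (mem_filter.1 hi).2⟩
  have h1 : (⟨∑ i ∈ J with (Tl i).s = 1, y i • (Tl i).w, 1, (tch Tl J y : ZMod 2)⟩ : El n k) ∈
      ball S (szJ (J.filter fun i => (Tl i).s = 1) y) := by
    rcases (mem_filter.1 hy).2 with h | h
    · rw [h, Int.cast_zero]
      exact alt0 Tl _ 1 1 hZ y h
    · rw [h, Int.cast_one]
      exact alt1 Tl _ 1 1 hZ y h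
  have h2 := mul_mem_ball h0 h1
  rw [mm_mul] at h2
  unfold szJ at h2
  rw [sum_filter_not_add_sum_filter, sum_filter_not_add_sum_filter] at h2
  exact h2

theorem sum_sset {ι : Type} [DecidableEq ι] (Tl : ι → El n k) (J : Finset ι) (x : ℝ) :
    ∑ y ∈ sset Tl J, x ^ szJ J y = gam 2 x ^ nN Tl J * AA 2 x (nT Tl J) := by
  classical
  rw [sset, filter_or, sum_union (disjoint_filter.2 fun y _ h h' => by omega), sum_tch, sum_tch,
    AA, mul_add]

theorem sum_sset_ge {ι : Type} [DecidableEq ι] (Tl : ι → El n k) (J : Finset ι) {x : ℝ}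
    (hx : 0 ≤ x) (hx1 : x ≤ 1) : AA 2 x J.card ≤ ∑ y ∈ sset Tl J, x ^ szJ J y := by
  rw [sum_sset, ← nN_add_nT Tl J, add_comm]
  exact AA_add_le (by norm_num) hx hx1 _ _

lemma zero_mem_sset {ι : Type} [DecidableEq ι] (Tl : ι → El n k) (J : Finset ι) :
    (0 : ι → ℤ) ∈ sset Tl J :=
  mem_filter.2 ⟨mem_asg.2 ⟨fun _ _ => mem_bx.2 (by simp), fun _ _ => rfl⟩, Or.inl (by simp [tch])⟩

end Pool.Agent.MP_646035_al.PC
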