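import Pool.Agent.MP_646035_al.PC.Mod
import Pool.Agent.MP_646035_al.PC.W

namespace Pool.Agent.MP_646035_al.PC

open Finset PT

variable {n k : ℕ} {Q : Type} [AddCommGroup Q] [DecidableEq Q] {e : Fin 2 → Q}

/-- The digit vector with lamps `a`, `b`, even digits `p` and odd digits `q`. -/
def fca_mk (a b : ℤ) (p q : Fin k → ℤ) : Dg k → ℤ := fun d =>
  d.1.elim (if d.2 = 0 then a else b) fun i => if d.2 = 0 then p i else q i

lemma fca_mk_n0 (a b : ℤ) (p q : Fin k → ℤ) : fca_mk a b p q (none, 0) = a := by simp [fca_mk]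

lemma fca_mk_n1 (a b : ℤ) (p q : Fin k → ℤ) : fca_mk a b p q (none, 1) = b := by simp [fca_mk]

lemma fca_mk_s0 (a b : ℤ) (p q : Fin k → ℤ) (i : Fin k) : fca_mk a b p q (some i, 0) = p i := by
  simp [fca_mk]

lemma fca_mk_s1 (a b : ℤ) (p q : Fin k → ℤ) (i : Fin k) : fca_mk a b p q (some i, 1) = q i := by
  simp [fca_mk]

lemma fca_sum_z2 {M : Type*} [AddCommMonoid M] (f : ZMod 2 → M) : ∑ s, f s = f 0 + f 1 :=
  Fin.sum_univ_two f

lemma fca_sum_dbox (B : ℕ) (F : (Dg k → ℤ) → ℝ) :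
    ∑ y ∈ dbox k B, F y = ∑ a ∈ bx B, ∑ b ∈ bx B, ∑ p ∈ asg 0 (univ : Finset (Fin k)) (bx B),
      ∑ q ∈ asg 0 (univ : Finset (Fin k)) (bx B), F (fca_mk a b p q) := by
  simp_rw [← sum_product']
  symm
  refine sum_nbij' (fun t => fca_mk t.1 t.2.1 t.2.2.1 t.2.2.2)
    (fun y => (y (none, 0), y (none, 1), fun i => y (some i, 0), fun i => y (some i, 1)))
    ?_ ?_ ?_ ?_ fun _ _ => rfl
  · rintro ⟨a, b, p, q⟩ ht
    simp only [mem_product, mem_asg] at ht
    simp only [dbox, Fintype.mem_piFinset]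
    rintro ⟨o, s⟩
    rcases z2_cases s with rfl | rfl <;> rcases o with _ | i
    · rw [fca_mk_n0]; exact ht.1
    · rw [fca_mk_s0]; exact ht.2.2.1.1 i (mem_univ i)
    · rw [fca_mk_n1]; exact ht.2.1
    · rw [fca_mk_s1]; exact ht.2.2.2.1 i (mem_univ i)
  · intro y hy
    simp only [dbox, Fintype.mem_piFinset] at hy
    simp only [mem_product, mem_asg]
    exact ⟨hy _, hy _, ⟨fun i _ => hy _, fun i hi => absurd (mem_univ i) hi⟩,
      fun i _ => hy _, fun i hi => absurd (mem_univ i) hi⟩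
  · rintro ⟨a, b, p, q⟩ -
    simp only [fca_mk_n0, fca_mk_n1, fca_mk_s0, fca_mk_s1]
  · intro y _
    funext ⟨o, s⟩
    rcases z2_cases s with rfl | rfl <;> rcases o with _ | i
    · rw [fca_mk_n0]
    · rw [fca_mk_s0]
    · rw [fca_mk_n1]
    · rw [fca_mk_s1]

lemma fca_szJ (a b : ℤ) (p q : Fin k → ℤ) :
    szJ univ (fca_mk a b p q) = a.natAbs + b.natAbs + szJ univ p + szJ univ q := by
  simp only [szJ]
  rw [Fintype.sum_prod_type, Fintype.sum_option]
  simp only [fca_sum_z2, fca_mk_n0, fca_mk_n1, fca_mk_s0, fca_mk_s1, sum_add_distrib]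
  ring

lemma fca_hard (h : Fin 4 → ℤ) (a b : ℤ) (p q : Fin k → ℤ) :
    Hard h (fca_mk a b p q) ↔ p = 0 ∧ q = 0 ∧
      ((h 0 = 0 ∧ h 2 = 1 ∧ b ≠ 0) ∨ (h 0 = 1 ∧ h 2 = 0 ∧ a ≠ 0)) := by
  simp only [Hard, fca_mk_n0, fca_mk_n1]
  rw [← and_assoc (a := p = 0)]
  refine and_congr_left fun _ => ⟨fun hh => ⟨funext fun i => ?_, funext fun i => ?_⟩, ?_⟩
  · exact (fca_mk_s0 a b p q i).symm.trans (hh i 0)
  · exact (fca_mk_s1 a b p q i).symm.trans (hh i 1)
  · rintro ⟨rfl, rfl⟩ i s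
    rcases z2_cases s with rfl | rfl
    · rw [fca_mk_s0]; rfl
    · rw [fca_mk_s1]; rfl

lemma fca_okn {B : ℕ} (h : Fin 4 → ℤ) {a b : ℤ} {p q : Fin k → ℤ} (ha : a ∈ bx B)
    (hb : b ∈ bx B) (hp : p ∈ asg 0 (univ : Finset (Fin k)) (bx B))
    (hq : q ∈ asg 0 (univ : Finset (Fin k)) (bx B)) :
    Okn B h (fca_mk a b p q) ↔ ∑ i, p i = h 1 - h 0 ∧ ∑ i, q i = h 3 - h 2 := by
  simp only [Okn, fca_mk_s0, fca_mk_s1]
  refine and_iff_right ?_
  rintro ⟨o, s⟩
  rcases z2_cases s with rfl | rfl <;> rcases o with _ | i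
  · rw [fca_mk_n0]; exact mem_bx.1 ha
  · rw [fca_mk_s0]; exact mem_bx.1 ((mem_asg.1 hp).1 i (mem_univ i))
  · rw [fca_mk_n1]; exact mem_bx.1 hb
  · rw [fca_mk_s1]; exact mem_bx.1 ((mem_asg.1 hq).1 i (mem_univ i))

lemma fca_zero_mem_bx (B : ℕ) : (0 : ℤ) ∈ bx B := mem_bx.2 (by simp)

lemma fca_zero_mem_asg (B : ℕ) : (0 : Fin k → ℤ) ∈ asg 0 (univ : Finset (Fin k)) (bx B) :=
  mem_asg.2 ⟨fun _ _ => fca_zero_mem_bx B, fun _ _ => rfl⟩

lemma fca_WW (B : ℕ) (x : ℝ) (σ : ℤ) :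
    ∑ p ∈ asg 0 (univ : Finset (Fin k)) (bx B), (if ∑ i, p i = σ then x ^ szJ univ p else 0) =
      WW B x k σ := by
  have := sum_asg_WW (univ : Finset (Fin k)) B x σ
  rw [card_univ, Fintype.card_fin] at this
  rw [← this, sum_filter]

lemma fca_gam_sub (B : ℕ) (x : ℝ) :
    ∑ b ∈ bx B, (if b ≠ 0 then x ^ b.natAbs else 0) = gam B x - 1 := by
  have h1 : ∑ b ∈ bx B, (if b = 0 then x ^ b.natAbs else 0) = 1 := by
    rw [sum_ite_eq', if_pos (fca_zero_mem_bx B)]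
    simp
  rw [← h1, gam, ← sum_sub_distrib]
  refine sum_congr rfl fun b _ => ?_
  by_cases hb : b = 0 <;> simp [hb]

open Classical in
lemma fca_inner {B : ℕ} (x : ℝ) (h : Fin 4 → ℤ) {a b : ℤ} (ha : a ∈ bx B) (hb : b ∈ bx B) :
    ∑ p ∈ asg 0 (univ : Finset (Fin k)) (bx B), ∑ q ∈ asg 0 (univ : Finset (Fin k)) (bx B),
      (if Okn B h (fca_mk a b p q) then x ^ nc h (fca_mk a b p q) else 0) =
      x ^ a.natAbs * x ^ b.natAbs * (WW B x k (h 1 - h 0) * WW B x k (h 3 - h 2)) -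
        if h 0 = h 1 ∧ h 2 = h 3 ∧ ((h 0 = 0 ∧ h 2 = 1 ∧ b ≠ 0) ∨ (h 0 = 1 ∧ h 2 = 0 ∧ a ≠ 0)) then
          x ^ a.natAbs * x ^ b.natAbs * (1 - x ^ 2) else 0 := by
  set D : ℝ := if h 0 = h 1 ∧ h 2 = h 3 ∧
    ((h 0 = 0 ∧ h 2 = 1 ∧ b ≠ 0) ∨ (h 0 = 1 ∧ h 2 = 0 ∧ a ≠ 0)) then
      x ^ a.natAbs * x ^ b.natAbs * (1 - x ^ 2) else 0 with hD
  have h2 : ∑ p ∈ asg 0 (univ : Finset (Fin k)) (bx B),
      ∑ q ∈ asg 0 (univ : Finset (Fin k)) (bx B),
        (if p = 0 then (if q = 0 then D else 0) else 0) = D := by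
    rw [sum_eq_single_of_mem 0 (fca_zero_mem_asg B)]
    · simp only [if_true]
      rw [sum_ite_eq', if_pos (fca_zero_mem_asg B)]
    · intro p _ hp
      simp [hp]
  rw [← h2, ← fca_WW, ← fca_WW, sum_mul_sum, mul_sum, ← sum_sub_distrib]
  refine sum_congr rfl fun p hp => ?_
  rw [mul_sum, ← sum_sub_distrib]
  refine sum_congr rfl fun q hq => ?_
  rw [nc, fca_szJ]
  by_cases hH : Hard h (fca_mk a b p q)
  · obtain ⟨rfl, rfl, hc⟩ := (fca_hard h a b p q).1 hH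
    rw [if_pos hH]
    by_cases hO : Okn B h (fca_mk a b (0 : Fin k → ℤ) 0)
    · obtain ⟨h1, h3⟩ := (fca_okn h ha hb hp hq).1 hO
      rw [if_pos hO, if_pos h1, if_pos h3, if_pos rfl, if_pos rfl, hD,
        if_pos ⟨by simp at h1; omega, by simp at h3; omega, hc⟩]
      simp only [szJ, Pi.zero_apply, Int.natAbs_zero, sum_const_zero]
      ring
    · rw [if_neg hO, if_pos rfl, if_pos rfl]
      have hO' := fun h' => hO ((fca_okn h ha hb hp hq).2 h')
      have hD0 : D = 0 := by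
        rw [hD]
        refine if_neg fun h' => hO' ⟨?_, ?_⟩
        · rw [h'.1]; simp
        · rw [h'.2.1]; simp
      rw [hD0]
      by_cases h1 : ∑ i, (0 : Fin k → ℤ) i = h 1 - h 0
      · rw [if_neg (fun h3 => hO' ⟨h1, h3⟩)]
        ring
      · rw [if_neg h1]
        ring
  · have hD0 : (if p = 0 then (if q = 0 then D else 0) else 0) = 0 := by
      split_ifs with hp0 hq0
      · rw [hD, if_neg fun h' => hH ((fca_hard h a b p q).2 ⟨hp0, hq0, h'.2.2⟩)]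
      · rfl
      · rfl
    rw [if_neg hH, hD0]
    by_cases hO : Okn B h (fca_mk a b p q)
    · obtain ⟨h1, h3⟩ := (fca_okn h ha hb hp hq).1 hO
      rw [if_pos hO, if_pos h1, if_pos h3]
      ring
    · rw [if_neg hO]
      have hO' := fun h' => hO ((fca_okn h ha hb hp hq).2 h')
      by_cases h1 : ∑ i, p i = h 1 - h 0
      · rw [if_neg (fun h3 => hO' ⟨h1, h3⟩)]
        ring
      · rw [if_neg h1]
        ring

theorem FF_eq (k B : ℕ) (x : ℝ) (h : Fin 4 → ℤ) :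
    FF k B x h = gam B x ^ 2 * WW B x k (h 1 - h 0) * WW B x k (h 3 - h 2) -
      if h 0 = h 1 ∧ h 2 = h 3 ∧ ((h 0 = 0 ∧ h 2 = 1) ∨ (h 0 = 1 ∧ h 2 = 0)) then
        gam B x * (gam B x - 1) * (1 - x ^ 2) else 0 := by
  rw [FF, fca_sum_dbox,
    sum_congr rfl fun a ha => sum_congr rfl fun b hb => fca_inner x h ha hb]
  simp only [sum_sub_distrib]
  congr 1
  · simp only [← sum_mul, ← mul_sum]
    rw [← gam]
    ring
  · by_cases hc : h 0 = h 1 ∧ h 2 = h 3 ∧ ((h 0 = 0 ∧ h 2 = 1) ∨ (h 0 = 1 ∧ h 2 = 0))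
    · rw [if_pos hc]
      obtain ⟨h1, h3, hc | hc⟩ := hc
      · rw [← fca_gam_sub, gam, sum_mul_sum, sum_mul]
        refine sum_congr rfl fun a _ => ?_
        rw [sum_mul]
        refine sum_congr rfl fun b _ => ?_
        by_cases hb : b = 0
        · rw [if_neg (by omega), if_neg (by omega)]
          ring
        · rw [if_pos ⟨h1, h3, .inl ⟨hc.1, hc.2, hb⟩⟩, if_pos hb]
      · rw [mul_comm (gam B x), ← fca_gam_sub, gam, sum_mul_sum, sum_mul]
        refine sum_congr rfl fun a _ => ?_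
        rw [sum_mul]
        refine sum_congr rfl fun b _ => ?_
        by_cases ha : a = 0
        · rw [if_neg (by omega), if_neg (by omega)]
          ring
        · rw [if_pos ⟨h1, h3, .inr ⟨hc.1, hc.2, ha⟩⟩, if_pos ha]
    · rw [if_neg hc]
      refine sum_eq_zero fun a _ => sum_eq_zero fun b _ => if_neg ?_
      rintro ⟨h1, h3, h' | h'⟩
      · exact hc ⟨h1, h3, .inl ⟨h'.1, h'.2.1⟩⟩
      · exact hc ⟨h1, h3, .inr ⟨h'.1, h'.2.1⟩⟩

lemma fca_ch (A σ : Pat) :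
    ch A σ = sg (A 0 * σ 0) * sg (A 1 * σ 1) * sg (A 2 * σ 2) * sg (A 3 * σ 3) := by
  rw [ch, sg_sum, Fin.prod_univ_four]

lemma fca_sg_cast (u : ZMod 2) : sg u = (sgz u : ℝ) := by
  rcases z2_cases u with rfl | rfl <;> simp

lemma fca_sum_chz (τ : Pat) :
    ∑ A ∈ Ev, sgz (∑ i, A i * τ i) = if ∀ i, τ i = τ 2 then 8 else 0 := by
  revert τ
  decide

lemma sum_ch (τ : Pat) : ∑ A ∈ Ev, ch A τ = if ∀ i, τ i = τ 2 then 8 else 0 := by
  simp only [ch, fca_sg_cast]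
  rw [← Int.cast_sum, fca_sum_chz]
  split_ifs <;> simp

lemma ch_add (A σ τ : Pat) : ch A (σ + τ) = ch A σ * ch A τ := by
  simp only [ch, Pi.add_apply, mul_add, sum_add_distrib, sg_add]

lemma abs_ch (A σ : Pat) : |ch A σ| = 1 := by
  rw [ch]
  rcases sg_cases (∑ i, A i * σ i) with h | h <;> simp [h]

lemma ch_zero (σ : Pat) : ch 0 σ = 1 := by simp [ch]

lemma zero_mem_Ev : (0 : Pat) ∈ Ev := by simp [Ev]

lemma Ev_cases {A : Pat} (hA : A ∈ Ev) :
    A = 0 ∨ A = ![1, 1, 0, 0] ∨ A = ![0, 0, 1, 1] ∨ A = ![1, 1, 1, 1] ∨ IsCross A := by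
  revert A
  decide

lemma fca_site (B : ℕ) (x : ℝ) (k : ℕ) (s s' : ZMod 2) (r r' : ℕ) :
    WW B x k (hgt s' r' - hgt s r) = hA B x k r r' + sg s * sg s' * hB B x k r r' := by
  rcases z2_cases s with rfl | rfl <;> rcases z2_cases s' with rfl | rfl
  · rw [← WW_neg, show -(hgt 0 r' - hgt 0 r) = (r' : ℤ) - r by simp [hgt]; ring, hA, hB]
    simp only [sg_zero]
    ring
  · rw [show hgt 1 r' - hgt 0 r = 1 + (r : ℤ) + r' by simp [hgt]; ring, hA, hB]
    simp only [sg_zero, sg_one]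
    ring
  · rw [← WW_neg, show -(hgt 0 r' - hgt 1 r) = 1 + (r : ℤ) + r' by simp [hgt], hA, hB]
    simp only [sg_zero, sg_one]
    ring
  · rw [show hgt 1 r' - hgt 1 r = (r' : ℤ) - r by simp [hgt], hA, hB]
    simp only [sg_one]
    ring

lemma fca_bracket (B : ℕ) (x : ℝ) (σ : Pat) (r : Fin 4 → ℕ) :
    (if hgt (σ 0) (r 0) = hgt (σ 1) (r 1) ∧ hgt (σ 2) (r 2) = hgt (σ 3) (r 3) ∧
        ((hgt (σ 0) (r 0) = 0 ∧ hgt (σ 2) (r 2) = 1) ∨
          (hgt (σ 0) (r 0) = 1 ∧ hgt (σ 2) (r 2) = 0)) then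
        gam B x * (gam B x - 1) * (1 - x ^ 2) else 0) =
      dlt B x r * ((1 + sg (σ 0) * sg (σ 1)) * (1 + sg (σ 2) * sg (σ 3)) *
        (1 - sg (σ 0) * sg (σ 2))) := by
  by_cases hr : r = 0
  · subst hr
    rw [dlt, if_pos rfl]
    rcases z2_cases (σ 0) with h0 | h0 <;> rcases z2_cases (σ 1) with h1 | h1 <;>
      rcases z2_cases (σ 2) with h2 | h2 <;> rcases z2_cases (σ 3) with h3 | h3 <;>
      simp [h0, h1, h2, h3, hgt] <;> ring
  · rw [dlt, if_neg hr, zero_mul, if_neg]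
    rintro ⟨h1, h3, hc⟩
    apply hr
    have key : ∀ (s : ZMod 2) (m : ℕ), hgt s m = 0 ∨ hgt s m = 1 → m = 0 := by
      intro s m hm
      unfold hgt at hm
      split_ifs at hm <;> omega
    have e0 := key (σ 0) (r 0) (by omega)
    have e1 := key (σ 1) (r 1) (by omega)
    have e2 := key (σ 2) (r 2) (by omega)
    have e3 := key (σ 3) (r 3) (by omega)
    funext i
    fin_cases i
    · exact e0
    · exact e1
    · exact e2
    · exact e3

lemma fca_closed (k B : ℕ) (x : ℝ) (σ : Pat) (r : Fin 4 → ℕ) :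
    FF k B x (fun i => hgt (σ i) (r i)) =
      gam B x ^ 2 * (hA B x k (r 0) (r 1) + sg (σ 0) * sg (σ 1) * hB B x k (r 0) (r 1)) *
          (hA B x k (r 2) (r 3) + sg (σ 2) * sg (σ 3) * hB B x k (r 2) (r 3)) -
        dlt B x r * ((1 + sg (σ 0) * sg (σ 1)) * (1 + sg (σ 2) * sg (σ 3)) *
          (1 - sg (σ 0) * sg (σ 2))) := by
  rw [FF_eq, fca_site, fca_site, fca_bracket]

lemma fca_sum_pat (F : Pat → ℝ) :
    ∑ σ, F σ = ∑ a, ∑ b, ∑ c, ∑ d, F ![a, b, c, d] := by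
  simp_rw [← Fintype.sum_prod_type']
  symm
  refine Fintype.sum_bijective
    (fun t : ZMod 2 × ZMod 2 × ZMod 2 × ZMod 2 => ![t.1, t.2.1, t.2.2.1, t.2.2.2]) ?_ _ _
    fun _ => rfl
  constructor
  · rintro ⟨a, b, c, d⟩ ⟨a', b', c', d'⟩ h
    have h0 := congrFun h 0
    have h1 := congrFun h 1
    have h2 := congrFun h 2
    have h3 := congrFun h 3
    simp at h0 h1 h2 h3
    simp [h0, h1, h2, h3]
  · intro σ
    refine ⟨(σ 0, σ 1, σ 2, σ 3), funext fun i => ?_⟩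
    fin_cases i <;> rfl

theorem FF_four (k B : ℕ) (x : ℝ) (σ : Pat) (r : Fin 4 → ℕ) :
    FF k B x (fun i => hgt (σ i) (r i)) = ∑ A ∈ Ev, fc k B x A r * ch A σ := by
  have h1 : ∑ A ∈ Ev, fc k B x A r * ch A σ =
      ∑ τ : Pat, FF k B x (fun i => hgt (τ i) (r i)) * (∑ A ∈ Ev, ch A (τ + σ)) / 16 := by
    simp only [fc, ch_add, sum_div, sum_mul, mul_sum]
    rw [sum_comm]
    exact sum_congr rfl fun τ _ => sum_congr rfl fun A _ => by ring
  have h2 : ∀ σ : Pat, univ.filter (fun τ : Pat => ∀ i, (τ + σ) i = (τ + σ) 2) = {σ, σ + 1} ∧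
      σ ≠ σ + 1 := by decide
  have h3 : ∀ s : ZMod 2, sg (s + 1) = -sg s := fun s => by rw [sg_add, sg_one, mul_neg, mul_one]
  rw [h1]
  simp only [sum_ch, mul_ite, ite_div, mul_zero, zero_div]
  rw [← sum_filter, (h2 σ).1, sum_pair (h2 σ).2]
  simp only [fca_closed, Pi.add_apply, Pi.one_apply, h3]
  ring

theorem FF_pos (hk : 0 < k) {B : ℕ} (hB : 1 ≤ B) {x : ℝ} (hx : 0 < x) (σ : Pat) :
    0 < FF k B x (fun i => hgt (σ i) 0) := by
  have hg := one_le_gam B hx.le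
  have h0 := one_le_WW B hx.le k
  have h1 : 0 < WW B x k 1 :=
    lt_of_lt_of_le (mul_pos (Nat.cast_pos.2 hk) hx) (WW_one_ge hB hx.le k)
  have hW : ∀ s s' : ZMod 2, 0 < WW B x k (hgt s' 0 - hgt s 0) := by
    intro s s'
    rcases z2_cases s with rfl | rfl <;> rcases z2_cases s' with rfl | rfl
    · simp only [sub_self]; linarith
    · rw [show hgt 1 0 - hgt 0 0 = 1 by simp [hgt]]; exact h1
    · rw [← WW_neg, show -(hgt 0 0 - hgt 1 0) = 1 by simp [hgt]]; exact h1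
    · simp only [sub_self]; linarith
  rw [FF_eq]
  split_ifs with hc
  · rw [hc.1, hc.2.1, sub_self, sub_self]
    have h2 : 1 ≤ WW B x k 0 * WW B x k 0 := by nlinarith
    have h3 : gam B x ^ 2 ≤ gam B x ^ 2 * WW B x k 0 * WW B x k 0 := by
      rw [mul_assoc]
      exact le_mul_of_one_le_right (sq_nonneg _) h2
    have h4 : 0 ≤ gam B x * (gam B x - 1) * x ^ 2 :=
      mul_nonneg (mul_nonneg (by linarith) (by linarith)) (sq_nonneg x)
    nlinarith
  · rw [sub_zero]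
    exact mul_pos (mul_pos (pow_pos (by linarith) 2) (hW _ _)) (hW _ _)

lemma fca_cross : ∀ A ∈ Ev, IsCross A →
    A = ![1, 0, 1, 0] ∨ A = ![1, 0, 0, 1] ∨ A = ![0, 1, 1, 0] ∨ A = ![0, 1, 0, 1] := by
  decide

theorem fc_eq (k B : ℕ) (x : ℝ) (r : Fin 4 → ℕ) :
    fc k B x 0 r = gam B x ^ 2 * hA B x k (r 0) (r 1) * hA B x k (r 2) (r 3) - dlt B x r ∧
    fc k B x ![1, 1, 0, 0] r =
      gam B x ^ 2 * hB B x k (r 0) (r 1) * hA B x k (r 2) (r 3) - dlt B x r ∧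
    fc k B x ![0, 0, 1, 1] r =
      gam B x ^ 2 * hA B x k (r 0) (r 1) * hB B x k (r 2) (r 3) - dlt B x r ∧
    fc k B x ![1, 1, 1, 1] r =
      gam B x ^ 2 * hB B x k (r 0) (r 1) * hB B x k (r 2) (r 3) - dlt B x r ∧
    ∀ A ∈ Ev, IsCross A → fc k B x A r = dlt B x r := by
  refine ⟨?_, ?_, ?_, ?_, fun A hA hc => ?_⟩
  rotate_left 4
  rcases fca_cross A hA hc with rfl | rfl | rfl | rfl
  all_goals
    simp only [fc, fca_closed, fca_ch]
    rw [fca_sum_pat]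
    simp only [fca_sum_z2]
    simp
    ring

end Pool.Agent.MP_646035_al.PC

namespace Pool.Agent.MP_646035_al.PC

open Finset PT

variable {n k : ℕ} {Q : Type} [AddCommGroup Q] [DecidableEq Q] {e : Fin 2 → Q}

lemma hold_mem {c a : ℤ} {M : ℕ} {q : ℤ} (h : q ∈ SS (str (eH c)) (Ico a (a + M))) :
    a - 1 + min 0 (2 * c) ≤ q ∧ q ≤ a + M + max 0 (2 * c) := by
  obtain ⟨y, hy, h⟩ := mem_SS.1 h
  rw [mem_Ico] at hy
  simp only [mem_str, eH_zero, eH_one, eT_eH] at h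
  omega

theorem card_helix (c a : ℤ) (M : ℕ) :
    M ≤ (SS (str (eH c)) (Ico a (a + M))).card ∧
      (SS (str (eH c)) (Ico a (a + M))).card ≤ M + (2 * c.natAbs + 2) ∧
      2 * M ≤ (slots (eH c) (SS (str (eH c)) (Ico a (a + M)))).card ∧
      (slots (eH c) (SS (str (eH c)) (Ico a (a + M)))).card ≤ 2 * M + (8 * c.natAbs + 8) := by
  refine ⟨?_, ?_, ?_, ?_⟩
  · refine le_trans ?_ (card_le_card (subset_str _))
    simp
  · refine (card_le_card (t := Icc (a - 1 + min 0 (2 * c)) (a + M + max 0 (2 * c)))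
      fun q hq => mem_Icc.2 (hold_mem hq)).trans ?_
    rw [Int.card_Icc]
    omega
  · refine le_trans ?_ (card_le_card (s := Ico a (a + M) ×ˢ univ) fun ⟨p, j⟩ h => ?_)
    · simp [mul_comm]
    · refine mem_biUnion.2 ⟨p, subset_str _ (mem_product.1 h).1, mem_image.2 ?_⟩
      fin_cases j
      · exact ⟨2, mem_univ _, rfl⟩
      · exact ⟨3, mem_univ _, rfl⟩
  · refine (card_le_card (t := Icc (a - 2 - 2 * c.natAbs) (a + M + 2 * c.natAbs) ×ˢ univ)
      fun p h => ?_).trans ?_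
    · obtain ⟨q, hq, h⟩ := mem_biUnion.1 h
      obtain ⟨i, -, rfl⟩ := mem_image.1 h
      have := hold_mem hq
      refine mem_product.2 ⟨mem_Icc.2 ?_, mem_univ _⟩
      have := le_abs_self c
      have := neg_abs_le c
      fin_cases i <;> simp [slot] <;> omega
    · rw [card_product, Int.card_Icc, card_univ, Fintype.card_fin]
      omega

theorem mem_str_helix {c a : ℤ} {M : ℕ} {q : ℤ} (h : q ∈ SS (str (eH c)) (Ico a (a + M))) :
    a - 1 - 2 * |c| ≤ q ∧ q ≤ a + M + 2 * |c| := by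
  have := hold_mem h
  rw [Int.abs_eq_natAbs]
  omega

lemma hold_geom {x : ℝ} (hx : 0 ≤ x) (hx1 : x ≤ 1 / 2) (B : ℕ) :
    ∑ b ∈ range B, x ^ (2 * b) ≤ 2 := by
  refine le_trans (sum_le_sum fun b _ => ?_) (sum_geometric_two_le B)
  rw [pow_mul]
  exact pow_le_pow_left₀ (sq_nonneg x) (by nlinarith) b

lemma hold_box (k B : ℕ) {x : ℝ} (hx : 0 ≤ x) (hx1 : x ≤ 1 / 2) :
    ∑ y ∈ dbox k B, x ^ szJ univ y ≤ 3 ^ (2 * k + 2) := by
  have h : gam B x ≤ 3 := (gam_le B hx (by linarith)).trans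
    ((div_le_iff₀ (by linarith)).2 (by linarith))
  have e1 : ∑ y ∈ dbox k B, x ^ szJ univ y = ∏ _d : Dg k, gam B x := by
    simp only [szJ, ← prod_pow_eq_pow_sum, gam, dbox]
    exact (prod_univ_sum (fun _ : Dg k => bx B) fun _ m => x ^ m.natAbs).symm
  rw [e1, prod_const, card_univ, Fintype.card_prod, Fintype.card_option, Fintype.card_fin,
    ZMod.card, show (k + 1) * 2 = 2 * k + 2 by ring]
  exact pow_le_pow_left₀ (zero_le_one.trans (one_le_gam B hx)) h _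

theorem ZZ_crude (N k B : ℕ) {x : ℝ} (hx : 0 ≤ x) (hx1 : x ≤ 1 / 2) (V : Finset Q) :
    ZZ N k B e x V ≤ 2 ^ (slots e (SS (str e) V)).card * 4 ^ V.card *
      (3 ^ (2 * k + 2)) ^ (SS (str e) V).card := by
  rw [ZZ, sum_cfg]
  calc _ ≤ ∑ _σ ∈ asg (0 : ZMod 2) (slots e (SS (str e) V)) univ,
        ∑ r ∈ asg 0 (V ×ˢ (univ : Finset (Fin 2))) (range (B + 1)),
          ∑ y ∈ asg 0 (SS (str e) V) (dbox k B), (∏ a ∈ V ×ˢ univ, x ^ (2 * r a)) *
            ∏ q ∈ SS (str e) V, x ^ szJ univ (y q) := by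
        refine sum_le_sum fun σ _ => sum_le_sum fun r _ => sum_le_sum fun y _ => ?_
        split_ifs
        · refine (mul_le_of_le_one_right (by positivity) (Gc_le_one N B V _)).trans ?_
          rw [prod_pow_eq_pow_sum, prod_pow_eq_pow_sum, ← pow_add]
          refine pow_le_pow_of_le_one hx (by linarith) (add_le_add ?_ (sum_le_sum fun q _ => ?_))
          · simp only [Hf, rho_hgt, le_refl]
          · exact Nat.le_add_right _ _
        · positivity
    _ ≤ _ := by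
        rw [sum_const, card_asg, card_univ, ZMod.card, ← sum_mul_sum,
          sum_asg_prod 0 _ _ fun _ b => x ^ (2 * b),
          sum_asg_prod 0 _ _ fun _ y => x ^ szJ univ y, prod_const, prod_const, card_product,
          card_univ, Fintype.card_fin, nsmul_eq_mul, mul_assoc, mul_comm V.card,
          show (4 : ℝ) = 2 ^ 2 by norm_num, ← pow_mul]
        push_cast
        gcongr
        · exact hold_geom hx hx1 _
        · exact hold_box k B hx hx1

lemma hold_split {z s w : ℝ} (hs : 0 < s) {m : ℕ} (h : z ^ (m + 1) ≤ w) (hw : 0 ≤ w) :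
    z ≤ s + w / s ^ m := by
  rcases le_total z s with h1 | h1
  · exact h1.trans (le_add_of_nonneg_right (by positivity))
  · refine le_add_of_nonneg_of_le hs.le ((le_div_iff₀ (by positivity)).2 (le_trans ?_ h))
    rw [pow_succ']
    exact mul_le_mul_of_nonneg_left (pow_le_pow_left₀ hs.le h1 m) (hs.le.trans h1)

lemma hold_ZZ (N k B : ℕ) (V : Finset Q) (j : ℕ) {y z s : ℝ} (hy : 0 ≤ y) (hz : 0 ≤ z)
    (hs : 0 < s) {m : ℕ} (h : z ^ (m + 1) ≤ 2) :
    (y * z) ^ j * ZZ N k B e (y * z) V ≤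
      s * (y ^ j * ZZ N k B e y V) + (y * 2) ^ j * ZZ N k B e (y * 2) V / s ^ m := by
  simp only [ZZ, mul_sum, sum_div, ← sum_add_distrib, ← mul_assoc, ← pow_add]
  refine sum_le_sum fun c _ => ?_
  have h1 : z ^ (j + Ec e V c) ≤ s + 2 ^ (j + Ec e V c) / s ^ m :=
    hold_split hs (by
      rw [← pow_mul, mul_comm, pow_mul]
      exact pow_le_pow_left₀ (by positivity) h _) (by positivity)
  have h2 := mul_le_mul_of_nonneg_left h1
    (mul_nonneg (pow_nonneg hy (j + Ec e V c)) (Gc_nonneg (e := e) N B V c))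
  rw [mul_pow, mul_pow]
  refine le_of_eq_of_le ?_ (h2.trans_eq ?_) <;> ring

theorem Z_gain (k : ℕ) (c : ℤ) {g : ℝ} (hg : 0 < g) :
    ∃ τ : ℝ, 0 < τ ∧ τ ≤ 1 / 20 ∧ ∀ (N : ℕ) (y C : ℝ) (a : ℤ), 0 < y → y ≤ 1 / 4 →
      (∀ B M : ℕ, 2 ≤ B →
        y ^ (2 * M) * ZZ N k B (eH c) y (Ico a (a + M)) ≤ C * Real.exp (-(g * M))) →
      ∃ C' : ℝ, ∀ B M : ℕ, 2 ≤ B →
        (y * (1 + τ)) ^ (2 * M) * ZZ N k B (eH c) (y * (1 + τ)) (Ico a (a + M)) ≤ C' := by
  obtain ⟨K, hK⟩ : ∃ K : ℝ, K = 3 ^ (2 * k + 2) := ⟨_, rfl⟩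
  have K1 : 1 ≤ K := hK ▸ one_le_pow₀ (by norm_num)
  obtain ⟨m, hm⟩ := exists_nat_ge (max 9 (16 * K / g))
  have m9 : (9 : ℝ) ≤ m := (le_max_left _ _).trans hm
  have mK : 16 * K ≤ Real.exp g ^ m := by
    have := (div_le_iff₀ hg).1 ((le_max_right _ _).trans hm)
    rw [← Real.exp_nat_mul]
    linarith [Real.add_one_le_exp (m * g)]
  refine ⟨1 / (2 * (m + 1)), by positivity, one_div_le_one_div_of_le (by norm_num) (by linarith),
    fun N y C a y0 y1 h => ⟨C + 2 ^ (8 * c.natAbs + 8) * K ^ (2 * c.natAbs + 2), fun B M hB => ?_⟩⟩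
  have h2 : (1 + 1 / (2 * ((m : ℝ) + 1))) ^ (m + 1) ≤ 2 := by
    refine (pow_le_pow_left₀ (by positivity) ((add_comm _ _).trans_le (Real.add_one_le_exp _))
      _).trans ?_
    rw [← Real.exp_nat_mul, show ((m + 1 : ℕ) : ℝ) * (1 / (2 * (m + 1))) = 1 / 2 by
      push_cast; field_simp]
    refine le_of_sq_le_sq ?_ two_pos.le
    rw [← Real.exp_nat_mul]
    norm_num
    linarith [Real.exp_one_lt_d9]
  refine (hold_ZZ N k B _ _ y0.le (by positivity) (Real.exp_pos (g * M)) h2).trans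
    (add_le_add ?_ ?_)
  · refine (mul_le_mul_of_nonneg_left (h B M hB) (Real.exp_pos _).le).trans_eq ?_
    rw [Real.exp_neg]
    field_simp
  · obtain ⟨-, h3, -, h4⟩ := card_helix c a M
    have h5 := ZZ_crude (e := eH c) N k B (x := y * 2) (by positivity) (by linarith) (Ico a (a + M))
    rw [← hK, Int.card_Ico, add_sub_cancel_left, Int.toNat_natCast] at h5
    rw [div_le_iff₀ (by positivity), mul_comm g, Real.exp_nat_mul, ← pow_mul, mul_comm M m,
      pow_mul (Real.exp g)]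
    calc _ ≤ 1 * (2 ^ (2 * M + (8 * c.natAbs + 8)) * 4 ^ M * K ^ (M + (2 * c.natAbs + 2))) := by
          refine mul_le_mul (pow_le_one₀ (by positivity) (by linarith)) (h5.trans ?_)
            (ZZ_nonneg N k B (by positivity) _) zero_le_one
          gcongr
          norm_num
      _ = 2 ^ (8 * c.natAbs + 8) * K ^ (2 * c.natAbs + 2) * (16 * K) ^ M := by
          rw [show (16 : ℝ) = 2 ^ 2 * 4 by norm_num, mul_pow, mul_pow, ← pow_mul]
          ring
      _ ≤ _ := by gcongr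

end Pool.Agent.MP_646035_al.PC

namespace Pool.Agent.MP_646035_al.PC

open Finset PT

variable {n k : ℕ} {Q : Type} [AddCommGroup Q] [DecidableEq Q] {e : Fin 2 → Q}

lemma emit_val (m : ℤ) : (((m : ZMod 2).val : ℕ) : ℤ) = m % 2 := ZMod.val_intCast m

lemma emit_even {m : ℤ} (h : m % 2 = 0) : (m : ZMod 2) = 0 :=
  (ZMod.intCast_zmod_eq_zero_iff_dvd m 2).2 (Int.dvd_of_emod_eq_zero h)

lemma emit_odd {m : ℤ} (h : m % 2 = 1) : (m : ZMod 2) = 1 := by
  have h1 : ((m - 1 : ℤ) : ZMod 2) = 0 := emit_even (by omega)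
  rwa [Int.cast_sub, Int.cast_one, sub_eq_zero] at h1

lemma emit_bar_zsmul (b : ZMod 2) (z : ℤ) (s : ZMod 2) :
    bar b ((z • (dl : Lm n)) s) = if s = 0 then (z : OO n) else 0 := by
  by_cases h : s = 0 <;> simp [dl, h]

lemma emit_add_eq_zero (s t : ZMod 2) : s + t = 0 ↔ s = t := by
  revert s t; decide

lemma site_gs (m : ℤ) : site (gs m) = m := by
  have := emit_val m
  simp only [site, gs]
  omega

lemma gs_site (g : Dh) : gs (site g) = g := by
  obtain ⟨a, b⟩ := g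
  rcases z2_cases b with rfl | rfl
  · have h : site ⟨a, 0⟩ = 2 * a := by simp [site]
    rw [h]
    ext1
    · simp only [gs]; omega
    · exact emit_even (by omega)
  · have h : site ⟨a, 1⟩ = 2 * a + 1 := rfl
    rw [h]
    ext1
    · simp only [gs]; omega
    · exact emit_odd (by omega)

lemma gs_succ (m : ℤ) : gs (m + 1) = gs m * if m % 2 = 0 then rho0 else rho1 := by
  split_ifs with h
  · ext1
    · simp only [gs, Dh.mul_a, rho0]; omega
    · simp [gs, rho0]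
  · have h1 : m % 2 = 1 := by omega
    ext1
    · simp only [gs, Dh.mul_a, rho1, emit_odd h1, sgz_one]; omega
    · simp [gs, rho1]

lemma rho0_sq : rho0 * rho0 = 1 := by decide

lemma rho1_sq : rho1 * rho1 = 1 := by decide

lemma site_rho1_mul (g : Dh) : site (rho1 * g) = -1 - site g := by
  obtain ⟨a, b⟩ := g
  rcases z2_cases b with rfl | rfl
  · show 2 * (-1 + -1 * a) + 1 = -1 - (2 * a + 0)
    ring
  · show 2 * (-1 + -1 * a) + 0 = -1 - (2 * a + 1)
    ring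

lemma emU_none (m : ℤ) (y : Fin k → ℤ) : emU n m y none = 0 := by
  simp [emU, aw_apply]

lemma emU_some (m : ℤ) (y : Fin k → ℤ) (i : Fin k) (s : ZMod 2) :
    emU n m y (some i) s = if s = (m : ZMod 2) then y i • tt n (m / 2) else 0 := by
  have h : emU n m y (some i) s =
      tt n (m / 2) * bar (m : ZMod 2) ((y i • (dl : Lm n)) (s + (m : ZMod 2))) := rfl
  rw [h, emit_bar_zsmul]
  simp only [emit_add_eq_zero]
  split_ifs
  · rw [zsmul_eq_mul, mul_comm]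
  · rw [mul_zero]

lemma emU_add (m : ℤ) (y y' : Fin k → ℤ) : emU n m (y + y') = emU n m y + emU n m y' := by
  unfold emU
  rw [← map_add]
  congr 1
  ext1 (_ | i)
  · simp
  · simp [add_smul]

lemma emU_tog (m : ℤ) (σ : ZMod 2) (i : Fin k) :
    iot σ (aw (gs m) (tog n i).w) = emU n m (Pi.single i (sgz σ)) := by
  unfold emU
  rw [iot_aw]
  congr 1
  ext1 (_ | j)
  · rw [iot_none]
    simp [tog]
  · rw [iot_some]
    by_cases h : j = i
    · subst h; simp [tog]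
    · simp [tog, h]

lemma emit_emL (c m : ℤ) (σ : ZMod 2) :
    emL n k c m σ = Pi.single none (Pi.single (σ + (m : ZMod 2))
      (tt n (m / 2 + sgz (m : ZMod 2) * c))) := by
  ext1 (_ | j)
  · ext1 s
    have h : emL n k c m σ none s = tt n (m / 2) *
        bar (m : ZMod 2) (tt n c * dl (s + σ + (m : ZMod 2))) := by
      simp [emL, iot_none, kap_apply, aw_apply, act_apply, lamp, mm, gs]
    rw [h, Pi.single_eq_same, Pi.single_apply, map_mul, bar_tt, tt_add]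
    have h2 : s + σ + (m : ZMod 2) = 0 ↔ s = σ + (m : ZMod 2) := by
      rw [add_assoc, emit_add_eq_zero]
    by_cases hs : s = σ + (m : ZMod 2)
    · rw [if_pos hs, dl, if_pos (h2.2 hs), map_one, mul_one]
    · rw [if_neg hs, dl, if_neg (fun h => hs (h2.1 h)), map_zero, mul_zero, mul_zero]
  · simp [emL, iot_some, aw_apply, lamp, mm]

lemma emL_even (c β : ℤ) (σ : ZMod 2) :
    emL n k c (2 * (β - c)) σ = Pi.single none (Pi.single σ (tt n β)) := by
  rw [emit_emL, emit_even (m := 2 * (β - c)) (by omega), add_zero, sgz_zero]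
  congr 3
  omega

lemma emL_odd (c β : ℤ) (σ : ZMod 2) :
    emL n k c (2 * (β + c) + 1) σ = Pi.single none (Pi.single (σ + 1) (tt n β)) := by
  rw [emit_emL, emit_odd (m := 2 * (β + c) + 1) (by omega), sgz_one]
  congr 3
  omega

lemma emit_mem_gens {c : ℤ} {t : El n k} : t ∈ gens n k c ↔
    t = mv rho0 ∨ t = mv rho1 ∨ t = lamp n k c ∨ ∃ i, tog n i = t := by
  simp [gens]

lemma mem_gens_ball (c : ℤ) : mv rho0 ∈ ball (gens n k c) 1 ∧ mv rho1 ∈ ball (gens n k c) 1 ∧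
    lamp n k c ∈ ball (gens n k c) 1 ∧ ∀ i, tog n i ∈ ball (gens n k c) 1 :=
  ⟨mem_ball_one (emit_mem_gens.2 (.inl rfl)), mem_ball_one (emit_mem_gens.2 (.inr (.inl rfl))),
    mem_ball_one (emit_mem_gens.2 (.inr (.inr (.inl rfl)))),
    fun i => mem_ball_one (emit_mem_gens.2 (.inr (.inr (.inr ⟨i, rfl⟩))))⟩

lemma emit_tog (i : Fin k) : tog n i * tog n i = 1 := by
  ext1
  · rw [mul_w]
    ext1 (_ | j)
    · simp [tog, iot_none]
    · simp [tog, iot_some]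
  · simp [tog]
  · simp [tog, z2_one_add_one]

lemma emit_mv {g : Dh} (h : g * g = 1) : (mv g : El n k)⁻¹ = mv g := by
  rw [inv_eq_iff_mul_eq_one, ← mv_mul, h]; rfl

lemma letter_cases {c : ℤ} {t : El n k} (h : t ∈ gens n k c ∨ t⁻¹ ∈ gens n k c) :
    t = mv rho0 ∨ t = mv rho1 ∨ t = lamp n k c ∨ t = (lamp n k c)⁻¹ ∨ ∃ i, t = tog n i := by
  rcases h with h | h
  · rcases emit_mem_gens.1 h with h | h | h | ⟨i, h⟩
    · exact .inl h
    · exact .inr (.inl h)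
    · exact .inr (.inr (.inl h))
    · exact .inr (.inr (.inr (.inr ⟨i, h.symm⟩)))
  · rcases emit_mem_gens.1 h with h | h | h | ⟨i, h⟩
    · exact .inl (by rw [← emit_mv rho0_sq, ← h, inv_inv])
    · exact .inr (.inl (by rw [← emit_mv rho1_sq, ← h, inv_inv]))
    · exact .inr (.inr (.inr (.inl (by rw [← h, inv_inv]))))
    · exact .inr (.inr (.inr (.inr ⟨i, by
        rw [← inv_eq_iff_mul_eq_one.2 (emit_tog i), h, inv_inv]⟩)))

lemma tog_mul_self (i : Fin k) : tog n i * tog n i = 1 := emit_tog i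

end Pool.Agent.MP_646035_al.PC
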