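import Pool.Agent.MP_646035_al.PC.W

namespace Pool.Agent.MP_646035_al.PC

open Finset PT

variable {n k : ℕ} {Q : Type} [AddCommGroup Q] [DecidableEq Q] {e : Fin 2 → Q}

lemma Good.u_le {u : ℝ} (h : Good k u) : u ≤ 1 / 10 ^ 300 := by
  have h1 : ((10 : ℝ) ^ 15) ^ 20 ≤ (k * u ^ 4) ^ 20 := pow_le_pow_left₀ (by positivity) h.big 20
  rw [← pow_mul] at h1
  rw [le_div_iff₀ (by positivity)]
  calc u * 10 ^ 300 ≤ u * (k * u ^ 4) ^ 20 := mul_le_mul_of_nonneg_left h1 h.pos.le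
    _ ≤ 1 := by rw [mul_comm]; exact h.small

lemma Good.one_le_lam {u : ℝ} (h : Good k u) : 1 ≤ k * u ^ 4 := le_trans (by norm_num) h.big

lemma Good.lam_pow {u : ℝ} (h : Good k u) {m : ℕ} (hm : m ≤ 20) : (k * u ^ 4) ^ m * u ≤ 1 :=
  (mul_le_mul_of_nonneg_right (pow_le_pow_right₀ h.one_le_lam hm) h.pos.le).trans h.small

lemma Good.u_le' {u : ℝ} (h : Good k u) : u ≤ 1 / 10 ^ 15 :=
  h.u_le.trans (one_div_le_one_div_of_le (by positivity)
    (pow_le_pow_right₀ (by norm_num) (by norm_num)))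

lemma Good.x_le_u {u : ℝ} (h : Good k u) : u ^ 4 ≤ u :=
  pow_le_of_le_one h.pos.le (h.u_le'.trans (by norm_num)) (by norm_num)

lemma Good.x_le {u : ℝ} (h : Good k u) : u ^ 4 ≤ 1 / 10 ^ 15 := h.x_le_u.trans h.u_le'

lemma Good.x_pos {u : ℝ} (h : Good k u) : 0 < u ^ 4 := pow_pos h.pos 4

lemma Good.gam_le {u : ℝ} (h : Good k u) (B : ℕ) : gam B (u ^ 4) ≤ 1 + 3 * u ^ 4 := by
  have h1 := h.x_le
  have h2 := h.x_pos
  have h3 := gam_le' B h2.le (by linarith)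
  nlinarith

lemma Good.xA {u : ℝ} (h : Good k u) :
    99 / 100 ≤ u ^ 4 * AA 2 (u ^ 4) k ∧ u ^ 4 * AA 2 (u ^ 4) k ≤ 1 := by
  have h1 := h.x_le
  have h2 := h.x_pos
  have h3 := h.gam_le 2
  have h4 := one_le_gam 2 h2.le
  have h5 : 0 < u ^ 5 := pow_pos h.pos 5
  have h6 : u ^ 5 ≤ 1 / 10 ^ 15 :=
    (pow_le_of_le_one h.pos.le (h.u_le'.trans (by norm_num)) (by norm_num)).trans h.u_le'
  have h7 : 0 ≤ u ^ 4 * AA 2 (u ^ 4) k :=
    mul_nonneg h2.le (zero_le_one.trans (one_le_AA 2 h2.le k))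
  have h8 := h.eq
  rw [mul_right_comm] at h8
  generalize u ^ 4 * AA 2 (u ^ 4) k = P at h7 h8 ⊢
  generalize gam 2 (u ^ 4) = g at h3 h4 h8
  generalize u ^ 5 = v at h5 h6 h8
  constructor
  · by_contra hc
    have h9 : P * g ≤ 992 / 1000 := by nlinarith
    have h10 : (P * g) ^ 2 ≤ (992 / 1000) ^ 2 := pow_le_pow_left₀ (by positivity) h9 2
    nlinarith
  · by_contra hc
    have h9 : 1 < P * g := by nlinarith
    have h10 : 1 < (P * g) ^ 2 := one_lt_pow₀ h9 (by norm_num)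
    nlinarith

lemma num0_W_le_A (B : ℕ) {x : ℝ} (hx : 0 ≤ x) (j : ℕ) : WW B x j 0 ≤ AA B x j :=
  le_add_of_nonneg_right (WW_nonneg B hx j 1)

lemma Good.gam_pow {u : ℝ} (h : Good k u) :
    u ^ 4 * gam 2 (u ^ 4) ^ k ≤ 24 * (1 + k * u ^ 4) := by
  have h1 := h.x_le
  have h2 := h.x_pos
  have h3 := WW_cheb 2 h2.le (by linarith) k
  have h4 := num0_W_le_A 2 h2.le k
  calc u ^ 4 * gam 2 (u ^ 4) ^ k ≤ u ^ 4 * (24 * (1 + k * u ^ 4) * AA 2 (u ^ 4) k) := by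
        refine mul_le_mul_of_nonneg_left (h3.trans ?_) h2.le
        gcongr
    _ = 24 * (1 + k * u ^ 4) * (u ^ 4 * AA 2 (u ^ 4) k) := by ring
    _ ≤ 24 * (1 + k * u ^ 4) * 1 := mul_le_mul_of_nonneg_left h.xA.2 (by positivity)
    _ = _ := mul_one _

lemma Good.W2_ge {u : ℝ} (h : Good k u) {B j : ℕ} (hB : 1 ≤ B) (hj : k ≤ 2 * j + 4) {y : ℝ}
    (h1 : u ^ 4 ≤ y) (h2 : y ≤ 1 / 100) :
    (1 - 3 / (k * u ^ 4)) * WW B y j 0 ≤ WW B y j 2 := by
  have hx := h.x_le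
  have hx0 := h.x_pos
  have hy : 0 ≤ y := hx0.le.trans h1
  have hl := h.one_le_lam
  have h3 := gap_hi hB hy (by linarith) j
  have h4 : gam B y ≤ 11 / 10 := by linarith [gam_le' B hy h2, mul_le_mul_of_nonneg_left h2 hy]
  have h5 : WW B y j 2 ≤ WW B y j 0 := WW_anti B hy (by linarith) j (by norm_num)
  have h6 := WW_nonneg B hy j 0
  have h7 : (k : ℝ) ≤ 2 * j + 4 := by exact_mod_cast hj
  have h8 : 2 / 5 * (k * u ^ 4) ≤ (j + 1) * y := by
    have : ((j : ℝ) + 1) * u ^ 4 ≤ (j + 1) * y := mul_le_mul_of_nonneg_left h1 (by positivity)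
    nlinarith
  have h9 : k * u ^ 4 * (WW B y j 0 - WW B y j 2) ≤ 3 * WW B y j 0 := by
    linarith [mul_le_mul_of_nonneg_right h8 (sub_nonneg.2 h5), mul_le_mul_of_nonneg_right h4 h6]
  rw [sub_mul, one_mul, div_mul_eq_mul_div, sub_le_comm, le_div_iff₀ (by linarith), mul_comm]
  exact h9

lemma Good.gap {u : ℝ} (h : Good k u) {B j : ℕ} (hB : 1 ≤ B) (hj : k ≤ 2 * j + 4) (hj' : j ≤ k)
    {y : ℝ} (h1 : u ^ 4 ≤ y) (h2 : y ≤ 11 / 10 * u ^ 4) :
    WW B y j 0 ≤ 2 * (k * u ^ 4) * (WW B y j 0 - WW B y j 2) := by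
  have hx := h.x_le
  have hx0 := h.x_pos
  have hy : 0 ≤ y := hx0.le.trans h1
  have hl := h.big
  have h3 := gap_lo hB hy (by linarith) j
  have h4 := h.W2_ge hB hj h1 (by linarith)
  have h5 : WW B y j 2 ≤ WW B y j 0 := WW_anti B hy (by linarith) j (by norm_num)
  have h5' : WW B y j 2 ≤ WW B y j 1 := WW_anti B hy (by linarith) j (by norm_num)
  have h6 := WW_nonneg B hy j 0
  have h7 : (j : ℝ) ≤ k := by exact_mod_cast hj'
  have h8 : ((j : ℝ) + 1) * y ≤ 6 / 5 * (k * u ^ 4) := by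
    have : ((j : ℝ) + 1) * y ≤ (k + 1) * (11 / 10 * u ^ 4) := by gcongr
    linarith
  have h9 : 3 / (k * u ^ 4) ≤ 1 / 10 := by
    rw [div_le_iff₀ (by linarith)]
    linarith
  have h10 : k * u ^ 4 * u ^ 4 ≤ 1 / 100 := by
    have h11 := h.lam_pow (m := 2) (by norm_num)
    have h12 : k * u ^ 4 * u ^ 4 ≤ k * u ^ 4 * u :=
      mul_le_mul_of_nonneg_left h.x_le_u (by positivity)
    have h13 : 0 ≤ k * u ^ 4 * u := mul_nonneg (by positivity) h.pos.le
    nlinarith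
  have h14 : 3 * ((j : ℝ) + 1) * y ^ 2 ≤ 1 / 10 := by
    have : ((j : ℝ) + 1) * y * y ≤ 6 / 5 * (k * u ^ 4) * (11 / 10 * u ^ 4) := by gcongr
    linarith
  linarith [mul_le_mul_of_nonneg_right h8 (sub_nonneg.2 h5), mul_le_mul_of_nonneg_right h9 h6,
    mul_le_mul_of_nonneg_right h14 h6, mul_nonneg (by linarith : (0 : ℝ) ≤ k * u ^ 4)
      (sub_nonneg.2 h5)]

lemma Good.AA_half {u : ℝ} (h : Good k u) {j : ℕ} (hj : k ≤ 2 * j + 4) :
    1 ≤ 100 * (k * u ^ 4) * u ^ 2 * AA 2 (u ^ 4) j := by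
  have hx := h.x_le
  have hx0 := h.x_pos
  have hl := h.big
  have hg := h.gam_le 2
  have hg1 := one_le_gam 2 hx0.le
  have h1 := WW_cheb 2 hx0.le (by linarith) (min j k)
  have h2 : WW 2 (u ^ 4) (min j k) 0 ≤ AA 2 (u ^ 4) j :=
    (num0_W_le_A 2 hx0.le _).trans (AA_mono 2 hx0.le (min_le_left _ _))
  have h3 : 24 * (1 + (min j k : ℕ) * u ^ 4) ≤ 25 * (k * u ^ 4) := by
    have : ((min j k : ℕ) : ℝ) * u ^ 4 ≤ k * u ^ 4 := by
      gcongr
      exact min_le_right _ _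
    linarith
  have h4 : gam 2 (u ^ 4) ^ min j k ≤ 25 * (k * u ^ 4) * AA 2 (u ^ 4) j :=
    h1.trans (mul_le_mul h3 h2 (WW_nonneg 2 hx0.le _ _) (by positivity))
  have h5 : AA 2 (u ^ 4) k ≤ 2 * ((gam 2 (u ^ 4) ^ min j k) ^ 2 * gam 2 (u ^ 4) ^ 4) := by
    have h6 : gam 2 (u ^ 4) ^ k ≤ (gam 2 (u ^ 4) ^ min j k) ^ 2 * gam 2 (u ^ 4) ^ 4 := by
      rw [← pow_mul, ← pow_add]
      exact pow_le_pow_right₀ hg1 (by omega)
    linarith [WW_le_pow 2 hx0.le k 0, WW_le_pow 2 hx0.le k 1, show AA 2 (u ^ 4) k =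
      WW 2 (u ^ 4) k 0 + WW 2 (u ^ 4) k 1 from rfl]
  have h7 : gam 2 (u ^ 4) ^ 4 ≤ 2 :=
    (pow_le_pow_left₀ (by linarith) (show gam 2 (u ^ 4) ≤ 11 / 10 by linarith) 4).trans
      (by norm_num)
  have h8 : (1 / 4) ^ 2 ≤ (u ^ 2 * gam 2 (u ^ 4) ^ min j k) ^ 2 := by
    have h9 := h.xA.1.trans (mul_le_mul_of_nonneg_left h5 hx0.le)
    have h10 : 0 ≤ u ^ 4 * (gam 2 (u ^ 4) ^ min j k) ^ 2 := by positivity
    linarith [mul_le_mul_of_nonneg_left h7 h10]
  have h11 := (pow_le_pow_iff_left₀ (by norm_num) (by positivity) (by norm_num)).1 h8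
  linarith [mul_le_mul_of_nonneg_left h4 (sq_nonneg u)]

lemma num0_root {x : ℝ} (hx : 0 ≤ x) : √(√x) ^ 4 = x := by
  rw [show 4 = 2 * 2 from rfl, pow_mul, Real.sq_sqrt (Real.sqrt_nonneg _), Real.sq_sqrt hx]

lemma num0_exists (E : ℝ) (hE : 1 ≤ E) : ∃ (k : ℕ) (u : ℝ), 0 < u ∧ E ≤ k * u ^ 4 ∧
    (k * u ^ 4) ^ 20 * u ≤ 1 ∧
      (u ^ 4 * gam 2 (u ^ 4) * AA 2 (u ^ 4) k) ^ 2 * (1 + u ^ 5) = 1 := by
  obtain ⟨L, hL1, hL2⟩ := (((tendsto_pow_const_div_const_pow_of_one_lt 80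
    (show (1 : ℝ) < 2 by norm_num)).eventually (gt_mem_nhds one_pos)).and
    (tendsto_natCast_atTop_atTop.eventually_ge_atTop (100 * E * Real.exp (3 * E)))).exists
  have he := Real.one_le_exp (show 0 ≤ 3 * E by linarith)
  have hL3 : 100 * E ≤ L := le_trans (le_mul_of_one_le_right (by linarith) he) hL2
  have hL4 : (100 : ℝ) ≤ L := by linarith
  rw [div_lt_one (by positivity)] at hL1
  have hT : (L : ℝ) ^ 2 ≤ 2 ^ L := (pow_le_pow_right₀ (by linarith) (by norm_num)).trans hL1.le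
  have hT1 : 100 * (L : ℝ) ≤ 2 ^ L := by
    linarith [mul_le_mul_of_nonneg_right hL4 (show (0 : ℝ) ≤ L by positivity)]
  have hT0 : (100 : ℝ) ≤ 2 ^ L := by linarith
  set k : ℕ := 2 ^ L * (2 * L) with hk
  have hk1 : (k : ℝ) = 2 ^ L * (2 * L) := by rw [hk]; push_cast; ring
  have hk2 : (L : ℝ) ≤ k := by
    linarith [mul_le_mul_of_nonneg_right hT0 (show (0 : ℝ) ≤ L by positivity)]
  have hk0 : (0 : ℝ) < k := by linarith
  have hx1 : (L : ℝ) / k = 1 / (2 * 2 ^ L) := by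
    rw [hk1]
    field_simp
  have hx2 : (L : ℝ) / k ≤ 1 / 100 := by
    rw [hx1]
    exact one_div_le_one_div_of_le (by norm_num) (by linarith)
  have hle : E / k ≤ L / k := by
    gcongr
    linarith
  have hE0 : 0 < E / k := by positivity
  have r0 := num0_root hE0.le
  have r1 := num0_root (hE0.le.trans hle)
  have hu0 : 0 < √(√(E / k)) := by positivity
  have hcont : Continuous fun u : ℝ =>
      (u ^ 4 * gam 2 (u ^ 4) * AA 2 (u ^ 4) k) ^ 2 * (1 + u ^ 5) := by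
    have c1 : Continuous fun u : ℝ => gam 2 (u ^ 4) := (continuous_gam 2).comp (continuous_pow 4)
    have c2 : Continuous fun u : ℝ => AA 2 (u ^ 4) k :=
      ((continuous_WW 2 k 0).add (continuous_WW 2 k 1)).comp (continuous_pow 4)
    fun_prop
  obtain ⟨u, ⟨hu1, hu2⟩, hu3⟩ := intermediate_value_Icc
    (Real.sqrt_le_sqrt (Real.sqrt_le_sqrt hle)) hcont.continuousOn
    (show (1 : ℝ) ∈ _ from ⟨by
      simp only [r0]
      have a1 : E / k ≤ 1 / 100 := hle.trans hx2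
      have a2 : gam 2 (E / k) ≤ 1 + 3 * (E / k) := by
        linarith [gam_le' 2 hE0.le a1, mul_le_mul_of_nonneg_left a1 hE0.le]
      have a3 : gam 2 (E / k) ^ k ≤ Real.exp (3 * E) := by
        calc gam 2 (E / k) ^ k ≤ Real.exp (3 * (E / k)) ^ k :=
              pow_le_pow_left₀ (zero_le_one.trans (one_le_gam 2 hE0.le))
                (by linarith [Real.add_one_le_exp (3 * (E / k))]) k
          _ = _ := by
              rw [← Real.exp_nat_mul]
              congr 1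
              field_simp
      have a4 : AA 2 (E / k) k ≤ 2 * Real.exp (3 * E) := by
        linarith [WW_le_pow 2 hE0.le k 0, WW_le_pow 2 hE0.le k 1, show AA 2 (E / k) k =
          WW 2 (E / k) k 0 + WW 2 (E / k) k 1 from rfl]
      have a5 : E / k * Real.exp (3 * E) ≤ 1 / 100 := by
        rw [div_mul_eq_mul_div, div_le_iff₀ hk0]
        linarith
      have a6 : E / k * gam 2 (E / k) * AA 2 (E / k) k ≤ 1 / 10 := by
        calc E / k * gam 2 (E / k) * AA 2 (E / k) k ≤ E / k * 2 * (2 * Real.exp (3 * E)) :=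
              mul_le_mul (mul_le_mul_of_nonneg_left (by linarith) hE0.le) a4
                (zero_le_one.trans (one_le_AA 2 hE0.le k)) (by positivity)
          _ ≤ _ := by linarith
      have a7 : 0 ≤ E / k * gam 2 (E / k) * AA 2 (E / k) k :=
        mul_nonneg (mul_nonneg hE0.le (zero_le_one.trans (one_le_gam 2 hE0.le)))
          (zero_le_one.trans (one_le_AA 2 hE0.le k))
      have a8 : √(√(E / k)) ^ 5 ≤ 1 := pow_le_one₀ hu0.le
        (Real.sqrt_le_one.2 (Real.sqrt_le_one.2 (by linarith)))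
      exact (mul_le_mul (pow_le_pow_left₀ a7 a6 2) (add_le_add_right a8 1) (by positivity)
        (by norm_num)).trans (by norm_num), by
      simp only [r1]
      have b0 : 0 < (L : ℝ) / k := hE0.trans_le hle
      have b1 : (2 : ℝ) ^ (2 * L) ≤ gam 2 (L / k) ^ k := by
        rw [show gam 2 (L / k) ^ k = (gam 2 (L / k) ^ 2 ^ L) ^ (2 * L) from pow_mul _ _ _]
        refine pow_le_pow_left₀ (by norm_num) ?_ _
        refine le_trans ?_ (pow_le_pow_left₀ (by positivity) (gam_ge (by norm_num) b0.le) _)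
        refine le_trans (le_of_eq ?_) (one_add_mul_le_pow (by linarith) _)
        rw [hx1]
        push_cast
        field_simp
        ring
      have b2 := WW_cheb 2 b0.le hx2 k
      rw [mul_div_cancel₀ _ hk0.ne'] at b2
      have b3 := num0_W_le_A 2 b0.le k
      have b4 : 1 ≤ L / k * AA 2 (L / k) k := by
        rw [hx1, div_mul_eq_mul_div, one_mul, one_le_div (by positivity), ← hx1]
        rw [two_mul, pow_add] at b1
        refine le_of_mul_le_mul_left (a := 24 * (1 + (L : ℝ))) ?_ (by positivity)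
        have b5 : 24 * (1 + (L : ℝ)) * 2 ≤ 2 ^ L := by linarith
        linarith [mul_le_mul_of_nonneg_left b3 (show 0 ≤ 24 * (1 + (L : ℝ)) by positivity),
          mul_le_mul_of_nonneg_right b5 (show (0 : ℝ) ≤ 2 ^ L by positivity)]
      have b6 : 1 ≤ L / k * gam 2 (L / k) * AA 2 (L / k) k := by
        rw [mul_right_comm]
        exact one_le_mul_of_one_le_of_one_le b4 (one_le_gam 2 b0.le)
      exact one_le_mul_of_one_le_of_one_le (one_le_pow₀ b6)
        (le_add_of_nonneg_right (by positivity))⟩)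
  have hu : 0 < u := hu0.trans_le hu1
  have h1 : u ^ 4 ≤ L / k := r1 ▸ pow_le_pow_left₀ hu.le hu2 4
  refine ⟨k, u, hu, ?_, ?_, hu3⟩
  · rw [mul_comm, ← div_le_iff₀ hk0, ← r0]
    exact pow_le_pow_left₀ hu0.le hu1 4
  · have h2 : k * u ^ 4 ≤ L := by rwa [mul_comm, ← le_div_iff₀ hk0]
    refine (pow_le_one_iff_of_nonneg (by positivity) (show 4 ≠ 0 by norm_num)).1 ?_
    rw [mul_pow, ← pow_mul]
    calc (k * u ^ 4) ^ (20 * 4) * u ^ 4 ≤ (L : ℝ) ^ 80 * (L / k) := by gcongr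
      _ ≤ 1 := by
        rw [hx1, mul_one_div, div_le_one (by positivity)]
        linarith

theorem exists_good : ∃ (k : ℕ) (u : ℝ), Good k u := by
  obtain ⟨k, u, h1, h2, h3, h4⟩ := num0_exists (10 ^ 15) (by norm_num)
  exact ⟨k, u, h1, h2, h3, h4⟩

end Pool.Agent.MP_646035_al.PC

namespace Pool.Agent.MP_646035_al.PC

open Finset PT

variable {n k : ℕ} {Q : Type} [AddCommGroup Q] [DecidableEq Q] {e : Fin 2 → Q}

lemma numa_u {u : ℝ} (h : Good k u) : u ≤ 1 / 10 ^ 10 :=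
  h.u_le.trans (one_div_le_one_div_of_le (by positivity)
    (pow_le_pow_right₀ (by norm_num) (by norm_num)))

lemma numa_x {u : ℝ} (h : Good k u) : u ^ 4 ≤ 1 / 10 ^ 40 :=
  (pow_le_pow_left₀ h.pos.le (numa_u h) 4).trans (by norm_num)

lemma numa_exp {x : ℝ} (hx : 0 ≤ x) (hx1 : x ≤ 1 / 100) (m : ℕ) :
    gam 2 x ^ m ≤ Real.exp (21 / 10 * (m * x)) := by
  have h1 : gam 2 x ≤ Real.exp (21 / 10 * x) := by
    have := gam_le' 2 hx hx1
    have := Real.add_one_le_exp (21 / 10 * x)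
    nlinarith
  calc gam 2 x ^ m ≤ Real.exp (21 / 10 * x) ^ m :=
        pow_le_pow_left₀ (zero_le_one.trans (one_le_gam 2 hx)) h1 m
    _ = Real.exp (21 / 10 * (m * x)) := by rw [← Real.exp_nat_mul]; congr 1; ring

lemma numa_pow {x : ℝ} (hx : 0 ≤ x) (hx1 : x ≤ 1 / 100) (m N : ℕ)
    (h : 21 / 10 * (m * x) ≤ N) : gam 2 x ^ m ≤ (272 / 100) ^ N := by
  calc gam 2 x ^ m ≤ Real.exp (N * 1) := (numa_exp hx hx1 m).trans (Real.exp_le_exp.2 (by linarith))
    _ = Real.exp 1 ^ N := Real.exp_nat_mul 1 N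
    _ ≤ (272 / 100) ^ N := pow_le_pow_left₀ (Real.exp_pos 1).le
        (Real.exp_one_lt_d9.le.trans (by norm_num)) N

lemma numa_near {x : ℝ} (hx : 0 ≤ x) (hx1 : x ≤ 1 / 10 ^ 40) {m : ℕ} (hm : m ≤ 1000) :
    gam 2 x ^ m ≤ 1001 / 1000 := by
  have hm' : (m : ℝ) ≤ 1000 := by exact_mod_cast hm
  have h1 : (m : ℝ) * x ≤ 1000 * (1 / 10 ^ 40) := by gcongr
  have h0 : 0 ≤ (m : ℝ) * x := by positivity
  have h2 := Real.exp_bound_div_one_sub_of_interval (x := 21 / 10 * (m * x)) (by positivity)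
    (by linarith)
  refine (numa_exp hx (by linarith) m).trans (h2.trans ?_)
  rw [div_le_iff₀ (by linarith)]
  linarith

lemma numa_sub {u : ℝ} (h : Good k u) (m : ℕ) :
    99 / 100 ≤ gam 2 (u ^ 4) ^ m * (u ^ 4 * AA 2 (u ^ 4) (k - m)) := by
  have hx : 0 ≤ u ^ 4 := by positivity
  have h1 := AA_sub_le (B := 2) (by norm_num) hx ((numa_x h).trans (by norm_num)) k m
  have h2 := mul_le_mul_of_nonneg_left h1 hx
  have h3 := h.xA.1
  linarith

theorem numA {u : ℝ} (h : Good k u) {j : ℕ} (h1 : 100 ≤ j) (h2 : j ≤ k) :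
    25 ≤ j * (u ^ 4 * AA 2 (u ^ 4) (k - j - 2)) := by
  have hs := numa_sub h (j + 2)
  rw [← Nat.sub_sub] at hs
  have hx1 := numa_x h
  have hx : 0 < u ^ 4 := pow_pos h.pos 4
  have hA := one_le_AA 2 hx.le (k - j - 2)
  have hj : (100 : ℝ) ≤ j := by exact_mod_cast h1
  generalize AA 2 (u ^ 4) (k - j - 2) = A at hs hA ⊢
  generalize u ^ 4 = x at hs hx hx1 ⊢
  have hxA : 0 ≤ x * A := by positivity
  by_cases c1 : 25 ≤ j * x
  · nlinarith
  push Not at c1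
  by_cases c2 : j * x ≤ 4 / 10
  · have hg := numa_pow hx.le (by linarith) (j + 2) 1 (by push_cast; linarith)
    have h3 : 99 / 100 ≤ (272 / 100) ^ 1 * (x * A) := hs.trans (by gcongr)
    nlinarith
  · push Not at c2
    have hg := numa_pow hx.le (by linarith) (j + 2) 53 (by push_cast; linarith)
    have h3 : 99 / 100 ≤ (272 / 100) ^ 53 * (x * A) := hs.trans (by gcongr)
    have h4 : (j : ℝ) * x ≤ j * (1 / 10 ^ 40) := by gcongr
    have h5 : (10 : ℝ) ^ 39 ≤ j := by linarith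
    have h6 : ((272 : ℝ) / 100) ^ 53 ≤ 10 ^ 24 := by norm_num
    have h7 : 99 / 100 ≤ 10 ^ 24 * (x * A) := h3.trans (by gcongr)
    have h8 : 10 ^ 39 * (x * A) ≤ j * (x * A) := by gcongr
    linarith

lemma numa_GW_lin {x : ℝ} (hx : 0 ≤ x) (a b : ℕ) : (a + b) * x ≤ GW x a b := by
  have h1 := WW_one_ge (B := 2) (by norm_num) hx a
  have h2 := WW_one_ge (B := 2) (by norm_num) hx b
  have h3 := one_le_WW 2 hx a
  have h4 := one_le_WW 2 hx b
  have h5 := WW_nonneg 2 hx a 1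
  have h6 := WW_nonneg 2 hx b 1
  unfold GW
  nlinarith

lemma numa_half {x : ℝ} (hx : 0 ≤ x) (hx1 : x ≤ 1 / 100) {a : ℕ} (ha : 3 ≤ a * x) :
    WW 2 x a 0 ≤ 2 * WW 2 x a 1 := by
  have h1 := gap_hi (B := 2) (by norm_num) hx (by linarith) a
  have h2 := WW_anti 2 hx (by linarith) a (σ := 1) (σ' := 2) (by norm_num)
  have h3 := WW_anti 2 hx (by linarith) a (σ := 0) (σ' := 2) (by norm_num)
  have h4 := WW_nonneg 2 hx a 0
  have h5 := gam_le' 2 hx hx1
  have h6 : gam 2 x ≤ 3 / 2 := by nlinarith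
  have h7 : gam 2 x * WW 2 x a 0 ≤ 3 / 2 * WW 2 x a 0 := by gcongr
  have h8 : 3 * (WW 2 x a 0 - WW 2 x a 2) ≤ (a + 1) * x * (WW 2 x a 0 - WW 2 x a 2) :=
    mul_le_mul_of_nonneg_right (by linarith) (by linarith)
  linarith

lemma numa_GW_big {x : ℝ} (hx : 0 ≤ x) (hx1 : x ≤ 1 / 100) {a b : ℕ}
    (hab : 6 ≤ (a + b) * x) : WW 2 x a 0 * WW 2 x b 0 ≤ 2 * GW x a b := by
  have h3 := WW_nonneg 2 hx a 0
  have h4 := WW_nonneg 2 hx b 0
  have h5 := WW_nonneg 2 hx a 1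
  have h6 := WW_nonneg 2 hx b 1
  have h7 := mul_nonneg h5 h4
  have h8 := mul_nonneg h3 h6
  unfold GW
  by_cases ha : 3 ≤ a * x
  · have := mul_le_mul_of_nonneg_right (numa_half hx hx1 ha) h4
    linarith
  · have := mul_le_mul_of_nonneg_left (numa_half hx hx1 (a := b) (by linarith)) h3
    linarith

lemma numa_key {u : ℝ} (h : Good k u) {j a b : ℕ} (h1 : 100 ≤ j) (h2 : j ≤ k)
    (h3 : a + b ≤ 2 * j) (h4 : 44 * j ≤ 25 * (a + b) + 200) :
    u ^ 4 * gam 2 (u ^ 4) ^ (2 * j + 4) < 98 / 100 * GW (u ^ 4) a b := by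
  have hx1 := numa_x h
  have hu := h.pos
  have hx : 0 < u ^ 4 := pow_pos hu 4
  have hj : (100 : ℝ) ≤ j := by exact_mod_cast h1
  have h4' : 44 * (j : ℝ) ≤ 25 * (a + b) + 200 := by exact_mod_cast h4
  have hlin := numa_GW_lin hx.le a b
  by_cases c1 : j * u ^ 4 ≤ 1
  · have hg := numa_pow hx.le (by linarith) (2 * j + 4) 5 (by push_cast; linarith)
    have h5 : u ^ 4 * gam 2 (u ^ 4) ^ (2 * j + 4) ≤ u ^ 4 * (272 / 100) ^ 5 := by gcongr
    have h6 : 168 * u ^ 4 ≤ (a + b) * u ^ 4 := mul_le_mul_of_nonneg_right (by linarith) hx.le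
    linarith
  push Not at c1
  by_cases c2 : j * u ^ 4 ≤ 4
  · have hg := numa_pow hx.le (by linarith) (2 * j + 4) 17 (by push_cast; linarith)
    have h5 : u ^ 4 * gam 2 (u ^ 4) ^ (2 * j + 4) ≤ u ^ 4 * (272 / 100) ^ 17 := by gcongr
    have h6 : (j : ℝ) * u ^ 4 ≤ j * (1 / 10 ^ 40) := by gcongr
    have h7 : 10 ^ 39 * u ^ 4 ≤ (a + b) * u ^ 4 :=
      mul_le_mul_of_nonneg_right (by linarith) hx.le
    linarith
  push Not at c2
  have hl := h.big
  have hl3 := h.lam_pow (m := 3) (by norm_num)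
  have hgp := h.gam_pow
  have hu1 := numa_u h
  have hg1 := one_le_gam 2 hx.le
  have hbig := numa_GW_big hx.le (by linarith) (a := a) (b := b) (by nlinarith)
  have ca := WW_cheb 2 hx.le (by linarith) a
  have cb := WW_cheb 2 hx.le (by linarith) b
  have wa := WW_nonneg 2 hx.le a 0
  have wb := WW_nonneg 2 hx.le b 0
  have h48 := numa_near hx.le hx1 (m := 48) (by norm_num)
  obtain ⟨d, hd⟩ := Nat.exists_eq_add_of_le (h3.trans (Nat.le_add_right _ 4))
  have ha : (a : ℝ) * u ^ 4 ≤ 2 * (k * u ^ 4) := by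
    have : (a : ℝ) ≤ 2 * k := by exact_mod_cast (by omega : a ≤ 2 * k)
    nlinarith
  have hb : (b : ℝ) * u ^ 4 ≤ 2 * (k * u ^ 4) := by
    have : (b : ℝ) ≤ 2 * k := by exact_mod_cast (by omega : b ≤ 2 * k)
    nlinarith
  have hG : (gam 2 (u ^ 4) ^ d) ^ 4 ≤ gam 2 (u ^ 4) ^ k * gam 2 (u ^ 4) ^ 48 := by
    rw [← pow_mul, ← pow_add]
    exact pow_le_pow_right₀ hg1 (by omega)
  rw [hd, pow_add, pow_add]
  have hG0 : 0 ≤ gam 2 (u ^ 4) ^ d := by positivity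
  have hk0 : 0 ≤ gam 2 (u ^ 4) ^ k := by positivity
  have ga : 0 ≤ gam 2 (u ^ 4) ^ a := by positivity
  have gb : 0 ≤ gam 2 (u ^ 4) ^ b := by positivity
  generalize gam 2 (u ^ 4) ^ d = G at *
  generalize gam 2 (u ^ 4) ^ a = Ga at *
  generalize gam 2 (u ^ 4) ^ b = Gb at *
  generalize gam 2 (u ^ 4) ^ k = Gk at *
  generalize gam 2 (u ^ 4) ^ 48 = G8 at *
  generalize (k : ℝ) * u ^ 4 = l at *
  have hl0 : 0 < l := by linarith
  have hUG : u * G ≤ l := by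
    refine le_of_pow_le_pow_left₀ (n := 4) (by norm_num) hl0.le ?_
    have e1 : Gk * G8 ≤ Gk * (1001 / 1000) := by gcongr
    have e2 : u ^ 4 * G ^ 4 ≤ u ^ 4 * (Gk * (1001 / 1000)) := by gcongr; linarith
    have e3 : (100 : ℝ) ≤ l ^ 3 := by
      have : (10 : ℝ) ^ 3 ≤ l ^ 3 := pow_le_pow_left₀ (by norm_num) (by linarith) 3
      linarith
    have e4 : 100 * l ≤ l ^ 3 * l := by gcongr
    rw [mul_pow, pow_succ l 3]
    linarith
  have ca' : Ga ≤ 72 * l * WW 2 (u ^ 4) a 0 :=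
    ca.trans (mul_le_mul_of_nonneg_right (by linarith) wa)
  have cb' : Gb ≤ 72 * l * WW 2 (u ^ 4) b 0 :=
    cb.trans (mul_le_mul_of_nonneg_right (by linarith) wb)
  have hGW : 0 < GW (u ^ 4) a b := lt_of_lt_of_le (by nlinarith) hlin
  generalize GW (u ^ 4) a b = W at *
  have e5 : Ga * Gb ≤ 10368 * l ^ 2 * W := by
    calc Ga * Gb ≤ (72 * l * WW 2 (u ^ 4) a 0) * (72 * l * WW 2 (u ^ 4) b 0) := by gcongr
      _ = 5184 * l ^ 2 * (WW 2 (u ^ 4) a 0 * WW 2 (u ^ 4) b 0) := by ring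
      _ ≤ 5184 * l ^ 2 * (2 * W) := by gcongr
      _ = 10368 * l ^ 2 * W := by ring
  have e6 : u ^ 2 ≤ (1 / 10 ^ 10) ^ 2 := by gcongr
  calc u ^ 4 * (Ga * Gb * G) = u ^ 3 * (u * G) * (Ga * Gb) := by ring
    _ ≤ u ^ 3 * l * (10368 * l ^ 2 * W) := by gcongr
    _ = 10368 * u ^ 2 * (l ^ 3 * u) * W := by ring
    _ ≤ 10368 * (1 / 10 ^ 10) ^ 2 * 1 * W := by gcongr
    _ < 98 / 100 * W := by
      refine mul_lt_mul_of_pos_right ?_ hGW
      norm_num

theorem numC {u : ℝ} (h : Good k u) {j j0 j1 : ℕ} (h1 : 100 ≤ j) (h2 : j ≤ k)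
    (h3 : j0 + j1 ≤ j) (h4 : 22 * j ≤ 25 * (j0 + j1)) :
    1 < GW (u ^ 4) (2 * j0 - 4) (2 * j1 - 4) * u ^ 4 * AA 2 (u ^ 4) (k - j - 2) ^ 2 := by
  have hk := numa_key h (a := 2 * j0 - 4) (b := 2 * j1 - 4) h1 h2 (by omega) (by omega)
  have hs := numa_sub h (j + 2)
  rw [← Nat.sub_sub] at hs
  have hx : 0 < u ^ 4 := pow_pos h.pos 4
  have hg1 := one_le_gam 2 hx.le
  rw [show 2 * j + 4 = (j + 2) * 2 by ring, pow_mul] at hk
  have hG : 0 < gam 2 (u ^ 4) ^ (j + 2) := by positivity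
  generalize gam 2 (u ^ 4) ^ (j + 2) = G at *
  generalize AA 2 (u ^ 4) (k - j - 2) = A at *
  generalize GW (u ^ 4) (2 * j0 - 4) (2 * j1 - 4) = W at *
  generalize u ^ 4 = x at *
  have h5 : 0 < x * G ^ 2 := by positivity
  have h6 : (99 / 100) ^ 2 ≤ (G * (x * A)) ^ 2 := by gcongr
  have hW : 0 < W := by linarith
  refine lt_of_mul_lt_mul_left ?_ h5.le
  calc x * G ^ 2 * 1 < 98 / 100 * W := by linarith
    _ ≤ (G * (x * A)) ^ 2 * W := mul_le_mul_of_nonneg_right (by linarith) hW.le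
    _ = x * G ^ 2 * (W * x * A ^ 2) := by ring

theorem numD {u : ℝ} (h : Good k u) {m : ℕ} (hm : k ≤ m + 99) (A : ℝ)
    (hA : A = AA 2 (u ^ 4) (m - 6)) :
    1 < (u ^ 4 * A) ^ 2 + (u ^ 4 * A) ^ 3 * (u ^ 4 * (A - 1)) ∧
      1 < (u ^ 4 * A) ^ 4 + (u ^ 4 * A) ^ 3 * (u ^ 4 * (A - 1)) ∧ 1 < 2 * (u ^ 4 * A) ^ 2 := by
  have hs := numa_sub h 105
  have hx1 := numa_x h
  have hx : 0 < u ^ 4 := pow_pos h.pos 4
  have h1 := AA_mono 2 hx.le (j := k - 105) (j' := m - 6) (by omega)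
  have h2 := numa_near hx.le hx1 (m := 105) (by norm_num)
  have h3 := one_le_AA 2 hx.le (k - 105)
  rw [← hA] at h1
  have h4 : 99 / 100 ≤ 1001 / 1000 * (u ^ 4 * A) := hs.trans (by gcongr)
  have h5 : 98 / 100 ≤ u ^ 4 * A := by linarith
  have h6 : 97 / 100 ≤ u ^ 4 * (A - 1) := by linarith
  generalize u ^ 4 * (A - 1) = b at *
  generalize u ^ 4 * A = a at *
  have e2 : (98 / 100) ^ 2 ≤ a ^ 2 := by gcongr
  have e4 : (98 / 100) ^ 4 ≤ a ^ 4 := by gcongr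
  have e3 : (98 / 100) ^ 3 * (97 / 100) ≤ a ^ 3 * b := by gcongr
  refine ⟨by linarith, by linarith, by linarith⟩

end Pool.Agent.MP_646035_al.PC

namespace Pool.Agent.MP_646035_al.PC

open Finset PT

variable {n k : ℕ} {Q : Type} [AddCommGroup Q] [DecidableEq Q] {e : Fin 2 → Q}

section aux

variable {u : ℝ}

lemma nump_lam (h : Good k u) : 10000 ≤ k * u ^ 4 := le_trans (by norm_num) h.big

lemma nump_lu (h : Good k u) : k * u ^ 4 * u ≤ 1 / 10000 := by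
  have h1 := h.lam_pow (m := 2) (by norm_num)
  have h2 := nump_lam h
  have h3 := h.pos
  generalize k * u ^ 4 = l at h1 h2
  have : 0 ≤ l * u := by positivity
  nlinarith

lemma nump_u (h : Good k u) : u ≤ 1 / 10000 := by
  have h1 := h.lam_pow (m := 1) (by norm_num)
  have h2 := nump_lam h
  have h3 := h.pos
  generalize k * u ^ 4 = l at h1 h2
  nlinarith

lemma nump_x (h : Good k u) : 0 < u ^ 4 ∧ u ^ 4 ≤ 1 / 10000 := by
  have h3 := h.pos
  have h4 := nump_u h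
  refine ⟨by positivity, le_trans ?_ h4⟩
  exact pow_le_of_le_one h3.le (by linarith) (by norm_num)

lemma nump_k (h : Good k u) : (0 : ℝ) < k := by
  have h1 := nump_lam h
  have h2 := (nump_x h).1
  by_contra c
  have : (k : ℝ) = 0 := le_antisymm (not_lt.1 c) (Nat.cast_nonneg k)
  rw [this] at h1
  linarith

lemma nump_gam (h : Good k u) :
    1 ≤ gam 2 (u ^ 4) ∧ gam 2 (u ^ 4) ^ 2 ≤ 1 + 4 * u ^ 4 + 11 * (u ^ 4) ^ 2 := by
  obtain ⟨h1, h2⟩ := nump_x h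
  have a := one_le_gam 2 h1.le
  have b := gam_le' 2 h1.le (by linarith)
  refine ⟨a, (pow_le_pow_left₀ (by linarith) b 2).trans ?_⟩
  generalize u ^ 4 = x at h1 h2
  have : x * x ≤ x / 10000 := by nlinarith
  have : x ^ 2 * (12 * x + 9 * (x * x)) ≤ x ^ 2 * 1 :=
    mul_le_mul_of_nonneg_left (by linarith) (by positivity)
  linarith

lemma nump_gain (h : Good k u) {j : ℕ} (hj : k ≤ 2 * j + 4) (hj' : j ≤ k) :
    (1 + 1 / (5 * k)) * AA 2 (u ^ 4) (j + 1) ≤ gam 2 (u ^ 4) * AA 2 (u ^ 4) j := by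
  obtain ⟨h1, h2⟩ := nump_x h
  have hk := nump_k h
  have a := AA_gain (B := 2) (by norm_num) h1.le (by linarith) j
  have b := h.gap (B := 2) (by norm_num) hj hj' le_rfl (by linarith)
  have c := WW_anti 2 h1.le (by linarith) j (σ := 0) (σ' := 1) (by simp)
  have d := gam_le' 2 h1.le (by linarith)
  have e := AA_add_le (B := 2) (by norm_num) h1.le (by linarith) j 1
  have f := one_le_AA 2 h1.le j
  have g : AA 2 (u ^ 4) j = WW 2 (u ^ 4) j 0 + WW 2 (u ^ 4) j 1 := rfl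
  rw [pow_one] at e
  generalize u ^ 4 = x at *
  generalize AA 2 x (j + 1) = A', AA 2 x j = A, gam 2 x = G, WW 2 x j 0 = W0, WW 2 x j 1 = W1,
    WW 2 x j 2 = W2 at *
  have i1 : G ≤ 5 / 4 := by nlinarith
  have i2 : A' ≤ 5 / 4 * A := e.trans (mul_le_mul_of_nonneg_right i1 (by linarith))
  have i3 : 1 / (5 * k) * A' ≤ x * (W0 - W2) := by
    rw [one_div, inv_mul_le_iff₀ (by positivity)]
    linarith
  linarith

lemma nump_gains (h : Good k u) {j : ℕ} (hj : k ≤ 2 * j + 4) (r : ℕ) (hr : j + r ≤ k) :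
    (1 + r / (5 * k)) * AA 2 (u ^ 4) (j + r) ≤ gam 2 (u ^ 4) ^ r * AA 2 (u ^ 4) j := by
  induction r with
  | zero => simp
  | succ r ih =>
    have a := ih (by omega)
    have b := nump_gain h (j := j + r) (by omega) (by omega)
    have hk := nump_k h
    have c := one_le_AA 2 (nump_x h).1.le (j + r + 1)
    have d := (nump_gam h).1
    have e : (0 : ℝ) ≤ r / (5 * k) := by positivity
    have f : (0 : ℝ) ≤ 1 / (5 * k) := by positivity
    rw [← add_assoc, pow_succ' (gam 2 (u ^ 4)), mul_assoc, Nat.cast_succ, add_div]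
    generalize (r : ℝ) / (5 * k) = s, 1 / (5 * (k : ℝ)) = t at *
    calc (1 + (s + t)) * AA 2 (u ^ 4) (j + r + 1)
        ≤ (1 + s) * ((1 + t) * AA 2 (u ^ 4) (j + r + 1)) := by
          rw [← mul_assoc]
          exact mul_le_mul_of_nonneg_right (by nlinarith) (by linarith)
      _ ≤ (1 + s) * (gam 2 (u ^ 4) * AA 2 (u ^ 4) (j + r)) :=
          mul_le_mul_of_nonneg_left b (by linarith)
      _ = gam 2 (u ^ 4) * ((1 + s) * AA 2 (u ^ 4) (j + r)) := by ring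
      _ ≤ _ := mul_le_mul_of_nonneg_left a (by linarith)

lemma nump_A (h : Good k u) {j : ℕ} (hj : k ≤ 2 * j + 4) :
    1 / AA 2 (u ^ 4) j ≤ 100 * (k * u ^ 4) * u ^ 2 := by
  have a := one_le_AA 2 (nump_x h).1.le j
  rw [div_le_iff₀ (by linarith)]
  exact h.AA_half hj

lemma nump_aF (h : Good k u) (j : ℕ) :
    aF (u ^ 4) j = 2 * u ^ 4 - 2 * u ^ 4 * (1 / AA 2 (u ^ 4) j) := by
  have a := one_le_AA 2 (nump_x h).1.le j
  rw [aF]
  field_simp

lemma nump_fin {y z c b : ℝ} (hz : 0 ≤ z) (h1 : z ≤ y) (e : z ^ 2 * c = 1) (hc : 0 < c)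
    (hb : c < b) : 1 < y ^ 2 * b := by
  have h2 : z ^ 2 ≤ y ^ 2 := pow_le_pow_left₀ hz h1 2
  have h3 : 0 < z ^ 2 := by
    by_contra k
    have : z ^ 2 * c ≤ 0 := mul_nonpos_of_nonpos_of_nonneg (not_lt.1 k) hc.le
    linarith
  nlinarith

end aux

theorem numR0 {u : ℝ} (h : Good k u) {j m : ℕ} (h1 : m + j = k) (h2 : 2 * j ≤ k) :
    1 < (u ^ 4 * (gam 2 (u ^ 4) ^ m * AA 2 (u ^ 4) j)) ^ 2 := by
  obtain ⟨hx, hx1⟩ := nump_x h
  have hk := nump_k h
  obtain ⟨r, hr⟩ : ∃ r, k / 2 + r = k := ⟨k - k / 2, by omega⟩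
  obtain ⟨d, hd⟩ : ∃ d, j + d = k / 2 := ⟨k / 2 - j, by omega⟩
  have a := nump_gains h (j := k / 2) (by omega) r hr.le
  have b := AA_add_le (B := 2) (by norm_num) hx.le (by linarith) j d
  have c := h.xA.1
  have g := (nump_gam h).1
  have A := one_le_AA 2 hx.le k
  rw [hr] at a
  rw [hd] at b
  have e : (1 : ℝ) / 10 ≤ r / (5 * k) := by
    rw [div_le_div_iff₀ (by norm_num) (by positivity)]
    have : ((k : ℕ) : ℝ) ≤ ((2 * r : ℕ) : ℝ) := Nat.cast_le.2 (by omega)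
    push_cast at this
    linarith
  have f : 11 / 10 * AA 2 (u ^ 4) k ≤ gam 2 (u ^ 4) ^ m * AA 2 (u ^ 4) j := by
    rw [show m = r + d by omega, pow_add, mul_assoc]
    refine le_trans (mul_le_mul_of_nonneg_right (by linarith) (by linarith)) (a.trans ?_)
    exact mul_le_mul_of_nonneg_left b (by positivity)
  refine one_lt_pow₀ ?_ (by norm_num)
  have := mul_le_mul_of_nonneg_left f hx.le
  linarith

theorem numAct {u : ℝ} (h : Good k u) {j : ℕ} (hj : k ≤ 2 * j + 4) :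
    198 / 100 * u ^ 4 ≤ aT (u ^ 4) j ∧ 198 / 100 * u ^ 4 ≤ aF (u ^ 4) j := by
  obtain ⟨hx, hx1⟩ := nump_x h
  have A := one_le_AA 2 hx.le j
  constructor
  · have a := h.W2_ge (B := 2) (by norm_num) hj le_rfl (by linarith)
    have b := WW_nonneg 2 hx.le j 0
    have c := WW_nonneg 2 hx.le j 1
    have d : 3 / (k * u ^ 4) ≤ 2 / 100 := by
      have := nump_lam h
      rw [div_le_iff₀ (by linarith)]
      linarith
    have e : 98 / 100 * WW 2 (u ^ 4) j 0 ≤ WW 2 (u ^ 4) j 2 :=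
      le_trans (mul_le_mul_of_nonneg_right (by linarith) b) a
    rw [aT, le_div_iff₀ (by linarith), AA, mul_comm _ (u ^ 4), mul_assoc]
    exact mul_le_mul_of_nonneg_left (by linarith) hx.le
  · have a := nump_A h hj
    have b := nump_lu h
    have c := nump_u h
    have d := h.pos
    have e : 100 * (k * u ^ 4) * u ^ 2 ≤ 1 / 100 := by
      have : k * u ^ 4 * u * u ≤ 1 / 10000 * 1 :=
        mul_le_mul b (by linarith) d.le (by norm_num)
      linarith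
    have := mul_le_mul_of_nonneg_left (a.trans e) hx.le
    rw [nump_aF h]
    linarith

theorem numP1 {u : ℝ} (h : Good k u) {j m p : ℕ} (hp : 1 ≤ p) (hp3 : p ≤ 3)
    (h1 : m + j + p = k + 1) {a : ℝ} (ha : (4 * p + 1 / 2) * u ^ 4 ≤ a) :
    1 < (u ^ 4 * (gam 2 (u ^ 4) ^ m * AA 2 (u ^ 4) j)) ^ 2 * (1 + a * (1 - 60 * u ^ 4)) := by
  obtain ⟨hx, hx1⟩ := nump_x h
  obtain ⟨g1, g2⟩ := nump_gam h
  obtain ⟨q, rfl⟩ : ∃ q, p = q + 1 := ⟨p - 1, by omega⟩
  have b := AA_add_le (B := 2) (by norm_num) hx.le (by linarith) j (m + q)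
  rw [show j + (m + q) = k by omega] at b
  have A := one_le_AA 2 hx.le k
  have he := h.eq
  have hu := nump_u h
  have hu0 := h.pos
  rw [show u ^ 5 = u ^ 4 * u by ring] at he
  generalize u ^ 4 = x at *
  generalize gam 2 x = G at *
  have hG : 0 < G ^ q := by positivity
  refine nump_fin (z := x * AA 2 x k / G ^ q) (c := (G ^ 2) ^ (q + 1) * (1 + x * u))
    (by positivity) ?_ ?_ (by positivity) ?_
  · rw [div_le_iff₀ hG, mul_assoc]
    refine mul_le_mul_of_nonneg_left (b.trans_eq ?_) hx.le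
    ring
  · refine Eq.trans ?_ he
    field_simp
    ring
  · have xx : x * x ≤ x / 10000 := by nlinarith
    have xu : x * u ≤ x / 10000 := by nlinarith
    have t1 : G ^ 2 ≤ 1 + 401 / 100 * x := by linarith
    have t2 : (G ^ 2) ^ (q + 1) ≤ 1 + (4 * (q + 1 : ℕ) + 1 / 10) * x := by
      refine (pow_le_pow_left₀ (by positivity) t1 _).trans ?_
      have xxx : x * x * x ≤ x / 10000 := by nlinarith
      have : q ≤ 2 := by omega
      interval_cases q <;> push_cast <;> linarith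
    have q3 : ((q + 1 : ℕ) : ℝ) ≤ 3 := by exact_mod_cast hp3
    have q0 : (0 : ℝ) ≤ ((q + 1 : ℕ) : ℝ) := Nat.cast_nonneg _
    generalize ((q + 1 : ℕ) : ℝ) = P at *
    have t3 : (4 * P + 1 / 2) * x * (1 - 60 * x) ≤ a * (1 - 60 * x) :=
      mul_le_mul_of_nonneg_right ha (by linarith)
    have t4 : (G ^ 2) ^ (q + 1) * (1 + x * u) ≤ (1 + (4 * P + 1 / 10) * x) * (1 + x / 10000) :=
      mul_le_mul t2 (by linarith) (by positivity) (by positivity)
    have t5 : P * (x * x) ≤ 3 * (x / 10000) := mul_le_mul q3 xx (by positivity) (by norm_num)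
    linarith

theorem numP2 {u : ℝ} (h : Good k u) {j m : ℕ} (hm : 1 ≤ m) (h1 : m + j = k)
    (hj : k ≤ 2 * j + 4) :
    1 < (u ^ 4 * (gam 2 (u ^ 4) ^ m * AA 2 (u ^ 4) j)) ^ 2 *
      (1 + (2 * u ^ 4 + aF (u ^ 4) j) * (1 - 60 * u ^ 4)) := by
  obtain ⟨hx, hx1⟩ := nump_x h
  obtain ⟨g1, g2⟩ := nump_gam h
  obtain ⟨q, rfl⟩ : ∃ q, m = q + 1 := ⟨m - 1, by omega⟩
  have b := AA_add_le (B := 2) (by norm_num) hx.le (by linarith) (j + 1) q
  rw [show j + 1 + q = k by omega] at b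
  have c := nump_gain h hj (by omega)
  have A := one_le_AA 2 hx.le k
  have he := h.eq
  have hu := nump_u h
  have hu0 := h.pos
  have hk := nump_k h
  have lu := nump_lu h
  have a := nump_A h hj
  have a0 : 0 ≤ 1 / AA 2 (u ^ 4) j := by
    have := one_le_AA 2 hx.le j
    positivity
  have a1 : 1 / AA 2 (u ^ 4) j ≤ 1 := by
    have := one_le_AA 2 hx.le j
    rwa [div_le_one (by linarith)]
  obtain ⟨η, hη⟩ : ∃ η : ℝ, η = 1 / (5 * k) := ⟨_, rfl⟩
  have η0 : 0 < η := by rw [hη]; positivity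
  have ηx : u ^ 4 = 5 * η * (k * u ^ 4) := by rw [hη]; field_simp
  have xu : u ^ 4 * u ≤ η / 2000 := by
    have := mul_le_mul_of_nonneg_left lu η0.le
    nlinarith
  have xx : u ^ 4 * u ^ 4 ≤ η / 2000 :=
    le_trans (mul_le_mul_of_nonneg_left (pow_le_of_le_one hu0.le (by linarith) (by norm_num))
      hx.le) xu
  have xa : u ^ 4 * (1 / AA 2 (u ^ 4) j) ≤ η / 2000 := by
    refine (mul_le_mul_of_nonneg_left a hx.le).trans ?_
    have := mul_le_mul xu lu (by positivity) (by positivity)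
    linarith
  rw [show u ^ 5 = u ^ 4 * u by ring] at he
  rw [nump_aF h]
  rw [← hη] at c
  clear ηx lu a
  generalize 1 / AA 2 (u ^ 4) j = w at *
  generalize u ^ 4 = x at *
  generalize gam 2 x = G at *
  refine nump_fin (z := x * ((1 + η) * AA 2 x k)) (c := G ^ 2 * (1 + x * u) / (1 + η) ^ 2)
    (by positivity) (mul_le_mul_of_nonneg_left ?_ hx.le) ?_ (by positivity) ?_
  · calc (1 + η) * AA 2 x k ≤ (1 + η) * (G ^ q * AA 2 x (j + 1)) :=
          mul_le_mul_of_nonneg_left b (by linarith)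
      _ = G ^ q * ((1 + η) * AA 2 x (j + 1)) := by ring
      _ ≤ G ^ q * (G * AA 2 x j) := mul_le_mul_of_nonneg_left c (by positivity)
      _ = _ := by ring
  · refine Eq.trans ?_ he
    field_simp
  · rw [div_lt_iff₀ (by positivity)]
    have x2 : x * x ≤ x / 10000 := by nlinarith
    have t1 : G ^ 2 * (1 + x * u) ≤ 1 + 4 * x + η / 2 := by
      have : G ^ 2 * (x * u) ≤ 2 * (η / 2000) :=
        mul_le_mul (by linarith) xu (by positivity) (by norm_num)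
      linarith
    have xw : 0 ≤ x * w := by positivity
    have t2 : 4 * x - η / 2 ≤ (2 * x + (2 * x - 2 * x * w)) * (1 - 60 * x) := by
      have : 0 ≤ x * w * x := by positivity
      linarith
    have t3 : 0 ≤ (2 * x + (2 * x - 2 * x * w)) * (1 - 60 * x) := by
      refine mul_nonneg ?_ (by linarith)
      have := mul_le_mul_of_nonneg_left a1 hx.le
      linarith
    generalize (2 * x + (2 * x - 2 * x * w)) * (1 - 60 * x) = B at *
    have : 0 ≤ B * η := by positivity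
    have : 0 ≤ B * η * η := by positivity
    nlinarith

end Pool.Agent.MP_646035_al.PC
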