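import Pool.Agent.MP_646035_al.PC.Fc
import Pool.Agent.MP_646035_al.PC.Num

namespace Pool.Agent.MP_646035_al.PC

open Finset PT

variable {n k : ℕ} {Q : Type} [AddCommGroup Q] [DecidableEq Q] {e : Fin 2 → Q}

lemma fcb_core {P δ L S1 S2 : ℝ} (hL : 1 ≤ L) (hδ0 : 0 ≤ δ) (hδ : 10000 * (L ^ 2 * δ) ≤ 1)
    (hP : 2 ≤ P) (h1 : P ≤ 16 * (L * S1)) (h2 : L * S1 ≤ 16 / 10 * P)
    (h3 : P ≤ 256 * (L ^ 2 * S2)) (h4 : L ^ 2 * S2 ≤ 256 / 100 * P) :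
    1 ≤ P - δ ∧ (1 / (100 * L) ≤ (S1 - δ) / (P - δ) ∧ (S1 - δ) / (P - δ) ≤ 2 / L) ∧
      (1 / (300 * L ^ 2) ≤ (S2 - δ) / (P - δ) ∧ (S2 - δ) / (P - δ) ≤ (2 / L) ^ 2) ∧
      P ≤ 2 * 10 ^ 4 * L ^ 2 * (P - δ) ∧ P ≤ 2 * 10 ^ 4 * L ^ 2 * (S1 - δ) ∧
      P ≤ 2 * 10 ^ 4 * L ^ 2 * (S2 - δ) := by
  have hL0 : 0 < L := by linarith
  have a1 : δ ≤ L * δ := le_mul_of_one_le_left hδ0 hL
  have a2 : L * δ ≤ L ^ 2 * δ := by
    rw [pow_two, mul_assoc]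
    exact le_mul_of_one_le_left (by positivity) hL
  have hN : 1 ≤ P - δ := by linarith
  have hN0 : 0 < P - δ := by linarith
  have b1 : P - δ ≤ 100 * (L * (S1 - δ)) := by rw [mul_sub]; linarith
  have b2 : P - δ ≤ 300 * (L ^ 2 * (S2 - δ)) := by rw [mul_sub]; linarith
  have b3 : L * (S1 - δ) ≤ L ^ 2 * (S1 - δ) := by
    rw [pow_two, mul_assoc]
    exact le_mul_of_one_le_left (by linarith) hL
  have b4 : P - δ ≤ L ^ 2 * (P - δ) := le_mul_of_one_le_left hN0.le (one_le_pow₀ hL)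
  refine ⟨hN, ⟨?_, ?_⟩, ⟨?_, ?_⟩, ?_, ?_, ?_⟩
  · rw [div_le_div_iff₀ (by positivity) hN0]
    linarith
  · rw [div_le_div_iff₀ hN0 hL0]
    linarith
  · rw [div_le_div_iff₀ (by positivity) hN0]
    linarith
  · rw [div_pow, div_le_div_iff₀ hN0 (by positivity)]
    linarith
  · linarith
  · linarith
  · linarith

lemma fcb_hAB (B : ℕ) {y : ℝ} (h0 : 0 ≤ y) (h1 : y ≤ 1) (k r r' : ℕ) :
    0 ≤ hB B y k r r' ∧ hB B y k r r' ≤ hA B y k r r' ∧ hA B y k r r' ≤ hA B y k 0 0 := by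
  have a1 := WW_anti B h0 h1 k (σ := (r' : ℤ) - r) (σ' := 1 + r + r') (by
    rw [abs_of_nonneg (a := 1 + (r : ℤ) + r') (by positivity), abs_le]
    omega)
  have a2 := WW_anti B h0 h1 k (σ := 0) (σ' := (r' : ℤ) - r) (by simp)
  have a3 := WW_anti B h0 h1 k (σ := 1) (σ' := 1 + r + r') (by
    rw [abs_of_nonneg (a := 1 + (r : ℤ) + r') (by positivity), abs_one]
    omega)
  have a4 := WW_nonneg B h0 k (1 + r + r')
  simp only [hA, hB, Nat.cast_zero, sub_zero, add_zero]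
  refine ⟨?_, ?_, ?_⟩ <;> linarith

lemma fcb_u {u : ℝ} (hu : Good k u) : u ≤ 1 / 10 ^ 6 :=
  hu.u_le.trans (one_div_le_one_div_of_le (by positivity)
    (pow_le_pow_right₀ (by norm_num) (by norm_num)))

lemma fcb_x {u : ℝ} (hu : Good k u) : u ^ 4 ≤ 1 / 10 ^ 6 :=
  (pow_le_of_le_one hu.pos.le ((fcb_u hu).trans (by norm_num)) (by norm_num)).trans (fcb_u hu)

lemma fcb_lam {u : ℝ} (hu : Good k u) : (k * u ^ 4) ^ 2 * u ^ 4 ≤ 1 / 10 ^ 6 := by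
  have h1 := hu.lam_pow (m := 2) (by norm_num)
  have h2 : u ^ 3 ≤ 1 / 10 ^ 6 :=
    (pow_le_of_le_one hu.pos.le ((fcb_u hu).trans (by norm_num)) (by norm_num)).trans (fcb_u hu)
  calc (k * u ^ 4) ^ 2 * u ^ 4 = (k * u ^ 4) ^ 2 * u * u ^ 3 := by ring
    _ ≤ 1 * (1 / 10 ^ 6) := mul_le_mul h1 h2 (pow_pos hu.pos 3).le (by norm_num)
    _ = _ := one_mul _

/-- The size of the mean. -/
lemma fcb_a {u y : ℝ} (hu : Good k u) (hy : Rng k u y) {B : ℕ} (hB : 2 ≤ B) :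
    495 / 1000 ≤ u ^ 4 * hA B y k 0 0 ∧ u ^ 4 * hA B y k 0 0 ≤ 505 / 1000 := by
  have hx := fcb_x hu
  have hx0 : 0 < u ^ 4 := pow_pos hu.pos 4
  have h1 := hy.lo
  have h2 := hy.hi
  have hy0 : 0 ≤ y := by linarith
  have hy1 : y ≤ 1 / 100 := by linarith
  have l0 := (WW_mono_x 2 hx0.le h1 k 0).trans (WW_mono_B hB hy0 k 0)
  have l1 := (WW_mono_x 2 hx0.le h1 k 1).trans (WW_mono_B hB hy0 k 1)
  have t0 := WW_tail hB hy0 hy1 k 0
  have t1 := WW_tail hB hy0 hy1 k 1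
  have n0 := WW_nonneg B hy0 k 0
  have n1 := WW_nonneg B hy0 k 1
  have hb := hy.blk
  have ha := hu.xA.1
  have hk : 3 * (k : ℝ) * y ^ 3 ≤ 1 / 1000 := by
    have e1 : y ^ 3 ≤ (11 / 10 * u ^ 4) ^ 3 := pow_le_pow_left₀ hy0 h2 3
    have e2 : (k : ℝ) * u ^ 4 ≤ (k * u ^ 4) ^ 2 := by
      rw [pow_two]
      exact le_mul_of_one_le_left (by positivity) (le_trans (by norm_num) hu.big)
    have e3 : (k : ℝ) * u ^ 4 * u ^ 4 ≤ 1 / 10 ^ 6 :=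
      (mul_le_mul_of_nonneg_right e2 hx0.le).trans (fcb_lam hu)
    have e4 : (k : ℝ) * u ^ 4 * u ^ 4 * u ^ 4 ≤ 1 / 10 ^ 6 * 1 :=
      mul_le_mul e3 (by linarith) hx0.le (by norm_num)
    calc 3 * (k : ℝ) * y ^ 3 ≤ 3 * (k : ℝ) * (11 / 10 * u ^ 4) ^ 3 := by gcongr
      _ = 3993 / 1000 * ((k : ℝ) * u ^ 4 * u ^ 4 * u ^ 4) := by ring
      _ ≤ _ := by linarith
  have hk' := mul_le_mul_of_nonneg_right hk n0
  simp only [hA, AA, Nat.cast_zero, sub_zero, add_zero] at *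
  refine ⟨?_, ?_⟩
  · have := mul_le_mul_of_nonneg_left (add_le_add l0 l1) hx0.le
    linarith
  · have e1 : 998 / 1000 * (WW B y k 0 + WW B y k 1) ≤ WW 2 y k 0 + WW 2 y k 1 := by linarith
    have e2 := mul_le_mul_of_nonneg_left e1 hy0
    have e3 := mul_le_mul_of_nonneg_right h1 (add_nonneg n0 n1)
    linarith

/-- The ratio of the two means. -/
lemma fcb_b {u y : ℝ} (hu : Good k u) (hy : Rng k u y) {B : ℕ} (hB : 2 ≤ B) :
    hA B y k 0 0 ≤ 16 * (k * u ^ 4 * PC.hB B y k 0 0) ∧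
      k * u ^ 4 * PC.hB B y k 0 0 ≤ 16 / 10 * hA B y k 0 0 := by
  have hx := fcb_x hu
  have hx0 : 0 < u ^ 4 := pow_pos hu.pos 4
  have h1 := hy.lo
  have h2 := hy.hi
  have hy0 : 0 ≤ y := by linarith
  have hy1 : y ≤ 1 / 100 := by linarith
  have g1 := hu.gap (B := B) (j := k) (by omega) (by omega) le_rfl h1 h2
  have g2 := hu.W2_ge (B := B) (j := k) (by omega) (by omega) h1 hy1
  have g3 := WW_pd B hy0 hy1 k
  have g4 := WW_anti B hy0 (by linarith) k (σ := 0) (σ' := 1) (by simp)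
  have g5 := WW_anti B hy0 (by linarith) k (σ := 1) (σ' := 2) (by norm_num)
  have n0 := WW_nonneg B hy0 k 0
  have hL : (1000 : ℝ) ≤ k * u ^ 4 := le_trans (by norm_num) hu.big
  simp only [hA, PC.hB, Nat.cast_zero, sub_zero, add_zero]
  generalize (k : ℝ) * u ^ 4 = L at *
  generalize WW B y k 0 = W0, WW B y k 1 = W1, WW B y k 2 = W2 at *
  have hL0 : 0 < L := by linarith
  have e1 := mul_le_mul_of_nonneg_left g3 hL0.le
  have e2 : L * (W0 - W1) ≤ 3 * W0 := by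
    have e3 := mul_le_mul_of_nonneg_left (g2.trans g5) hL0.le
    have e4 : L * ((1 - 3 / L) * W0) = L * W0 - 3 * W0 := by field_simp
    linarith
  have e5 := mul_le_mul_of_nonneg_right hL (sub_nonneg.2 g4)
  refine ⟨?_, ?_⟩ <;> linarith

/-- The size of the coupling. -/
lemma fcb_d {u y : ℝ} (hu : Good k u) (hy : Rng k u y) {B : ℕ} (hB : 2 ≤ B) :
    24 / 100 * u ^ 4 ≤ dlt B y 0 ∧ dlt B y 0 ≤ 3 / 10 * u ^ 4 ∧
      1 ≤ gam B y ∧ gam B y ≤ 101 / 100 := by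
  have hx := fcb_x hu
  have hx0 : 0 < u ^ 4 := pow_pos hu.pos 4
  have h1 := hy.lo
  have h2 := hy.hi
  have hy0 : 0 ≤ y := by linarith
  have hy1 : y ≤ 1 / 1000 := by linarith
  have g1 := gam_ge (B := B) (by omega) hy0
  have g2 := gam_le' B hy0 (by linarith)
  have e1 : y ^ 2 ≤ 1 / 1000 * y := by rw [pow_two]; exact mul_le_mul_of_nonneg_right hy1 hy0
  have e0 : 0 ≤ y ^ 2 := sq_nonneg y
  rw [dlt, if_pos rfl]
  generalize gam B y = g at *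
  have a0 : 0 ≤ g - 1 := by linarith
  have a1 : 1 * (2 * y) * (99 / 100) ≤ g * (g - 1) * (1 - y ^ 2) :=
    mul_le_mul (mul_le_mul (by linarith) (by linarith) (by linarith) (by linarith)) (by linarith)
      (by norm_num) (mul_nonneg (by linarith) a0)
  have a2 : g * (g - 1) * (1 - y ^ 2) ≤ 101 / 100 * (201 / 100 * y) * 1 :=
    mul_le_mul (mul_le_mul (by linarith) (by linarith) a0 (by norm_num)) (by linarith)
      (by linarith) (by positivity)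
  refine ⟨?_, ?_, ?_, ?_⟩ <;> linarith

theorem fb_of_rng {u y : ℝ} (hu : Good k u) (hy : Rng k u y) {B : ℕ} (hB : 2 ≤ B) (m1 m2 : ℕ) :
    FB (numsOf k u m1 m2) (ff k B y) ∧ 1 ≤ Nb k B y ∧ Nb k B y ≤ 1 / u ^ 8 ∧
      ∀ A ∈ Ev, u ^ 12 / 2 ≤ ff k B y A ∧ ∀ r : Fin 4 → ℕ, r ≠ 0 →
        0 ≤ fc k B y A r ∧ fc k B y A r ≤ 2 * 10 ^ 4 * (k * u ^ 4) ^ 2 * fc k B y A 0 := by
  have hx := fcb_x hu
  have hu0 := hu.pos
  have hu1 := fcb_u hu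
  have hx0 : 0 < u ^ 4 := pow_pos hu.pos 4
  have hy0 : 0 ≤ y := hx0.le.trans hy.lo
  have hy1 : y ≤ 1 := by linarith [hy.hi]
  obtain ⟨a1, a2⟩ := fcb_a hu hy hB
  obtain ⟨b1, b2⟩ := fcb_b hu hy hB
  obtain ⟨d1, d2, g1, g2⟩ := fcb_d hu hy hB
  have hab := fcb_hAB B hy0 hy1 k
  obtain ⟨hb0, hba, -⟩ := hab 0 0
  have hL : (1 : ℝ) ≤ k * u ^ 4 := le_trans (by norm_num) hu.big
  have hLx := fcb_lam hu
  have hLu := hu.lam_pow (m := 2) (by norm_num)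
  obtain ⟨c0, c1, c2, c3, c4⟩ := fc_eq k B y 0
  have cr := fc_eq k B y
  have hd : ∀ r : Fin 4 → ℕ, r ≠ 0 → dlt B y r = 0 := fun r hr => if_neg hr
  simp only [Pi.zero_apply] at c0 c1 c2 c3
  have nl : (numsOf k u m1 m2).ηl = 1 / (100 * (k * u ^ 4)) := rfl
  have nh : (numsOf k u m1 m2).ηh = 2 / (k * u ^ 4) := rfl
  have xl : (numsOf k u m1 m2).ξl = u ^ 12 / 2 := rfl
  have xh : (numsOf k u m1 m2).ξh = 4 * u ^ 12 := rfl
  generalize numsOf k u m1 m2 = ν at *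
  generalize (k : ℝ) * u ^ 4 = L at *
  generalize hA B y k 0 0 = a, PC.hB B y k 0 0 = b, dlt B y 0 = δ, gam B y = g at *
  have hL0 : 0 < L := by linarith
  have ha0 : 0 ≤ a := hb0.trans hba
  have hg0 : 0 ≤ g ^ 2 := sq_nonneg g
  have hδ0 : 0 ≤ δ := by linarith
  have p1 : 245 / 1000 ≤ u ^ 8 * (g ^ 2 * a * a) := by
    calc (245 / 1000 : ℝ) ≤ 1 ^ 2 * (495 / 1000) ^ 2 := by norm_num
      _ ≤ g ^ 2 * (u ^ 4 * a) ^ 2 := by gcongr
      _ = _ := by ring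
  have p2 : u ^ 8 * (g ^ 2 * a * a) ≤ 27 / 100 := by
    calc _ = g ^ 2 * (u ^ 4 * a) ^ 2 := by ring
      _ ≤ (101 / 100) ^ 2 * (505 / 1000) ^ 2 := by gcongr
      _ ≤ _ := by norm_num
  have hP0 : 0 ≤ g ^ 2 * a * a := by positivity
  have h8 : u ^ 8 ≤ 1 / 10 ^ 6 :=
    (pow_le_of_le_one hu0.le (by linarith) (by norm_num)).trans hu1
  have h80 : 0 < u ^ 8 := pow_pos hu0 8
  have hP : 2 ≤ g ^ 2 * a * a := by
    have := mul_le_mul_of_nonneg_right h8 hP0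
    linarith
  obtain ⟨k0, k1, k2, k3, k4, k5⟩ := fcb_core (P := g ^ 2 * a * a) (δ := δ) (L := L)
    (S1 := g ^ 2 * b * a) (S2 := g ^ 2 * b * b) hL hδ0
    (by
      have := mul_le_mul_of_nonneg_left d2 (sq_nonneg L)
      linarith) hP
    (by
      have := mul_le_mul_of_nonneg_left b1 (mul_nonneg hg0 ha0)
      linarith)
    (by
      have := mul_le_mul_of_nonneg_left b2 (mul_nonneg hg0 ha0)
      linarith)
    (by
      have := mul_le_mul_of_nonneg_left (mul_le_mul b1 b1 ha0 (ha0.trans b1)) hg0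
      linarith)
    (by
      have := mul_le_mul_of_nonneg_left
        (mul_le_mul b2 b2 (mul_nonneg hL0.le hb0) (by linarith)) hg0
      linarith)
  rw [show g ^ 2 * a * b = g ^ 2 * b * a by ring] at c2
  have hN0 : 0 < g ^ 2 * a * a - δ := by linarith
  have f0 : ff k B y 0 = 1 := by rw [ff, Nb, c0, div_self hN0.ne']
  have f1 : ff k B y ![1, 1, 0, 0] = (g ^ 2 * b * a - δ) / (g ^ 2 * a * a - δ) := by
    rw [ff, Nb, c0, c1]
  have f2 : ff k B y ![0, 0, 1, 1] = (g ^ 2 * b * a - δ) / (g ^ 2 * a * a - δ) := by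
    rw [ff, Nb, c0, c2]
  have f3 : ff k B y ![1, 1, 1, 1] = (g ^ 2 * b * b - δ) / (g ^ 2 * a * a - δ) := by
    rw [ff, Nb, c0, c3]
  have f4 : ∀ A ∈ Ev, IsCross A → u ^ 12 / 2 ≤ ff k B y A ∧ ff k B y A ≤ 4 * u ^ 12 := by
    intro A hA hc
    rw [ff, Nb, c0, c4 A hA hc, le_div_iff₀ hN0, div_le_iff₀ hN0]
    have e1 := mul_le_mul_of_nonneg_left p1 hx0.le
    have e2 := mul_le_mul_of_nonneg_left p2 hx0.le
    have e3 : 0 ≤ u ^ 12 * δ := by positivity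
    have e4 : u ^ 12 * δ ≤ u ^ 12 * (g ^ 2 * a * a - δ) :=
      mul_le_mul_of_nonneg_left (by linarith) (by positivity)
    constructor <;> linarith
  have h12 : u ^ 12 / 2 ≤ 1 / (300 * L ^ 2) := by
    rw [div_le_div_iff₀ (by norm_num) (by positivity)]
    have e1 : u ^ 11 ≤ 1 / 10 ^ 6 :=
      (pow_le_of_le_one hu0.le (by linarith) (by norm_num)).trans hu1
    have e2 := mul_le_mul hLu e1 (pow_pos hu0 11).le zero_le_one
    linarith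
  have h12' : 1 / (300 * L ^ 2) ≤ 1 / (100 * L) := by
    refine one_div_le_one_div_of_le (by positivity) ?_
    have : L ≤ L ^ 2 := by rw [pow_two]; exact le_mul_of_one_le_left hL0.le hL
    linarith
  have h12'' : 1 / (100 * L) ≤ 1 := by
    rw [div_le_one (by positivity)]
    linarith
  have bd : ∀ s t : ℝ, 0 ≤ s → s ≤ a → 0 ≤ t → t ≤ a →
      0 ≤ g ^ 2 * s * t - 0 ∧ g ^ 2 * s * t - 0 ≤ g ^ 2 * a * a := fun s t s0 s1 t0 t1 => by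
    rw [sub_zero]
    exact ⟨by positivity, by gcongr⟩
  refine ⟨⟨f0, ?_, ?_, ?_, ?_⟩, ?_, ?_, fun A hA => ?_⟩
  · rw [nl, nh, f1]
    exact k1
  · rw [nl, nh, f2]
    exact k1
  · rw [nh, f3]
    exact ⟨lt_of_lt_of_le (by positivity) k2.1, k2.2⟩
  · rw [xl, xh]
    exact f4
  · rw [Nb, c0]
    exact k0
  · rw [Nb, c0, le_div_iff₀ h80]
    have : 0 ≤ u ^ 8 * δ := by positivity
    linarith
  · rcases Ev_cases hA with rfl | rfl | rfl | rfl | hc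
    · refine ⟨by rw [f0]; linarith, fun r hr => ?_⟩
      obtain ⟨s0, s1, s2⟩ := hab (r 0) (r 1)
      obtain ⟨t0, t1, t2⟩ := hab (r 2) (r 3)
      rw [(cr r).1, hd r hr, c0]
      exact (bd _ _ (s0.trans s1) s2 (t0.trans t1) t2).imp id fun h => h.trans k3
    · refine ⟨by rw [f1]; linarith [k1.1], fun r hr => ?_⟩
      obtain ⟨s0, s1, s2⟩ := hab (r 0) (r 1)
      obtain ⟨t0, t1, t2⟩ := hab (r 2) (r 3)
      rw [(cr r).2.1, hd r hr, c1]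
      exact (bd _ _ s0 (s1.trans s2) (t0.trans t1) t2).imp id fun h => h.trans k4
    · refine ⟨by rw [f2]; linarith [k1.1], fun r hr => ?_⟩
      obtain ⟨s0, s1, s2⟩ := hab (r 0) (r 1)
      obtain ⟨t0, t1, t2⟩ := hab (r 2) (r 3)
      rw [(cr r).2.2.1, hd r hr, c2]
      exact (bd _ _ (s0.trans s1) s2 t0 (t1.trans t2)).imp id fun h => h.trans k4
    · refine ⟨by rw [f3]; linarith [k2.1], fun r hr => ?_⟩
      obtain ⟨s0, s1, s2⟩ := hab (r 0) (r 1)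
      obtain ⟨t0, t1, t2⟩ := hab (r 2) (r 3)
      rw [(cr r).2.2.2.1, hd r hr, c3]
      exact (bd _ _ s0 (s1.trans s2) t0 (t1.trans t2)).imp id fun h => h.trans k5
    · refine ⟨(f4 A hA hc).1, fun r hr => ?_⟩
      rw [(cr r).2.2.2.2 A hA hc, hd r hr, c4 A hA hc]
      exact ⟨le_rfl, by positivity⟩

end Pool.Agent.MP_646035_al.PC

namespace Pool.Agent.MP_646035_al.PC

open Finset PT

variable {n k : ℕ} {Q : Type} [AddCommGroup Q] [DecidableEq Q] {e : Fin 2 → Q}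

lemma numg_u {u : ℝ} (hu : Good k u) : u ≤ 1 / 10 ^ 100 :=
  hu.u_le.trans (one_div_le_one_div_of_le (by positivity)
    (pow_le_pow_right₀ (by norm_num) (by norm_num)))

lemma numg_pow {u : ℝ} (hu : Good k u) {m : ℕ} (hm : m ≠ 0) : u ^ m ≤ 1 / 10 ^ 100 :=
  (pow_le_of_le_one hu.pos.le ((numg_u hu).trans (by norm_num)) hm).trans (numg_u hu)

theorem exists_nums {u : ℝ} (hu : Good k u) :
    ∃ m1 m2 : ℕ, (numsOf k u m1 m2).Ok ∧ 1 / u ^ 6 ≤ 2 ^ m1 := by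
  have h0 := hu.pos
  have hl := hu.big
  have u6 : 0 < u ^ 6 := by positivity
  obtain ⟨a, a1, a2⟩ := exists_nat_pow_near (x := 1 / u ^ 6) (y := (2 : ℝ))
    (by rw [le_div_iff₀ u6]; linarith [numg_pow hu (m := 6) (by norm_num)]) (by norm_num)
  obtain ⟨b, b1, b2⟩ := exists_nat_pow_near (x := 300 * (k * u ^ 4)) (y := (4 : ℝ))
    (by linarith) (by norm_num)
  have l1 := hu.lam_pow (m := 1) (by norm_num)
  have l14 := hu.lam_pow (m := 14) (by norm_num)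
  have l18 := hu.lam_pow (m := 18) (by norm_num)
  refine ⟨a + 1, b + 1, ?_, a2.le⟩
  have A1 : (2 : ℝ) ^ (a + 1) * u ^ 6 ≤ 2 := by
    rw [le_div_iff₀ u6] at a1
    rw [pow_succ]; linarith
  have A2 : 1 ≤ (2 : ℝ) ^ (a + 1) * u ^ 6 := by rw [div_lt_iff₀ u6] at a2; exact a2.le
  have e4 : ∀ m : ℕ, (4 : ℝ) ^ m = (2 ^ m) ^ 2 := fun m => by
    rw [← pow_mul, mul_comm, pow_mul]; norm_num
  have B1 : ((2 : ℝ) ^ (b + 1)) ^ 2 ≤ 1200 * (k * u ^ 4) := by rw [← e4, pow_succ]; linarith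
  have B2 : (2 : ℝ) ^ (28 * (b + 1)) ≤ 1200 ^ 14 * (k * u ^ 4) ^ 14 := by
    rw [← mul_pow, show 28 * (b + 1) = (b + 1) * 2 * 14 by ring, pow_mul, pow_mul]
    exact pow_le_pow_left₀ (by positivity) B1 14
  have p1 : (0 : ℝ) < 2 ^ (a + 1) := by positivity
  have p2 : (0 : ℝ) < 2 ^ (b + 1) := by positivity
  have p3 : (0 : ℝ) < 2 ^ (28 * (b + 1)) := by positivity
  have hu1 := numg_u hu
  have hu3 := numg_pow hu (m := 3) (by norm_num)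
  have hu5 := numg_pow hu (m := 5) (by norm_num)
  generalize hL : (k : ℝ) * u ^ 4 = L at *
  have L0 : 0 < L := by linarith
  refine ⟨?_, ?_, ?_, ?_, ?_, ?_, ?_, ?_, ?_, ?_, ?_, ?_⟩ <;> simp only [numsOf, hL]
  · positivity
  · positivity
  · positivity
  · positivity
  · positivity
  · omega
  · generalize (2 : ℝ) ^ (b + 1) = P at *
    rw [div_mul_eq_mul_div, div_le_div_iff₀ L0 (by norm_num)]
    refine abs_le_of_sq_le_sq' ?_ (by linarith) |>.2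
    nlinarith
  · rw [le_div_iff₀ L0]
    calc _ = 4 * (2 ^ (a + 1) * u ^ 6) * (L ^ 1 * u) * u ^ 5 := by ring
      _ ≤ 4 * 2 * 1 * (1 / 10 ^ 100) := by gcongr
      _ ≤ 2 := by norm_num
  · calc _ ≤ 3 * 10 ^ 9 * u ^ 8 * L ^ 4 * 2 ^ (a + 1) * (1200 ^ 14 * L ^ 14) := by gcongr
      _ = 3 * 10 ^ 9 * 1200 ^ 14 * (2 ^ (a + 1) * u ^ 6) * (L ^ 18 * u) * u := by ring
      _ ≤ 3 * 10 ^ 9 * 1200 ^ 14 * 2 * 1 * (1 / 10 ^ 100) := by gcongr
      _ ≤ _ := by norm_num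
  · calc _ ≤ u ^ 16 * 4 ^ (a + 1) * (1200 ^ 14 * L ^ 14) := by gcongr
      _ = 1200 ^ 14 * (2 ^ (a + 1) * u ^ 6) ^ 2 * (L ^ 14 * u) * u ^ 3 := by rw [e4]; ring
      _ ≤ 1200 ^ 14 * 2 ^ 2 * 1 * (1 / 10 ^ 100) := by gcongr
      _ ≤ _ := by norm_num
  · rw [one_div, inv_mul_eq_div, le_div_iff₀ (by positivity)]
    linarith
  · calc _ ≤ 12 * (1 / (100 * 10 ^ 15) : ℝ) := by gcongr
      _ ≤ 1 ^ 2 / 2 := by norm_num
      _ ≤ (2 ^ (a + 1) * u ^ 6) ^ 2 / 2 := by gcongr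
      _ = _ := by rw [e4]; ring

theorem exists_big {u : ℝ} (hu : Good k u) :
    ∃ n : ℕ, 25 ≤ n ∧ k + 4 ≤ n ∧ Big k u (NN n) := by
  have h0 := hu.pos
  obtain ⟨m, hm⟩ := pow_unbounded_of_one_lt (2 * (2 ^ (2 * k + 4) / u ^ 12) ^ 6 / u ^ 16)
    (by norm_num : (1 : ℝ) < 2)
  refine ⟨30 * m + k + 300, by omega, by omega, by unfold NN; omega, ?_⟩
  rw [div_lt_iff₀ (by positivity), mul_comm (2 ^ m)] at hm
  refine hm.le.trans (mul_le_mul_of_nonneg_left (pow_le_pow_right₀ (by norm_num) ?_)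
    (by positivity))
  unfold NN
  omega

theorem numStar {u : ℝ} (hu : Good k u) {B : ℕ} (hB : 2 ≤ B) {m1 : ℕ}
    (hm : 1 / u ^ 6 ≤ 2 ^ m1) :
    (u ^ 4) ^ 2 * (4 * Nb k B (u ^ 4) * Real.exp (1 / 2 ^ m1)) ≤ 1 - u ^ 5 / 4 := by
  have h0 := hu.pos
  have hu1 := numg_u hu
  have x0 : 0 ≤ u ^ 4 := by positivity
  have x1 : u ^ 4 ≤ 1 / 100 := (numg_pow hu (by norm_num)).trans (by norm_num)
  have s0 : 0 < u ^ 6 := by positivity
  have s1 : u ^ 6 ≤ 1 / 100 := (numg_pow hu (by norm_num)).trans (by norm_num)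
  have g1 := one_le_gam B x0
  have g2 := one_le_gam 2 x0
  have a2 := one_le_AA 2 x0 k
  have aB := one_le_AA B x0 k
  have h1 : 4 * Nb k B (u ^ 4) ≤ (gam B (u ^ 4) * AA B (u ^ 4) k) ^ 2 := by
    have hd : 0 ≤ dlt B (u ^ 4) 0 := by
      rw [dlt, if_pos rfl]
      have : 0 ≤ 1 - (u ^ 4) ^ 2 := by nlinarith
      have : 0 ≤ gam B (u ^ 4) - 1 := by linarith
      positivity
    rw [Nb, (fc_eq k B (u ^ 4) 0).1]
    simp only [hA, Pi.zero_apply, Nat.cast_zero, sub_zero, add_zero, AA]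
    linarith
  have h2 : gam B (u ^ 4) ≤ gam 2 (u ^ 4) * (1 + u ^ 6) := by
    have := gam_tail hB x0 x1
    have e : (u ^ 4) ^ 3 = u ^ 6 * u ^ 6 := by ring
    nlinarith
  have h3 : AA B (u ^ 4) k ≤ AA 2 (u ^ 4) k * (1 + u ^ 6) := by
    have t0 := WW_tail hB x0 x1 k 0
    have t1 := WW_tail hB x0 x1 k 1
    have w1 := WW_nonneg B x0 k 1
    have w0 := WW_nonneg B x0 k 0
    have l1 := hu.lam_pow (m := 1) (by norm_num)
    have e : 3 * k * (u ^ 4) ^ 3 ≤ u ^ 6 / 4 := by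
      calc _ = 3 * ((k * u ^ 4) ^ 1 * u) * u * u ^ 6 := by ring
        _ ≤ 3 * 1 * (1 / 10 ^ 100) * u ^ 6 := by gcongr
        _ ≤ _ := by linarith
    have h4 : AA B (u ^ 4) k ≤ AA 2 (u ^ 4) k + u ^ 6 / 2 * AA B (u ^ 4) k := by
      have := mul_le_mul_of_nonneg_right e w0
      unfold AA
      nlinarith
    generalize AA B (u ^ 4) k = P at *
    generalize AA 2 (u ^ 4) k = R at *
    generalize u ^ 6 = s at *
    have h5 : P ≤ 2 * R := by nlinarith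
    nlinarith
  have h4 : Real.exp (1 / 2 ^ m1) ≤ 1 + 2 * u ^ 6 := by
    have e : (1 : ℝ) / 2 ^ m1 ≤ u ^ 6 := by
      rw [div_le_iff₀ s0] at hm
      rw [div_le_iff₀ (by positivity)]
      linarith
    refine (Real.exp_le_exp.2 e).trans ?_
    have := Real.abs_exp_sub_one_le (x := u ^ 6) (by rw [abs_of_pos s0]; linarith)
    rw [abs_of_pos s0] at this
    linarith [le_abs_self (Real.exp (u ^ 6) - 1)]
  have h5 : ((1 + u ^ 6) ^ 2) ^ 2 * (1 + 2 * u ^ 6) ≤ (1 - u ^ 5 / 4) * (1 + u ^ 5) := by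
    have e1 : (1 + u ^ 6) ^ 2 ≤ 1 + 3 * u ^ 6 := by nlinarith
    have e2 : (1 + 3 * u ^ 6) ^ 2 * (1 + 2 * u ^ 6) ≤ 1 + 10 * u ^ 6 := by
      generalize u ^ 6 = s at *
      nlinarith [mul_pos s0 s0]
    have e3 : u ^ 6 ≤ u ^ 5 / 100 := by
      have : u ^ 6 = u * u ^ 5 := by ring
      have : 0 < u ^ 5 := by positivity
      nlinarith
    have e4 : u ^ 5 ≤ 1 / 100 := (numg_pow hu (by norm_num)).trans (by norm_num)
    have e5 : 0 < u ^ 5 := by positivity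
    calc _ ≤ (1 + 3 * u ^ 6) ^ 2 * (1 + 2 * u ^ 6) := by gcongr
      _ ≤ _ := by nlinarith
  have h6 := hu.eq
  refine le_of_mul_le_mul_right ?_ (by positivity : 0 < 1 + u ^ 5)
  calc _ ≤ (u ^ 4) ^ 2 * ((gam 2 (u ^ 4) * (1 + u ^ 6) * (AA 2 (u ^ 4) k * (1 + u ^ 6))) ^ 2 *
        (1 + 2 * u ^ 6)) * (1 + u ^ 5) := by
        gcongr
        exact h1.trans (by gcongr)
    _ = (u ^ 4 * gam 2 (u ^ 4) * AA 2 (u ^ 4) k) ^ 2 * (1 + u ^ 5) *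
        (((1 + u ^ 6) ^ 2) ^ 2 * (1 + 2 * u ^ 6)) := by ring
    _ ≤ _ := by rw [h6, one_mul]; exact h5

theorem numOut {u y : ℝ} (hu : Good k u) (h0 : 0 < y) (h1 : y ≤ 12 / 10 * u ^ 4) :
    y ^ 2 * ((1 + y) / (1 - y)) ^ (k + 2) ≤ 1 := by
  have u0 := hu.pos
  have x0 : 0 < u ^ 4 := by positivity
  have x1 : u ^ 4 ≤ 1 / 100 := (numg_pow hu (by norm_num)).trans (by norm_num)
  have y1 : 0 < 1 - y := by linarith
  have g1 := gam_ge (B := 2) (by norm_num) x0.le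
  have g2 := gam_le' 2 x0.le x1
  have g3 := hu.gam_pow
  have hl := hu.big
  have l3 := hu.lam_pow (m := 3) (by norm_num)
  have u3 := numg_pow hu (m := 3) (by norm_num)
  have r0 : 0 ≤ (1 + y) / (1 - y) := by positivity
  have r1 : (1 + y) / (1 - y) ≤ 1 + 5 / 2 * u ^ 4 := by
    rw [div_le_iff₀ y1]; nlinarith
  have r2 : ((1 + y) / (1 - y)) ^ 2 ≤ gam 2 (u ^ 4) ^ 3 :=
    calc _ ≤ (1 + 5 / 2 * u ^ 4) ^ 2 := by gcongr
      _ ≤ (1 + 2 * u ^ 4) ^ 3 := by linarith [mul_pos x0 x0, mul_pos (mul_pos x0 x0) x0]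
      _ ≤ _ := by gcongr
  have g4 : gam 2 (u ^ 4) ≤ 11 / 10 := by nlinarith
  have g5 : 0 < gam 2 (u ^ 4) := by linarith
  have g6 : u ^ 4 * gam 2 (u ^ 4) ^ k ≤ 48 * (k * u ^ 4) := by linarith
  generalize (1 + y) / (1 - y) = r at *
  refine (pow_le_one_iff_of_nonneg (by positivity) two_ne_zero).1 ?_
  calc _ = y ^ 4 * (r ^ 2) ^ (k + 2) := by ring
    _ ≤ (12 / 10 * u ^ 4) ^ 4 * (gam 2 (u ^ 4) ^ 3) ^ (k + 2) := by gcongr
    _ = (12 / 10) ^ 4 * u ^ 4 * (u ^ 4 * gam 2 (u ^ 4) ^ k) ^ 3 * gam 2 (u ^ 4) ^ 6 := by ring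
    _ ≤ (12 / 10) ^ 4 * u ^ 4 * (48 * (k * u ^ 4)) ^ 3 * (11 / 10) ^ 6 := by gcongr
    _ = (12 / 10) ^ 4 * 48 ^ 3 * (11 / 10) ^ 6 * ((k * u ^ 4) ^ 3 * u) * u ^ 3 := by ring
    _ ≤ (12 / 10) ^ 4 * 48 ^ 3 * (11 / 10) ^ 6 * 1 * (1 / 10 ^ 100) := by gcongr
    _ ≤ 1 := by norm_num

theorem numBlk {u : ℝ} (hu : Good k u) :
    1 < 11 / 10 * u ^ 4 * AA 2 (11 / 10 * u ^ 4) k := by
  have u0 := hu.pos
  have x0 : 0 < u ^ 4 := by positivity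
  have h := hu.xA.1
  have h1 : AA 2 (u ^ 4) k ≤ AA 2 (11 / 10 * u ^ 4) k :=
    add_le_add (WW_mono_x 2 x0.le (by linarith) k 0) (WW_mono_x 2 x0.le (by linarith) k 1)
  nlinarith

theorem rng_self {u : ℝ} (hu : Good k u) : Rng k u (u ^ 4) :=
  ⟨le_rfl, by linarith [pow_pos hu.pos 4], hu.xA.2⟩

end Pool.Agent.MP_646035_al.PC
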