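import Pool.Agent.MP_646035_al.PC.Gc
import Pool.Agent.MP_646035_al.PC.Fc

namespace Pool.Agent.MP_646035_al.PC

open Finset PT

variable {n k : ℕ} {Q : Type} [AddCommGroup Q] [DecidableEq Q] {e : Fin 2 → Q}

lemma s1_nonempty (α : At1 Q) : (s1 e α).Nonempty := by
  rcases α with a | y
  · exact insert_nonempty _ _
  · exact insert_nonempty _ _

lemma pgeom_lay (X : Finset (At1 Q)) :
    (0 : Fin 3) ∈ (if X.toRight = ∅ then {0, 1} else univ : Finset (Fin 3)) ∧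
      (1 : Fin 3) ∈ (if X.toRight = ∅ then {0, 1} else univ : Finset (Fin 3)) := by
  split_ifs <;> simp

lemma pgeom_blob {X : Finset (At1 Q)} {q : Q} (h : q ∈ SS (s1 e) X) :
    (q, (0 : Fin 3)) ∈ asp e (.inl X) ∧ (q, (1 : Fin 3)) ∈ asp e (.inl X) :=
  ⟨mem_product.2 ⟨h, (pgeom_lay X).1⟩, mem_product.2 ⟨h, (pgeom_lay X).2⟩⟩

lemma pgeom_ghost {X : Finset (At1 Q)} {q : Q} (h : q ∈ SS (s1 e) X) :
    (q, (1 : Fin 3)) ∈ asp e (.inr (.inl X)) :=
  mem_product.2 ⟨h, mem_insert_self _ _⟩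

lemma pgeom_bond {a : Ed Q} {q : Q} (h : q ∈ ({a.1, a.1 + e a.2} : Finset Q)) :
    (q, (0 : Fin 3)) ∈ asp e (.inr (.inr a)) := by
  rcases mem_insert.1 h with rfl | h
  · exact mem_insert_self _ _
  · rw [mem_singleton.1 h]
    exact mem_insert_of_mem (mem_singleton_self _)

lemma pgeom_ne {X : Finset (At1 Q)} (h : Conn (s1 e) X) : (SS (s1 e) X).Nonempty := by
  obtain ⟨a, ha⟩ := h.1
  obtain ⟨q, hq⟩ := s1_nonempty (e := e) a
  exact ⟨q, mem_SS.2 ⟨a, ha, hq⟩⟩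

lemma asp_nonempty {α : Atm Q} (h : VAtm e α) : (asp e α).Nonempty := by
  rcases α with X | X | b
  · obtain ⟨q, hq⟩ := pgeom_ne (X := X) h
    exact ⟨_, (pgeom_blob hq).1⟩
  · obtain ⟨q, hq⟩ := pgeom_ne (X := X) h
    exact ⟨_, pgeom_ghost hq⟩
  · exact insert_nonempty _ _

lemma vatm_of_mem {V : Finset Q} {α : Atm Q} (h : α ∈ atms e V) : VAtm e α := by
  rcases α with X | X | b
  · exact (mem_conns.1 (inl_mem_disjSum.1 h)).2
  · exact (mem_conns.1 (inl_mem_disjSum.1 (inr_mem_disjSum.1 h))).2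
  · trivial

lemma Vld.nonempty {C : Finset (Atm Q)} (h : Vld e C) : (SS (asp e) C).Nonempty := by
  obtain ⟨α, hα⟩ := h.1.1
  obtain ⟨q, hq⟩ := asp_nonempty (h.2 α hα)
  exact ⟨q, mem_SS.2 ⟨α, hα, hq⟩⟩

lemma pgeom_mem_nds {C : Finset (Atm Q)} {p : Q} :
    p ∈ nds e C ↔ ∃ α ∈ C, ∃ t, (p, t) ∈ asp e α := by
  constructor
  · intro h
    obtain ⟨q, hq, rfl⟩ := mem_image.1 h
    obtain ⟨α, hα, hq⟩ := mem_SS.1 hq
    exact ⟨α, hα, q.2, hq⟩
  · rintro ⟨α, hα, t, ht⟩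
    exact mem_image.2 ⟨(p, t), mem_SS.2 ⟨α, hα, ht⟩, rfl⟩

lemma pgeom_s1_sub {V : Finset Q} {X : Finset (At1 Q)} (h : X ⊆ at1 V) :
    SS (s1 e) X ⊆ SS (str e) V := by
  intro q hq
  obtain ⟨α, hα, hq⟩ := mem_SS.1 hq
  rcases α with ⟨p, j⟩ | y
  · refine mem_SS.2 ⟨p, (mem_product.1 (inl_mem_disjSum.1 (h hα))).1, mem_str.2 ?_⟩
    rcases mem_insert.1 hq with rfl | hq
    · exact Or.inl rfl
    · rw [mem_singleton.1 hq]
      fin_cases j
      · exact Or.inr (Or.inl rfl)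
      · exact Or.inr (Or.inr (Or.inl rfl))
  · exact mem_SS.2 ⟨y, inr_mem_disjSum.1 (h hα), hq⟩

lemma pgeom_at1 {A : Finset Q} {X : Finset (At1 Q)} (h : SS (s1 e) X ⊆ A) : X ⊆ at1 A := by
  intro α hα
  rcases α with a | y
  · exact inl_mem_disjSum.2 (mem_product.2
      ⟨h (mem_SS.2 ⟨_, hα, mem_insert_self _ _⟩), mem_univ _⟩)
  · exact inr_mem_disjSum.2 (h (mem_SS.2 ⟨_, hα, mem_insert_self _ _⟩))

lemma vld_of_mem_conns {V : Finset Q} {C : Finset (Atm Q)} (h : C ∈ conns (asp e) (atms e V)) :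
    Vld e C ∧ nds e C ⊆ SS (str e) V := by
  obtain ⟨h1, h2⟩ := mem_conns.1 h
  refine ⟨⟨h2, fun α hα => vatm_of_mem (h1 hα)⟩, fun p hp => ?_⟩
  obtain ⟨α, hα, t, ht⟩ := pgeom_mem_nds.1 hp
  have hm := h1 hα
  unfold atms at hm
  rcases α with X | X | b
  · exact pgeom_s1_sub (mem_conns.1 (inl_mem_disjSum.1 hm)).1 (mem_product.1 ht).1
  · exact pgeom_s1_sub (mem_conns.1 (inl_mem_disjSum.1 (inr_mem_disjSum.1 hm))).1
      (mem_product.1 ht).1
  · have hb := mem_filter.1 (inr_mem_disjSum.1 (inr_mem_disjSum.1 hm))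
    rcases mem_insert.1 ht with h | h
    · exact (Prod.mk.inj h).1 ▸ (mem_product.1 hb.1).1
    · exact (Prod.mk.inj (mem_singleton.1 h)).1 ▸ hb.2

theorem mem_pls {A : Finset Q} {C : Finset (Atm Q)} :
    C ∈ pls e A ↔ Vld e C ∧ nds e C ⊆ A := by
  unfold pls above
  rw [mem_filter, mem_conns]
  constructor
  · rintro ⟨⟨h1, h2⟩, h3⟩
    exact ⟨⟨h2, fun α hα => vatm_of_mem (h1 hα)⟩, image_subset_iff.2 h3⟩
  · rintro ⟨⟨h1, h2⟩, h3⟩
    refine ⟨⟨fun α hα => ?_, h1⟩, image_subset_iff.1 h3⟩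
    have hv := h2 α hα
    unfold atms
    rcases α with X | X | b
    · exact inl_mem_disjSum.2 (mem_conns.2 ⟨pgeom_at1 fun q hq =>
        h3 (pgeom_mem_nds.2 ⟨_, hα, _, (pgeom_blob hq).1⟩), hv⟩)
    · exact inr_mem_disjSum.2 (inl_mem_disjSum.2 (mem_conns.2 ⟨pgeom_at1 fun q hq =>
        h3 (pgeom_mem_nds.2 ⟨_, hα, _, pgeom_ghost hq⟩), hv⟩))
    · exact inr_mem_disjSum.2 (inr_mem_disjSum.2 (mem_filter.2 ⟨mem_product.2
        ⟨subset_str A (h3 (pgeom_mem_nds.2 ⟨_, hα, _, pgeom_bond (mem_insert_self _ _)⟩)),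
          mem_univ _⟩, subset_str A (h3 (pgeom_mem_nds.2
            ⟨_, hα, _, pgeom_bond (mem_insert_of_mem (mem_singleton_self _))⟩))⟩))

lemma pgeom_slot {D : Finset (Ed Q)} {q : Q} (h : q ∉ ends e D) (i : Fin 4) : slot e q i ∉ D :=
  fun c => h (mem_biUnion.2 ⟨_, c, by
    rcases slot_end (e := e) q i with a | a <;> rw [a] <;> simp⟩)

lemma pat_eq_zero {D : Finset (Ed Q)} {q : Q} (h : q ∉ ends e D) : pat e D q = 0 :=
  funext fun i => if_neg (pgeom_slot h i)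

lemma pat_union {D₁ D₂ : Finset (Ed Q)} {q : Q} (h : q ∉ ends e D₂) :
    pat e (D₁ ∪ D₂) q = pat e D₁ q :=
  funext fun i => if_congr (by rw [mem_union, or_iff_left (pgeom_slot h i)]) rfl rfl

lemma wgt_empty (ν : Nums) (f : Pat → ℝ) (ψ : Finset (At1 Q) → (Q → Pat) → ℝ) :
    wgt ν e f ψ ∅ = 1 := by
  have h1 : (∅ : Finset (Atm Q)).toLeft = ∅ := by ext; simp
  have h2 : (∅ : Finset (Atm Q)).toRight.toLeft = ∅ := by ext; simp
  have h3 : (∅ : Finset (Atm Q)).toRight.toRight = ∅ := by ext; simp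
  have h4 : Balc e (∅ : Finset (Ed Q)) := fun q => by
    rw [pat_eq_zero (by simp [ends])]
    exact zero_mem_Ev
  unfold wgt
  rw [h1, h2, h3]
  simp [Compat, h4, ends]

lemma pgeom_bal {D₁ D₂ : Finset (Ed Q)} (h : Disjoint (ends e D₁) (ends e D₂)) :
    Balc e (D₁ ∪ D₂) ↔ Balc e D₁ ∧ Balc e D₂ := by
  unfold Balc
  rw [← forall_and]
  refine forall_congr' fun q => ?_
  by_cases c : q ∈ ends e D₂
  · rw [union_comm, pat_union (disjoint_right.1 h c), pat_eq_zero (disjoint_right.1 h c),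
      and_iff_right zero_mem_Ev]
  · rw [pat_union c, pat_eq_zero c, and_iff_left zero_mem_Ev]

theorem wgt_mul {ν : Nums} {f : Pat → ℝ} {ψ : Finset (At1 Q) → (Q → Pat) → ℝ}
    (hloc : ∀ 𝒳 A A', (∀ q ∈ SS (s1 e) 𝒳, A q = A' q) → ψ 𝒳 A = ψ 𝒳 A')
    {C₁ C₂ : Finset (Atm Q)} (h₁ : ∀ α ∈ C₁, VAtm e α) (h₂ : ∀ α ∈ C₂, VAtm e α)
    (hd : Disjoint (SS (asp e) C₁) (SS (asp e) C₂)) :
    wgt ν e f ψ (C₁ ∪ C₂) = wgt ν e f ψ C₁ * wgt ν e f ψ C₂ := by
  classical
  have hC : Disjoint C₁ C₂ := disjoint_left.2 fun α h1 h2 =>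
    (asp_nonempty (h₁ α h1)).ne_empty (disjoint_self.1 (conn_disj_iff.1 hd α h1 α h2))
  rw [conn_disj_iff] at hd
  have dL : Disjoint C₁.toLeft C₂.toLeft := disjoint_left.2 fun X h1 h2 =>
    disjoint_left.1 hC (mem_toLeft.1 h1) (mem_toLeft.1 h2)
  have dG : Disjoint C₁.toRight.toLeft C₂.toRight.toLeft := disjoint_left.2 fun X h1 h2 =>
    disjoint_left.1 hC (mem_toRight.1 (mem_toLeft.1 h1)) (mem_toRight.1 (mem_toLeft.1 h2))
  have LL : ∀ X ∈ C₁.toLeft, ∀ X' ∈ C₂.toLeft, Disjoint (SS (s1 e) X) (SS (s1 e) X') :=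
    fun X h1 X' h2 => disjoint_left.2 fun q a b => disjoint_left.1
      (hd _ (mem_toLeft.1 h1) _ (mem_toLeft.1 h2)) (pgeom_blob a).2 (pgeom_blob b).2
  have LG : ∀ X ∈ C₁.toLeft, ∀ X' ∈ C₂.toRight.toLeft, Disjoint (SS (s1 e) X) (SS (s1 e) X') :=
    fun X h1 X' h2 => disjoint_left.2 fun q a b => disjoint_left.1
      (hd _ (mem_toLeft.1 h1) _ (mem_toRight.1 (mem_toLeft.1 h2))) (pgeom_blob a).2 (pgeom_ghost b)
  have hGL : ∀ X ∈ C₂.toLeft, ∀ X' ∈ C₁.toRight.toLeft, Disjoint (SS (s1 e) X) (SS (s1 e) X') :=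
    fun X h1 X' h2 => disjoint_left.2 fun q a b => disjoint_left.1
      (hd _ (mem_toRight.1 (mem_toLeft.1 h2)) _ (mem_toLeft.1 h1)) (pgeom_ghost b) (pgeom_blob a).2
  have GG : ∀ X ∈ C₁.toRight.toLeft, ∀ X' ∈ C₂.toRight.toLeft,
      Disjoint (SS (s1 e) X) (SS (s1 e) X') :=
    fun X h1 X' h2 => disjoint_left.2 fun q a b => disjoint_left.1
      (hd _ (mem_toRight.1 (mem_toLeft.1 h1)) _ (mem_toRight.1 (mem_toLeft.1 h2)))
      (pgeom_ghost a) (pgeom_ghost b)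
  have LB : ∀ X ∈ C₁.toLeft, ∀ q ∈ SS (s1 e) X, q ∉ ends e C₂.toRight.toRight :=
    fun X h1 q a b => by
      obtain ⟨d, h2, b⟩ := mem_biUnion.1 b
      exact disjoint_left.1 (hd _ (mem_toLeft.1 h1) _ (mem_toRight.1 (mem_toRight.1 h2)))
        (pgeom_blob a).1 (pgeom_bond b)
  have BL : ∀ X ∈ C₂.toLeft, ∀ q ∈ SS (s1 e) X, q ∉ ends e C₁.toRight.toRight :=
    fun X h1 q a b => by
      obtain ⟨d, h2, b⟩ := mem_biUnion.1 b
      exact disjoint_left.1 (hd _ (mem_toRight.1 (mem_toRight.1 h2)) _ (mem_toLeft.1 h1))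
        (pgeom_bond b) (pgeom_blob a).1
  have BB : Disjoint (ends e C₁.toRight.toRight) (ends e C₂.toRight.toRight) :=
    disjoint_left.2 fun q a b => by
      obtain ⟨d, h1, a⟩ := mem_biUnion.1 a
      obtain ⟨d', h2, b⟩ := mem_biUnion.1 b
      exact disjoint_left.1 (hd _ (mem_toRight.1 (mem_toRight.1 h1)) _
        (mem_toRight.1 (mem_toRight.1 h2))) (pgeom_bond a) (pgeom_bond b)
  unfold wgt
  rw [toLeft_union, toRight_union, toLeft_union, toRight_union, ite_zero_mul_ite_zero]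
  refine if_congr ?_ ?_ rfl
  · rw [repa_compat LL, repa_compat GG, pgeom_bal BB]
    simp only [forall_mem_union]
    constructor
    · rintro ⟨⟨a1, a2⟩, ⟨b1, b2⟩, ⟨c1, c2⟩, d1, d2⟩
      exact ⟨⟨a1, b1, fun X hX => (c1 X hX).1, d1⟩, a2, b2, fun X hX => (c2 X hX).2, d2⟩
    · rintro ⟨⟨a1, b1, c1, d1⟩, a2, b2, c2, d2⟩
      exact ⟨⟨a1, a2⟩, ⟨b1, b2⟩, ⟨fun X hX => ⟨c1 X hX, LG X hX⟩,
        fun X hX => ⟨hGL X hX, c2 X hX⟩⟩, d1, d2⟩
  · generalize C₁.toRight.toRight = D₁ at *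
    generalize C₂.toRight.toRight = D₂ at *
    have e0 : ends e (D₁ ∪ D₂) = ends e D₁ ∪ ends e D₂ := union_biUnion
    have e1 : ∏ X ∈ C₁.toLeft, (ψ X (pat e (D₁ ∪ D₂)) + Th ν X) =
        ∏ X ∈ C₁.toLeft, (ψ X (pat e D₁) + Th ν X) := prod_congr rfl fun X hX => by
      rw [hloc X _ _ fun q hq => pat_union (LB X hX q hq)]
    have e2 : ∏ X ∈ C₂.toLeft, (ψ X (pat e (D₁ ∪ D₂)) + Th ν X) =
        ∏ X ∈ C₂.toLeft, (ψ X (pat e D₂) + Th ν X) := prod_congr rfl fun X hX => by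
      rw [union_comm, hloc X _ _ fun q hq => pat_union (BL X hX q hq)]
    have e3 : ∏ q ∈ ends e D₁, f (pat e (D₁ ∪ D₂) q) = ∏ q ∈ ends e D₁, f (pat e D₁ q) :=
      prod_congr rfl fun q hq => by rw [pat_union (disjoint_left.1 BB hq)]
    have e4 : ∏ q ∈ ends e D₂, f (pat e (D₁ ∪ D₂) q) = ∏ q ∈ ends e D₂, f (pat e D₂ q) :=
      prod_congr rfl fun q hq => by rw [union_comm, pat_union (disjoint_right.1 BB hq)]
    rw [prod_union dL, prod_union dG, e0, prod_union BB, e1, e2, e3, e4]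
    ring

end Pool.Agent.MP_646035_al.PC

namespace Pool.Agent.MP_646035_al.PC

open Finset PT

variable {n k : ℕ} {Q : Type} [AddCommGroup Q] [DecidableEq Q] {e : Fin 2 → Q}

section

variable {Q' : Type} [AddCommGroup Q'] [DecidableEq Q'] {e' : Fin 2 → Q'} {π : Q' → Q}

lemma pmap_str {S : Finset Q'} (hπ : ∀ j, ∀ p ∈ S, p + e' j ∈ S → π (p + e' j) = π p + e j)
    {y : Q'} (h : str e' y ⊆ S) : str e (π y) = (str e' y).image π := by
  have m0 : y ∈ S := h (by simp [str])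
  have m1 : y + e' 0 ∈ S := h (by simp [str])
  have m2 : y + e' 1 ∈ S := h (by simp [str])
  have m3 : y + eT e' ∈ S := h (by simp [str])
  have m4 : y - eT e' ∈ S := h (by simp [str])
  have m5 : y + e' 0 - eT e' ∈ S := h (by simp [str])
  have a1 := hπ 0 y m0 m1
  have a2 := hπ 1 y m0 m2
  have b3 : y + eT e' + e' 0 = y + e' 1 := by rw [eT]; abel
  have b4 : y - eT e' + e' 1 = y + e' 0 := by rw [eT]; abel
  have b5 : y - eT e' + e' 0 = y + e' 0 - eT e' := by abel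
  have a3 := hπ 0 _ m3 (b3 ▸ m2)
  have a4 := hπ 1 _ m4 (b4 ▸ m1)
  have a5 := hπ 0 _ m4 (b5 ▸ m5)
  rw [b3, a2] at a3
  rw [b4, a1] at a4
  rw [b5] at a5
  have c3 : π (y + eT e') = π y + eT e := by
    rw [← sub_eq_iff_eq_add.2 a3, show eT e = e 1 - e 0 from rfl]; abel
  have c4 : π (y - eT e') = π y - eT e := by
    rw [← sub_eq_iff_eq_add.2 a4, show eT e = e 1 - e 0 from rfl]; abel
  have c5 : π (y + e' 0 - eT e') = π y + e 0 - eT e := by rw [a5, c4]; abel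
  simp only [str, image_insert, image_singleton, a1, a2, c3, c4, c5]

lemma pmap_s1 {S : Finset Q'} (hπ : ∀ j, ∀ p ∈ S, p + e' j ∈ S → π (p + e' j) = π p + e j)
    {β : At1 Q'} (h : s1 e' β ⊆ S) : s1 e (map1 π β) = (s1 e' β).image π := by
  rcases β with a | y
  · change ({π a.1, π a.1 + e a.2} : Finset Q) = ({a.1, a.1 + e' a.2} : Finset Q').image π
    rw [image_insert, image_singleton, hπ _ _ (h (by simp [s1])) (h (by simp [s1]))]
  · exact pmap_str hπ h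

omit [DecidableEq Q'] [AddCommGroup Q'] in
lemma pmap_sub_SS {At : Type} [DecidableEq Q'] {supp : At → Finset Q'} {X : Finset At} {β : At}
    (h : β ∈ X) : supp β ⊆ SS supp X := fun _ hp => mem_SS.2 ⟨β, h, hp⟩

lemma pmap_SS1 {S : Finset Q'} (hπ : ∀ j, ∀ p ∈ S, p + e' j ∈ S → π (p + e' j) = π p + e j)
    {X : Finset (At1 Q')} (h : SS (s1 e') X ⊆ S) :
    SS (s1 e) (X.image (map1 π)) = (SS (s1 e') X).image π := by
  unfold SS
  rw [image_biUnion, biUnion_image]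
  exact biUnion_congr rfl fun β hβ => pmap_s1 hπ ((pmap_sub_SS hβ).trans h)

lemma pmap_conn1 {S : Finset Q'} (hπ : ∀ j, ∀ p ∈ S, p + e' j ∈ S → π (p + e' j) = π p + e j)
    {X : Finset (At1 Q')} (h : SS (s1 e') X ⊆ S) (hX : Conn (s1 e') X) :
    Conn (s1 e) (X.image (map1 π)) := by
  refine hX.image _ fun a ha b hb hd => ?_
  rw [pmap_s1 hπ ((pmap_sub_SS ha).trans h), pmap_s1 hπ ((pmap_sub_SS hb).trans h)]
  obtain ⟨q, h1, h2⟩ := not_disjoint_iff.1 hd
  exact not_disjoint_iff.2 ⟨π q, mem_image_of_mem _ h1, mem_image_of_mem _ h2⟩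

end

section

variable {A B A' B' : Type} [DecidableEq A] [DecidableEq B]

lemma pmap_toLeft (f : A' → A) (g : B' → B) (X : Finset (A' ⊕ B')) :
    (X.image (Sum.map f g)).toLeft = X.toLeft.image f := by
  ext a
  simp only [mem_toLeft, mem_image]
  constructor
  · rintro ⟨α, hα, h⟩
    rcases α with y | y
    · exact ⟨y, hα, Sum.inl.inj h⟩
    · cases h
  · rintro ⟨y, hy, rfl⟩
    exact ⟨_, hy, rfl⟩

lemma pmap_toRight (f : A' → A) (g : B' → B) (X : Finset (A' ⊕ B')) :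
    (X.image (Sum.map f g)).toRight = X.toRight.image g := by
  ext a
  simp only [mem_toRight, mem_image]
  constructor
  · rintro ⟨α, hα, h⟩
    rcases α with y | y
    · cases h
    · exact ⟨y, hα, Sum.inr.inj h⟩
  · rintro ⟨y, hy, rfl⟩
    exact ⟨_, hy, rfl⟩

lemma pmap_image_inj {f : A' → A} {S : Set A'} (hinj : Set.InjOn f S) {X Y : Finset A'}
    (hX : ∀ a ∈ X, a ∈ S) (hY : ∀ a ∈ Y, a ∈ S) (h : X.image f = Y.image f) : X = Y := by
  ext p
  constructor <;> intro hp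
  · obtain ⟨q, hq, h'⟩ := mem_image.1 (h ▸ mem_image_of_mem f hp)
    exact hinj (hY q hq) (hX p hp) h' ▸ hq
  · obtain ⟨q, hq, h'⟩ := mem_image.1 (h.symm ▸ mem_image_of_mem f hp)
    exact hinj (hX q hq) (hY p hp) h' ▸ hq

end

section

variable {Q' : Type} [AddCommGroup Q'] [DecidableEq Q'] {e' : Fin 2 → Q'} {π : Q' → Q}

omit [AddCommGroup Q] [AddCommGroup Q'] [DecidableEq Q'] in
lemma pmap_right1 (X : Finset (At1 Q')) : (X.image (map1 π)).toRight = X.toRight.image π :=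
  pmap_toRight _ _ X

omit [AddCommGroup Q] [AddCommGroup Q'] [DecidableEq Q'] in
lemma pmap_left1 (X : Finset (At1 Q')) :
    (X.image (map1 π)).toLeft = X.toLeft.image (Prod.map π id) := pmap_toLeft _ _ X

lemma pmap_mem_nds {C : Finset (Atm Q)} {α : Atm Q} (hα : α ∈ C) {p : Q} {t : Fin 3}
    (h : (p, t) ∈ asp e α) : p ∈ nds e C := mem_image.2 ⟨(p, t), mem_SS.2 ⟨α, hα, h⟩, rfl⟩

lemma pmap_blob {C : Finset (Atm Q)} {X : Finset (At1 Q)} (h : (.inl X : Atm Q) ∈ C) :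
    SS (s1 e) X ⊆ nds e C := fun _ hp =>
  pmap_mem_nds (t := 1) h (mk_mem_product hp (by split_ifs <;> simp))

lemma pmap_ghost {C : Finset (Atm Q)} {X : Finset (At1 Q)} (h : (.inr (.inl X) : Atm Q) ∈ C) :
    SS (s1 e) X ⊆ nds e C := fun _ hp => pmap_mem_nds (t := 1) h (mk_mem_product hp (by simp))

lemma pmap_bond {C : Finset (Atm Q)} {a : Ed Q} (h : (.inr (.inr a) : Atm Q) ∈ C) :
    a.1 ∈ nds e C ∧ a.1 + e a.2 ∈ nds e C :=
  ⟨pmap_mem_nds (t := 0) h (mem_insert_self _ _),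
    pmap_mem_nds (t := 0) h (mem_insert_of_mem (mem_singleton_self _))⟩

omit [AddCommGroup Q] [AddCommGroup Q'] [DecidableEq Q'] in
lemma pmap_prod (S : Finset Q') (T : Finset (Fin 3)) :
    S.image π ×ˢ T = (S ×ˢ T).image (Prod.map π id) := by
  rw [prodMap_image_product, image_id]

lemma pmap_asp {C : Finset (Atm Q')}
    (hπ : ∀ j, ∀ p ∈ nds e' C, p + e' j ∈ nds e' C → π (p + e' j) = π p + e j)
    {α : Atm Q'} (hα : α ∈ C) : asp e (mapA π α) = (asp e' α).image (Prod.map π id) := by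
  rcases α with X | X | b
  · change SS (s1 e) (X.image (map1 π)) ×ˢ
      (if (X.image (map1 π)).toRight = ∅ then {0, 1} else univ) =
      (SS (s1 e') X ×ˢ (if X.toRight = ∅ then {0, 1} else univ)).image _
    rw [pmap_SS1 hπ (pmap_blob hα), pmap_prod, pmap_right1]
    simp only [image_eq_empty]
  · change SS (s1 e) (X.image (map1 π)) ×ˢ {1, 2} = (SS (s1 e') X ×ˢ {1, 2}).image _
    rw [pmap_SS1 hπ (pmap_ghost hα), pmap_prod]
  · change ({(π b.1, 0), (π b.1 + e b.2, 0)} : Finset (Q × Fin 3)) =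
      ({(b.1, 0), (b.1 + e' b.2, 0)} : Finset (Q' × Fin 3)).image _
    rw [image_insert, image_singleton, Prod.map_apply, Prod.map_apply,
      hπ _ _ (pmap_bond hα).1 (pmap_bond hα).2]
    rfl

lemma pmap_SS {C : Finset (Atm Q')}
    (hπ : ∀ j, ∀ p ∈ nds e' C, p + e' j ∈ nds e' C → π (p + e' j) = π p + e j) :
    SS (asp e) (mapP π C) = (SS (asp e') C).image (Prod.map π id) := by
  unfold SS mapP
  rw [image_biUnion, biUnion_image]
  exact biUnion_congr rfl fun α hα => pmap_asp hπ hα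

lemma pmap_vld {C : Finset (Atm Q')} (h : Vld e' C)
    (hπ : ∀ j, ∀ p ∈ nds e' C, p + e' j ∈ nds e' C → π (p + e' j) = π p + e j) :
    Vld e (mapP π C) := by
  refine ⟨h.1.image _ fun α hα β hβ hd => ?_, fun α hα => ?_⟩
  · rw [pmap_asp hπ hα, pmap_asp hπ hβ]
    obtain ⟨q, h1, h2⟩ := not_disjoint_iff.1 hd
    exact not_disjoint_iff.2 ⟨_, mem_image_of_mem _ h1, mem_image_of_mem _ h2⟩
  · obtain ⟨β, hβ, rfl⟩ := mem_image.1 hα
    have hv := h.2 β hβ
    rcases β with X | X | b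
    · exact pmap_conn1 hπ (pmap_blob hβ) hv
    · exact pmap_conn1 hπ (pmap_ghost hβ) hv
    · trivial

/-- The first node of an atom of the first level. -/
def pmap_hd : At1 Q' → Q' := Sum.elim Prod.fst id

lemma pmap_hd_mem (β : At1 Q') : pmap_hd β ∈ s1 e' β := by
  rcases β with a | y <;> simp [pmap_hd, s1, str]

omit [AddCommGroup Q] [DecidableEq Q] [AddCommGroup Q'] [DecidableEq Q'] in
lemma pmap_inj1 {S : Set Q'} (hinj : Set.InjOn π S) :
    Set.InjOn (map1 π) {β | pmap_hd β ∈ S} := by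
  rintro (a | a) ha (b | b) hb h
  · have h' := Sum.inl.inj h
    exact congrArg Sum.inl (Prod.ext (hinj ha hb (congrArg Prod.fst h'))
      (congrArg (fun t : Ed Q => t.2) h'))
  · cases h
  · cases h
  · exact congrArg Sum.inr (hinj ha hb (Sum.inr.inj h))

omit [AddCommGroup Q] in
lemma pmap_fam_inj {S : Finset Q'} (hinj : Set.InjOn π S) {X Y : Finset (At1 Q')}
    (hX : SS (s1 e') X ⊆ S) (hY : SS (s1 e') Y ⊆ S) (h : X.image (map1 π) = Y.image (map1 π)) :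
    X = Y :=
  pmap_image_inj (pmap_inj1 hinj) (fun a ha => hX (pmap_sub_SS ha (pmap_hd_mem a)))
    (fun a ha => hY (pmap_sub_SS ha (pmap_hd_mem a))) h

lemma pmap_disj (hπ : Mor e' e π) {S : Finset Q'} (hinj : Set.InjOn π S) {X Y : Finset (At1 Q')}
    (hX : SS (s1 e') X ⊆ S) (hY : SS (s1 e') Y ⊆ S) :
    Disjoint (SS (s1 e) (X.image (map1 π))) (SS (s1 e) (Y.image (map1 π))) ↔
      Disjoint (SS (s1 e') X) (SS (s1 e') Y) := by
  rw [s1_map hπ, s1_map hπ, disjoint_left, disjoint_left]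
  constructor
  · intro h p hp hq
    exact h (mem_image_of_mem π hp) (mem_image_of_mem π hq)
  · intro h p hp hq
    obtain ⟨q, hq1, rfl⟩ := mem_image.1 hp
    obtain ⟨r, hr1, hr⟩ := mem_image.1 hq
    exact h hq1 (hinj (hY hr1) (hX hq1) hr ▸ hr1)

lemma pmap_compat (hπ : Mor e' e π) {S : Finset Q'} (hinj : Set.InjOn π S)
    {F : Finset (Finset (At1 Q'))} (hF : ∀ X ∈ F, SS (s1 e') X ⊆ S) :
    Compat (SS (s1 e)) (F.image (image (map1 π))) ↔ Compat (SS (s1 e')) F := by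
  unfold Compat
  simp only [forall_mem_image]
  refine forall₂_congr fun X hX => forall₂_congr fun Y hY => ?_
  rw [pmap_disj hπ hinj (hF X hX) (hF Y hY)]
  exact imp_congr_left (not_congr
    ⟨fun h => pmap_fam_inj hinj (hF X hX) (hF Y hY) h, fun h => h ▸ rfl⟩)

omit [AddCommGroup Q] in
lemma pmap_Th (ν : Nums) {S : Finset Q'} (hinj : Set.InjOn π S) {X : Finset (At1 Q')}
    (hX : SS (s1 e') X ⊆ S) : Th ν (X.image (map1 π)) = Th ν X := by
  have h1 : (X.toLeft.image (Prod.map π id)).card = X.toLeft.card :=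
    card_image_of_injOn fun a ha b hb h => Prod.ext
      (hinj (hX (pmap_sub_SS (mem_toLeft.1 ha) (pmap_hd_mem _)))
        (hX (pmap_sub_SS (mem_toLeft.1 hb) (pmap_hd_mem _))) (congrArg Prod.fst h))
      (congrArg (fun t : Ed Q => t.2) h)
  have h2 : (X.toRight.image π).card = X.toRight.card :=
    card_image_of_injOn fun a ha b hb h =>
      hinj (hX (pmap_sub_SS (mem_toRight.1 ha) (pmap_hd_mem _)))
        (hX (pmap_sub_SS (mem_toRight.1 hb) (pmap_hd_mem _))) h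
  unfold Th
  rw [pmap_right1, pmap_left1, h1, h2]
  simp only [image_eq_empty]

lemma pmap_mem_ends {D : Finset (Ed Q)} {a : Ed Q} (h : a ∈ D) :
    a.1 ∈ ends e D ∧ a.1 + e a.2 ∈ ends e D :=
  ⟨mem_biUnion.2 ⟨a, h, by simp⟩, mem_biUnion.2 ⟨a, h, by simp⟩⟩

lemma pmap_ends (hπ : Mor e' e π) (D : Finset (Ed Q')) :
    ends e (D.image (Prod.map π id)) = (ends e' D).image π := by
  unfold ends
  rw [image_biUnion, biUnion_image]
  refine biUnion_congr rfl fun a _ => ?_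
  rw [image_insert, image_singleton, hπ]
  rfl

omit [DecidableEq Q] in
lemma pmap_slot (q : Q) (i : Fin 4) : (slot e q i).1 = q ∨ (slot e q i).1 + e (slot e q i).2 = q := by
  fin_cases i <;> simp [slot]

end

lemma SS_mapP {Q' : Type} [AddCommGroup Q'] [DecidableEq Q'] {e' : Fin 2 → Q'} {π : Q' → Q}
    (hπ : Mor e' e π) (C : Finset (Atm Q')) :
    SS (asp e) (mapP π C) = (SS (asp e') C).image (Prod.map π id) :=
  pmap_SS fun j p _ _ => hπ p j

lemma Vld.map {Q' : Type} [AddCommGroup Q'] [DecidableEq Q'] {e' : Fin 2 → Q'} {π : Q' → Q}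
    (hπ : Mor e' e π) {C : Finset (Atm Q')} (h : Vld e' C) : Vld e (mapP π C) :=
  pmap_vld h fun j p _ _ => hπ p j

lemma Vld.map_of_local {Q' : Type} [AddCommGroup Q'] [DecidableEq Q'] {e' : Fin 2 → Q'}
    {π : Q' → Q} {C : Finset (Atm Q')} (h : Vld e' C)
    (hπ : ∀ j, ∀ p ∈ nds e' C, p + e' j ∈ nds e' C → π (p + e' j) = π p + e j) :
    Vld e (mapP π C) ∧ SS (asp e) (mapP π C) = (SS (asp e') C).image (Prod.map π id) :=
  ⟨pmap_vld h hπ, pmap_SS hπ⟩

lemma mapP_comp {Q' Q'' : Type} [DecidableEq Q'] (π : Q' → Q) (π' : Q'' → Q')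
    (C : Finset (Atm Q'')) : mapP π (mapP π' C) = mapP (π ∘ π') C := by
  have h : map1 π ∘ map1 π' = map1 (π ∘ π') := by
    funext β
    rcases β with a | y <;> rfl
  unfold mapP
  rw [image_image]
  refine image_congr fun α _ => ?_
  rcases α with X | X | b
  · exact congrArg Sum.inl (h ▸ image_image)
  · exact congrArg (fun X => Sum.inr (Sum.inl X)) (h ▸ image_image)
  · rfl

lemma mapP_id (C : Finset (Atm Q)) : mapP id C = C := by
  have h : map1 (id : Q → Q) = id := by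
    funext β
    rcases β with a | y <;> rfl
  refine (image_congr fun α _ => ?_).trans (image_id (s := C))
  rcases α with X | X | b
  · exact congrArg Sum.inl (h ▸ image_id)
  · exact congrArg (fun X => Sum.inr (Sum.inl X)) (h ▸ image_id)
  · rfl

lemma mapP_congr {Q' : Type} [AddCommGroup Q'] [DecidableEq Q'] {e' : Fin 2 → Q'}
    {π π' : Q' → Q} {C : Finset (Atm Q')} (h : ∀ p ∈ nds e' C, π p = π' p) :
    mapP π C = mapP π' C := by
  have key : ∀ X : Finset (At1 Q'), SS (s1 e') X ⊆ nds e' C →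
      X.image (map1 π) = X.image (map1 π') := fun X hX => image_congr fun β hβ => by
    have := h _ (hX (pmap_sub_SS hβ (pmap_hd_mem β)))
    rcases β with a | y
    · exact congrArg (fun p => Sum.inl (p, a.2)) this
    · exact congrArg Sum.inr this
  refine image_congr fun α hα => ?_
  have hα : α ∈ C := hα
  rcases α with X | X | b
  · exact congrArg Sum.inl (key X (pmap_blob hα))
  · exact congrArg (fun X => Sum.inr (Sum.inl X)) (key X (pmap_ghost hα))
  · exact congrArg (fun p => Sum.inr (Sum.inr (p, b.2))) (h _ (pmap_bond hα).1)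

lemma pat_map {Q' : Type} [AddCommGroup Q'] [DecidableEq Q'] {e' : Fin 2 → Q'} {π : Q' → Q}
    (hπ : Mor e' e π) {D : Finset (Ed Q')} {q : Q'}
    (hinj : Set.InjOn π (insert q (ends e' D) : Finset Q')) :
    pat e (D.image (Prod.map π id)) (π q) = pat e' D q := by
  funext i
  unfold pat
  rw [slot_map hπ]
  refine if_congr ⟨fun h => ?_, mem_image_of_mem _⟩ rfl rfl
  obtain ⟨a, ha, h⟩ := mem_image.1 h
  have h1 : π a.1 = π (slot e' q i).1 := congrArg Prod.fst h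
  have h2 : a.2 = (slot e' q i).2 := congrArg (fun t : Ed Q => t.2) h
  have hq : q ∈ ((insert q (ends e' D) : Finset Q') : Set Q') := mem_coe.2 (mem_insert_self _ _)
  suffices a.1 = (slot e' q i).1 from Prod.ext this h2 ▸ ha
  rcases pmap_slot (e := e') q i with b | b
  · rw [b] at h1 ⊢
    exact hinj (mem_coe.2 (mem_insert_of_mem (pmap_mem_ends ha).1)) hq h1
  · have h3 : π (a.1 + e' a.2) = π q := by rw [← b, hπ, hπ, h1, h2]
    have h4 := hinj (mem_coe.2 (mem_insert_of_mem (pmap_mem_ends ha).2)) hq h3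
    rw [h2] at h4
    exact add_right_cancel (h4.trans b.symm)

theorem balc_map {Q' : Type} [AddCommGroup Q'] [DecidableEq Q'] {e' : Fin 2 → Q'} {π : Q' → Q}
    (hπ : Mor e' e π) {D : Finset (Ed Q')} (hinj : Set.InjOn π (ends e' D : Finset Q')) :
    (Balc e (D.image (Prod.map π id)) ↔ Balc e' D) ∧
      crs e (D.image (Prod.map π id)) = crs e' D := by
  have key : ∀ q ∈ ends e' D, pat e (D.image (Prod.map π id)) (π q) = pat e' D q :=
    fun q hq => pat_map hπ (by rwa [insert_eq_of_mem hq])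
  refine ⟨⟨fun h q => ?_, fun h p => ?_⟩, ?_⟩
  · by_cases hq : q ∈ ends e' D
    · exact key q hq ▸ h (π q)
    · exact pat_eq_zero hq ▸ zero_mem_Ev
  · by_cases hp : p ∈ ends e (D.image (Prod.map π id))
    · rw [pmap_ends hπ] at hp
      obtain ⟨q, hq, rfl⟩ := mem_image.1 hp
      exact (key q hq).symm ▸ h q
    · exact pat_eq_zero hp ▸ zero_mem_Ev
  · unfold crs
    rw [pmap_ends hπ, filter_image,
      card_image_of_injOn (hinj.mono (coe_subset.2 (filter_subset _ _)))]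
    exact congrArg card (filter_congr fun q hq => by rw [key q hq])

lemma bonds_mapP {Q' : Type} (π : Q' → Q) (C : Finset (Atm Q')) :
    (mapP π C).toRight.toRight = C.toRight.toRight.image (Prod.map π id) := by
  unfold mapP mapA
  rw [pmap_toRight, pmap_toRight]

theorem wgt_map {Q' : Type} [AddCommGroup Q'] [DecidableEq Q'] {e' : Fin 2 → Q'} {π : Q' → Q}
    (hπ : Mor e' e π) {ν : Nums} {f : Pat → ℝ} {ψ : Finset (At1 Q) → (Q → Pat) → ℝ}
    {ψ' : Finset (At1 Q') → (Q' → Pat) → ℝ} (hm : QMap e' ψ' ψ π)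
    (hloc : ∀ 𝒳 A A', (∀ q ∈ SS (s1 e') 𝒳, A q = A' q) → ψ' 𝒳 A = ψ' 𝒳 A')
    {C : Finset (Atm Q')} (hinj : Set.InjOn π ((SS (asp e') C).biUnion (ph e') : Finset Q')) :
    wgt ν e f ψ (mapP π C) = wgt ν e' f ψ' C := by
  classical
  have hA : Set.InjOn π (nds e' C) := hinj.mono (coe_subset.2 fun p hp => by
    obtain ⟨t, ht, rfl⟩ := mem_image.1 hp
    refine mem_biUnion.2 ⟨t, ht, ?_⟩
    unfold ph
    split_ifs <;> simp [tr3])
  have hL : ∀ X ∈ C.toLeft, SS (s1 e') X ⊆ nds e' C := fun X hX => pmap_blob (mem_toLeft.1 hX)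
  have hG : ∀ X ∈ C.toRight.toLeft, SS (s1 e') X ⊆ nds e' C := fun X hX =>
    pmap_ghost (mem_toRight.1 (mem_toLeft.1 hX))
  have hB : ends e' C.toRight.toRight ⊆ nds e' C := fun p hp => by
    obtain ⟨a, ha, hp⟩ := mem_biUnion.1 hp
    have := pmap_bond (e := e') (mem_toRight.1 (mem_toRight.1 ha))
    rcases mem_insert.1 hp with rfl | hp
    · exact this.1
    · exact mem_singleton.1 hp ▸ this.2
  have hP : ∀ q ∈ nds e' C, pat e (C.toRight.toRight.image (Prod.map π id)) (π q) =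
      pat e' C.toRight.toRight q :=
    fun q hq => pat_map hπ (hA.mono (coe_subset.2 (insert_subset hq hB)))
  have e1 : (mapP π C).toLeft = C.toLeft.image (image (map1 π)) := pmap_toLeft _ _ C
  have e2 : (mapP π C).toRight.toLeft = C.toRight.toLeft.image (image (map1 π)) := by
    unfold mapP mapA
    rw [pmap_toRight, pmap_toLeft]
  unfold wgt
  rw [e1, e2, bonds_mapP]
  refine if_congr (and_congr (pmap_compat hπ hA hL) (and_congr (pmap_compat hπ hA hG)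
    (and_congr ?_ (balc_map hπ (hA.mono (coe_subset.2 hB))).1))) ?_ rfl
  · simp only [forall_mem_image]
    exact forall₂_congr fun X hX => forall₂_congr fun Y hY => pmap_disj hπ hA (hL X hX) (hG Y hY)
  · rw [prod_image fun X hX Y hY h => pmap_fam_inj hA (hL X hX) (hL Y hY) h,
      prod_image fun X hX Y hY h => pmap_fam_inj hA (hG X hX) (hG Y hY) h, pmap_ends hπ,
      prod_image fun p hp q hq h => hA (hB hp) (hB hq) h]
    refine congrArg₂ (· * ·) (congrArg₂ (· * ·) (prod_congr rfl fun X hX => ?_)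
      (prod_congr rfl fun X hX => ?_)) (prod_congr rfl fun q hq => ?_)
    · rw [pmap_Th ν hA (hL X hX), hm X _ (hinj.mono (coe_subset.2
        (biUnion_subset_biUnion_of_subset_left _ (pmap_sub_SS (mem_toLeft.1 hX))))),
        hloc X _ _ fun q hq => hP q (hL X hX hq)]
    · rw [pmap_Th ν hA (hG X hX)]
    · rw [hP q (hB hq)]

end Pool.Agent.MP_646035_al.PC

namespace Pool.Agent.MP_646035_al.PC

open Finset PT

variable {n k : ℕ} {Q : Type} [AddCommGroup Q] [DecidableEq Q] {e : Fin 2 → Q}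

lemma pcut_mem_nds {C : Finset (Atm Q)} {p : Q} :
    p ∈ nds e C ↔ ∃ α ∈ C, ∃ q ∈ asp e α, q.1 = p := by
  simp only [nds, mem_image, mem_SS]
  exact ⟨fun ⟨q, ⟨α, h1, h2⟩, h3⟩ => ⟨α, h1, q, h2, h3⟩,
    fun ⟨α, h1, q, h2, h3⟩ => ⟨q, ⟨α, h1, h2⟩, h3⟩⟩

lemma pcut_blob_nds {C : Finset (Atm Q)} {X : Finset (At1 Q)}
    (hX : Sum.inl X ∈ C ∨ Sum.inr (Sum.inl X) ∈ C) {q : Q} (hq : q ∈ SS (s1 e) X) :
    q ∈ nds e C := by
  rcases hX with h | h
  · refine pcut_mem_nds.2 ⟨_, h, (q, 1), mem_product.2 ⟨hq, ?_⟩, rfl⟩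
    split_ifs
    · exact mem_insert_of_mem (mem_singleton_self _)
    · exact mem_univ _
  · exact pcut_mem_nds.2 ⟨_, h, (q, 1), mem_product.2 ⟨hq, mem_insert_self _ _⟩, rfl⟩

lemma pcut_bond_nds {C : Finset (Atm Q)} {a : Ed Q} (ha : Sum.inr (Sum.inr a) ∈ C) :
    a.1 ∈ nds e C ∧ a.1 + e a.2 ∈ nds e C :=
  ⟨pcut_mem_nds.2 ⟨_, ha, (a.1, 0), mem_insert_self _ _, rfl⟩,
    pcut_mem_nds.2 ⟨_, ha, (a.1 + e a.2, 0), mem_insert_of_mem (mem_singleton_self _), rfl⟩⟩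

lemma pcut_blob {X : Finset (At1 Q)} (hX : Conn (s1 e) X) (Pr : Q → Prop)
    (h1 : ∀ α ∈ X, ∀ q ∈ s1 e α, Pr q → ∀ q' ∈ s1 e α, Pr q') {q : Q} (hq : q ∈ SS (s1 e) X)
    (hp : Pr q) : ∀ q' ∈ SS (s1 e) X, Pr q' := by
  obtain ⟨α, hα, hqα⟩ := mem_SS.1 hq
  have h2 := hX.induction (fun β => ∀ r ∈ s1 e β, Pr r) hα (h1 α hα q hqα hp)
    fun α _ β hβ h hd => by
      obtain ⟨r, r1, r2⟩ := not_disjoint_iff.1 hd
      exact h1 β hβ r r2 (h r r1)
  intro q' hq'
  obtain ⟨β, hβ, h⟩ := mem_SS.1 hq'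
  exact h2 β hβ q' h

lemma pcut_induction {C : Finset (Atm Q)} (hC : Vld e C) (Pr : Q → Prop) {p₀ : Q}
    (h0 : p₀ ∈ nds e C) (hp : Pr p₀)
    (t1 : ∀ X, (Sum.inl X ∈ C ∨ Sum.inr (Sum.inl X) ∈ C) → ∀ α ∈ X, ∀ q ∈ s1 e α, Pr q →
      ∀ q' ∈ s1 e α, Pr q')
    (t2 : ∀ a : Ed Q, Sum.inr (Sum.inr a) ∈ C → (Pr a.1 ↔ Pr (a.1 + e a.2))) :
    ∀ p ∈ nds e C, Pr p := by
  have h1 : ∀ α ∈ C, ∀ q ∈ asp e α, Pr q.1 → ∀ q' ∈ asp e α, Pr q'.1 := by
    intro α hα q hq h q' hq'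
    have hv := hC.2 α hα
    rcases α with X | X | b
    · exact pcut_blob hv Pr (t1 X (Or.inl hα)) (mem_product.1 hq).1 h _ (mem_product.1 hq').1
    · exact pcut_blob hv Pr (t1 X (Or.inr hα)) (mem_product.1 hq).1 h _ (mem_product.1 hq').1
    · have hb := t2 b hα
      simp only [asp, mem_insert, mem_singleton] at hq hq'
      rcases hq with rfl | rfl <;> rcases hq' with rfl | rfl
      exacts [h, hb.1 h, hb.2 h, h]
  obtain ⟨α₀, hα₀, q₀, hq₀, rfl⟩ := pcut_mem_nds.1 h0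
  have h2 := hC.1.induction (fun α => ∀ q ∈ asp e α, Pr q.1) hα₀ (h1 α₀ hα₀ q₀ hq₀ hp)
    fun α _ β hβ h hd => by
      obtain ⟨r, r1, r2⟩ := not_disjoint_iff.1 hd
      exact h1 β hβ r r2 (h r r1)
  intro j hj
  obtain ⟨α, hα, q, hq, rfl⟩ := pcut_mem_nds.1 hj
  exact h2 α hα q hq

lemma pcut_s1 (α : At1 Q) (Pr : Q → Prop)
    (step : ∀ j, ∀ p ∈ s1 e α, p + e j ∈ s1 e α → (Pr p ↔ Pr (p + e j))) :
    ∀ q ∈ s1 e α, Pr q → ∀ q' ∈ s1 e α, Pr q' := by
  rcases α with a | y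
  · have hb := step a.2 a.1 (mem_insert_self _ _) (mem_insert_of_mem (mem_singleton_self _))
    intro q hq h q' hq'
    simp only [s1, mem_insert, mem_singleton] at hq hq'
    rcases hq with rfl | rfl <;> rcases hq' with rfl | rfl
    exacts [h, hb.1 h, hb.2 h, h]
  · have m0 : y ∈ s1 e (.inr y) := by simp [s1, str]
    have m1 : y + e 0 ∈ s1 e (.inr y) := by simp [s1, str]
    have m2 : y + e 1 ∈ s1 e (.inr y) := by simp [s1, str]
    have m3 : y + eT e ∈ s1 e (.inr y) := by simp [s1, str]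
    have m4 : y - eT e ∈ s1 e (.inr y) := by simp [s1, str]
    have m5 : y + e 0 - eT e ∈ s1 e (.inr y) := by simp [s1, str]
    have e3 : y + eT e + e 0 = y + e 1 := by simp only [eT]; abel
    have e4 : y - eT e + e 1 = y + e 0 := by simp only [eT]; abel
    have e5 : y - eT e + e 0 = y + e 0 - eT e := by abel
    have a1 := step 0 y m0 m1
    have a2 := step 1 y m0 m2
    have a3 := step 0 _ m3 (e3 ▸ m2)
    have a4 := step 1 _ m4 (e4 ▸ m1)
    have a5 := step 0 _ m4 (e5 ▸ m5)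
    rw [e3] at a3
    rw [e4] at a4
    rw [e5] at a5
    have key : ∀ q ∈ s1 e (.inr y), (Pr q ↔ Pr y) := by
      intro q hq
      simp only [s1, str, mem_insert, mem_singleton] at hq
      rcases hq with rfl | rfl | rfl | rfl | rfl | rfl
      exacts [Iff.rfl, a1.symm, a2.symm, a3.trans a2.symm, a4.trans a1.symm,
        a5.symm.trans (a4.trans a1.symm)]
    exact fun q hq h q' hq' => (key q' hq').2 ((key q hq).1 h)

theorem Vld.induction {C : Finset (Atm Q)} (hC : Vld e C) (Pr : Q → Prop) {p₀ : Q}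
    (h0 : p₀ ∈ nds e C) (hp : Pr p₀)
    (step : ∀ j, ∀ p ∈ nds e C, p + e j ∈ nds e C → (Pr p ↔ Pr (p + e j))) :
    ∀ p ∈ nds e C, Pr p :=
  pcut_induction hC Pr h0 hp
    (fun _ hX α hα => pcut_s1 α Pr fun j p h1 h2 => step j p
      (pcut_blob_nds hX (mem_SS.2 ⟨α, hα, h1⟩)) (pcut_blob_nds hX (mem_SS.2 ⟨α, hα, h2⟩)))
    fun a ha => step a.2 a.1 (pcut_bond_nds ha).1 (pcut_bond_nds ha).2

theorem Vld.diam_lt {C : Finset (Atm Q)} (hC : Vld e C) (ht : Q →+ ℤ)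
    (hht : ∀ j, ht (e j) = 0 ∨ ht (e j) = 1) :
    diam ((nds e C).image ht) < (nds e C).card := by
  have h0 : 0 < (nds e C).card := card_pos.2 (hC.nonempty.image _)
  have h1 : diam ((nds e C).image ht) ≤ (nds e C).card - 1 := by
    refine geomcut_diam_le fun a ha b hb hab => ?_
    have h2 : Icc a b ⊆ (nds e C).image ht := by
      intro t h3
      rw [mem_Icc] at h3
      by_contra c
      obtain ⟨p, hp, rfl⟩ := mem_image.1 ha
      obtain ⟨p', hp', rfl⟩ := mem_image.1 hb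
      have ne : ∀ q ∈ nds e C, ht q ≠ t := fun q hq d => c (mem_image.2 ⟨q, hq, d⟩)
      have h4 := hC.induction (fun q => ht q < t) hp (lt_of_le_of_ne h3.1 (ne p hp))
        (fun j q u v => by
          have u1 := ne _ u
          have u2 := ne _ v
          have u3 := hht j
          rw [map_add] at u2 ⊢
          omega) p' hp'
      omega
    have h3 := (card_le_card h2).trans card_image_le
    rw [Int.card_Icc] at h3
    omega
  omega

omit [DecidableEq Q] in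
lemma pcut_fin2 (j : Fin 2) : j = 0 ∨ j = 1 := by
  fin_cases j <;> simp

lemma pcut_ph {t : Q × Fin 3} {r : Q} (h : r ∈ ph e t) :
    r = t.1 ∨ (t.2 = 2 ∧ ∃ j, r = t.1 - e j) := by
  unfold ph at h
  split_ifs at h with c
  · simp only [tr3, mem_insert, mem_singleton] at h
    rcases h with h | h | h
    exacts [Or.inl h, Or.inr ⟨c, 0, h⟩, Or.inr ⟨c, 1, h⟩]
  · exact Or.inl (mem_singleton.1 h)

lemma pcut_diam_ph {C : Finset (Atm Q)} (hC : Vld e C) (ht : Q →+ ℤ)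
    (hht : ∀ j, ht (e j) = 0 ∨ ht (e j) = 1) :
    diam (((SS (asp e) C).biUnion (ph e)).image ht) ≤ (nds e C).card := by
  have h1 := hC.diam_lt ht hht
  have key : ∀ a ∈ ((SS (asp e) C).biUnion (ph e)).image ht,
      ∃ a' ∈ (nds e C).image ht, a ≤ a' ∧ a' ≤ a + 1 := by
    intro a ha
    obtain ⟨r, hr, rfl⟩ := mem_image.1 ha
    obtain ⟨t, h2, h3⟩ := mem_biUnion.1 hr
    refine ⟨ht t.1, mem_image_of_mem _ (mem_image_of_mem _ h2), ?_⟩
    rcases pcut_ph h3 with rfl | ⟨-, j, rfl⟩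
    · omega
    · have := hht j
      rw [map_sub]
      omega
  refine diam_le fun a ha b hb => ?_
  obtain ⟨a', h2, h3⟩ := key a ha
  obtain ⟨b', h4, h5⟩ := key b hb
  have := le_diam h2 h4
  omega

lemma pcut_fst (j : Fin 2) : AddMonoidHom.fst ℤ ℤ (eP j) = 0 ∨ AddMonoidHom.fst ℤ ℤ (eP j) = 1 := by
  rcases pcut_fin2 j with rfl | rfl <;> simp

lemma pcut_snd (j : Fin 2) : AddMonoidHom.snd ℤ ℤ (eP j) = 0 ∨ AddMonoidHom.snd ℤ ℤ (eP j) = 1 := by
  rcases pcut_fin2 j with rfl | rfl <;> simp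

theorem lenP_le_card {C : Finset (Atm (ℤ × ℤ))} (hC : Vld eP C) :
    lenP (SS (asp eP) C) ≤ 2 * (nds eP C).card := by
  have h1 := pcut_diam_ph hC _ pcut_fst
  have h2 := pcut_diam_ph hC _ pcut_snd
  rw [AddMonoidHom.coe_fst] at h1
  rw [AddMonoidHom.coe_snd] at h2
  unfold lenP
  omega

lemma pcut_bal {D : Finset (Ed Q)} (hB : Balc e D) : Bal (fun j => -e j) D := by
  intro v
  have h := (mem_filter.1 (hB v)).2
  have e1 : (D.filter fun b => b.1 = v) = ({(v, 0), (v, 1)} : Finset (Ed Q)).filter (· ∈ D) := by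
    ext ⟨p, j⟩
    simp only [mem_filter, mem_insert, mem_singleton, Prod.mk.injEq]
    rcases pcut_fin2 j with rfl | rfl <;> simp [and_comm]
  have e2 : (D.filter fun b => b.1 - -e b.2 = v) =
      ({(v - e 1, 1), (v - e 0, 0)} : Finset (Ed Q)).filter (· ∈ D) := by
    ext ⟨p, j⟩
    simp only [mem_filter, mem_insert, mem_singleton, Prod.mk.injEq, sub_neg_eq_add,
      eq_sub_iff_add_eq]
    rcases pcut_fin2 j with rfl | rfl <;> simp [and_comm]
  rw [e1, e2, card_filter, card_filter, sum_pair (by simp), sum_pair (by simp),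
    ← ZMod.natCast_eq_zero_iff_even]
  rw [Fin.sum_univ_four] at h
  simp only [pat, slot, Matrix.cons_val_zero, Matrix.cons_val_one, Matrix.cons_val] at h
  by_cases c1 : (v - e 1, 1) ∈ D <;> by_cases c2 : (v - e 0, 0) ∈ D <;>
    by_cases c3 : (v, 0) ∈ D <;> by_cases c4 : (v, 1) ∈ D <;>
    simp only [c1, c2, c3, c4, if_true, if_false] at h ⊢ <;> revert h <;> decide

lemma pcut_even {D : Finset (Ed Q)} (hB : Balc e D) (ht : Q →+ ℤ)
    (hht : ∀ j, ht (e j) = 0 ∨ ht (e j) = 1) (t : ℤ) :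
    Even (D.filter fun b => ht b.1 = t ∧ ht (e b.2) = 1).card := by
  have h := geomcut_even (pcut_bal hB) (-ht) (fun j => by simpa using hht j) (-t)
  simpa using h

/-- The base node of an atom of the first level. -/
def pcut_base : At1 Q → Q
  | .inl a => a.1
  | .inr y => y

lemma pcut_range (ht : Q →+ ℤ) (hht : ∀ j, ht (e j) = 0 ∨ ht (e j) = 1) {α : At1 Q} {q : Q}
    (h : q ∈ s1 e α) : ht (pcut_base α) - 1 ≤ ht q ∧ ht q ≤ ht (pcut_base α) + 2 := by
  have h0 := hht 0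
  have h1 := hht 1
  rcases α with a | y
  · have h2 := hht a.2
    simp only [s1, mem_insert, mem_singleton] at h
    rcases h with rfl | rfl <;> simp only [pcut_base, map_add] <;> omega
  · simp only [s1, str, mem_insert, mem_singleton] at h
    rcases h with rfl | rfl | rfl | rfl | rfl | rfl <;>
      simp only [pcut_base, eT, map_add, map_sub] <;> omega

/-- The levels near a set of atoms of the first level. -/
noncomputable def pcut_near (ht : Q →+ ℤ) (X : Finset (At1 Q)) : Finset ℤ :=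
  X.biUnion fun α => Ico (ht (pcut_base α) - 2) (ht (pcut_base α) + 2)

omit [DecidableEq Q] in
lemma pcut_near_card (ht : Q →+ ℤ) (X : Finset (At1 Q)) : (pcut_near ht X).card ≤ 4 * X.card := by
  rw [mul_comm]
  refine card_biUnion_le_card_mul _ _ _ fun α _ => ?_
  rw [Int.card_Ico]
  omega

/-- The levels paid by a blob or a ghost. -/
noncomputable def pcut_lev (e : Fin 2 → Q) (ht : Q →+ ℤ) : Atm Q → Finset ℤ
  | .inl X => if X.toRight = ∅ then (X.toLeft.filter fun a => ht (e a.2) = 1).image fun a => ht a.1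
      else pcut_near ht X
  | .inr (.inl X) => pcut_near ht X
  | .inr (.inr _) => ∅

/-- The bonds in the direction of `ht`. -/
def pcut_ind (e : Fin 2 → Q) (ht : Q →+ ℤ) : Atm Q → ℕ
  | .inl _ => 0
  | .inr (.inl _) => 0
  | .inr (.inr a) => if ht (e a.2) = 1 then 1 else 0

lemma pcut_cut {C : Finset (Atm Q)} (hC : Vld e C) (ht : Q →+ ℤ)
    (hht : ∀ j, ht (e j) = 0 ∨ ht (e j) = 1) {t : ℤ} {p p' : Q} (hp : p ∈ nds e C)
    (hp' : p' ∈ nds e C) (ha : ht p ≤ t) (ha' : t < ht p') (hU : t ∉ C.biUnion (pcut_lev e ht)) :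
    ∃ b : Ed Q, Sum.inr (Sum.inr b) ∈ C ∧ ht b.1 = t ∧ ht (e b.2) = 1 := by
  by_contra h2
  have near : ∀ X : Finset (At1 Q), t ∉ pcut_near ht X → ∀ α ∈ X, ∀ q ∈ s1 e α, ht q ≤ t →
      ∀ q' ∈ s1 e α, ht q' ≤ t := by
    intro X hX α hα q hq h q' hq'
    have u1 := pcut_range ht hht hq
    have u2 := pcut_range ht hht hq'
    have u3 : t ∉ Ico (ht (pcut_base α) - 2) (ht (pcut_base α) + 2) := fun c =>
      hX (mem_biUnion.2 ⟨α, hα, c⟩)
    rw [mem_Ico] at u3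
    omega
  refine absurd (pcut_induction hC (fun j => ht j ≤ t) hp ha (fun X hX => ?_)
    (fun b hb => ?_) p' hp') (not_le.2 ha')
  · rcases hX with hX | hX
    · have h3 : t ∉ pcut_lev e ht (.inl X) := fun c => hU (mem_biUnion.2 ⟨_, hX, c⟩)
      simp only [pcut_lev] at h3
      split_ifs at h3 with c
      · intro α hα q hq h q' hq'
        rcases α with a | y
        · have h4 : ¬ (ht (e a.2) = 1 ∧ ht a.1 = t) := fun d =>
            h3 (mem_image.2 ⟨a, mem_filter.2 ⟨mem_toLeft.2 hα, d.1⟩, d.2⟩)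
          have h5 := hht a.2
          simp only [s1, mem_insert, mem_singleton] at hq hq'
          have h6 := map_add ht a.1 (e a.2)
          rcases hq with rfl | rfl <;> rcases hq' with rfl | rfl <;> omega
        · exact absurd (c ▸ mem_toRight.2 hα) (notMem_empty y)
      · exact near X h3
    · exact near X fun c => hU (mem_biUnion.2 ⟨_, hX, c⟩)
  · have h3 : ¬(ht b.1 = t ∧ ht (e b.2) = 1) := fun h => h2 ⟨b, hb, h⟩
    have h4 := hht b.2
    rw [map_add]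
    omega

lemma pcut_two {C : Finset (Atm Q)} (hC : Vld e C) (hB : Balc e C.toRight.toRight) (ht : Q →+ ℤ)
    (hht : ∀ j, ht (e j) = 0 ∨ ht (e j) = 1) :
    2 * diam (((SS (asp e) C).biUnion (ph e)).image ht) ≤
      ∑ α ∈ C, (2 * (pcut_lev e ht α).card + pcut_ind e ht α) := by
  set D := C.toRight.toRight.filter fun b => ht (e b.2) = 1 with hD
  set U := C.biUnion (pcut_lev e ht) with hU
  have hUN : U.card ≤ ∑ α ∈ C, (pcut_lev e ht α).card := card_biUnion_le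
  have hDN : D.card ≤ ∑ α ∈ C, pcut_ind e ht α := by
    have h1 : D.image (fun b => (Sum.inr (Sum.inr b) : Atm Q)) ⊆ C := by
      intro α hα
      obtain ⟨b, hb, rfl⟩ := mem_image.1 hα
      exact mem_toRight.1 (mem_toRight.1 (mem_filter.1 hb).1)
    refine le_trans (le_of_eq ?_) (sum_le_sum_of_subset h1)
    rw [sum_image fun a _ b _ h => Sum.inr_injective (Sum.inr_injective h), card_eq_sum_ones]
    exact sum_congr rfl fun b hb => by simp only [pcut_ind, (mem_filter.1 hb).2, if_true]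
  have key : ∀ a ∈ ((SS (asp e) C).biUnion (ph e)).image ht,
      ∃ q ∈ nds e C, ht q = a ∨ (ht q = a + 1 ∧ a ∈ U) := by
    intro a ha
    obtain ⟨r, hr, rfl⟩ := mem_image.1 ha
    obtain ⟨t, h2, h3⟩ := mem_biUnion.1 hr
    refine ⟨t.1, mem_image_of_mem _ h2, ?_⟩
    rcases pcut_ph h3 with rfl | ⟨c, j, rfl⟩
    · exact Or.inl rfl
    · rw [map_sub]
      rcases hht j with u | u
      · left
        omega
      · refine Or.inr ⟨by omega, ?_⟩
        obtain ⟨α, hα, hq⟩ := mem_SS.1 h2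
        have near : ∀ X : Finset (At1 Q), t.1 ∈ SS (s1 e) X →
            ht t.1 - ht (e j) ∈ pcut_near ht X := by
          intro X hX
          obtain ⟨β, hβ, h4⟩ := mem_SS.1 hX
          have := pcut_range ht hht h4
          exact mem_biUnion.2 ⟨β, hβ, mem_Ico.2 ⟨by omega, by omega⟩⟩
        refine mem_biUnion.2 ⟨α, hα, ?_⟩
        rcases α with X | X | b
        · have h4 := mem_product.1 hq
          simp only [pcut_lev]
          split_ifs with d
          · rw [if_pos d, c] at h4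
            exact absurd h4.2 (by decide)
          · exact near X h4.1
        · exact near X (mem_product.1 hq).1
        · simp only [asp, mem_insert, mem_singleton] at hq
          rcases hq with rfl | rfl <;> exact absurd c (by decide : (0 : Fin 3) ≠ 2)
  have h1 : diam (((SS (asp e) C).biUnion (ph e)).image ht) ≤ (2 * U.card + D.card) / 2 := by
    refine geomcut_diam_le fun a ha b hb hab => ?_
    obtain ⟨p, hp, pa⟩ := key a ha
    obtain ⟨p', hp', pb⟩ := key b hb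
    have h2 : ∀ t ∈ Ico a b \ U, 2 ≤ (D.filter fun b => ht b.1 = t).card := by
      intro t h3
      rw [mem_sdiff, mem_Ico] at h3
      have e1 : (D.filter fun b => ht b.1 = t) =
          C.toRight.toRight.filter fun b => ht b.1 = t ∧ ht (e b.2) = 1 := by
        rw [hD, filter_filter]
        exact filter_congr fun b _ => and_comm
      rw [e1]
      have u1 : ht p ≤ t := by
        rcases pa with u | ⟨u, v⟩
        · omega
        · have : a ≠ t := fun w => h3.2 (w ▸ v)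
          omega
      have u2 : t < ht p' := by
        rcases pb with u | ⟨u, -⟩ <;> omega
      obtain ⟨c, hc, h4⟩ := pcut_cut hC ht hht hp hp' u1 u2 h3.2
      have h6 : 0 < (C.toRight.toRight.filter fun b => ht b.1 = t ∧ ht (e b.2) = 1).card :=
        card_pos.2 ⟨c, mem_filter.2 ⟨mem_toRight.2 (mem_toRight.2 hc), h4⟩⟩
      obtain ⟨r, hr⟩ := pcut_even hB ht hht t
      omega
    have h3 := card_nsmul_le_sum _ _ _ h2
    rw [sum_card_fiberwise_eq_card_filter, smul_eq_mul] at h3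
    have h4 := h3.trans (card_filter_le _ _)
    have h5 := le_card_sdiff U (Ico a b)
    rw [Int.card_Ico] at h5
    omega
  rw [sum_add_distrib, ← mul_sum]
  omega

lemma pcut_cost (α : Atm (ℤ × ℤ)) :
    2 * (pcut_lev eP (AddMonoidHom.fst ℤ ℤ) α).card + pcut_ind eP (AddMonoidHom.fst ℤ ℤ) α +
      (2 * (pcut_lev eP (AddMonoidHom.snd ℤ ℤ) α).card + pcut_ind eP (AddMonoidHom.snd ℤ ℤ) α) ≤
      asz' α := by
  rcases α with X | X | b
  · simp only [pcut_lev, pcut_ind, asz']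
    split_ifs with c
    · have h1 := card_image_le (s := X.toLeft.filter fun a => AddMonoidHom.fst ℤ ℤ (eP a.2) = 1)
        (f := fun a => AddMonoidHom.fst ℤ ℤ a.1)
      have h2 := card_image_le (s := X.toLeft.filter fun a => AddMonoidHom.snd ℤ ℤ (eP a.2) = 1)
        (f := fun a => AddMonoidHom.snd ℤ ℤ a.1)
      have h3 : Disjoint (X.toLeft.filter fun a => AddMonoidHom.fst ℤ ℤ (eP a.2) = 1)
          (X.toLeft.filter fun a => AddMonoidHom.snd ℤ ℤ (eP a.2) = 1) :=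
        disjoint_filter.2 fun a _ u v => by
          rcases pcut_fin2 a.2 with w | w <;> simp [w] at u v
      have h4 := card_le_card (union_subset (filter_subset (fun a => AddMonoidHom.fst ℤ ℤ (eP a.2) = 1)
        X.toLeft) (filter_subset (fun a => AddMonoidHom.snd ℤ ℤ (eP a.2) = 1) X.toLeft))
      rw [card_union_of_disjoint h3] at h4
      have h5 : X.toLeft.card ≤ X.card := card_toLeft_le
      omega
    · have h1 := pcut_near_card (AddMonoidHom.fst ℤ ℤ) X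
      have h2 := pcut_near_card (AddMonoidHom.snd ℤ ℤ) X
      omega
  · simp only [pcut_lev, pcut_ind, asz']
    have h1 := pcut_near_card (AddMonoidHom.fst ℤ ℤ) X
    have h2 := pcut_near_card (AddMonoidHom.snd ℤ ℤ) X
    omega
  · simp only [pcut_lev, pcut_ind, asz', card_empty]
    rcases pcut_fin2 b.2 with w | w <;> simp [w]

theorem two_lenP_le {C : Finset (Atm (ℤ × ℤ))} (hC : Vld eP C)
    (hB : Balc eP C.toRight.toRight) : 2 * lenP (SS (asp eP) C) ≤ ∑ α ∈ C, asz' α := by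
  have h1 := pcut_two hC hB _ pcut_fst
  have h2 := pcut_two hC hB _ pcut_snd
  have h3 := sum_le_sum fun α (_ : α ∈ C) => pcut_cost α
  rw [sum_add_distrib] at h3
  have h4 := (add_le_add h1 h2).trans h3
  rw [AddMonoidHom.coe_fst, AddMonoidHom.coe_snd] at h4
  unfold lenP
  omega

end Pool.Agent.MP_646035_al.PC

namespace Pool.Agent.MP_646035_al.PC

open Finset PT

variable {n k : ℕ} {Q : Type} [AddCommGroup Q] [DecidableEq Q] {e : Fin 2 → Q}

/-- The multiplicity of the edge `a` in the family of patterns `A`. -/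
def repc_m (e : Fin 2 → Q) (Λ : Finset Q) (A : Q → Pat) (a : Ed Q) : ZMod 2 :=
  ∑ q ∈ Λ, ∑ i, if slot e q i = a then A q i else 0

lemma repc_mem_slots {Λ : Finset Q} {q : Q} (hq : q ∈ Λ) (i : Fin 4) :
    slot e q i ∈ slots e Λ :=
  mem_biUnion.2 ⟨q, hq, mem_image_of_mem _ (mem_univ i)⟩

lemma repc_chX (Λ : Finset Q) (A : Q → Pat) (σ : Ed Q → ZMod 2) :
    chX e Λ A σ = ∏ a ∈ slots e Λ, sg (repc_m e Λ A a * σ a) := by
  rw [← sg_sum]
  unfold chX ch
  rw [← sg_sum]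
  congr 1
  simp only [repc_m, sum_mul]
  symm
  rw [sum_comm]
  refine sum_congr rfl fun q hq => ?_
  rw [sum_comm]
  refine sum_congr rfl fun i _ => ?_
  simp only [ite_mul, zero_mul]
  rw [sum_ite_eq, if_pos (repc_mem_slots hq i)]

omit [AddCommGroup Q] in
lemma repc_ite {Λ : Finset Q} {A : Q → Pat} (hA : ∀ q ∉ Λ, A q = 0) (p : Q) (i : Fin 4) :
    (∑ q ∈ Λ, if q = p then A q i else 0) = A p i := by
  rw [sum_ite_eq']
  split_ifs with h
  · rfl
  · rw [hA p h]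
    rfl

lemma repc_m_zero {Λ : Finset Q} {A : Q → Pat} (hA : ∀ q ∉ Λ, A q = 0) (p : Q) :
    repc_m e Λ A (p, 0) = A (p + e 0) 1 + A p 2 := by
  rw [← repc_ite hA (p + e 0) 1, ← repc_ite hA p 2, ← sum_add_distrib]
  refine sum_congr rfl fun q _ => ?_
  simp [Fin.sum_univ_four, slot, sub_eq_iff_eq_add]

lemma repc_m_one {Λ : Finset Q} {A : Q → Pat} (hA : ∀ q ∉ Λ, A q = 0) (p : Q) :
    repc_m e Λ A (p, 1) = A (p + e 1) 0 + A p 3 := by
  rw [← repc_ite hA (p + e 1) 0, ← repc_ite hA p 3, ← sum_add_distrib]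
  refine sum_congr rfl fun q _ => ?_
  simp [Fin.sum_univ_four, slot, sub_eq_iff_eq_add]

lemma repc_z2 {u v : ZMod 2} (h : u + v = 0) : u = v := by
  revert u v
  decide

lemma repc_z2' (u : ZMod 2) : u = if u = 1 then 1 else 0 := by
  revert u
  decide

lemma repc_iff {Λ : Finset Q} {A : Q → Pat} (hA : ∀ q ∉ Λ, A q = 0) :
    (∀ a ∈ slots e Λ, repc_m e Λ A a = 0) ↔ ∃ D ⊆ bonds e Λ, A = pat e D := by
  constructor
  · intro h
    have h' : ∀ a, repc_m e Λ A a = 0 := by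
      intro a
      by_cases ha : a ∈ slots e Λ
      · exact h a ha
      · refine sum_eq_zero fun q hq => sum_eq_zero fun i _ => if_neg ?_
        rintro rfl
        exact ha (repc_mem_slots hq i)
    have h0 : ∀ p, A (p + e 0) 1 = A p 2 := fun p => repc_z2 (repc_m_zero hA p ▸ h' (p, 0))
    have h1 : ∀ p, A (p + e 1) 0 = A p 3 := fun p => repc_z2 (repc_m_one hA p ▸ h' (p, 1))
    have hm : ∀ p i, A p i = 1 → p ∈ Λ := fun p i hp => by
      by_contra hn
      rw [hA p hn] at hp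
      exact zero_ne_one hp
    obtain ⟨D, hD⟩ : ∃ D : Finset (Ed Q), D = (Λ ×ˢ (univ : Finset (Fin 2))).filter
        fun a => A a.1 (if a.2 = 0 then 2 else 3) = 1 := ⟨_, rfl⟩
    have d0 : ∀ p, (p, 0) ∈ D ↔ A p 2 = 1 := fun p => by
      rw [hD, mem_filter, mem_product]
      exact ⟨fun h => h.2, fun h => ⟨⟨hm p 2 h, mem_univ _⟩, h⟩⟩
    have d1 : ∀ p, (p, 1) ∈ D ↔ A p 3 = 1 := fun p => by
      rw [hD, mem_filter, mem_product]
      exact ⟨fun h => h.2, fun h => ⟨⟨hm p 3 h, mem_univ _⟩, h⟩⟩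
    refine ⟨D, ?_, ?_⟩
    · rintro ⟨p, j⟩ ha
      rw [bonds, mem_filter, mem_product]
      fin_cases j
      · have := (d0 p).1 ha
        exact ⟨⟨hm p 2 this, mem_univ _⟩, hm _ 1 ((h0 p).trans this)⟩
      · have := (d1 p).1 ha
        exact ⟨⟨hm p 3 this, mem_univ _⟩, hm _ 0 ((h1 p).trans this)⟩
    · funext q i
      fin_cases i
      · show A q 0 = if (q - e 1, 1) ∈ D then 1 else 0
        simp only [d1, ← h1, sub_add_cancel]
        exact repc_z2' _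
      · show A q 1 = if (q - e 0, 0) ∈ D then 1 else 0
        simp only [d0, ← h0, sub_add_cancel]
        exact repc_z2' _
      · show A q 2 = if (q, 0) ∈ D then 1 else 0
        simp only [d0]
        exact repc_z2' _
      · show A q 3 = if (q, 1) ∈ D then 1 else 0
        simp only [d1]
        exact repc_z2' _
  · rintro ⟨D, -, rfl⟩ ⟨p, j⟩ -
    fin_cases j
    · show repc_m e Λ (pat e D) (p, 0) = 0
      rw [repc_m_zero hA]
      have : pat e D (p + e 0) 1 = pat e D p 2 := by simp [pat, slot]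
      rw [this, z2_add_self]
    · show repc_m e Λ (pat e D) (p, 1) = 0
      rw [repc_m_one hA]
      have : pat e D (p + e 1) 0 = pat e D p 3 := by simp [pat, slot]
      rw [this, z2_add_self]

lemma repc_sum_sg (m : ZMod 2) : ∑ s : ZMod 2, sg (m * s) = if m = 0 then 2 else 0 := by
  have hu : (univ : Finset (ZMod 2)) = {0, 1} := by decide
  rw [hu, sum_pair zero_ne_one]
  rcases z2_cases m with rfl | rfl
  · norm_num
  · simp

open Classical in
theorem sum_chX (Λ : Finset Q) (A : Q → Pat) (hA : ∀ q ∉ Λ, A q = 0) :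
    ∑ σ ∈ asg 0 (slots e Λ) univ, chX e Λ A σ =
      if ∃ D ⊆ bonds e Λ, A = pat e D then 2 ^ (slots e Λ).card else 0 := by
  simp only [repc_chX]
  rw [sum_asg_prod (0 : ZMod 2) (slots e Λ) univ fun a s => sg (repc_m e Λ A a * s)]
  simp only [repc_sum_sg]
  by_cases h : ∀ a ∈ slots e Λ, repc_m e Λ A a = 0
  · rw [if_pos ((repc_iff hA).1 h), ← prod_const]
    exact prod_congr rfl fun a ha => if_pos (h a ha)
  · rw [if_neg fun h' => h ((repc_iff hA).2 h')]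
    push Not at h
    obtain ⟨a, ha, hm⟩ := h
    exact prod_eq_zero ha (if_neg hm)

lemma repc_pat_inj {D D' : Finset (Ed Q)} (h : pat e D = pat e D') : D = D' := by
  ext ⟨p, j⟩
  fin_cases j
  · have := congrFun (congrFun h p) 2
    change (if (p, 0) ∈ D then (1 : ZMod 2) else 0) = if (p, 0) ∈ D' then 1 else 0 at this
    show (p, 0) ∈ D ↔ (p, 0) ∈ D'
    by_cases h1 : (p, 0) ∈ D <;> by_cases h2 : (p, 0) ∈ D' <;> simp_all
  · have := congrFun (congrFun h p) 3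
    change (if (p, 1) ∈ D then (1 : ZMod 2) else 0) = if (p, 1) ∈ D' then 1 else 0 at this
    show (p, 1) ∈ D ↔ (p, 1) ∈ D'
    by_cases h1 : (p, 1) ∈ D <;> by_cases h2 : (p, 1) ∈ D' <;> simp_all

lemma repc_ends {Λ : Finset Q} {D : Finset (Ed Q)} (hD : D ⊆ bonds e Λ) : ends e D ⊆ Λ := by
  intro q hq
  obtain ⟨a, ha, hq⟩ := mem_biUnion.1 hq
  have := hD ha
  rw [bonds, mem_filter, mem_product] at this
  rcases mem_insert.1 hq with rfl | hq
  · exact this.1.1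
  · rw [mem_singleton.1 hq]
    exact this.2

open Classical in
/-- Families of patterns that survive the sum over the signs are the balanced sets of bonds. -/
lemma repc_sum_pat (Λ : Finset Q) (G : (Q → Pat) → ℝ) :
    ∑ σ ∈ asg 0 (slots e Λ) univ, ∑ A ∈ asg 0 Λ Ev, G A * chX e Λ A σ =
      2 ^ (slots e Λ).card *
        ∑ D ∈ (bonds e Λ).powerset, if Balc e D then G (pat e D) else 0 := by
  rw [sum_comm]
  have h1 : ∀ A ∈ asg 0 Λ Ev, ∑ σ ∈ asg 0 (slots e Λ) univ, G A * chX e Λ A σ =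
      if ∃ D ⊆ bonds e Λ, A = pat e D then 2 ^ (slots e Λ).card * G A else 0 := by
    intro A hA
    rw [← mul_sum, sum_chX Λ A (mem_asg.1 hA).2]
    split_ifs
    · ring
    · ring
  rw [sum_congr rfl h1, ← sum_filter, ← sum_filter, mul_sum]
  symm
  refine sum_nbij (pat e) ?_ (fun D _ D' _ h => repc_pat_inj h) ?_ fun _ _ => rfl
  · intro D hD
    rw [mem_filter, mem_powerset] at hD
    rw [mem_filter, mem_asg]
    exact ⟨⟨fun q _ => hD.2 q, fun q hq => pat_eq_zero fun h => hq (repc_ends hD.1 h)⟩,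
      D, hD.1, rfl⟩
  · intro A hA
    rw [mem_coe, mem_filter, mem_asg] at hA
    obtain ⟨⟨h2, h3⟩, D, hD, rfl⟩ := hA
    refine ⟨D, ?_, rfl⟩
    rw [mem_coe, mem_filter, mem_powerset]
    refine ⟨hD, fun q => ?_⟩
    by_cases hq : q ∈ Λ
    · exact h2 q hq
    · rw [h3 q hq]
      exact zero_mem_Ev

omit [AddCommGroup Q] in
/-- Local factors on disjoint regions times plain factors, expanded over the patterns. -/
lemma repc_prod_blobs {Γ : Type} [DecidableEq Γ] (S : Γ → Finset Q) (c : Γ → (Q → Pat) → ℝ)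
    (hc : ∀ X A A', (∀ q ∈ S X, A q = A' q) → c X A = c X A') (g : Q → Pat → ℝ)
    {U : Finset Γ} (hd : Compat S U) {Λ : Finset Q} (hU : ∀ X ∈ U, S X ⊆ Λ) :
    (∏ X ∈ U, ∑ A ∈ asg 0 (S X) Ev, c X A * ∏ q ∈ S X, g q (A q)) *
        ∏ q ∈ Λ \ U.biUnion S, ∑ B ∈ Ev, g q B =
      ∑ A ∈ asg 0 Λ Ev, (∏ X ∈ U, c X A) * ∏ q ∈ Λ, g q (A q) := by
  induction U using Finset.induction_on generalizing Λ with
  | empty =>
    rw [biUnion_empty, sdiff_empty, ← sum_asg_prod (0 : Pat)]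
    simp
  | insert X₀ U hn ih =>
    have hd0 : ∀ X ∈ U, Disjoint (S X₀) (S X) := fun X hX =>
      hd X₀ (mem_insert_self _ _) X (mem_insert_of_mem hX) fun h => hn (h ▸ hX)
    have ih' := ih (Λ := Λ \ S X₀)
      (fun X hX X' hX' => hd X (mem_insert_of_mem hX) X' (mem_insert_of_mem hX'))
      fun X hX => subset_sdiff.2 ⟨hU X (mem_insert_of_mem hX), (hd0 X hX).symm⟩
    have e1 : Λ \ (insert X₀ U).biUnion S = (Λ \ S X₀) \ U.biUnion S := by
      rw [biUnion_insert, sdiff_sdiff_left]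
      rfl
    have h0 : S X₀ ⊆ Λ := hU X₀ (mem_insert_self _ _)
    have e2 : Λ = S X₀ ∪ Λ \ S X₀ := (union_sdiff_of_subset h0).symm
    rw [prod_insert hn, e1, mul_assoc, ih', sum_mul_sum]
    conv_rhs => rw [e2]
    rw [sum_asg_union _ disjoint_sdiff]
    refine sum_congr rfl fun A₁ _ => sum_congr rfl fun A₂ _ => ?_
    rw [prod_insert hn, prod_union disjoint_sdiff]
    have f1 : c X₀ ((S X₀).piecewise A₁ A₂) = c X₀ A₁ :=
      hc _ _ _ fun q hq => piecewise_eq_of_mem _ _ _ hq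
    have f2 : ∏ X ∈ U, c X ((S X₀).piecewise A₁ A₂) = ∏ X ∈ U, c X A₂ :=
      prod_congr rfl fun X hX => hc _ _ _ fun q hq =>
        piecewise_eq_of_notMem _ _ _ (disjoint_right.1 (hd0 X hX) hq)
    have f3 : ∏ q ∈ S X₀, g q ((S X₀).piecewise A₁ A₂ q) = ∏ q ∈ S X₀, g q (A₁ q) :=
      prod_congr rfl fun q hq => by rw [piecewise_eq_of_mem _ _ _ hq]
    have f4 : ∏ q ∈ Λ \ S X₀, g q ((S X₀).piecewise A₁ A₂ q) = ∏ q ∈ Λ \ S X₀, g q (A₂ q) :=
      prod_congr rfl fun q hq => by rw [piecewise_eq_of_notMem _ _ _ (mem_sdiff.1 hq).2]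
    rw [f1, f2, f3, f4]
    ring

lemma repc_sub {V : Finset Q} {𝒳 : Finset (At1 Q)} (h : 𝒳 ⊆ at1 V) :
    SS (s1 e) 𝒳 ⊆ SS (str e) V := by
  intro q hq
  obtain ⟨α, hα, hq⟩ := mem_SS.1 hq
  have := h hα
  rcases α with ⟨p, j⟩ | y
  · have hp : p ∈ V := by simpa [at1] using this
    refine mem_SS.2 ⟨p, hp, ?_⟩
    have hq' : q = p ∨ q = p + e j := by simpa [s1] using hq
    rcases hq' with rfl | rfl
    · simp [str]
    · fin_cases j <;> simp [str]
  · have hy : y ∈ V := by simpa [at1] using this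
    exact mem_SS.2 ⟨y, hy, hq⟩

open Classical in
/-- The expansion into blobs and ghosts for fixed signs. -/
lemma repc_blobs (V : Finset Q) (Ψ θ : Finset (At1 Q) → ℝ) (φ : Q → ℝ) (hφ : ∀ q, 0 < φ q)
    (h0 : Ψ ∅ = 1)
    (hmul : ∀ 𝒳₁ 𝒳₂, Disjoint (SS (s1 e) 𝒳₁) (SS (s1 e) 𝒳₂) → Ψ (𝒳₁ ∪ 𝒳₂) = Ψ 𝒳₁ * Ψ 𝒳₂) :
    ∑ 𝒳 ∈ (at1 V).powerset, Ψ 𝒳 * ∏ q ∈ SS (str e) V \ SS (s1 e) 𝒳, φ q =
      ∑ U ∈ (conns (s1 e) (at1 V)).powerset, ∑ W ∈ (conns (s1 e) (at1 V)).powerset,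
        if Compat (SS (s1 e)) U ∧ Compat (SS (s1 e)) W ∧
            ∀ X ∈ U, ∀ X' ∈ W, Disjoint (SS (s1 e) X) (SS (s1 e) X') then
          ((∏ X ∈ U, (Ψ X + θ X * ∏ q ∈ SS (s1 e) X, φ q)) *
            ∏ q ∈ SS (str e) V \ U.biUnion (SS (s1 e)), φ q) * ∏ X ∈ W, -θ X
        else 0 := by
  have hφ0 : ∀ X : Finset Q, 0 < ∏ j ∈ X, φ j := fun X => prod_pos fun j _ => hφ j
  obtain ⟨w, hw⟩ : ∃ w : Finset (At1 Q) → ℝ, ∀ X, w X = Ψ X / ∏ q ∈ SS (s1 e) X, φ q :=
    ⟨_, fun _ => rfl⟩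
  have h1 : ∑ 𝒳 ∈ (at1 V).powerset, Ψ 𝒳 * ∏ q ∈ SS (str e) V \ SS (s1 e) 𝒳, φ q =
      (∏ q ∈ SS (str e) V, φ q) * ∑ X ∈ (at1 V).powerset, w X := by
    rw [mul_sum]
    refine sum_congr rfl fun X hX => ?_
    have := hφ0 (SS (s1 e) X)
    rw [← prod_sdiff (repc_sub (e := e) (mem_powerset.1 hX)), hw]
    field_simp
  have h2 : ∑ X ∈ (at1 V).powerset, w X = Xi (SS (s1 e)) w (conns (s1 e) (at1 V)) := by
    refine sum_eq_Xi (at1 V) (fun α _ => s1_nonempty α) w ?_ ?_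
    · simp [hw, h0, SS]
    · intro C₁ _ C₂ _ hd
      have : SS (s1 e) (C₁ ∪ C₂) = SS (s1 e) C₁ ∪ SS (s1 e) C₂ := union_biUnion
      rw [hw, hw, hw, hmul _ _ hd, this, prod_union hd, div_mul_div_comm]
  obtain ⟨Qx, hQx⟩ : ∃ Qx : Finset (At1 Q) → ℝ, ∀ X,
      Ψ X + θ X * ∏ q ∈ SS (s1 e) X, φ q = Qx X := ⟨_, fun _ => rfl⟩
  simp only [hQx]
  have h3 : ∀ X ∈ conns (s1 e) (at1 V), w X = Qx X / ∏ q ∈ SS (s1 e) X, φ q + -θ X := by
    intro X _
    have := hφ0 (SS (s1 e) X)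
    rw [hw, ← hQx]
    field_simp
    ring
  rw [h1, h2, Xi_congr h3]
  unfold Xi
  simp only [prod_add]
  rw [rep_sum_pairs (SS (s1 e)) (conns (s1 e) (at1 V))
    (fun X hX => by
      obtain ⟨α, hα⟩ := (mem_conns.1 hX).2.1
      obtain ⟨q, hq⟩ := s1_nonempty (e := e) α
      exact ⟨q, mem_SS.2 ⟨α, hα, hq⟩⟩)
    fun U W => (∏ X ∈ U, Qx X / ∏ q ∈ SS (s1 e) X, φ q) * ∏ X ∈ W, -θ X, mul_sum]
  refine sum_congr rfl fun U hU => ?_
  rw [mul_sum]
  refine sum_congr rfl fun W _ => ?_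
  split_ifs with hc
  · have hs : U.biUnion (SS (s1 e)) ⊆ SS (str e) V :=
      biUnion_subset.2 fun X hX => repc_sub (mem_conns.1 (mem_powerset.1 hU hX)).1
    have e1 : ∏ j ∈ U.biUnion (SS (s1 e)), φ j = ∏ X ∈ U, ∏ j ∈ SS (s1 e) X, φ j :=
      prod_biUnion fun X hX X' hX' hn => hc.1 X hX X' hX' hn
    have e2 : 0 < ∏ X ∈ U, ∏ j ∈ SS (s1 e) X, φ j := prod_pos fun X _ => hφ0 _
    rw [← prod_sdiff hs, e1, prod_div_distrib]
    field_simp
  · exact mul_zero _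

theorem rep_abstract {ν : Nums} {f : Pat → ℝ} {ψ : Finset (At1 Q) → (Q → Pat) → ℝ} (V : Finset Q)
    (Ψ : Finset (At1 Q) → (Ed Q → ZMod 2) → ℝ) (hf0 : f 0 = 1)
    (hpos : ∀ σ : Pat, 0 < ∑ A ∈ Ev, f A * ch A σ)
    (hloc : ∀ 𝒳 A A', (∀ q ∈ SS (s1 e) 𝒳, A q = A' q) → ψ 𝒳 A = ψ 𝒳 A')
    (h0 : ∀ σ, Ψ ∅ σ = 1)
    (hmul : ∀ 𝒳₁ 𝒳₂ σ, Disjoint (SS (s1 e) 𝒳₁) (SS (s1 e) 𝒳₂) →
      Ψ (𝒳₁ ∪ 𝒳₂) σ = Ψ 𝒳₁ σ * Ψ 𝒳₂ σ)
    (hexp : ∀ 𝒳 σ, Ψ 𝒳 σ = ∑ A ∈ asg 0 (SS (s1 e) 𝒳) Ev,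
      ψ 𝒳 A * (∏ q ∈ SS (s1 e) 𝒳, f (A q)) * chX e (SS (s1 e) 𝒳) A σ) :
    ∑ σ ∈ asg 0 (slots e (SS (str e) V)) univ, ∑ 𝒳 ∈ (at1 V).powerset,
      Ψ 𝒳 σ * ∏ q ∈ SS (str e) V \ SS (s1 e) 𝒳, ∑ A ∈ Ev, f A * ch A (fun i => σ (slot e q i)) =
      2 ^ (slots e (SS (str e) V)).card *
        Xi (SS (asp e)) (wgt ν e f ψ) (conns (asp e) (atms e V)) := by
  classical
  rw [← sum_eq_Xi (atms e V) (fun α hα => asp_nonempty (vatm_of_mem hα)) (wgt ν e f ψ)
    (wgt_empty ν f ψ) fun C₁ h₁ C₂ h₂ hd => wgt_mul hloc (fun α hα => vatm_of_mem (h₁ hα))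
      (fun α hα => vatm_of_mem (h₂ hα)) hd]
  have hb := fun σ : Ed Q → ZMod 2 => repc_blobs (e := e) V (fun X => Ψ X σ) (Th ν)
    (fun q => ∑ A ∈ Ev, f A * ch A fun i => σ (slot e q i)) (fun q => hpos _) (h0 σ)
    fun X₁ X₂ => hmul X₁ X₂ σ
  simp only [hb]
  unfold atms
  rw [rep_sum_disjSum, sum_comm, mul_sum]
  refine sum_congr rfl fun U hU => ?_
  rw [rep_sum_disjSum, sum_comm, mul_sum]
  refine sum_congr rfl fun W _ => ?_
  by_cases hc : Compat (SS (s1 e)) U ∧ Compat (SS (s1 e)) W ∧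
      ∀ X ∈ U, ∀ X' ∈ W, Disjoint (SS (s1 e) X) (SS (s1 e) X')
  · simp only [if_pos hc]
    have hp : ∀ σ : Ed Q → ZMod 2,
        ((∏ X ∈ U, (Ψ X σ + Th ν X *
            ∏ q ∈ SS (s1 e) X, ∑ A ∈ Ev, f A * ch A fun i => σ (slot e q i))) *
          ∏ q ∈ SS (str e) V \ U.biUnion (SS (s1 e)),
            ∑ A ∈ Ev, f A * ch A fun i => σ (slot e q i)) =
        ∑ A ∈ asg 0 (SS (str e) V) Ev, ((∏ X ∈ U, (ψ X A + Th ν X)) *
          ∏ q ∈ SS (str e) V, f (A q)) * chX e (SS (str e) V) A σ := by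
      intro σ
      have h1 := repc_prod_blobs (SS (s1 e)) (fun X A => ψ X A + Th ν X)
        (fun X A A' h => by rw [hloc X A A' h])
        (fun q B => f B * ch B fun i => σ (slot e q i)) hc.1 (Λ := SS (str e) V)
        fun X hX => repc_sub (mem_conns.1 (mem_powerset.1 hU hX)).1
      have h2 : ∀ X ∈ U, Ψ X σ + Th ν X *
            ∏ q ∈ SS (s1 e) X, ∑ A ∈ Ev, f A * ch A (fun i => σ (slot e q i)) =
          ∑ A ∈ asg 0 (SS (s1 e) X) Ev, (ψ X A + Th ν X) *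
            ∏ q ∈ SS (s1 e) X, f (A q) * ch (A q) fun i => σ (slot e q i) := by
        intro X _
        rw [hexp, ← sum_asg_prod (0 : Pat) (SS (s1 e) X) Ev
          fun q B => f B * ch B fun i => σ (slot e q i), mul_sum, ← sum_add_distrib]
        refine sum_congr rfl fun A _ => ?_
        rw [prod_mul_distrib, chX]
        ring
      rw [prod_congr rfl h2, h1]
      refine sum_congr rfl fun A _ => ?_
      rw [prod_mul_distrib, chX]
      ring
    simp only [hp]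
    rw [← sum_mul, repc_sum_pat, mul_assoc, sum_mul]
    congr 1
    refine sum_congr rfl fun D hD => ?_
    unfold wgt
    simp only [toLeft_disjSum, toRight_disjSum]
    by_cases hB : Balc e D
    · rw [if_pos hB, if_pos ⟨hc.1, hc.2.1, hc.2.2, hB⟩]
      have : ∏ q ∈ SS (str e) V, f (pat e D q) = ∏ q ∈ ends e D, f (pat e D q) :=
        (prod_subset (repc_ends (mem_powerset.1 hD)) fun q _ hq => by
          rw [pat_eq_zero hq, hf0]).symm
      rw [this]
      ring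
    · rw [if_neg hB, if_neg fun h => hB h.2.2.2]
      ring
  · simp only [if_neg hc, sum_const_zero]
    rw [sum_eq_zero, mul_zero]
    intro D _
    unfold wgt
    simp only [toLeft_disjSum, toRight_disjSum]
    exact if_neg fun h => hc ⟨h.1, h.2.1, h.2.2.1⟩

end Pool.Agent.MP_646035_al.PC
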