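import Pool.Agent.MP_646035_al.PC.Mod

namespace Pool.Agent.MP_646035_al.PC

open Finset PT

variable {n k : ℕ} {Q : Type} [AddCommGroup Q] [DecidableEq Q] {e : Fin 2 → Q}

lemma massa_split (S R : Finset Q) (u w c : Q → ℕ) (h1 : ∀ q ∉ R, u q = w q)
    (h2 : ∀ q ∈ R, w q = c q) (h3 : ∀ q ∉ S, u q = c q) :
    ∑ q ∈ S, u q + ∑ q ∈ R, c q = ∑ q ∈ S, w q + ∑ q ∈ R, u q := by
  have hS : ∀ f : Q → ℕ, ∑ q ∈ S, f q = ∑ q ∈ S ∪ R, if q ∈ S then f q else 0 := fun f => by
    rw [← sum_filter, filter_mem_eq_inter, union_inter_cancel_left]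
  have hR : ∀ f : Q → ℕ, ∑ q ∈ R, f q = ∑ q ∈ S ∪ R, if q ∈ R then f q else 0 := fun f => by
    rw [← sum_filter, filter_mem_eq_inter, union_inter_cancel_right]
  rw [hS u, hS w, hR c, hR u, ← sum_add_distrib, ← sum_add_distrib]
  refine sum_congr rfl fun q _ => ?_
  by_cases hs : q ∈ S <;> by_cases hr : q ∈ R <;> simp only [hs, hr, if_true, if_false]
  · rw [h2 q hr]; omega
  · rw [h1 q hr]
  · rw [h3 q hs]

/-- The cells `y + j • eT e` with `lo ≤ j ≤ hi`. -/
noncomputable def massa_cells (e : Fin 2 → Q) (y : Q) (lo hi : ℤ) : Finset Q :=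
  (Icc lo hi).image fun j : ℤ => y + j • eT e

lemma massa_mem {y p : Q} {lo hi : ℤ} :
    p ∈ massa_cells e y lo hi ↔ ∃ j : ℤ, lo ≤ j ∧ j ≤ hi ∧ p = y + j • eT e := by
  simp only [massa_cells, mem_image, mem_Icc]
  constructor
  · rintro ⟨j, ⟨h1, h2⟩, rfl⟩; exact ⟨j, h1, h2, rfl⟩
  · rintro ⟨j, h1, h2, rfl⟩; exact ⟨j, ⟨h1, h2⟩, rfl⟩

lemma massa_inj (he : DirT e) (y : Q) : Function.Injective fun j : ℤ => y + j • eT e := by
  obtain ⟨ht, h⟩ := he
  intro i j hij
  have h1 := congrArg ht (add_left_cancel hij)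
  simpa [map_zsmul, h] using h1

lemma massa_sum (he : DirT e) (y z : Q) (lo hi : ℤ) (f : Q → ℕ) :
    ∑ q ∈ (massa_cells e y lo hi).image (· + z), f q =
      ∑ j ∈ Icc lo hi, f (y + j • eT e + z) := by
  rw [massa_cells, image_image, sum_image]
  · rfl
  · intro i _ j _ hij
    exact massa_inj he y (add_right_cancel hij)

lemma massa_mem_shift {R : Finset Q} {z q : Q} : q ∈ R.image (· + z) ↔ q - z ∈ R := by
  simp only [mem_image]
  constructor
  · rintro ⟨p, hp, rfl⟩; simpa using hp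
  · intro h; exact ⟨q - z, h, by simp⟩

lemma massa_card (y : Q) (a b : ℕ) :
    (massa_cells e y (-(a : ℤ) - 1) (b + 1)).card ≤ a + b + 3 := by
  refine card_image_le.trans ?_
  rw [Int.card_Icc]
  omega

lemma massa_sub {y p : Q} {lo hi lo' hi' : ℤ} (h : p ∈ massa_cells e y lo hi) (h1 : lo' ≤ lo)
    (h2 : hi ≤ hi') : p ∈ massa_cells e y lo' hi' := by
  obtain ⟨j, h3, h4, rfl⟩ := massa_mem.1 h
  exact massa_mem.2 ⟨j, by omega, by omega, rfl⟩

lemma massa_add {y p : Q} {lo hi lo' hi' : ℤ} (h : p ∈ massa_cells e y lo hi) (h1 : lo' ≤ lo + 1)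
    (h2 : hi + 1 ≤ hi') : p + eT e ∈ massa_cells e y lo' hi' := by
  obtain ⟨j, h3, h4, rfl⟩ := massa_mem.1 h
  exact massa_mem.2 ⟨j + 1, by omega, by omega, by rw [add_zsmul, one_zsmul, add_assoc]⟩

lemma massa_neg {y p : Q} {lo hi lo' hi' : ℤ} (h : p ∈ massa_cells e y lo hi) (h1 : lo' ≤ lo - 1)
    (h2 : hi - 1 ≤ hi') : p - eT e ∈ massa_cells e y lo' hi' := by
  obtain ⟨j, h3, h4, rfl⟩ := massa_mem.1 h
  exact massa_mem.2 ⟨j - 1, by omega, by omega, by rw [sub_zsmul, one_zsmul]; abel⟩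

lemma massa_inact {δ : Cf Q k} {κ : Q → Dg k → ℤ} {y : Q} {a b : ℕ} (hr : Run e δ κ y a b) {p : Q}
    (h1 : p ∈ massa_cells e y (-(a : ℤ) - 2) (b + 2)) (h2 : p ∉ massa_cells e y (-(a : ℤ)) b) :
    ¬ Actv e δ κ p := by
  obtain ⟨j, h3, h4, rfl⟩ := massa_mem.1 h1
  have h5 : ¬ (-(a : ℤ) ≤ j ∧ j ≤ b) := fun h => h2 (massa_mem.2 ⟨j, h.1, h.2, rfl⟩)
  have h6 : j = -(a : ℤ) - 1 ∨ j = -(a : ℤ) - 2 ∨ j = (b : ℤ) + 1 ∨ j = (b : ℤ) + 2 := by omega
  rcases h6 with rfl | rfl | rfl | rfl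
  exacts [hr.l1, hr.l2, hr.r1, hr.r2]

/-- The carries with the run removed. -/
noncomputable def massa_kap (e : Fin 2 → Q) (κ : Q → Dg k → ℤ) (y : Q) (a b : ℕ) :
    Q → Dg k → ℤ :=
  fun q d => if q - ownO e d ∈ massa_cells e y (-(a : ℤ)) b then 0 else κ q d

/-- The move with the run removed. -/
noncomputable def massa_del (N : ℕ) (e : Fin 2 → Q) (δ : Cf Q k) (κ : Q → Dg k → ℤ) (y : Q)
    (a b : ℕ) : Cf Q k :=
  (fun s => if s.1 ∈ massa_cells e y (-(a : ℤ)) b then 0 else δ.1 s,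
    carr N e (massa_kap e κ y a b))

lemma massa_h_in {N : ℕ} {δ : Cf Q k} {κ : Q → Dg k → ℤ} {y : Q} {a b : ℕ}
    (hr : Run e δ κ y a b) {s : Ed Q} (h : s.1 ∈ massa_cells e y (-(a : ℤ) - 2) (b + 2)) :
    (massa_del N e δ κ y a b).1 s = 0 := by
  show (if s.1 ∈ massa_cells e y (-(a : ℤ)) b then 0 else δ.1 s) = 0
  split_ifs with h2
  · rfl
  · by_contra h3
    exact massa_inact hr h h2 (Or.inl ⟨s.2, h3⟩)

lemma massa_h_out {N : ℕ} {δ : Cf Q k} {κ : Q → Dg k → ℤ} {y : Q} {a b : ℕ}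
    {s : Ed Q} (h : s.1 ∉ massa_cells e y (-(a : ℤ)) b) :
    (massa_del N e δ κ y a b).1 s = δ.1 s := if_neg h

lemma massa_k_in {δ : Cf Q k} {κ : Q → Dg k → ℤ} {y : Q} {a b : ℕ}
    (hr : Run e δ κ y a b) {q : Q} {d : Dg k}
    (h : q - ownO e d ∈ massa_cells e y (-(a : ℤ) - 2) (b + 2)) :
    massa_kap e κ y a b q d = 0 := by
  unfold massa_kap
  split_ifs with h2
  · rfl
  · by_contra h3
    exact massa_inact hr h h2 (Or.inr ⟨d, by rwa [sub_add_cancel]⟩)

lemma massa_d_in {N : ℕ} {δ : Cf Q k} {κ : Q → Dg k → ℤ} {y : Q} {a b : ℕ}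
    (hr : Run e δ κ y a b) {q : Q} {d : Dg k}
    (h : q - ownO e d ∈ massa_cells e y (-(a : ℤ) - 1) (b + 1)) :
    (massa_del N e δ κ y a b).2 q d = 0 := by
  show (N : ℤ) * massa_kap e κ y a b q d - massa_kap e κ y a b (q - eT e) d -
    massa_kap e κ y a b (q + eT e) d = 0
  rw [massa_k_in hr (massa_sub h (by omega) (by omega)), massa_k_in hr (q := q - eT e),
    massa_k_in hr (q := q + eT e)]
  · simp
  · rw [add_sub_right_comm]
    exact massa_add h (by omega) (by omega)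
  · rw [sub_right_comm]
    exact massa_neg h (by omega) (by omega)

lemma massa_d_out {N : ℕ} {V : Finset Q} {δ : Cf Q k} {κ : Q → Dg k → ℤ} {y : Q} {a b : ℕ}
    (hκ : Rep N e V δ κ) {q : Q} {d : Dg k}
    (h : q - ownO e d ∉ massa_cells e y (-(a : ℤ) - 1) (b + 1)) :
    (massa_del N e δ κ y a b).2 q d = δ.2 q d := by
  rw [hκ.2.2]
  show (N : ℤ) * massa_kap e κ y a b q d - massa_kap e κ y a b (q - eT e) d -
    massa_kap e κ y a b (q + eT e) d = N * κ q d - κ (q - eT e) d - κ (q + eT e) d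
  unfold massa_kap
  rw [if_neg, if_neg, if_neg]
  · intro h2
    apply h
    have h3 := massa_neg (lo' := -(a : ℤ) - 1) (hi' := b + 1) h2 (by omega) (by omega)
    rwa [add_sub_right_comm, add_sub_cancel_right] at h3
  · intro h2
    apply h
    have h3 := massa_add (lo' := -(a : ℤ) - 1) (hi' := b + 1) h2 (by omega) (by omega)
    rwa [sub_right_comm, sub_add_cancel] at h3
  · exact fun h2 => h (massa_sub h2 (by omega) (by omega))

lemma massa_mv {N : ℕ} {V : Finset Q} {δ : Cf Q k} {κ : Q → Dg k → ℤ} (y : Q) (a b : ℕ)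
    (hκ : Rep N e V δ κ) : massa_del N e δ κ y a b ∈ Mv N e V := by
  refine ⟨massa_kap e κ y a b, fun s hs => ?_, fun q d hq => ?_, rfl⟩
  · show (if s.1 ∈ massa_cells e y (-(a : ℤ)) b then 0 else δ.1 s) = 0
    rw [hκ.1 s hs, ite_self]
  · unfold massa_kap
    rw [hκ.2.1 q d hq, ite_self]

lemma massa_own0 (i : Fin k) : ownO e ((some i, 0) : Dg k) = e 0 := by simp [ownO]

lemma massa_own1 (i : Fin k) : ownO e ((some i, 1) : Dg k) = 0 := by simp [ownO]

lemma massa_own (d : Dg k) : ownO e d = e 0 ∨ ownO e d = 0 := by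
  unfold ownO
  split_ifs <;> simp

lemma massa_e1 (q : Q) : q - e 1 = q - e 0 - eT e := by
  unfold eT
  abel

lemma massa_out1 {y q : Q} {a b : ℕ} (h : q - e 0 ∉ massa_cells e y (-(a : ℤ) - 1) (b + 1)) :
    q - e 1 ∉ massa_cells e y (-(a : ℤ)) b := fun h2 => by
  apply h
  have h3 := massa_add (lo' := -(a : ℤ) - 1) (hi' := b + 1) h2 (by omega) (by omega)
  rwa [massa_e1, sub_add_cancel] at h3

lemma massa_val {N B : ℕ} {V : Finset Q} {c δ : Cf Q k} {κ : Q → Dg k → ℤ}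
    (hc : Val B e V c) (hδ : Val B e V (c + δ)) (hκ : Rep N e V δ κ) {y : Q} {a b : ℕ}
    (hr : Run e δ κ y a b) : Val B e V (c + massa_del N e δ κ y a b) := by
  refine ⟨fun p hp j => ?_, fun q hq => ⟨fun d => ?_, ?_, ?_⟩⟩
  · show rho (c.1 (p, j) + (massa_del N e δ κ y a b).1 (p, j)) ≤ B
    by_cases h : p ∈ massa_cells e y (-(a : ℤ)) b
    · rw [massa_h_in hr (massa_sub h (by omega) (by omega)), add_zero]
      exact hc.1 p hp j
    · rw [massa_h_out h]
      exact hδ.1 p hp j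
  · show |c.2 q d + (massa_del N e δ κ y a b).2 q d| ≤ B
    by_cases h : q - ownO e d ∈ massa_cells e y (-(a : ℤ) - 1) (b + 1)
    · rw [massa_d_in hr h, add_zero]
      exact (hc.2 q hq).1 d
    · rw [massa_d_out hκ h]
      exact (hδ.2 q hq).1 d
  · show ∑ i, (c.2 q (some i, 0) + (massa_del N e δ κ y a b).2 q (some i, 0)) =
      (c.1 (q - e 0, 0) + (massa_del N e δ κ y a b).1 (q - e 0, 0)) -
        (c.1 (q - e 1, 1) + (massa_del N e δ κ y a b).1 (q - e 1, 1))
    by_cases h : q - e 0 ∈ massa_cells e y (-(a : ℤ) - 1) (b + 1)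
    · rw [massa_h_in hr (s := (q - e 0, 0)) (massa_sub h (by omega) (by omega)),
        massa_h_in hr (s := (q - e 1, 1))
          (by rw [massa_e1]; exact massa_neg h (by omega) (by omega)), add_zero, add_zero,
        sum_congr rfl fun i _ => by rw [massa_d_in hr (by rwa [massa_own0]), add_zero]]
      exact (hc.2 q hq).2.1
    · rw [massa_h_out (s := (q - e 0, 0)) fun h2 => h (massa_sub h2 (by omega) (by omega)),
        massa_h_out (s := (q - e 1, 1)) (massa_out1 h),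
        sum_congr rfl fun i _ => by rw [massa_d_out hκ (by rwa [massa_own0])]]
      exact (hδ.2 q hq).2.1
  · show ∑ i, (c.2 q (some i, 1) + (massa_del N e δ κ y a b).2 q (some i, 1)) =
      (c.1 (q, 1) + (massa_del N e δ κ y a b).1 (q, 1)) -
        (c.1 (q, 0) + (massa_del N e δ κ y a b).1 (q, 0))
    by_cases h : q ∈ massa_cells e y (-(a : ℤ) - 1) (b + 1)
    · rw [massa_h_in hr (s := (q, 0)) (massa_sub h (by omega) (by omega)),
        massa_h_in hr (s := (q, 1)) (massa_sub h (by omega) (by omega)), add_zero, add_zero,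
        sum_congr rfl fun i _ => by
          rw [massa_d_in hr (by rwa [massa_own1, sub_zero]), add_zero]]
      exact (hc.2 q hq).2.2
    · rw [massa_h_out (s := (q, 0)) fun h2 => h (massa_sub h2 (by omega) (by omega)),
        massa_h_out (s := (q, 1)) fun h2 => h (massa_sub h2 (by omega) (by omega)),
        sum_congr rfl fun i _ => by rw [massa_d_out hκ (by rwa [massa_own1, sub_zero])]]
      exact (hδ.2 q hq).2.2

lemma massa_node {N : ℕ} {V : Finset Q} {c δ : Cf Q k} {κ : Q → Dg k → ℤ}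
    (hκ : Rep N e V δ κ) {y : Q} {a b : ℕ} {q : Q}
    (h0 : q ∉ massa_cells e y (-(a : ℤ) - 1) (b + 1))
    (h1 : q - e 0 ∉ massa_cells e y (-(a : ℤ) - 1) (b + 1)) :
    hs e (c + massa_del N e δ κ y a b).1 q = hs e (c + δ).1 q ∧
      (c + massa_del N e δ κ y a b).2 q = (c + δ).2 q := by
  constructor
  · funext i
    show c.1 _ + (massa_del N e δ κ y a b).1 (slot e q i) = c.1 _ + δ.1 (slot e q i)
    rw [massa_h_out]
    fin_cases i
    · exact massa_out1 h1
    · exact fun h2 => h1 (massa_sub h2 (by omega) (by omega))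
    · exact fun h2 => h0 (massa_sub h2 (by omega) (by omega))
    · exact fun h2 => h0 (massa_sub h2 (by omega) (by omega))
  · funext d
    show c.2 q d + (massa_del N e δ κ y a b).2 q d = c.2 q d + δ.2 q d
    rw [massa_d_out hκ]
    rcases massa_own (e := e) d with h | h <;> rw [h]
    · exact h1
    · rwa [sub_zero]

open Classical in
/-- The surcharge of a node. -/
noncomputable def massa_hd (e : Fin 2 → Q) (c : Cf Q k) (q : Q) : ℕ :=
  if Hard (hs e c.1 q) (c.2 q) then 2 else 0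

lemma massa_Ec (V : Finset Q) (c : Cf Q k) : Ec e V c =
    ∑ p ∈ V, (if p ∈ V then ∑ i, 2 * rho (c.1 (p, i)) else 0) +
      ∑ d, ∑ q ∈ SS (str e) V, (c.2 q d).natAbs + ∑ q ∈ SS (str e) V, massa_hd e c q := by
  unfold Ec nc szJ massa_hd
  rw [sum_product, sum_add_distrib, sum_comm (s := SS (str e) V), add_assoc]
  congr 1
  exact sum_congr rfl fun p hp => by rw [if_pos hp]

lemma massa_hard (S X : Finset Q) (u w : Q → ℕ) (h1 : ∀ q ∉ X, w q = u q) (h2 : ∀ q, w q ≤ 2) :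
    ∑ q ∈ S, w q ≤ ∑ q ∈ S, u q + 2 * X.card := by
  have h3 : ∑ q ∈ S, w q ≤ ∑ q ∈ S, (u q + if q ∈ X then 2 else 0) := by
    refine sum_le_sum fun q _ => ?_
    split_ifs with h
    · have := h2 q
      omega
    · rw [h1 q h]; omega
  rw [sum_add_distrib, ← sum_filter, sum_const, smul_eq_mul, filter_mem_eq_inter] at h3
  have h4 : (S ∩ X).card ≤ X.card := card_le_card inter_subset_right
  omega

theorem run_cost (he : DirT e) {N B : ℕ} {V : Finset Q} {c δ : Cf Q k} {κ : Q → Dg k → ℤ}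
    (hc : Val B e V c) (hδ : Val B e V (c + δ)) (hκ : Rep N e V δ κ)
    (hopt : ∀ δ' ∈ Cl N B e V c, Ec e V (c + δ) ≤ Ec e V (c + δ')) {y : Q} {a b : ℕ}
    (hr : Run e δ κ y a b) :
    ac e V (c + δ) y a b ≤ ac e V c y a b + 4 * (a + b + 3) := by
  have h0 := hopt (massa_del N e δ κ y a b) ⟨massa_mv y a b hκ, massa_val hc hδ hκ hr⟩
  rw [massa_Ec, massa_Ec] at h0
  have h1 := massa_split V ((massa_cells e y (-(a : ℤ)) b).image (· + 0))
    (fun p => if p ∈ V then ∑ i, 2 * rho ((c + δ).1 (p, i)) else 0)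
    (fun p => if p ∈ V then ∑ i, 2 * rho ((c + massa_del N e δ κ y a b).1 (p, i)) else 0)
    (fun p => if p ∈ V then ∑ i, 2 * rho (c.1 (p, i)) else 0)
    (fun p hp => by
      rw [massa_mem_shift, sub_zero] at hp
      refine if_congr Iff.rfl (sum_congr rfl fun i _ => ?_) rfl
      show 2 * rho (c.1 _ + δ.1 (p, i)) = 2 * rho (c.1 _ + (massa_del N e δ κ y a b).1 (p, i))
      rw [massa_h_out (s := (p, i)) hp])
    (fun p hp => by
      rw [massa_mem_shift, sub_zero] at hp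
      refine if_congr Iff.rfl (sum_congr rfl fun i _ => ?_) rfl
      show 2 * rho (c.1 _ + (massa_del N e δ κ y a b).1 (p, i)) = _
      rw [massa_h_in hr (s := (p, i)) (massa_sub hp (by omega) (by omega)), add_zero])
    (fun p hp => by simp only [if_neg hp])
  rw [massa_sum he, massa_sum he] at h1
  simp only [add_zero] at h1
  have h2 : ∀ d : Dg k, ∑ q ∈ SS (str e) V, ((c + δ).2 q d).natAbs +
      ∑ j ∈ Icc (-(a : ℤ) - 1) (b + 1), (c.2 (y + j • eT e + ownO e d) d).natAbs =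
      ∑ q ∈ SS (str e) V, ((c + massa_del N e δ κ y a b).2 q d).natAbs +
      ∑ j ∈ Icc (-(a : ℤ) - 1) (b + 1), ((c + δ).2 (y + j • eT e + ownO e d) d).natAbs := by
    intro d
    have h3 := massa_split (SS (str e) V)
      ((massa_cells e y (-(a : ℤ) - 1) (b + 1)).image (· + ownO e d))
      (fun q => ((c + δ).2 q d).natAbs) (fun q => ((c + massa_del N e δ κ y a b).2 q d).natAbs)
      (fun q => (c.2 q d).natAbs)
      (fun q hq => by
        rw [massa_mem_shift] at hq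
        show (c.2 q d + δ.2 q d).natAbs = (c.2 q d + (massa_del N e δ κ y a b).2 q d).natAbs
        rw [massa_d_out hκ hq])
      (fun q hq => by
        rw [massa_mem_shift] at hq
        show (c.2 q d + (massa_del N e δ κ y a b).2 q d).natAbs = _
        rw [massa_d_in hr hq, add_zero])
      (fun q hq => by
        show (c.2 q d + δ.2 q d).natAbs = _
        rw [(Mv_digit ⟨κ, hκ⟩ hq).1, Pi.zero_apply, add_zero])
    rwa [massa_sum he, massa_sum he] at h3
  have h3 := sum_congr (rfl : (univ : Finset (Dg k)) = univ) fun d _ => h2 d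
  rw [sum_add_distrib, sum_add_distrib, sum_comm (t := Icc (-(a : ℤ) - 1) (b + 1)),
    sum_comm (t := Icc (-(a : ℤ) - 1) (b + 1))] at h3
  have h4 := massa_hard (SS (str e) V) (massa_cells e y (-(a : ℤ) - 1) (b + 1) ∪
      (massa_cells e y (-(a : ℤ) - 1) (b + 1)).image (· + e 0))
    (massa_hd e (c + δ)) (massa_hd e (c + massa_del N e δ κ y a b))
    (fun q hq => by
      rw [mem_union, not_or, massa_mem_shift] at hq
      obtain ⟨h5, h6⟩ := massa_node (N := N) (c := c) hκ hq.1 hq.2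
      unfold massa_hd
      rw [h5, h6])
    (fun q => by unfold massa_hd; split_ifs <;> omega)
  have h5 := massa_card (e := e) y a b
  have h6 := card_union_le (massa_cells e y (-(a : ℤ) - 1) (b + 1))
    ((massa_cells e y (-(a : ℤ) - 1) (b + 1)).image (· + e 0))
  have h7 : ((massa_cells e y (-(a : ℤ) - 1) (b + 1)).image (· + e 0)).card ≤
    (massa_cells e y (-(a : ℤ) - 1) (b + 1)).card := card_image_le
  unfold ac oc
  omega

end Pool.Agent.MP_646035_al.PC

namespace Pool.Agent.MP_646035_al.PC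

open Finset PT

variable {n k : ℕ} {Q : Type} [AddCommGroup Q] [DecidableEq Q] {e : Fin 2 → Q}

lemma massb_shift (f : ℤ → ℕ) (t : ℤ) {I J : Finset ℤ} (h : ∀ j ∈ I, j + t ∈ J) :
    ∑ j ∈ I, f (j + t) ≤ ∑ j ∈ J, f j := by
  rw [← sum_image (s := I) (g := fun j => j + t) (f := f) fun x _ y _ hxy => add_right_cancel hxy]
  refine sum_le_sum_of_subset fun j hj => ?_
  obtain ⟨i, hi, rfl⟩ := mem_image.1 hj
  exact h i hi

lemma massb_rho (h g : ℤ) : g.natAbs ≤ rho (h + g) + rho h + 1 := by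
  unfold rho
  omega

/-- The counting argument for sequences. -/
lemma massb_count {N : ℕ} (hN : 4 ≤ N) {a b : ℕ} (m g E : ℤ → ℕ) (l2 : m (-(a : ℤ) - 2) = 0)
    (r2 : m ((b : ℤ) + 2) = 0) (hg : ∀ j, N * m j ≤ g j + m (j + -1) + m (j + 1))
    (hE : ∀ j ∈ Icc (-(a : ℤ)) b, m (j + -1) = 0 → m j = 0 → m (j + 1) = 0 → m (j + 2) = 0 →
      N - 2 ≤ E j) :
    (N - 2) * (a + b + 1) ≤
      4 * ∑ j ∈ Icc (-(a : ℤ) - 1) (b + 1), g j + ∑ j ∈ Icc (-(a : ℤ)) b, E j := by
  set T := ∑ j ∈ Icc (-(a : ℤ) - 2) (b + 2), m j with hT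
  have sh : ∀ (t : ℤ) (I : Finset ℤ), (∀ j ∈ I, -(a : ℤ) - 2 ≤ j + t ∧ j + t ≤ b + 2) →
      ∑ j ∈ I, m (j + t) ≤ T := fun t I h => massb_shift m t fun j hj => mem_Icc.2 (h j hj)
  have h0 : ∑ j ∈ Icc (-(a : ℤ) - 1) (b + 1), m j = T := by
    refine sum_subset (Icc_subset_Icc (by omega) (by omega)) fun j hj hj' => ?_
    rw [mem_Icc] at hj hj'
    have : j = -(a : ℤ) - 2 ∨ j = b + 2 := by omega
    rcases this with rfl | rfl
    · exact l2
    · exact r2
  have h1 : N * T ≤ ∑ j ∈ Icc (-(a : ℤ) - 1) (b + 1), g j + T + T := by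
    calc N * T = ∑ j ∈ Icc (-(a : ℤ) - 1) (b + 1), N * m j := by rw [← mul_sum, h0]
      _ ≤ ∑ j ∈ Icc (-(a : ℤ) - 1) (b + 1), (g j + m (j + -1) + m (j + 1)) :=
          sum_le_sum fun j _ => hg j
      _ ≤ _ := by
          rw [sum_add_distrib, sum_add_distrib]
          exact add_le_add (add_le_add le_rfl (sh _ _ fun j hj => by rw [mem_Icc] at hj; omega))
            (sh _ _ fun j hj => by rw [mem_Icc] at hj; omega)
  have h2 : (N - 2) * T ≤ ∑ j ∈ Icc (-(a : ℤ) - 1) (b + 1), g j := by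
    obtain ⟨M, rfl⟩ : ∃ M, N = M + 2 := ⟨N - 2, by omega⟩
    rw [Nat.add_sub_cancel]
    rw [add_mul] at h1
    omega
  have h3 : ∀ j ∈ Icc (-(a : ℤ)) b, N - 2 ≤
      (N - 2) * (m (j + -1) + m (j + 0) + m (j + 1) + m (j + 2)) + E j := fun j hj => by
    rw [add_zero]
    by_cases h : m (j + -1) + m j + m (j + 1) + m (j + 2) = 0
    · exact (hE j hj (by omega) (by omega) (by omega) (by omega)).trans (Nat.le_add_left _ _)
    · exact (Nat.le_mul_of_pos_right _ (Nat.pos_of_ne_zero h)).trans (Nat.le_add_right _ _)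
  have h4 : ∑ j ∈ Icc (-(a : ℤ)) b, (m (j + -1) + m (j + 0) + m (j + 1) + m (j + 2)) ≤ 4 * T := by
    rw [sum_add_distrib, sum_add_distrib, sum_add_distrib]
    have s1 := sh (-1) (Icc (-(a : ℤ)) b) fun j hj => by rw [mem_Icc] at hj; omega
    have s2 := sh 0 (Icc (-(a : ℤ)) b) fun j hj => by rw [mem_Icc] at hj; omega
    have s3 := sh 1 (Icc (-(a : ℤ)) b) fun j hj => by rw [mem_Icc] at hj; omega
    have s4 := sh 2 (Icc (-(a : ℤ)) b) fun j hj => by rw [mem_Icc] at hj; omega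
    omega
  have h5 : (Icc (-(a : ℤ)) b).card = a + b + 1 := by
    rw [Int.card_Icc]
    omega
  calc (N - 2) * (a + b + 1) = ∑ j ∈ Icc (-(a : ℤ)) b, (N - 2) := by
        rw [sum_const, h5, smul_eq_mul, mul_comm]
    _ ≤ _ := sum_le_sum h3
    _ ≤ (N - 2) * (4 * T) + ∑ j ∈ Icc (-(a : ℤ)) b, E j := by
        rw [sum_add_distrib, ← mul_sum]
        exact add_le_add (Nat.mul_le_mul_left _ h4) le_rfl
    _ ≤ _ := by
        rw [mul_left_comm]
        exact add_le_add (Nat.mul_le_mul_left _ h2) le_rfl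

/-- The carry recursion: far from the carries the height is a multiple of `N - 2`. -/
lemma massb_dvd {N l : ℤ} (H0 H1 u v : ℤ → ℤ)
    (h0 : ∀ j, H0 j - H1 (j + -1) = N * u j - u (j + -1) - u (j + 1))
    (h1 : ∀ j, H1 j - H0 j = N * v j - v (j + -1) - v (j + 1))
    (hl : H1 l = 0) (u0 : u l = 0) (v0 : v l = 0) (u1 : u (l + 1) = 0) (v1 : v (l + 1) = 0)
    {j : ℤ} (hj : l ≤ j) : N - 2 ∣ H1 j - (u j + v j) + (u (j + 1) + v (j + 1)) := by
  induction j, hj using Int.le_induction with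
  | base => simp [hl, u0, v0, u1, v1]
  | succ j _ ih =>
    have a0 := h0 (j + 1)
    have a1 := h1 (j + 1)
    rw [add_neg_cancel_right] at a0 a1
    have : H1 (j + 1) - (u (j + 1) + v (j + 1)) + (u (j + 1 + 1) + v (j + 1 + 1)) =
        H1 j - (u j + v j) + (u (j + 1) + v (j + 1)) + (N - 2) * (u (j + 1) + v (j + 1)) := by
      linear_combination a0 + a1
    rw [this]
    exact dvd_add ih (dvd_mul_right _ _)

lemma massb_charge {N B : ℕ} {V : Finset Q} {c δ : Cf Q k} {κ : Q → Dg k → ℤ}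
    (hc : Val B e V c) (hδ : Val B e V (c + δ)) (hκ : Rep N e V δ κ) (q : Q) :
    ∑ i, δ.2 q (some i, 0) = δ.1 (q - e 0, 0) - δ.1 (q - e 1, 1) ∧
      ∑ i, δ.2 q (some i, 1) = δ.1 (q, 1) - δ.1 (q, 0) := by
  by_cases hq : q ∈ SS (str e) V
  · obtain ⟨-, a1, a2⟩ := hc.2 q hq
    obtain ⟨-, b1, b2⟩ := hδ.2 q hq
    simp only [Prod.snd_add, Prod.fst_add, Pi.add_apply, sum_add_distrib, hs] at a1 a2 b1 b2
    exact ⟨by
      change _ = δ.1 (slot e q 1) - δ.1 (slot e q 0)
      linear_combination b1 - a1, by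
      change _ = δ.1 (slot e q 3) - δ.1 (slot e q 2)
      linear_combination b2 - a2⟩
  · obtain ⟨a1, a2⟩ := Mv_digit ⟨κ, hκ⟩ hq
    have h0 : δ.1 (q - e 1, 1) = 0 := congrFun a2 0
    have h1 : δ.1 (q - e 0, 0) = 0 := congrFun a2 1
    have h2 : δ.1 (q, 0) = 0 := congrFun a2 2
    have h3 : δ.1 (q, 1) = 0 := congrFun a2 3
    simp [a1, h0, h1, h2, h3]

theorem run_mass {N B : ℕ} (hN : 4 ≤ N) {V : Finset Q} {c δ : Cf Q k} {κ : Q → Dg k → ℤ}
    (hc : Val B e V c) (hδ : Val B e V (c + δ)) (hκ : Rep N e V δ κ) {y : Q} {a b : ℕ}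
    (hr : Run e δ κ y a b) :
    (N - 2) * (a + b + 1) ≤ 6 * (ac e V (c + δ) y a b + ac e V c y a b) := by
  let p : ℤ → Q := fun j => y + j • eT e
  let K : ℤ → Dg k → ℤ := fun j d => κ (p j + ownO e d) d
  let m : ℤ → ℕ := fun j => ∑ d, (K j d).natAbs
  have pl : ∀ j (o : Q), p j + o - eT e = p (j + -1) + o := fun j o => by
    simp only [p, add_smul, neg_smul, one_smul]
    abel
  have pr : ∀ j (o : Q), p j + o + eT e = p (j + 1) + o := fun j o => by
    simp only [p, add_smul, one_smul]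
    abel
  have hD : ∀ j d, δ.2 (p j + ownO e d) d = N * K j d - K (j + -1) d - K (j + 1) d := fun j d => by
    rw [hκ.2.2, carr, pl, pr]
  have hm0 : ∀ j, m j = 0 ↔ ∀ d, K j d = 0 := fun j => by simp [m]
  have ina : ∀ j, ¬ Actv e δ κ (p j) → (∀ i, δ.1 (p j, i) = 0) ∧ ∀ d, K j d = 0 := fun j h => by
    simp only [Actv, not_or, not_exists, not_not] at h
    exact h
  have o0 : ∀ i : Fin k, ownO e ((some i, 0) : Dg k) = e 0 := fun i => by simp [ownO]
  have o1 : ∀ i : Fin k, ownO e ((some i, 1) : Dg k) = 0 := fun i => by simp [ownO]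
  let u : ℤ → ℤ := fun j => ∑ i, K j (some i, 0)
  let v : ℤ → ℤ := fun j => ∑ i, K j (some i, 1)
  have h0 : ∀ j, δ.1 (p j, 0) - δ.1 (p (j + -1), 1) = N * u j - u (j + -1) - u (j + 1) := fun j => by
    have := (massb_charge hc hδ hκ (p j + e 0)).1
    rw [add_sub_cancel_right, show p j + e 0 - e 1 = p (j + -1) by
      rw [← add_zero (p (j + -1)), ← pl, eT]; abel] at this
    rw [← this, mul_sum, ← sum_sub_distrib, ← sum_sub_distrib]
    exact sum_congr rfl fun i _ => by rw [← hD, o0]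
  have h1 : ∀ j, δ.1 (p j, 1) - δ.1 (p j, 0) = N * v j - v (j + -1) - v (j + 1) := fun j => by
    rw [← (massb_charge hc hδ hκ (p j)).2, mul_sum, ← sum_sub_distrib, ← sum_sub_distrib]
    exact sum_congr rfl fun i _ => by rw [← hD, o1, add_zero]
  have uz : ∀ j, (∀ d, K j d = 0) → u j = 0 ∧ v j = 0 := fun j h =>
    ⟨sum_eq_zero fun i _ => h _, sum_eq_zero fun i _ => h _⟩
  obtain ⟨a2, b2⟩ := ina _ hr.l2
  have b1 := (ina _ hr.l1).2
  rw [show -(a : ℤ) - 1 = -(a : ℤ) - 2 + 1 by ring] at b1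
  have hdvd : ∀ j, -(a : ℤ) - 2 ≤ j →
      (N : ℤ) - 2 ∣ δ.1 (p j, 1) - (u j + v j) + (u (j + 1) + v (j + 1)) := fun j hj =>
    massb_dvd (fun j => δ.1 (p j, 0)) (fun j => δ.1 (p j, 1)) u v h0 h1 (a2 1) (uz _ b2).1
      (uz _ b2).2 (uz _ b1).1 (uz _ b1).2 hj
  have key := massb_count hN (a := a) (b := b) m
    (fun j => oc e (c + δ) (p j) + oc e c (p j))
    (fun j => (if p j ∈ V then ∑ i, 2 * rho ((c + δ).1 (p j, i)) else 0) +
      if p j ∈ V then ∑ i, 2 * rho (c.1 (p j, i)) else 0)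
    ((hm0 _).2 b2) ((hm0 _).2 (ina _ hr.r2).2)
    (fun j => by
      simp only [m, oc, mul_sum, ← sum_add_distrib]
      refine sum_le_sum fun d _ => ?_
      have e1 : (N : ℤ) * K j d = (c + δ).2 (p j + ownO e d) d - c.2 (p j + ownO e d) d +
          K (j + -1) d + K (j + 1) d := by
        simp only [Prod.snd_add, Pi.add_apply, hD]
        ring
      have e2 := congrArg Int.natAbs e1
      rw [Int.natAbs_mul, Int.natAbs_natCast] at e2
      omega)
    (fun j hj z1 z2 z3 z4 => by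
      rw [mem_Icc] at hj
      rw [hm0] at z1 z2 z3 z4
      obtain ⟨u1, v1⟩ := uz _ z1
      obtain ⟨u2, v2⟩ := uz _ z2
      obtain ⟨u3, v3⟩ := uz _ z3
      obtain ⟨u4, v4⟩ := uz _ z4
      have e1 := h1 j
      have e2 := h0 (j + 1)
      have e3 := h1 (j + 1)
      have e4 := hdvd j (by omega)
      rw [add_neg_cancel_right, add_assoc j, one_add_one_eq_two] at e2 e3
      rw [v1, v2, v3] at e1
      rw [u2, u3, u4] at e2
      rw [v2, v3, v4] at e3
      rw [u2, v2, u3, v3] at e4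
      simp only [mul_zero, sub_zero, add_zero, sub_eq_zero] at e1 e2 e3 e4
      have hne : δ.1 (p j, 1) ≠ 0 := fun hz => by
        have n1 : ¬ Actv e δ κ (p j) := by
          rintro (⟨i, hi⟩ | ⟨d, hd⟩)
          · fin_cases i
            · exact hi (e1.symm.trans hz)
            · exact hi hz
          · exact hd (z2 d)
        have n2 : ¬ Actv e δ κ (p (j + 1)) := by
          rintro (⟨i, hi⟩ | ⟨d, hd⟩)
          · fin_cases i
            · exact hi (e2.trans hz)
            · exact hi (e3.trans (e2.trans hz))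
          · exact hd (z3 d)
        rcases hj.2.eq_or_lt with h | h
        · exact n1 (h ▸ hr.ra)
        · exact (hr.mid j hj.1 h).elim n1 n2
      have hV : p j ∈ V := by
        by_contra hV
        exact hne (hκ.1 (p j, 1) hV)
      have e5 := Int.le_of_dvd (abs_pos.2 hne) ((dvd_abs _ _).2 e4)
      have r0 := massb_rho (c.1 (p j, 0)) (δ.1 (p j, 0))
      have r1 := massb_rho (c.1 (p j, 1)) (δ.1 (p j, 1))
      rw [← e1] at r0
      rw [Int.abs_eq_natAbs] at e5
      simp only [if_pos hV, Fin.sum_univ_two, Prod.fst_add, Pi.add_apply]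
      rw [← e1]
      omega)
  rw [sum_add_distrib, sum_add_distrib] at key
  unfold ac
  simp only [p] at key
  omega

end Pool.Agent.MP_646035_al.PC

namespace Pool.Agent.MP_646035_al.PC

open Finset PT

variable {n k : ℕ} {Q : Type} [AddCommGroup Q] [DecidableEq Q] {e : Fin 2 → Q}

lemma massc_half (A : ℤ → Prop) (h0 : A 0) (M : ℕ) (hM : ∀ j : ℤ, (M : ℤ) < j → ¬ A j) :
    ∃ b : ℕ, ¬ A ((b : ℤ) + 1) ∧ ¬ A ((b : ℤ) + 2) ∧ A b ∧
      ∀ j : ℤ, 0 ≤ j → j < b → A j ∨ A (j + 1) := by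
  classical
  have hex : ∃ b : ℕ, ¬ A ((b : ℤ) + 1) ∧ ¬ A ((b : ℤ) + 2) :=
    ⟨M, hM _ (by omega), hM _ (by omega)⟩
  have hmin : ∀ i : ℕ, i < Nat.find hex → A ((i : ℤ) + 1) ∨ A ((i : ℤ) + 2) := fun i hi => by
    have := Nat.find_min hex hi
    tauto
  obtain ⟨h1, h2⟩ := Nat.find_spec hex
  generalize Nat.find hex = b at hmin h1 h2
  refine ⟨b, h1, h2, ?_, fun j hj hjb => ?_⟩
  · rcases b with _ | b
    · exact h0
    · rcases hmin b (Nat.lt_succ_self b) with h | h
      · exact_mod_cast h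
      · refine absurd ?_ h1
        rwa [show ((b + 1 : ℕ) : ℤ) + 1 = (b : ℤ) + 2 by push_cast; ring]
  · rcases eq_or_lt_of_le hj with rfl | hj'
    · exact .inl h0
    · have := hmin (j - 1).toNat (by omega)
      rwa [show (((j - 1).toNat : ℕ) : ℤ) + 1 = j by omega,
        show (((j - 1).toNat : ℕ) : ℤ) + 2 = j + 1 by omega] at this

omit [DecidableEq Q] in
lemma massc_actv_mem {N : ℕ} {V : Finset Q} {δ : Cf Q k} {κ : Q → Dg k → ℤ}
    (hκ : Rep N e V δ κ) {p : Q} (hp : Actv e δ κ p) : p ∈ V := by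
  by_contra h
  rcases hp with ⟨j, hj⟩ | ⟨d, hd⟩
  · exact hj (hκ.1 (p, j) h)
  · exact hd (hκ.2.1 _ d (by rwa [add_sub_cancel_right]))

theorem exists_run (he : DirT e) {N : ℕ} {V : Finset Q} {δ : Cf Q k} {κ : Q → Dg k → ℤ}
    (hκ : Rep N e V δ κ) {y : Q} (hy : Actv e δ κ y) : ∃ a b : ℕ, Run e δ κ y a b := by
  obtain ⟨ht, hd⟩ := he
  have hM : ∀ j : ℤ, Actv e δ κ (y + j • eT e) →
      j.natAbs ≤ V.sup fun v => (ht v - ht y).natAbs := fun j hj => by
    refine le_trans (le_of_eq ?_)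
      (le_sup (f := fun v => (ht v - ht y).natAbs) (massc_actv_mem hκ hj))
    simp [hd]
  generalize (V.sup fun v => (ht v - ht y).natAbs) = M at hM
  obtain ⟨b, r1, r2, ra, rm⟩ := massc_half (fun j => Actv e δ κ (y + j • eT e)) (by simpa using hy)
    M fun j hj h => by have := hM j h; omega
  obtain ⟨a, l1, l2, la, lm⟩ := massc_half (fun j => Actv e δ κ (y + (-j) • eT e))
    (by simpa using hy) M fun j hj h => by have := hM _ h; omega
  refine ⟨a, b, ?_, ?_, r1, r2, la, ra, fun j h1 h2 => ?_⟩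
  · rwa [show -(a : ℤ) - 1 = -((a : ℤ) + 1) by ring]
  · rwa [show -(a : ℤ) - 2 = -((a : ℤ) + 2) by ring]
  · rcases le_or_gt 0 j with h | h
    · exact rm j h h2
    · have := lm (-j - 1) (by omega) (by omega)
      rw [show -(-j - 1) = j + 1 by ring, show -(-j - 1 + 1) = j by ring] at this
      exact this.symm

lemma massc_ray (N : ℕ) (X : Finset Q) (d : Q) (ht : Q →+ ℤ) (hd : ht d = 1) (S : Finset Q) :
    ∀ ρ : Q → ℕ, (∀ j ∉ X, ρ j = 0) →
      (∀ p ∈ S, ∃ b : ℕ, N * (b + 1) ≤ ∑ k ∈ range (b + 1), ρ (p + k • d)) →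
        N * S.card ≤ ∑ j ∈ X, ρ j := by
  induction S using Finset.strongInduction with
  | H S ih =>
    intro ρ hρ hS
    rcases S.eq_empty_or_nonempty with rfl | hne
    · simp
    obtain ⟨p, hp, hmin⟩ := exists_min_image S ht hne
    obtain ⟨b, hb⟩ := hS p hp
    set I : Finset Q := (range (b + 1)).image fun k : ℕ => p + k • d with hI
    have hinj : Function.Injective fun k : ℕ => p + k • d := by
      intro k l h
      have := congrArg ht h
      simpa [hd] using this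
    have hpI : p ∈ I := mem_image.2 ⟨0, by simp, by simp⟩
    have hcard : I.card = b + 1 := by rw [hI, card_image_of_injective _ hinj, card_range]
    have hsum : ∑ j ∈ I, ρ j = ∑ k ∈ range (b + 1), ρ (p + k • d) :=
      sum_image fun k _ l _ h => hinj h
    have h1 := ih (S \ I)
      ((ssubset_iff_of_subset sdiff_subset).2 ⟨p, hp, fun h => (mem_sdiff.1 h).2 hpI⟩)
      (fun j => if j ∈ I then 0 else ρ j)
      (fun j hj => by simp [hρ j hj]) (fun q hq => by
        obtain ⟨hq1, hq2⟩ := mem_sdiff.1 hq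
        obtain ⟨c, hc⟩ := hS q hq1
        refine ⟨c, hc.trans (le_of_eq (sum_congr rfl fun i _ => ?_))⟩
        rw [if_neg]
        intro hi
        obtain ⟨k, hk, hki⟩ := mem_image.1 hi
        have h2 := congrArg ht hki
        have h3 := hmin q hq1
        simp only [map_add, map_nsmul, hd, nsmul_eq_mul, mul_one] at h2
        have h4 : i ≤ k := by omega
        obtain ⟨l, rfl⟩ := Nat.exists_eq_add_of_le h4
        refine hq2 (mem_image.2 ⟨l, mem_range.2 (by have := mem_range.1 hk; omega), ?_⟩)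
        rw [add_comm i l, add_smul, ← add_assoc] at hki
        exact add_right_cancel hki)
    have h2 : ∑ j ∈ I, ρ j ≤ ∑ j ∈ X, if j ∈ I then ρ j else 0 := by
      rw [← sum_filter]
      refine sum_le_sum_of_ne_zero fun j hj h0 => mem_filter.2 ⟨?_, hj⟩
      by_contra hx
      exact h0 (hρ j hx)
    have h3 : ∑ j ∈ X, ρ j =
        (∑ j ∈ X, if j ∈ I then 0 else ρ j) + ∑ j ∈ X, if j ∈ I then ρ j else 0 := by
      rw [← sum_add_distrib]
      exact sum_congr rfl fun j _ => by split_ifs <;> simp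
    have h4 : S.card ≤ (S \ I).card + I.card := card_le_card_sdiff_add_card
    have h5 : N * S.card ≤ N * (S \ I).card + N * (b + 1) := by
      rw [← mul_add, ← hcard]
      exact Nat.mul_le_mul_left _ h4
    omega

lemma massc_cover (N : ℕ) (X : Finset Q) (d : Q) (ht : Q →+ ℤ) (hd : ht d = 1) (S : Finset Q)
    (ρ : Q → ℕ) (hρ : ∀ j ∉ X, ρ j = 0)
    (hS : ∀ p ∈ S, ∃ a b : ℕ,
      N * (a + 1) + N * (b + 1) ≤ ∑ k ∈ Icc (-(a : ℤ)) b, ρ (p + k • d)) :
    N * S.card ≤ 2 * ∑ j ∈ X, ρ j := by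
  classical
  have h1 := massc_ray N X d ht hd
    (S.filter fun p => ∃ b : ℕ, N * (b + 1) ≤ ∑ k ∈ range (b + 1), ρ (p + k • d)) ρ hρ
    fun p hp => (mem_filter.1 hp).2
  have h2 := massc_ray N X (-d) (-ht) (by simp [hd])
    (S.filter fun p => ¬ ∃ b : ℕ, N * (b + 1) ≤ ∑ k ∈ range (b + 1), ρ (p + k • d)) ρ hρ
    fun p hp => by
      obtain ⟨hp1, hp2⟩ := mem_filter.1 hp
      obtain ⟨a, b, hab⟩ := hS p hp1
      have h3 := rel_split ρ p d a b
      have h4 : ¬ N * (b + 1) ≤ ∑ k ∈ range (b + 1), ρ (p + k • d) := fun h => hp2 ⟨b, h⟩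
      exact ⟨a, by omega⟩
  have h3 := card_filter_add_card_filter_not (s := S)
    (fun p => ∃ b : ℕ, N * (b + 1) ≤ ∑ k ∈ range (b + 1), ρ (p + k • d))
  rw [← h3, mul_add]
  omega

/-- The part of the mass owned by a cell. -/
def massc_cm (e : Fin 2 → Q) (Y : Finset Q) (c : Cf Q k) (p : Q) : ℕ :=
  (∑ d, if p + ownO e d ∈ SS (str e) Y then (c.2 (p + ownO e d) d).natAbs else 0) +
    if p ∈ Y then ∑ i, 2 * rho (c.1 (p, i)) else 0

lemma massc_sum_cm (Y : Finset Q) (c : Cf Q k) (X : Finset Q) :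
    ∑ p ∈ X, massc_cm e Y c p ≤ mass e Y c := by
  unfold massc_cm mass szJ
  rw [sum_add_distrib, add_comm]
  refine add_le_add ?_ ?_
  · rw [sum_product, ← sum_filter]
    exact sum_le_sum_of_subset fun p hp => (mem_filter.1 hp).2
  · rw [sum_comm, sum_comm (s := SS (str e) Y)]
    refine sum_le_sum fun d _ => ?_
    rw [← sum_filter, ← sum_image (g := fun p => p + ownO e d)
      (f := fun q => (c.2 q d).natAbs) fun p _ q _ h => add_right_cancel h]
    refine sum_le_sum_of_subset fun q hq => ?_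
    obtain ⟨p, hp, rfl⟩ := mem_image.1 hq
    exact (mem_filter.1 hp).2

lemma massc_own {Y : Finset Q} {z p : Q} (hz : z ∈ Y)
    (hp : p = z ∨ p + eT e = z ∨ p - eT e = z) (d : Dg k) : p + ownO e d ∈ SS (str e) Y := by
  refine mem_SS.2 ⟨z, hz, mem_str.2 ?_⟩
  unfold ownO
  split_ifs
  · rcases hp with rfl | rfl | rfl
    · exact .inr (.inl rfl)
    · exact .inr (.inr (.inr (.inr (.inr (by abel)))))
    · exact .inr (.inr (.inl (by unfold eT; abel)))
  · rcases hp with rfl | rfl | rfl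
    · exact .inl (add_zero _)
    · exact .inr (.inr (.inr (.inr (.inl (by abel)))))
    · exact .inr (.inr (.inr (.inl (by abel))))

lemma massc_ac {N : ℕ} {V Y : Finset Q} (hV : V ⊆ Y) (c : Cf Q k) {δ : Cf Q k}
    {κ : Q → Dg k → ℤ} (hκ : Rep N e V δ κ) {y : Q} {a b : ℕ} (hr : Run e δ κ y a b) :
    ac e V c y a b ≤
      ∑ j ∈ Icc (-((a + 1 : ℕ) : ℤ)) ((b + 1 : ℕ) : ℤ), massc_cm e Y c (y + j • eT e) := by
  unfold ac massc_cm
  rw [sum_add_distrib, show -((a + 1 : ℕ) : ℤ) = -(a : ℤ) - 1 by push_cast; ring,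
    show ((b + 1 : ℕ) : ℤ) = (b : ℤ) + 1 by push_cast; ring]
  refine add_le_add (sum_le_sum fun j hj => ?_) ?_
  · have hz : ∃ z ∈ Y, y + j • eT e = z ∨ y + j • eT e + eT e = z ∨ y + j • eT e - eT e = z := by
      obtain ⟨h1, h2⟩ := mem_Icc.1 hj
      have m := fun p (hp : Actv e δ κ p) => hV (massc_actv_mem hκ hp)
      rcases eq_or_lt_of_le h1 with h1 | h1
      · exact ⟨_, m _ hr.la, .inr (.inl (by rw [← h1]; module))⟩
      rcases eq_or_lt_of_le h2 with h2 | h2
      · exact ⟨_, m _ hr.ra, .inr (.inr (by rw [h2]; module))⟩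
      rcases eq_or_lt_of_le (show j ≤ b by omega) with h3 | h3
      · exact ⟨_, m _ hr.ra, .inl (by rw [h3])⟩
      rcases hr.mid j (by omega) h3 with h | h
      · exact ⟨_, m _ h, .inl rfl⟩
      · exact ⟨_, m _ h, .inr (.inl (by module))⟩
    obtain ⟨z, hz, hp⟩ := hz
    unfold oc
    exact le_of_eq (sum_congr rfl fun d _ => (if_pos (massc_own hz hp d)).symm)
  · refine le_trans (sum_le_sum fun j _ => ?_)
      (sum_le_sum_of_subset (Icc_subset_Icc (by omega) (by omega)))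
    split_ifs with h1 h2
    · exact le_rfl
    · exact absurd (hV h1) h2
    · exact Nat.zero_le _
    · exact le_rfl

theorem mass_ge (he : DirT e) {N B : ℕ} (hN : 1000 ≤ N) {Y : Finset Q} {c : Cf Q k}
    (hc : Val B e Y c) (hK : Kc N B e Y c ≠ 0) : N * Y.card ≤ 120 * mass e Y c := by
  obtain ⟨ht, hd⟩ := id he
  set X : Finset Q := SS (str e) Y ∪ (SS (str e) Y).image (fun q => q - e 0) with hX
  have h1 := massc_cover N X (eT e) ht hd Y (fun p => 60 * massc_cm e Y c p) (fun p hp => by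
    rw [hX, mem_union, not_or] at hp
    have h2 : p ∉ Y := fun h => hp.1 (subset_str Y h)
    have h3 : ∀ d : Dg k, p + ownO e d ∉ SS (str e) Y := fun d h => by
      unfold ownO at h
      split_ifs at h
      · exact hp.2 (mem_image.2 ⟨_, h, add_sub_cancel_right _ _⟩)
      · exact hp.1 (by simpa using h)
    simp [massc_cm, h2, h3]) (fun y hy => by
    obtain ⟨V, hV, hyV, δ, ⟨⟨κ, hκ⟩, hδ⟩, hopt, hne⟩ := exists_move_of_Kc hc hK hy
    have hact : Actv e δ κ y := by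
      by_contra h
      refine hne ⟨κ, fun a ha => ?_, fun q d hq => ?_, hκ.2.2⟩
      · by_cases h2 : a.1 = y
        · by_contra h3
          exact h (.inl ⟨a.2, by rwa [← h2]⟩)
        · exact hκ.1 a fun h3 => ha (mem_erase.2 ⟨h2, h3⟩)
      · by_cases h2 : q - ownO e d = y
        · by_contra h3
          exact h (.inr ⟨d, by rwa [← h2, sub_add_cancel]⟩)
        · exact hκ.2.1 q d fun h3 => hq (mem_erase.2 ⟨h2, h3⟩)
    obtain ⟨a, b, hr⟩ := exists_run he hκ hact
    have h2 := run_cost he (hc.mono hV) hδ hκ hopt hr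
    have h3 := run_mass (by omega) (hc.mono hV) hδ hκ hr
    have h4 := massc_ac hV c hκ hr
    refine ⟨a + 1, b + 1, ?_⟩
    rw [← mul_sum]
    obtain ⟨m, rfl⟩ := Nat.exists_eq_add_of_le hN
    rw [show 1000 + m - 2 = 998 + m by omega] at h3
    nlinarith [Nat.zero_le (m * a), Nat.zero_le (m * b)])
  rw [← mul_sum] at h1
  have h2 := massc_sum_cm (e := e) Y c X
  omega

end Pool.Agent.MP_646035_al.PC
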