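import Pool.Agent.MP_646035_al.PC.Gc
import Pool.Agent.MP_646035_al.PC.Fc
import Pool.Agent.MP_646035_al.PC.Geo
import Pool.Agent.MP_646035_al.PC.Mass
import Pool.Agent.MP_646035_al.PC.FcB

namespace Pool.Agent.MP_646035_al.PC

open Finset PT

variable {n k : ℕ} {Q : Type} [AddCommGroup Q] [DecidableEq Q] {e : Fin 2 → Q}

lemma one_le_nfl (X : Finset Q) : 1 ≤ nfl e X := by
  classical
  refine card_pos.2 ⟨fun _ => 0, ?_⟩
  rw [mem_filter, mem_asg]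
  exact ⟨⟨fun _ _ => mem_univ _, fun _ _ => rfl⟩, fun _ _ _ => rfl⟩

lemma str_subset_s1 (𝒳 : Finset (At1 Q)) : SS (str e) 𝒳.toRight ⊆ SS (s1 e) 𝒳 := fun q hq => by
  obtain ⟨y, hy, h⟩ := mem_SS.1 hq
  exact mem_SS.2 ⟨.inr y, mem_toRight.1 hy, h⟩

lemma repb_slot {X : Finset Q} {q : Q} (hq : q ∈ X) (i : Fin 4) : slot e q i ∈ slots e X :=
  mem_biUnion.2 ⟨q, hq, mem_image_of_mem _ (mem_univ i)⟩

lemma repb_flat {X : Finset Q} {τ τ' : Ed Q → ZMod 2} (h : ∀ a ∈ slots e X, τ a = τ' a)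
    (hτ : Flat e X τ) : Flat e X τ' := fun q hq i => by
  rw [← h _ (repb_slot hq i), ← h (q, 0) (repb_slot hq 2)]
  exact hτ q hq i

lemma repb_two (a b : ZMod 2) : a + b + b = a := by
  revert a b
  decide

open Classical in
lemma repb_orth (X : Finset Q) (σ σ' : Ed Q → ZMod 2) :
    ∑ A ∈ asg 0 X Ev, chX e X A σ' * chX e X A σ =
      if Flat e X (σ' + σ) then 8 ^ X.card else 0 := by
  have h1 : ∀ A : Q → Pat, chX e X A σ' * chX e X A σ =
      ∏ q ∈ X, ch (A q) fun i => (σ' + σ) (slot e q i) := fun A => by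
    rw [chX, chX, ← prod_mul_distrib]
    exact prod_congr rfl fun q _ => (ch_add _ _ _).symm
  simp only [h1]
  rw [sum_asg_prod 0 X Ev fun q b => ch b fun i => (σ' + σ) (slot e q i)]
  simp only [sum_ch]
  split_ifs with h
  · rw [← prod_const]
    exact prod_congr rfl fun q hq => if_pos (h q hq)
  · by_contra hc
    exact h fun q hq => by
      by_contra hq'
      exact hc (prod_eq_zero hq (if_neg hq'))

open Classical in
lemma repb_card (X : Finset Q) (σ : Ed Q → ZMod 2) :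
    ((asg 0 (slots e X) (univ : Finset (ZMod 2))).filter fun σ' => Flat e X (σ' + σ)).card =
      nfl e X := by
  have hm : ∀ s : Ed Q → ZMod 2, (fun a => if a ∈ slots e X then s a + σ a else 0) ∈
      asg 0 (slots e X) (univ : Finset (ZMod 2)) := fun s =>
    mem_asg.2 ⟨fun _ _ => mem_univ _, fun a ha => if_neg ha⟩
  have hi : ∀ s ∈ asg 0 (slots e X) (univ : Finset (ZMod 2)),
      (fun a => if a ∈ slots e X then (if a ∈ slots e X then s a + σ a else 0) + σ a else 0) =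
        s := fun s hs => funext fun a => by
    by_cases ha : a ∈ slots e X
    · rw [if_pos ha, if_pos ha, repb_two]
    · rw [if_neg ha, (mem_asg.1 hs).2 a ha]
  refine card_nbij' (fun s a => if a ∈ slots e X then s a + σ a else 0)
    (fun s a => if a ∈ slots e X then s a + σ a else 0) (fun s hs => ?_) (fun s hs => ?_)
    (fun s hs => hi s (mem_filter.1 (mem_coe.1 hs)).1)
    fun s hs => hi s (mem_filter.1 (mem_coe.1 hs)).1
  · exact mem_coe.2 (mem_filter.2 ⟨hm s,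
      repb_flat (fun a ha => (if_pos ha).symm) (mem_filter.1 (mem_coe.1 hs)).2⟩)
  · refine mem_coe.2 (mem_filter.2 ⟨hm s,
      repb_flat (fun a ha => ?_) (mem_filter.1 (mem_coe.1 hs)).2⟩)
    simp only [Pi.add_apply, if_pos ha, repb_two]

theorem PhiK_expand (N k B : ℕ) (x : ℝ) (Y : Finset Q) (σ : Ed Q → ZMod 2) (r : Ed Q → ℕ) :
    PhiK N k B e x Y (Hf σ r) =
      ∑ A ∈ asg 0 (SS (str e) Y) Ev, psiK N k B e x Y r A * chX e (SS (str e) Y) A σ := by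
  classical
  have hn : (0 : ℝ) < nfl e (SS (str e) Y) := Nat.cast_pos.2 (one_le_nfl _)
  have h1 : ∀ σ' : Ed Q → ZMod 2, ∑ A ∈ asg 0 (SS (str e) Y) Ev,
      PhiK N k B e x Y (Hf σ' r) * chX e (SS (str e) Y) A σ' * chX e (SS (str e) Y) A σ =
      if Flat e (SS (str e) Y) (σ' + σ) then
        8 ^ (SS (str e) Y).card * PhiK N k B e x Y (Hf σ r) else 0 := fun σ' => by
    simp only [mul_assoc]
    rw [← mul_sum, repb_orth]
    split_ifs with h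
    · have e1 : σ + (σ' + σ) = σ' := funext fun a => by
        rw [Pi.add_apply, Pi.add_apply, add_comm, repb_two]
      rw [← PhiK_flip N k B x h σ r, e1, mul_comm]
    · rw [mul_zero]
  simp only [psiK, div_mul_eq_mul_div, sum_mul]
  rw [← sum_div, sum_comm]
  simp only [h1]
  rw [← sum_filter, sum_const, repb_card, nsmul_eq_mul]
  field_simp

omit [DecidableEq Q] in
lemma repb_chX {X : Finset Q} {A A' : Q → Pat} (h : ∀ q ∈ X, A q = A' q) (σ : Ed Q → ZMod 2) :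
    chX e X A σ = chX e X A' σ := prod_congr rfl fun q hq => by rw [h q hq]

lemma psiK_loc (N k B : ℕ) (x : ℝ) (Y : Finset Q) (r : Ed Q → ℕ) {A A' : Q → Pat}
    (h : ∀ q ∈ SS (str e) Y, A q = A' q) : psiK N k B e x Y r A = psiK N k B e x Y r A' := by
  simp only [psiK, repb_chX h]

theorem psr_loc (N k B : ℕ) (x : ℝ) (𝒳 : Finset (At1 Q)) {A A' : Q → Pat}
    (h : ∀ q ∈ SS (s1 e) 𝒳, A q = A' q) : psr N k B e x 𝒳 A = psr N k B e x 𝒳 A' := by
  rw [psr, psr, prod_congr rfl fun q hq => congrArg (fun b => fc k B x b 0) (h q hq)]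
  refine congrArg (· / _) (sum_congr rfl fun r _ => ?_)
  rw [psiK_loc N k B x _ r fun q hq => h q (str_subset_s1 𝒳 hq)]
  exact congrArg (_ * ·) (prod_congr rfl fun q hq => by rw [h q (mem_sdiff.1 hq).1])

omit [AddCommGroup Q] in
lemma repb_split {X₁ X : Finset Q} (hX : X₁ ⊆ X) (F : (Q → Pat) → ℝ)
    (hF : ∀ A A', (∀ q ∈ X₁, A q = A' q) → F A = F A') (g : Q → Pat → ℝ) :
    ∑ A ∈ asg 0 X Ev, F A * ∏ q ∈ X \ X₁, g q (A q) =
      (∑ A ∈ asg 0 X₁ Ev, F A) * ∏ q ∈ X \ X₁, ∑ b ∈ Ev, g q b := by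
  have h := sum_asg_union (0 : Pat) (disjoint_sdiff (s := X₁) (t := X)) Ev
    fun A => F A * ∏ q ∈ X \ X₁, g q (A q)
  rw [union_sdiff_of_subset hX] at h
  rw [h, ← sum_asg_prod 0, sum_mul_sum]
  refine sum_congr rfl fun A₁ _ => sum_congr rfl fun A₂ _ => ?_
  rw [hF _ A₁ fun q hq => piecewise_eq_of_mem _ _ _ hq]
  exact congrArg (_ * ·) (prod_congr rfl fun q hq => by
    rw [piecewise_eq_of_notMem _ _ _ (mem_sdiff.1 hq).2])

theorem Psw_expand (N k B : ℕ) (x : ℝ) (hf : ∀ A ∈ Ev, fc k B x A 0 ≠ 0) (𝒳 : Finset (At1 Q))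
    (σ : Ed Q → ZMod 2) :
    Psw N k B e x 𝒳 σ = ∑ A ∈ asg 0 (SS (s1 e) 𝒳) Ev, psr N k B e x 𝒳 A *
      (∏ q ∈ SS (s1 e) 𝒳, fc k B x (A q) 0) * chX e (SS (s1 e) 𝒳) A σ := by
  have h1 : ∀ A ∈ asg 0 (SS (s1 e) 𝒳) Ev, psr N k B e x 𝒳 A *
      (∏ q ∈ SS (s1 e) 𝒳, fc k B x (A q) 0) * chX e (SS (s1 e) 𝒳) A σ =
      ∑ r ∈ asg 0 𝒳.toLeft (Icc 1 B), x ^ (∑ a ∈ 𝒳.toLeft, 2 * r a) *
        (psiK N k B e x 𝒳.toRight r A * chX e (SS (str e) 𝒳.toRight) A σ *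
          ∏ q ∈ SS (s1 e) 𝒳 \ SS (str e) 𝒳.toRight,
            (fc k B x (A q) fun i => r (slot e q i)) * ch (A q) fun i => σ (slot e q i)) :=
    fun A hA => by
      rw [psr, div_mul_cancel₀ _ (prod_ne_zero_iff.2 fun q hq => hf _ ((mem_asg.1 hA).1 q hq)),
        sum_mul]
      refine sum_congr rfl fun r _ => ?_
      rw [prod_mul_distrib, chX, chX, ← prod_sdiff (str_subset_s1 𝒳)]
      ring
  rw [sum_congr rfl h1, sum_comm, Psw]
  refine sum_congr rfl fun r _ => ?_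
  generalize x ^ (∑ a ∈ 𝒳.toLeft, 2 * r a) = w
  rw [← mul_sum, repb_split (str_subset_s1 𝒳)
    (fun A => psiK N k B e x 𝒳.toRight r A * chX e (SS (str e) 𝒳.toRight) A σ)
    (fun A A' h => by rw [psiK_loc N k B x _ r h, repb_chX h])
    fun q b => (fc k B x b fun i => r (slot e q i)) * ch b fun i => σ (slot e q i),
    ← PhiK_expand, mul_assoc]
  exact congrArg (_ * ·) (congrArg (_ * ·) (prod_congr rfl fun q _ => FF_four k B x _ _))

end Pool.Agent.MP_646035_al.PC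

namespace Pool.Agent.MP_646035_al.PC

open Finset PT

variable {n k : ℕ} {Q : Type} [AddCommGroup Q] [DecidableEq Q] {e : Fin 2 → Q}

lemma repd_sub {V : Finset Q} {𝒳 : Finset (At1 Q)} (h : 𝒳 ⊆ at1 V) :
    SS (s1 e) 𝒳 ⊆ SS (str e) V := by
  intro q hq
  obtain ⟨α, hα, hq⟩ := mem_SS.1 hq
  have := h hα
  rcases α with ⟨p, j⟩ | y
  · refine mem_SS.2 ⟨p, by simpa [at1] using this, ?_⟩
    simp only [s1, mem_insert, mem_singleton] at hq
    rcases hq with rfl | rfl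
    · simp [str]
    · fin_cases j <;> simp [str]
  · exact mem_SS.2 ⟨y, by simpa [at1] using this, hq⟩

theorem ZZ_eq_Xi (ν : Nums) (N : ℕ) (hk : 0 < k) {B : ℕ} (hB : 1 ≤ B) {x : ℝ} (hx : 0 < x)
    (hN : 0 < Nb k B x) (hf : ∀ A ∈ Ev, 0 < ff k B x A) (V : Finset Q) :
    ZZ N k B e x V = Nb k B x ^ (SS (str e) V).card * 2 ^ (slots e (SS (str e) V)).card *
      Xi (SS (asp e)) (wgt ν e (ff k B x) (psr N k B e x)) (conns (asp e) (atms e V)) := by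
  have hfc : ∀ A, fc k B x A 0 = Nb k B x * ff k B x A := fun A => by
    rw [ff, mul_div_cancel₀ _ hN.ne']
  have hF : ∀ σ : Pat, FF k B x (fun i => hgt (σ i) 0) =
      Nb k B x * ∑ A ∈ Ev, ff k B x A * ch A σ := fun σ => by
    rw [show FF k B x (fun i => hgt (σ i) 0) = _ from FF_four k B x σ 0, mul_sum]
    simp only [hfc, mul_assoc]
  rw [mul_assoc, ← rep_abstract V (fun 𝒳 σ => Psw N k B e x 𝒳 σ / Nb k B x ^ (SS (s1 e) 𝒳).card)
    (div_self hN.ne') (fun σ => (mul_pos_iff_of_pos_left hN).1 ((FF_pos hk hB hx σ).trans_eq (hF σ)))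
    (fun 𝒳 _ _ h => psr_loc N k B x 𝒳 h) (fun σ => by simp [Psw_empty, SS])
    (fun 𝒳₁ 𝒳₂ σ h => ?_) (fun 𝒳 σ => ?_), ZZ_eq_sum, mul_sum]
  · refine sum_congr rfl fun σ _ => ?_
    rw [mul_sum]
    refine sum_congr rfl fun 𝒳 h => ?_
    have e1 : ∀ q, FF k B x (hs e (Hf σ 0) q) =
        Nb k B x * ∑ A ∈ Ev, ff k B x A * ch A fun i => σ (slot e q i) := fun q => hF _
    simp only [e1]
    rw [prod_mul_distrib, prod_const, ← card_sdiff_add_card_eq_card (repd_sub (mem_powerset.1 h)),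
      pow_add]
    field_simp
  · rw [Psw_mul N k B x h, show SS (s1 e) (𝒳₁ ∪ 𝒳₂) = SS (s1 e) 𝒳₁ ∪ SS (s1 e) 𝒳₂ from
      union_biUnion,
      card_union_of_disjoint h, pow_add, mul_div_mul_comm]
  · rw [Psw_expand N k B x fun A hA => by rw [hfc]; exact (mul_pos hN (hf A hA)).ne', sum_div]
    refine sum_congr rfl fun A _ => ?_
    simp only [hfc]
    rw [prod_mul_distrib, prod_const]
    field_simp

end Pool.Agent.MP_646035_al.PC

namespace Pool.Agent.MP_646035_al.PC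

open Finset PT

variable {n k : ℕ} {Q : Type} [AddCommGroup Q] [DecidableEq Q] {e : Fin 2 → Q}

lemma qbd_dbox (k B : ℕ) (z : ℝ) :
    ∑ b ∈ dbox k B, z ^ szJ univ b = gam B z ^ (2 * k + 2) := by
  have h := Finset.prod_univ_sum (fun _ : Dg k => bx B) fun _ m => z ^ m.natAbs
  simp only [dbox, szJ, ← prod_pow_eq_pow_sum]
  rw [← h, prod_const, card_univ]
  congr 1
  simp only [Dg, Fintype.card_prod, Fintype.card_option, Fintype.card_fin, ZMod.card]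
  ring

open Classical in
lemma qbd_term (he : DirT e) {N B : ℕ} (hN : 1000 ≤ N) {x : ℝ} (hx : 0 ≤ x)
    (hx1 : x ≤ 1) (Y : Finset Q) (σ : Ed Q → ZMod 2) {r : Ed Q → ℕ} (hr : ∀ a, r a ≤ B)
    (y : Q → Dg k → ℤ) :
    |if ∀ q ∈ SS (str e) Y, Okn B (hs e (Hf σ r) q) (y q) then
      x ^ (∑ q ∈ SS (str e) Y, nc (hs e (Hf σ r) q) (y q)) * Kc N B e Y (Hf σ r, y) else 0| ≤
      2 ^ (∑ a ∈ Y ×ˢ (univ : Finset (Fin 2)), 2 * r a) * (2 / 2 ^ (N / 120)) ^ Y.card *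
        ∏ q ∈ SS (str e) Y, (2 * x) ^ szJ univ (y q) := by
  have h0 : (0 : ℝ) ≤ 2 ^ (∑ a ∈ Y ×ˢ (univ : Finset (Fin 2)), 2 * r a) *
      (2 / 2 ^ (N / 120)) ^ Y.card * ∏ q ∈ SS (str e) Y, (2 * x) ^ szJ univ (y q) := by
    positivity
  split_ifs with hok
  swap
  · simpa using h0
  by_cases hK : Kc N B e Y (Hf σ r, y) = 0
  · rw [hK, mul_zero, abs_zero]
    exact h0
  have hv : Val B e Y (Hf σ r, y) :=
    ⟨fun p _ j => by simpa only [Hf, rho_hgt] using hr (p, j), hok⟩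
  have hm := mass_ge he hN hv hK
  simp only [mass, Hf, rho_hgt] at hm
  rw [prod_pow_eq_pow_sum]
  generalize (∑ a ∈ Y ×ˢ (univ : Finset (Fin 2)), 2 * r a) = R at hm ⊢
  have h1 : ∑ q ∈ SS (str e) Y, szJ univ (y q) ≤
      ∑ q ∈ SS (str e) Y, nc (hs e (Hf σ r) q) (y q) :=
    sum_le_sum fun q _ => Nat.le_add_right _ _
  generalize (∑ q ∈ SS (str e) Y, szJ univ (y q)) = s at hm h1 ⊢
  have h2 : N / 120 * Y.card ≤ R + s := by
    have h3 : 120 * (N / 120) * Y.card ≤ N * Y.card :=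
      Nat.mul_le_mul_right _ (Nat.mul_div_le N 120)
    rw [mul_assoc] at h3
    exact Nat.le_of_mul_le_mul_left (h3.trans hm) (by norm_num)
  have h4 : (2 : ℝ) ^ (N / 120 * Y.card) ≤ 2 ^ (R + s) := pow_le_pow_right₀ one_le_two h2
  rw [abs_mul, abs_of_nonneg (pow_nonneg hx _)]
  calc _ ≤ x ^ s * 2 ^ Y.card :=
        mul_le_mul (pow_le_pow_of_le_one hx hx1 h1) (abs_Kc_le _ _ _ _) (abs_nonneg _)
          (pow_nonneg hx _)
    _ = x ^ s * 2 ^ Y.card * 2 ^ (N / 120 * Y.card) / 2 ^ (N / 120 * Y.card) := by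
        field_simp
    _ ≤ x ^ s * 2 ^ Y.card * 2 ^ (R + s) / 2 ^ (N / 120 * Y.card) := by gcongr
    _ = _ := by
        rw [div_pow, ← pow_mul, mul_pow, pow_add]
        field_simp

theorem abs_PhiK_le (he : DirT e) {N B : ℕ} (hN : 1000 ≤ N) {x : ℝ} (hx : 0 ≤ x)
    (hx1 : x ≤ 1 / 100) (Y : Finset Q) (σ : Ed Q → ZMod 2) {r : Ed Q → ℕ} (hr : ∀ a, r a ≤ B) :
    |PhiK N k B e x Y (Hf σ r)| ≤ 2 ^ (∑ a ∈ Y ×ˢ (univ : Finset (Fin 2)), 2 * r a) *
      (2 / 2 ^ (N / 120)) ^ Y.card * (2 ^ (2 * k + 2)) ^ (SS (str e) Y).card := by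
  unfold PhiK
  refine (abs_sum_le_sum_abs _ _).trans ((sum_le_sum fun y _ =>
    qbd_term he hN hx (hx1.trans (by norm_num)) Y σ hr y).trans ?_)
  rw [← mul_sum, sum_asg_prod 0 (SS (str e) Y) (dbox k B) fun _ b => (2 * x) ^ szJ univ b,
    qbd_dbox, prod_const]
  have h0 : 0 ≤ 2 * x := by linarith
  have h1 : gam B (2 * x) ≤ 2 := by
    refine (gam_le B h0 (by linarith)).trans ?_
    rw [div_le_iff₀ (by linarith)]
    linarith
  have h2 : 0 ≤ gam B (2 * x) := zero_le_one.trans (one_le_gam B h0)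
  gcongr

lemma qbd_abs_chX (X : Finset Q) (A : Q → Pat) (σ : Ed Q → ZMod 2) : |chX e X A σ| = 1 := by
  simp only [chX, abs_prod, abs_ch, prod_const_one]

lemma qbd_psiK {N B : ℕ} {x M : ℝ} (Y : Finset Q) (r : Ed Q → ℕ) (A : Q → Pat) (hM : 0 ≤ M)
    (h : ∀ σ, |PhiK N k B e x Y (Hf σ r)| ≤ M) :
    |psiK N k B e x Y r A| ≤ 2 ^ (SS (str e) Y).card * M := by
  have h1 : (1 : ℝ) ≤ nfl e (SS (str e) Y) := by exact_mod_cast one_le_nfl _
  have h2 : |∑ σ ∈ asg 0 (slots e (SS (str e) Y)) univ,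
      PhiK N k B e x Y (Hf σ r) * chX e (SS (str e) Y) A σ| ≤ 16 ^ (SS (str e) Y).card * M := by
    refine (abs_sum_le_sum_abs _ _).trans ((sum_le_card_nsmul _ _ M fun σ _ => ?_).trans ?_)
    · rw [abs_mul, qbd_abs_chX, mul_one]
      exact h σ
    · rw [card_asg, nsmul_eq_mul, card_univ, ZMod.card]
      refine mul_le_mul_of_nonneg_right ?_ hM
      push_cast
      calc (2 : ℝ) ^ (slots e (SS (str e) Y)).card ≤ 2 ^ (4 * (SS (str e) Y).card) :=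
            pow_le_pow_right₀ one_le_two (card_slots_le _)
        _ = _ := by rw [pow_mul]; norm_num
  unfold psiK
  rw [abs_div, abs_of_pos (by positivity : (0 : ℝ) < 8 ^ _ * _), div_le_iff₀ (by positivity)]
  refine h2.trans ?_
  calc (16 : ℝ) ^ (SS (str e) Y).card * M
      = 2 ^ (SS (str e) Y).card * M * (8 ^ (SS (str e) Y).card * 1) := by
        rw [show (16 : ℝ) = 2 * 8 by norm_num, mul_pow]
        ring
    _ ≤ _ := by gcongr

lemma qbd_psiK_empty (N B : ℕ) (x : ℝ) (r : Ed Q → ℕ) (A : Q → Pat) :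
    0 ≤ psiK N k B e x ∅ r A := by
  unfold psiK
  refine div_nonneg (sum_nonneg fun σ _ => ?_) (by positivity)
  rw [PhiK_empty]
  simp [chX, SS]

lemma qbd_out {𝒳 : Finset (At1 Q)} {q : Q} (hq : q ∈ SS (s1 e) 𝒳 \ SS (str e) 𝒳.toRight) :
    ∃ a ∈ 𝒳.toLeft, q = a.1 ∨ q = a.1 + e a.2 := by
  obtain ⟨h1, h2⟩ := mem_sdiff.1 hq
  obtain ⟨α, hα, h3⟩ := mem_SS.1 h1
  rcases α with a | y
  · exact ⟨a, mem_toLeft.2 hα, by simpa [s1] using h3⟩
  · exact absurd (mem_SS.2 ⟨y, mem_toRight.2 hα, h3⟩) h2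

lemma qbd_out_card (𝒳 : Finset (At1 Q)) :
    (SS (s1 e) 𝒳 \ SS (str e) 𝒳.toRight).card ≤ 2 * 𝒳.toLeft.card := by
  have h : SS (s1 e) 𝒳 \ SS (str e) 𝒳.toRight ⊆
      𝒳.toLeft.image Prod.fst ∪ 𝒳.toLeft.image fun a => a.1 + e a.2 := fun q hq => by
    obtain ⟨a, ha, h | h⟩ := qbd_out hq
    · exact mem_union_left _ (mem_image.2 ⟨a, ha, h.symm⟩)
    · exact mem_union_right _ (mem_image.2 ⟨a, ha, h.symm⟩)
  refine (card_le_card h).trans ((card_union_le _ _).trans ?_)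
  rw [two_mul]
  exact add_le_add card_image_le card_image_le

lemma qbd_ne {B : ℕ} {𝒳 : Finset (At1 Q)} {r : Ed Q → ℕ} (hr : r ∈ asg 0 𝒳.toLeft (Icc 1 B))
    {q : Q} (hq : q ∈ SS (s1 e) 𝒳 \ SS (str e) 𝒳.toRight) :
    (fun i => r (slot e q i)) ≠ 0 := by
  obtain ⟨⟨p, j⟩, ha, h⟩ := qbd_out hq
  have h1 := (mem_Icc.1 ((mem_asg.1 hr).1 _ ha)).1
  have h2 : ∃ i, slot e q i = (p, j) := by
    rcases h with rfl | rfl
    · fin_cases j
      · exact ⟨2, rfl⟩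
      · exact ⟨3, rfl⟩
    · fin_cases j
      · exact ⟨1, by simp [slot]⟩
      · exact ⟨0, by simp [slot]⟩
  obtain ⟨i, hi⟩ := h2
  intro h0
  have h3 := congrFun h0 i
  simp only [hi, Pi.zero_apply] at h3
  omega

lemma qbd_geom {z : ℝ} (h0 : 0 ≤ z) (h1 : z ≤ 1 / 100) (B : ℕ) :
    ∑ b ∈ Icc 1 B, z ^ b ≤ 100 / 99 * z := by
  have h : ∑ b ∈ Icc 1 B, z ^ b + 100 / 99 * z ^ (B + 1) ≤ 100 / 99 * z := by
    induction B with
    | zero => simp
    | succ B ih =>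
      rw [sum_Icc_succ_top (by omega), pow_succ z (B + 1)]
      have h2 := mul_le_mul_of_nonneg_left h1 (pow_nonneg h0 (B + 1))
      linarith
  have h3 := pow_nonneg h0 (B + 1)
  linarith

lemma qbd_R {B : ℕ} {L : Finset (Ed Q)} {r : Ed Q → ℕ} (hr : r ∈ asg 0 L (Icc 1 B))
    (T : Finset (Ed Q)) : (∀ a, r a ≤ B) ∧ ∑ a ∈ T, 2 * r a ≤ ∑ a ∈ L, 2 * r a := by
  obtain ⟨h1, h2⟩ := mem_asg.1 hr
  refine ⟨fun a => ?_, ?_⟩
  · by_cases ha : a ∈ L
    · exact (mem_Icc.1 (h1 a ha)).2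
    · rw [h2 a ha]
      exact Nat.zero_le _
  · refine sum_le_sum_of_ne_zero fun a _ h => ?_
    by_contra ha
    exact h (by rw [h2 a ha, mul_zero])

lemma qbd_u {u : ℝ} (hu : Good k u) : u ≤ 1 / 100 := by
  refine hu.u_le.trans (one_div_le_one_div_of_le (by norm_num) ?_)
  calc (100 : ℝ) = 10 ^ 2 := by norm_num
    _ ≤ 10 ^ 300 := pow_le_pow_right₀ (by norm_num) (by norm_num)

lemma qbd_main (he : DirT e) {N B : ℕ} (hN : 1000 ≤ N) {y c v : ℝ} (h0 : 0 ≤ y)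
    (h1 : y ≤ 1 / 100) (hc : 1 ≤ c) (hv : 0 < v) (𝒳 : Finset (At1 Q)) (A : Q → Pat)
    (hA : ∀ q, v ≤ fc k B y (A q) 0 ∧ ∀ r : Fin 4 → ℕ, r ≠ 0 →
      0 ≤ fc k B y (A q) r ∧ fc k B y (A q) r ≤ c * fc k B y (A q) 0) :
    |psr N k B e y 𝒳 A| ≤ (100 / 99 * (2 * y) ^ 2 * c ^ 2) ^ 𝒳.toLeft.card *
      (2 / 2 ^ (N / 120)) ^ 𝒳.toRight.card *
        (2 ^ (2 * k + 3) / v) ^ (SS (str e) 𝒳.toRight).card := by
  have hp : ∀ T : Finset Q, 0 < ∏ q ∈ T, fc k B y (A q) 0 := fun T =>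
    prod_pos fun q _ => hv.trans_le (hA q).1
  set O := SS (s1 e) 𝒳 \ SS (str e) 𝒳.toRight with hO
  set P := ∏ q ∈ O, fc k B y (A q) 0 with hP
  set l := (SS (str e) 𝒳.toRight).card with hl
  set G : ℝ := (2 / 2 ^ (N / 120)) ^ 𝒳.toRight.card with hG
  have hP0 : 0 < P := hp O
  have hG0 : 0 ≤ G := by positivity
  have ht : ∀ r ∈ asg 0 𝒳.toLeft (Icc 1 B), |y ^ (∑ a ∈ 𝒳.toLeft, 2 * r a) *
      psiK N k B e y 𝒳.toRight r A * ∏ q ∈ O, fc k B y (A q) fun i => r (slot e q i)| ≤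
      (∏ a ∈ 𝒳.toLeft, ((2 * y) ^ 2) ^ r a) *
        (G * (2 ^ (2 * k + 3)) ^ l * ((c ^ 2) ^ 𝒳.toLeft.card * P)) := by
    intro r hr
    obtain ⟨hB, hR⟩ := qbd_R hr (𝒳.toRight ×ˢ univ)
    have a1 := qbd_psiK 𝒳.toRight r A (by positivity) fun σ =>
      abs_PhiK_le (k := k) he hN h0 h1 𝒳.toRight σ hB
    have a2 : |∏ q ∈ O, fc k B y (A q) fun i => r (slot e q i)| ≤
        (c ^ 2) ^ 𝒳.toLeft.card * P := by
      rw [abs_of_nonneg (prod_nonneg fun q hq => ((hA q).2 _ (qbd_ne hr hq)).1)]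
      refine (prod_le_prod (fun q hq => ((hA q).2 _ (qbd_ne hr hq)).1)
        fun q hq => ((hA q).2 _ (qbd_ne hr hq)).2).trans ?_
      rw [prod_mul_distrib, prod_const, ← pow_mul]
      exact mul_le_mul_of_nonneg_right (pow_le_pow_right₀ hc (qbd_out_card 𝒳)) hP0.le
    have a3 : (2 : ℝ) ^ (∑ a ∈ 𝒳.toRight ×ˢ (univ : Finset (Fin 2)), 2 * r a) ≤
        2 ^ (∑ a ∈ 𝒳.toLeft, 2 * r a) := pow_le_pow_right₀ one_le_two hR
    have a4 : ∏ a ∈ 𝒳.toLeft, ((2 * y) ^ 2) ^ r a = (2 * y) ^ (∑ a ∈ 𝒳.toLeft, 2 * r a) := by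
      simp only [← pow_mul, prod_pow_eq_pow_sum]
    rw [a4, abs_mul, abs_mul, abs_of_nonneg (pow_nonneg h0 _)]
    calc _ ≤ y ^ (∑ a ∈ 𝒳.toLeft, 2 * r a) * (2 ^ l * (2 ^ (∑ a ∈ 𝒳.toLeft, 2 * r a) * G *
          (2 ^ (2 * k + 2)) ^ l)) * ((c ^ 2) ^ 𝒳.toLeft.card * P) := by
          refine mul_le_mul (mul_le_mul_of_nonneg_left (a1.trans ?_) (pow_nonneg h0 _)) a2
            (abs_nonneg _) (by positivity)
          gcongr
      _ = _ := by
          rw [mul_pow, pow_succ (2 : ℝ) (2 * k + 2), mul_pow]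
          ring
  have hz : (2 * y) ^ 2 ≤ 1 / 100 := by nlinarith
  have hs : ∑ r ∈ asg 0 𝒳.toLeft (Icc 1 B), ∏ a ∈ 𝒳.toLeft, ((2 * y) ^ 2) ^ r a ≤
      (100 / 99 * (2 * y) ^ 2) ^ 𝒳.toLeft.card := by
    rw [sum_asg_prod 0 𝒳.toLeft (Icc 1 B) fun _ b => ((2 * y) ^ 2) ^ b, prod_const]
    exact pow_le_pow_left₀ (sum_nonneg fun b _ => by positivity)
      (qbd_geom (by positivity) hz B) _
  have hd : P * v ^ l ≤ ∏ q ∈ SS (s1 e) 𝒳, fc k B y (A q) 0 := by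
    rw [← prod_sdiff (str_subset_s1 𝒳)]
    refine mul_le_mul_of_nonneg_left ?_ hP0.le
    rw [hl, ← prod_const]
    exact prod_le_prod (fun _ _ => hv.le) fun q _ => (hA q).1
  unfold psr
  rw [abs_div, abs_of_pos (hp _), div_le_iff₀ (hp _)]
  refine (abs_sum_le_sum_abs _ _).trans ((sum_le_sum ht).trans ?_)
  rw [← sum_mul]
  calc _ ≤ (100 / 99 * (2 * y) ^ 2) ^ 𝒳.toLeft.card *
        (G * (2 ^ (2 * k + 3)) ^ l * ((c ^ 2) ^ 𝒳.toLeft.card * P)) := by gcongr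
    _ = (100 / 99 * (2 * y) ^ 2 * c ^ 2) ^ 𝒳.toLeft.card * G * (2 ^ (2 * k + 3) / v) ^ l *
        (P * v ^ l) := by
        rw [mul_pow _ (c ^ 2), div_pow _ v]
        field_simp
    _ ≤ _ := by gcongr

lemma qbd_all (he : DirT e) {u y : ℝ} (hu : Good k u) (hy : Rng k u y) {B : ℕ} (hB : 2 ≤ B)
    {N : ℕ} (hN : Big k u N) (𝒳 : Finset (At1 Q)) {A : Q → Pat} (hA : ∀ q, A q ∈ Ev) :
    (𝒳.toRight = ∅ → 0 ≤ psr N k B e y 𝒳 A) ∧
      |psr N k B e y 𝒳 A| ≤ (3 * 10 ^ 9 * u ^ 8 * (k * u ^ 4) ^ 4) ^ 𝒳.toLeft.card *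
        (u ^ 16) ^ 𝒳.toRight.card := by
  obtain ⟨-, hb1, -, hb⟩ := fb_of_rng hu hy hB 0 0
  have u0 := hu.pos
  have u1 := qbd_u hu
  have u4 : u ^ 4 ≤ (1 / 100) ^ 4 := pow_le_pow_left₀ u0.le u1 4
  have y0 : 0 ≤ y := (pow_nonneg u0.le 4).trans hy.lo
  have y1 : y ≤ 1 / 100 := by linarith [hy.hi]
  have hv : 0 < u ^ 12 / 2 := by positivity
  have hl : (1 : ℝ) ≤ k * u ^ 4 := le_trans (by norm_num) hu.big
  have hc : 1 ≤ 2 * 10 ^ 4 * (k * u ^ 4) ^ 2 := by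
    have := one_le_pow₀ (n := 2) hl
    linarith
  have hf : ∀ q, u ^ 12 / 2 ≤ fc k B y (A q) 0 := fun q => by
    have h1 := (hb _ (hA q)).1
    rw [ff, le_div_iff₀ (by linarith)] at h1
    exact (le_mul_of_one_le_right hv.le hb1).trans h1
  refine ⟨fun h => ?_, ?_⟩
  · unfold psr
    refine div_nonneg (sum_nonneg fun r hr => mul_nonneg (mul_nonneg (pow_nonneg y0 _) ?_)
      (prod_nonneg fun q hq => ((hb _ (hA q)).2 _ (qbd_ne hr hq)).1))
      (prod_nonneg fun q _ => hv.le.trans (hf q))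
    rw [h]
    exact qbd_psiK_empty _ _ _ _ _
  refine (qbd_main he hN.1 y0 y1 hc hv 𝒳 A fun q => ⟨hf q, (hb _ (hA q)).2⟩).trans ?_
  have e1 : 100 / 99 * (2 * y) ^ 2 * (2 * 10 ^ 4 * (k * u ^ 4) ^ 2) ^ 2 ≤
      3 * 10 ^ 9 * u ^ 8 * (k * u ^ 4) ^ 4 := by
    have h1 : y ^ 2 ≤ (11 / 10 * u ^ 4) ^ 2 := pow_le_pow_left₀ y0 hy.hi 2
    have h2 : 0 ≤ (k * u ^ 4) ^ 4 := by positivity
    have h3 := mul_le_mul_of_nonneg_right h1 h2
    have h4 : 0 ≤ u ^ 8 * (k * u ^ 4) ^ 4 := by positivity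
    generalize (k : ℝ) * u ^ 4 = t at *
    linarith
  have e2 : (2 : ℝ) ^ (2 * k + 3) / (u ^ 12 / 2) = 2 ^ (2 * k + 4) / u ^ 12 := by
    rw [pow_succ (2 : ℝ) (2 * k + 3)]
    field_simp
  have e3 : (1 : ℝ) ≤ 2 ^ (2 * k + 4) / u ^ 12 := by
    rw [one_le_div (by positivity)]
    exact (pow_le_one₀ u0.le (by linarith)).trans (one_le_pow₀ one_le_two)
  have e4 : 2 / 2 ^ (N / 120) * (2 ^ (2 * k + 4) / u ^ 12) ^ 6 ≤ u ^ 16 := by
    rw [div_mul_eq_mul_div, div_le_iff₀ (by positivity)]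
    exact hN.2
  rw [e2, mul_assoc]
  refine mul_le_mul (pow_le_pow_left₀ (by positivity) e1 _) ?_ (by positivity) (by positivity)
  calc _ ≤ (2 / 2 ^ (N / 120)) ^ 𝒳.toRight.card *
        (2 ^ (2 * k + 4) / u ^ 12) ^ (6 * 𝒳.toRight.card) :=
        mul_le_mul_of_nonneg_left (pow_le_pow_right₀ e3 (card_str_le _)) (by positivity)
    _ ≤ _ := by
        rw [pow_mul, ← mul_pow]
        exact pow_le_pow_left₀ (by positivity) e4 _

theorem qb_psr (he : DirT e) {u y : ℝ} (hu : Good k u) (hy : Rng k u y) {B : ℕ} (hB : 2 ≤ B)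
    {N : ℕ} (hN : Big k u N) (m1 m2 : ℕ) :
    QB (numsOf k u m1 m2) e (psr N k B e y) := by
  refine ⟨fun 𝒳 A A' h => psr_loc N k B y 𝒳 h, fun 𝒳 A h hA => ?_, fun 𝒳 A h hA => ?_⟩
  · obtain ⟨h1, h2⟩ := qbd_all he hu hy hB hN 𝒳 hA
    refine ⟨h1 h, (le_abs_self _).trans ?_⟩
    rw [← card_toLeft_add_card_toRight (u := 𝒳)]
    rw [h, card_empty, pow_zero, mul_one] at h2
    rw [h, card_empty, add_zero]
    exact h2
  · rw [Th, if_neg h]
    exact (qbd_all he hu hy hB hN 𝒳 hA).2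

end Pool.Agent.MP_646035_al.PC

namespace Pool.Agent.MP_646035_al.PC

open Finset PT

variable {n k : ℕ} {Q : Type} [AddCommGroup Q] [DecidableEq Q] {e : Fin 2 → Q}

lemma qmapl_sub_tr3 (X : Finset Q) : X ⊆ SS (tr3 e) X := fun q hq =>
  mem_SS.2 ⟨q, hq, by simp [tr3]⟩

lemma qmapl_mem_slots {X : Finset Q} {a : Ed Q} :
    a ∈ slots e X ↔ ∃ q ∈ X, ∃ i, slot e q i = a := by
  simp [slots]

lemma qmapl_slot_tr3 (q : Q) (i : Fin 4) : (slot e q i).1 ∈ tr3 e q := by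
  fin_cases i <;> simp [slot, tr3]

omit [AddCommGroup Q] [DecidableEq Q] in
lemma qmapl_inj_slots {Q' : Type} [AddCommGroup Q'] [DecidableEq Q'] {e' : Fin 2 → Q'}
    {π : Q' → Q} {X : Finset Q'} (hinj : Set.InjOn π (SS (tr3 e') X : Finset Q')) :
    Set.InjOn (Prod.map π id : Ed Q' → Ed Q) (slots e' X : Finset (Ed Q')) := by
  have h : ∀ a ∈ slots e' X, a.1 ∈ SS (tr3 e') X := fun a ha => by
    obtain ⟨q, hq, i, rfl⟩ := qmapl_mem_slots.1 ha
    exact mem_SS.2 ⟨q, hq, qmapl_slot_tr3 q i⟩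
  intro a ha b hb hab
  exact Prod.ext (hinj (h a ha) (h b hb) (congrArg Prod.fst hab)) (Prod.ext_iff.1 hab).2

lemma qmapl_nfl {Q' : Type} [AddCommGroup Q'] [DecidableEq Q'] {e' : Fin 2 → Q'} {π : Q' → Q}
    (hπ : Mor e' e π) {X : Finset Q'} (hinj : Set.InjOn π (SS (tr3 e') X : Finset Q')) :
    nfl e (X.image π) = nfl e' X := by
  classical
  unfold nfl
  rw [slots_map hπ, card_filter, card_filter]
  refine sum_asg_map 0 _ _ _ (qmapl_inj_slots hinj) (Equiv.refl _) (fun _ => Iff.rfl) _ _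
    fun σ _ σ' _ h => ?_
  have h1 : ∀ q ∈ X, ∀ i, σ (slot e (π q) i) = σ' (slot e' q i) := fun q hq i => by
    rw [slot_map hπ, h _ (qmapl_mem_slots.2 ⟨q, hq, i, rfl⟩)]
    rfl
  have h2 : ∀ q ∈ X, σ (π q, 0) = σ' (q, 0) := fun q hq => h1 q hq 2
  refine if_congr ?_ rfl rfl
  unfold Flat
  rw [forall_mem_image]
  refine ⟨fun h3 q hq i => ?_, fun h3 q hq i => ?_⟩
  · rw [← h1 q hq, ← h2 q hq]
    exact h3 hq i
  · rw [h1 q hq, h2 q hq]
    exact h3 q hq i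

omit [AddCommGroup Q] in
lemma qmapl_toLeft {Q' : Type} [DecidableEq Q'] (π : Q' → Q) (𝒳 : Finset (At1 Q')) :
    (𝒳.image (map1 π)).toLeft = 𝒳.toLeft.image (Prod.map π id) := by
  ext a
  simp only [mem_toLeft, mem_image]
  constructor
  · rintro ⟨b | b, hb, h⟩
    · exact ⟨b, hb, Sum.inl.inj h⟩
    · exact absurd h Sum.inr_ne_inl
  · rintro ⟨b, hb, rfl⟩
    exact ⟨.inl b, hb, rfl⟩

omit [AddCommGroup Q] in
lemma qmapl_toRight {Q' : Type} [DecidableEq Q'] (π : Q' → Q) (𝒳 : Finset (At1 Q')) :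
    (𝒳.image (map1 π)).toRight = 𝒳.toRight.image π := by
  ext a
  simp only [mem_toRight, mem_image]
  constructor
  · rintro ⟨b | b, hb, h⟩
    · exact absurd h Sum.inl_ne_inr
    · exact ⟨b, hb, Sum.inr.inj h⟩
  · rintro ⟨b, hb, rfl⟩
    exact ⟨.inr b, hb, rfl⟩

theorem PhiK_map {Q' : Type} [AddCommGroup Q'] [DecidableEq Q'] {e' : Fin 2 → Q'} {π : Q' → Q}
    (hπ : Mor e' e π) (N k B : ℕ) (x : ℝ) {Y : Finset Q'}
    (hinj : Set.InjOn π (SS (tr3 e') (SS (str e') Y) : Finset Q')) (H : Ed Q → ℤ) :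
    PhiK N k B e x (Y.image π) H = PhiK N k B e' x Y fun a => H (Prod.map π id a) := by
  classical
  have hX := hinj.mono (coe_subset.2 (qmapl_sub_tr3 (e := e') (SS (str e') Y)))
  unfold PhiK
  rw [str_map hπ]
  refine sum_asg_map 0 _ _ π hX (Equiv.refl _) (fun _ => Iff.rfl) _ _ fun y _ y' _ h => ?_
  have h1 : ∀ q, hs e H (π q) = hs e' (fun a => H (Prod.map π id a)) q := fun q => by
    funext i
    simp only [hs, slot_map hπ]
  have h2 : ∀ q ∈ SS (str e') Y, y (π q) = y' q := fun q hq => (h q hq).symm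
  refine if_congr ?_ ?_ rfl
  · rw [forall_mem_image]
    refine ⟨fun h3 q hq => ?_, fun h3 q hq => ?_⟩
    · rw [← h1, ← h2 q hq]
      exact h3 hq
    · rw [h1, h2 q hq]
      exact h3 q hq
  · rw [sum_image hX, Kc_map hπ N B hinj (c := (H, y))
      (c' := (fun a => H (Prod.map π id a), y')) (fun _ _ => rfl) h2]
    refine congrArg (fun t => x ^ t * _) ?_
    exact sum_congr rfl fun q hq => by rw [h1, h2 q hq]

theorem psiK_map {Q' : Type} [AddCommGroup Q'] [DecidableEq Q'] {e' : Fin 2 → Q'} {π : Q' → Q}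
    (hπ : Mor e' e π) (N k B : ℕ) (x : ℝ) {Y : Finset Q'}
    (hinj : Set.InjOn π (SS (tr3 e') (SS (str e') Y) : Finset Q')) {r : Ed Q → ℕ}
    {r' : Ed Q' → ℕ} (hr : ∀ a ∈ slots e' (SS (str e') Y), r (Prod.map π id a) = r' a)
    (A : Q → Pat) :
    psiK N k B e x (Y.image π) r A = psiK N k B e' x Y r' fun q => A (π q) := by
  have hX := hinj.mono (coe_subset.2 (qmapl_sub_tr3 (e := e') (SS (str e') Y)))
  unfold psiK
  rw [str_map hπ, slots_map hπ, card_image_of_injOn hX, qmapl_nfl hπ hinj]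
  refine congrArg (· / _) ?_
  refine sum_asg_map 0 _ _ _ (qmapl_inj_slots hinj) (Equiv.refl _) (fun _ => Iff.rfl) _ _
    fun σ _ σ' _ h => ?_
  have h1 : ∀ a ∈ slots e' (SS (str e') Y), σ (Prod.map π id a) = σ' a := fun a ha =>
    (h a ha).symm
  rw [PhiK_map hπ N k B x hinj, PhiK_congr N k B x (H' := Hf σ' r') fun a ha => by
    simp only [Hf, h1 a ha, hr a ha]]
  refine congrArg (_ * ·) ?_
  unfold chX
  rw [prod_image hX]
  refine prod_congr rfl fun q hq => congrArg _ (funext fun i => ?_)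
  rw [slot_map hπ, h1 _ (qmapl_mem_slots.2 ⟨q, hq, i, rfl⟩)]

theorem qmap_psr {Q' : Type} [AddCommGroup Q'] [DecidableEq Q'] {e' : Fin 2 → Q'} {π : Q' → Q}
    (hπ : Mor e' e π) (N k B : ℕ) (x : ℝ) :
    QMap e' (psr N k B e' x) (psr N k B e x) π := by
  intro 𝒳 A hinj
  have hX : Set.InjOn π (SS (s1 e') 𝒳 : Finset Q') := by
    refine hinj.mono (coe_subset.2 fun q hq => mem_biUnion.2 ⟨(q, 0), ?_, by simp [ph]⟩)
    simp only [asp, mem_product]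
    refine ⟨hq, ?_⟩
    split_ifs <;> simp
  have h3 : Set.InjOn π (SS (tr3 e') (SS (str e') 𝒳.toRight) : Finset Q') := by
    by_cases h0 : 𝒳.toRight = ∅
    · simp [h0, SS]
    · refine hinj.mono (coe_subset.2 fun p hp => ?_)
      obtain ⟨q, hq, hp⟩ := mem_SS.1 hp
      refine mem_biUnion.2 ⟨(q, 2), ?_, by simpa [ph] using hp⟩
      simp only [asp, mem_product, if_neg h0]
      exact ⟨str_subset_s1 𝒳 hq, mem_univ _⟩
  have m1 : ∀ a ∈ 𝒳.toLeft, a.1 ∈ SS (s1 e') 𝒳 := fun a ha =>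
    mem_SS.2 ⟨.inl a, mem_toLeft.1 ha, by simp [s1]⟩
  have m2 : ∀ a ∈ 𝒳.toLeft, a.1 + e' a.2 ∈ SS (s1 e') 𝒳 := fun a ha =>
    mem_SS.2 ⟨.inl a, mem_toLeft.1 ha, by simp [s1]⟩
  have hL : Set.InjOn (Prod.map π id : Ed Q' → Ed Q) (𝒳.toLeft : Finset (Ed Q')) :=
    fun a ha b hb hab =>
      Prod.ext (hX (m1 a ha) (m1 b hb) (congrArg Prod.fst hab)) (Prod.ext_iff.1 hab).2
  unfold psr
  rw [s1_map hπ, qmapl_toLeft, qmapl_toRight, str_map hπ,
    ← image_sdiff_of_injOn hX (str_subset_s1 𝒳), prod_image hX]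
  refine congrArg (· / _) ?_
  refine sum_asg_map 0 _ _ _ hL (Equiv.refl _) (fun _ => Iff.rfl) _ _ fun r hr r' hr' h => ?_
  have key : ∀ q ∈ SS (s1 e') 𝒳, ∀ i, r (Prod.map π id (slot e' q i)) = r' (slot e' q i) := by
    intro q hq i
    by_cases ha : slot e' q i ∈ 𝒳.toLeft
    · exact (h _ ha).symm
    · rw [(mem_asg.1 hr').2 _ ha]
      refine (mem_asg.1 hr).2 _ fun hm => ha ?_
      obtain ⟨b, hb, hba⟩ := mem_image.1 hm
      have e1 : π b.1 = π (slot e' q i).1 := congrArg Prod.fst hba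
      have e2 : b.2 = (slot e' q i).2 := (Prod.ext_iff.1 hba).2
      have e3 : b.1 = (slot e' q i).1 := by
        rcases slot_end (e := e') q i with h4 | h4
        · exact hX (m1 b hb) (by rw [h4]; exact hq) e1
        · have e4 : b.1 + e' b.2 = q := by
            refine hX (m2 b hb) hq ?_
            rw [hπ, e1, e2, ← hπ, h4]
          rw [← h4, ← e2] at e4
          exact add_right_cancel e4
      rw [← Prod.ext e3 e2]
      exact hb
  rw [sum_image hL, psiK_map hπ N k B x h3 (r' := r') (fun a ha => by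
      obtain ⟨q, hq, i, rfl⟩ := qmapl_mem_slots.1 ha
      exact key q (str_subset_s1 𝒳 hq) i),
    prod_image (hX.mono (coe_subset.2 sdiff_subset))]
  refine congrArg₂ (· * ·) (congrArg (fun t => x ^ t * _) ?_) ?_
  · exact sum_congr rfl fun a ha => by rw [h a ha]; rfl
  · refine prod_congr rfl fun q hq => congrArg _ (funext fun i => ?_)
    rw [slot_map hπ, key q (mem_sdiff.1 hq).1]

end Pool.Agent.MP_646035_al.PC
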