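import Pool.Agent.MP_646035_al.PC.Sum
import Pool.Agent.MP_646035_al.PC.Rep
import Pool.Agent.MP_646035_al.PC.FcB
import Pool.Agent.MP_646035_al.PC.Fc

namespace Pool.Agent.MP_646035_al.PC

open Finset PT

variable {n k : ℕ} {Q : Type} [AddCommGroup Q] [DecidableEq Q] {e : Fin 2 → Q}

/-- The two lower layers over a node. -/
def pbulk_H (v : Q) : Finset (Q × Fin 3) := {v} ×ˢ {0, 1}

omit [AddCommGroup Q] in
lemma pbulk_card (v : Q) : ((pbulk_H v).card : ℝ) = 2 := by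
  simp [pbulk_H]

lemma pbulk_layer {C : Finset (Atm Q)} {v : Q} {t : Fin 3} (h : (v, t) ∈ SS (asp e) C) :
    ∃ q ∈ pbulk_H v, q ∈ SS (asp e) C := by
  obtain ⟨α, hα, hq⟩ := mem_SS.1 h
  rcases α with X | X | a
  · refine ⟨(v, 1), by simp [pbulk_H], mem_SS.2 ⟨_, hα, ?_⟩⟩
    simp only [asp, mem_product] at hq ⊢
    refine ⟨hq.1, ?_⟩
    split_ifs <;> simp
  · refine ⟨(v, 1), by simp [pbulk_H], mem_SS.2 ⟨_, hα, ?_⟩⟩
    simp only [asp, mem_product] at hq ⊢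
    exact ⟨hq.1, by simp⟩
  · refine ⟨(v, t), ?_, h⟩
    simp only [asp, mem_insert, mem_singleton, Prod.mk.injEq] at hq
    rcases hq with hq | hq <;> simp [pbulk_H, hq.2]

lemma pbulk_Dl (w : Finset (Atm Q) → ℝ) (Λ : Finset (Finset (Atm Q))) (v : Q) :
    Dl (SS (asp e)) w Λ ({v} ×ˢ univ) = Dl (SS (asp e)) w Λ (pbulk_H v) := by
  have : away (SS (asp e)) Λ ({v} ×ˢ univ) = away (SS (asp e)) Λ (pbulk_H v) := by
    refine filter_congr fun C _ => ⟨fun h => h.mono_right ?_, fun h => ?_⟩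
    · exact product_subset_product_right (subset_univ _)
    · refine disjoint_left.2 fun q hq hv => ?_
      obtain ⟨u, t⟩ := q
      obtain rfl : u = v := mem_singleton.1 (mem_product.1 hv).1
      obtain ⟨q, h1, h2⟩ := pbulk_layer hq
      exact disjoint_left.1 h h2 h1
  rw [Dl, Dl, this]

lemma pbulk_mem_above {U : Finset (Finset (Atm Q))} {A : Finset Q} {C : Finset (Atm Q)} :
    C ∈ above (SS (asp e)) Prod.fst U A ↔ C ∈ U ∧ ∀ q ∈ SS (asp e) C, q.1 ∈ A := by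
  simp [above]

lemma pbulk_nds {A : Finset Q} {C : Finset (Atm Q)} :
    nds e C ⊆ A ↔ ∀ q ∈ SS (asp e) C, q.1 ∈ A := by
  simp [nds, image_subset_iff]

lemma pbulk_mem_spls {c : ℤ} {A : Finset ℤ} {C : Finset (Atm ℤ)} :
    C ∈ spls c A ↔ C ∈ pls (eH c) A ∧ Sml c C := by
  classical
  simp [spls]

lemma pbulk_tele {κ : Type} [LinearOrder κ] (w : Finset (Atm Q) → ℝ) {A : Finset Q}
    {U : Finset (Finset (Atm Q))} (hU : U ⊆ pls e A) (r : Q → κ) (hr : Function.Injective r) :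
    Real.log (Xi (SS (asp e)) w U) = ∑ v ∈ A, Dl (SS (asp e)) w
      (above (SS (asp e)) Prod.fst U (A.filter fun u => r v ≤ r u)) (pbulk_H v) := by
  classical
  simp only [← pbulk_Dl]
  rw [← telescope (supp := SS (asp e)) (w := w) (U := U) Prod.fst (fun v => {v} ×ˢ univ)
    (fun q v => by rw [mem_product]; simp) (fun γ hγ => (mem_pls.1 (hU hγ)).1.nonempty) r hr A]
  congr 2
  exact (filter_true_of_mem fun δ hδ => pbulk_nds.1 (mem_pls.1 (hU hδ)).2).symm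

lemma pbulk_two {w : Finset (Atm Q) → ℝ} {U : Finset (Finset (Atm Q))} (h : KP (SS (asp e)) w U)
    (A : Finset Q) (v : Q) :
    |Dl (SS (asp e)) w (above (SS (asp e)) Prod.fst U A) (pbulk_H v)| ≤ 2 := by
  classical
  have := h.Dl_le (Λ := above (SS (asp e)) Prod.fst U A) (filter_subset _ _) (pbulk_H v)
  rwa [pbulk_card] at this

/-- The order of the plane that refines the order of the helix. -/
def pbulk_rk (c : ℤ) (v : ℤ × ℤ) : ℤ ×ₗ ℤ := toLex (prH c 0 v, v.1)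

lemma pbulk_rk_inj (c : ℤ) : Function.Injective (pbulk_rk c) := by
  rintro ⟨u1, u2⟩ ⟨v1, v2⟩ h
  have h1 : ((prH c 0 (u1, u2), u1) : ℤ × ℤ) = (prH c 0 (v1, v2), v1) := toLex.injective h
  obtain ⟨h2, h3⟩ := Prod.mk.inj h1
  subst h3
  have h4 : (2 * c + 1) * u2 = (2 * c + 1) * v2 := by
    simp only [prH] at h2
    linarith
  rw [mul_left_cancel₀ (by omega) h4]

lemma pbulk_rk_iff {c : ℤ} {v u : ℤ × ℤ} (h : (u.1 - v.1).natAbs + (u.2 - v.2).natAbs < n0 c) :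
    pbulk_rk c v ≤ pbulk_rk c u ↔ prH c 0 v ≤ prH c 0 u := by
  unfold pbulk_rk
  rw [Prod.Lex.toLex_le_toLex]
  refine ⟨fun hh => hh.elim le_of_lt fun h1 => h1.1.le, fun hh => ?_⟩
  rcases hh.lt_or_eq with h1 | h1
  · exact Or.inl h1
  · exact Or.inr ⟨h1, by rw [prH_eq h1.symm h]⟩

lemma pbulk_len (v : ℤ × ℤ) : lenP (pbulk_H v) = 0 := by
  have h : (pbulk_H v).biUnion (ph eP) ⊆ {v} := by
    intro u hu
    obtain ⟨⟨p, t⟩, h1, h2⟩ := mem_biUnion.1 hu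
    simp only [pbulk_H, mem_product, mem_singleton, mem_insert] at h1
    obtain ⟨rfl, rfl | rfl⟩ := h1 <;> simpa [ph] using h2
  have h1 : ∀ g : ℤ × ℤ → ℤ, diam (((pbulk_H v).biUnion (ph eP)).image g) ≤ 0 := fun g => by
    refine diam_le fun a ha b hb => ?_
    obtain ⟨q, hq, rfl⟩ := mem_image.1 ha
    obtain ⟨q', hq', rfl⟩ := mem_image.1 hb
    rw [mem_singleton.1 (h hq), mem_singleton.1 (h hq')]
    simp
  have h2 := h1 Prod.fst
  have h3 := h1 Prod.snd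
  unfold lenP
  omega

lemma pbulk_near {v : ℤ × ℤ} {A : Finset ((ℤ × ℤ) × Fin 3)} {q : (ℤ × ℤ) × Fin 3} (hq : q ∈ A) :
    (q.1.1 - v.1).natAbs + (q.1.2 - v.2).natAbs ≤ lenP (pbulk_H v ∪ A) :=
  le_lenP (mem_biUnion.2 ⟨q, mem_union_right _ hq, mem_ph q⟩)
    (mem_biUnion.2 ⟨(v, 0), mem_union_left _ (by simp [pbulk_H]), mem_ph (v, 0)⟩)

lemma pbulk_shift {c : ℤ} {v u : ℤ × ℤ} (h : (u.1 - v.1).natAbs + (u.2 - v.2).natAbs < n0 c) :
    prH c 0 u ≤ prH c 0 v + (n0 c : ℤ) ^ 2 := by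
  have h1 : |2 * c| ≤ (n0 c : ℤ) := by
    unfold n0
    rw [abs_le]
    omega
  have h2 : |2 * c + 1| ≤ (n0 c : ℤ) := by
    unfold n0
    rw [abs_le]
    omega
  have h3 : |u.1 - v.1| + |u.2 - v.2| ≤ (n0 c : ℤ) := by
    rw [← Int.natCast_natAbs, ← Int.natCast_natAbs]
    omega
  have h4 : 2 * c * (u.1 - v.1) ≤ n0 c * |u.1 - v.1| := (le_abs_self _).trans (by
    rw [abs_mul]
    exact mul_le_mul_of_nonneg_right h1 (abs_nonneg _))
  have h5 : (2 * c + 1) * (u.2 - v.2) ≤ n0 c * |u.2 - v.2| := (le_abs_self _).trans (by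
    rw [abs_mul]
    exact mul_le_mul_of_nonneg_right h2 (abs_nonneg _))
  have h6 := mul_le_mul_of_nonneg_left h3 (Int.natCast_nonneg (n0 c))
  simp only [prH]
  linarith

lemma pbulk_compare {ν : Nums} {f : Pat → ℝ} {ψP : Finset (At1 (ℤ × ℤ)) → (ℤ × ℤ → Pat) → ℝ}
    {c : ℤ} {ψ : Finset (At1 ℤ) → (ℤ → Pat) → ℝ} (h : Cmp ν f ψP c ψ) {R : ℕ} {a b i : ℤ}
    {v : ℤ × ℤ} (hv : (n0 c : ℤ) ≤ v.1 ∧ v.1 + n0 c ≤ R ∧ (n0 c : ℤ) ≤ v.2 ∧ v.2 + n0 c ≤ R)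
    (hi : a ≤ i ∧ i + (n0 c : ℤ) ^ 2 < b) :
    |Dl (SS (asp eP)) (wgt ν eP f ψP) (above (SS (asp eP)) Prod.fst (pls eP (PT.sq R))
        ((PT.sq R).filter fun u => pbulk_rk c v ≤ pbulk_rk c u)) (pbulk_H v) -
      Dl (SS (asp (eH c))) (wgt ν (eH c) f ψ) (above (SS (asp (eH c))) Prod.fst (spls c (Ico a b))
        ((Ico a b).filter fun u => i ≤ u)) (pbulk_H i)| ≤
      2 / (4 ^ ν.m1 * (4 ^ ν.m2) ^ n0 c) := by
  classical
  set s : ℤ := i - prH c 0 v with hs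
  have hps : ∀ u, prH c s u = prH c 0 u - prH c 0 v + i := fun u => by
    simp only [prH, hs]
    ring
  have himg : (pbulk_H v).image (Prod.map (prH c s) id) = pbulk_H i := by
    have hp : prH c s v = i := by rw [hps]; ring
    ext ⟨j, t⟩
    simp only [pbulk_H, mem_image, mem_product, mem_singleton]
    constructor
    · rintro ⟨⟨u, t'⟩, ⟨hu, ht⟩, he⟩
      simp only at hu ht
      subst hu
      obtain ⟨h1, h2⟩ := Prod.mk.inj he
      exact ⟨h1.symm.trans hp, h2 ▸ ht⟩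
    · rintro ⟨rfl, ht⟩
      exact ⟨(v, t), ⟨rfl, ht⟩, by simp [hp]⟩
  have key := (coverH h s (Ico a b)).compare
    (above (SS (asp eP)) Prod.fst (pls eP (PT.sq R))
      ((PT.sq R).filter fun u => pbulk_rk c v ≤ pbulk_rk c u))
    (fun δ hδ => (mem_pls.1 (pbulk_mem_above.1 hδ).1).1)
    (above (SS (asp (eH c))) Prod.fst (spls c (Ico a b)) ((Ico a b).filter fun u => i ≤ u))
    (filter_subset _ _) (pbulk_H v) (pbulk_H v) subset_rfl ?_
  · rw [himg, pbulk_card, lenW, pbulk_len] at key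
    refine key.trans (le_of_eq ?_)
    rw [pow_add 2 (2 * ν.m1), pow_mul, pow_mul 2 (2 * ν.m2) (n0 c), pow_mul 2 2 ν.m2]
    norm_num [div_eq_mul_inv]
  · intro δ hδ hl
    have hval : Vld eP δ := hδ
    rw [lenW_lt_iff h.ok h.ne] at hl
    have hsm : lenP (SS (asp eP) δ) < n0 c := lt_of_le_of_lt (lenP_mono subset_union_right) hl
    have hnear : ∀ q ∈ SS (asp eP) δ, (q.1.1 - v.1).natAbs + (q.1.2 - v.2).natAbs < n0 c :=
      fun q hq => (pbulk_near hq).trans_lt hl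
    have hsq : ∀ q ∈ SS (asp eP) δ, q.1 ∈ PT.sq R := by
      intro q hq
      have h1 := hnear q hq
      simp only [PT.sq, mem_product, mem_Ico]
      omega
    have hlt : ∀ q ∈ SS (asp eP) δ, prH c s q.1 < b := by
      intro q hq
      rw [hps]
      linarith [pbulk_shift (hnear q hq), hi.2]
    have hiff : ∀ q ∈ SS (asp eP) δ, pbulk_rk c v ≤ pbulk_rk c q.1 ↔ i ≤ prH c s q.1 := by
      intro q hq
      rw [pbulk_rk_iff (hnear q hq), hps]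
      constructor <;> intro hh <;> linarith
    rw [pbulk_mem_above, pbulk_mem_above, pbulk_mem_spls, mem_pls, mem_pls, pbulk_nds,
      pbulk_nds, SS_mapP (mor_prH c s)]
    simp only [mem_filter, mem_Ico, forall_mem_image, Prod.map_fst]
    constructor
    · rintro ⟨-, h2⟩
      have h3 : ∀ q ∈ SS (asp eP) δ, a ≤ prH c s q.1 ∧ prH c s q.1 < b := fun q hq =>
        ⟨hi.1.trans ((hiff q hq).1 (h2 q hq).2), hlt q hq⟩
      exact ⟨⟨⟨hval.map (mor_prH c s), h3⟩, sml_map c s hval hsm⟩,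
        fun q hq => ⟨h3 q hq, (hiff q hq).1 (h2 q hq).2⟩⟩
    · rintro ⟨-, h2⟩
      exact ⟨⟨hval, hsq⟩, fun q hq => ⟨hsq q hq, (hiff q hq).2 (h2 hq).2⟩⟩

theorem bulkH {ν : Nums} {f : Pat → ℝ} {ψP : Finset (At1 (ℤ × ℤ)) → (ℤ × ℤ → Pat) → ℝ} {c : ℤ}
    {ψ : Finset (At1 ℤ) → (ℤ → Pat) → ℝ} (h : Cmp ν f ψP c ψ) {R : ℕ} (hR : 1 ≤ R) (a : ℤ) (M : ℕ) :
    |lX ν (eH c) f ψ (spls c (Ico a (a + M))) -
        M * (lX ν eP f ψP (pls eP (PT.sq R)) / (R : ℝ) ^ 2)| ≤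
      M * (2 / (4 ^ ν.m1 * (4 ^ ν.m2) ^ n0 c) + 24 * n0 c / R) + 6 * ((n0 c : ℝ) ^ 2 + 1) := by
  have hR0 : (0 : ℝ) < R := by exact_mod_cast hR
  have hR' : (0 : ℝ) < (R : ℝ) ^ 2 := by positivity
  have hsub : spls c (Ico a (a + M)) ⊆ pls (eH c) (Ico a (a + M)) :=
    fun C hC => (pbulk_mem_spls.1 hC).1
  have cmp := fun i v => pbulk_compare h (R := R) (a := a) (b := a + M) (i := i) (v := v)
  set ε : ℝ := 2 / (4 ^ ν.m1 * (4 ^ ν.m2) ^ n0 c) with hε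
  have hε0 : 0 ≤ ε := by positivity
  obtain ⟨D, hD⟩ : ∃ D : ℤ → ℝ, D = fun i => Dl (SS (asp (eH c))) (wgt ν (eH c) f ψ)
    (above (SS (asp (eH c))) Prod.fst (spls c (Ico a (a + M)))
      ((Ico a (a + M)).filter fun u => i ≤ u)) (pbulk_H i) := ⟨_, rfl⟩
  obtain ⟨D', hD'⟩ : ∃ D' : ℤ × ℤ → ℝ, D' = fun v => Dl (SS (asp eP)) (wgt ν eP f ψP)
    (above (SS (asp eP)) Prod.fst (pls eP (PT.sq R))
      ((PT.sq R).filter fun u => pbulk_rk c v ≤ pbulk_rk c u)) (pbulk_H v) := ⟨_, rfl⟩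
  have e1 : lX ν (eH c) f ψ (spls c (Ico a (a + M))) = ∑ i ∈ Ico a (a + M), D i := by
    rw [hD]
    exact pbulk_tele _ hsub id Function.injective_id
  have e2 : lX ν eP f ψP (pls eP (PT.sq R)) = ∑ v ∈ PT.sq R, D' v := by
    rw [hD']
    exact pbulk_tele _ subset_rfl (pbulk_rk c) (pbulk_rk_inj c)
  have b1 : ∀ i, |D i| ≤ 2 := fun i => by
    rw [hD]
    exact pbulk_two (kp_of_vld h.ok h.fb h.qH _ fun C hC => (mem_pls.1 (hsub hC)).1) _ i
  have b2 : ∀ v, |D' v| ≤ 2 := fun v => by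
    rw [hD']
    exact pbulk_two (kp_of_vld h.ok h.fb h.qP _ fun C hC => (mem_pls.1 hC).1) _ v
  replace cmp : ∀ i v, _ → _ → |D' v - D i| ≤ ε := fun i v h1 h2 => by
    rw [hD, hD']
    exact cmp i v h1 h2
  rw [e1, e2]
  set p : ℝ := (∑ v ∈ PT.sq R, D' v) / (R : ℝ) ^ 2 with hp
  have b3 : |p| ≤ 2 := by
    rw [hp, abs_div, abs_of_pos hR', div_le_iff₀ hR']
    refine (abs_sum_le_sum_abs _ _).trans ((sum_le_sum fun v _ => b2 v).trans ?_)
    rw [sum_const, nsmul_eq_mul, bulk_card_sq, mul_comm]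
  generalize n0 c = m at cmp ⊢
  set E : Finset ℤ := Ico (0 : ℤ) m ∪ Ico ((R : ℤ) - m) R with hE
  have hEc : (E.card : ℝ) ≤ 2 * m := by
    have := card_union_le (Ico (0 : ℤ) m) (Ico ((R : ℤ) - m) R)
    simp only [Int.card_Ico, sub_zero, Int.toNat_natCast, sub_sub_cancel] at this
    have h2 : E.card ≤ 2 * m := this.trans (by omega)
    exact_mod_cast h2
  set B : Finset (ℤ × ℤ) := E ×ˢ Ico (0 : ℤ) R ∪ Ico (0 : ℤ) R ×ˢ E with hB
  have hBc : (B.card : ℝ) ≤ 4 * m * R := by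
    have := card_union_le (E ×ˢ Ico (0 : ℤ) R) (Ico (0 : ℤ) R ×ˢ E)
    simp only [card_product, Int.card_Ico, sub_zero, Int.toNat_natCast] at this
    have h2 : (B.card : ℝ) ≤ E.card * R + R * E.card := by exact_mod_cast this
    nlinarith
  have good : ∀ i ∈ Ico a (a + M), i ∉ Ico (a + M - (m : ℤ) ^ 2) (a + M) →
      |D i - p| ≤ ε + 16 * m / R := by
    intro i hi hb
    have hi' : a ≤ i ∧ i + (m : ℤ) ^ 2 < a + M := by
      rw [mem_Ico] at hi hb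
      refine ⟨hi.1, ?_⟩
      by_contra hc
      exact hb ⟨by linarith [not_lt.1 hc], hi.2⟩
    have e3 : D i - p = (∑ v ∈ PT.sq R, (D i - D' v)) / (R : ℝ) ^ 2 := by
      rw [hp, sum_sub_distrib, sum_const, nsmul_eq_mul, bulk_card_sq]
      field_simp
    rw [e3, abs_div, abs_of_pos hR', div_le_iff₀ hR']
    refine (abs_sum_le_sum_abs _ _).trans ?_
    refine (bulk_sum_le (PT.sq R) B _ hε0 (c := 4) (by norm_num) (fun v hv hvB => ?_)
      fun v _ => ?_).trans ?_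
    · have hv' : (m : ℤ) ≤ v.1 ∧ v.1 + m ≤ R ∧ (m : ℤ) ≤ v.2 ∧ v.2 + m ≤ R := by
        simp only [hB, hE, PT.sq, mem_union, mem_product, mem_Ico] at hv hvB
        omega
      rw [abs_sub_comm]
      exact cmp i v hv' hi'
    · linarith [abs_sub (D i) (D' v), b1 i, b2 v]
    · rw [bulk_card_sq]
      have e4 : (ε + 16 * m / R) * (R : ℝ) ^ 2 = (R : ℝ) ^ 2 * ε + 4 * m * R * 4 := by
        field_simp
        ring
      rw [e4]
      linarith
  have e5 : ∑ i ∈ Ico a (a + M), D i - M * p = ∑ i ∈ Ico a (a + M), (D i - p) := by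
    rw [sum_sub_distrib, sum_const, nsmul_eq_mul]
    simp
  rw [e5]
  refine (abs_sum_le_sum_abs _ _).trans ?_
  refine (bulk_sum_le _ (Ico (a + M - (m : ℤ) ^ 2) (a + M)) _ (by positivity) (c := 4)
    (by norm_num) good fun i _ => ?_).trans ?_
  · linarith [abs_sub (D i) p, b1 i]
  · have c1 : ((Ico a (a + M)).card : ℝ) = M := by simp
    have c2 : (Ico (a + M - (m : ℤ) ^ 2) (a + M)).card = m ^ 2 := by
      rw [Int.card_Ico, sub_sub_cancel]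
      exact_mod_cast Int.toNat_natCast (m ^ 2)
    rw [c1, c2]
    push_cast
    have c3 : (0 : ℝ) ≤ M * (m / R) := by positivity
    have c4 : (0 : ℝ) ≤ (m : ℝ) ^ 2 := by positivity
    have c5 : M * (ε + 24 * m / R) = M * (ε + 16 * m / R) + 8 * (M * (m / R)) := by ring
    rw [c5]
    linarith

end Pool.Agent.MP_646035_al.PC

namespace Pool.Agent.MP_646035_al.PC

open Finset PT

variable {n k : ℕ} {Q : Type} [AddCommGroup Q] [DecidableEq Q] {e : Fin 2 → Q}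

open Classical in
lemma pana_sdiff (c : ℤ) (A : Finset ℤ) :
    pls (eH c) A \ (pls (eH c) A).filter (fun C => ¬ Sml c C) = spls c A := by
  ext C
  rw [spls, mem_filter, mem_sdiff, mem_filter]
  exact ⟨fun h => ⟨h.1, by_contra fun k => h.2 ⟨h.1, k⟩⟩, fun h => ⟨h.1, fun k => k.2 h.2⟩⟩

lemma pana_card_s1 (X : Finset (At1 Q)) : (SS (s1 e) X).card ≤ 6 * X.card := by
  rw [SS, mul_comm]
  refine card_biUnion_le_card_mul _ _ _ fun α _ => ?_
  rcases α with a | y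
  · exact card_le_two.trans (by norm_num)
  · exact card_le_six

lemma pana_n0_le (c : ℤ) : n0 c ≤ 4 * c.natAbs + 1 := by
  rw [n0]
  omega

lemma pana_n0_pos (c : ℤ) : 1 ≤ n0 c := by
  rw [n0]
  omega

lemma pana_total {ν : Nums} {f : Pat → ℝ} {ψP : Finset (At1 (ℤ × ℤ)) → (ℤ × ℤ → Pat) → ℝ} {c : ℤ}
    {ψ : Finset (At1 ℤ) → (ℤ → Pat) → ℝ} (h : Cmp ν f ψP c ψ) (a : ℤ) (M : ℕ)
    {N : Finset (Finset (Atm ℤ))} (hN : N ⊆ pls (eH c) (Ico a (a + M))) :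
    ∑ C ∈ N, |wgt ν (eH c) f ψ C| * Real.exp (2 * (SS (asp (eH c)) C).card) *
      ((2 ^ ν.m2) ^ (∑ α ∈ C, asz' α) * (2 ^ ν.m1) ^ ord (eH c) C) ≤ M / 2 := by
  have key := total_le h.ok h.fb h.qH N (Ico a (a + M)) fun C hC => mem_pls.1 (hN hC)
  have hc : (Ico a (a + M)).card = M := by
    rw [Int.card_Ico]
    omega
  rwa [hc] at key

lemma pana_kp {ν : Nums} {f : Pat → ℝ} {ψP : Finset (At1 (ℤ × ℤ)) → (ℤ × ℤ → Pat) → ℝ} {c : ℤ}
    {ψ : Finset (At1 ℤ) → (ℤ → Pat) → ℝ} (h : Cmp ν f ψP c ψ) (A : Finset ℤ) :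
    KP (SS (asp (eH c))) (wgt ν (eH c) f ψ) (pls (eH c) A) :=
  kp_of_vld h.ok h.fb h.qH _ fun _ hC => (mem_pls.1 hC).1

theorem large_leH {ν : Nums} {f : Pat → ℝ} {ψP : Finset (At1 (ℤ × ℤ)) → (ℤ × ℤ → Pat) → ℝ} {c : ℤ}
    {ψ : Finset (At1 ℤ) → (ℤ → Pat) → ℝ} (h : Cmp ν f ψP c ψ) (a : ℤ) (M : ℕ) :
    lX ν (eH c) f ψ (pls (eH c) (Ico a (a + M))) - lX ν (eH c) f ψ (spls c (Ico a (a + M))) ≤
      M * Real.exp (-(2 * c.natAbs)) := by
  classical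
  have key := (pana_kp h (Ico a (a + M))).remove (Λ := pls (eH c) (Ico a (a + M)))
    (N := (pls (eH c) (Ico a (a + M))).filter fun C => ¬ Sml c C) subset_rfl
  rw [pana_sdiff] at key
  refine (le_abs_self _).trans (key.trans ?_)
  have ht := pana_total h a M (filter_subset
    (fun C => C ∈ (pls (eH c) (Ico a (a + M))).filter fun C => ¬ Sml c C) _)
  have h1 : ∀ C ∈ (pls (eH c) (Ico a (a + M))).filter
      (fun C => C ∈ (pls (eH c) (Ico a (a + M))).filter fun C => ¬ Sml c C),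
      2 * |wgt ν (eH c) f ψ C| * Real.exp (SS (asp (eH c)) C).card ≤
        2 * Real.exp (-(2 * c.natAbs)) * (|wgt ν (eH c) f ψ C| *
          Real.exp (2 * (SS (asp (eH c)) C).card) *
            ((2 ^ ν.m2) ^ (∑ α ∈ C, asz' α) * (2 ^ ν.m1) ^ ord (eH c) C)) := by
    intro C hC
    obtain ⟨hC1, hC2⟩ := mem_filter.1 (mem_filter.1 hC).2
    have h2 : 2 * c.natAbs ≤ (SS (asp (eH c)) C).card := by
      by_contra hc
      have h3 : (nds (eH c) C).card ≤ (SS (asp (eH c)) C).card := card_image_le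
      exact hC2 (sml_of_card (mem_pls.1 hC1).1 (by omega))
    have h3 : 2 * (c.natAbs : ℝ) ≤ (SS (asp (eH c)) C).card := by exact_mod_cast h2
    have h4 : Real.exp (SS (asp (eH c)) C).card ≤
        Real.exp (-(2 * c.natAbs)) * Real.exp (2 * (SS (asp (eH c)) C).card) := by
      rw [← Real.exp_add]
      exact Real.exp_le_exp.2 (by linarith)
    have h5 : (1 : ℝ) ≤ (2 ^ ν.m2) ^ (∑ α ∈ C, asz' α) * (2 ^ ν.m1) ^ ord (eH c) C :=
      one_le_mul_of_one_le_of_one_le (one_le_pow₀ (one_le_pow₀ one_le_two))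
        (one_le_pow₀ (one_le_pow₀ one_le_two))
    have h6 := abs_nonneg (wgt ν (eH c) f ψ C)
    have h7 : 0 ≤ |wgt ν (eH c) f ψ C| * (Real.exp (-(2 * c.natAbs)) *
        Real.exp (2 * (SS (asp (eH c)) C).card)) :=
      mul_nonneg h6 (mul_pos (Real.exp_pos _) (Real.exp_pos _)).le
    have h8 := mul_le_mul_of_nonneg_left h4 h6
    have h9 := mul_le_mul_of_nonneg_left h5 h7
    generalize ((2 : ℝ) ^ ν.m2) ^ (∑ α ∈ C, asz' α) * (2 ^ ν.m1) ^ ord (eH c) C = T at *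
    linarith
  refine (sum_le_sum h1).trans ?_
  rw [← mul_sum]
  have h8 := Real.exp_pos (-(2 * (c.natAbs : ℝ)))
  have h9 := mul_le_mul_of_nonneg_left ht h8.le
  linarith

theorem large_geH {ν : Nums} {f : Pat → ℝ} {ψP : Finset (At1 (ℤ × ℤ)) → (ℤ × ℤ → Pat) → ℝ} {c : ℤ}
    {ψ : Finset (At1 ℤ) → (ℤ → Pat) → ℝ} (h : Cmp ν f ψP c ψ) (a : ℤ) (M : ℕ) :
    ((M : ℝ) - 4 * c.natAbs) * (ν.ξl * ν.ηl ^ (n0 c - 1) * Real.exp (-(n0 c : ℝ)) / 2) -
        M / (4 ^ ν.m1 * (4 ^ ν.m2) ^ n0 c) ≤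
      lX ν (eH c) f ψ (pls (eH c) (Ico a (a + M))) -
        lX ν (eH c) f ψ (spls c (Ico a (a + M))) := by
  classical
  have hx := h.ok.x0
  have hl := h.ok.l0
  have hinj := cyP_injective h.ne
  have key := (pana_kp h (Ico a (a + M))).gain (Λ := pls (eH c) (Ico a (a + M)))
    (N := (pls (eH c) (Ico a (a + M))).filter fun C => ¬ Sml c C)
    (N₁ := (Ico (a + 2 * |c|) (a + M - 2 * |c|)).image (cyP c)) subset_rfl (filter_subset _ _)
    ?_ ?_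
  · rw [pana_sdiff, sum_image fun i _ j _ hij => hinj hij] at key
    refine le_trans (sub_le_sub ?_ ?_) key
    · have h1 : ∀ i ∈ Ico (a + 2 * |c|) (a + M - 2 * |c|),
          ν.ξl * ν.ηl ^ (n0 c - 1) * Real.exp (-(n0 c : ℝ)) / 2 ≤
          wgt ν (eH c) f ψ (cyP c i) *
            Real.exp (-((SS (asp (eH c)) (cyP c i)).card : ℝ)) / 2 := by
        intro i _
        have h2 : ((SS (asp (eH c)) (cyP c i)).card : ℝ) ≤ n0 c := by
          exact_mod_cast (cyP_facts h.ne i).2.2.1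
        have h3 := wgt_cyP h.ok h.fb h.ne ψ i
        refine div_le_div_of_nonneg_right (mul_le_mul h3 (Real.exp_le_exp.2 (by linarith))
          (Real.exp_pos _).le (le_trans (by positivity) h3)) (by norm_num)
      refine le_trans ?_ (sum_le_sum h1)
      rw [sum_const, nsmul_eq_mul]
      refine mul_le_mul_of_nonneg_right ?_ (by positivity)
      have h5 : (M : ℤ) - 4 * (c.natAbs : ℤ) ≤
          ((Ico (a + 2 * |c|) (a + M - 2 * |c|)).card : ℤ) := by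
        rw [Int.card_Ico, ← Int.natCast_natAbs c]
        omega
      exact_mod_cast h5
    · have ht := pana_total h a M ((filter_subset
        (fun C => wgt ν (eH c) f ψ C < 0) _).trans
          (filter_subset (fun C => ¬ Sml c C) (pls (eH c) (Ico a (a + M)))))
      have h7 : (0 : ℝ) < 4 ^ ν.m1 * (4 ^ ν.m2) ^ n0 c := by positivity
      have h1 : ∀ C ∈ ((pls (eH c) (Ico a (a + M))).filter fun C => ¬ Sml c C).filter
          (fun C => wgt ν (eH c) f ψ C < 0),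
          2 * |wgt ν (eH c) f ψ C| * Real.exp (SS (asp (eH c)) C).card ≤
            2 / (4 ^ ν.m1 * (4 ^ ν.m2) ^ n0 c) * (|wgt ν (eH c) f ψ C| *
              Real.exp (2 * (SS (asp (eH c)) C).card) *
                ((2 ^ ν.m2) ^ (∑ α ∈ C, asz' α) * (2 ^ ν.m1) ^ ord (eH c) C)) := by
        intro C hC
        obtain ⟨hC0, hneg⟩ := mem_filter.1 hC
        obtain ⟨hC1, hC2⟩ := mem_filter.1 hC0
        have hv := (mem_pls.1 hC1).1
        obtain ⟨X, hX, -⟩ := ghost_of_neg h.ok h.fb h.qH hv hneg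
        have h2 : 2 * n0 c ≤ ∑ α ∈ C, asz' α := by
          have h3 : (nds (eH c) C).card ≤ 6 * X.card := by
            refine le_trans (card_le_card ?_) (pana_card_s1 (e := eH c) X)
            intro q hq
            rw [nds, hX] at hq
            obtain ⟨t, ht, rfl⟩ := mem_image.1 hq
            simp only [SS, singleton_biUnion, asp, mem_product] at ht
            exact ht.1
          have h4 : 2 * c.natAbs ≤ (nds (eH c) C).card := by
            by_contra hc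
            exact hC2 (sml_of_card hv (by omega))
          have h5 := pana_n0_le c
          have h6 : c.natAbs ≠ 0 := Int.natAbs_ne_zero.2 h.ne
          rw [hX, sum_singleton, asz']
          omega
        have h2' : 2 ≤ ord (eH c) C := by
          rw [ord, hX, sum_singleton, aor]
          omega
        have h5 : ((4 : ℝ) ^ ν.m2) ^ n0 c ≤ (2 ^ ν.m2) ^ (∑ α ∈ C, asz' α) := by
          rw [show (4 : ℝ) = 2 ^ 2 by norm_num, ← pow_mul 2 2 ν.m2, mul_comm 2 ν.m2, pow_mul,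
            ← pow_mul ((2 : ℝ) ^ ν.m2) 2]
          exact pow_le_pow_right₀ (one_le_pow₀ one_le_two) h2
        have h5' : (4 : ℝ) ^ ν.m1 ≤ (2 ^ ν.m1) ^ ord (eH c) C := by
          rw [show (4 : ℝ) = 2 ^ 2 by norm_num, ← pow_mul, mul_comm 2 ν.m1, pow_mul]
          exact pow_le_pow_right₀ (one_le_pow₀ one_le_two) h2'
        have h5'' : (4 : ℝ) ^ ν.m1 * (4 ^ ν.m2) ^ n0 c ≤
            (2 ^ ν.m2) ^ (∑ α ∈ C, asz' α) * (2 ^ ν.m1) ^ ord (eH c) C := by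
          rw [mul_comm]
          exact mul_le_mul h5 h5' (by positivity) (by positivity)
        have h4 : Real.exp (SS (asp (eH c)) C).card ≤
            Real.exp (2 * (SS (asp (eH c)) C).card) := by
          have : (0 : ℝ) ≤ (SS (asp (eH c)) C).card := Nat.cast_nonneg _
          exact Real.exp_le_exp.2 (by linarith)
        have h6 := abs_nonneg (wgt ν (eH c) f ψ C)
        rw [div_mul_eq_mul_div, le_div_iff₀ h7]
        have h8 := mul_le_mul_of_nonneg_left (mul_le_mul h4 h5'' h7.le (Real.exp_pos _).le) h6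
        generalize ((2 : ℝ) ^ ν.m2) ^ (∑ α ∈ C, asz' α) * (2 ^ ν.m1) ^ ord (eH c) C = T at *
        generalize (4 : ℝ) ^ ν.m1 * (4 ^ ν.m2) ^ n0 c = D at *
        linarith
      refine (sum_le_sum h1).trans ?_
      rw [← mul_sum]
      refine (mul_le_mul_of_nonneg_left ht (by positivity)).trans (le_of_eq ?_)
      field_simp
  · intro C hC
    obtain ⟨i, hi, rfl⟩ := mem_image.1 hC
    obtain ⟨f1, f2, -, f4⟩ := cyP_facts h.ne i
    refine mem_filter.2 ⟨mem_pls.2 ⟨f1, f2.trans fun q hq => ?_⟩, f4⟩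
    rw [mem_Icc] at hq
    rw [mem_Ico] at hi ⊢
    omega
  · intro C hC
    obtain ⟨i, -, rfl⟩ := mem_image.1 hC
    exact le_trans (by positivity) (wgt_cyP h.ok h.fb h.ne ψ i)

lemma pana_gain {ν : Nums} (hν : ν.Ok) {N : ℕ} (hN : 1 ≤ N) :
    6 / (4 ^ ν.m1 * (4 ^ ν.m2) ^ N) ≤ ν.ξl * ν.ηl ^ (N - 1) * Real.exp (-(N : ℝ)) / 2 := by
  obtain ⟨j, rfl⟩ : ∃ j, N = j + 1 := ⟨N - 1, by omega⟩
  have hx := hν.x0
  have hl := hν.l0
  have h3 : Real.exp (-((j + 1 : ℕ) : ℝ)) = Real.exp (-1) ^ (j + 1) := by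
    rw [← Real.exp_nat_mul]
    congr 1
    ring
  have h4 : (1 / 3 : ℝ) ≤ Real.exp (-1) := by
    rw [Real.exp_neg, one_div]
    exact inv_anti₀ (Real.exp_pos 1) (by linarith [Real.exp_one_lt_d9])
  have h5 : (1 : ℝ) ≤ ν.ηl * 4 ^ ν.m2 * Real.exp (-1) := by nlinarith [hν.h5]
  have h6 : (1 : ℝ) ≤ (ν.ηl * 4 ^ ν.m2 * Real.exp (-1)) ^ (j + 1) := one_le_pow₀ h5
  rw [Nat.add_sub_cancel, h3, div_le_iff₀ (by positivity)]
  have h7 : ν.ξl * ν.ηl ^ j * Real.exp (-1) ^ (j + 1) / 2 * (4 ^ ν.m1 * (4 ^ ν.m2) ^ (j + 1)) =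
      (ν.ξl * 4 ^ ν.m1) * (ν.ηl ^ j * (4 ^ ν.m2) ^ (j + 1) * Real.exp (-1) ^ (j + 1)) / 2 := by
    ring
  have h8 : (ν.ηl * 4 ^ ν.m2 * Real.exp (-1)) ^ (j + 1) =
      ν.ηl * (ν.ηl ^ j * (4 ^ ν.m2) ^ (j + 1) * Real.exp (-1) ^ (j + 1)) := by
    rw [mul_pow, mul_pow, pow_succ ν.ηl]
    ring
  have h9 : 0 ≤ ν.ηl ^ j * (4 ^ ν.m2) ^ (j + 1) * Real.exp (-1) ^ (j + 1) := by positivity
  rw [h7]
  rw [h8] at h6
  have h10 := mul_le_mul_of_nonneg_right hν.h6 h9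
  linarith

lemma pana_small {ν : Nums} (hν : ν.Ok) {j : ℕ} (hj : 1 ≤ j) :
    2 / (4 ^ ν.m1 * (4 ^ ν.m2) ^ n0 (j : ℤ)) + Real.exp (-(2 * ((j : ℤ).natAbs : ℝ))) ≤
      3 / (j : ℝ) := by
  have j0 : (0 : ℝ) < j := by exact_mod_cast hj
  have h1 : j ≤ 4 ^ ν.m1 * (4 ^ ν.m2) ^ n0 (j : ℤ) := by
    have a1 : j ≤ n0 (j : ℤ) := by
      rw [n0]
      omega
    have a2 : n0 (j : ℤ) < (4 ^ ν.m2) ^ n0 (j : ℤ) :=
      Nat.lt_pow_self (Nat.one_lt_pow (by have := hν.m2; omega) (by norm_num))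
    have a3 : 1 ≤ 4 ^ ν.m1 := Nat.one_le_pow _ _ (by norm_num)
    nlinarith
  have h2 : (j : ℝ) ≤ 4 ^ ν.m1 * (4 ^ ν.m2) ^ n0 (j : ℤ) := by exact_mod_cast h1
  have h3 : 2 / ((4 : ℝ) ^ ν.m1 * (4 ^ ν.m2) ^ n0 (j : ℤ)) ≤ 2 / j :=
    div_le_div_of_nonneg_left (by norm_num) j0 h2
  have h4 : Real.exp (-(2 * ((j : ℤ).natAbs : ℝ))) ≤ 1 / j := by
    rw [Int.natAbs_natCast, Real.exp_neg, one_div]
    exact inv_anti₀ j0 (by linarith [Real.add_one_le_exp (2 * (j : ℝ))])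
  have h5 : 3 / (j : ℝ) = 2 / j + 1 / j := by ring
  linarith

theorem analyticH {ν : Nums} (hν : ν.Ok) {c : ℤ} (hc : c ≠ 0) :
    ∃ c' : ℤ, c' ≠ 0 ∧ ∃ g C₀ : ℝ, 0 < g ∧ ∀ f ψP ψ ψ', Cmp ν f ψP c ψ → Cmp ν f ψP c' ψ' →
      ∀ (a a' : ℤ) (M : ℕ), lX ν (eH c') f ψ' (pls (eH c') (Ico a' (a' + M))) ≤
        lX ν (eH c) f ψ (pls (eH c) (Ico a (a + M))) - g * M + C₀ := by
  have hx := hν.x0
  have hl := hν.l0
  obtain ⟨g, hg⟩ : ∃ g : ℝ, g = ν.ξl * ν.ηl ^ (n0 c - 1) * Real.exp (-(n0 c : ℝ)) / 2 := ⟨_, rfl⟩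
  have g0 : 0 < g := by rw [hg]; positivity
  have e1 := pana_gain hν (pana_n0_pos c)
  rw [← hg] at e1
  obtain ⟨j₀, hj₀⟩ := exists_nat_ge (24 / g)
  have e2 := pana_small hν (j := j₀ + 1) (by omega)
  have e2' : 3 / ((j₀ + 1 : ℕ) : ℝ) ≤ g / 8 := by
    rw [div_le_iff₀ g0] at hj₀
    rw [div_le_iff₀ (by positivity)]
    push_cast
    linarith
  have hne : ((j₀ + 1 : ℕ) : ℤ) ≠ 0 := by omega
  generalize ((j₀ + 1 : ℕ) : ℤ) = c' at e2 hne
  replace e2 := e2.trans e2'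
  obtain ⟨R₀, hR₀⟩ := exists_nat_ge (192 * (n0 c + n0 c') / g)
  have e3 : 24 * n0 c / ((R₀ + 1 : ℕ) : ℝ) + 24 * n0 c' / ((R₀ + 1 : ℕ) : ℝ) ≤ g / 8 := by
    rw [div_le_iff₀ g0] at hR₀
    rw [← add_div, div_le_iff₀ (by positivity)]
    push_cast
    linarith
  have hR : 1 ≤ R₀ + 1 := by omega
  generalize R₀ + 1 = R at e3 hR
  refine ⟨c', hne, g / 4, 6 * ((n0 c : ℝ) ^ 2 + 1) + 6 * ((n0 c' : ℝ) ^ 2 + 1) + 4 * c.natAbs * g,
    by positivity, fun f ψP ψ ψ' h h' a a' M => ?_⟩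
  have b1 := (abs_le.1 (bulkH h hR a M)).1
  have b2 := (abs_le.1 (bulkH h' hR a' M)).2
  have b3 := large_geH h a M
  have b4 := large_leH h' a' M
  rw [← hg] at b3
  have M0 : (0 : ℝ) ≤ M := Nat.cast_nonneg _
  obtain ⟨D, hD⟩ : ∃ D : ℝ, D = 1 / (4 ^ ν.m1 * (4 ^ ν.m2) ^ n0 c) := ⟨_, rfl⟩
  rw [div_eq_mul_one_div, ← hD] at e1
  rw [div_eq_mul_one_div (M : ℝ), ← hD] at b3
  rw [div_eq_mul_one_div (2 : ℝ), ← hD] at b1
  have m1 := mul_le_mul_of_nonneg_left e1 M0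
  have m2 := mul_le_mul_of_nonneg_left e2 M0
  have m3 := mul_le_mul_of_nonneg_left e3 M0
  generalize lX ν (eH c) f ψ (pls (eH c) _) = A₁ at *
  generalize lX ν (eH c) f ψ (spls c _) = A₂ at *
  generalize lX ν (eH c') f ψ' (pls (eH c') _) = A₃ at *
  generalize lX ν (eH c') f ψ' (spls c' _) = A₄ at *
  generalize lX ν eP f ψP (pls eP (PT.sq R)) / (R : ℝ) ^ 2 = p at *
  generalize 2 / ((4 : ℝ) ^ ν.m1 * (4 ^ ν.m2) ^ n0 c') = D' at *
  generalize Real.exp (-(2 * (c'.natAbs : ℝ))) = E at *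
  generalize 24 * (n0 c : ℝ) / R = u at *
  generalize 24 * (n0 c' : ℝ) / R = u' at *
  linarith

end Pool.Agent.MP_646035_al.PC

namespace Pool.Agent.MP_646035_al.PC

open Finset PT

variable {n k : ℕ} {Q : Type} [AddCommGroup Q] [DecidableEq Q] {e : Fin 2 → Q}

lemma zcmp_k_pos {u : ℝ} (hu : Good k u) : 0 < k := by
  refine Nat.pos_of_ne_zero fun h => ?_
  have h1 := hu.big
  rw [h, Nat.cast_zero, zero_mul] at h1
  exact absurd h1 (not_le.2 (pow_pos (by norm_num) 15))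

lemma zcmp_eq (he : DirT e) {u y : ℝ} (hu : Good k u) (hy : Rng k u y) {B : ℕ} (hB : 2 ≤ B)
    {N : ℕ} (hN : Big k u N) {m1 m2 : ℕ} (hν : (numsOf k u m1 m2).Ok) (V : Finset Q) :
    ZZ N k B e y V = Nb k B y ^ (SS (str e) V).card * 2 ^ (slots e (SS (str e) V)).card *
      Real.exp (lX (numsOf k u m1 m2) e (ff k B y) (psr N k B e y)
        (conns (asp e) (atms e V))) := by
  classical
  obtain ⟨hfb, h1, -, h3⟩ := fb_of_rng hu hy hB m1 m2
  have hu0 := hu.pos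
  have hy0 : 0 < y := lt_of_lt_of_le (pow_pos hu0 4) hy.lo
  have hkp := kp_of_vld hν hfb (qb_psr he hu hy hB hN m1 m2) (conns (asp e) (atms e V))
    fun C hC => (vld_of_mem_conns hC).1
  rw [lX, Real.exp_log (hkp.pos Subset.rfl)]
  exact ZZ_eq_Xi _ N (zcmp_k_pos hu) (by omega) hy0 (by linarith)
    (fun A hA => lt_of_lt_of_le (by positivity) (h3 A hA).1) V

lemma zcmp_sdiff (c a : ℤ) (M : ℕ) :
    ((SS (str (eH c)) (Ico a (a + M)) \ Ico a (a + M)).card : ℝ) ≤ 2 * c.natAbs + 2 := by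
  have hsub : Ico a (a + M) ⊆ SS (str (eH c)) (Ico a (a + M)) := fun y hy =>
    mem_SS.2 ⟨y, hy, by simp [str]⟩
  have h1 := card_sdiff_add_card_eq_card hsub
  have h2 := (card_helix c a M).2.1
  have h3 : (Ico a (a + M)).card = M := by simp
  have h4 : (SS (str (eH c)) (Ico a (a + M)) \ Ico a (a + M)).card ≤ 2 * c.natAbs + 2 := by omega
  exact_mod_cast h4

lemma zcmp_pre_le {u y : ℝ} (hu : Good k u) (hy : Rng k u y) {B : ℕ} (hB : 2 ≤ B) (c a : ℤ)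
    (M : ℕ) :
    Nb k B y ^ (SS (str (eH c)) (Ico a (a + M))).card *
        2 ^ (slots (eH c) (SS (str (eH c)) (Ico a (a + M)))).card ≤
      (4 * Nb k B y) ^ M * ((1 / u ^ 8) ^ (2 * c.natAbs + 2) * 2 ^ (8 * c.natAbs + 8)) := by
  obtain ⟨-, h1, h2, -⟩ := fb_of_rng hu hy hB 0 0
  obtain ⟨-, c2, -, c4⟩ := card_helix c a M
  have h0 : 0 ≤ Nb k B y := by linarith
  have e1 : Nb k B y ^ (SS (str (eH c)) (Ico a (a + M))).card ≤
      Nb k B y ^ M * (1 / u ^ 8) ^ (2 * c.natAbs + 2) := by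
    refine (pow_le_pow_right₀ h1 c2).trans ?_
    rw [pow_add]
    exact mul_le_mul_of_nonneg_left (pow_le_pow_left₀ h0 h2 _) (pow_nonneg h0 M)
  have e2 : (2 : ℝ) ^ (slots (eH c) (SS (str (eH c)) (Ico a (a + M)))).card ≤
      4 ^ M * 2 ^ (8 * c.natAbs + 8) := by
    refine (pow_le_pow_right₀ (by norm_num) c4).trans (le_of_eq ?_)
    rw [pow_add, pow_mul]
    norm_num
  refine (mul_le_mul e1 e2 (by positivity) ((pow_nonneg h0 _).trans e1)).trans (le_of_eq ?_)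
  rw [mul_pow]
  ring

lemma zcmp_pre_ge {u y : ℝ} (hu : Good k u) (hy : Rng k u y) {B : ℕ} (hB : 2 ≤ B) (c a : ℤ)
    (M : ℕ) :
    (4 * Nb k B y) ^ M ≤ Nb k B y ^ (SS (str (eH c)) (Ico a (a + M))).card *
        2 ^ (slots (eH c) (SS (str (eH c)) (Ico a (a + M)))).card := by
  obtain ⟨-, h1, -, -⟩ := fb_of_rng hu hy hB 0 0
  obtain ⟨c1, -, c3, -⟩ := card_helix c a M
  have h0 : 0 ≤ Nb k B y := by linarith
  have e2 : (4 : ℝ) ^ M ≤ 2 ^ (slots (eH c) (SS (str (eH c)) (Ico a (a + M)))).card := by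
    refine le_trans (le_of_eq ?_) (pow_le_pow_right₀ (by norm_num) c3)
    rw [pow_mul]
    norm_num
  rw [mul_pow, mul_comm]
  exact mul_le_mul (pow_le_pow_right₀ h1 c1) e2 (by positivity) (pow_nonneg h0 _)

lemma zcmp_cmp {u y : ℝ} (hu : Good k u) (hy : Rng k u y) {B : ℕ} (hB : 2 ≤ B) {N : ℕ}
    (hN : Big k u N) {m1 m2 : ℕ} (hν : (numsOf k u m1 m2).Ok) {c : ℤ} (hc : c ≠ 0) :
    Cmp (numsOf k u m1 m2) (ff k B y) (psr N k B eP y) c (psr N k B (eH c) y) where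
  ok := hν
  fb := (fb_of_rng hu hy hB m1 m2).1
  qP := qb_psr dirT_eP hu hy hB hN m1 m2
  qH := qb_psr (dirT_eH c) hu hy hB hN m1 m2
  mp := fun s => qmap_psr (mor_prH c s) N k B y
  ne := hc

lemma zcmp_window {u y : ℝ} (hu : Good k u) (hy : Rng k u y) {B : ℕ} (hB : 2 ≤ B) {N : ℕ}
    (hN : Big k u N) {m1 m2 : ℕ} (hν : (numsOf k u m1 m2).Ok) (c a : ℤ) (M : ℕ) :
    |lX (numsOf k u m1 m2) (eH c) (ff k B y) (psr N k B (eH c) y)
          (conns (asp (eH c)) (atms (eH c) (Ico a (a + M)))) -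
        lX (numsOf k u m1 m2) (eH c) (ff k B y) (psr N k B (eH c) y)
          (pls (eH c) (Ico a (a + M)))| ≤ 3 * (2 * c.natAbs + 2) := by
  have h1 := lX_window hν (fb_of_rng hu hy hB m1 m2).1 (qb_psr (dirT_eH c) hu hy hB hN m1 m2)
    (Ico a (a + M))
  have h2 := zcmp_sdiff c a M
  linarith

theorem Z_compare {u : ℝ} (hu : Good k u) {N : ℕ} (hN : Big k u N) {c : ℤ} (hc : c ≠ 0) :
    ∃ c' : ℤ, c' ≠ 0 ∧ ∃ g C : ℝ, 0 < g ∧ 0 ≤ C ∧ ∀ y, Rng k u y → ∀ (B M : ℕ) (a : ℤ), 2 ≤ B →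
      ZZ N k B (eH c') y (Ico a (a + M)) ≤
        C * Real.exp (-(g * M)) * ZZ N k B (eH c) y (Ico 0 (M : ℤ)) := by
  obtain ⟨m1, m2, hν, -⟩ := exists_nums hu
  obtain ⟨c', hc', g, C₀, hg, H⟩ := analyticH hν hc
  have hu0 := hu.pos
  refine ⟨c', hc', g, (1 / u ^ 8) ^ (2 * c'.natAbs + 2) * 2 ^ (8 * c'.natAbs + 8) *
    Real.exp (C₀ + 3 * (2 * c'.natAbs + 2) + 3 * (2 * c.natAbs + 2)), hg, by positivity,
    fun y hy B M a hB => ?_⟩
  have h1 := H _ _ _ _ (zcmp_cmp hu hy hB hN hν hc) (zcmp_cmp hu hy hB hN hν hc') 0 a M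
  have w1 := (abs_le.1 (zcmp_window hu hy hB hN hν c' a M)).2
  have w2 := (abs_le.1 (zcmp_window hu hy hB hN hν c 0 M)).1
  have p1 := zcmp_pre_le hu hy hB c' a M
  have p2 := zcmp_pre_ge hu hy hB c 0 M
  have hNb : 0 ≤ Nb k B y := le_trans zero_le_one (fb_of_rng hu hy hB 0 0).2.1
  rw [show Ico (0 : ℤ) (M : ℤ) = Ico 0 (0 + (M : ℤ)) by rw [zero_add],
    zcmp_eq (dirT_eH c') hu hy hB hN hν, zcmp_eq (dirT_eH c) hu hy hB hN hν]
  set L' := lX (numsOf k u m1 m2) (eH c') (ff k B y) (psr N k B (eH c') y)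
    (conns (asp (eH c')) (atms (eH c') (Ico a (a + M))))
  set L := lX (numsOf k u m1 m2) (eH c) (ff k B y) (psr N k B (eH c) y)
    (conns (asp (eH c)) (atms (eH c) (Ico 0 (0 + (M : ℤ)))))
  set P' := Nb k B y ^ (SS (str (eH c')) (Ico a (a + M))).card *
    2 ^ (slots (eH c') (SS (str (eH c')) (Ico a (a + M)))).card
  set P := Nb k B y ^ (SS (str (eH c)) (Ico 0 (0 + (M : ℤ)))).card *
    2 ^ (slots (eH c) (SS (str (eH c)) (Ico 0 (0 + (M : ℤ))))).card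
  set K : ℝ := (1 / u ^ 8) ^ (2 * c'.natAbs + 2) * 2 ^ (8 * c'.natAbs + 8)
  set D : ℝ := C₀ + 3 * (2 * c'.natAbs + 2) + 3 * (2 * c.natAbs + 2) with hD
  have hK : 0 ≤ K := by positivity
  have hL : Real.exp L' ≤ Real.exp D * Real.exp (-(g * M)) * Real.exp L := by
    rw [← Real.exp_add, ← Real.exp_add]
    exact Real.exp_le_exp.2 (by linarith)
  have hP : P' ≤ P * K := p1.trans (mul_le_mul_of_nonneg_right p2 hK)
  have hP0 : 0 ≤ P := (pow_nonneg (by linarith) M).trans p2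
  refine (mul_le_mul hP hL (Real.exp_pos _).le (mul_nonneg hP0 hK)).trans (le_of_eq ?_)
  ring

theorem Z_star {u : ℝ} (hu : Good k u) {N : ℕ} (hN : Big k u N) (c : ℤ) :
    ∃ g C : ℝ, 0 < g ∧ ∀ (B M : ℕ) (a : ℤ), 2 ≤ B →
      (u ^ 4) ^ (2 * M) * ZZ N k B (eH c) (u ^ 4) (Ico a (a + M)) ≤
        C * Real.exp (-(g * M)) := by
  obtain ⟨m1, m2, hν, hm⟩ := exists_nums hu
  have hu0 := hu.pos
  have hy := rng_self hu
  refine ⟨u ^ 5 / 4, (1 / u ^ 8) ^ (2 * c.natAbs + 2) * 2 ^ (8 * c.natAbs + 8) *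
    Real.exp ((2 * c.natAbs + 2) / 2 ^ m1), by positivity, fun B M a hB => ?_⟩
  have h1 := (abs_le.1 (abs_lX_le (dirT_eH c) hν (fb_of_rng hu hy hB m1 m2).1
    (qb_psr (dirT_eH c) hu hy hB hN m1 m2) (conns (asp (eH c)) (atms (eH c) (Ico a (a + M))))
    (SS (str (eH c)) (Ico a (a + M))) fun C hC => vld_of_mem_conns hC)).2
  have p1 := zcmp_pre_le hu hy hB c a M
  have hs := numStar hu hB hm
  have hNb : 0 ≤ Nb k B (u ^ 4) := le_trans zero_le_one (fb_of_rng hu hy hB 0 0).2.1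
  have hcard : ((SS (str (eH c)) (Ico a (a + M))).card : ℝ) ≤ M + (2 * c.natAbs + 2) := by
    exact_mod_cast (card_helix c a M).2.1
  rw [zcmp_eq (dirT_eH c) hu hy hB hN hν]
  set L := lX (numsOf k u m1 m2) (eH c) (ff k B (u ^ 4)) (psr N k B (eH c) (u ^ 4))
    (conns (asp (eH c)) (atms (eH c) (Ico a (a + M))))
  set P := Nb k B (u ^ 4) ^ (SS (str (eH c)) (Ico a (a + M))).card *
    2 ^ (slots (eH c) (SS (str (eH c)) (Ico a (a + M)))).card
  set K : ℝ := (1 / u ^ 8) ^ (2 * c.natAbs + 2) * 2 ^ (8 * c.natAbs + 8)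
  have hK : 0 ≤ K := by positivity
  have hL : Real.exp L ≤
      Real.exp (1 / 2 ^ m1) ^ M * Real.exp ((2 * c.natAbs + 2) / 2 ^ m1) := by
    rw [← Real.exp_nat_mul, ← Real.exp_add]
    refine Real.exp_le_exp.2 (h1.trans ?_)
    change _ / (2 : ℝ) ^ m1 ≤ _
    rw [mul_one_div, ← add_div]
    exact div_le_div_of_nonneg_right hcard (by positivity)
  have hq : ((u ^ 4) ^ 2 * (4 * Nb k B (u ^ 4) * Real.exp (1 / 2 ^ m1))) ^ M ≤
      Real.exp (-(u ^ 5 / 4 * M)) := by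
    rw [show -(u ^ 5 / 4 * M) = M * -(u ^ 5 / 4) by ring, Real.exp_nat_mul]
    refine pow_le_pow_left₀ (by positivity) (hs.trans ?_) M
    have := Real.add_one_le_exp (-(u ^ 5 / 4))
    linarith
  have h2 : P * Real.exp L ≤ (4 * Nb k B (u ^ 4)) ^ M * K *
      (Real.exp (1 / 2 ^ m1) ^ M * Real.exp ((2 * c.natAbs + 2) / 2 ^ m1)) :=
    mul_le_mul p1 hL (Real.exp_pos _).le (by positivity)
  calc (u ^ 4) ^ (2 * M) * (P * Real.exp L)
      ≤ (u ^ 4) ^ (2 * M) * ((4 * Nb k B (u ^ 4)) ^ M * K *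
        (Real.exp (1 / 2 ^ m1) ^ M * Real.exp ((2 * c.natAbs + 2) / 2 ^ m1))) :=
        mul_le_mul_of_nonneg_left h2 (by positivity)
    _ = K * Real.exp ((2 * c.natAbs + 2) / 2 ^ m1) *
        ((u ^ 4) ^ 2 * (4 * Nb k B (u ^ 4) * Real.exp (1 / 2 ^ m1))) ^ M := by
        rw [pow_mul, mul_pow ((u ^ 4) ^ 2), mul_pow (4 * Nb k B (u ^ 4))]
        ring
    _ ≤ _ := mul_le_mul_of_nonneg_left hq (by positivity)

end Pool.Agent.MP_646035_al.PC
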