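import Pool.Agent.MP_646035_al.Growth

/-!
Signs, the infinite dihedral group and general lower bounds for growth rates.
-/

namespace Pool.Agent.MP_646035_al.PC

open Finset Filter Topology

/-- The sign `(-1)^u`. -/
noncomputable def sg (u : ZMod 2) : ℝ := if u = 0 then 1 else -1

lemma z2_cases (u : ZMod 2) : u = 0 ∨ u = 1 := by
  revert u; decide

@[simp] lemma sg_zero : sg 0 = 1 := by simp [sg]
@[simp] lemma sg_one : sg 1 = -1 := by simp [sg]

lemma z2_one_add_one : (1 : ZMod 2) + 1 = 0 := by decide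

lemma z2_add_self (u : ZMod 2) : u + u = 0 := by revert u; decide

lemma sg_add (u v : ZMod 2) : sg (u + v) = sg u * sg v := by
  rcases z2_cases u with rfl | rfl <;> rcases z2_cases v with rfl | rfl <;>
    simp [z2_one_add_one]

lemma sg_cases (u : ZMod 2) : sg u = 1 ∨ sg u = -1 := by
  rcases z2_cases u with rfl | rfl <;> simp

lemma sg_mul_self (u : ZMod 2) : sg u * sg u = 1 := by
  rcases sg_cases u with h | h <;> simp [h]

lemma sg_sum {ι : Type*} (P : Finset ι) (f : ι → ZMod 2) :
    sg (∑ i ∈ P, f i) = ∏ i ∈ P, sg (f i) := by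
  classical
  induction P using Finset.induction_on with
  | empty => simp
  | insert a s ha ih => rw [sum_insert ha, prod_insert ha, sg_add, ih]

/-- The sign `(-1)^b` as an integer. -/
def sgz (b : ZMod 2) : ℤ := if b = 0 then 1 else -1

@[simp] lemma sgz_zero : sgz 0 = 1 := rfl
@[simp] lemma sgz_one : sgz 1 = -1 := rfl
lemma sgz_add (b c : ZMod 2) : sgz (b + c) = sgz b * sgz c := by revert b c; decide
lemma sgz_mul_self (b : ZMod 2) : sgz b * sgz b = 1 := by revert b; decide

/-- The infinite dihedral group. -/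
@[ext] structure Dh where
  a : ℤ
  b : ZMod 2

instance : DecidableEq Dh := fun g h =>
  decidable_of_iff (g.a = h.a ∧ g.b = h.b) Dh.ext_iff.symm

instance : Mul Dh := ⟨fun g h => ⟨g.a + sgz g.b * h.a, g.b + h.b⟩⟩
instance : One Dh := ⟨⟨0, 0⟩⟩
instance : Inv Dh := ⟨fun g => ⟨-(sgz g.b * g.a), g.b⟩⟩

@[simp] lemma Dh.mul_a (g h : Dh) : (g * h).a = g.a + sgz g.b * h.a := rfl
@[simp] lemma Dh.mul_b (g h : Dh) : (g * h).b = g.b + h.b := rfl
@[simp] lemma Dh.one_a : (1 : Dh).a = 0 := rfl
@[simp] lemma Dh.one_b : (1 : Dh).b = 0 := rfl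
@[simp] lemma Dh.inv_a (g : Dh) : g⁻¹.a = -(sgz g.b * g.a) := rfl
@[simp] lemma Dh.inv_b (g : Dh) : g⁻¹.b = g.b := rfl
lemma Dh.mk_zero : (⟨0, 0⟩ : Dh) = 1 := rfl

instance : Group Dh :=
  Group.ofLeftAxioms
    (fun g h l => by
      ext1
      · simp only [Dh.mul_a, Dh.mul_b, sgz_add]; ring
      · simp [add_assoc])
    (fun g => by ext1 <;> simp)
    (fun g => by
      ext1
      · simp
      · simpa using z2_add_self g.b)

/-- The two standard reflections. -/
def rho0 : Dh := ⟨0, 1⟩
/-- The two standard reflections. -/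
def rho1 : Dh := ⟨-1, 1⟩

/-- The position on the Cayley line. -/
def site (g : Dh) : ℤ := 2 * g.a + (g.b.val : ℤ)

/-- Unique decoding of the first block from the product of equally many blocks. -/
def Sep {α G : Type*} [Group G] (s : Finset α) (f : α → G) : Prop :=
  ∀ ω ∈ s, ∀ ω' ∈ s, ∀ l l' : List α, (∀ y ∈ l, y ∈ s) → (∀ y ∈ l', y ∈ s) →
    l.length = l'.length → f ω * (l.map f).prod = f ω' * (l'.map f).prod → ω = ω'

lemma basic_list_ball {G ι : Type*} [Group G] {S : Finset G} (f : ι → G) (ℓ : ι → ℕ) (l : List ι)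
    (h : ∀ i ∈ l, f i ∈ ball S (ℓ i)) : (l.map f).prod ∈ ball S (l.map ℓ).sum := by
  induction l with
  | nil => exact one_mem_ball S _
  | cons i l ih =>
    simp only [List.map_cons, List.prod_cons, List.sum_cons]
    exact mul_mem_ball (h i (by simp)) (ih (fun j hj => h j (by simp [hj])))

theorem lb {G : Type*} [Group G] {S : Finset G} {e x : ℝ} (he : IsRate S e) (hx : 0 < x)
    (hxe : x * e < 1) : ∃ C : ℝ, ∀ (α : Type) (s : Finset α) (f : α → G) (ℓ : α → ℕ),
      Set.InjOn f s → (∀ ω ∈ s, f ω ∈ ball S (ℓ ω)) → ∑ ω ∈ s, x ^ ℓ ω ≤ C := by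
  classical
  have he1 := he.one_le
  have hxe0 : 0 < x * e := by positivity
  obtain ⟨κ, hκ, hκ2⟩ : ∃ κ : ℝ, 1 < κ ∧ x * e * κ < 1 := by
    obtain ⟨κ, h1, h2⟩ := exists_between (one_lt_one_div hxe0 hxe)
    refine ⟨κ, h1, ?_⟩
    rw [lt_div_iff₀ hxe0] at h2
    linarith
  obtain ⟨C, hC0, hC⟩ := he.exists_bound hκ
  have hq0 : 0 ≤ x * e * κ := by positivity
  refine ⟨C * (1 - x * e * κ)⁻¹, fun α s f ℓ hinj hb => ?_⟩
  rw [← sum_fiberwise_of_maps_to (t := range (s.sup ℓ + 1)) (g := ℓ)
    (fun ω hω => mem_range.2 (Nat.lt_succ_of_le (le_sup hω)))]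
  calc ∑ r ∈ range (s.sup ℓ + 1), ∑ ω ∈ s with ℓ ω = r, x ^ ℓ ω
      ≤ ∑ r ∈ range (s.sup ℓ + 1), C * (x * e * κ) ^ r := by
        refine sum_le_sum fun r _ => ?_
        rw [sum_congr rfl (g := fun _ => x ^ r) (fun q hq => by rw [(mem_filter.1 hq).2]),
          sum_const, nsmul_eq_mul]
        have h1 : ((s.filter (fun ω => ℓ ω = r)).card : ℝ) ≤ (ball S r).ncard := by
          rw [Set.ncard_eq_toFinset_card _ (ball_finite _ _), Nat.cast_le]
          refine card_le_card_of_injOn f ?_
            (hinj.mono (fun ω hω => (mem_filter.1 (mem_coe.1 hω)).1))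
          intro q hq
          have hq' := mem_filter.1 (mem_coe.1 hq)
          have := hb q hq'.1
          rw [hq'.2] at this
          simpa using this
        calc ((s.filter (fun ω => ℓ ω = r)).card : ℝ) * x ^ r ≤ (C * (e * κ) ^ r) * x ^ r := by
              gcongr
              exact h1.trans (hC r)
          _ = C * (x * e * κ) ^ r := by rw [mul_assoc x, mul_pow x]; ring
    _ = C * ∑ r ∈ range (s.sup ℓ + 1), (x * e * κ) ^ r := by rw [mul_sum]
    _ ≤ C * (1 - x * e * κ)⁻¹ := by
        refine mul_le_mul_of_nonneg_left ?_ hC0.le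
        rw [← tsum_geometric_of_lt_one hq0 hκ2]
        exact (summable_geometric_of_lt_one hq0 hκ2).sum_le_tsum _ (fun _ _ => by positivity)

lemma basic_le_one {y C : ℝ} (h : ∀ N : ℕ, y ^ N ≤ C) : y ≤ 1 := by
  by_contra hy
  obtain ⟨N, hN⟩ := pow_unbounded_of_one_lt C (not_le.1 hy)
  exact absurd (h N) (not_le.2 hN)

lemma basic_sep_list {α G : Type*} [Group G] {s : Finset α} {f : α → G} (hs : Sep s f) :
    ∀ l l' : List α, (∀ y ∈ l, y ∈ s) → (∀ y ∈ l', y ∈ s) → l.length = l'.length →
      (l.map f).prod = (l'.map f).prod → l = l' := by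
  intro l
  induction l with
  | nil =>
    intro l' _ _ hlen _
    exact (List.length_eq_zero_iff.1 hlen.symm).symm
  | cons a l ih =>
    intro l' hl hl' hlen hp
    cases l' with
    | nil => simp at hlen
    | cons a' l' =>
      have hlen' : l.length = l'.length := by simpa using hlen
      have h1 : ∀ y ∈ l, y ∈ s := fun y hy => hl y (by simp [hy])
      have h2 : ∀ y ∈ l', y ∈ s := fun y hy => hl' y (by simp [hy])
      rw [List.map_cons, List.prod_cons, List.map_cons, List.prod_cons] at hp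
      have ha := hs a (hl a (by simp)) a' (hl' a' (by simp)) l l' h1 h2 hlen' hp
      subst ha
      rw [ih l' h1 h2 hlen' (mul_left_cancel hp)]

theorem block_lb {G : Type*} [Group G] {S : Finset G} {e x : ℝ} (he : IsRate S e) (hx : 0 < x)
    (hxe : x * e < 1) {α : Type} (s : Finset α) (f : α → G) (ℓ : α → ℕ) (hs : Sep s f)
    (hb : ∀ ω ∈ s, f ω ∈ ball S (ℓ ω)) : ∑ ω ∈ s, x ^ ℓ ω ≤ 1 := by
  classical
  obtain ⟨C, hC⟩ := lb he hx hxe
  refine basic_le_one (C := C) fun N => ?_
  have hmem : ∀ w ∈ Fintype.piFinset (fun _ : Fin N => s), ∀ y ∈ List.ofFn w, y ∈ s := by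
    intro w hw y hy
    obtain ⟨i, rfl⟩ := List.mem_ofFn.1 hy
    exact Fintype.mem_piFinset.1 hw i
  have key := hC (Fin N → α) (Fintype.piFinset (fun _ : Fin N => s))
    (fun w => ((List.ofFn w).map f).prod) (fun w => ((List.ofFn w).map ℓ).sum)
    (fun w hw w' hw' hp => List.ofFn_injective
      (basic_sep_list hs _ _ (hmem w (mem_coe.1 hw)) (hmem w' (mem_coe.1 hw')) (by simp) hp))
    (fun w hw => basic_list_ball f ℓ _ (fun y hy => hb y (hmem w hw y hy)))
  refine le_trans (le_of_eq ?_) key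
  have := Finset.prod_univ_sum (fun _ : Fin N => s) (fun _ ω => x ^ ℓ ω)
  rw [prod_const, card_univ, Fintype.card_fin] at this
  rw [this]
  refine sum_congr rfl fun w _ => ?_
  rw [prod_pow_eq_pow_sum, List.map_ofFn, List.sum_ofFn]
  rfl

lemma le_one_of_pow_bdd {y C : ℝ} (h : ∀ N : ℕ, y ^ N ≤ C) : y ≤ 1 := basic_le_one h

theorem exists_conj {G : Type*} [Group G] {S : Finset G} {e : ℝ} (he : IsRate S e) (g0 : G) :
    ∃ S' : Finset G, IsRate S' e ∧ ∀ h n, h ∈ ball S n → g0 * h * g0⁻¹ ∈ ball S' n := by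
  classical
  refine ⟨S.image (MulAut.conj g0).toMonoidHom, ?_, fun h n hh => ?_⟩
  · unfold IsRate at he ⊢
    simp only [ncard_ball_map (MulAut.conj g0).toMonoidHom (MulAut.conj g0).injective]
    exact he
  · rw [ball_map]
    exact ⟨h, hh, rfl⟩

lemma rep_growth {G H : Type*} [Group G] [Group H] (e : G ≃* H) : growthSet G ⊆ growthSet H := by
  rintro x ⟨S, hS, hx⟩
  have hb : ∀ n, ball (S.map e.toEquiv.toEmbedding) n = e '' ball S n := fun n => by
    ext y
    constructor
    · rintro ⟨w, hw, hm, rfl⟩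
      refine ⟨e.symm w.prod, ⟨w.map e.symm, by simpa using hw, fun z hz => ?_,
        (map_list_prod e.symm w).symm⟩, e.apply_symm_apply _⟩
      obtain ⟨z, hz', rfl⟩ := List.mem_map.1 hz
      simpa [Finset.mem_map_equiv] using hm z hz'
    · rintro ⟨_, ⟨w, hw, hm, rfl⟩, rfl⟩
      refine ⟨w.map e, by simpa using hw, fun z hz => ?_, (map_list_prod e w).symm⟩
      obtain ⟨z, hz', rfl⟩ := List.mem_map.1 hz
      simpa [Finset.mem_map_equiv] using hm z hz'
  refine ⟨S.map e.toEquiv.toEmbedding, ?_, ?_⟩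
  · have := congrArg (Subgroup.map e.toMonoidHom) hS
    rw [MonoidHom.map_closure, Subgroup.map_top_of_surjective _ e.surjective] at this
    rw [Finset.coe_map]
    exact this
  · simpa only [hb, Set.ncard_image_of_injective _ e.injective] using hx

lemma rate_mono {G H : Type*} [Group G] [Group H] {S : Finset G} {S' : Finset H} {e e' : ℝ}
    (he : IsRate S e) (he' : IsRate S' e') (h : ∀ r, (ball S r).ncard ≤ (ball S' r).ncard) :
    e ≤ e' :=
  le_of_tendsto_of_tendsto' he he' fun r =>
    Real.rpow_le_rpow (by positivity) (by exact_mod_cast h r) (by positivity)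

lemma rate_le_of_bound {G : Type*} [Group G] {S : Finset G} {e : ℝ} (h : IsRate S e) {z C : ℝ}
    {D : ℕ} (hz : 0 < z)
    (hb : ∀ r : ℕ, z ^ r * ((ball S r).ncard : ℝ) ≤ C * ((r : ℝ) + 1) ^ D) : z * e ≤ 1 := by
  rw [mul_comm, ← le_div_iff₀ hz]
  by_contra hcon
  push Not at hcon
  obtain ⟨b, hb1, hb2⟩ := exists_between hcon
  have hb0 : 0 < b := lt_trans (by positivity) hb1
  have hzb : 1 < z * b := by
    rw [div_lt_iff₀ hz] at hb1; linarith
  have hev : ∀ᶠ r : ℕ in atTop, (z * b) ^ r ≤ C * ((r : ℝ) + 1) ^ D := by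
    filter_upwards [h.eventually (lt_mem_nhds hb2), eventually_ne_atTop 0] with r hr hr0
    have h3 : b ^ r ≤ ((ball S r).ncard : ℝ) := by
      have := pow_le_pow_left₀ hb0.le hr.le r
      rwa [one_div, Real.rpow_inv_natCast_pow (by positivity) hr0] at this
    calc (z * b) ^ r = z ^ r * b ^ r := mul_pow _ _ _
      _ ≤ z ^ r * ((ball S r).ncard : ℝ) := by gcongr
      _ ≤ _ := hb r
  have hlim : Tendsto (fun r : ℕ => ((r + 1 : ℕ) : ℝ) ^ D / (z * b) ^ (r + 1)) atTop (𝓝 0) :=
    (tendsto_pow_const_div_const_pow_of_one_lt D hzb).comp (tendsto_add_atTop_nat 1)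
  have hlim2 := hlim.const_mul (C * (z * b))
  rw [mul_zero] at hlim2
  obtain ⟨r, hr1, hr2⟩ := (hev.and (hlim2.eventually (gt_mem_nhds one_pos))).exists
  have hp : 0 < (z * b) ^ r := by positivity
  have : C * (z * b) * (((r + 1 : ℕ) : ℝ) ^ D / (z * b) ^ (r + 1))
      = C * ((r : ℝ) + 1) ^ D / (z * b) ^ r := by
    push_cast
    field_simp
    ring
  rw [this, div_lt_one hp] at hr2
  linarith

end Pool.Agent.MP_646035_al.PC

/-!
The ring `O = ℤ[√(M² - 1)]`, `M = 2 n + 2`, and the group `W ⋊ (D × ℤ/2)` over the infinite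
dihedral group `D`.
-/

namespace Pool.Agent.MP_646035_al.PC

open Finset

/-- The radicand `M² - 1` with `M = 2 n + 2`. -/
def dd (n : ℕ) : ℕ := 4 * n ^ 2 + 8 * n + 3

instance (n : ℕ) : Zsqrtd.Nonsquare (dd n) :=
  ⟨fun m h => by
    unfold dd at h
    rcases le_or_gt m (2 * n + 1) with h1 | h1
    · nlinarith
    · nlinarith⟩

lemma dd_cast (n : ℕ) : ((dd n : ℕ) : ℤ) = 4 * (n : ℤ) ^ 2 + 8 * n + 3 := by simp [dd]

/-- The quadratic order. -/
abbrev OO (n : ℕ) : Type := ℤ√((dd n : ℕ) : ℤ)

/-- The trace of the fundamental unit. -/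
def NN (n : ℕ) : ℕ := 4 * n + 4

variable {n : ℕ}

/-- The fundamental unit. -/
def tu (n : ℕ) : (OO n)ˣ :=
  ⟨⟨2 * n + 2, 1⟩, ⟨2 * n + 2, -1⟩,
    by ext <;> simp <;> linarith [dd_cast n],
    by ext <;> simp <;> linarith [dd_cast n]⟩

/-- Powers of the fundamental unit. -/
def tt (n : ℕ) (a : ℤ) : OO n := ((tu n ^ a : (OO n)ˣ) : OO n)

@[simp] lemma tt_zero : tt n 0 = 1 := by simp [tt]
lemma tt_add (a b : ℤ) : tt n (a + b) = tt n a * tt n b := by simp [tt, zpow_add]
lemma tt_ne_zero (a : ℤ) : tt n a ≠ 0 := Units.ne_zero _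
lemma tt_one : tt n 1 = ⟨2 * n + 2, 1⟩ := by simp [tt, tu]
lemma tt_neg_one : tt n (-1) = ⟨2 * n + 2, -1⟩ := by simp [tt, tu]
lemma tt_mul_neg (a : ℤ) : tt n a * tt n (-a) = 1 := by rw [← tt_add, add_neg_cancel, tt_zero]
lemma tt_neg_mul (a : ℤ) : tt n (-a) * tt n a = 1 := by rw [← tt_add, neg_add_cancel, tt_zero]

lemma tt_trace : tt n 1 + tt n (-1) = (NN n : OO n) := by
  rw [tt_one, tt_neg_one]
  ext <;> simp [NN]
  ring

lemma star_tt (a : ℤ) : star (tt n a) = tt n (-a) := by
  have h1 : star (tt n 1) = tt n (-1) := by rw [tt_one, tt_neg_one]; rfl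
  have h2 : star (tt n (-1)) = tt n 1 := by rw [← h1, star_star]
  induction a using Int.induction_on with
  | zero => simp
  | succ a ih => rw [tt_add, star_mul', ih, h1, ← tt_add, neg_add]
  | pred a ih => rw [sub_eq_add_neg, tt_add, star_mul', ih, h2, ← tt_add, neg_add, neg_neg, neg_neg]

/-- Conjugation to the power `b`. -/
def bar (b : ZMod 2) : OO n →+* OO n := if b = 0 then RingHom.id _ else starRingEnd _

@[simp] lemma bar_zero (f : OO n) : bar 0 f = f := by simp [bar]
lemma bar_one (f : OO n) : bar 1 f = star f := by simp [bar, starRingEnd_apply]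

lemma bar_tt (b : ZMod 2) (a : ℤ) : bar b (tt n a) = tt n (sgz b * a) := by
  rcases z2_cases b with rfl | rfl
  · simp
  · simp [bar_one, star_tt]

lemma bar_bar (b c : ZMod 2) (f : OO n) : bar b (bar c f) = bar (b + c) f := by
  rcases z2_cases b with rfl | rfl <;> rcases z2_cases c with rfl | rfl <;>
    simp [bar_one, z2_one_add_one]

/-- Reduction modulo the prime above two. -/
def aug : OO n →+* ZMod 2 :=
  Zsqrtd.lift ⟨1, by
    have : ((4 : ℕ) : ZMod 2) = 0 := rfl
    have h8 : ((8 : ℕ) : ZMod 2) = 0 := rfl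
    rw [Int.cast_natCast, dd, Nat.cast_add, Nat.cast_add, Nat.cast_mul, Nat.cast_mul, this, h8]
    simp only [zero_mul, zero_add]
    rfl⟩

lemma aug_apply (f : OO n) : aug f = (f.re : ZMod 2) + (f.im : ZMod 2) := by
  simp [aug]

@[simp] lemma aug_bar (b : ZMod 2) (f : OO n) : aug (bar b f) = aug f := by
  rcases z2_cases b with rfl | rfl
  · simp
  · rw [bar_one, aug_apply, aug_apply, Zsqrtd.re_star, Zsqrtd.im_star, Int.cast_neg,
      ZMod.neg_eq_self_mod_two]

@[simp] lemma aug_tt (a : ℤ) : aug (tt n a) = 1 := by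
  rcases z2_cases (aug (tt n a)) with h | h
  · have := congrArg aug (tt_mul_neg (n := n) a)
    rw [map_mul, h, zero_mul, map_one] at this
    exact absurd this zero_ne_one
  · exact h

/-- The real embedding. -/
noncomputable def emb : OO n →+* ℝ := Zsqrtd.toReal (Int.natCast_nonneg _)

lemma emb_apply (f : OO n) : emb f = f.re + f.im * √(dd n : ℝ) := by
  simp [emb]

lemma emb_injective : Function.Injective (emb (n := n)) :=
  Zsqrtd.toReal_injective _ fun m h =>
    Zsqrtd.Nonsquare.ns (dd n) m.natAbs (by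
      have := Int.natAbs_mul_self (a := m)
      omega)

/-- Laurent polynomials with integer coefficients. -/
abbrev LP : Type := LaurentPolynomial ℤ

/-- Evaluation at the fundamental unit. -/
noncomputable def ev (n : ℕ) : LP →+* OO n := LaurentPolynomial.eval₂ (Int.castRingHom _) (tu n)

@[simp] lemma ev_T (a : ℤ) : ev n (LaurentPolynomial.T a) = tt n a := by
  simp [ev, tt, LaurentPolynomial.eval₂_T]

@[simp] lemma ev_C (z : ℤ) : ev n (LaurentPolynomial.C z) = (z : OO n) := by simp [ev]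

lemma coeff_T_mul (a : ℤ) (f : LP) (m : ℤ) :
    (LaurentPolynomial.T a * f).coeff m = f.coeff (m - a) := by
  rw [LaurentPolynomial.T, AddMonoidAlgebra.coeff_single_mul_apply, one_mul]
  congr 1
  ring

/-- The coefficients are bounded by `B`. -/
def Bd (p : LP) (B : ℕ) : Prop := ∀ a, |p.coeff a| ≤ B

/-- `d` is the degree of `p`. -/
def IsTop (p : LP) (d : ℤ) : Prop := p.coeff d ≠ 0 ∧ ∀ a, d < a → p.coeff a = 0

/-- The free module of rank one over the twisted ring. -/
abbrev Lm (n : ℕ) : Type := ZMod 2 → OO n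

/-- Left translation by `g`. -/
def act (g : Dh) : Lm n →+ Lm n where
  toFun f := fun s => tt n g.a * bar g.b (f (s + g.b))
  map_zero' := by ext1 s; simp
  map_add' f f' := by ext1 s; simp [mul_add]

lemma act_apply (g : Dh) (f : Lm n) (s : ZMod 2) :
    act g f s = tt n g.a * bar g.b (f (s + g.b)) := rfl

@[simp] lemma act_one (f : Lm n) : act 1 f = f := by ext1 s; simp [act_apply]

lemma act_mul (g h : Dh) (f : Lm n) : act (g * h) f = act g (act h f) := by
  ext1 s
  simp only [act_apply, Dh.mul_a, Dh.mul_b, map_mul, bar_tt, bar_bar, tt_add, mul_assoc, add_assoc]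

lemma act_smul (g : Dh) (c : OO n) (f : Lm n) : act g (c • f) = bar g.b c • act g f := by
  ext1 s; simp only [act_apply, Pi.smul_apply, smul_eq_mul, map_mul]; ring

/-- Right translation by `rho0 ^ σ`. -/
def kap (σ : ZMod 2) : Lm n →ₗ[OO n] Lm n where
  toFun f := fun s => f (s + σ)
  map_add' _ _ := rfl
  map_smul' _ _ := rfl

lemma kap_apply (σ : ZMod 2) (f : Lm n) (s : ZMod 2) : kap σ f s = f (s + σ) := rfl

/-- The parity of the total. -/
def tot : Lm n →+ ZMod 2 where
  toFun f := aug (f 0) + aug (f 1)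
  map_zero' := by simp
  map_add' f f' := by simp only [Pi.add_apply, map_add]; ring

lemma tot_apply (f : Lm n) : tot f = aug (f 0) + aug (f 1) := rfl

@[simp] lemma tot_act (g : Dh) (f : Lm n) : tot (act g f) = tot f := by
  rcases z2_cases g.b with h | h <;>
    simp [tot_apply, act_apply, h, z2_one_add_one, add_comm]

@[simp] lemma tot_kap (σ : ZMod 2) (f : Lm n) : tot (kap σ f) = tot f := by
  rcases z2_cases σ with rfl | rfl <;> simp [tot_apply, kap_apply, z2_one_add_one, add_comm]

lemma tot_neg (f : Lm n) : tot (-f) = tot f := by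
  rw [map_neg, ZMod.neg_eq_self_mod_two]

/-- The abelian normal subgroup: `none` is the lamp part, `some i` are the toggle parts. -/
abbrev Wm (n k : ℕ) : Type := Option (Fin k) → Lm n

variable {k : ℕ}

/-- The action of the dihedral group. -/
def aw (g : Dh) : Wm n k →+ Wm n k where
  toFun w := fun o => act g (w o)
  map_zero' := by ext1 o; simp
  map_add' w w' := by ext1 o; simp

lemma aw_apply (g : Dh) (w : Wm n k) (o : Option (Fin k)) : aw g w o = act g (w o) := rfl

@[simp] lemma aw_one (w : Wm n k) : aw 1 w = w := by ext1 o; simp [aw_apply]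

lemma aw_mul (g h : Dh) (w : Wm n k) : aw (g * h) w = aw g (aw h w) := by
  ext1 o; simp [aw_apply, act_mul]

lemma aw_smul (g : Dh) (c : OO n) (w : Wm n k) : aw g (c • w) = bar g.b c • aw g w := by
  ext1 o; simp [aw_apply, act_smul]

lemma aw_mk (a : ℤ) (b : ZMod 2) (w : Wm n k) : aw ⟨a, b⟩ w = tt n a • aw ⟨0, b⟩ w := by
  ext1 o; ext1 s; simp [aw_apply, act_apply]

lemma aw_mk_zero (a : ℤ) (w : Wm n k) : aw ⟨a, 0⟩ w = tt n a • w := by
  ext1 o; ext1 s; simp [aw_apply, act_apply]

lemma aw_injective (g : Dh) : Function.Injective (aw (n := n) (k := k) g) := fun w w' h => by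
  have := congrArg (aw g⁻¹) h
  rwa [← aw_mul, ← aw_mul, inv_mul_cancel, aw_one, aw_one] at this

/-- The action of the lane. -/
def iot (σ : ZMod 2) : Wm n k →ₗ[OO n] Wm n k where
  toFun w := fun o => match o with
    | none => kap σ (w none)
    | some i => sgz σ • w (some i)
  map_add' w w' := by ext1 (_ | i) <;> simp
  map_smul' c w := by
    ext1 (_ | i)
    · simp
    · simp

lemma iot_none (σ : ZMod 2) (w : Wm n k) : iot σ w none = kap σ (w none) := rfl
lemma iot_some (σ : ZMod 2) (w : Wm n k) (i : Fin k) :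
    iot σ w (some i) = sgz σ • w (some i) := rfl

@[simp] lemma iot_zero (w : Wm n k) : iot 0 w = w := by
  ext1 (_ | i)
  · ext1 s; simp [iot_none, kap_apply]
  · simp [iot_some]

lemma iot_iot (σ τ : ZMod 2) (w : Wm n k) : iot σ (iot τ w) = iot (σ + τ) w := by
  ext1 (_ | i)
  · ext1 s; simp [iot_none, kap_apply, add_assoc]
  · simp only [iot_some, sgz_add, mul_smul]

lemma iot_aw (σ : ZMod 2) (g : Dh) (w : Wm n k) : iot σ (aw g w) = aw g (iot σ w) := by
  ext1 (_ | i)
  · ext1 s; simp only [iot_none, aw_apply, kap_apply, act_apply, add_right_comm s σ]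
  · simp only [iot_some, aw_apply, map_zsmul]

/-- The elements of the ambient group: digits, position, lane. -/
@[ext] structure El (n k : ℕ) where
  w : Wm n k
  g : Dh
  s : ZMod 2

instance : Mul (El n k) :=
  ⟨fun h h' => ⟨h.w + iot h.s (aw h.g h'.w), h.g * h'.g, h.s + h'.s⟩⟩
instance : One (El n k) := ⟨⟨0, 1, 0⟩⟩
instance : Inv (El n k) := ⟨fun h => ⟨-iot h.s (aw h.g⁻¹ h.w), h.g⁻¹, h.s⟩⟩

lemma mul_w (h h' : El n k) : (h * h').w = h.w + iot h.s (aw h.g h'.w) := rfl
@[simp] lemma mul_g (h h' : El n k) : (h * h').g = h.g * h'.g := rfl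
@[simp] lemma mul_s (h h' : El n k) : (h * h').s = h.s + h'.s := rfl
@[simp] lemma one_w : (1 : El n k).w = 0 := rfl
@[simp] lemma one_g : (1 : El n k).g = 1 := rfl
@[simp] lemma one_s : (1 : El n k).s = 0 := rfl
lemma inv_w (h : El n k) : h⁻¹.w = -iot h.s (aw h.g⁻¹ h.w) := rfl
@[simp] lemma inv_g (h : El n k) : h⁻¹.g = h.g⁻¹ := rfl
@[simp] lemma inv_s (h : El n k) : h⁻¹.s = h.s := rfl

instance : Group (El n k) :=
  Group.ofLeftAxioms
    (fun g h l => by
      ext1
      · simp only [mul_w, mul_s, mul_g, aw_mul, map_add, ← iot_aw, iot_iot, add_assoc]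
      · simp [mul_assoc]
      · simp [add_assoc])
    (fun g => by ext1 <;> simp [mul_w])
    (fun g => by
      ext1
      · simp [mul_w, inv_w]
      · simp
      · simp [z2_add_self])

/-- The parities of the digits. -/
def Psi (h : El n k) : Option (Fin k) → ZMod 2 := fun o => tot (h.w o)

/-- The parities of the toggle digits. -/
def psi (h : El n k) : Fin k → ZMod 2 := fun i => tot (h.w (some i))

lemma Psi_some (h : El n k) (i : Fin k) : Psi h (some i) = psi h i := rfl

lemma tot_iot (σ : ZMod 2) (w : Wm n k) (o : Option (Fin k)) : tot (iot σ w o) = tot (w o) := by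
  rcases o with _ | i
  · simp [iot_none]
  · rcases z2_cases σ with rfl | rfl
    · simp
    · simp [iot_some]

@[simp] lemma Psi_one : Psi (1 : El n k) = 0 := by ext o; simp [Psi]
@[simp] lemma Psi_mul (h h' : El n k) : Psi (h * h') = Psi h + Psi h' := by
  ext o; simp [Psi, mul_w, tot_iot, aw_apply]
@[simp] lemma Psi_inv (h : El n k) : Psi h⁻¹ = Psi h := by
  ext o; simp [Psi, inv_w, tot_iot, aw_apply]
@[simp] lemma psi_one : psi (1 : El n k) = 0 := by ext o; simp [psi]
@[simp] lemma psi_mul (h h' : El n k) : psi (h * h') = psi h + psi h' :=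
  funext fun i => congrFun (Psi_mul h h') (some i)
@[simp] lemma psi_inv (h : El n k) : psi h⁻¹ = psi h :=
  funext fun i => congrFun (Psi_inv h) (some i)

/-- The toggle part of the digits. -/
def uu : Wm n k →ₗ[OO n] (Fin k → Lm n) := LinearMap.funLeft (OO n) (Lm n) some

lemma uu_apply (w : Wm n k) (i : Fin k) : uu w i = w (some i) := rfl

lemma uu_iot (σ : ZMod 2) (w : Wm n k) : uu (iot σ w) = sgz σ • uu w := rfl

/-- The part of the digits on which the lane acts by a sign. -/
def pv : Wm n k →ₗ[OO n] Wm n k where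
  toFun w := fun o => match o with
    | none => w none - kap 1 (w none)
    | some i => w (some i)
  map_add' w w' := by
    ext1 (_ | i)
    · simp only [Pi.add_apply, map_add]; abel
    · rfl
  map_smul' c w := by
    ext1 (_ | i)
    · simp [smul_sub]
    · rfl

lemma pv_none (w : Wm n k) : pv w none = w none - kap 1 (w none) := rfl
lemma pv_some (w : Wm n k) (i : Fin k) : pv w (some i) = w (some i) := rfl

lemma pv_iot (σ : ZMod 2) (w : Wm n k) : pv (iot σ w) = sgz σ • pv w := by
  rcases z2_cases σ with rfl | rfl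
  · simp
  · ext1 (_ | i)
    · ext1 s; simp [pv_none, iot_none, kap_apply, add_assoc, z2_one_add_one]
    · rfl

lemma pv_aw (g : Dh) (w : Wm n k) : pv (aw g w) = aw g (pv w) := by
  ext1 (_ | i)
  · ext1 s
    simp only [pv_none, aw_apply, act_apply, Pi.sub_apply, kap_apply, map_sub, mul_sub,
      add_right_comm s 1]
  · rfl

/-- The part of the digits that the lane fixes. -/
def gm : Wm n k →ₗ[OO n] OO n where
  toFun w := w none 0 + w none 1
  map_add' w w' := by simp only [Pi.add_apply]; ring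
  map_smul' c w := by simp [mul_add]

lemma gm_apply (w : Wm n k) : gm w = w none 0 + w none 1 := rfl

lemma gm_iot (σ : ZMod 2) (w : Wm n k) : gm (iot σ w) = gm w := by
  rcases z2_cases σ with rfl | rfl
  · simp
  · simp [gm_apply, iot_none, kap_apply, z2_one_add_one, add_comm]

lemma gm_aw (g : Dh) (w : Wm n k) : gm (aw g w) = tt n g.a * bar g.b (gm w) := by
  rcases z2_cases g.b with h | h
  · simp [gm_apply, aw_apply, act_apply, h, mul_add]
  · simp [gm_apply, aw_apply, act_apply, h, mul_add, z2_one_add_one, add_comm]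

lemma aug_gm (h : El n k) : aug (gm h.w) = Psi h none := by
  simp [gm_apply, Psi, tot_apply]

lemma eq_zero_of_pv_gm {w : Wm n k} (h1 : pv w = 0) (h2 : gm w = 0) : w = 0 := by
  ext1 (_ | i)
  · have h3 := congrFun (congrFun h1 none) 0
    simp only [pv_none, Pi.sub_apply, kap_apply, zero_add, Pi.zero_apply, sub_eq_zero] at h3
    rw [gm_apply, ← h3, ← two_mul, mul_eq_zero] at h2
    have h4 : w none 0 = 0 := h2.resolve_left (by norm_num)
    ext1 s
    rcases z2_cases s with rfl | rfl
    · exact h4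
    · exact h3 ▸ h4
  · exact congrFun h1 (some i)

lemma pv_add_iot (w : Wm n k) : pv (w + iot 1 w) = 0 := by simp [pv_iot]

lemma gm_add_iot (w : Wm n k) : gm (w + iot 1 w) = 2 * gm w := by simp [gm_iot, two_mul]

lemma iot_one_of_gm {w : Wm n k} (h : gm w = 0) : iot 1 w = -w :=
  eq_neg_of_add_eq_zero_right (eq_zero_of_pv_gm (pv_add_iot w) (by rw [gm_add_iot, h, mul_zero]))

/-- An element of the abelian normal subgroup. -/
def mm (w : Wm n k) : El n k := ⟨w, 1, 0⟩

/-- An element without digits. -/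
def mv (g : Dh) : El n k := ⟨0, g, 0⟩

lemma mm_mul (w : Wm n k) (h : El n k) : mm w * h = ⟨w + h.w, h.g, h.s⟩ := by
  ext1 <;> simp [mm, mul_w]

lemma mul_mm (h : El n k) (w : Wm n k) : h * mm w = mm (iot h.s (aw h.g w)) * h := by
  ext1 <;> simp [mm, mul_w, add_comm]

lemma mv_mul (g g' : Dh) : (mv (g * g') : El n k) = mv g * mv g' := by
  ext1 <;> simp [mv, mul_w]

/-- The single digit at the origin. -/
def dl : Lm n := fun s => if s = 0 then 1 else 0

/-- The lamp letter with offset `c`. -/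
def lamp (n k : ℕ) (c : ℤ) : El n k := mm (Pi.single none (tt n c • dl))

/-- The toggle letters. -/
def tog (n : ℕ) (i : Fin k) : El n k := ⟨Pi.single (some i) dl, 1, 1⟩

open Classical in
/-- The generating sets of small growth. -/
noncomputable def gens (n k : ℕ) (c : ℤ) : Finset (El n k) :=
  insert (mv rho0) (insert (mv rho1) (insert (lamp n k c) (univ.image (tog n))))

/-- The group. -/
noncomputable def GG (n k : ℕ) : Subgroup (El n k) := Subgroup.closure (gens n k 0)

/-- `S` generates the group. -/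
def Gen (S : Finset (El n k)) : Prop := Subgroup.closure (S : Set (El n k)) = GG n k

/-- The toggle part of the emission of `h` at an even (`b = 0`) or odd (`b = 1`) site. -/
def ty (h : El n k) (b : ZMod 2) : Fin k → Lm n := uu (aw ⟨0, b⟩ h.w)

/-- The same with the sign part of the lamps. -/
def vt (h : El n k) (b : ZMod 2) : Wm n k := aw ⟨0, b⟩ (pv h.w)

/-- The indices of the letters that do not move. -/
def Nn (Tl : Fin k → El n k) : Finset (Fin k) := univ.filter (fun i => (Tl i).g = 1)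

/-- Unique decoding of the first block from the toggle digits modulo `W0`. -/
def SepW {α : Type*} (W0 : Submodule (OO n) (Fin k → Lm n)) (s : Finset α) (f : α → El n k) :
    Prop :=
  ∀ ω ∈ s, ∀ ω' ∈ s, ∀ l l' : List α, (∀ y ∈ l, y ∈ s) → (∀ y ∈ l', y ∈ s) →
    l.length = l'.length →
    uu (f ω * (l.map f).prod).w - uu (f ω' * (l'.map f).prod).w ∈ W0 → ω = ω'

lemma SepW.sep {α : Type*} {W0 : Submodule (OO n) (Fin k → Lm n)} {s : Finset α}
    {f : α → El n k} (h : SepW W0 s f) : Sep s f :=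
  fun ω hω ω' hω' l l' hl hl' hlen e => h ω hω ω' hω' l l' hl hl' hlen (by
    rw [e, sub_self]; exact W0.zero_mem)

/-- The data of a set of letters with exactly two moving letters, after normalisation. -/
structure Z1 (S : Finset (El n k)) (Yl : Option (Fin k) → El n k) : Prop where
  h0 : mv rho0 ∈ ball S 1
  h1 : mv rho1 ∈ ball S 1
  hY : ∀ o, Yl o ∈ ball S 1
  hg : ∀ o, (Yl o).g = 1
  hs : ∀ o, (Yl o).s = ∑ i, psi (Yl o) i
  hpsi : LinearIndependent (ZMod 2) (fun i : Fin k => psi (Yl (some i)))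
  hPsi : LinearIndependent (ZMod 2) (fun o => Psi (Yl o))

end Pool.Agent.MP_646035_al.PC
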