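import Pool.Agent.MP_646035_al.PC.W
import Pool.Agent.MP_646035_al.PC.Grp

namespace Pool.Agent.MP_646035_al.PC

open Finset PT

variable {n k : ℕ} {Q : Type} [AddCommGroup Q] [DecidableEq Q] {e : Fin 2 → Q}

lemma geng_mem_gens {c : ℤ} {x : El n k} :
    x ∈ gens n k c ↔ x = mv rho0 ∨ x = mv rho1 ∨ x = lamp n k c ∨ ∃ i, tog n i = x := by
  simp [gens]

lemma geng_mv_gens (c : ℤ) (g : Dh) :
    (mv g : El n k) ∈ Subgroup.closure (gens n k c : Set (El n k)) := by
  have h0 : (mv rho0 : El n k) ∈ Subgroup.closure (gens n k c : Set (El n k)) :=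
    Subgroup.subset_closure (geng_mem_gens.2 (.inl rfl))
  have h1 : (mv rho1 : El n k) ∈ Subgroup.closure (gens n k c : Set (El n k)) :=
    Subgroup.subset_closure (geng_mem_gens.2 (.inr (.inl rfl)))
  have h2 : ∀ a : ℤ, (mv ⟨a, 0⟩ : El n k) ∈ Subgroup.closure (gens n k c : Set (El n k)) := by
    intro a
    induction a using Int.induction_on with
    | zero => exact Subgroup.one_mem _
    | succ a ih =>
      rw [show (⟨a + 1, 0⟩ : Dh) = ⟨a, 0⟩ * rho0 * rho1 by
        ext1 <;> simp [rho0, rho1, z2_one_add_one], mv_mul, mv_mul]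
      exact mul_mem (mul_mem ih h0) h1
    | pred a ih =>
      rw [show (⟨-a - 1, 0⟩ : Dh) = ⟨-a, 0⟩ * rho1 * rho0 by
        ext1 <;> simp [rho0, rho1, z2_one_add_one, sub_eq_add_neg], mv_mul, mv_mul]
      exact mul_mem (mul_mem ih h1) h0
  obtain ⟨a, b⟩ := g
  rcases z2_cases b with rfl | rfl
  · exact h2 a
  · rw [show (⟨a, 1⟩ : Dh) = ⟨a, 0⟩ * rho0 by ext1 <;> simp [rho0], mv_mul]
    exact mul_mem (h2 a) h0

lemma geng_tog_gens (c : ℤ) (i : Fin k) :
    tog n i ∈ Subgroup.closure (gens n k c : Set (El n k)) :=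
  Subgroup.subset_closure (geng_mem_gens.2 (.inr (.inr (.inr ⟨i, rfl⟩))))

lemma geng_conj (g : Dh) (w : Wm n k) : mm (aw g w) = mv g * mm w * (mv g)⁻¹ := by
  rw [mul_mm, mul_inv_cancel_right]
  exact congrArg mm (iot_zero _).symm

lemma geng_lamp_gens (c c' : ℤ) : lamp n k c' ∈ Subgroup.closure (gens n k c : Set (El n k)) := by
  have h : lamp n k c' = mv ⟨c' - c, 0⟩ * lamp n k c * (mv ⟨c' - c, 0⟩)⁻¹ := by
    rw [lamp, lamp, ← geng_conj, aw_mk_zero, ← Pi.single_smul, smul_smul, ← tt_add, sub_add_cancel]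
  rw [h]
  exact mul_mem (mul_mem (geng_mv_gens c _) (Subgroup.subset_closure
    (geng_mem_gens.2 (.inr (.inr (.inl rfl)))))) (inv_mem (geng_mv_gens c _))

lemma geng_le (c c' : ℤ) : Subgroup.closure (gens n k c : Set (El n k)) ≤
    Subgroup.closure (gens n k c' : Set (El n k)) := by
  refine (Subgroup.closure_le _).2 fun x hx => ?_
  rcases geng_mem_gens.1 hx with rfl | rfl | rfl | ⟨i, rfl⟩
  · exact geng_mv_gens _ _
  · exact geng_mv_gens _ _
  · exact geng_lamp_gens _ _
  · exact geng_tog_gens _ _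

lemma geng_ind {S : Finset (El n k)} (hS : Gen S) (P : El n k → Prop)
    (h0 : ∀ s ∈ S, P s) (h1 : P 1) (h2 : ∀ x y, P x → P y → P (x * y)) (h3 : ∀ x, P x → P x⁻¹)
    {h : El n k} (hh : h ∈ GG n k) : P h :=
  Subgroup.closure_induction (k := (S : Set (El n k))) (p := fun x _ => P x) h0 h1
    (fun x y _ _ => h2 x y) (fun x _ => h3 x) ((show _ = GG n k from hS).symm ▸ hh)

lemma geng_tot (c : ℤ) : tot (tt n c • (dl : Lm n)) = 1 := by simp [tot_apply, dl]

lemma geng_Psi (c : ℤ) (o : Option (Fin k)) :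
    Psi (o.elim (lamp n k c) (tog n)) = Pi.single o 1 := by
  have h0 : tot (dl : Lm n) = 1 := by simp [tot_apply, dl]
  ext1 o'
  by_cases h : o' = o
  · subst h
    rcases o' with _ | i <;> simp [Psi, lamp, mm, tog, geng_tot, h0]
  · rcases o with _ | i <;> simp [Psi, lamp, mm, tog, Pi.single_eq_of_ne h]

lemma geng_psi_tog (i : Fin k) : psi (tog n i) = Pi.single i 1 := by
  ext1 j
  have := congrFun (geng_Psi (n := n) 0 (some i)) (some j)
  simpa [Psi_some, Pi.single_apply] using this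

lemma geng_sq {r : Dh} (hr : r.b = 1) : r * r = 1 := by
  ext1 <;> simp [hr, z2_one_add_one]

lemma geng_single (o : Option (Fin k)) (f : Lm n) : (Pi.single o f : Wm n k) =
    f 0 • (Pi.single o dl : Wm n k) + f 1 • aw rho0 (Pi.single o dl) := by
  ext1 o'
  by_cases h : o' = o
  · subst h
    ext1 s
    rcases z2_cases s with rfl | rfl <;>
      simp [aw_apply, act_apply, rho0, dl, z2_one_add_one]
  · simp [aw_apply, Pi.single_eq_of_ne h]

lemma mv_mem (g : Dh) : (mv g : El n k) ∈ GG n k := geng_mv_gens 0 g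

lemma tog_mem (i : Fin k) : tog n i ∈ GG n k := geng_tog_gens 0 i

lemma lamp_mem (c : ℤ) : lamp n k c ∈ GG n k := geng_lamp_gens 0 c

lemma geng_Y_mem (c : ℤ) (o : Option (Fin k)) : o.elim (lamp n k c) (tog n) ∈ GG n k := by
  rcases o with _ | i
  · exact lamp_mem c
  · exact tog_mem i

lemma geng_mm_add (w w' : Wm n k) : mm (w + w') = mm w * mm w' := mm_mul w (mm w') ▸ rfl

lemma geng_mm_aw (g : Dh) {w : Wm n k} (h : mm w ∈ GG n k) : mm (aw g w) ∈ GG n k :=
  geng_conj g w ▸ mul_mem (mul_mem (mv_mem g) h) (inv_mem (mv_mem g))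

/-- The digits of the elements of the group that neither move nor change the lane. -/
noncomputable def geng_A (n k : ℕ) : AddSubgroup (Wm n k) where
  carrier := {w | mm w ∈ GG n k}
  zero_mem' := (GG n k).one_mem
  add_mem' := fun {w w'} (h : mm w ∈ GG n k) (h' : mm w' ∈ GG n k) =>
    show mm (w + w') ∈ GG n k from geng_mm_add w w' ▸ mul_mem h h'
  neg_mem' := fun {w} (h : mm w ∈ GG n k) => by
    have e : mm (-w) = (mm w)⁻¹ := eq_inv_of_mul_eq_one_left (by
      rw [← geng_mm_add, neg_add_cancel]; rfl)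
    exact show mm (-w) ∈ GG n k from e ▸ inv_mem h

/-- The same as a module over the quadratic order. -/
noncomputable def geng_M (n k : ℕ) : Submodule (OO n) (Wm n k) where
  toAddSubmonoid := (geng_A n k).toAddSubmonoid
  smul_mem' := fun c w (h : mm w ∈ GG n k) => by
    have e : c = ((c.re - (2 * n + 2) * c.im : ℤ) : OO n) + (c.im : OO n) * tt n 1 := by
      rw [tt_one]
      ext <;> simp
      ring
    have h1 : tt n 1 • w ∈ geng_A n k :=
      show mm (tt n 1 • w) ∈ GG n k from aw_mk_zero 1 w ▸ geng_mm_aw ⟨1, 0⟩ h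
    rw [e, add_smul, mul_smul, Int.cast_smul_eq_zsmul, Int.cast_smul_eq_zsmul]
    exact (geng_A n k).add_mem (zsmul_mem (show w ∈ geng_A n k from h) _) (zsmul_mem h1 _)

lemma geng_memM {w : Wm n k} : w ∈ geng_M n k ↔ mm w ∈ GG n k := Iff.rfl

lemma geng_aw (g : Dh) {w : Wm n k} (h : w ∈ geng_M n k) : aw g w ∈ geng_M n k :=
  geng_memM.2 (geng_mm_aw g (geng_memM.1 h))

lemma geng_span {ι : Type} [Fintype ι] [DecidableEq ι] {S : Finset (El n k)} (hS : Gen S)
    (φ : El n k → ι → ZMod 2) (h1 : φ 1 = 0) (h2 : ∀ x y, φ (x * y) = φ x + φ y)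
    (h3 : ∀ x, φ x⁻¹ = φ x) (hφ : ∀ i, ∃ h ∈ GG n k, φ h = Pi.single i 1) :
    Submodule.span (ZMod 2) (φ '' S) = ⊤ := by
  rw [eq_top_iff, ← (Pi.basisFun (ZMod 2) ι).span_eq, Submodule.span_le]
  rintro _ ⟨i, rfl⟩
  obtain ⟨h, hh, e⟩ := hφ i
  rw [Pi.basisFun_apply, ← e]
  refine geng_ind hS (fun h => φ h ∈ Submodule.span (ZMod 2) (φ '' S))
    (fun s hs => Submodule.subset_span ⟨s, hs, rfl⟩) ?_ (fun x y hx hy => ?_) (fun x hx => ?_) hh
  · rw [h1]
    exact Submodule.zero_mem _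
  · rw [h2]
    exact Submodule.add_mem _ hx hy
  · rwa [h3]

theorem gen_gens (c : ℤ) : Gen (gens n k c) := le_antisymm (geng_le c 0) (geng_le 0 c)

lemma Gen.mem {S : Finset (El n k)} (hS : Gen S) {r : ℕ} {h : El n k} (hh : h ∈ ball S r) :
    h ∈ GG n k := by
  obtain ⟨w, -, h2, rfl⟩ := hh
  rw [← show _ = GG n k from hS]
  exact Subgroup.list_prod_mem _ fun x hx => (h2 x hx).elim (fun h => Subgroup.subset_closure h)
    fun h => inv_mem_iff.1 (Subgroup.subset_closure h)

theorem s_eq_of_mem {h : El n k} (hh : h ∈ GG n k) : h.s = ∑ i, psi h i := by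
  refine geng_ind (gen_gens 0) (fun h => h.s = ∑ i, psi h i) (fun x hx => ?_) (by simp)
    (fun x y hx hy => by simp [hx, hy, sum_add_distrib]) (fun x hx => by simpa using hx) hh
  rcases geng_mem_gens.1 hx with rfl | rfl | rfl | ⟨i, rfl⟩
  · simp [mv, psi]
  · simp [mv, psi]
  · simp [lamp, mm, psi]
  · rw [geng_psi_tog]
    simp [tog]

theorem two_q_mem (w : Wm n k) : mm ((2 * (2 * n + 1) : ℤ) • w) ∈ GG n k := by
  have h1 : ∀ o, (2 * (2 * n + 1) : ℤ) • (Pi.single o dl : Wm n k) ∈ geng_M n k := by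
    rintro (_ | i)
    · refine zsmul_mem ?_ _
      have := lamp_mem (n := n) (k := k) 0
      rwa [lamp, tt_zero, one_smul, ← geng_memM] at this
    · have h2 := (GG n k).mul_mem (tog_mem i) ((GG n k).mul_mem ((GG n k).mul_mem
        (mv_mem ⟨1, 0⟩) (tog_mem i)) (mv_mem ⟨-1, 0⟩))
      have h3 : tog n i * (mv ⟨1, 0⟩ * tog n i * mv ⟨-1, 0⟩) =
          mm ((1 - tt n 1) • (Pi.single (some i) dl : Wm n k)) := by
        ext1
        · simp only [mul_w, tog, mv, mm, mul_s, mul_g, map_zero, add_zero, zero_add, iot_zero,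
            aw_one, aw_mk_zero, map_smul]
          rw [iot_one_of_gm (by simp [gm_apply]), sub_smul, one_smul, smul_neg, sub_eq_add_neg]
        · ext1 <;> simp [tog, mv, mm]
        · simp [tog, mv, mm, z2_one_add_one]
      have h4 := (geng_M n k).smul_mem (tt n (-1) - 1) (geng_memM.2 (h3 ▸ h2))
      have h5 : (tt n (-1) - 1) * (1 - tt n 1) = ((2 * (2 * n + 1) : ℤ) : OO n) := by
        have h6 := tt_trace (n := n)
        have h7 := tt_neg_mul (n := n) 1
        rw [NN] at h6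
        push_cast at h6 ⊢
        linear_combination h6 - h7
      rwa [smul_smul, h5, Int.cast_smul_eq_zsmul] at h4
  rw [← geng_memM, ← univ_sum_single w, smul_sum]
  refine Submodule.sum_mem _ fun o _ => ?_
  rw [geng_single, smul_add, smul_comm, smul_comm _ (w o 1), ← map_zsmul]
  exact add_mem (Submodule.smul_mem _ _ (h1 o)) (Submodule.smul_mem _ _ (geng_aw rho0 (h1 o)))

theorem Z1_gens (c : ℤ) :
    Z1 (gens n k c) (fun o => o.elim (lamp n k c) (tog n)) := by
  refine ⟨mem_ball_one (geng_mem_gens.2 (.inl rfl)),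
    mem_ball_one (geng_mem_gens.2 (.inr (.inl rfl))), ?_, ?_,
    fun o => s_eq_of_mem (geng_Y_mem c o), ?_, ?_⟩
  · rintro (_ | i)
    · exact mem_ball_one (geng_mem_gens.2 (.inr (.inr (.inl rfl))))
    · exact mem_ball_one (geng_mem_gens.2 (.inr (.inr (.inr ⟨i, rfl⟩))))
  · rintro (_ | i) <;> rfl
  · simpa only [Option.elim_some, geng_psi_tog] using
      Pi.linearIndependent_single_one (Fin k) (ZMod 2)
  · simpa only [geng_Psi] using Pi.linearIndependent_single_one (Option (Fin k)) (ZMod 2)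

theorem exists_basis {S : Finset (El n k)} (hS : Gen S) :
    ∃ Tl : Fin k → El n k, (∀ i, Tl i ∈ S) ∧
      LinearIndependent (ZMod 2) (fun i => psi (Tl i)) := by
  have hs := geng_span hS psi psi_one psi_mul psi_inv fun i => ⟨_, tog_mem i, geng_psi_tog i⟩
  obtain ⟨f, hf, -, hl⟩ :=
    Submodule.exists_fun_fin_finrank_span_eq (ZMod 2) (psi '' (S : Set (El n k)))
  have e : k = Module.finrank (ZMod 2) (Submodule.span (ZMod 2) (psi '' (S : Set (El n k)))) := by
    rw [hs, finrank_top, Module.finrank_fin_fun]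
  choose t ht ht' using hf
  refine ⟨fun i => t (Fin.cast e i), fun i => ht _, ?_⟩
  simp only [ht']
  exact hl.comp _ (Fin.cast_injective e)

theorem exists_ext {S : Finset (El n k)} (hS : Gen S)
    (Tl : Fin k → El n k) (hψ : LinearIndependent (ZMod 2) (fun i => psi (Tl i))) :
    ∃ y ∈ S, LinearIndependent (ZMod 2) (fun o : Option (Fin k) => Psi (o.elim y Tl)) := by
  have hs := geng_span hS Psi Psi_one Psi_mul Psi_inv fun o =>
    ⟨_, geng_Y_mem 0 o, geng_Psi 0 o⟩
  have hl : LinearIndependent (ZMod 2) (fun i => Psi (Tl i)) :=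
    LinearIndependent.of_comp (LinearMap.funLeft (ZMod 2) (ZMod 2) (some : Fin k → _)) hψ
  have : ∃ y ∈ S, Psi y ∉ Submodule.span (ZMod 2) (Set.range fun i => Psi (Tl i)) := by
    by_contra! hc
    have ht : Submodule.span (ZMod 2) (Set.range fun i => Psi (Tl i)) = ⊤ := by
      rw [eq_top_iff, ← hs, Submodule.span_le]
      rintro _ ⟨y, hy, rfl⟩
      exact hc y hy
    have := finrank_span_eq_card hl
    rw [ht, finrank_top, Module.finrank_fintype_fun_eq_card, Fintype.card_option] at this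
    omega
  obtain ⟨y, hy, hy'⟩ := this
  refine ⟨y, hy, ?_⟩
  have e : (fun o : Option (Fin k) => Psi (o.elim y Tl)) =
      fun o => Option.casesOn' o (Psi y) fun i => Psi (Tl i) := by
    ext1 o
    cases o <;> rfl
  exact e ▸ hl.option hy'

theorem exists_refl {S : Finset (El n k)} (hS : Gen S) : ∃ r ∈ ball S 1, r.g.b = 1 := by
  by_contra! hc
  have := geng_ind hS (fun h => h.g.b = 0)
    (fun s hs => (z2_cases _).resolve_right (hc s (mem_ball_one hs))) rfl
    (fun x y hx hy => by simp [hx, hy]) (fun x hx => by simpa using hx) (mv_mem rho0)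
  exact one_ne_zero this

theorem exists_other {S : Finset (El n k)} (hS : Gen S) (ϱ : Dh) (hϱ : ϱ.b = 1) :
    ∃ v ∈ ball S 1, v.g ≠ 1 ∧ v.g ≠ ϱ := by
  by_contra! hc
  have := geng_ind hS (fun h => h.g = 1 ∨ h.g = ϱ)
    (fun s hs => or_iff_not_imp_left.2 (hc s (mem_ball_one hs))) (Or.inl rfl)
    (fun x y hx hy => by
      rcases hx with hx | hx <;> rcases hy with hy | hy <;> simp [hx, hy, geng_sq hϱ])
    (fun x hx => by
      rcases hx with hx | hx
      · simp [hx]
      · right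
        rw [inv_g, hx, inv_eq_of_mul_eq_one_right (geng_sq hϱ)]) (mv_mem ⟨1, 0⟩)
  rcases this with h | h
  · exact one_ne_zero (congrArg Dh.a h)
  · exact zero_ne_one ((congrArg Dh.b h).trans hϱ)

theorem adjacent {S : Finset (El n k)} (hS : Gen S) (r r' : Dh) (hr : r.b = 1) (hr' : r'.b = 1)
    (h : ∀ s ∈ ball S 1, s.g = 1 ∨ s.g = r ∨ s.g = r') :
    ∃ g : Dh, (g * r * g⁻¹ = rho0 ∧ g * r' * g⁻¹ = rho1) ∨
      (g * r' * g⁻¹ = rho0 ∧ g * r * g⁻¹ = rho1) := by
  have h1 := geng_ind hS (fun h => r.a - r'.a ∣ h.g.a - if h.g.b = 0 then 0 else r.a)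
    (fun s hs => by
      rcases h s (mem_ball_one hs) with e | e | e
      · simp [e]
      · simp [e, hr]
      · simp only [e, hr', one_ne_zero, if_false]
        exact dvd_sub_comm.1 dvd_rfl) (by simp)
    (fun x y hx hy => by
      rcases z2_cases x.g.b with e | e <;> rcases z2_cases y.g.b with e' | e' <;>
        simp only [mul_g, Dh.mul_a, Dh.mul_b, e, e', one_ne_zero, if_true, if_false, sgz_zero,
          sgz_one, add_zero, zero_add, z2_one_add_one] at hx hy ⊢
      · exact (dvd_add hx hy).trans (Dvd.intro_left 1 (by ring))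
      · exact (dvd_add hx hy).trans (Dvd.intro_left 1 (by ring))
      · exact (dvd_sub hx hy).trans (Dvd.intro_left 1 (by ring))
      · exact (dvd_sub hx hy).trans (Dvd.intro_left 1 (by ring)))
    (fun x hx => by
      rcases z2_cases x.g.b with e | e <;> simpa [e] using hx) (mv_mem ⟨1, 0⟩)
  have h2 : r.a - r'.a = 1 ∨ r.a - r'.a = -1 :=
    Int.isUnit_iff.1 (isUnit_of_dvd_one (by simpa [mv] using h1))
  have k0 : ∀ (c : ℤ) (t : Dh), t.b = 1 → (⟨c, 0⟩ : Dh) * t * (⟨c, 0⟩ : Dh)⁻¹ = ⟨t.a + 2 * c, 1⟩ :=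
    fun c t ht => by
      ext1
      · simp [ht]
        ring
      · simp [ht]
  have k1 : ∀ (c : ℤ) (t : Dh), t.b = 1 → (⟨c, 1⟩ : Dh) * t * (⟨c, 1⟩ : Dh)⁻¹ = ⟨2 * c - t.a, 1⟩ :=
    fun c t ht => by
      ext1
      · simp [ht, z2_one_add_one]
        ring
      · simp [ht, z2_one_add_one]
  obtain ⟨c, hc⟩ := Int.even_or_odd' r.a
  rcases h2 with h2 | h2 <;> rcases hc with hc | hc
  · refine ⟨⟨-c, 0⟩, Or.inl ⟨?_, ?_⟩⟩
    · rw [k0 _ _ hr]
      exact Dh.ext (by simp only [rho0]; omega) rfl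
    · rw [k0 _ _ hr']
      exact Dh.ext (by simp only [rho1]; omega) rfl
  · refine ⟨⟨c, 1⟩, Or.inr ⟨?_, ?_⟩⟩
    · rw [k1 _ _ hr']
      exact Dh.ext (by simp only [rho0]; omega) rfl
    · rw [k1 _ _ hr]
      exact Dh.ext (by simp only [rho1]; omega) rfl
  · refine ⟨⟨c, 1⟩, Or.inl ⟨?_, ?_⟩⟩
    · rw [k1 _ _ hr]
      exact Dh.ext (by simp only [rho0]; omega) rfl
    · rw [k1 _ _ hr']
      exact Dh.ext (by simp only [rho1]; omega) rfl
  · refine ⟨⟨-c - 1, 0⟩, Or.inr ⟨?_, ?_⟩⟩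
    · rw [k0 _ _ hr']
      exact Dh.ext (by simp only [rho0]; omega) rfl
    · rw [k0 _ _ hr]
      exact Dh.ext (by simp only [rho1]; omega) rfl

theorem invol_psi (h : El n k) (hb : h.g.b = 1) (h2 : h * h = 1) :
    psi h = 0 ∧ (h.s = 0 → Psi h = 0) := by
  have h3 : h.w + iot h.s (aw h.g h.w) = 0 := congrArg El.w h2
  have h4 : psi h = 0 := funext fun i => by
    have := congrArg aug (congrFun (congrFun h3 (some i)) 0)
    rcases z2_cases h.s with e | e <;>
      simpa [iot_some, aw_apply, act_apply, hb, e, psi, tot_apply] using this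
  refine ⟨h4, fun hs => funext ?_⟩
  rintro (_ | i)
  · have := congrArg aug (congrFun (congrFun h3 none) 0)
    simpa [aw_apply, act_apply, hb, hs, Psi, tot_apply] using this
  · exact congrFun h4 i

theorem growth_iff (x : ℝ) :
    x ∈ growthSet (GG n k) ↔ ∃ S : Finset (El n k), Gen S ∧ IsRate S x := by
  classical
  have key : ∀ S : Finset (GG n k), Subgroup.closure (S : Set (GG n k)) = ⊤ ↔
      Gen (S.image (GG n k).subtype) := fun S => by
    rw [Gen, coe_image, ← MonoidHom.map_closure, ← (Subgroup.map_injective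
      (GG n k).subtype_injective).eq_iff, ← MonoidHom.range_eq_map, Subgroup.range_subtype]
  have rate : ∀ S : Finset (GG n k), IsRate S x ↔ IsRate (S.image (GG n k).subtype) x := fun S => by
    simp only [IsRate, ncard_ball_map _ (GG n k).subtype_injective]
  constructor
  · rintro ⟨S, h1, h2⟩
    exact ⟨_, (key S).1 h1, (rate S).1 h2⟩
  · rintro ⟨S, h1, h2⟩
    have h3 : (S.preimage _ (GG n k).subtype_injective.injOn).image (GG n k).subtype = S := by
      ext y
      simp only [mem_image, mem_preimage]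
      exact ⟨fun ⟨z, hz, e⟩ => e ▸ hz, fun hy => ⟨⟨y, h1.mem (mem_ball_one hy)⟩, hy, rfl⟩⟩
    exact ⟨_, (key _).2 (h3.symm ▸ h1), (rate _).2 (h3.symm ▸ h2)⟩

theorem fg_GG : Group.FG (GG n k) := (Group.fg_iff_subgroup_fg _).2 ⟨gens n k 0, rfl⟩

end Pool.Agent.MP_646035_al.PC

namespace Pool.Agent.MP_646035_al.PC

open Finset PT

variable {n k : ℕ} {Q : Type} [AddCommGroup Q] [DecidableEq Q] {e : Fin 2 → Q}

/-- Scaling of the digits by an integer. -/
def norm_sc (m : ℤ) : El n k →* El n k where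
  toFun h := ⟨m • h.w, h.g, h.s⟩
  map_one' := by ext1 <;> simp
  map_mul' h h' := by
    ext1
    · simp only [mul_w, smul_add, map_zsmul]
    · rfl
    · rfl

lemma norm_sc_w (m : ℤ) (h : El n k) : (norm_sc m h).w = m • h.w := rfl
lemma norm_sc_g (m : ℤ) (h : El n k) : (norm_sc m h).g = h.g := rfl
lemma norm_sc_s (m : ℤ) (h : El n k) : (norm_sc m h).s = h.s := rfl

lemma norm_sc_inj : Function.Injective (norm_sc (n := n) (k := k) 2) := fun h h' e => by
  ext1
  · have h1 := congrArg El.w e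
    rw [norm_sc_w, norm_sc_w] at h1
    ext1 o; ext1 s
    have h2 := congrFun (congrFun h1 o) s
    simp only [Pi.smul_apply, zsmul_eq_mul, Int.cast_ofNat] at h2
    exact mul_left_cancel₀ (by norm_num) h2
  · have := congrArg El.g e
    exact this
  · have := congrArg El.s e
    exact this

lemma norm_mm_inv (w : Wm n k) : (mm w)⁻¹ = mm (-w) := by
  ext1 <;> simp [mm, inv_w]

lemma norm_conj (be : Wm n k) (h : El n k) :
    mm be * h * (mm be)⁻¹ = ⟨be + h.w - iot h.s (aw h.g be), h.g, h.s⟩ := by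
  rw [norm_mm_inv, mm_mul]
  ext1
  · simp [mul_w, mm, sub_eq_add_neg]
  · simp [mm]
  · simp [mm]

lemma norm_split {a : El n k} {c : ℤ} (g : a.g = ⟨c, 1⟩) (s : a.s = 0) (q : a * a = 1) :
    ∃ al : Wm n k, a.w = al - aw a.g al := by
  have h := congrArg El.w q
  rw [mul_w, s, iot_zero, one_w] at h
  refine ⟨fun o s => if s = 0 then a.w o 0 else 0, ?_⟩
  ext1 o; ext1 s
  have h1 := congrFun (congrFun h o) 1
  simp only [Pi.add_apply, aw_apply, act_apply, g, z2_one_add_one, Pi.zero_apply] at h1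
  rcases z2_cases s with rfl | rfl
  · simp [aw_apply, act_apply, g]
  · simp only [Pi.sub_apply, aw_apply, act_apply, g, z2_one_add_one, if_true, one_ne_zero,
      if_false, zero_sub]
    exact eq_neg_of_add_eq_zero_left h1

lemma norm_PP {x y : OO n} (hx : aug x = 0) (hy : aug y = 0) : ∃ z : OO n, x * y = 2 * z := by
  rw [aug_apply, ← Int.cast_add, ZMod.intCast_zmod_eq_zero_iff_dvd] at hx hy
  obtain ⟨u, hu⟩ := hx
  obtain ⟨v, hv⟩ := hy
  have h1 : x.re = 2 * u - x.im := by push_cast at hu; linarith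
  have h2 : y.re = 2 * v - y.im := by push_cast at hv; linarith
  refine ⟨⟨2 * u * v - u * y.im - v * x.im + (2 * (n : ℤ) ^ 2 + 4 * n + 2) * x.im * y.im,
    u * y.im + v * x.im - x.im * y.im⟩, ?_⟩
  ext
  · simp only [Zsqrtd.re_mul, Zsqrtd.re_ofNat, Zsqrtd.im_ofNat, h1, h2, dd_cast]
    ring
  · simp only [Zsqrtd.im_mul, Zsqrtd.re_ofNat, Zsqrtd.im_ofNat, h1, h2]
    ring

lemma norm_tot_smul (c : OO n) (f : Lm n) : tot (c • f) = aug c * tot f := by
  simp only [tot_apply, Pi.smul_apply, smul_eq_mul, map_mul, mul_add]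

lemma norm_rho1_sq : rho1 * rho1 = 1 := by
  ext1
  · simp [rho1]
  · exact z2_one_add_one

/-- The conjugating element. -/
lemma norm_be (al0 al1 : Wm n k) : ∃ be : Wm n k,
    be + (2 * (2 * (n : ℤ) + 1)) • (al0 - aw rho0 al0) - aw rho0 be = 0 ∧
    be + (2 * (2 * (n : ℤ) + 1)) • (al1 - aw rho1 al1) - aw rho1 be = 0 ∧
    (∀ o, tot (be o) = 0) ∧ ∃ z : OO n, be none 0 - be none 1 = 2 * z := by
  obtain ⟨w, hw⟩ : ∃ w : Wm n k, w = (al1 - al0) - aw rho1 (al1 - al0) := ⟨_, rfl⟩
  have e1 : aw rho1 w = -w := by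
    rw [hw, map_sub, ← aw_mul, norm_rho1_sq, aw_one, neg_sub]
  have e0 : aw rho0 w = -(tt n 1 • w) := by
    have h1 : aw rho1 w = tt n (-1) • aw rho0 w := aw_mk (-1) 1 w
    rw [e1] at h1
    have h2 := congrArg (fun v => tt n 1 • v) h1
    simp only [smul_smul, tt_mul_neg, one_smul, smul_neg] at h2
    exact h2.symm
  have b1 : bar 1 (tt n 1 - 1) = tt n (-1) - 1 := by
    rw [map_sub, bar_tt, map_one]; simp
  have tr : tt n 1 - 1 + (tt n (-1) - 1) = ((2 * (2 * (n : ℤ) + 1) : ℤ) : OO n) := by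
    have := tt_trace (n := n)
    rw [NN] at this
    push_cast at this ⊢
    linear_combination this
  have at1 : aug (tt n 1 - 1) = 0 := by rw [map_sub, aug_tt, map_one, sub_self]
  refine ⟨-((2 * (2 * (n : ℤ) + 1)) • al0) - (tt n 1 - 1) • w, ?_, ?_, fun o => ?_, ?_⟩
  · rw [map_sub, map_neg, map_zsmul, aw_smul, e0, show rho0.b = 1 from rfl, b1, smul_neg,
      smul_smul, sub_mul, tt_neg_mul, one_mul]
    module
  · rw [map_sub, map_neg, map_zsmul, aw_smul, e1, show rho1.b = 1 from rfl, b1, smul_neg]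
    have h3 : (tt n 1 - 1) • w + (tt n (-1) - 1) • w = (2 * (2 * (n : ℤ) + 1)) • w := by
      rw [← add_smul, tr, Int.cast_smul_eq_zsmul]
    have h4 : (2 * (2 * (n : ℤ) + 1)) • w = (2 * (2 * (n : ℤ) + 1)) • (al1 - aw rho1 al1) -
        (2 * (2 * (n : ℤ) + 1)) • al0 + (2 * (2 * (n : ℤ) + 1)) • aw rho1 al0 := by
      rw [hw, map_sub]; simp only [smul_sub]; abel
    rw [h4] at h3
    rw [← neg_zero, ← sub_eq_zero.2 h3]
    abel
  · rw [Pi.sub_apply, Pi.neg_apply, Pi.smul_apply, Pi.smul_apply, map_sub, map_neg, map_zsmul,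
      norm_tot_smul, at1, zero_mul, sub_zero, mul_smul, two_zsmul, z2_add_self, neg_zero]
  · have hw0 : aug (w none 0 - w none 1) = 0 := by
      simp only [hw, Pi.sub_apply, aw_apply, act_apply, map_sub, map_mul, aug_tt, aug_bar,
        one_mul, show rho1.b = 1 from rfl, zero_add, z2_one_add_one]
      generalize aug (al1 none 0) = x1
      generalize aug (al0 none 0) = x2
      generalize aug (al1 none 1) = x3
      generalize aug (al0 none 1) = x4
      revert x1 x2 x3 x4; decide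
    obtain ⟨z, hz⟩ := norm_PP at1 hw0
    refine ⟨-((2 * (n : OO n) + 1) * (al0 none 0 - al0 none 1)) - z, ?_⟩
    simp only [Pi.sub_apply, Pi.neg_apply, Pi.smul_apply]
    simp only [smul_eq_mul, zsmul_eq_mul]
    push_cast
    linear_combination -hz

lemma norm_half {be : Wm n k} (ht : ∀ o, tot (be o) = 0) {z : OO n}
    (hz : be none 0 - be none 1 = 2 * z) (Y : El n k) :
    ∃ w' : Wm n k, (2 : ℤ) • w' = be + (2 * (2 * (n : ℤ) + 1)) • Y.w - iot Y.s be ∧
      ∀ o, tot (w' o) = tot (Y.w o) := by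
  have hq : ∀ f : Lm n, tot ((2 * (n : ℤ) + 1) • f) = tot f := fun f => by
    rw [map_zsmul, add_smul, mul_smul, two_zsmul, z2_add_self, one_smul, zero_add]
  rcases z2_cases Y.s with hs | hs
  · refine ⟨(2 * (n : ℤ) + 1) • Y.w, ?_, fun o => hq _⟩
    rw [hs, iot_zero, mul_smul]; abel
  · refine ⟨(2 * (n : ℤ) + 1) • Y.w + fun o => match o with
      | none => fun s => if s = 0 then z else -z
      | some i => be (some i), ?_, ?_⟩
    · rw [hs, smul_add, mul_smul, add_comm be, add_sub_assoc]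
      congr 1
      ext1 (_ | i)
      · ext1 s
        rcases z2_cases s with rfl | rfl
        · simp only [Pi.smul_apply, Pi.sub_apply, iot_none, kap_apply, zero_add, if_true, hz,
            zsmul_eq_mul, Int.cast_ofNat]
        · simp only [Pi.smul_apply, Pi.sub_apply, iot_none, kap_apply, z2_one_add_one,
            one_ne_zero, if_false, zsmul_eq_mul, Int.cast_ofNat]
          linear_combination hz
      · simp only [Pi.smul_apply, Pi.sub_apply, iot_some, sgz_one, neg_smul, one_smul,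
          sub_neg_eq_add, two_zsmul]
    · rintro (_ | i)
      · simp only [Pi.add_apply, Pi.smul_apply, map_add, hq]
        simp [tot_apply, z2_add_self]
      · simp only [Pi.add_apply, Pi.smul_apply, map_add, hq, ht, add_zero]

theorem normalise {S : Finset (El n k)} (a0 a1 : El n k) (h0 : a0 ∈ ball S 1)
    (h1 : a1 ∈ ball S 1) (g0 : a0.g = rho0) (g1 : a1.g = rho1) (s0 : a0.s = 0) (s1 : a1.s = 0)
    (q0 : a0 * a0 = 1) (q1 : a1 * a1 = 1) (Yl : Option (Fin k) → El n k)
    (hY : ∀ o, Yl o ∈ ball S 1) (hg : ∀ o, (Yl o).g = 1) :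
    ∃ (S' : Finset (El n k)) (Yl' : Option (Fin k) → El n k),
      (∀ r, (ball S' r).ncard ≤ (ball S r).ncard) ∧ mv rho0 ∈ ball S' 1 ∧ mv rho1 ∈ ball S' 1 ∧
        ∀ o, Yl' o ∈ ball S' 1 ∧ (Yl' o).g = 1 ∧ (Yl' o).s = (Yl o).s ∧
          Psi (Yl' o) = Psi (Yl o) := by
  classical
  obtain ⟨al0, e0⟩ := norm_split (c := 0) g0 s0 q0
  obtain ⟨al1, e1⟩ := norm_split (c := -1) g1 s1 q1
  obtain ⟨be, b0, b1, bt, z, bz⟩ := norm_be al0 al1
  choose w' hw' tw' using fun o => norm_half bt bz (Yl o)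
  let Φ : El n k →* El n k :=
    (MulAut.conj (mm be)).toMonoidHom.comp (norm_sc (2 * (2 * (n : ℤ) + 1)))
  have hΦ : ∀ h, Φ h = ⟨be + (2 * (2 * (n : ℤ) + 1)) • h.w - iot h.s (aw h.g be), h.g, h.s⟩ :=
    fun h => norm_conj be _
  let Yl' : Option (Fin k) → El n k := fun o => ⟨w' o, 1, (Yl o).s⟩
  let S' : Finset (El n k) := insert (mv rho0) (insert (mv rho1) (univ.image Yl'))
  have hl : ∀ x ∈ S', ∃ y ∈ ball S 1, Φ y = norm_sc 2 x := by
    intro x hx
    simp only [S', mem_insert, mem_image, mem_univ, true_and] at hx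
    rcases hx with rfl | rfl | ⟨o, rfl⟩
    · refine ⟨a0, h0, ?_⟩
      rw [hΦ]
      ext1
      · rw [s0, iot_zero, e0, g0]
        simpa [norm_sc_w, mv] using b0
      · exact g0
      · exact s0
    · refine ⟨a1, h1, ?_⟩
      rw [hΦ]
      ext1
      · rw [s1, iot_zero, e1, g1]
        simpa [norm_sc_w, mv] using b1
      · exact g1
      · exact s1
    · refine ⟨Yl o, hY o, ?_⟩
      rw [hΦ]
      ext1
      · rw [hg, aw_one]; exact (hw' o).symm
      · exact hg o
      · rfl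
  have hsub : ∀ r g, g ∈ ball S' r → norm_sc 2 g ∈ Φ '' ball S r := by
    refine ball_induction (S := S') (fun r g => norm_sc 2 g ∈ Φ '' ball S r)
      ⟨1, one_mem_ball S 0, by rw [map_one, map_one]⟩ ?_ ?_
    · rintro r g ⟨y, hy, e⟩
      exact ⟨y, ball_mono S (Nat.le_succ r) hy, e⟩
    · rintro r g x ⟨y, hy, e⟩ hx
      rcases hx with hx | hx
      · obtain ⟨y', hy', e'⟩ := hl x hx
        exact ⟨y * y', mul_mem_ball hy hy', by rw [map_mul, map_mul, e, e']⟩
      · obtain ⟨y', hy', e'⟩ := hl _ hx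
        refine ⟨y * y'⁻¹, mul_mem_ball hy (inv_mem_ball hy'), ?_⟩
        rw [map_mul, map_mul, map_inv, e, e', map_inv, inv_inv]
  refine ⟨S', Yl', fun r => ?_, mem_ball_one (by simp [S']), mem_ball_one (by simp [S']),
    fun o => ⟨mem_ball_one (by simp [S']), rfl, rfl, funext fun o' => tw' o o'⟩⟩
  rw [← Set.ncard_image_of_injective (ball S' r) norm_sc_inj]
  refine (Set.ncard_le_ncard ?_ ((ball_finite S r).image Φ)).trans
    (Set.ncard_image_le (ball_finite S r))
  rintro _ ⟨g, hg', rfl⟩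
  exact hsub r g hg'

end Pool.Agent.MP_646035_al.PC

namespace Pool.Agent.MP_646035_al.PC

open Finset

variable {n k : ℕ}

/-- The coordinates of the real span of the digits. -/
abbrev Ix (k : ℕ) : Type := (Option (Fin k) × ZMod 2) × ZMod 2

/-- The permutation of the coordinates. -/
def lperm (b s : ZMod 2) (i : Ix k) : Ix k :=
  ((i.1.1, i.1.2 + b + if i.1.1 = none then s else 0), i.2 + b)

/-- The factor of a coordinate. -/
noncomputable def lfac (τ : ℝ) (s : ZMod 2) (i : Ix k) : ℝ :=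
  Real.exp (sgz i.2 * τ) * if i.1.1 = none then 1 else (sgz s : ℝ)

/-- The linear part. -/
noncomputable def lact (τ : ℝ) (b s : ZMod 2) (v : Ix k → ℝ) : Ix k → ℝ :=
  fun i => lfac τ s i * v (lperm b s i)

/-- The affine matrices. -/
noncomputable def lmat (v : Ix k → ℝ) (τ : ℝ) (b s : ZMod 2) :
    Matrix (Option (Ix k)) (Option (Ix k)) ℝ :=
  Matrix.of fun i j => match i, j with
    | none, none => 1
    | none, some _ => 0
    | some i, none => v i
    | some i, some j => if j = lperm b s i then lfac τ s i else 0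

lemma liea_perm (b b' s s' : ZMod 2) (i : Ix k) :
    lperm b' s' (lperm b s i) = lperm (b + b') (s + s') i := by
  obtain ⟨⟨o, σ⟩, ε⟩ := i
  simp only [lperm, Prod.mk.injEq, true_and]
  refine ⟨?_, add_assoc _ _ _⟩
  rcases o with _ | i
  · simp only [if_true]; ring
  · simp only [reduceCtorEq, if_false]; ring

lemma liea_fac (τ τ' : ℝ) (b s s' : ZMod 2) (i : Ix k) :
    lfac τ s i * lfac τ' s' (lperm b s i) = lfac (τ + sgz b * τ') (s + s') i := by
  obtain ⟨⟨o, σ⟩, ε⟩ := i
  have e : (sgz ε : ℝ) * (τ + sgz b * τ') = sgz ε * τ + sgz ε * sgz b * τ' := by ring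
  simp only [lfac, lperm, sgz_add, Int.cast_mul, e, Real.exp_add]
  rcases o with _ | i
  · simp only [if_true]; ring
  · simp only [reduceCtorEq, if_false]; ring

lemma liea_perm_zero (i : Ix k) : lperm 0 0 i = i := by
  obtain ⟨⟨o, σ⟩, ε⟩ := i
  simp [lperm]

lemma liea_fac_zero (i : Ix k) : lfac 0 0 i = 1 := by simp [lfac]

lemma liea_fac_ne (τ : ℝ) (s : ZMod 2) (i : Ix k) : lfac τ s i ≠ 0 := by
  refine mul_ne_zero (Real.exp_pos _).ne' ?_
  split_ifs
  · exact one_ne_zero
  · rcases z2_cases s with rfl | rfl <;> simp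

lemma lact_lact (τ τ' : ℝ) (b b' s s' : ZMod 2) (v : Ix k → ℝ) :
    lact τ b s (lact τ' b' s' v) = lact (τ + sgz b * τ') (b + b') (s + s') v := by
  funext i
  simp only [lact, ← mul_assoc, liea_fac, liea_perm]

lemma lact_zero (v : Ix k → ℝ) : lact 0 0 0 v = v := by
  funext i
  simp only [lact, liea_fac_zero, liea_perm_zero, one_mul]

lemma lmat_mul (v v' : Ix k → ℝ) (τ τ' : ℝ) (b b' s s' : ZMod 2) :
    lmat v τ b s * lmat v' τ' b' s' =
      lmat (v + lact τ b s v') (τ + sgz b * τ') (b + b') (s + s') := by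
  ext (_ | i) (_ | j)
  · simp [lmat, Matrix.mul_apply, Fintype.sum_option]
  · simp [lmat, Matrix.mul_apply, Fintype.sum_option]
  · simp [lmat, Matrix.mul_apply, Fintype.sum_option, lact]
  · simp only [lmat, Matrix.mul_apply, Fintype.sum_option, Matrix.of_apply, mul_zero, zero_add,
      ite_mul, zero_mul, sum_ite_eq', mem_univ, if_true, liea_perm]
    rw [mul_ite, liea_fac, mul_zero]

lemma lmat_one : lmat (0 : Ix k → ℝ) 0 0 0 = 1 := by
  ext (_ | i) (_ | j)
  · simp [lmat]
  · simp [lmat]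
  · simp [lmat]
  · simp [lmat, liea_perm_zero, liea_fac_zero, Matrix.one_apply, eq_comm]

lemma liea_neg (τ : ℝ) (b s : ZMod 2) (v : Ix k → ℝ) : lact τ b s (-v) = -lact τ b s v := by
  funext i
  simp [lact]

lemma liea_sq (b : ZMod 2) : (sgz b : ℝ) * sgz b = 1 := by exact_mod_cast sgz_mul_self b

lemma lmat_mul_inv (v : Ix k → ℝ) (τ : ℝ) (b s : ZMod 2) :
    lmat v τ b s * lmat (-lact (-(sgz b * τ)) b s v) (-(sgz b * τ)) b s = 1 := by
  have e : τ + sgz b * -(sgz b * τ) = 0 := by linear_combination (-τ) * liea_sq b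
  rw [lmat_mul, liea_neg, lact_lact, e, z2_add_self, z2_add_self, lact_zero, add_neg_cancel,
    lmat_one]

lemma lmat_inv_mul (v : Ix k → ℝ) (τ : ℝ) (b s : ZMod 2) :
    lmat (-lact (-(sgz b * τ)) b s v) (-(sgz b * τ)) b s * lmat v τ b s = 1 := by
  rw [lmat_mul, neg_add_cancel, neg_add_cancel, z2_add_self, z2_add_self, lmat_one]

/-- The size of the matrices. -/
abbrev lN (k : ℕ) : ℕ := Fintype.card (Option (Ix k))

/-- The reindexing of matrices. -/
noncomputable def lre (k : ℕ) :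
    Matrix (Option (Ix k)) (Option (Ix k)) ℝ ≃ₐ[ℝ] Matrix (Fin (lN k)) (Fin (lN k)) ℝ :=
  Matrix.reindexAlgEquiv ℝ ℝ (Fintype.equivFin _)

/-- The affine matrices as elements of the general linear group. -/
noncomputable def lgl (v : Ix k → ℝ) (τ : ℝ) (b s : ZMod 2) : GL (Fin (lN k)) ℝ :=
  ⟨lre k (lmat v τ b s), lre k (lmat (-lact (-(sgz b * τ)) b s v) (-(sgz b * τ)) b s),
    by rw [← map_mul, lmat_mul_inv, map_one], by rw [← map_mul, lmat_inv_mul, map_one]⟩

lemma lgl_mul (v v' : Ix k → ℝ) (τ τ' : ℝ) (b b' s s' : ZMod 2) :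
    lgl v τ b s * lgl v' τ' b' s' =
      lgl (v + lact τ b s v') (τ + sgz b * τ') (b + b') (s + s') :=
  Units.ext (by simp only [lgl, Units.val_mul, ← map_mul, lmat_mul])

lemma lgl_one : lgl (0 : Ix k → ℝ) 0 0 0 = 1 := Units.ext (by simp only [lgl, lmat_one, map_one]; rfl)

lemma lgl_inv (v : Ix k → ℝ) (τ : ℝ) (b s : ZMod 2) :
    (lgl v τ b s)⁻¹ = lgl (-lact (-(sgz b * τ)) b s v) (-(sgz b * τ)) b s := Units.ext rfl

/-- The Lie group. -/
noncomputable def LL (k : ℕ) : Subgroup (GL (Fin (lN k)) ℝ) where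
  carrier := {g | ∃ v τ b s, g = lgl v τ b s}
  mul_mem' := by
    rintro _ _ ⟨v, τ, b, s, rfl⟩ ⟨v', τ', b', s', rfl⟩
    exact ⟨_, _, _, _, lgl_mul ..⟩
  one_mem' := ⟨_, _, _, _, lgl_one.symm⟩
  inv_mem' := by
    rintro _ ⟨v, τ, b, s, rfl⟩
    exact ⟨_, _, _, _, lgl_inv ..⟩

/-- The affine matrices as elements of the Lie group. -/
noncomputable def lel (v : Ix k → ℝ) (τ : ℝ) (b s : ZMod 2) : LL k := ⟨lgl v τ b s, _, _, _, _, rfl⟩

lemma lel_mul (v v' : Ix k → ℝ) (τ τ' : ℝ) (b b' s s' : ZMod 2) :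
    lel v τ b s * lel v' τ' b' s' =
      lel (v + lact τ b s v') (τ + sgz b * τ') (b + b') (s + s') := Subtype.ext (lgl_mul ..)

lemma lel_surj (g : LL k) : ∃ v τ b s, g = lel v τ b s := by
  obtain ⟨_, v, τ, b, s, rfl⟩ := g
  exact ⟨v, τ, b, s, rfl⟩

/-- The entries of an element of the Lie group. -/
noncomputable def lent (i j : Option (Ix k)) (g : LL k) : ℝ :=
  (lre k).symm (g : GL (Fin (lN k)) ℝ).val i j

lemma lent_lel (i j : Option (Ix k)) (v : Ix k → ℝ) (τ : ℝ) (b s : ZMod 2) :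
    lent i j (lel v τ b s) = lmat v τ b s i j := by
  simp only [lent, lel, lgl, AlgEquiv.symm_apply_apply]

lemma liea_cont_ent (i j : Option (Ix k)) :
    Continuous fun g : GL (Fin (lN k)) ℝ => (lre k).symm g.val i j :=
  Units.continuous_val.matrix_elem (Fintype.equivFin _ i) (Fintype.equivFin _ j)

lemma continuous_lent (i j : Option (Ix k)) : Continuous (lent i j) :=
  (liea_cont_ent i j).comp continuous_subtype_val

lemma liea_cont_mat {X : Type*} [TopologicalSpace X] {v : X → Ix k → ℝ} {τ : X → ℝ}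
    (hv : Continuous v) (hτ : Continuous τ) (b s : ZMod 2) :
    Continuous fun p => lre k (lmat (v p) (τ p) b s) := by
  refine continuous_matrix fun i j => ?_
  change Continuous fun p => lmat (v p) (τ p) b s ((Fintype.equivFin _).symm i)
    ((Fintype.equivFin _).symm j)
  generalize (Fintype.equivFin (Option (Ix k))).symm i = i'
  generalize (Fintype.equivFin (Option (Ix k))).symm j = j'
  rcases i' with _ | i' <;> rcases j' with _ | j' <;> simp only [lmat, Matrix.of_apply, lfac]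
  · fun_prop
  · fun_prop
  · fun_prop
  · split_ifs <;> fun_prop

lemma continuous_lel (b s : ZMod 2) :
    Continuous fun p : (Ix k → ℝ) × ℝ => lel p.1 p.2 b s := by
  refine Continuous.subtype_mk (Units.continuous_iff.2
    ⟨liea_cont_mat continuous_fst continuous_snd b s, ?_⟩) _
  refine liea_cont_mat (continuous_pi fun i => ?_) (by fun_prop) b s
  simp only [Pi.neg_apply, lact, lfac]
  fun_prop

lemma lel_inj {v v' : Ix k → ℝ} {τ τ' : ℝ} {b b' s s' : ZMod 2}
    (h : lel v τ b s = lel v' τ' b' s') : v = v' ∧ τ = τ' ∧ b = b' ∧ s = s' := by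
  have he : ∀ i j, lmat v τ b s i j = lmat v' τ' b' s' i j := fun i j => by
    rw [← lent_lel, h, lent_lel]
  have h1 := he (some ((none, 0), 0)) (some (lperm b s ((none, 0), 0)))
  simp only [lmat, Matrix.of_apply, if_true] at h1
  have h2 : lperm b s (((none, 0), 0) : Ix k) = lperm b' s' ((none, 0), 0) := by
    by_contra hne
    rw [if_neg hne] at h1
    exact liea_fac_ne _ _ _ h1
  rw [if_pos h2] at h1
  simp only [lperm, if_true, zero_add, Prod.mk.injEq, true_and] at h2
  obtain ⟨h3, rfl⟩ := h2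
  refine ⟨funext fun i => he (some i) none, ?_, rfl, add_left_cancel h3⟩
  simpa [lfac] using h1

/-- The affine matrices in terms of the two eigenvalues. -/
noncomputable def lieaMat (v : Ix k → ℝ) (x y : ℝ) (b s : ZMod 2) :
    Option (Ix k) → Option (Ix k) → ℝ
  | none, none => 1
  | none, some _ => 0
  | some i, none => v i
  | some i, some j => if j = lperm b s i then
      (if i.2 = 0 then x else y) * if i.1.1 = none then 1 else (sgz s : ℝ) else 0

lemma liea_mat_eq (v : Ix k → ℝ) (τ : ℝ) (b s : ZMod 2) (i j : Option (Ix k)) :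
    lmat v τ b s i j = lieaMat v (Real.exp τ) (Real.exp (-τ)) b s i j := by
  rcases i with _ | i <;> rcases j with _ | j
  · rfl
  · rfl
  · rfl
  · simp only [lmat, Matrix.of_apply, lieaMat, lfac]
    rcases z2_cases i.2 with h | h <;> simp [h]

theorem isClosed_LL : IsClosed (LL k : Set (GL (Fin (lN k)) ℝ)) := by
  let en : Option (Ix k) → Option (Ix k) → GL (Fin (lN k)) ℝ → ℝ :=
    fun i j g => (lre k).symm g.val i j
  have hen : ∀ i j, Continuous (en i j) := liea_cont_ent
  let al : ZMod 2 → ZMod 2 → ZMod 2 → GL (Fin (lN k)) ℝ → ℝ :=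
    fun ε b s => en (some ((none, 0), ε)) (some (lperm b s ((none, 0), ε)))
  have hal : ∀ ε b s, Continuous (al ε b s) := fun ε b s => hen _ _
  have hc : IsClosed (⋃ p : ZMod 2 × ZMod 2, {g | 0 ≤ al 0 p.1 p.2 g} ∩
      ({g | al 0 p.1 p.2 g * al 1 p.1 p.2 g = 1} ∩ ⋂ i, ⋂ j, {g | en i j g =
        lieaMat (fun i => en (some i) none g) (al 0 p.1 p.2 g) (al 1 p.1 p.2 g) p.1 p.2 i j})) := by
    refine isClosed_iUnion_of_finite fun p => (isClosed_le continuous_const (hal _ _ _)).inter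
      ((isClosed_eq ((hal _ _ _).mul (hal _ _ _)) continuous_const).inter
        (isClosed_iInter fun i => isClosed_iInter fun j => isClosed_eq (hen i j) ?_))
    have h0 := hal 0 p.1 p.2
    have h1 := hal 1 p.1 p.2
    rcases i with _ | i <;> rcases j with _ | j <;> simp only [lieaMat]
    · exact continuous_const
    · exact continuous_const
    · exact hen _ _
    · split_ifs <;> fun_prop
  convert hc using 1
  ext g
  simp only [Set.mem_iUnion, Set.mem_inter_iff, Set.mem_iInter, Set.mem_ofPred_eq]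
  constructor
  · rintro ⟨v, τ, b, s, rfl⟩
    have he : ∀ i j, en i j (lgl v τ b s) = lmat v τ b s i j := fun i j => by
      simp only [en, lgl, AlgEquiv.symm_apply_apply]
    have h0 : al 0 b s (lgl v τ b s) = Real.exp τ := by simp [al, he, lmat, lfac]
    have h1 : al 1 b s (lgl v τ b s) = Real.exp (-τ) := by simp [al, he, lmat, lfac]
    refine ⟨(b, s), ?_, ?_, fun i j => ?_⟩
    · rw [h0]; exact (Real.exp_pos _).le
    · rw [h0, h1, ← Real.exp_add, add_neg_cancel, Real.exp_zero]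
    · rw [h0, h1, he, liea_mat_eq]
      simp only [he]
      rfl
  · rintro ⟨⟨b, s⟩, h0, h1, h2⟩
    have hp : 0 < al 0 b s g := h0.lt_of_ne fun h => by
      rw [← h, zero_mul] at h1
      exact zero_ne_one h1
    refine ⟨fun i => en (some i) none g, Real.log (al 0 b s g), b, s, Units.ext ?_⟩
    change g.val = lre k _
    rw [← AlgEquiv.symm_apply_eq]
    ext i j
    rw [liea_mat_eq, Real.exp_neg, Real.exp_log hp, ← eq_inv_of_mul_eq_one_right h1]
    exact h2 i j

theorem finite_components : Finite (ConnectedComponents (LL k)) := by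
  refine Finite.of_surjective
    (fun p : ZMod 2 × ZMod 2 => ConnectedComponents.mk (lel (k := k) 0 0 p.1 p.2)) fun c => ?_
  obtain ⟨g, rfl⟩ := ConnectedComponents.surjective_coe c
  obtain ⟨v, τ, b, s, rfl⟩ := lel_surj g
  refine ⟨(b, s), ConnectedComponents.coe_eq_coe'.2 ?_⟩
  exact (isPreconnected_range (continuous_lel b s)).subset_connectedComponent
    ⟨(v, τ), rfl⟩ ⟨(0, 0), rfl⟩

/-- The two real embeddings of the digits. -/
noncomputable def jw (w : Wm n k) : Ix k → ℝ := fun i => emb (bar i.2 (w i.1.1 i.1.2))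

/-- The logarithm of the fundamental unit. -/
noncomputable def lt (n : ℕ) : ℝ := Real.log (emb (tt n 1))

lemma two_le_emb_tt : 2 ≤ emb (tt n 1) := by
  rw [tt_one, emb_apply]
  have h1 := Real.sqrt_nonneg (dd n : ℝ)
  have h2 : (0 : ℝ) ≤ n := Nat.cast_nonneg n
  push_cast
  linarith

lemma emb_tt (a : ℤ) : emb (tt n a) = Real.exp (a * lt n) := by
  have h1 : emb (tt n 1) = Real.exp (lt n) :=
    (Real.exp_log (lt_of_lt_of_le two_pos two_le_emb_tt)).symm
  induction a using Int.induction_on with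
  | zero => simp
  | succ a ih => rw [tt_add, map_mul, ih, h1, ← Real.exp_add]; push_cast; ring_nf
  | pred a ih =>
    have h2 : emb (tt n (-(a : ℤ) - 1)) * Real.exp (lt n) = Real.exp ((-(a : ℤ) : ℤ) * lt n) := by
      rw [← h1, ← map_mul, ← tt_add, sub_add_cancel, ih]
    rw [eq_div_of_mul_eq (Real.exp_pos _).ne' h2, ← Real.exp_sub]
    push_cast
    ring_nf

lemma jw_add (w w' : Wm n k) : jw (w + w') = jw w + jw w' := by
  funext i
  simp [jw]

lemma jw_act (g : Dh) (s : ZMod 2) (w : Wm n k) :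
    jw (iot s (aw g w)) = lact (g.a * lt n) g.b s (jw w) := by
  funext ⟨⟨o, σ⟩, ε⟩
  rcases o with _ | i
  · simp only [jw, lact, lfac, lperm, iot_none, kap_apply, aw_apply, act_apply, map_mul, bar_tt,
      bar_bar, emb_tt, if_true, mul_one, Int.cast_mul, mul_assoc, add_right_comm σ s]
  · simp only [jw, lact, lfac, lperm, iot_some, Pi.smul_apply, aw_apply, act_apply, map_mul, bar_tt,
      bar_bar, emb_tt, Int.cast_mul, mul_assoc, reduceCtorEq, if_false, add_zero,
      zsmul_eq_mul, map_intCast]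
    ring

/-- The representation. -/
noncomputable def phi (n k : ℕ) : El n k →* LL k :=
  MonoidHom.mk' (fun h => lel (jw h.w) (h.g.a * lt n) h.g.b h.s) fun h h' => by
    rw [lel_mul, mul_w, jw_add, jw_act, mul_g, mul_s, Dh.mul_a, Dh.mul_b]
    congr 1
    push_cast
    ring

lemma phi_apply (h : El n k) : phi n k h = lel (jw h.w) (h.g.a * lt n) h.g.b h.s := rfl

lemma liea_lt_pos : 0 < lt n := Real.log_pos (lt_of_lt_of_le one_lt_two two_le_emb_tt)

theorem phi_injective : Function.Injective (phi n k) := by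
  intro h h' e
  obtain ⟨h1, h2, h3, h4⟩ := lel_inj e
  refine El.ext ?_ (Dh.ext ?_ h3) h4
  · funext o σ
    have := congrFun h1 ((o, σ), 0)
    simp only [jw, bar_zero] at this
    exact emb_injective this
  · exact_mod_cast mul_right_cancel₀ liea_lt_pos.ne' h2

/-- The lattice. -/
noncomputable def Gam (n k : ℕ) : Subgroup (LL k) := (GG n k).map (phi n k)

end Pool.Agent.MP_646035_al.PC

namespace Pool.Agent.MP_646035_al.PC

open Finset PT

variable {n k : ℕ} {Q : Type} [AddCommGroup Q] [DecidableEq Q] {e : Fin 2 → Q}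

lemma lieb_small {f : OO n} (h0 : |emb f| < 1) (h1 : |emb (bar 1 f)| < 1) : f = 0 := by
  have e : emb f * emb (bar 1 f) = (f.norm : ℝ) := by
    rw [bar_one, ← map_mul, ← Zsqrtd.norm_eq_mul_conj, map_intCast]
  have h2 : |(f.norm : ℝ)| < 1 := by
    rw [← e, abs_mul]
    exact mul_lt_one_of_nonneg_of_lt_one_left (abs_nonneg _) h0 h1.le
  have h3 : f.norm = 0 := Int.abs_lt_one_iff.1 (by exact_mod_cast h2)
  rw [h3, Int.cast_zero, mul_eq_zero] at e
  rcases e with e | e
  · exact emb_injective (e.trans (map_zero _).symm)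
  · have := emb_injective (e.trans (map_zero _).symm)
    rw [bar_one] at this
    exact star_eq_zero.1 this

theorem discrete_Gam : DiscreteTopology (Gam n k) := by
  have hl : 0 < lt n := liea_lt_pos
  refine discreteTopology_of_isOpen_singleton_one ?_
  have hc : ∀ i j, Continuous fun g : Gam n k => lent i j (g : LL k) := fun i j =>
    (continuous_lent i j).comp continuous_subtype_val
  let i0 : Option (Ix k) := some ((none, 0), 0)
  have ho : IsOpen ({g : Gam n k | Real.exp (-lt n) < lent i0 i0 (g : LL k)} ∩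
      ({g : Gam n k | lent i0 i0 (g : LL k) < Real.exp (lt n)} ∩
        ⋂ i, {g : Gam n k | |lent (some i) none (g : LL k)| < 1})) :=
    (isOpen_lt continuous_const (hc _ _)).inter ((isOpen_lt (hc _ _) continuous_const).inter
      (isOpen_iInter_of_finite fun i => isOpen_lt (hc _ _).abs continuous_const))
  convert ho using 1
  ext g
  simp only [Set.mem_inter_iff, Set.mem_iInter, Set.mem_ofPred_eq, Set.mem_singleton_iff]
  constructor
  · rintro rfl
    have e : ((1 : Gam n k) : LL k) = lel 0 0 0 0 := Subtype.ext lgl_one.symm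
    have e1 : lent i0 i0 (lel (k := k) 0 0 0 0) = Real.exp 0 := by
      simp [lent_lel, lmat_one]
    rw [e, e1]
    refine ⟨Real.exp_lt_exp.2 (by linarith), Real.exp_lt_exp.2 hl, fun i => ?_⟩
    simp [lent_lel, lmat]
  · obtain ⟨_, γ, hγ, rfl⟩ := g
    rintro ⟨h1, h2, h3⟩
    simp only [phi_apply, lent_lel, lmat, i0, Matrix.of_apply] at h1 h2 h3
    have h4 : (((none, 0), 0) : Ix k) = lperm γ.g.b γ.s ((none, 0), 0) := by
      by_contra hne
      rw [if_neg hne] at h1
      exact absurd h1 (Real.exp_pos _).not_gt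
    rw [if_pos h4] at h1 h2
    simp only [lfac, sgz_zero, Int.cast_one, one_mul, if_true, mul_one, Real.exp_lt_exp] at h1 h2
    simp only [lperm, if_true, zero_add, Prod.mk.injEq, true_and] at h4
    have k1 : (-1 : ℝ) < γ.g.a := by nlinarith
    have k2 : (γ.g.a : ℝ) < 1 := by nlinarith
    have ha : γ.g.a = 0 := by
      have : (-1 : ℤ) < γ.g.a := by exact_mod_cast k1
      have : γ.g.a < 1 := by exact_mod_cast k2
      omega
    have hs : γ.s = 0 := by
      have := h4.1
      rw [← h4.2, zero_add] at this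
      exact this.symm
    have hw : γ.w = 0 := by
      funext o σ
      refine lieb_small ?_ (h3 ((o, σ), 1))
      simpa only [jw, bar_zero] using h3 ((o, σ), 0)
    have : γ = 1 := El.ext hw (Dh.ext ha h4.2.symm) hs
    subst this
    exact Subtype.ext (map_one (phi n k))

lemma lieb_round (m : ℤ) (hm : 0 < m) (x y : ℝ) : ∃ f : OO n,
    |x - emb (m • f)| ≤ m * (1 + √(dd n : ℝ)) ∧
      |y - emb (bar 1 (m • f))| ≤ m * (1 + √(dd n : ℝ)) := by
  have hm' : (0 : ℝ) < m := by exact_mod_cast hm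
  have hd : 0 < √(dd n : ℝ) := Real.sqrt_pos.2 (by unfold dd; positivity)
  generalize hD : √(dd n : ℝ) = D at hd
  obtain ⟨α, hα⟩ : ∃ α : ℝ, α = (x + y) / (2 * m) := ⟨_, rfl⟩
  obtain ⟨β, hβ⟩ : ∃ β : ℝ, β = (x - y) / (2 * m * D) := ⟨_, rfl⟩
  have ex : x = m * (α + β * D) := by rw [hα, hβ]; field_simp; ring
  have ey : y = m * (α - β * D) := by rw [hα, hβ]; field_simp; ring
  have a0 := Int.fract_nonneg α
  have a1 := (Int.fract_lt_one α).le
  have b0 := mul_nonneg (Int.fract_nonneg β) hd.le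
  have b1 := mul_le_mul_of_nonneg_right (Int.fract_lt_one β).le hd.le
  refine ⟨⟨⌊α⌋, ⌊β⌋⟩, ?_, ?_⟩
  · have e : x - emb (m • (⟨⌊α⌋, ⌊β⌋⟩ : OO n)) = m * (Int.fract α + Int.fract β * D) := by
      rw [map_zsmul, emb_apply, hD, zsmul_eq_mul, ex, Int.fract, Int.fract]
      ring
    rw [e, abs_mul, abs_of_pos hm']
    exact mul_le_mul_of_nonneg_left (abs_le.2 ⟨by linarith, by linarith⟩) hm'.le
  · have e : y - emb (bar 1 (m • (⟨⌊α⌋, ⌊β⌋⟩ : OO n))) =
        m * (Int.fract α - Int.fract β * D) := by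
      rw [map_zsmul, map_zsmul, bar_one, emb_apply, hD, zsmul_eq_mul, ey, Int.fract, Int.fract,
        Zsqrtd.re_star, Zsqrtd.im_star]
      push_cast
      ring
    rw [e, abs_mul, abs_of_pos hm']
    exact mul_le_mul_of_nonneg_left (abs_le.2 ⟨by linarith, by linarith⟩) hm'.le

lemma lieb_cover (m : ℤ) (hm : 0 < m) (u : Ix k → ℝ) : ∃ w : Wm n k,
    u - jw (m • w) ∈ Set.Icc (fun _ => -(m * (1 + √(dd n : ℝ)))) fun _ => m * (1 + √(dd n : ℝ)) := by
  choose w hw using fun o σ => lieb_round (n := n) m hm (u ((o, σ), 0)) (u ((o, σ), 1))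
  have key : ∀ i, |(u - jw (m • w)) i| ≤ m * (1 + √(dd n : ℝ)) := by
    rintro ⟨⟨o, σ⟩, ε⟩
    rcases z2_cases ε with rfl | rfl
    · simpa only [Pi.sub_apply, jw, bar_zero, Pi.smul_apply] using (hw o σ).1
    · exact (hw o σ).2
  exact ⟨w, fun i => (abs_le.1 (key i)).1, fun i => (abs_le.1 (key i)).2⟩

theorem compact_quot : CompactSpace (LL k ⧸ Gam n k) := by
  have hl : 0 < lt n := liea_lt_pos
  obtain ⟨m, hm⟩ : ∃ m : ℤ, m = 2 * (2 * n + 1) := ⟨_, rfl⟩
  have hm0 : 0 < m := by rw [hm]; positivity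
  obtain ⟨C, hC⟩ : ∃ C : ℝ, C = m * (1 + √(dd n : ℝ)) := ⟨_, rfl⟩
  let f : ZMod 2 × ZMod 2 → (Ix k → ℝ) × ℝ → LL k := fun q p =>
    lel 0 p.2 q.1 q.2 * lel p.1 0 0 0
  have hf : ∀ q, Continuous (f q) := fun q =>
    ((continuous_lel q.1 q.2).comp (continuous_const.prodMk continuous_snd)).mul
      ((continuous_lel 0 0).comp (continuous_fst.prodMk continuous_const))
  have hK : IsCompact (Set.Icc (fun _ : Ix k => -C) (fun _ => C) ×ˢ Set.Icc (0 : ℝ) (lt n)) :=
    isCompact_Icc.prod isCompact_Icc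
  have hI := isCompact_iUnion fun q => hK.image
    ((QuotientGroup.continuous_mk (N := Gam n k)).comp (hf q))
  refine ⟨?_⟩
  convert hI using 1
  symm
  rw [Set.eq_univ_iff_forall]
  intro q
  obtain ⟨g, rfl⟩ := QuotientGroup.mk_surjective q
  obtain ⟨v, τ, b, s, rfl⟩ := lel_surj g
  obtain ⟨a, ha⟩ : ∃ a : ℤ, a = ⌊τ / lt n⌋ := ⟨_, rfl⟩
  obtain ⟨t, ht⟩ : ∃ t : ℝ, t = τ - a * lt n := ⟨_, rfl⟩
  have ht0 : 0 ≤ t := by
    have := Int.floor_le (τ / lt n)
    rw [le_div_iff₀ hl, ← ha] at this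
    linarith
  have ht1 : t ≤ lt n := by
    have := Int.lt_floor_add_one (τ / lt n)
    rw [div_lt_iff₀ hl, ← ha] at this
    linarith
  obtain ⟨w, hw⟩ := lieb_cover (n := n) m hm0 (lact (-(sgz b * t)) b s v)
  have hγ : phi n k (mm (m • w) * mv ⟨sgz b * a, 0⟩) ∈ Gam n k :=
    ⟨_, mul_mem (hm ▸ two_q_mem w) (mv_mem _), rfl⟩
  refine Set.mem_iUnion.2 ⟨(b, s), (lact (-(sgz b * t)) b s v - jw (m • w), t),
    ⟨hC ▸ hw, ht0, ht1⟩, ?_⟩
  have e2 : lel v τ b s = f (b, s) (lact (-(sgz b * t)) b s v - jw (m • w), t) *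
      phi n k (mm (m • w) * mv ⟨sgz b * a, 0⟩) := by
    have e3 : t + sgz b * -(sgz b * t) = 0 := by linear_combination (-t) * liea_sq b
    rw [mm_mul, phi_apply, mul_assoc, lel_mul, lact_zero, lel_mul]
    simp only [mv, add_zero, zero_add, sub_add_cancel, lact_lact, e3, z2_add_self, lact_zero,
      sgz_zero, Int.cast_one, one_mul, Int.cast_mul]
    congr 1
    linear_combination -ht - a * lt n * liea_sq b
  rw [e2, QuotientGroup.mk_mul_of_mem _ hγ]
  rfl

end Pool.Agent.MP_646035_al.PC
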