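import Pool.Agent.MP_646035_al.PC.W

namespace Pool.Agent.MP_646035_al.PC

open Finset PT

variable {n k : ℕ} {Q : Type} [AddCommGroup Q] [DecidableEq Q] {e : Fin 2 → Q}

/-- The real value of the fundamental unit. -/
noncomputable def ringl_T (n : ℕ) : ℝ := emb (tt n 1)

lemma ringl_T_gt (n : ℕ) : 4 * (n : ℝ) + 3 < ringl_T n := by
  have h : (2 * n + 1 : ℝ) < √(dd n : ℝ) := by
    apply Real.lt_sqrt_of_sq_lt
    have : (dd n : ℝ) = 4 * (n : ℝ) ^ 2 + 8 * n + 3 := by exact_mod_cast dd_cast n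
    have h0 : (0 : ℝ) ≤ n := Nat.cast_nonneg n
    rw [this]
    nlinarith
  rw [ringl_T, tt_one, emb_apply]
  push_cast
  linarith

lemma ringl_T_one (n : ℕ) : 1 < ringl_T n := by
  have := ringl_T_gt n
  have h0 : (0 : ℝ) ≤ n := Nat.cast_nonneg n
  linarith

lemma ringl_emb_tt (a : ℤ) : emb (tt n a) = ringl_T n ^ a := by
  have h : ∀ b : ℤ, emb (tt n b) =
      ((Units.map (emb (n := n)).toMonoidHom (tu n) ^ b : ℝˣ) : ℝ) := fun b => by
    rw [← map_zpow]; rfl
  rw [ringl_T, h, h, zpow_one, Units.val_zpow_eq_zpow_val]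

lemma ringl_ev (p : LP) : emb (ev n p) = p.coeff.sum fun a z => (z : ℝ) * ringl_T n ^ a := by
  induction p using LaurentPolynomial.induction_on' with
  | add p q hp hq =>
    rw [map_add, map_add, hp, hq, AddMonoidAlgebra.coeff_add,
      Finsupp.sum_add_index' (by simp) (by intros; push_cast; ring)]
  | C_mul_T a z =>
    rw [map_mul, map_mul, ev_C, ev_T, ringl_emb_tt, ← LaurentPolynomial.single_eq_C_mul_T,
      AddMonoidAlgebra.coeff_single, Finsupp.sum_single_index (by simp), map_intCast]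

lemma ringl_geom {T B : ℝ} (hT : 1 < T) (f : ℤ → ℝ) (hf : ∀ a, |f a| ≤ B) (d : ℤ) (m : ℕ) :
    |∑ a ∈ Ico (d - m) d, f a * T ^ a| * (T - 1) ≤ B * (T ^ d - T ^ (d - m)) := by
  have hT0 : 0 < T := by linarith
  induction m with
  | zero => simp
  | succ m ih =>
    have e : d - ((m + 1 : ℕ) : ℤ) + 1 = d - m := by push_cast; ring
    rw [← insert_Ico_add_one_left_eq_Ico (by push_cast; omega), sum_insert (by simp), e]
    have h1 : T ^ (d - m) = T ^ (d - ((m + 1 : ℕ) : ℤ)) * T := by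
      rw [← e, zpow_add_one₀ hT0.ne']
    have h2 := zpow_pos hT0 (d - ((m + 1 : ℕ) : ℤ))
    generalize T ^ (d - ((m + 1 : ℕ) : ℤ)) = u at *
    have h3 : |f (d - ((m + 1 : ℕ) : ℤ)) * u| ≤ B * u := by
      rw [abs_mul, abs_of_pos h2]; exact mul_le_mul_of_nonneg_right (hf _) h2.le
    have h4 := mul_le_mul_of_nonneg_right ((abs_add_le _ (∑ a ∈ Ico (d - m) d, f a * T ^ a)).trans
      (add_le_add_left h3 _)) (sub_pos.2 hT).le
    rw [h1] at ih
    nlinarith

lemma ringl_core {p : LP} {B : ℕ} (hp : Bd p B) {d : ℤ} (hd : ∀ a, d < a → p.coeff a = 0) :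
    |emb (ev n p) - p.coeff d * ringl_T n ^ d| * (ringl_T n - 1) ≤ B * ringl_T n ^ d := by
  obtain ⟨l, hl⟩ := p.coeff.support.bddBelow
  have hs : p.coeff.support ⊆ insert d (Ico (d - ((d - l).toNat : ℕ)) d) := fun a ha => by
    have h1 : l ≤ a := hl ha
    have h2 : a ≤ d := not_lt.1 fun h => Finsupp.mem_support_iff.1 ha (hd a h)
    simp only [mem_insert, mem_Ico]
    omega
  rw [ringl_ev, Finsupp.sum_of_support_subset _ hs _ (by simp), sum_insert (by simp),
    add_sub_cancel_left]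
  refine (ringl_geom (ringl_T_one n) (fun a => (p.coeff a : ℝ)) (B := B)
    (fun a => by exact_mod_cast hp a) d _).trans ?_
  have := zpow_pos (zero_lt_one.trans (ringl_T_one n)) (d - ((d - l).toNat : ℕ))
  have h0 : (0 : ℝ) ≤ B := Nat.cast_nonneg B
  nlinarith

lemma ringl_top {p : LP} (hp : p ≠ 0) : ∃ d, IsTop p d := by
  have hne : p.coeff.support.Nonempty :=
    Finsupp.support_nonempty_iff.2 fun h => hp (AddMonoidAlgebra.coeff_eq_zero.1 h)
  refine ⟨p.coeff.support.max' hne, Finsupp.mem_support_iff.1 (max'_mem _ _), fun a ha => ?_⟩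
  by_contra h
  exact absurd (le_max' _ a (Finsupp.mem_support_iff.2 h)) (not_le.2 ha)

lemma ringl_one_le {p : LP} {d : ℤ} (h : IsTop p d) : (1 : ℝ) ≤ |(p.coeff d : ℝ)| := by
  exact_mod_cast Int.one_le_abs h.1

theorem ev_inj {p : LP} {B : ℕ} (hp : Bd p B) (hB : B ≤ 4 * n + 2) (h : ev n p = 0) :
    p = 0 := by
  by_contra hne
  obtain ⟨d, hd⟩ := ringl_top hne
  have h1 := ringl_core (n := n) hp hd.2
  have h2 := zpow_pos (zero_lt_one.trans (ringl_T_one n)) d
  rw [h, map_zero, zero_sub, abs_neg, abs_mul, abs_of_pos h2] at h1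
  have h3 := ringl_one_le hd
  have h4 := ringl_T_gt n
  have h5 : (B : ℝ) ≤ 4 * n + 2 := by exact_mod_cast hB
  have h6 := mul_le_mul_of_nonneg_right h3 (mul_pos h2 (sub_pos.2 (ringl_T_one n))).le
  nlinarith

lemma exists_isTop {p : LP} (hp : p ≠ 0) : ∃ d, IsTop p d := ringl_top hp

lemma IsTop.unique {p : LP} {d d' : ℤ} (h : IsTop p d) (h' : IsTop p d') : d = d' := by
  rcases lt_trichotomy d d' with c | c | c
  exacts [absurd (h.2 _ c) h'.1, c, absurd (h'.2 _ c) h.1]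

lemma Bd.sub {p p' : LP} {B B' : ℕ} (h : Bd p B) (h' : Bd p' B') : Bd (p - p') (B + B') :=
  fun a => by
    have h1 := h a
    have h2 := h' a
    rw [AddMonoidAlgebra.coeff_sub, Finsupp.sub_apply]
    push_cast
    exact (abs_sub _ _).trans (add_le_add h1 h2)

lemma Bd.mono {p : LP} {B B' : ℕ} (h : Bd p B) (hB : B ≤ B') : Bd p B' :=
  fun a => (h a).trans (by exact_mod_cast hB)

lemma ringl_near (hn : 25 ≤ n) {p : LP} (hp : Bd p 4) {d : ℤ} (hd : IsTop p d) :
    |emb (ev n p) - p.coeff d * ringl_T n ^ d| ≤ ringl_T n ^ d / 10 := by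
  have h1 := ringl_core (n := n) hp hd.2
  have h2 := zpow_pos (zero_lt_one.trans (ringl_T_one n)) d
  have h4 := ringl_T_gt n
  have h5 : (25 : ℝ) ≤ n := by exact_mod_cast hn
  have h6 := abs_nonneg (emb (ev n p) - p.coeff d * ringl_T n ^ d)
  push_cast at h1
  nlinarith

lemma ringl_size (hn : 25 ≤ n) {p : LP} (hp : Bd p 4) {d : ℤ} (hd : IsTop p d) :
    9 / 10 * ringl_T n ^ d ≤ |emb (ev n p)| ∧ |emb (ev n p)| ≤ 5 * ringl_T n ^ d := by
  have h1 := ringl_near hn hp hd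
  have h2 := zpow_pos (zero_lt_one.trans (ringl_T_one n)) d
  have h3 := ringl_one_le hd
  have h4 : |(p.coeff d : ℝ)| ≤ 4 := by exact_mod_cast hp d
  have h5 := abs_abs_sub_abs_le_abs_sub (emb (ev n p)) (p.coeff d * ringl_T n ^ d)
  rw [abs_mul, abs_of_pos h2] at h5
  obtain ⟨h6, h7⟩ := abs_le.1 (h5.trans h1)
  constructor <;> nlinarith

lemma ringl_sign (hn : 25 ≤ n) {p : LP} (hp : Bd p 4) {d : ℤ} (hd : IsTop p d) :
    0 < emb (ev n p) * p.coeff d := by
  obtain ⟨h6, h7⟩ := abs_le.1 (ringl_near hn hp hd)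
  have h2 := zpow_pos (zero_lt_one.trans (ringl_T_one n)) d
  rcases le_abs'.1 (ringl_one_le hd) with h | h
  · exact mul_pos_of_neg_of_neg (by nlinarith) (by linarith)
  · exact mul_pos (by nlinarith) (by linarith)

lemma ringl_cmp (hn : 25 ≤ n) {p q p' q' : LP} (hp : Bd p 4) (hq : Bd q 4) (hp' : Bd p' 4)
    (hq' : Bd q' 4) {a b a' b' : ℤ} (ha : IsTop p a) (hb : IsTop q b) (ha' : IsTop p' a')
    (hb' : IsTop q' b') (h : ev n p * ev n q = ev n p' * ev n q') : a + b ≤ a' + b' := by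
  by_contra hc
  have hT := zero_lt_one.trans (ringl_T_one n)
  have h1 := mul_le_mul (ringl_size hn hp ha).1 (ringl_size hn hq hb).1 (by positivity)
    (abs_nonneg _)
  have h2 := mul_le_mul (ringl_size hn hp' ha').2 (ringl_size hn hq' hb').2 (abs_nonneg _)
    (by positivity)
  rw [← abs_mul, ← map_mul] at h1 h2
  rw [h] at h1
  have h3 : ringl_T n ^ (a' + b' + 1) ≤ ringl_T n ^ (a + b) :=
    zpow_le_zpow_right₀ (ringl_T_one n).le (by omega)
  rw [zpow_add_one₀ hT.ne', zpow_add₀ hT.ne', zpow_add₀ hT.ne'] at h3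
  have h4 := ringl_T_gt n
  have h5 : (25 : ℝ) ≤ n := by exact_mod_cast hn
  have h6 := mul_pos (zpow_pos hT a') (zpow_pos hT b')
  nlinarith

lemma ringl_ne (hn : 25 ≤ n) {α β : OO n} (hβ : β ≠ 0) {p p' : LP} (hp' : Bd p' 4)
    (h : ev n p * α = ev n p' * β) {d : ℤ} (hd : IsTop p' d) : p ≠ 0 := by
  rintro rfl
  rw [map_zero, zero_mul] at h
  have := ev_inj hp' (by omega) ((mul_eq_zero.1 h.symm).resolve_right hβ)
  exact hd.1 (by rw [this]; rfl)

theorem tops (hn : 25 ≤ n) {α β : OO n} (hα : α ≠ 0) (hβ : β ≠ 0) :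
    ∃ Δ : ℤ, ∀ p p' : LP, Bd p 4 → Bd p' 4 → ev n p * α = ev n p' * β →
      ∀ d, IsTop p' d → IsTop p (d + Δ) := by
  by_cases hex : ∃ p p' : LP, Bd p 4 ∧ Bd p' 4 ∧ ev n p * α = ev n p' * β ∧ ∃ d, IsTop p' d
  · obtain ⟨q, q', hq, hq', e0, d', hd'⟩ := hex
    obtain ⟨d0, hd0⟩ := exists_isTop (ringl_ne hn hβ hq' e0 hd')
    refine ⟨d0 - d', fun p p' hp hp' e1 d hd => ?_⟩
    obtain ⟨D, hD⟩ := exists_isTop (ringl_ne hn hβ hp' e1 hd)
    have e2 : ev n p * ev n q' = ev n q * ev n p' :=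
      mul_right_cancel₀ (mul_ne_zero hα hβ) (by
        linear_combination (ev n q' * β) * e1 - (ev n p' * β) * e0)
    have l1 := ringl_cmp hn hp hq' hq hp' hD hd' hd0 hd e2
    have l2 := ringl_cmp hn hq hp' hp hq' hd0 hd hD hd' e2.symm
    rwa [show d + (d0 - d') = D by omega]
  · exact ⟨0, fun p p' hp hp' e1 d hd => absurd ⟨p, p', hp, hp', e1, d, hd⟩ hex⟩

theorem two_three (hn : 25 ≤ n) {α β : OO n} (hα : α ≠ 0) (hβ : β ≠ 0) :
    ∃ Δ ε : ℤ, 0 < ε ∧ ∀ p p' : LP, Bd p 2 → Bd p' 2 → ev n p * α = ev n p' * β →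
      ∀ d, IsTop p' d → IsTop p (d + Δ) ∧
        ((β = tt n Δ * α ∨ β = -(tt n Δ * α)) ∨ |p.coeff (d + Δ)| = 2 ∨ |p'.coeff d| = 2 ∨
          p.coeff (d + Δ - ε) ≠ 0 ∨ p'.coeff (d - ε) ≠ 0) := by
  obtain ⟨Δ, hΔ⟩ := tops hn hα hβ
  have b4 : ∀ {p : LP}, Bd p 2 → Bd p 4 := fun h => h.mono (by norm_num)
  by_cases hm : β = tt n Δ * α ∨ β = -(tt n Δ * α)
  · exact ⟨Δ, 1, one_pos, fun p p' hp hp' e d hd => ⟨hΔ p p' (b4 hp) (b4 hp') e d hd, Or.inl hm⟩⟩
  obtain ⟨η, hη, hη'⟩ : ∃ η : ℤ, (η = 1 ∨ η = -1) ∧ 0 < η * (emb α * emb β) := by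
    have h0 : emb α * emb β ≠ 0 := mul_ne_zero
      ((map_ne_zero_iff _ emb_injective).2 hα) ((map_ne_zero_iff _ emb_injective).2 hβ)
    rcases lt_or_gt_of_ne h0 with h | h
    · exact ⟨-1, Or.inr rfl, by push_cast; linarith⟩
    · exact ⟨1, Or.inl rfl, by push_cast; linarith⟩
  have hγ : β - η • (tt n Δ * α) ≠ 0 := fun h => hm (by
    rw [sub_eq_zero] at h
    rcases hη with rfl | rfl
    · exact Or.inl (by simpa using h)
    · exact Or.inr (by simpa using h))
  obtain ⟨Δ', hΔ'⟩ := tops hn hα hγ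
  refine ⟨Δ, max 1 (Δ - Δ'), lt_of_lt_of_le one_pos (le_max_left _ _),
    fun p p' hp hp' e d hd => ?_⟩
  have hD := hΔ p p' (b4 hp) (b4 hp') e d hd
  refine ⟨hD, Or.inr ?_⟩
  by_contra hc
  simp only [not_or, not_not] at hc
  obtain ⟨c1, c2, c3, c4⟩ := hc
  have s1 := ringl_sign hn (b4 hp) hD
  have s2 := ringl_sign hn (b4 hp') hd
  have e' : emb (ev n p) * emb α = emb (ev n p') * emb β := by rw [← map_mul, e, map_mul]
  have s3 : (0 : ℝ) < η * (p.coeff (d + Δ) * p'.coeff d) := by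
    have k1 : emb α ≠ 0 := (map_ne_zero_iff _ emb_injective).2 hα
    have k2 : emb (ev n p) ≠ 0 := fun h => by rw [h, zero_mul] at s1; exact lt_irrefl _ s1
    have k3 : 0 < (emb (ev n p) * emb α) ^ 2 := by positivity
    have k4 := mul_pos (mul_pos s1 s2) hη'
    have k5 : emb (ev n p) * p.coeff (d + Δ) * (emb (ev n p') * p'.coeff d) *
        (η * (emb α * emb β)) = (emb (ev n p) * emb α) ^ 2 *
          (η * (p.coeff (d + Δ) * p'.coeff d)) := by
      linear_combination -(emb (ev n p) * emb α * (η * (p.coeff (d + Δ) * p'.coeff d))) * e'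
    rw [k5] at k4
    exact (mul_pos_iff_of_pos_left k3).1 k4
  have s4 : 0 < η * (p.coeff (d + Δ) * p'.coeff d) := by exact_mod_cast s3
  have s5 : p.coeff (d + Δ) = η * p'.coeff d := by
    have k1 := hp (d + Δ)
    have k2 := hp' d
    have k3 := Int.one_le_abs hD.1
    have k4 := Int.one_le_abs hd.1
    have k5 : p.coeff (d + Δ) = 1 ∨ p.coeff (d + Δ) = -1 := (abs_eq zero_le_one).1 (by omega)
    have k6 : p'.coeff d = 1 ∨ p'.coeff d = -1 := (abs_eq zero_le_one).1 (by omega)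
    rcases hη with rfl | rfl <;> rcases k5 with k | k <;> rcases k6 with k' | k' <;>
      rw [k, k'] at s4 ⊢ <;> omega
  have hr : ∀ a, (p - η • (LaurentPolynomial.T Δ * p')).coeff a =
      p.coeff a - η * p'.coeff (a - Δ) := fun a => by
    rw [AddMonoidAlgebra.coeff_sub, Finsupp.sub_apply, AddMonoidAlgebra.coeff_smul,
      Finsupp.smul_apply, coeff_T_mul, smul_eq_mul]
  have hb : Bd (η • (LaurentPolynomial.T Δ * p')) 2 := fun a => by
    rw [AddMonoidAlgebra.coeff_smul, Finsupp.smul_apply, coeff_T_mul, smul_eq_mul, abs_mul]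
    have := hp' (a - Δ)
    rcases hη with rfl | rfl <;> simpa using this
  have ht := (hΔ' _ p' (hp.sub hb) (b4 hp') (by
    rw [map_sub, map_zsmul, map_mul, ev_T, zsmul_eq_mul, zsmul_eq_mul]
    linear_combination e) d hd).1
  rw [hr] at ht
  apply ht
  rcases lt_trichotomy Δ' Δ with c | c | c
  · rw [max_eq_right (by omega)] at c3 c4
    rw [show d + Δ' = d + Δ - (Δ - Δ') by ring, c3, show d + Δ - (Δ - Δ') - Δ = d - (Δ - Δ') by ring,
      c4, mul_zero, sub_zero]
  · rw [c, add_sub_cancel_right, s5, sub_self]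
  · rw [hD.2 _ (by omega), hd.2 _ (by omega), mul_zero, sub_zero]

lemma ringl_shift (κ : ℤ → ℤ) (S : Finset ℤ) (s : ℤ) (h : ∀ j, κ j ≠ 0 → j + s ∈ S ∧ j ∈ S) :
    ∑ j ∈ S, κ (j - s) • tt n j = ∑ j ∈ S, κ j • tt n (j + s) := by
  have h1 : ∑ j ∈ S.map (Equiv.addRight s).toEmbedding, κ (j - s) • tt n j =
      ∑ j ∈ S, κ j • tt n (j + s) := by
    rw [sum_map]; simp
  have h2 : ∀ j, κ (j - s) • tt n j ≠ 0 → κ (j - s) ≠ 0 := fun j hj h0 => hj (by rw [h0, zero_smul])
  rw [← h1, ← finsum_eq_sum_of_support_subset, ← finsum_eq_sum_of_support_subset]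
  · intro j hj
    exact mem_coe.2 (mem_map.2 ⟨j - s, (h _ (h2 j hj)).2, by simp⟩)
  · intro j hj
    simpa using (h _ (h2 j hj)).1

lemma ringl_carry (κ : ℤ → ℤ) (S : Finset ℤ)
    (h : ∀ j, κ j ≠ 0 → j - 1 ∈ S ∧ j ∈ S ∧ j + 1 ∈ S) :
    ∑ j ∈ S, ((NN n : ℤ) * κ j - κ (j - 1) - κ (j + 1)) • tt n j = 0 := by
  have h1 := ringl_shift (n := n) κ S 1 fun j hj => ⟨(h j hj).2.2, (h j hj).2.1⟩
  have h2 := ringl_shift (n := n) κ S (-1) fun j hj => ⟨(h j hj).1, (h j hj).2.1⟩
  simp only [sub_neg_eq_add] at h2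
  simp only [sub_smul, sum_sub_distrib]
  rw [h1, h2, ← sum_sub_distrib, ← sum_sub_distrib]
  refine sum_eq_zero fun j _ => ?_
  simp only [tt_add, zsmul_eq_mul]
  push_cast
  rw [← tt_trace]
  ring

lemma ringl_small (y : ℤ → ℤ) (a b : ℤ) (hb : b ≤ a + 1) (h : ∀ j, y j ≠ 0 → a ≤ j ∧ j ≤ b)
    (h0 : ∑ j ∈ Icc a b, y j • tt n j = 0) (j : ℤ) : y j = 0 := by
  have h1 : ∑ j ∈ ({a, a + 1} : Finset ℤ), y j • tt n j = 0 := by
    rw [← h0]
    refine (sum_subset (fun j hj => ?_) fun j _ hj => ?_).symm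
    · simp only [mem_Icc, mem_insert, mem_singleton] at hj ⊢
      omega
    · rw [by_contra fun c => hj (mem_Icc.2 (h j c)), zero_smul]
  rw [sum_pair (by omega), tt_add, ← mul_smul_comm, zsmul_eq_mul, mul_comm _ (tt n a),
    ← mul_add] at h1
  have h2 := (mul_eq_zero.1 h1).resolve_left (tt_ne_zero a)
  have h3 : y (a + 1) = 0 := by simpa [tt_one] using congrArg Zsqrtd.im h2
  have h4 : y a = 0 := by simpa [h3] using h2
  by_contra c
  have := h j c
  rcases (by omega : j = a ∨ j = a + 1) with rfl | rfl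
  exacts [c h4, c h3]

theorem exists_carry (y : ℤ → ℤ) (a b : ℤ) (h : ∀ j, y j ≠ 0 → a ≤ j ∧ j ≤ b)
    (h0 : ∑ j ∈ Icc a b, y j • tt n j = 0) :
    ∃ κ : ℤ → ℤ, (∀ j, κ j ≠ 0 → a + 1 ≤ j ∧ j ≤ b - 1) ∧
      ∀ j, y j = (NN n : ℤ) * κ j - κ (j - 1) - κ (j + 1) := by
  obtain ⟨m, hm⟩ : ∃ m : ℕ, b ≤ a + 1 + m := ⟨(b - a).toNat, by omega⟩
  induction m generalizing y b with
  | zero =>
    exact ⟨0, fun j hj => absurd rfl hj, fun j => by
      rw [ringl_small y a b (by simpa using hm) h h0 j]; simp⟩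
  | succ m ih =>
    by_cases hb : b ≤ a + 1 + m
    · exact ih y b h h0 hb
    obtain ⟨κ0, hκ0⟩ : ∃ κ0 : ℤ → ℤ, κ0 = fun j => if j = b - 1 then -y b else 0 := ⟨_, rfl⟩
    have k0 : ∀ j, κ0 j ≠ 0 → j = b - 1 := fun j hj => by
      by_contra c
      exact hj (by rw [hκ0]; exact if_neg c)
    have k1 : ∀ j, j ≠ b - 1 → κ0 j = 0 := fun j hj => by_contra fun c => hj (k0 j c)
    have k2 : y b - ((NN n : ℤ) * κ0 b - κ0 (b - 1) - κ0 (b + 1)) = 0 := by
      rw [k1 b (by omega), k1 (b + 1) (by omega), hκ0]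
      simp
    obtain ⟨κ, h1, h2⟩ := ih (fun j => y j - ((NN n : ℤ) * κ0 j - κ0 (j - 1) - κ0 (j + 1))) (b - 1)
      (fun j hj => by
        by_contra c
        apply hj
        by_cases e : j = b
        · rw [e]; exact k2
        · have e1 : y j = 0 := by_contra fun c' => c (by have := h j c'; omega)
          rw [e1, k1 j (by omega), k1 (j - 1) (by omega), k1 (j + 1) (by omega)]
          simp)
      (by
        have e : Icc a b = insert b (Icc a (b - 1)) := by
          ext j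
          simp only [mem_Icc, mem_insert]
          omega
        have := ringl_carry (n := n) κ0 (Icc a b) fun j hj => by
          rw [k0 j hj]
          simp only [mem_Icc]
          omega
        have h3 : ∑ j ∈ Icc a b, (y j - ((NN n : ℤ) * κ0 j - κ0 (j - 1) - κ0 (j + 1))) • tt n j
            = 0 := by
          rw [← sub_eq_zero.2 (h0.trans this.symm), ← sum_sub_distrib]
          exact sum_congr rfl fun j _ => sub_smul _ _ _
        rwa [e, sum_insert (by simp), k2, zero_smul, zero_add] at h3)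
      (by push_cast at hm; omega)
    refine ⟨fun j => κ j + κ0 j, fun j hj => ?_, fun j => ?_⟩
    · by_cases e : κ j = 0
      · have := k0 j (by simpa [e] using hj)
        omega
      · have := h1 j e
        omega
    · have := h2 j
      simp only at this ⊢
      linarith

theorem sum_carry (κ : ℤ → ℤ) (S : Finset ℤ)
    (h : ∀ j, κ j ≠ 0 → j - 1 ∈ S ∧ j ∈ S ∧ j + 1 ∈ S) :
    ∑ j ∈ S, ((NN n : ℤ) * κ j - κ (j - 1) - κ (j + 1)) • tt n j = 0 :=
  ringl_carry κ S h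

end Pool.Agent.MP_646035_al.PC

namespace Pool.Agent.MP_646035_al.PC

open Finset PT

variable {n k : ℕ} {Q : Type} [AddCommGroup Q] [DecidableEq Q] {e : Fin 2 → Q}

lemma indep_tf {J : Type} (a : OO n) (w : J → Lm n) (h : a • w = 0) : a = 0 ∨ w = 0 := by
  by_cases ha : a = 0
  · exact Or.inl ha
  · refine Or.inr (funext fun j => funext fun s => ?_)
    have h2 := congrFun (congrFun h j) s
    simp only [Pi.smul_apply, smul_eq_mul, Pi.zero_apply] at h2
    exact (mul_eq_zero.1 h2).resolve_left ha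

lemma wm_tf (a : OO n) (w : Wm n k) (h : a • w = 0) : a = 0 ∨ w = 0 := indep_tf a w h

lemma um_tf (a : OO n) (w : Fin k → Lm n) (h : a • w = 0) : a = 0 ∨ w = 0 := indep_tf a w h

lemma indep_even {c : OO n} (h : aug c = 0) : (2 : ℤ) ∣ c.re + c.im := by
  rw [aug_apply, ← Int.cast_add] at h
  exact (ZMod.intCast_zmod_eq_zero_iff_dvd _ 2).1 h

lemma indep_half (c : OO n) (h : aug c = 0) :
    ∃ c' : OO n, 2 * c' = ⟨1, 1⟩ * c ∧ (aug c' = 0 → ∃ c1 : OO n, c = 2 * c1) := by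
  obtain ⟨m, hm⟩ := indep_even h
  have h2 : (2 : OO n) = ((2 : ℤ) : OO n) := by norm_num
  refine ⟨⟨m + c.im * (2 * (n : ℤ) ^ 2 + 4 * n + 1), m⟩, ?_, fun h' => ?_⟩
  · rw [h2]
    ext
    · simp only [Zsqrtd.re_mul, Zsqrtd.re_intCast, Zsqrtd.im_intCast, dd_cast]
      linear_combination -hm
    · simp only [Zsqrtd.im_mul, Zsqrtd.re_intCast, Zsqrtd.im_intCast]
      linear_combination -hm
  · obtain ⟨m', hm'⟩ := indep_even h'
    simp only at hm'
    refine ⟨⟨m - (m' - m - c.im * ((n : ℤ) ^ 2 + 2 * n)), m' - m - c.im * ((n : ℤ) ^ 2 + 2 * n)⟩,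
      ?_⟩
    rw [h2]
    ext
    · simp only [Zsqrtd.re_mul, Zsqrtd.re_intCast, Zsqrtd.im_intCast]
      linear_combination hm - hm'
    · simp only [Zsqrtd.im_mul, Zsqrtd.re_intCast, Zsqrtd.im_intCast]
      linear_combination hm'

lemma indep_pow {c : OO n} (h : ∀ N : ℕ, (2 : OO n) ^ N ∣ c) : c = 0 := by
  have key : ∀ z : ℤ, (∀ N : ℕ, (2 : ℤ) ^ N ∣ z) → z = 0 := fun z hz =>
    Int.eq_zero_of_abs_lt_dvd (hz z.natAbs) (by
      rw [Int.abs_eq_natAbs]
      exact_mod_cast Nat.lt_two_pow_self)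
  have h1 : ∀ N : ℕ, (2 : ℤ) ^ N ∣ c.re ∧ (2 : ℤ) ^ N ∣ c.im := fun N =>
    (Zsqrtd.intCast_dvd _ _).1 (by simpa using h N)
  ext
  · exact key _ fun N => (h1 N).1
  · exact key _ fun N => (h1 N).2

theorem nak {I M : Type} [Fintype I] [AddCommGroup M] [Module (OO n) M]
    (htf : ∀ (a : OO n) (m : M), a • m = 0 → a = 0 ∨ m = 0) (y : I → M) (ok : I → Prop)
    (h : ∀ c : I → OO n, (∀ i, ¬ ok i → c i = 0) → ∑ i, c i • y i = 0 → ∀ i, aug (c i) = 0)
    (c : I → OO n) (hc : ∀ i, ¬ ok i → c i = 0) (h0 : ∑ i, c i • y i = 0) : c = 0 := by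
  have h2 : (2 : OO n) ≠ 0 := by norm_num
  have hdiv : ∀ (a : OO n) (c c' : I → OO n), (∀ i, 2 * c' i = a * c i) →
      (∀ i, ¬ ok i → c i = 0) → ∑ i, c i • y i = 0 →
        (∀ i, ¬ ok i → c' i = 0) ∧ ∑ i, c' i • y i = 0 := by
    intro a c c' he hc h0
    refine ⟨fun i hi => ?_, (htf 2 _ ?_).resolve_left h2⟩
    · have := he i
      rw [hc i hi, mul_zero] at this
      exact (mul_eq_zero.1 this).resolve_left h2
    · rw [Finset.smul_sum]
      simp only [← mul_smul, he]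
      simp only [mul_smul]
      rw [← Finset.smul_sum, h0, smul_zero]
  have hstep : ∀ N : ℕ, ∀ c : I → OO n, (∀ i, ¬ ok i → c i = 0) → ∑ i, c i • y i = 0 →
      ∀ i, (2 : OO n) ^ N ∣ c i := by
    intro N
    induction N with
    | zero => intro c _ _ i; simp
    | succ N ih =>
      intro c hc h0 i
      choose c' hc' hc1 using fun i => indep_half (c i) (h c hc h0 i)
      obtain ⟨h3, h4⟩ := hdiv _ c c' hc' hc h0
      choose c1 hc1 using fun i => hc1 i (h c' h3 h4 i)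
      obtain ⟨h5, h6⟩ := hdiv 1 c c1 (fun i => by rw [one_mul, hc1]) hc h0
      rw [hc1 i, pow_succ']
      exact mul_dvd_mul_left _ (ih c1 h5 h6 i)
  exact funext fun i => indep_pow fun N => hstep N c hc h0 i

lemma indep_aug_rel {I J : Type} [Fintype I] (v : I → J → Lm n) (c : I × ZMod 2 → OO n)
    (h : ∑ τ, c τ • (fun j => act ⟨0, τ.2⟩ (v τ.1 j) : J → Lm n) = 0) (j : J) (s : ZMod 2) :
    ∑ i, (aug (c (i, 0)) * aug (v i j s) + aug (c (i, 1)) * aug (v i j (s + 1))) = 0 := by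
  have h1 := congrArg aug (congrFun (congrFun h j) s)
  simp only [Finset.sum_apply, Pi.smul_apply, smul_eq_mul, map_sum, map_mul, act_apply, aug_tt,
    aug_bar, one_mul, Pi.zero_apply, map_zero] at h1
  rw [Fintype.sum_prod_type] at h1
  refine Eq.trans (Finset.sum_congr rfl fun i _ => ?_) h1
  have : (Finset.univ : Finset (ZMod 2)) = {0, 1} := by decide
  rw [this, Finset.sum_pair (by decide), add_zero]

lemma indep_sum_rel {I J : Type} [Fintype I] (v : I → J → Lm n) (c : I × ZMod 2 → OO n)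
    (h : ∑ τ, c τ • (fun j => act ⟨0, τ.2⟩ (v τ.1 j) : J → Lm n) = 0) (j : J) :
    ∑ i, (aug (c (i, 0)) + aug (c (i, 1))) * tot (v i j) = 0 := by
  have h0 := indep_aug_rel v c h j 0
  have h1 := indep_aug_rel v c h j 1
  rw [zero_add] at h0
  rw [z2_one_add_one] at h1
  have h2 := congrArg₂ (· + ·) h0 h1
  simp only [← Finset.sum_add_distrib, add_zero] at h2
  refine Eq.trans (Finset.sum_congr rfl fun i _ => ?_) h2
  rw [tot_apply]
  ring

lemma indep_z2 {x y : ZMod 2} (h : x + y = 0) : y = x := by revert x y; decide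

lemma indep_gen {I J : Type} [Fintype I] (v : I → J → Lm n)
    (hv : LinearIndependent (ZMod 2) (fun i => (fun j => tot (v i j) : J → ZMod 2)))
    (c : I × ZMod 2 → OO n)
    (h : ∑ τ, c τ • (fun j => act ⟨0, τ.2⟩ (v τ.1 j) : J → Lm n) = 0) : c = 0 := by
  refine nak indep_tf (fun τ : I × ZMod 2 => (fun j => act ⟨0, τ.2⟩ (v τ.1 j) : J → Lm n))
    (fun _ => True) ?_ c (fun _ hi => absurd trivial hi) h
  intro c _ h
  have hl := Fintype.linearIndependent_iff.1 hv
  have h1 : ∀ i, aug (c (i, 1)) = aug (c (i, 0)) := fun i => indep_z2 <|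
    hl (fun i => aug (c (i, 0)) + aug (c (i, 1))) (funext fun j => by
      simpa only [Finset.sum_apply, Pi.smul_apply, smul_eq_mul, Pi.zero_apply]
        using indep_sum_rel v c h j) i
  have h2 : ∀ i, aug (c (i, 0)) = 0 :=
    hl (fun i => aug (c (i, 0))) (funext fun j => by
      have := indep_aug_rel v c h j 0
      simpa only [Finset.sum_apply, Pi.smul_apply, smul_eq_mul, Pi.zero_apply, h1, tot_apply,
        mul_add, zero_add] using this)
  rintro ⟨i, b⟩
  rcases z2_cases b with rfl | rfl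
  · exact h2 i
  · rw [h1, h2]

theorem ty_indep (Tl : Fin k → El n k)
    (hψ : LinearIndependent (ZMod 2) (fun i => psi (Tl i))) (c : Fin k × ZMod 2 → OO n)
    (h : ∑ i, c i • ty (Tl i.1) i.2 = 0) : c = 0 :=
  indep_gen (fun i j => (Tl i).w (some j)) hψ c h

lemma indep_aug_pv (w : Wm n k) (s : ZMod 2) : aug (pv w none s) = tot (w none) := by
  rw [pv_none, Pi.sub_apply, map_sub, kap_apply, CharTwo.sub_eq_add, tot_apply]
  rcases z2_cases s with rfl | rfl
  · rw [zero_add]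
  · rw [z2_one_add_one, add_comm]

theorem vt_indep (Yl : Option (Fin k) → El n k)
    (hψ : LinearIndependent (ZMod 2) (fun i : Fin k => psi (Yl (some i))))
    (hΨ : LinearIndependent (ZMod 2) (fun o => Psi (Yl o))) (b0 : ZMod 2)
    (c : Option (Fin k) × ZMod 2 → OO n) (hc : c (none, b0) = 0)
    (h : ∑ τ, c τ • vt (Yl τ.1) τ.2 = 0) : c = 0 := by
  refine nak wm_tf (fun τ : Option (Fin k) × ZMod 2 => vt (Yl τ.1) τ.2)
    (fun τ => τ ≠ (none, b0)) ?_ c (fun τ hτ => by rw [not_not.1 hτ, hc]) h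
  intro c hc h
  replace hc := hc (none, b0) (not_not.2 rfl)
  have hl := Fintype.linearIndependent_iff.1 hψ
  have hL := Fintype.linearIndependent_iff.1 hΨ
  have h1 : ∀ o, aug (c (o, 1)) = aug (c (o, 0)) := fun o => indep_z2 <|
    hL (fun o => aug (c (o, 0)) + aug (c (o, 1))) (funext fun j => by
      rcases j with _ | j
      · have := indep_aug_rel (fun o => pv (Yl o).w) c h none 0
        simp only [indep_aug_pv, ← add_mul] at this
        simpa only [Finset.sum_apply, Pi.smul_apply, smul_eq_mul, Psi, Pi.zero_apply]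
          using this
      · have := indep_sum_rel (fun o => pv (Yl o).w) c h (some j)
        simpa only [Finset.sum_apply, Pi.smul_apply, smul_eq_mul, Psi, pv_some,
          Pi.zero_apply] using this) o
  have h0 : aug (c (none, 0)) = 0 := by
    rcases z2_cases b0 with rfl | rfl
    · rw [hc, map_zero]
    · rw [← h1, hc, map_zero]
  have h2 : ∀ i, aug (c (some i, 0)) = 0 :=
    hl (fun i => aug (c (some i, 0))) (funext fun j => by
      have := indep_aug_rel (fun o => pv (Yl o).w) c h (some j) 0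
      rw [Fintype.sum_option] at this
      simpa only [Finset.sum_apply, Pi.smul_apply, smul_eq_mul, Pi.zero_apply, psi, h1, h0,
        tot_apply, mul_add, zero_add, zero_mul, pv_some] using this)
  have h3 : ∀ o, aug (c (o, 0)) = 0 := by
    rintro (_ | i)
    · exact h0
    · exact h2 i
  rintro ⟨o, b⟩
  rcases z2_cases b with rfl | rfl
  · exact h3 o
  · rw [h1, h3]

theorem aw_indep (Yl : Option (Fin k) → El n k)
    (hΨ : LinearIndependent (ZMod 2) (fun o => Psi (Yl o)))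
    (c : Option (Fin k) × ZMod 2 → OO n)
    (h : ∑ τ, c τ • aw ⟨0, τ.2⟩ (Yl τ.1).w = 0) : c = 0 :=
  indep_gen (fun o => (Yl o).w) hΨ c h

theorem drop_many {M : Type} [AddCommGroup M] [Module (OO n) M] (y : Fin k × ZMod 2 → M)
    (hy : ∀ c : Fin k × ZMod 2 → OO n, ∑ i, c i • y i = 0 → c = 0) (m : ℕ) (w : Fin m → M) :
    ∃ I0 : Finset (Fin k), I0.card ≤ m ∧ ∀ c : Fin k × ZMod 2 → OO n,
      (∀ i ∈ I0, ∀ b, c (i, b) = 0) →
        ∑ i, c i • y i ∈ Submodule.span (OO n) (Set.range w) → c = 0 := by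
  induction m with
  | zero =>
    refine ⟨∅, le_rfl, fun c _ hw => hy c ?_⟩
    rwa [Set.range_eq_empty, Submodule.span_empty, Submodule.mem_bot] at hw
  | succ m ih =>
    obtain ⟨I0, hI, h0⟩ := ih (Fin.tail w)
    by_cases hex : ∃ c : Fin k × ZMod 2 → OO n, c ≠ 0 ∧ (∀ i ∈ I0, ∀ b, c (i, b) = 0) ∧
        ∑ i, c i • y i ∈ Submodule.span (OO n) (Set.range w)
    · obtain ⟨c, hc, hc0, hw⟩ := hex
      obtain ⟨⟨i0, b0⟩, hi⟩ := Function.ne_iff.1 hc
      rw [Fin.range_fin_succ] at hw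
      obtain ⟨α, u, hu, hα⟩ := Submodule.mem_span_insert.1 hw
      refine ⟨insert i0 I0, (card_insert_le _ _).trans (by omega), fun d hd hw' => ?_⟩
      rw [Fin.range_fin_succ] at hw'
      obtain ⟨β, u', hu', hβ⟩ := Submodule.mem_span_insert.1 hw'
      have hd0 : ∀ i ∈ I0, ∀ b, d (i, b) = 0 := fun i hi b => hd i (mem_insert_of_mem hi) b
      have h1 := h0 (fun i => α * d i - β * c i)
        (fun i hi b => by rw [hd0 i hi b, hc0 i hi b, mul_zero, mul_zero, sub_self]) (by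
          simp only [sub_smul, mul_smul, Finset.sum_sub_distrib, ← Finset.smul_sum, hα, hβ,
            smul_add]
          rw [smul_comm α β, add_sub_add_left_eq_sub]
          exact Submodule.sub_mem _ (Submodule.smul_mem _ _ hu') (Submodule.smul_mem _ _ hu))
      have h2 := congrFun h1 (i0, b0)
      simp only [hd i0 (mem_insert_self _ _), mul_zero, zero_sub, Pi.zero_apply,
        neg_eq_zero] at h2
      have h3 : β = 0 := (mul_eq_zero.1 h2).resolve_right hi
      exact h0 d hd0 (by rw [hβ, h3, zero_smul, zero_add]; exact hu')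
    · exact ⟨I0, by omega, fun c hc hw => by_contra fun hne => hex ⟨c, hne, hc, hw⟩⟩

end Pool.Agent.MP_646035_al.PC

namespace Pool.Agent.MP_646035_al.PC

open Finset PT

variable {n k : ℕ} {Q : Type} [AddCommGroup Q] [DecidableEq Q] {e : Fin 2 → Q}

/-- The sum of the signed and shifted contributions of a list of blocks. -/
noncomputable def trace_phi {α : Type} (ε : α → ZMod 2) (nn : α → ℤ) (v : α → LP) : List α → LP
  | [] => 0
  | w :: l => v w + LaurentPolynomial.C (sgz (ε w)) * (LaurentPolynomial.T (nn w) *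
      trace_phi ε nn v l)

lemma trace_C_mul (z : ℤ) (p : LP) (a : ℤ) :
    (LaurentPolynomial.C z * p).coeff a = z * p.coeff a := by
  rw [← LaurentPolynomial.smul_eq_C_mul, AddMonoidAlgebra.coeff_smul, Finsupp.smul_apply,
    smul_eq_mul]

lemma trace_abs_sgz (b : ZMod 2) : |sgz b| = 1 := by revert b; decide

section
variable {α : Type} {ε : α → ZMod 2} {nn : α → ℤ} {v : α → LP}

lemma trace_nil (a : ℤ) : (trace_phi ε nn v []).coeff a = 0 := by simp [trace_phi]

lemma trace_cons (w : α) (l : List α) (a : ℤ) : (trace_phi ε nn v (w :: l)).coeff a =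
    (v w).coeff a + sgz (ε w) * (trace_phi ε nn v l).coeff (a - nn w) := by
  rw [trace_phi, AddMonoidAlgebra.coeff_add, Finsupp.add_apply, trace_C_mul, coeff_T_mul]

lemma trace_ev (w : α) (l : List α) : ev n (trace_phi ε nn v (w :: l)) =
    ev n (v w) + (sgz (ε w) : OO n) * (tt n (nn w) * ev n (trace_phi ε nn v l)) := by
  rw [trace_phi, map_add, map_mul, map_mul, ev_C, ev_T]

lemma trace_zero (l : List α) (h : ∀ w ∈ l, v w = 0) : trace_phi ε nn v l = 0 := by
  induction l with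
  | nil => rfl
  | cons w l ih =>
    rw [trace_phi, h w (by simp), ih fun x hx => h x (by simp [hx]), mul_zero, mul_zero, add_zero]

lemma trace_coeff {S : Set ℤ} {a : ℤ} (l : List α)
    (h2 : ∀ w ∈ l, ∀ t ∈ S, t + nn w ∈ S) (h0 : ∀ w ∈ l, ∀ t ∈ S, (v w).coeff (a - t) = 0) :
    ∀ t ∈ S, (trace_phi ε nn v l).coeff (a - t) = 0 := by
  induction l with
  | nil => exact fun t _ => trace_nil _
  | cons w l ih =>
    intro t ht
    have := ih (fun x hx => h2 x (by simp [hx])) (fun x hx => h0 x (by simp [hx])) _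
      (h2 w (by simp) t ht)
    rw [trace_cons, h0 w (by simp) t ht, sub_sub, this, mul_zero, add_zero]

lemma trace_head {S : Set ℤ} {a : ℤ} {w : α} (l : List α)
    (h1 : nn w ∈ S) (h2 : ∀ w ∈ l, ∀ t ∈ S, t + nn w ∈ S)
    (h0 : ∀ w ∈ l, ∀ t ∈ S, (v w).coeff (a - t) = 0) :
    (trace_phi ε nn v (w :: l)).coeff a = (v w).coeff a := by
  rw [trace_cons, trace_coeff l h2 h0 _ h1, mul_zero, add_zero]

lemma trace_bd_aux {B : ℕ} {Off : Finset ℤ} {σ : ℤ} (l : List α) (hB : ∀ w ∈ l, Bd (v w) B)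
    (hOff : ∀ w ∈ l, ∀ a, (v w).coeff a ≠ 0 → a ∈ Off) (hσ : ∀ w ∈ l, 0 < σ * nn w) (a : ℤ) :
    |(trace_phi ε nn v l).coeff a| ≤ B * ((Off.filter fun o => σ * o ≤ σ * a).card : ℤ) := by
  induction l generalizing a with
  | nil =>
    rw [trace_nil, abs_zero]
    positivity
  | cons w l ih =>
    have h1 := ih (fun x hx => hB x (by simp [hx])) (fun x hx => hOff x (by simp [hx]))
      (fun x hx => hσ x (by simp [hx])) (a - nn w)
    have h2 := hσ w (by simp)
    have h3 : (Off.filter fun o => σ * o ≤ σ * (a - nn w)) ⊆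
        (Off.filter fun o => σ * o ≤ σ * a).erase a := fun o ho => by
      rw [mem_filter, mul_sub] at ho
      refine mem_erase.2 ⟨?_, mem_filter.2 ⟨ho.1, by linarith [ho.2]⟩⟩
      rintro rfl
      linarith [ho.2]
    have h4 : (((Off.filter fun o => σ * o ≤ σ * (a - nn w)).card : ℕ) : ℤ) ≤
        (((Off.filter fun o => σ * o ≤ σ * a).erase a).card : ℕ) := by
      exact_mod_cast card_le_card h3
    have hB0 : (0 : ℤ) ≤ B := Int.natCast_nonneg _
    have h5 := h1.trans (mul_le_mul_of_nonneg_left h4 hB0)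
    rw [trace_cons]
    refine (abs_add_le _ _).trans ?_
    rw [abs_mul, trace_abs_sgz, one_mul]
    by_cases h6 : (v w).coeff a = 0
    · rw [h6, abs_zero, zero_add]
      refine h5.trans (mul_le_mul_of_nonneg_left ?_ hB0)
      exact_mod_cast card_erase_le
    · have h7 : a ∈ Off.filter fun o => σ * o ≤ σ * a :=
        mem_filter.2 ⟨hOff w (by simp) a h6, le_rfl⟩
      rw [← card_erase_add_one h7]
      have h8 := hB w (by simp) a
      push_cast
      linarith

lemma trace_bd {B : ℕ} {Off : Finset ℤ} (l : List α) (hB : ∀ w ∈ l, Bd (v w) B)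
    (hOff : ∀ w ∈ l, ∀ a, (v w).coeff a ≠ 0 → a ∈ Off)
    (hσ : (∀ w ∈ l, 0 < nn w) ∨ ∀ w ∈ l, nn w < 0) : Bd (trace_phi ε nn v l) (B * Off.card) := by
  obtain ⟨σ, hσ⟩ : ∃ σ : ℤ, ∀ w ∈ l, 0 < σ * nn w := by
    rcases hσ with h | h
    · exact ⟨1, fun w hw => by linarith [h w hw]⟩
    · exact ⟨-1, fun w hw => by linarith [h w hw]⟩
  intro a
  refine (trace_bd_aux l hB hOff hσ a).trans ?_
  push_cast
  refine mul_le_mul_of_nonneg_left ?_ (Int.natCast_nonneg _)
  exact_mod_cast card_filter_le _ _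

end

lemma trace_mul_u {h : El n k} {a : ℤ} (hg : h.g = ⟨a, 0⟩) (h' : El n k) :
    uu (h * h').w = uu h.w + (sgz h.s : OO n) • tt n a • uu h'.w := by
  rw [mul_w, map_add, uu_iot, hg, aw_mk_zero, map_smul, Int.cast_smul_eq_zsmul]

theorem sep_of_trace {α I : Type} [Fintype I] (y : I → Fin k → Lm n)
    (W0 : Submodule (OO n) (Fin k → Lm n)) (ok : I → Prop)
    (hy : ∀ c : I → OO n, (∀ i, ¬ ok i → c i = 0) → ∑ i, c i • y i ∈ W0 → c = 0)
    (s : Finset α) (f : α → El n k) (tr : α → I → LP)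
    (hok : ∀ ω ∈ s, ∀ i, ¬ ok i → tr ω i = 0)
    (hu : ∀ ω ∈ s, uu (f ω).w - ∑ i, ev n (tr ω i) • y i ∈ W0)
    (hBd : ∀ ω ∈ s, ∀ i, Bd (tr ω i) 2)
    (Off : Finset ℤ) (hcard : Off.card ≤ n)
    (hOff : ∀ ω ∈ s, ∀ i a, (tr ω i).coeff a ≠ 0 → a ∈ Off)
    (nn : α → ℤ) (hg : ∀ ω ∈ s, (f ω).g = ⟨nn ω, 0⟩)
    (hmono : (∀ ω ∈ s, 0 < nn ω) ∨ ∀ ω ∈ s, nn ω < 0)
    (Sh : α → Set ℤ) (h1 : ∀ ω ∈ s, nn ω ∈ Sh ω)
    (h2 : ∀ ω ∈ s, ∀ ω' ∈ s, ∀ t ∈ Sh ω, t + nn ω' ∈ Sh ω)
    (hsep : ∀ ω ∈ s, ∀ ω' ∈ s, ω ≠ ω' → ∃ i a, (tr ω i).coeff a ≠ (tr ω' i).coeff a ∧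
      ∀ ω'' ∈ s, ∀ t, (t ∈ Sh ω ∨ t ∈ Sh ω') → (tr ω'' i).coeff (a - t) = 0) :
    SepW W0 s f := by
  intro ω hω ω' hω' l l' hl hl' hlen e
  by_contra hne
  obtain ⟨i, a, ha, h0⟩ := hsep ω hω ω' hω' hne
  have hL : ∀ w ∈ ω :: l, w ∈ s := List.forall_mem_cons.2 ⟨hω, hl⟩
  have hL' : ∀ w ∈ ω' :: l', w ∈ s := List.forall_mem_cons.2 ⟨hω', hl'⟩
  set Φ : I → List α → LP := fun i => trace_phi (fun w => (f w).s) nn fun w => tr w i with hΦ
  have hA : ∀ L : List α, (∀ w ∈ L, w ∈ s) →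
      uu (L.map f).prod.w - ∑ i, ev n (Φ i L) • y i ∈ W0 := fun L hL => by
    induction L with
    | nil => simp [hΦ, trace_phi]
    | cons w L ih =>
      rw [List.forall_mem_cons] at hL
      have := W0.add_mem (hu w hL.1)
        (W0.smul_mem (sgz (f w).s : OO n) (W0.smul_mem (tt n (nn w)) (ih hL.2)))
      rw [List.map_cons, List.prod_cons, trace_mul_u (hg w hL.1)]
      convert this using 1
      simp only [hΦ, trace_ev, add_smul, mul_smul, Finset.sum_add_distrib, ← Finset.smul_sum,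
        smul_sub]
      abel
  have hC : ∀ L : List α, (∀ w ∈ L, w ∈ s) → ∀ j, ¬ ok j → Φ j L = 0 :=
    fun L hL j hj => trace_zero L fun w hw => hok w (hL w hw) j hj
  have hD := hy (fun j => ev n (Φ j (ω :: l)) - ev n (Φ j (ω' :: l')))
    (fun j hj => by rw [hC _ hL j hj, hC _ hL' j hj, sub_self]) (by
      have := W0.add_mem (W0.sub_mem (hA _ hL') (hA _ hL)) e
      rw [List.map_cons, List.prod_cons, List.map_cons, List.prod_cons] at this
      convert this using 1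
      simp only [sub_smul, Finset.sum_sub_distrib]
      abel)
  have hB : ∀ L : List α, (∀ w ∈ L, w ∈ s) → Bd (Φ i L) (2 * Off.card) := fun L hL =>
    trace_bd L (fun w hw => hBd w (hL w hw) i) (fun w hw => hOff w (hL w hw) i)
      (hmono.imp (fun h w hw => h w (hL w hw)) fun h w hw => h w (hL w hw))
  have hF : Φ i (ω :: l) = Φ i (ω' :: l') := sub_eq_zero.1 <|
    ev_inj (n := n) ((hB _ hL).sub (hB _ hL')) (by omega) (by
      rw [map_sub]
      exact congrFun hD i)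
  have e1 : (Φ i (ω :: l)).coeff a = (tr ω i).coeff a :=
    trace_head l (h1 ω hω) (fun w hw => h2 ω hω w (hl w hw))
      fun w hw t ht => h0 w (hl w hw) t (Or.inl ht)
  have e2 : (Φ i (ω' :: l')).coeff a = (tr ω' i).coeff a :=
    trace_head l' (h1 ω' hω') (fun w hw => h2 ω' hω' w (hl' w hw))
      fun w hw t ht => h0 w (hl' w hw) t (Or.inr ht)
  exact ha (by rw [← e1, ← e2, hF])

theorem sep_periodic {α I : Type} [Fintype I] (y : I → Fin k → Lm n)
    (W0 : Submodule (OO n) (Fin k → Lm n)) (ok : I → Prop)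
    (hy : ∀ c : I → OO n, (∀ i, ¬ ok i → c i = 0) → ∑ i, c i • y i ∈ W0 → c = 0)
    (s : Finset α) (f : α → El n k) (tr : α → I → LP)
    (hok : ∀ ω ∈ s, ∀ i, ¬ ok i → tr ω i = 0)
    (hu : ∀ ω ∈ s, uu (f ω).w - ∑ i, ev n (tr ω i) • y i ∈ W0)
    (hBd : ∀ ω ∈ s, ∀ i, Bd (tr ω i) 2)
    (Off : Finset ℤ) (hcard : Off.card ≤ n)
    (hOff : ∀ ω ∈ s, ∀ i a, (tr ω i).coeff a ≠ 0 → a ∈ Off)
    (m0 : ℤ) (hm : m0 ≠ 0) (hg : ∀ ω ∈ s, (f ω).g = ⟨m0, 0⟩)
    (Ps : I → Set ℤ) (hP : ∀ ω ∈ s, ∀ i a, (tr ω i).coeff a ≠ 0 → a ∈ Ps i)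
    (hPs : ∀ i, ∀ a ∈ Ps i, ∀ a' ∈ Ps i, ∀ m : ℤ, a' = a + m * m0 → m = 0)
    (hinj : ∀ ω ∈ s, ∀ ω' ∈ s, tr ω = tr ω' → ω = ω') : SepW W0 s f := by
  refine sep_of_trace y W0 ok hy s f tr hok hu hBd Off hcard hOff (fun _ => m0) hg
    ((lt_or_gt_of_ne hm).symm.imp (fun h _ _ => h) fun h _ _ => h)
    (fun _ => {t | ∃ m : ℤ, 1 ≤ m ∧ t = m * m0}) (fun _ _ => ⟨1, le_rfl, (one_mul _).symm⟩)
    ?_ fun ω hω ω' hω' hne => ?_
  · rintro _ _ _ _ _ ⟨m, hm, rfl⟩
    exact ⟨m + 1, by omega, by ring⟩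
  · obtain ⟨i, hi⟩ := Function.ne_iff.1 fun e => hne (hinj ω hω ω' hω' e)
    obtain ⟨a, ha⟩ : ∃ a, (tr ω i).coeff a ≠ (tr ω' i).coeff a := by
      by_contra hc
      exact hi (by ext a; exact of_not_not (not_exists.1 hc a))
    have h1 : a ∈ Ps i := by
      by_cases h : (tr ω i).coeff a = 0
      · exact hP ω' hω' i a fun e => ha (h.trans e.symm)
      · exact hP ω hω i a h
    refine ⟨i, a, ha, fun w hw t ht => of_not_not fun h => ?_⟩
    obtain ⟨m, hm, rfl⟩ := ht.elim id id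
    have := hPs i a h1 _ (hP w hw i _ h) (-m) (by ring)
    omega

lemma trace_lists {α : Type} {s : Finset α} {f : α → El n k} {m0 : ℤ}
    (hg : ∀ ω ∈ s, (f ω).g = ⟨m0, 0⟩) {W0 : Submodule (OO n) (Fin k → Lm n)} (hs : SepW W0 s f)
    (l l' : List α) (hl : ∀ w ∈ l, w ∈ s) (hl' : ∀ w ∈ l', w ∈ s) (e : l.length = l'.length)
    (h : uu (l.map f).prod.w - uu (l'.map f).prod.w ∈ W0) : l = l' := by
  induction l generalizing l' with
  | nil => rw [List.length_eq_zero_iff.1 e.symm]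
  | cons w l ih =>
    cases l' with
    | nil => simp at e
    | cons w' l' =>
      rw [List.forall_mem_cons] at hl hl'
      rw [List.map_cons, List.prod_cons, List.map_cons, List.prod_cons] at h
      have e' : l.length = l'.length := by simpa using e
      obtain rfl := hs w hl.1 w' hl'.1 l l' hl.2 hl'.2 e' h
      rw [trace_mul_u (hg w hl.1), trace_mul_u (hg w hl.1), add_sub_add_left_eq_sub, ← smul_sub,
        ← smul_sub] at h
      have h1 := W0.smul_mem (tt n (-m0)) (W0.smul_mem (sgz (f w).s : OO n) h)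
      rw [← mul_smul (sgz (f w).s : OO n), ← Int.cast_mul, sgz_mul_self, Int.cast_one, one_smul,
        ← mul_smul, tt_neg_mul, one_smul] at h1
      rw [ih l' hl.2 hl'.2 e' h1]

lemma trace_tf {a : OO n} {w : Wm n k} (hw : w ≠ 0) (h : a • w = 0) : a = 0 := by
  by_contra ha
  refine hw (funext fun j => funext fun s => ?_)
  have h2 := congrFun (congrFun h j) s
  simp only [Pi.smul_apply, smul_eq_mul, Pi.zero_apply] at h2
  exact (mul_eq_zero.1 h2).resolve_left ha

/-- The digit of one block. -/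
noncomputable def trace_dg {α : Type} (η : α → ZMod 2) (p : α × Bool) : LP :=
  LaurentPolynomial.C (if p.2 then sgz (η p.1) else 0)

lemma trace_dg_coeff {α : Type} (η : α → ZMod 2) (p : α × Bool) (a : ℤ) :
    (trace_dg η p).coeff a = if a = 0 then (if p.2 then sgz (η p.1) else 0) else 0 := by
  rw [trace_dg, ← mul_one (LaurentPolynomial.C _), trace_C_mul, ← LaurentPolynomial.T_zero,
    LaurentPolynomial.T, AddMonoidAlgebra.coeff_single, Finsupp.single_apply]
  by_cases ha : a = 0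
  · rw [if_pos ha.symm, if_pos ha, mul_one]
  · rw [if_neg (Ne.symm ha), if_neg ha, mul_zero]

lemma trace_bits {α : Type} (ε : α × Bool → ZMod 2) (η : α → ZMod 2) {m0 : ℤ} (hm : m0 ≠ 0)
    (p p' : α × Bool) (l l' : List (α × Bool))
    (h : ev n (trace_phi ε (fun _ => m0) (trace_dg η) (p :: l)) -
      ev n (trace_phi ε (fun _ => m0) (trace_dg η) (p' :: l')) = 0) : p.2 = p'.2 := by
  have hB : ∀ L, Bd (trace_phi ε (fun _ => m0) (trace_dg η) L) (1 * ({0} : Finset ℤ).card) :=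
    fun L => trace_bd L (fun w _ a => by
        rw [trace_dg_coeff]
        split_ifs <;> simp [trace_abs_sgz])
      (fun w _ a ha => by
        rw [trace_dg_coeff] at ha
        exact mem_singleton.2 (by_contra fun h => ha (if_neg h)))
      ((lt_or_gt_of_ne hm).symm.imp (fun h _ _ => h) fun h _ _ => h)
  have h5 := sub_eq_zero.1 <| ev_inj (n := n) ((hB (p :: l)).sub (hB (p' :: l')))
    (by rw [card_singleton]; omega) (by rw [map_sub, h])
  have h6 : ∀ (q : α × Bool) (L : List (α × Bool)),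
      (trace_phi ε (fun _ => m0) (trace_dg η) (q :: L)).coeff 0 =
        if q.2 then sgz (η q.1) else 0 := by
    intro q L
    rw [trace_head (S := {t | ∃ m : ℤ, 1 ≤ m ∧ t = m * m0}) L ⟨1, le_rfl, (one_mul _).symm⟩]
    · rw [trace_dg_coeff, if_pos rfl]
    · rintro _ _ _ ⟨m, hm, rfl⟩
      exact ⟨m + 1, by omega, by ring⟩
    · rintro w _ _ ⟨m, hm', rfl⟩
      have : m ≠ 0 := by omega
      rw [trace_dg_coeff, if_neg (by simp [hm, this])]
  have h7 := h6 p l
  rw [h5, h6] at h7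
  have h8 : ∀ b, sgz b ≠ 0 := by decide
  have h9 : ∀ b, 0 ≠ sgz b := by decide
  revert h7
  cases p.2 <;> cases p'.2 <;> simp [h8, h9]

lemma trace_prod {α : Type} {s : Finset α} {f0 : α → El n k} {m0 : ℤ}
    (hg : ∀ ω ∈ s, (f0 ω).g = ⟨m0, 0⟩) {W0 : Submodule (OO n) (Fin k → Lm n)} {z : Wm n k}
    (hzW : uu z ∈ W0) {ζ : α → Wm n k} {η : α → ZMod 2} (hζ : ∀ ω ∈ s, ζ ω = iot (η ω) z)
    (l : List (α × Bool)) (hl : ∀ p ∈ l, p.1 ∈ s) :
    ∃ D : Wm n k, (l.map fun p => (if p.2 then mm (ζ p.1) else 1) * f0 p.1).prod =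
      mm D * ((l.map Prod.fst).map f0).prod ∧ uu D ∈ W0 ∧
      pv D = ev n (trace_phi (fun p => (f0 p.1).s) (fun _ => m0) (trace_dg η) l) • pv z ∧
      gm D = ev n (trace_phi (fun _ => 0) (fun _ => m0) (trace_dg fun _ => 0) l) * gm z := by
  have hmm : ∀ (a b : Wm n k) (h : El n k), mm a * (mm b * h) = mm (a + b) * h := fun a b h => by
    simp only [mm_mul, add_assoc]
  have h0 : ∀ h : El n k, mm 0 * h = h := fun h => by simp only [mm_mul, zero_add]
  induction l with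
  | nil => exact ⟨0, by simp [h0], by simp, by simp [trace_phi], by simp [trace_phi]⟩
  | cons p l ih =>
    rw [List.forall_mem_cons] at hl
    obtain ⟨D, h1, h2, h3, h4⟩ := ih hl.2
    obtain ⟨d, h5, h6, h7, h8⟩ : ∃ d : Wm n k, (∀ h : El n k,
        (if p.2 then mm (ζ p.1) else 1) * h = mm d * h) ∧ uu d ∈ W0 ∧
        pv d = ev n (trace_dg η p) • pv z ∧ gm d = ev n (trace_dg (fun _ => 0) p) * gm z := by
      simp only [trace_dg, ev_C]
      split_ifs
      · refine ⟨ζ p.1, fun _ => rfl, ?_, ?_, ?_⟩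
        · rw [hζ _ hl.1, uu_iot]
          exact zsmul_mem hzW _
        · rw [hζ _ hl.1, pv_iot, Int.cast_smul_eq_zsmul]
        · rw [hζ _ hl.1, gm_iot, sgz_zero, Int.cast_one, one_mul]
      · exact ⟨0, by simp [h0], by simp, by simp, by simp⟩
    refine ⟨d + iot (f0 p.1).s (tt n m0 • D), ?_, ?_, ?_, ?_⟩
    · simp only [List.map_cons, List.prod_cons]
      rw [h1, mul_assoc, h5, ← mul_assoc (f0 p.1), mul_mm, hg _ hl.1, aw_mk_zero, mul_assoc, hmm]
    · rw [map_add, uu_iot, map_smul]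
      exact W0.add_mem h6 (zsmul_mem (W0.smul_mem _ h2) _)
    · rw [map_add, pv_iot, map_smul, h3, h7, trace_ev, add_smul, mul_smul, mul_smul,
        Int.cast_smul_eq_zsmul]
    · rw [map_add, gm_iot, map_smul, h4, h8, trace_ev, sgz_zero, Int.cast_one, smul_eq_mul]
      ring

theorem mdecode {α : Type} (s : Finset α) (f0 : α → El n k) (m0 : ℤ) (hm : m0 ≠ 0)
    (hg : ∀ ω ∈ s, (f0 ω).g = ⟨m0, 0⟩) (W0 : Submodule (OO n) (Fin k → Lm n))
    (hs : SepW W0 s f0) (z : Wm n k) (hz : z ≠ 0) (hzW : uu z ∈ W0) (ζ : α → Wm n k)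
    (hζ : ∀ ω ∈ s, ζ ω = z ∨ ζ ω = iot 1 z) :
    Sep (s ×ˢ (univ : Finset Bool)) (fun p => (if p.2 then mm (ζ p.1) else 1) * f0 p.1) := by
  classical
  intro p hp p' hp' l l' hl hl' hlen e
  have hL : ∀ w ∈ p :: l, w.1 ∈ s := List.forall_mem_cons.2
    ⟨(mem_product.1 hp).1, fun w hw => (mem_product.1 (hl w hw)).1⟩
  have hL' : ∀ w ∈ p' :: l', w.1 ∈ s := List.forall_mem_cons.2
    ⟨(mem_product.1 hp').1, fun w hw => (mem_product.1 (hl' w hw)).1⟩
  have hη : ∀ ω ∈ s, ζ ω = iot (if ζ ω = z then 0 else 1) z := fun ω hω => by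
    split_ifs with h
    · rw [iot_zero, h]
    · exact (hζ ω hω).resolve_left h
  obtain ⟨D, h1, h2, h3, h4⟩ := trace_prod hg hzW hη _ hL
  obtain ⟨D', h1', h2', h3', h4'⟩ := trace_prod hg hzW hη _ hL'
  rw [List.map_cons, List.prod_cons] at h1 h1'
  rw [h1, h1'] at e
  have h5 := trace_lists hg hs _ _ (List.forall_mem_map.2 hL) (List.forall_mem_map.2 hL')
    (by simpa using hlen) (by
      have e1 := congrArg (fun h : El n k => uu h.w) e
      simp only [mm_mul, map_add] at e1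
      have := W0.sub_mem h2' h2
      convert this using 1
      rw [sub_eq_sub_iff_add_eq_add, add_comm, e1])
  rw [h5] at e
  have h6 : D = D' := congrArg El.w (mul_right_cancel e)
  refine Prod.ext (List.cons.inj h5).1 ?_
  by_cases hpv : pv z = 0
  · have hgm : gm z ≠ 0 := fun h => hz (eq_zero_of_pv_gm hpv h)
    refine trace_bits (n := n) (fun _ => 0) (fun _ => 0) hm p p' l l' ?_
    refine (mul_eq_zero.1 ?_).resolve_right hgm
    rw [sub_mul, ← h4, ← h4', h6, sub_self]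
  · refine trace_bits (n := n) (fun p => (f0 p.1).s) (fun ω => if ζ ω = z then 0 else 1) hm
      p p' l l' (trace_tf hpv ?_)
    rw [sub_smul, ← h3, ← h3', h6, sub_self]

end Pool.Agent.MP_646035_al.PC

namespace Pool.Agent.MP_646035_al.PC

open Finset PT

variable {n k : ℕ} {Q : Type} [AddCommGroup Q] [DecidableEq Q] {e : Fin 2 → Q}

lemma code_mono {α : OO n} (hα : α ≠ 0) {u v : Wm n k} {a : ℤ} {ε : ZMod 2}
    (h : (-((sgz ε : ℤ) : OO n) * (tt n a * α)) • u + α • v = 0) :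
    tt n (-a) • v = sgz ε • u := by
  have h1 : α • (v - ((sgz ε : ℤ) : OO n) • tt n a • u) = 0 := by
    rw [← h, smul_sub, smul_smul, smul_smul, sub_eq_add_neg, add_comm, ← neg_smul]
    congr 2
    ring
  have h2 := sub_eq_zero.1 ((wm_tf _ _ h1).resolve_left hα)
  rw [h2, smul_comm (tt n (-a)), smul_smul (tt n (-a)), tt_neg_mul, one_smul, Int.cast_smul_eq_zsmul]

theorem code_cases (hn : 25 ≤ n) {I : Type} [Fintype I] [DecidableEq I] (y : I → Wm n k)
    (τ0 τ1 : I) (hne : τ0 ≠ τ1)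
    (h0 : ∀ c : I → OO n, c τ0 = 0 → ∑ i, c i • y i = 0 → c = 0)
    (h1 : ∀ c : I → OO n, c τ1 = 0 → ∑ i, c i • y i = 0 → c = 0) :
    (∃ (a : ℤ) (ε : ZMod 2), tt n a • y τ1 = sgz ε • y τ0) ∨
      ∃ (τ2 : I) (F : Finset (I × ℤ)), F.card ≤ 4 ∧ (∀ f ∈ F, f.1 = τ0 ∨ f.1 = τ1 ∨ f.1 = τ2) ∧
        ∀ c : I → LP, Bd (c τ0) 2 → Bd (c τ1) 2 → Bd (c τ2) 2 → ∑ i, ev n (c i) • y i = 0 →
          (∃ i, ev n (c i) ≠ 0) → ∃ D : ℤ, ∃ f ∈ F, ∃ f' ∈ F, f ≠ f' ∧
            (c f.1).coeff (f.2 + D) ≠ 0 ∧ (c f'.1).coeff (f'.2 + D) ≠ 0 ∧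
              (|(c f.1).coeff (f.2 + D)| = 2 ∨
                ∃ f'' ∈ F, f'' ≠ f ∧ f'' ≠ f' ∧ (c f''.1).coeff (f''.2 + D) ≠ 0) := by
  by_cases hex : ∃ c : I → OO n, c ≠ 0 ∧ ∑ i, c i • y i = 0
  swap
  · right
    refine ⟨τ0, ∅, by simp, by simp, fun c _ _ _ hr hc => absurd ⟨fun i => ev n (c i), ?_, hr⟩ hex⟩
    obtain ⟨i, hi⟩ := hc
    exact fun h => hi (congrFun h i)
  obtain ⟨c, hc, hr⟩ := hex
  have hc0 : c τ0 ≠ 0 := fun h => hc (h0 c h hr)
  have hc1 : c τ1 ≠ 0 := fun h => hc (h1 c h hr)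
  -- every relation is proportional to `c`
  have prop : ∀ c' : I → OO n, ∑ i, c' i • y i = 0 → ∀ t, c' t * c τ1 = c' τ1 * c t := by
    intro c' hr' t
    have h2 := h1 (fun i => c τ1 * c' i - c' τ1 * c i) (by ring) (by
      simp only [sub_smul, mul_smul, Finset.sum_sub_distrib, ← Finset.smul_sum, hr, hr',
        smul_zero, sub_zero])
    have h3 := sub_eq_zero.1 (congrFun h2 t)
    rw [← h3, mul_comm]
  have top : ∀ c' : I → LP, ∑ i, ev n (c' i) • y i = 0 → (∃ i, ev n (c' i) ≠ 0) →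
      ∃ D : ℤ, IsTop (c' τ1) D := by
    intro c' hr' hc'
    obtain ⟨i, hi⟩ := hc'
    refine exists_isTop fun h => hi ?_
    exact congrFun (h1 (fun i => ev n (c' i)) (by simp [h]) hr') i
  by_cases h3 : ∃ t, t ≠ τ0 ∧ t ≠ τ1 ∧ c t ≠ 0
  · obtain ⟨t, ht0, ht1, ht⟩ := h3
    obtain ⟨Δ0, hΔ0⟩ := tops hn hc1 hc0
    obtain ⟨Δ2, hΔ2⟩ := tops hn hc1 ht
    right
    refine ⟨t, {(τ1, 0), (τ0, Δ0), (t, Δ2)}, le_trans Finset.card_le_three (by norm_num), ?_, ?_⟩
    · intro f hf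
      simp only [Finset.mem_insert, Finset.mem_singleton] at hf
      rcases hf with rfl | rfl | rfl <;> simp
    intro c' b0 b1 b2 hr' hc'
    obtain ⟨D, hD⟩ := top c' hr' hc'
    have e0 := hΔ0 (c' τ0) (c' τ1) (b0.mono (by norm_num)) (b1.mono (by norm_num))
      (prop (fun i => ev n (c' i)) hr' τ0) D hD
    have e2 := hΔ2 (c' t) (c' τ1) (b2.mono (by norm_num)) (b1.mono (by norm_num))
      (prop (fun i => ev n (c' i)) hr' t) D hD
    refine ⟨D, (τ1, 0), by simp, (τ0, Δ0), by simp, fun h => hne (congrArg Prod.fst h).symm, ?_, ?_,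
      Or.inr ⟨(t, Δ2), by simp, fun h => ht1 (congrArg Prod.fst h),
        fun h => ht0 (congrArg Prod.fst h), ?_⟩⟩
    · simpa using hD.1
    · simpa [add_comm] using e0.1
    · simpa [add_comm] using e2.1
  push Not at h3
  have hrel : c τ0 • y τ0 + c τ1 • y τ1 = 0 := by
    rw [← hr, ← Finset.sum_pair (f := fun i => c i • y i) hne]
    apply Finset.sum_subset (Finset.subset_univ _)
    intro t _ ht
    simp only [Finset.mem_insert, Finset.mem_singleton, not_or] at ht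
    rw [h3 t ht.1 ht.2, zero_smul]
  obtain ⟨Δ, ε, hε, hT⟩ := two_three hn hc1 hc0
  by_cases hm : c τ0 = tt n Δ * c τ1 ∨ c τ0 = -(tt n Δ * c τ1)
  · left
    rcases hm with hm | hm
    · refine ⟨-Δ, 1, code_mono hc1 ?_⟩
      rw [← hrel, hm]
      simp
    · refine ⟨-Δ, 0, code_mono hc1 ?_⟩
      rw [← hrel, hm]
      simp
  right
  refine ⟨τ0, {(τ0, Δ), (τ1, 0), (τ0, Δ - ε), (τ1, -ε)}, Finset.card_le_four, ?_, ?_⟩
  · intro f hf
    simp only [Finset.mem_insert, Finset.mem_singleton] at hf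
    rcases hf with rfl | rfl | rfl | rfl <;> simp
  intro c' b0 b1 _ hr' hc'
  obtain ⟨D, hD⟩ := top c' hr' hc'
  obtain ⟨e0, e1⟩ := hT (c' τ0) (c' τ1) b0 b1 (prop (fun i => ev n (c' i)) hr' τ0) D hD
  have n01 : ((τ0, Δ) : I × ℤ) ≠ (τ1, 0) := fun h => hne (congrArg Prod.fst h)
  have g0 : (c' τ0).coeff (Δ + D) ≠ 0 := by simpa [add_comm] using e0.1
  have g1 : (c' τ1).coeff (0 + D) ≠ 0 := by simpa using hD.1
  refine ⟨D, ?_⟩
  rcases e1 with e1 | e1 | e1 | e1 | e1
  · exact absurd e1 hm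
  · exact ⟨(τ0, Δ), by simp, (τ1, 0), by simp, n01, g0, g1, Or.inl (by simpa [add_comm] using e1)⟩
  · exact ⟨(τ1, 0), by simp, (τ0, Δ), by simp, n01.symm, g1, g0, Or.inl (by simpa using e1)⟩
  · refine ⟨(τ0, Δ), by simp, (τ1, 0), by simp, n01, g0, g1, Or.inr ⟨(τ0, Δ - ε), by simp, ?_,
      fun h => hne (congrArg Prod.fst h), ?_⟩⟩
    · intro h
      have := congrArg Prod.snd h
      simp only at this
      omega
    · have : Δ - ε + D = D + Δ - ε := by ring
      simp only [this]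
      exact e1
  · refine ⟨(τ0, Δ), by simp, (τ1, 0), by simp, n01, g0, g1, Or.inr ⟨(τ1, -ε), by simp,
      fun h => hne (congrArg Prod.fst h).symm, ?_, ?_⟩⟩
    · intro h
      have := congrArg Prod.snd h
      simp only at this
      omega
    · have : -ε + D = D - ε := by ring
      simp only [this]
      exact e1

/-- The independence polynomial of the graph restricted to `s`. -/
noncomputable def codeZ {P : Type} [DecidableEq P] (adj : P → P → Prop) [DecidableRel adj]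
    (a : P → ℝ) (s : Finset P) : ℝ :=
  ∑ X ∈ s.powerset.filter (fun X : Finset P => ∀ u ∈ X, ∀ v ∈ X, ¬ adj u v), ∏ v ∈ X, a v

lemma code_Z_mono {P : Type} [DecidableEq P] (adj : P → P → Prop) [DecidableRel adj]
    {a : P → ℝ} (h0 : ∀ v, 0 ≤ a v) {s t : Finset P} (h : s ⊆ t) :
    codeZ adj a s ≤ codeZ adj a t := by
  apply Finset.sum_le_sum_of_subset_of_nonneg
  · exact Finset.filter_subset_filter _ (Finset.powerset_mono.2 h)
  · intro X _ _
    exact Finset.prod_nonneg fun v _ => h0 v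

lemma code_Z_nonneg {P : Type} [DecidableEq P] (adj : P → P → Prop) [DecidableRel adj]
    {a : P → ℝ} (h0 : ∀ v, 0 ≤ a v) (s : Finset P) : 0 ≤ codeZ adj a s :=
  Finset.sum_nonneg fun _ _ => Finset.prod_nonneg fun v _ => h0 v

lemma code_Z_insert {P : Type} [DecidableEq P] (adj : P → P → Prop) [DecidableRel adj]
    (hsym : ∀ u v, adj u v → adj v u) (hirr : ∀ v, ¬ adj v v) (a : P → ℝ) {s : Finset P} {p : P}
    (hp : p ∉ s) :
    codeZ adj a (insert p s) =
      codeZ adj a s + a p * codeZ adj a (s.filter (fun v => ¬ adj p v)) := by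
  unfold codeZ
  rw [Finset.sum_filter, Finset.sum_powerset_insert hp, ← Finset.sum_filter, ← Finset.sum_filter,
    Finset.mul_sum]
  congr 1
  apply Finset.sum_congr
  · ext X
    simp only [Finset.mem_filter, Finset.mem_powerset, Finset.mem_insert, Finset.subset_iff]
    constructor
    · rintro ⟨h1, h2⟩
      exact ⟨fun v hv => ⟨h1 hv, h2 p (Or.inl rfl) v (Or.inr hv)⟩,
        fun u hu v hv => h2 u (Or.inr hu) v (Or.inr hv)⟩
    · rintro ⟨h1, h2⟩
      refine ⟨fun v hv => (h1 hv).1, ?_⟩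
      rintro u (rfl | hu) v (rfl | hv)
      · exact hirr _
      · exact (h1 hv).2
      · exact fun h => (h1 hu).2 (hsym _ _ h)
      · exact h2 u hu v hv
  · intro X hX
    have h1 : p ∉ X := fun h =>
      hp (Finset.mem_filter.1 (Finset.mem_powerset.1 (Finset.mem_filter.1 hX).1 h)).1
    rw [Finset.prod_insert h1]

lemma code_Z_sdiff {P : Type} [DecidableEq P] (adj : P → P → Prop) [DecidableRel adj]
    (hsym : ∀ u v, adj u v → adj v u) (hirr : ∀ v, ¬ adj v v) {a : P → ℝ} {am : ℝ}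
    (h0 : ∀ v, 0 ≤ a v) (h1 : ∀ v, a v ≤ am) (hm : 0 ≤ am)
    (s t : Finset P) : codeZ adj a s ≤ (1 + am) ^ t.card * codeZ adj a (s \ t) := by
  induction t using Finset.induction_on with
  | empty => simp
  | insert p t hp ih =>
    refine ih.trans ?_
    rw [Finset.card_insert_of_notMem hp, pow_succ, mul_assoc]
    apply mul_le_mul_of_nonneg_left _ (by positivity)
    have hna : p ∉ s \ insert p t := by simp
    have hsub : s \ t ⊆ insert p (s \ insert p t) := by
      intro v hv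
      simp only [Finset.mem_sdiff, Finset.mem_insert] at hv ⊢
      tauto
    refine (code_Z_mono adj h0 hsub).trans ?_
    rw [code_Z_insert adj hsym hirr a hna, add_mul, one_mul]
    exact add_le_add_right
      (mul_le_mul (h1 p) (code_Z_mono adj h0 (Finset.filter_subset _ _))
        (code_Z_nonneg adj h0 _) hm) _

theorem hardcore {P : Type} [Fintype P] [DecidableEq P] (adj : P → P → Prop) [DecidableRel adj]
    (hsym : ∀ u v, adj u v → adj v u) (hirr : ∀ v, ¬ adj v v) (d : ℕ)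
    (hd : ∀ v, (univ.filter (adj v)).card ≤ d) (a : P → ℝ) (am : ℝ) (h0 : ∀ v, 0 ≤ a v)
    (h1 : ∀ v, a v ≤ am) :
    ∏ v, (1 + a v / (1 + am) ^ d) ≤
      ∑ X ∈ univ.filter (fun X : Finset P => ∀ u ∈ X, ∀ v ∈ X, ¬ adj u v), ∏ v ∈ X, a v := by
  have main : ∀ s : Finset P, ∏ v ∈ s, (1 + a v / (1 + am) ^ d) ≤ codeZ adj a s := by
    intro s
    induction s using Finset.induction_on with
    | empty => simp [codeZ, Finset.filter_singleton]
    | insert p s hp ih =>
      have hm : 0 ≤ am := (h0 p).trans (h1 p)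
      have ha := h0 p
      rw [Finset.prod_insert hp, code_Z_insert adj hsym hirr a hp]
      have h2 := code_Z_sdiff adj hsym hirr h0 h1 hm s (univ.filter (adj p))
      have h3 : s \ univ.filter (adj p) = s.filter (fun v => ¬ adj p v) := by
        ext v; simp
      rw [h3] at h2
      have hp' : (0 : ℝ) < (1 + am) ^ d := by positivity
      have h4 : (1 + am) ^ (univ.filter (adj p)).card ≤ (1 + am) ^ d :=
        pow_le_pow_right₀ (by linarith) (hd p)
      have h5 : codeZ adj a s / (1 + am) ^ d ≤ codeZ adj a (s.filter (fun v => ¬ adj p v)) := by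
        rw [div_le_iff₀ hp', mul_comm]
        exact h2.trans (mul_le_mul_of_nonneg_right h4 (code_Z_nonneg adj h0 _))
      calc (1 + a p / (1 + am) ^ d) * ∏ v ∈ s, (1 + a v / (1 + am) ^ d)
          ≤ (1 + a p / (1 + am) ^ d) * codeZ adj a s :=
            mul_le_mul_of_nonneg_left ih (by positivity)
        _ = codeZ adj a s + a p * (codeZ adj a s / (1 + am) ^ d) := by ring
        _ ≤ _ := add_le_add_right (mul_le_mul_of_nonneg_left h5 ha) _
  have := main univ
  rw [codeZ, Finset.powerset_univ] at this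
  convert this

end Pool.Agent.MP_646035_al.PC

namespace Pool.Agent.MP_646035_al.PC

open Finset PT

variable {n k : ℕ} {Q : Type} [AddCommGroup Q] [DecidableEq Q] {e : Fin 2 → Q}

lemma pure_odd {g : OO n} {η : ℤ} (hη : η = 1 ∨ η = -1) (h : tt n 1 * star g = (η : OO n) * g) :
    aug g = 0 := by
  have h1 := congrArg Zsqrtd.im h
  rw [tt_one] at h1
  simp only [Zsqrtd.im_mul, Zsqrtd.re_star, Zsqrtd.im_star, Zsqrtd.re_intCast, Zsqrtd.im_intCast,
    zero_mul, add_zero, one_mul] at h1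
  rw [aug_apply, ← Int.cast_add, ZMod.intCast_eq_zero_iff_even]
  rcases hη with rfl | rfl
  · exact ⟨(n + 2) * g.im, by linarith⟩
  · exact ⟨(n + 1) * g.im, by linarith⟩

lemma pure_even {f : OO n} {a η : ℤ} (hη : η = 1 ∨ η = -1) (hf : aug f = 1)
    (h : tt n a * star f = (η : OO n) * f) : ∃ c : ℤ, a = c + c := by
  rcases Int.even_or_odd a with ha | ⟨c, rfl⟩
  · exact ha
  · exfalso
    have h1 : tt n 1 * star (tt n (-c) * f) = (η : OO n) * (tt n (-c) * f) := by
      rw [star_mul', star_tt, neg_neg, mul_left_comm (η : OO n), ← h, ← mul_assoc, ← mul_assoc,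
        ← tt_add, ← tt_add]
      congr 2
      ring
    have h2 := pure_odd hη h1
    rw [map_mul, aug_tt, hf, one_mul] at h2
    exact one_ne_zero h2

/-- The unit factors of the comparison map. -/
def pureE (n : ℕ) (c η : ℤ) (τ : Option (Fin k) × ZMod 2) : OO n :=
  τ.1.elim (if τ.2 = 0 then tt n (-c) else (η : OO n) * tt n c) fun _ => 1

/-- The comparison map on the digits. -/
def pureL (Yl : Option (Fin k) → El n k) (c η : ℤ) (w : Wm n k) : Wm n k :=
  ∑ τ : Option (Fin k) × ZMod 2, (w τ.1 τ.2 * pureE n c η τ) • aw ⟨0, τ.2⟩ (Yl τ.1).w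

lemma pure_E_ne {c η : ℤ} (hη : η = 1 ∨ η = -1) (τ : Option (Fin k) × ZMod 2) :
    pureE n c η τ ≠ 0 := by
  obtain ⟨_ | i, s⟩ := τ
  · simp only [pureE, Option.elim]
    split_ifs
    · exact tt_ne_zero _
    · rcases hη with rfl | rfl <;> simp [tt_ne_zero]
  · simp [pureE]

lemma pure_L_add (Yl : Option (Fin k) → El n k) (c η : ℤ) (w w' : Wm n k) :
    pureL Yl c η (w + w') = pureL Yl c η w + pureL Yl c η w' := by
  simp only [pureL, Pi.add_apply, add_mul, add_smul, sum_add_distrib]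

lemma pure_L_zero (Yl : Option (Fin k) → El n k) (c η : ℤ) : pureL Yl c η 0 = 0 := by
  simp [pureL]

lemma pure_L_inj {Yl : Option (Fin k) → El n k}
    (hΨ : LinearIndependent (ZMod 2) (fun o => Psi (Yl o))) {c η : ℤ} (hη : η = 1 ∨ η = -1)
    {w w' : Wm n k} (h : pureL Yl c η w = pureL Yl c η w') : w = w' := by
  have h1 := aw_indep Yl hΨ (fun τ => (w τ.1 τ.2 - w' τ.1 τ.2) * pureE n c η τ) (by
    simp only [sub_mul, sub_smul, sum_sub_distrib]
    exact sub_eq_zero.2 h)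
  funext o s
  have h2 := congrFun h1 (o, s)
  exact sub_eq_zero.1 ((mul_eq_zero.1 h2).resolve_right (pure_E_ne hη _))

lemma pure_L_single (Yl : Option (Fin k) → El n k) (c η : ℤ) (o : Option (Fin k)) (s : ZMod 2)
    (z : OO n) : pureL Yl c η (Pi.single o (Pi.single s z)) =
      (z * pureE n c η (o, s)) • aw ⟨0, s⟩ (Yl o).w := by
  unfold pureL
  rw [sum_eq_single (o, s)]
  · simp
  · rintro ⟨o', s'⟩ _ hne
    by_cases ho : o' = o
    · subst ho
      have hs : s' ≠ s := fun h => hne (by rw [h])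
      simp [Pi.single_eq_of_ne hs]
    · simp [Pi.single_eq_of_ne ho]
  · simp

lemma pure_act_dl (g : Dh) : act g (dl : Lm n) = Pi.single g.b (tt n g.a) := by
  funext s
  rcases z2_cases g.b with h | h <;> rcases z2_cases s with rfl | rfl <;>
    simp [act_apply, dl, h, z2_one_add_one]

lemma pure_aw_single (g : Dh) (o : Option (Fin k)) (f : Lm n) :
    aw g (Pi.single o f : Wm n k) = Pi.single o (act g f) := by
  funext o'
  by_cases h : o' = o
  · subst h; simp [aw_apply]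
  · simp [aw_apply, Pi.single_eq_of_ne h]

lemma pure_iot_some (σ : ZMod 2) (i : Fin k) (s : ZMod 2) (z : OO n) :
    iot σ (Pi.single (some i) (Pi.single s z) : Wm n k) =
      Pi.single (some i) (Pi.single s ((sgz σ : ℤ) * z)) := by
  funext o s'
  rcases o with _ | j
  · simp [iot_none]
  · rw [iot_some]
    by_cases h : j = i
    · subst h
      by_cases hs : s' = s
      · subst hs; simp
      · simp [Pi.single_eq_of_ne hs]
    · have h' : some j ≠ some i := by simpa using h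
      simp [Pi.single_eq_of_ne h']

lemma pure_iot_none (σ s : ZMod 2) (z : OO n) :
    iot σ (Pi.single none (Pi.single s z) : Wm n k) = Pi.single none (Pi.single (σ + s) z) := by
  funext o s'
  rcases o with _ | j
  · rcases z2_cases σ with rfl | rfl <;> rcases z2_cases s with rfl | rfl <;>
      rcases z2_cases s' with rfl | rfl <;> simp [iot_none, kap_apply, z2_one_add_one]
  · simp [iot_some]

lemma pure_tog {Yl : Option (Fin k) → El n k} (c η : ℤ) {i : Fin k}
    (hi : gm (Yl (some i)).w = 0) (g : Dh) (σ : ZMod 2) :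
    pureL Yl c η (iot σ (aw g (Pi.single (some i) dl))) = iot σ (aw g (Yl (some i)).w) := by
  rw [pure_aw_single, pure_act_dl, pure_iot_some, pure_L_single, iot_aw]
  obtain ⟨a, b⟩ := g
  rw [aw_mk a b]
  rcases z2_cases σ with rfl | rfl
  · simp [pureE]
  · simp [pureE, iot_one_of_gm hi]

lemma pure_lamp {Yl : Option (Fin k) → El n k} {c η : ℤ} (hη : η = 1 ∨ η = -1)
    (hw : iot 1 (Yl none).w = ((η : OO n) * (tt n c * tt n c)) • aw ⟨0, 1⟩ (Yl none).w)
    (g : Dh) (σ : ZMod 2) : ∃ θ : ℤ, (θ = 1 ∨ θ = -1) ∧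
      pureL Yl c η (iot σ (aw g (Pi.single none (tt n c • dl)))) =
        (θ : OO n) • iot σ (aw g (Yl none).w) := by
  have h2 : iot 1 (aw ⟨0, 1⟩ (Yl none).w) =
      ((η : OO n) * (tt n (-c) * tt n (-c))) • (Yl none).w := by
    have h3 : (⟨0, 1⟩ : Dh) * ⟨0, 1⟩ = 1 := by ext1 <;> simp [z2_one_add_one]
    rw [iot_aw, hw, aw_smul, ← aw_mul, h3, aw_one]
    simp [bar_tt]
  have h4 : (tt n c • Pi.single g.b (tt n g.a) : Lm n) = Pi.single g.b (tt n c * tt n g.a) := by
    rw [← smul_eq_mul, Pi.single_smul]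
  have h5 : (tt n (-c) • Pi.single g.b (tt n g.a) : Lm n) =
      Pi.single g.b (tt n (-c) * tt n g.a) := by
    rw [← smul_eq_mul, Pi.single_smul]
  have hc := tt_mul_neg (n := n) c
  have hη2 : (η : OO n) * η = 1 := by rcases hη with rfl | rfl <;> simp
  rw [pure_aw_single, act_smul, pure_act_dl, bar_tt]
  obtain ⟨a, b⟩ := g
  rw [aw_mk a b]
  rcases z2_cases b with rfl | rfl
  · refine ⟨1, Or.inl rfl, ?_⟩
    rw [sgz_zero, one_mul, h4, pure_iot_none, pure_L_single, Dh.mk_zero, aw_one, map_smul]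
    rcases z2_cases σ with rfl | rfl
    · simp only [pureE, Option.elim, add_zero, if_true, Dh.mk_zero, aw_one, iot_zero, smul_smul]
      congr 1
      push_cast
      linear_combination tt n a * hc
    · simp only [pureE, Option.elim, add_zero, one_ne_zero, if_false, hw, smul_smul]
      congr 1
      push_cast
      ring
  · refine ⟨η, hη, ?_⟩
    rw [sgz_one, neg_one_mul, h5, pure_iot_none, pure_L_single, map_smul]
    rcases z2_cases σ with rfl | rfl
    · simp only [pureE, Option.elim, zero_add, one_ne_zero, if_false, iot_zero, smul_smul]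
      congr 1
      linear_combination (η : OO n) * tt n a * hc
    · simp only [pureE, Option.elim, z2_one_add_one, if_true, Dh.mk_zero, aw_one, h2, smul_smul]
      congr 1
      linear_combination (-(tt n a * tt n (-c) * tt n (-c))) * hη2

theorem pure_le {S : Finset (El n k)} {Yl : Option (Fin k) → El n k} (hZ : Z1 S Yl)
    {a : ℤ} {ε : ZMod 2} (hs : (Yl none).s = 0) (hP : Psi (Yl none) none = 1)
    (hw : aw ⟨a, 1⟩ (Yl none).w = -(sgz ε • iot 1 (Yl none).w))
    (ht : ∀ i, (Yl (some i)).s = 1 ∧ gm (Yl (some i)).w = 0) :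
    ∃ c : ℤ, ∀ r, (ball (gens n k c) r).ncard ≤ (ball S r).ncard := by
  classical
  obtain ⟨η, hη, hw1⟩ : ∃ η : ℤ, (η = 1 ∨ η = -1) ∧
      aw ⟨a, 1⟩ (Yl none).w = (η : OO n) • iot 1 (Yl none).w := by
    rcases z2_cases ε with rfl | rfl
    · exact ⟨-1, Or.inr rfl, by simpa using hw⟩
    · exact ⟨1, Or.inl rfl, by simpa using hw⟩
  have hη2 : (η : OO n) * η = 1 := by rcases hη with rfl | rfl <;> simp
  obtain ⟨c, rfl⟩ : ∃ c : ℤ, a = c + c := by
    have h1 : ∀ s, tt n a * star ((Yl none).w none (s + 1)) =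
        (η : OO n) * (Yl none).w none (s + 1) := fun s => by
      have := congrFun (congrFun hw1 none) s
      simpa [aw_apply, act_apply, bar_one, iot_none, kap_apply] using this
    have h2 : aug ((Yl none).w none 0) + aug ((Yl none).w none 1) = 1 := hP
    rcases z2_cases (aug ((Yl none).w none 0)) with h3 | h3
    · rw [h3, zero_add] at h2
      exact pure_even hη h2 (by simpa using h1 0)
    · exact pure_even hη h3 (by simpa [z2_one_add_one] using h1 1)
  have hw2 : iot 1 (Yl none).w = ((η : OO n) * (tt n c * tt n c)) • aw ⟨0, 1⟩ (Yl none).w := by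
    rw [mul_smul, ← tt_add, ← aw_mk, hw1, smul_smul, hη2, one_smul]
  refine ⟨c, fun r => ?_⟩
  set Φ : El n k → El n k := fun h => ⟨pureL Yl c η h.w, h.g, h.s⟩ with hΦ
  have hmv : ∀ (g : Dh) (h : El n k), Φ (h * mv g) = Φ h * mv g := fun g h => by
    ext1 <;> simp [hΦ, mul_w, mv]
  have hgen : ∀ x ∈ gens n k c, ∀ h, ∃ x' ∈ ball S 1, Φ (h * x) = Φ h * x' := by
    intro x hx h
    simp only [gens, mem_insert, mem_image, mem_univ, true_and] at hx
    rcases hx with rfl | rfl | rfl | ⟨i, rfl⟩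
    · exact ⟨_, hZ.h0, hmv _ _⟩
    · exact ⟨_, hZ.h1, hmv _ _⟩
    · obtain ⟨θ, hθ, h1⟩ := pure_lamp hη hw2 h.g h.s
      rcases hθ with rfl | rfl
      · refine ⟨_, hZ.hY none, ?_⟩
        ext1
        · simp only [hΦ, mul_w, lamp, mm, pure_L_add, h1]
          simp
        · simp [hΦ, lamp, mm, hZ.hg]
        · simp [hΦ, lamp, mm, hs]
      · refine ⟨_, inv_mem_ball (hZ.hY none), ?_⟩
        ext1
        · simp only [hΦ, mul_w, lamp, mm, pure_L_add, h1, inv_w, hs, hZ.hg]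
          simp
        · simp [hΦ, lamp, mm, hZ.hg]
        · simp [hΦ, lamp, mm, hs]
    · refine ⟨_, hZ.hY (some i), ?_⟩
      ext1
      · simp only [hΦ, mul_w, tog, pure_L_add, pure_tog c η (ht i).2]
      · simp [hΦ, tog, hZ.hg]
      · simp [hΦ, tog, (ht i).1]
  have hmap : ∀ r h, h ∈ ball (gens n k c) r → Φ h ∈ ball S r := by
    refine ball_induction (fun r h => Φ h ∈ ball S r) ?_ ?_ ?_
    · have : Φ 1 = 1 := by ext1 <;> simp [hΦ, pure_L_zero]
      rw [this]
      exact one_mem_ball S 0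
    · exact fun r g hg => ball_mono S (Nat.le_succ r) hg
    · rintro r g x hg (hx | hx)
      · obtain ⟨x', hx', h1⟩ := hgen x hx g
        rw [h1]
        exact mul_mem_ball hg hx'
      · obtain ⟨x', hx', h1⟩ := hgen _ hx (g * x)
        rw [mul_inv_cancel_right] at h1
        have h2 : Φ (g * x) = Φ g * x'⁻¹ := by rw [h1, mul_inv_cancel_right]
        rw [h2]
        exact mul_mem_ball hg (inv_mem_ball hx')
  refine Set.ncard_le_ncard_of_injOn Φ (hmap r) (fun h _ h' _ hh => ?_) (ball_finite S r)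
  ext1
  · exact pure_L_inj hZ.hPsi hη (congrArg El.w hh)
  · exact (congrArg El.g hh :)
  · exact (congrArg El.s hh :)

end Pool.Agent.MP_646035_al.PC
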