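import Pool.Agent.MP_646035_al.PC.W

/-!
The digit model.  Nodes form an abelian group `Q` with two directions `e 0`, `e 1`.  The edge
`(p, j)` joins `p` and `p + e j` and carries a height; a node carries the digits of an even site,
of an odd site and two lamps.  Carries propagate along `e 1 - e 0`.
-/

namespace Pool.Agent.MP_646035_al.PC

open Finset PT

/-- Digit types: `(some i, 0)` even site, `(some i, 1)` odd site, `(none, φ)` lamps. -/
abbrev Dg (k : ℕ) : Type := Option (Fin k) × ZMod 2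

/-- Edges. -/
abbrev Ed (Q : Type) : Type := Q × Fin 2

/-- Heights and digits. -/
abbrev Cf (Q : Type) (k : ℕ) : Type := (Ed Q → ℤ) × (Q → Dg k → ℤ)

/-- Patterns on the four edges at a node. -/
abbrev Pat : Type := Fin 4 → ZMod 2

/-- The even patterns. -/
def Ev : Finset Pat := univ.filter fun A => ∑ i, A i = 0

/-- The patterns that join the two sites of a node. -/
def IsCross (A : Pat) : Prop := A 0 + A 1 = 1

instance : DecidablePred IsCross := fun A => inferInstanceAs (Decidable (A 0 + A 1 = 1))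

/-- The character of a pattern. -/
noncomputable def ch (A σ : Pat) : ℝ := sg (∑ i, A i * σ i)

/-- The number of extra round trips forced by a height. -/
def rho (h : ℤ) : ℕ := (max (h - 1) (-h)).toNat

/-- The height with sign `σ` and excess `r`. -/
def hgt (σ : ZMod 2) (r : ℕ) : ℤ := if σ = 0 then -(r : ℤ) else 1 + r

variable {k : ℕ}

/-- The digit vectors of a node. -/
noncomputable def dbox (k B : ℕ) : Finset (Dg k → ℤ) := Fintype.piFinset fun _ => bx B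

/-- The digits are bounded and the charges of the two sites are the differences of heights. -/
def Okn (B : ℕ) (h : Fin 4 → ℤ) (y : Dg k → ℤ) : Prop :=
  (∀ d, |y d| ≤ B) ∧ ∑ i, y (some i, 0) = h 1 - h 0 ∧ ∑ i, y (some i, 1) = h 3 - h 2

/-- Both sites are quiet, their lanes differ and the other lamp is lit. -/
def Hard (h : Fin 4 → ℤ) (y : Dg k → ℤ) : Prop :=
  (∀ i s, y (some i, s) = 0) ∧
    ((h 0 = 0 ∧ h 2 = 1 ∧ y (none, 1) ≠ 0) ∨ (h 0 = 1 ∧ h 2 = 0 ∧ y (none, 0) ≠ 0))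

open Classical in
/-- The cost of a node. -/
noncomputable def nc (h : Fin 4 → ℤ) (y : Dg k → ℤ) : ℕ :=
  szJ univ y + if Hard h y then 2 else 0

open Classical in
/-- The weight of a node with given heights. -/
noncomputable def FF (k B : ℕ) (x : ℝ) (h : Fin 4 → ℤ) : ℝ :=
  ∑ y ∈ dbox k B, if Okn B h y then x ^ nc h y else 0

/-- The Fourier coefficients of the weight of a node in the signs of the heights. -/
noncomputable def fc (k B : ℕ) (x : ℝ) (A : Pat) (r : Fin 4 → ℕ) : ℝ :=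
  (∑ σ : Pat, FF k B x (fun i => hgt (σ i) (r i)) * ch A σ) / 16

/-- The mean weight of a node. -/
noncomputable def Nb (k B : ℕ) (x : ℝ) : ℝ := fc k B x 0 0

/-- The normalised coefficients. -/
noncomputable def ff (k B : ℕ) (x : ℝ) (A : Pat) : ℝ := fc k B x A 0 / Nb k B x

variable {Q : Type} [AddCommGroup Q] [DecidableEq Q]

/-- The direction of the carries. -/
def eT (e : Fin 2 → Q) : Q := e 1 - e 0

/-- The four edges at a node: left and right of the even site, left and right of the odd site. -/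
def slot (e : Fin 2 → Q) (q : Q) : Fin 4 → Ed Q := ![(q - e 1, 1), (q - e 0, 0), (q, 0), (q, 1)]

/-- The edges at the nodes of `X`. -/
def slots (e : Fin 2 → Q) (X : Finset Q) : Finset (Ed Q) :=
  X.biUnion fun q => univ.image (slot e q)

/-- The offset between a node and the cell that owns a digit. -/
def ownO (e : Fin 2 → Q) (d : Dg k) : Q := if d.1 ≠ none ∧ d.2 = 0 then e 0 else 0

/-- The change of the digits caused by the carries `κ`. -/
def carr (N : ℕ) (e : Fin 2 → Q) (κ : Q → Dg k → ℤ) : Q → Dg k → ℤ :=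
  fun q d => N * κ q d - κ (q - eT e) d - κ (q + eT e) d

/-- `κ` represents the move `δ` supported in the cells `V`. -/
def Rep (N : ℕ) (e : Fin 2 → Q) (V : Finset Q) (δ : Cf Q k) (κ : Q → Dg k → ℤ) : Prop :=
  (∀ a : Ed Q, a.1 ∉ V → δ.1 a = 0) ∧ (∀ q d, q - ownO e d ∉ V → κ q d = 0) ∧ δ.2 = carr N e κ

/-- The moves supported in the cells `V`. -/
def Mv (N : ℕ) (e : Fin 2 → Q) (V : Finset Q) : Set (Cf Q k) := {δ | ∃ κ, Rep N e V δ κ}

/-- The nodes whose cost depends on a move at the cell `y`. -/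
def str (e : Fin 2 → Q) (y : Q) : Finset Q :=
  {y, y + e 0, y + e 1, y + eT e, y - eT e, y + e 0 - eT e}

/-- The heights at a node. -/
def hs (e : Fin 2 → Q) (H : Ed Q → ℤ) (q : Q) : Fin 4 → ℤ := fun i => H (slot e q i)

/-- The configuration is admissible near `V`. -/
def Val (B : ℕ) (e : Fin 2 → Q) (V : Finset Q) (c : Cf Q k) : Prop :=
  (∀ p ∈ V, ∀ j, rho (c.1 (p, j)) ≤ B) ∧ ∀ q ∈ SS (str e) V, Okn B (hs e c.1 q) (c.2 q)

/-- The cost near `V`. -/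
noncomputable def Ec (e : Fin 2 → Q) (V : Finset Q) (c : Cf Q k) : ℕ :=
  ∑ a ∈ V ×ˢ (univ : Finset (Fin 2)), 2 * rho (c.1 a) +
    ∑ q ∈ SS (str e) V, nc (hs e c.1 q) (c.2 q)

/-- The admissible moves. -/
def Cl (N B : ℕ) (e : Fin 2 → Q) (V : Finset Q) (c : Cf Q k) : Set (Cf Q k) :=
  {δ | δ ∈ Mv N e V ∧ Val B e V (c + δ)}

open Classical in
/-- One over the number of optimal moves if `c` is optimal, else zero. -/
noncomputable def Gc (N B : ℕ) (e : Fin 2 → Q) (V : Finset Q) (c : Cf Q k) : ℝ :=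
  if ∀ δ ∈ Cl N B e V c, Ec e V c ≤ Ec e V (c + δ) then
    1 / ({δ ∈ Cl N B e V c | Ec e V (c + δ) = Ec e V c}.ncard : ℝ)
  else 0

/-- The Moebius transform of `Gc`. -/
noncomputable def Kc (N B : ℕ) (e : Fin 2 → Q) (Y : Finset Q) (c : Cf Q k) : ℝ :=
  ∑ V ∈ Y.powerset, (-1) ^ (Y \ V).card * Gc N B e V c

/-- The additive part of the cost. -/
def mass (e : Fin 2 → Q) (Y : Finset Q) (c : Cf Q k) : ℕ :=
  ∑ a ∈ Y ×ˢ (univ : Finset (Fin 2)), 2 * rho (c.1 a) + ∑ q ∈ SS (str e) Y, szJ univ (c.2 q)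

/-- The cell `p` takes part in the move. -/
def Actv (e : Fin 2 → Q) (δ : Cf Q k) (κ : Q → Dg k → ℤ) (p : Q) : Prop :=
  (∃ j, δ.1 (p, j) ≠ 0) ∨ ∃ d, κ (p + ownO e d) d ≠ 0

/-- The size of the digits owned by the cell `p`. -/
def oc (e : Fin 2 → Q) (c : Cf Q k) (p : Q) : ℕ := ∑ d, (c.2 (p + ownO e d) d).natAbs

/-- The additive cost of a run of cells. -/
noncomputable def ac (e : Fin 2 → Q) (V : Finset Q) (c : Cf Q k) (y : Q) (a b : ℕ) : ℕ :=
  ∑ j ∈ Icc (-(a : ℤ) - 1) (b + 1), oc e c (y + j • eT e) +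
    ∑ j ∈ Icc (-(a : ℤ)) b, if y + j • eT e ∈ V then ∑ i, 2 * rho (c.1 (y + j • eT e, i)) else 0

/-- A run of cells of a move, separated from the rest of its line by two inactive cells. -/
structure Run (e : Fin 2 → Q) (δ : Cf Q k) (κ : Q → Dg k → ℤ) (y : Q) (a b : ℕ) : Prop where
  l1 : ¬ Actv e δ κ (y + (-(a : ℤ) - 1) • eT e)
  l2 : ¬ Actv e δ κ (y + (-(a : ℤ) - 2) • eT e)
  r1 : ¬ Actv e δ κ (y + ((b : ℤ) + 1) • eT e)
  r2 : ¬ Actv e δ κ (y + ((b : ℤ) + 2) • eT e)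
  la : Actv e δ κ (y + (-(a : ℤ)) • eT e)
  ra : Actv e δ κ (y + (b : ℤ) • eT e)
  mid : ∀ j : ℤ, -(a : ℤ) ≤ j → j < b →
    Actv e δ κ (y + j • eT e) ∨ Actv e δ κ (y + (j + 1) • eT e)

/-- A height function along the carry direction. -/
def DirT (e : Fin 2 → Q) : Prop := ∃ ht : Q →+ ℤ, ht (eT e) = 1

/-- The heights with signs `σ` and excesses `r`. -/
def Hf (σ : Ed Q → ZMod 2) (r : Ed Q → ℕ) : Ed Q → ℤ := fun a => hgt (σ a) (r a)

open Classical in
/-- The admissible configurations of the finite system with cells `V`. -/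
noncomputable def cfg (k B : ℕ) (e : Fin 2 → Q) (V : Finset Q) : Finset (Cf Q k) :=
  (((asg 0 (slots e (SS (str e) V)) univ ×ˢ asg 0 (V ×ˢ univ) (range (B + 1))).image
      fun t => Hf t.1 t.2) ×ˢ asg 0 (SS (str e) V) (dbox k B)).filter (Val B e V)

/-- The partition function. -/
noncomputable def ZZ (N k B : ℕ) (e : Fin 2 → Q) (x : ℝ) (V : Finset Q) : ℝ :=
  ∑ c ∈ cfg k B e V, x ^ Ec e V c * Gc N B e V c

/-- The symmetry that reverses the heights on the edges with `τ = 1`. -/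
def flp (τ : Ed Q → ZMod 2) (c : Cf Q k) : Cf Q k :=
  (fun a => if τ a = 0 then c.1 a else 1 - c.1 a,
    fun q d => if τ (q, 0) = 0 then c.2 q d else
      if d.1 = none then c.2 q (none, d.2 + 1) else -c.2 q d)

/-- `τ` is constant on the four edges at each node of `X`. -/
def Flat (e : Fin 2 → Q) (X : Finset Q) (τ : Ed Q → ZMod 2) : Prop :=
  ∀ q ∈ X, ∀ i, τ (slot e q i) = τ (q, 0)

/-- Atoms of the first level: edges with excess and cells of moves. -/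
abbrev At1 (Q : Type) : Type := Ed Q ⊕ Q

/-- The nodes touched by an atom of the first level. -/
def s1 (e : Fin 2 → Q) : At1 Q → Finset Q
  | .inl a => {a.1, a.1 + e a.2}
  | .inr y => str e y

/-- The atoms of the first level owned by `V`. -/
def at1 (V : Finset Q) : Finset (At1 Q) := (V ×ˢ (univ : Finset (Fin 2))).disjSum V

open Classical in
/-- The weight of the nodes near the cells `Y`, given the heights. -/
noncomputable def PhiK (N k B : ℕ) (e : Fin 2 → Q) (x : ℝ) (Y : Finset Q) (H : Ed Q → ℤ) : ℝ :=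
  ∑ y ∈ asg 0 (SS (str e) Y) (dbox k B),
    if ∀ q ∈ SS (str e) Y, Okn B (hs e H q) (y q) then
      x ^ (∑ q ∈ SS (str e) Y, nc (hs e H q) (y q)) * Kc N B e Y (H, y)
    else 0

/-- The weight of a set of atoms of the first level, given the signs. -/
noncomputable def Psw (N k B : ℕ) (e : Fin 2 → Q) (x : ℝ) (𝒳 : Finset (At1 Q))
    (σ : Ed Q → ZMod 2) : ℝ :=
  ∑ r ∈ asg 0 𝒳.toLeft (Icc 1 B), x ^ (∑ a ∈ 𝒳.toLeft, 2 * r a) *
    PhiK N k B e x 𝒳.toRight (Hf σ r) *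
      ∏ q ∈ SS (s1 e) 𝒳 \ SS (str e) 𝒳.toRight, FF k B x (hs e (Hf σ r) q)

/-- The character of a family of patterns. -/
noncomputable def chX (e : Fin 2 → Q) (X : Finset Q) (A : Q → Pat) (σ : Ed Q → ZMod 2) : ℝ :=
  ∏ q ∈ X, ch (A q) fun i => σ (slot e q i)

open Classical in
/-- The number of flat sign changes. -/
noncomputable def nfl (e : Fin 2 → Q) (X : Finset Q) : ℕ :=
  ((asg 0 (slots e X) (univ : Finset (ZMod 2))).filter (Flat e X)).card

/-- The coefficients of `PhiK` in the characters of families of even patterns. -/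
noncomputable def psiK (N k B : ℕ) (e : Fin 2 → Q) (x : ℝ) (Y : Finset Q) (r : Ed Q → ℕ)
    (A : Q → Pat) : ℝ :=
  (∑ σ ∈ asg 0 (slots e (SS (str e) Y)) univ,
    PhiK N k B e x Y (Hf σ r) * chX e (SS (str e) Y) A σ) /
      (8 ^ (SS (str e) Y).card * nfl e (SS (str e) Y))

/-- The coefficients of `Psw`, relative to those of the plain nodes. -/
noncomputable def psr (N k B : ℕ) (e : Fin 2 → Q) (x : ℝ) (𝒳 : Finset (At1 Q))
    (A : Q → Pat) : ℝ :=
  (∑ r ∈ asg 0 𝒳.toLeft (Icc 1 B), x ^ (∑ a ∈ 𝒳.toLeft, 2 * r a) *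
    psiK N k B e x 𝒳.toRight r A *
      ∏ q ∈ SS (s1 e) 𝒳 \ SS (str e) 𝒳.toRight, fc k B x (A q) fun i => r (slot e q i)) /
    ∏ q ∈ SS (s1 e) 𝒳, fc k B x (A q) 0

/-- Maps of edges and of atoms of the first level. -/
def map1 {Q' : Type} (π : Q' → Q) : At1 Q' → At1 Q := Sum.map (Prod.map π id) π

/-- A node and the owners of its edges. -/
def tr3 (e : Fin 2 → Q) (q : Q) : Finset Q := {q, q - e 0, q - e 1}

end Pool.Agent.MP_646035_al.PC

/-!
The polymer system: blobs, ghosts and bonds; the plane and the helix; lifts of group elements.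
-/

namespace Pool.Agent.MP_646035_al.PC

open Finset PT

variable {Q : Type} [AddCommGroup Q] [DecidableEq Q]

/-- Blobs, ghosts and bonds. -/
abbrev Atm (Q : Type) : Type := Finset (At1 Q) ⊕ Finset (At1 Q) ⊕ Ed Q

/-- Supports of atoms.  Layer `0`: bonds, layer `1`: exclusion, layer `2`: marks moves. -/
def asp (e : Fin 2 → Q) : Atm Q → Finset (Q × Fin 3)
  | .inl 𝒳 => SS (s1 e) 𝒳 ×ˢ if 𝒳.toRight = ∅ then {0, 1} else univ
  | .inr (.inl 𝒳) => SS (s1 e) 𝒳 ×ˢ {1, 2}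
  | .inr (.inr a) => {(a.1, 0), (a.1 + e a.2, 0)}

/-- The pattern of a set of bonds at a node. -/
def pat (e : Fin 2 → Q) (D : Finset (Ed Q)) (q : Q) : Pat :=
  fun i => if slot e q i ∈ D then 1 else 0

/-- Every node is an end of an even number of bonds. -/
def Balc (e : Fin 2 → Q) (D : Finset (Ed Q)) : Prop := ∀ q, pat e D q ∈ Ev

/-- The ends of a set of bonds. -/
def ends (e : Fin 2 → Q) (D : Finset (Ed Q)) : Finset Q := D.biUnion fun a => {a.1, a.1 + e a.2}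

/-- The number of nodes where the bonds change from one site to the other. -/
def crs (e : Fin 2 → Q) (D : Finset (Ed Q)) : ℕ :=
  ((ends e D).filter fun q => IsCross (pat e D q)).card

/-- Numerical parameters of the expansion. -/
structure Nums where
  ηl : ℝ
  ηh : ℝ
  ξl : ℝ
  ξh : ℝ
  θE : ℝ
  θY : ℝ
  m1 : ℕ
  m2 : ℕ

/-- The conditions on the numerical parameters. -/
structure Nums.Ok (ν : Nums) : Prop where
  l0 : 0 < ν.ηl
  h0 : 0 < ν.ηh
  x0 : 0 < ν.ξl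
  e0 : 0 ≤ ν.θE
  y0 : 0 ≤ ν.θY
  m2 : 1 ≤ ν.m2
  h1 : ν.ηh * 2 ^ ν.m2 ≤ 1 / 10 ^ 5
  h2 : ν.ξh * 2 ^ ν.m1 ≤ ν.ηh
  h3 : ν.θE * 2 ^ ν.m1 * 2 ^ (28 * ν.m2) ≤ 1 / 10 ^ 40
  h4 : ν.θY * 4 ^ ν.m1 * 2 ^ (28 * ν.m2) ≤ 1 / 10 ^ 40
  h5 : 3 ≤ ν.ηl * 4 ^ ν.m2
  h6 : 12 * ν.ηl ≤ ν.ξl * 4 ^ ν.m1

/-- The weight of a ghost. -/
noncomputable def Th (ν : Nums) (𝒳 : Finset (At1 Q)) : ℝ :=
  if 𝒳.toRight = ∅ then 0 else ν.θE ^ 𝒳.toLeft.card * ν.θY ^ 𝒳.toRight.card

/-- The bounds on the coefficients of the plain nodes. -/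
structure FB (ν : Nums) (f : Pat → ℝ) : Prop where
  f0 : f 0 = 1
  a : ν.ηl ≤ f ![1, 1, 0, 0] ∧ f ![1, 1, 0, 0] ≤ ν.ηh
  b : ν.ηl ≤ f ![0, 0, 1, 1] ∧ f ![0, 0, 1, 1] ≤ ν.ηh
  ab : 0 < f ![1, 1, 1, 1] ∧ f ![1, 1, 1, 1] ≤ ν.ηh ^ 2
  cr : ∀ A ∈ Ev, IsCross A → ν.ξl ≤ f A ∧ f A ≤ ν.ξh

/-- The bounds on the coefficients of the blobs. -/
structure QB (ν : Nums) (e : Fin 2 → Q) (ψ : Finset (At1 Q) → (Q → Pat) → ℝ) : Prop where
  loc : ∀ 𝒳 A A', (∀ q ∈ SS (s1 e) 𝒳, A q = A' q) → ψ 𝒳 A = ψ 𝒳 A'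
  pure : ∀ 𝒳 A, 𝒳.toRight = ∅ → (∀ q, A q ∈ Ev) → 0 ≤ ψ 𝒳 A ∧ ψ 𝒳 A ≤ ν.θE ^ 𝒳.card
  mix : ∀ 𝒳 A, 𝒳.toRight ≠ ∅ → (∀ q, A q ∈ Ev) → |ψ 𝒳 A| ≤ Th ν 𝒳

open Classical in
/-- The weight of a set of atoms. -/
noncomputable def wgt (ν : Nums) (e : Fin 2 → Q) (f : Pat → ℝ)
    (ψ : Finset (At1 Q) → (Q → Pat) → ℝ) (C : Finset (Atm Q)) : ℝ :=
  if Compat (SS (s1 e)) C.toLeft ∧ Compat (SS (s1 e)) C.toRight.toLeft ∧
      (∀ X ∈ C.toLeft, ∀ X' ∈ C.toRight.toLeft, Disjoint (SS (s1 e) X) (SS (s1 e) X')) ∧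
      Balc e C.toRight.toRight then
    (∏ X ∈ C.toLeft, (ψ X (pat e C.toRight.toRight) + Th ν X)) *
      (∏ X ∈ C.toRight.toLeft, -Th ν X) *
      ∏ q ∈ ends e C.toRight.toRight, f (pat e C.toRight.toRight q)
  else 0

/-- The bonds with both ends in `Λ`. -/
def bonds (e : Fin 2 → Q) (Λ : Finset Q) : Finset (Ed Q) :=
  (Λ ×ˢ (univ : Finset (Fin 2))).filter fun a => a.1 + e a.2 ∈ Λ

/-- The atoms of the finite system with cells `V`. -/
noncomputable def atms (e : Fin 2 → Q) (V : Finset Q) : Finset (Atm Q) :=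
  (conns (s1 e) (at1 V)).disjSum ((conns (s1 e) (at1 V)).disjSum (bonds e (SS (str e) V)))

/-- Blobs and ghosts are connected. -/
def VAtm (e : Fin 2 → Q) : Atm Q → Prop
  | .inl X => Conn (s1 e) X
  | .inr (.inl X) => Conn (s1 e) X
  | .inr (.inr _) => True

/-- Polymers: connected sets of valid atoms. -/
def Vld (e : Fin 2 → Q) (C : Finset (Atm Q)) : Prop := Conn (asp e) C ∧ ∀ α ∈ C, VAtm e α

/-- The nodes below the support of `C`. -/
def nds (e : Fin 2 → Q) (C : Finset (Atm Q)) : Finset Q := (SS (asp e) C).image Prod.fst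

/-- The polymers all of whose points lie over `A`. -/
noncomputable def pls (e : Fin 2 → Q) (A : Finset Q) : Finset (Finset (Atm Q)) :=
  above (SS (asp e)) Prod.fst (conns (asp e) (atms e A)) A

/-- The size of an atom. -/
def asz' : Atm Q → ℕ
  | .inl X => if X.toRight = ∅ then 2 * X.card else 28 * X.card
  | .inr (.inl X) => 28 * X.card
  | .inr (.inr _) => 1

/-- The order of an atom. -/
def aor : Atm Q → ℕ
  | .inl X => if X.toRight = ∅ then X.card else 2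
  | .inr (.inl _) => 2
  | .inr (.inr _) => 0

/-- The order of a set of atoms. -/
def ord (e : Fin 2 → Q) (C : Finset (Atm Q)) : ℕ := crs e C.toRight.toRight + ∑ α ∈ C, aor α

/-- Maps of atoms. -/
def mapA {Q' : Type} (π : Q' → Q) : Atm Q' → Atm Q :=
  Sum.map (image (map1 π)) (Sum.map (image (map1 π)) (Prod.map π id))

/-- Maps of polymers. -/
def mapP {Q' : Type} (π : Q' → Q) (C : Finset (Atm Q')) : Finset (Atm Q) := C.image (mapA π)

/-- The nodes on which the weight at a point depends. -/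
def ph (e : Fin 2 → Q) (t : Q × Fin 3) : Finset Q := if t.2 = 2 then tr3 e t.1 else {t.1}

/-- The coefficients of the blobs are compatible with the map `π`. -/
def QMap {Q' : Type} [AddCommGroup Q'] [DecidableEq Q'] (e' : Fin 2 → Q')
    (ψ' : Finset (At1 Q') → (Q' → Pat) → ℝ) (ψ : Finset (At1 Q) → (Q → Pat) → ℝ)
    (π : Q' → Q) : Prop :=
  ∀ (𝒳 : Finset (At1 Q')) (A : Q → Pat),
    Set.InjOn π ((asp e' (.inl 𝒳)).biUnion (ph e') : Finset Q') →
      ψ (𝒳.image (map1 π)) A = ψ' 𝒳 fun q => A (π q)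

/-- The directions of the helix with offset `c`. -/
def eH (c : ℤ) : Fin 2 → ℤ
  | 0 => 2 * c
  | 1 => 2 * c + 1

@[simp] lemma eH_zero (c : ℤ) : eH c 0 = 2 * c := rfl
@[simp] lemma eH_one (c : ℤ) : eH c 1 = 2 * c + 1 := rfl
@[simp] lemma eT_eH (c : ℤ) : eT (eH c) = 1 := by simp [eT]

lemma dirT_eH (c : ℤ) : DirT (eH c) := ⟨AddMonoidHom.id ℤ, by simp⟩

lemma dirT_eP : DirT eP := ⟨AddMonoidHom.snd ℤ ℤ, by simp [eT]⟩

/-- The covering of the helix by the plane. -/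
def prH (c s : ℤ) (v : ℤ × ℤ) : ℤ := 2 * c * v.1 + (2 * c + 1) * v.2 + s

lemma mor_prH (c s : ℤ) : Mor eP (eH c) (prH c s) := by
  intro p j
  fin_cases j <;> simp [prH] <;> ring

/-- The length of the shortest closed loop around the helix. -/
def n0 (c : ℤ) : ℕ := (4 * c + 1).natAbs

/-- Width plus height of the nodes on which the weights depend. -/
def lenP (A : Finset ((ℤ × ℤ) × Fin 3)) : ℕ :=
  diam ((A.biUnion (ph eP)).image Prod.fst) + diam ((A.biUnion (ph eP)).image Prod.snd)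

/-- The weighted length. -/
def lenW (ν : Nums) (A : Finset ((ℤ × ℤ) × Fin 3)) : ℕ :=
  ν.m1 * min (lenP A) 2 + 2 * ν.m2 * lenP A

/-- Polymers of the helix that are images of small polymers of the plane. -/
def Sml (c : ℤ) (C : Finset (Atm ℤ)) : Prop :=
  ∃ C', Vld eP C' ∧ lenP (SS (asp eP) C') < n0 c ∧ mapP (prH c 0) C' = C

open Classical in
/-- The small polymers over `A`. -/
noncomputable def spls (c : ℤ) (A : Finset ℤ) : Finset (Finset (Atm ℤ)) :=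
  (pls (eH c) A).filter (Sml c)

/-- The edge of the helix between the sites `m` and `m + 1`. -/
def edg (c m : ℤ) : Ed ℤ := (m / 2 - c, if m % 2 = 0 then 0 else 1)

/-- The bonds between the two sites of the node `i`. -/
noncomputable def cyE (c i : ℤ) : Finset (Ed ℤ) :=
  (Ico (min (2 * (i - c)) (2 * (i + c) + 1)) (max (2 * (i - c)) (2 * (i + c) + 1))).image (edg c)

/-- The shortest loops around the helix. -/
noncomputable def cyP (c i : ℤ) : Finset (Atm ℤ) := (cyE c i).image fun a => .inr (.inr a)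

/-- The data of a comparison of the helix with offset `c` with the plane. -/
structure Cmp (ν : Nums) (f : Pat → ℝ) (ψP : Finset (At1 (ℤ × ℤ)) → (ℤ × ℤ → Pat) → ℝ) (c : ℤ)
    (ψ : Finset (At1 ℤ) → (ℤ → Pat) → ℝ) : Prop where
  ok : ν.Ok
  fb : FB ν f
  qP : QB ν eP ψP
  qH : QB ν (eH c) ψ
  mp : ∀ s, QMap eP ψP ψ (prH c s)
  ne : c ≠ 0

/-- The logarithm of the partition function of a set of polymers. -/
noncomputable def lX (ν : Nums) (e : Fin 2 → Q) (f : Pat → ℝ)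
    (ψ : Finset (At1 Q) → (Q → Pat) → ℝ) (U : Finset (Finset (Atm Q))) : ℝ :=
  Real.log (Xi (SS (asp e)) (wgt ν e f ψ) U)

/-- The numerical parameters used for the group. -/
noncomputable def numsOf (k : ℕ) (u : ℝ) (m1 m2 : ℕ) : Nums where
  ηl := 1 / (100 * (k * u ^ 4))
  ηh := 2 / (k * u ^ 4)
  ξl := u ^ 12 / 2
  ξh := 4 * u ^ 12
  θE := 3 * 10 ^ 9 * u ^ 8 * (k * u ^ 4) ^ 4
  θY := u ^ 16
  m1 := m1
  m2 := m2

/-! ### Lifts of group elements -/

variable {n k : ℕ}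

/-- The position of the digits of a node of the helix. -/
def off (c : ℤ) (d : Dg k) : ℤ := if d.1 = none then 0 else if d.2 = 0 then -c else c

/-- The value of the digits `Y` at the positions in `S`. -/
def valW (n : ℕ) (S : Finset ℤ) (Y : Dg k → ℤ → ℤ) : Wm n k :=
  fun o s => ∑ a ∈ S, Y (o, s) a • tt n a

/-- The value of the digits at the nodes `Λ` of the helix. -/
def valN (n : ℕ) (c : ℤ) (Λ : Finset ℤ) (y : ℤ → Dg k → ℤ) : Wm n k :=
  fun o s => ∑ q ∈ Λ, y q (o, s) • tt n (q + off c ((o, s) : Dg k))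

/-- The toggle digits at the site `m`. -/
def ud (Y : Dg k → ℤ → ℤ) (m : ℤ) (i : Fin k) : ℤ := Y (some i, (m : ZMod 2)) (m / 2)

/-- The height of the edge between the sites `m` and `m + 1`. -/
noncomputable def hc (Y : Dg k → ℤ → ℤ) (lo m : ℤ) : ℤ := ∑ m' ∈ Icc lo m, ∑ i, ud Y m' i

/-- The heights at the node `β`. -/
def hN (c : ℤ) (H : ℤ → ℤ) (β : ℤ) : Fin 4 → ℤ :=
  ![H (2 * (β - c) - 1), H (2 * (β - c)), H (2 * (β + c)), H (2 * (β + c) + 1)]

/-- A lift of `h` whose cost is at most `r`. -/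
structure Lf (c : ℤ) (h : El n k) (r : ℕ) (lo hi : ℤ) (Y : Dg k → ℤ → ℤ) : Prop where
  lo0 : lo ≤ 0
  phi : site h.g ≤ hi
  su : ∀ i s a, Y (some i, s) a ≠ 0 → lo ≤ 2 * a + (s.val : ℤ) ∧ 2 * a + (s.val : ℤ) ≤ hi
  sl : ∀ φ β, Y (none, φ) β ≠ 0 → lo ≤ 2 * (β + |c|) + 1 ∧ 2 * (β - |c|) ≤ hi
  val : ∀ S : Finset ℤ, (∀ d a, Y d a ≠ 0 → a ∈ S) → h.w = valW n S Y
  cost : ∀ (S Hd : Finset ℤ),
    (∀ β ∈ Hd, 0 < 2 * (β - |c|) ∧ 2 * (β + |c|) + 1 < site h.g ∧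
      Hard (hN c (hc Y lo) β) fun d => Y d (β + off c d)) →
    site h.g + 2 * (-lo) + 2 * (hi - site h.g) +
      (∑ m ∈ Ico 0 (site h.g), 2 * rho (hc Y lo m) : ℕ) +
      (∑ a ∈ S, ∑ d, (Y d a).natAbs : ℕ) + 2 * (Hd.card : ℤ) ≤ r

/-- The element of the dihedral group at the site `m`. -/
def gs (m : ℤ) : Dh := ⟨m / 2, (m : ZMod 2)⟩

/-- The toggle digits `y` written at the site `m`. -/
def emU (n : ℕ) (m : ℤ) (y : Fin k → ℤ) : Wm n k :=
  aw (gs m) fun o => o.elim 0 fun i => y i • dl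

/-- The lamp that is lit at the site `m` in the lane `σ`. -/
def emL (n k : ℕ) (c m : ℤ) (σ : ZMod 2) : Wm n k := iot σ (aw (gs m) (lamp n k c).w)

/-- The value of the digits owned by the cells `-1, …, M`. -/
noncomputable def valS (n : ℕ) (c : ℤ) (M : ℕ) (y : ℤ → Dg k → ℤ) : Wm n k :=
  fun o s => ∑ p ∈ Icc (-1 : ℤ) M, y (p + ownO (eH c) ((o, s) : Dg k)) (o, s) •
    tt n (p + ownO (eH c) ((o, s) : Dg k) + off c ((o, s) : Dg k))

/-- The size of the other digits. -/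
noncomputable def spc (c : ℤ) (M : ℕ) (y : ℤ → Dg k → ℤ) : ℕ :=
  ∑ q ∈ SS (str (eH c)) (Ico 0 (M : ℤ)), ∑ d,
    if q - ownO (eH c) d ∈ Icc (-1 : ℤ) M then 0 else (y q d).natAbs

/-- The positions far outside the direct path. -/
noncomputable def farS (c p lo hi : ℤ) : Finset ℤ :=
  Icc (lo / 2 - |c| - 1) (-|c| - 2) ∪ Icc (p / 2 + |c| + 2) (hi / 2 + |c| + 1)

/-- The positions near the ends of the direct path. -/
noncomputable def band (c p : ℤ) : Finset ℤ :=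
  Icc (-|c| - 1) (6 * |c| + 3) ∪ Icc (p / 2 - 6 * |c| - 4) (p / 2 + |c| + 1)

/-- The number of cells of the finite system inside the direct path. -/
def inM (c p : ℤ) : ℕ := (p / 2 - 6 * |c| - 4).toNat

/-- The cells of the finite system inside the direct path. -/
noncomputable def inV (c : ℤ) (M : ℕ) : Finset ℤ := Ico (3 * |c| + 2) (3 * |c| + 2 + M)

/-- The record of a word: `R`, `L` count the crossings of the edge between `m` and `m + 1` to the
right and to the left in each lane, `tg` counts the toggles at a site, `Vis` is the set of the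
states (site, lane) that were visited, `T` contains all positions that occur. -/
structure Track (c : ℤ) (h : El n k) (r : ℕ) (T : Finset ℤ) (Y : Dg k → ℤ → ℤ)
    (R L : ℤ → ZMod 2 → ℕ) (tg : ℤ → ℕ) (Vis : Set (ℤ × ZMod 2)) : Prop where
  sY : ∀ d a, Y d a ≠ 0 → a ∈ T
  sR : ∀ m ∉ T, tg m = 0 ∧ ∀ σ, R m σ = 0 ∧ L m σ = 0
  val : h.w = valW n T Y
  cost : ∑ m ∈ T, (R m 0 + R m 1 + L m 0 + L m 1 + tg m) +
    ∑ β ∈ T, ∑ φ, (Y (none, φ) β).natAbs ≤ r
  tog : ∀ m, szJ univ (ud Y m) ≤ tg m ∧ (szJ univ (ud Y m) + tg m) % 2 = 0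
  flow : ∀ m, (R m 0 : ℤ) + R m 1 - L m 0 - L m 1 =
    (if m < site h.g then 1 else 0) - if m < 0 then 1 else 0
  chg : ∀ m, ∑ m' ∈ T with m' ≤ m, ∑ i, ud Y m' i =
    (R m 1 : ℤ) - L m 1 + if site h.g ≤ m then (h.s.val : ℤ) else 0
  cur : (site h.g, h.s) ∈ Vis
  vtg : ∀ m, tg m ≠ 0 → ∃ σ, (m, σ) ∈ Vis
  lmp : ∀ φ β, Y (none, φ) β ≠ 0 → (2 * (β - c), φ) ∈ Vis ∨ (2 * (β + c) + 1, φ + 1) ∈ Vis
  anc : ∀ m σ, (m, σ) ∈ Vis → ∃ m₀, (tg m₀ ≠ 0 ∨ (m₀ = 0 ∧ σ = 0)) ∧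
    ∀ j, min m₀ m ≤ j → j < max m₀ m → R j σ + L j σ ≠ 0
  con : ∀ m σ, (m, σ) ∈ Vis → ∀ j, min 0 m ≤ j → j < max 0 m →
    R j 0 + R j 1 + L j 0 + L j 1 ≠ 0

/-- The mean of the weights of a site over the signs of the two heights. -/
noncomputable def hA (B : ℕ) (x : ℝ) (k r r' : ℕ) : ℝ :=
  (WW B x k ((r' : ℤ) - r) + WW B x k (1 + r + r')) / 2

/-- The mean of the weights of a site times the product of the signs. -/
noncomputable def hB (B : ℕ) (x : ℝ) (k r r' : ℕ) : ℝ :=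
  (WW B x k ((r' : ℤ) - r) - WW B x k (1 + r + r')) / 2

/-- The coefficient that couples the two sites of a node. -/
noncomputable def dlt (B : ℕ) (x : ℝ) (r : Fin 4 → ℕ) : ℝ :=
  if r = 0 then gam B x * (gam B x - 1) * (1 - x ^ 2) / 8 else 0

/-- The trace is large. -/
def Big (k : ℕ) (u : ℝ) (N : ℕ) : Prop :=
  1000 ≤ N ∧ 2 * (2 ^ (2 * k + 4) / u ^ 12) ^ 6 ≤ u ^ 16 * 2 ^ (N / 120)

/-- The range of activities. -/
structure Rng (k : ℕ) (u y : ℝ) : Prop where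
  lo : u ^ 4 ≤ y
  hi : y ≤ 11 / 10 * u ^ 4
  blk : y * AA 2 y k ≤ 1

end Pool.Agent.MP_646035_al.PC

namespace Pool.Agent.MP_646035_al.PC

open Finset PT

variable {n k : ℕ} {Q : Type} [AddCommGroup Q] [DecidableEq Q] {e : Fin 2 → Q}

lemma mem_str {y q : Q} : q ∈ str e y ↔ q = y ∨ q = y + e 0 ∨ q = y + e 1 ∨ q = y + eT e ∨
    q = y - eT e ∨ q = y + e 0 - eT e := by
  simp only [str, mem_insert, mem_singleton]

lemma subset_str (V : Finset Q) : V ⊆ SS (str e) V := fun q hq =>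
  mem_SS.2 ⟨q, hq, mem_str.2 (.inl rfl)⟩

lemma card_str_le (V : Finset Q) : (SS (str e) V).card ≤ 6 * V.card := by
  rw [mul_comm]
  exact card_biUnion_le_card_mul _ _ _ fun j _ => card_le_six

lemma card_slots_le (X : Finset Q) : (slots e X).card ≤ 4 * X.card := by
  rw [mul_comm]
  exact card_biUnion_le_card_mul _ _ _ fun j _ => card_image_le.trans (by simp)

lemma slot_end (q : Q) (i : Fin 4) :
    (slot e q i).1 = q ∨ (slot e q i).1 + e (slot e q i).2 = q := by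
  fin_cases i <;> simp [slot]

lemma mem_str_of_slot {V : Finset Q} {q : Q} {i : Fin 4} (h : (slot e q i).1 ∈ V) :
    q ∈ SS (str e) V := by
  refine mem_SS.2 ⟨_, h, mem_str.2 ?_⟩
  fin_cases i <;> simp [slot]

lemma zero_mem_Mv (N : ℕ) (V : Finset Q) : (0 : Cf Q k) ∈ Mv N e V :=
  ⟨0, fun _ _ => rfl, fun _ _ _ => rfl, by funext q d; simp [carr]⟩

lemma Mv_add {N : ℕ} {V : Finset Q} {δ δ' : Cf Q k} (h : δ ∈ Mv N e V) (h' : δ' ∈ Mv N e V) :
    δ + δ' ∈ Mv N e V := by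
  obtain ⟨κ, h1, h2, h3⟩ := h
  obtain ⟨κ', h1', h2', h3'⟩ := h'
  refine ⟨κ + κ', fun a ha => ?_, fun q d hq => ?_, ?_⟩
  · simp [h1 a ha, h1' a ha]
  · simp [h2 q d hq, h2' q d hq]
  · funext q d
    simp only [Prod.snd_add, Pi.add_apply, h3, h3', carr]
    ring

lemma Mv_neg {N : ℕ} {V : Finset Q} {δ : Cf Q k} (h : δ ∈ Mv N e V) : -δ ∈ Mv N e V := by
  obtain ⟨κ, h1, h2, h3⟩ := h
  refine ⟨-κ, fun a ha => ?_, fun q d hq => ?_, ?_⟩
  · simp [h1 a ha]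
  · simp [h2 q d hq]
  · funext q d
    simp only [Prod.snd_neg, Pi.neg_apply, h3, carr]
    ring

lemma Mv_mono {N : ℕ} {V V' : Finset Q} (hV : V ⊆ V') {δ : Cf Q k} (h : δ ∈ Mv N e V) :
    δ ∈ Mv N e V' := by
  obtain ⟨κ, h1, h2, h3⟩ := h
  exact ⟨κ, fun a ha => h1 a fun h => ha (hV h), fun q d hq => h2 q d fun h => hq (hV h), h3⟩

lemma Mv_digit {N : ℕ} {V : Finset Q} {δ : Cf Q k} (h : δ ∈ Mv N e V) {q : Q}
    (hq : q ∉ SS (str e) V) : δ.2 q = 0 ∧ hs e δ.1 q = 0 := by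
  obtain ⟨κ, h1, h2, h3⟩ := h
  have key : ∀ y : Q, q ∈ str e y → y ∉ V := fun y hy hV => hq (mem_SS.2 ⟨y, hV, hy⟩)
  refine ⟨funext fun d => ?_, funext fun i => h1 _ fun h => hq (mem_str_of_slot h)⟩
  have a0 : κ q d = 0 := h2 q d (key _ (mem_str.2 (by
    unfold ownO; split_ifs <;> simp)))
  have a1 : κ (q - eT e) d = 0 := h2 _ d (key _ (mem_str.2 (by
    unfold ownO; split_ifs
    · exact .inr (.inr (.inl (by simp only [eT]; abel)))
    · simp)))
  have a2 : κ (q + eT e) d = 0 := h2 _ d (key _ (mem_str.2 (by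
    unfold ownO; split_ifs
    · exact .inr (.inr (.inr (.inr (.inr (by abel)))))
    · simp)))
  simp [h3, carr, a0, a1, a2]

lemma gca_SS_mono {V V' : Finset Q} (hV : V ⊆ V') : SS (str e) V ⊆ SS (str e) V' :=
  biUnion_subset_biUnion_of_subset_left _ hV

lemma gca_out {N : ℕ} {V : Finset Q} {c δ : Cf Q k} (h : δ ∈ Mv N e V) {q : Q}
    (hq : q ∉ SS (str e) V) : (c + δ).2 q = c.2 q ∧ hs e (c + δ).1 q = hs e c.1 q := by
  obtain ⟨h1, h2⟩ := Mv_digit h hq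
  refine ⟨by simp [h1], funext fun i => ?_⟩
  have := congrFun h2 i
  simp only [hs, Pi.zero_apply] at this
  simp [hs, this]

omit [DecidableEq Q] in
lemma gca_out1 {N : ℕ} {V : Finset Q} {c δ : Cf Q k} (h : δ ∈ Mv N e V) {a : Ed Q}
    (ha : a.1 ∉ V) : (c + δ).1 a = c.1 a := by
  obtain ⟨κ, h1, -, -⟩ := h
  simp [h1 a ha]

lemma Val.mono {B : ℕ} {V V' : Finset Q} (hV : V ⊆ V') {c : Cf Q k} (h : Val B e V' c) :
    Val B e V c :=
  ⟨fun p hp j => h.1 p (hV hp) j, fun q hq => h.2 q (gca_SS_mono hV hq)⟩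

lemma Val.add {N B : ℕ} {V V' : Finset Q} (hV : V ⊆ V') {c δ : Cf Q k} (h : Val B e V' c)
    (hδ : δ ∈ Cl N B e V c) : Val B e V' (c + δ) := by
  refine ⟨fun p hp j => ?_, fun q hq => ?_⟩
  · by_cases hpV : p ∈ V
    · exact hδ.2.1 p hpV j
    · rw [gca_out1 hδ.1 (a := (p, j)) hpV]
      exact h.1 p hp j
  · by_cases hqV : q ∈ SS (str e) V
    · exact hδ.2.2 q hqV
    · rw [(gca_out hδ.1 hqV).1, (gca_out hδ.1 hqV).2]
      exact h.2 q hq

lemma Ec_add {N : ℕ} {V V' : Finset Q} (hV : V ⊆ V') {c δ : Cf Q k} (hδ : δ ∈ Mv N e V) :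
    Ec e V' (c + δ) + Ec e V c = Ec e V' c + Ec e V (c + δ) := by
  have s1 : V ×ˢ (univ : Finset (Fin 2)) ⊆ V' ×ˢ univ := product_subset_product_left hV
  have s2 : SS (str e) V ⊆ SS (str e) V' := gca_SS_mono hV
  have e1 : ∑ a ∈ V' ×ˢ (univ : Finset (Fin 2)) \ V ×ˢ univ, 2 * rho ((c + δ).1 a) =
      ∑ a ∈ V' ×ˢ (univ : Finset (Fin 2)) \ V ×ˢ univ, 2 * rho (c.1 a) :=
    sum_congr rfl fun a ha => by
      rw [gca_out1 hδ fun h => (mem_sdiff.1 ha).2 (mem_product.2 ⟨h, mem_univ _⟩)]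
  have e2 : ∑ q ∈ SS (str e) V' \ SS (str e) V, nc (hs e (c + δ).1 q) ((c + δ).2 q) =
      ∑ q ∈ SS (str e) V' \ SS (str e) V, nc (hs e c.1 q) (c.2 q) :=
    sum_congr rfl fun q hq => by
      rw [(gca_out hδ (mem_sdiff.1 hq).2).1, (gca_out hδ (mem_sdiff.1 hq).2).2]
  unfold Ec
  rw [← sum_sdiff s1, ← sum_sdiff s1, ← sum_sdiff s2, ← sum_sdiff s2, e1, e2]
  ring

lemma gca_finite {α β : Type} [Zero β] (S : Finset α) (T : α → Set β) (hT : ∀ a, (T a).Finite) :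
    {f : α → β | (∀ a ∉ S, f a = 0) ∧ ∀ a ∈ S, f a ∈ T a}.Finite := by
  refine Set.Finite.of_finite_image (f := fun f (a : S) => f a) ?_ ?_
  · refine (Set.Finite.pi' fun a : S => hT a).subset ?_
    rintro _ ⟨f, hf, rfl⟩ a
    exact hf.2 a a.2
  · intro f hf g hg h
    funext a
    by_cases ha : a ∈ S
    · exact congrFun h ⟨a, ha⟩
    · rw [hf.1 a ha, hg.1 a ha]

lemma finite_Cl (N B : ℕ) (V : Finset Q) (c : Cf Q k) : (Cl N B e V c).Finite := by
  have f1 := gca_finite (V ×ˢ (univ : Finset (Fin 2)))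
    (fun a => Set.Icc (-(B : ℤ) - c.1 a) (B + 1 - c.1 a)) fun a => Set.finite_Icc _ _
  have f2 := gca_finite (SS (str e) V)
    (fun q => {y : Dg k → ℤ | ∀ d, y d ∈ Set.Icc (-(B : ℤ) - c.2 q d) (B - c.2 q d)})
    fun q => Set.Finite.pi' fun d => Set.finite_Icc _ _
  refine (f1.prod f2).subset fun δ hδ => ⟨⟨fun a ha => ?_, fun a ha => ?_⟩,
    fun q hq => (Mv_digit hδ.1 hq).1, fun q hq d => ?_⟩
  · obtain ⟨κ, h1, -, -⟩ := hδ.1
    exact h1 a fun h => ha (mem_product.2 ⟨h, mem_univ _⟩)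
  · have := hδ.2.1 a.1 (mem_product.1 ha).1 a.2
    simp only [rho, Prod.fst_add, Pi.add_apply, Prod.mk.eta, Int.toNat_le, max_le_iff] at this
    constructor <;> omega
  · have := (hδ.2.2 q hq).1 d
    simp only [Prod.snd_add, Pi.add_apply, abs_le] at this
    constructor <;> omega

lemma Gc_nonneg (N B : ℕ) (V : Finset Q) (c : Cf Q k) : 0 ≤ Gc N B e V c := by
  unfold Gc
  split_ifs
  · positivity
  · exact le_rfl

lemma Gc_le_one (N B : ℕ) (V : Finset Q) (c : Cf Q k) : Gc N B e V c ≤ 1 := by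
  unfold Gc
  split_ifs
  · generalize Set.ncard _ = m
    rcases Nat.eq_zero_or_pos m with rfl | hm
    · simp
    · rw [div_le_one (by exact_mod_cast hm)]
      exact_mod_cast hm
  · exact zero_le_one

lemma Kc_empty (N B : ℕ) (c : Cf Q k) : Kc N B e ∅ c = 1 := by
  have h : Cl N B e ∅ c = {0} := by
    refine Set.eq_singleton_iff_unique_mem.2 ⟨⟨zero_mem_Mv N ∅, by simp [Val, SS]⟩,
      fun δ hδ => ?_⟩
    refine Prod.ext (funext fun a => ?_) (funext fun q => (Mv_digit hδ.1 (by simp [SS])).1)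
    obtain ⟨κ, h1, -, -⟩ := hδ.1
    exact h1 a (notMem_empty _)
  have h2 : {δ ∈ ({0} : Set (Cf Q k)) | Ec e ∅ (c + δ) = Ec e ∅ c} = {0} := by
    ext δ
    simp only [Set.mem_singleton_iff, Set.mem_ofPred_eq, and_iff_left_iff_imp]
    rintro rfl
    rw [add_zero]
  have h3 : Gc N B e ∅ c = 1 := by
    unfold Gc
    rw [h, h2, if_pos]
    · simp
    · rintro δ rfl
      rw [add_zero]
  simp [Kc, h3]

lemma sum_Kc (N B : ℕ) (V : Finset Q) (c : Cf Q k) :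
    ∑ Y ∈ V.powerset, Kc N B e Y c = Gc N B e V c :=
  gbasic_moebius (fun V => Gc N B e V c) V

lemma abs_Kc_le (N B : ℕ) (Y : Finset Q) (c : Cf Q k) : |Kc N B e Y c| ≤ 2 ^ Y.card := by
  refine (abs_sum_le_sum_abs _ _).trans ((sum_le_card_nsmul _ _ 1 fun V _ => ?_).trans ?_)
  · rw [abs_mul, abs_pow, abs_neg, abs_one, one_pow, one_mul, abs_of_nonneg (Gc_nonneg _ _ _ _)]
    exact Gc_le_one _ _ _ _
  · simp

theorem exists_move_of_Kc {N B : ℕ} {Y : Finset Q} {c : Cf Q k} (hc : Val B e Y c)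
    (hK : Kc N B e Y c ≠ 0) {y : Q} (hy : y ∈ Y) :
    ∃ V ⊆ Y, y ∈ V ∧ ∃ δ ∈ Cl N B e V c,
      (∀ δ' ∈ Cl N B e V c, Ec e V (c + δ) ≤ Ec e V (c + δ')) ∧ δ ∉ Mv N e (V.erase y) := by
  have hne : ∃ V ⊆ Y.erase y, Gc N B e (insert y V) c ≠ Gc N B e V c := by
    by_contra hcon
    push Not at hcon
    apply hK
    unfold Kc
    rw [← insert_erase hy, gbasic_K_insert (fun V => Gc N B e V c) (notMem_erase y Y)]
    refine sum_eq_zero fun V hV => ?_
    rw [hcon V (mem_powerset.1 hV), sub_self, mul_zero]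
  obtain ⟨V, hV, hG⟩ := hne
  have hyV : y ∉ V := fun h => notMem_erase y Y (hV h)
  have hIY : insert y V ⊆ Y := insert_subset hy (hV.trans (erase_subset _ _))
  have hVI : V ⊆ insert y V := subset_insert _ _
  have hcI : Val B e (insert y V) c := hc.mono hIY
  have hsub : Cl N B e V c ⊆ Cl N B e (insert y V) c := fun δ hδ =>
    ⟨Mv_mono hVI hδ.1, Val.add hVI hcI hδ⟩
  by_contra hcon
  push Not at hcon
  have hall := hcon (insert y V) hIY (mem_insert_self _ _)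
  rw [erase_insert hyV] at hall
  have hin : ∀ δ ∈ Cl N B e (insert y V) c, (∀ δ' ∈ Cl N B e (insert y V) c,
      Ec e (insert y V) (c + δ) ≤ Ec e (insert y V) (c + δ')) → δ ∈ Cl N B e V c :=
    fun δ hδ ho => ⟨hall δ hδ ho, hδ.2.mono hVI⟩
  have hE : ∀ δ ∈ Cl N B e V c, Ec e (insert y V) (c + δ) + Ec e V c =
      Ec e (insert y V) c + Ec e V (c + δ) := fun δ hδ => Ec_add hVI hδ.1
  apply hG
  unfold Gc
  by_cases o1 : ∀ δ ∈ Cl N B e V c, Ec e V c ≤ Ec e V (c + δ)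
  swap
  · rw [if_neg o1, if_neg fun h => o1 fun δ hδ => ?_]
    have h1 := h δ (hsub hδ)
    have h2 := hE δ hδ
    omega
  have h0 : (0 : Cf Q k) ∈ Cl N B e (insert y V) c := ⟨zero_mem_Mv _ _, by rwa [add_zero]⟩
  obtain ⟨δ₀, hδ₀, ho⟩ : ∃ δ₀ ∈ Cl N B e (insert y V) c, ∀ δ ∈ Cl N B e (insert y V) c,
      Ec e (insert y V) (c + δ₀) ≤ Ec e (insert y V) (c + δ) :=
    ⟨Function.argminOn (fun δ => Ec e (insert y V) (c + δ)) _ ⟨_, h0⟩,
      Function.argminOn_mem _ _ _, fun δ hδ =>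
        Function.argminOn_le (fun δ => Ec e (insert y V) (c + δ)) _ hδ⟩
  have o2 : ∀ δ ∈ Cl N B e (insert y V) c, Ec e (insert y V) c ≤ Ec e (insert y V) (c + δ) :=
    fun δ hδ => by
      have h1 := o1 δ₀ (hin δ₀ hδ₀ ho)
      have h2 := hE δ₀ (hin δ₀ hδ₀ ho)
      have h3 := ho δ hδ
      omega
  rw [if_pos o1, if_pos o2]
  congr 3
  ext δ
  simp only [Set.mem_ofPred_eq]
  constructor
  · rintro ⟨h1, h2⟩
    have h3 := hin δ h1 fun δ' hδ' => h2.le.trans (o2 δ' hδ')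
    have h4 := hE δ h3
    exact ⟨h3, by omega⟩
  · rintro ⟨h1, h2⟩
    have h4 := hE δ h1
    exact ⟨hsub h1, by omega⟩

end Pool.Agent.MP_646035_al.PC

namespace Pool.Agent.MP_646035_al.PC

open Finset PT

variable {n k : ℕ} {Q : Type} [AddCommGroup Q] [DecidableEq Q] {e : Fin 2 → Q}

lemma rho_hgt (σ : ZMod 2) (r : ℕ) : rho (hgt σ r) = r := by
  unfold rho hgt
  split_ifs <;> omega

lemma hgt_inj {σ σ' : ZMod 2} {r r' : ℕ} (h : hgt σ r = hgt σ' r') : σ = σ' ∧ r = r' := by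
  refine ⟨?_, by rw [← rho_hgt σ r, h, rho_hgt]⟩
  have two : ∀ a b : ZMod 2, a ≠ 0 → b ≠ 0 → a = b := by decide
  unfold hgt at h
  split_ifs at h with h1 h2 h2
  · rw [h1, h2]
  · omega
  · omega
  · exact two _ _ h1 h2

lemma exists_hgt (h : ℤ) : ∃ σ, h = hgt σ (rho h) := by
  rcases le_or_gt h 0 with h0 | h0
  · refine ⟨0, ?_⟩
    unfold hgt rho
    rw [if_pos rfl]
    omega
  · refine ⟨1, ?_⟩
    unfold hgt rho
    rw [if_neg (by decide)]
    omega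

lemma rho_eq_zero {h : ℤ} : rho h = 0 ↔ h = 0 ∨ h = 1 := by
  unfold rho
  omega

lemma class_slots {V : Finset Q} {a : Ed Q} (h : a.1 ∈ V) : a ∈ slots e (SS (str e) V) := by
  obtain ⟨p, j⟩ := a
  refine mem_biUnion.2 ⟨p, subset_str V h, mem_image.2 ?_⟩
  fin_cases j
  · exact ⟨2, mem_univ _, rfl⟩
  · exact ⟨3, mem_univ _, rfl⟩

theorem mem_cfg {B : ℕ} {V : Finset Q} {c : Cf Q k} :
    c ∈ cfg k B e V ↔ Val B e V c ∧ (∀ a ∉ slots e (SS (str e) V), c.1 a = 0) ∧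
      (∀ a : Ed Q, a.1 ∉ V → c.1 a = 0 ∨ c.1 a = 1) ∧ ∀ q ∉ SS (str e) V, c.2 q = 0 := by
  classical
  simp only [cfg, mem_filter, mem_product, mem_image, mem_asg]
  constructor
  · rintro ⟨⟨⟨⟨σ, r⟩, ⟨⟨-, h1⟩, -, h2⟩, h3⟩, -, h4⟩, hv⟩
    have r0 : ∀ a : Ed Q, a.1 ∉ V → r a = 0 := fun a ha => h2 a fun q => ha q.1
    refine ⟨hv, fun a ha => ?_, fun a ha => ?_, h4⟩
    · rw [← h3]
      have e1 : σ a = 0 := h1 a ha
      simp [Hf, hgt, e1, r0 a fun q => ha (class_slots q)]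
    · rw [← h3, ← rho_eq_zero]
      exact (rho_hgt _ _).trans (r0 a ha)
  · rintro ⟨hv, h1, h2, h3⟩
    choose σ hσ using fun a => exists_hgt (c.1 a)
    refine ⟨⟨⟨(σ, fun a => rho (c.1 a)), ⟨⟨fun _ _ => mem_univ _, fun a ha => ?_⟩,
      fun a ha => ?_, fun a ha => ?_⟩, funext fun a => (hσ a).symm⟩, fun q hq => ?_, h3⟩, hv⟩
    · have := hσ a
      rw [h1 a ha] at this
      have z : hgt 0 0 = 0 := by simp [hgt]
      exact (hgt_inj (z.trans this)).1.symm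
    · exact mem_range.2 (Nat.lt_succ_of_le (hv.1 a.1 ha.1 a.2))
    · exact rho_eq_zero.2 (h2 a fun q => ha ⟨q, mem_univ _⟩)
    · exact Fintype.mem_piFinset.2 fun d => mem_bx.2 ((hv.2 q hq).1 d)

open Classical in
theorem sum_cfg (B : ℕ) (V : Finset Q) (F : Cf Q k → ℝ) :
    ∑ c ∈ cfg k B e V, F c = ∑ σ ∈ asg 0 (slots e (SS (str e) V)) univ,
      ∑ r ∈ asg 0 (V ×ˢ univ) (range (B + 1)), ∑ y ∈ asg 0 (SS (str e) V) (dbox k B),
        if ∀ q ∈ SS (str e) V, Okn B (hs e (Hf σ r) q) (y q) then F (Hf σ r, y) else 0 := by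
  unfold cfg
  rw [sum_filter, sum_product, sum_image, sum_product]
  · refine sum_congr rfl fun σ _ => sum_congr rfl fun r hr => sum_congr rfl fun y _ => ?_
    refine if_congr ⟨fun h => h.2, fun h => ⟨fun p hp j => ?_, h⟩⟩ rfl rfl
    have := (mem_asg.1 hr).1 (p, j) (mem_product.2 ⟨hp, mem_univ _⟩)
    exact (rho_hgt _ _).trans_le (Nat.lt_succ_iff.1 (mem_range.1 this))
  · rintro ⟨σ, r⟩ - ⟨σ', r'⟩ - h
    exact Prod.ext (funext fun a => (hgt_inj (congrFun h a)).1)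
      (funext fun a => (hgt_inj (congrFun h a)).2)

lemma ZZ_nonneg (N k B : ℕ) {x : ℝ} (hx : 0 ≤ x) (V : Finset Q) : 0 ≤ ZZ N k B e x V :=
  sum_nonneg fun c _ => mul_nonneg (pow_nonneg hx _) (Gc_nonneg N B V c)

lemma class_add {N B : ℕ} {V : Finset Q} {c δ : Cf Q k} (hc : c ∈ cfg k B e V)
    (hδ : δ ∈ Cl N B e V c) : c + δ ∈ cfg k B e V := by
  obtain ⟨-, h1, h2, h3⟩ := mem_cfg.1 hc
  have z : ∀ a : Ed Q, a.1 ∉ V → (c + δ).1 a = c.1 a := fun a ha => by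
    obtain ⟨κ, hκ⟩ := hδ.1
    simp [hκ.1 a ha]
  refine mem_cfg.2 ⟨hδ.2, fun a ha => ?_, fun a ha => ?_, fun q hq => ?_⟩
  · rw [z a fun q => ha (class_slots q), h1 a ha]
  · rw [z a ha]
    exact h2 a ha
  · simp [h3 q hq, (Mv_digit hδ.1 hq).1]

lemma class_sub {N B : ℕ} {V : Finset Q} {c c' : Cf Q k} (hc : c' ∈ cfg k B e V)
    (h : c' - c ∈ Mv N e V) : c' - c ∈ Cl N B e V c :=
  ⟨h, by rw [add_sub_cancel]; exact (mem_cfg.1 hc).1⟩

lemma class_symm {N : ℕ} {V : Finset Q} {c c' : Cf Q k} (h : c' - c ∈ Mv N e V) :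
    c - c' ∈ Mv N e V := by
  simpa using Mv_neg h

lemma class_trans {N : ℕ} {V : Finset Q} {c c' c'' : Cf Q k} (h : c' - c ∈ Mv N e V)
    (h' : c'' - c' ∈ Mv N e V) : c'' - c ∈ Mv N e V := by
  simpa using Mv_add h' h

open Classical in
lemma class_Gc (N : ℕ) {B : ℕ} {V : Finset Q} {c : Cf Q k} (hc : c ∈ cfg k B e V) :
    Gc N B e V c =
      if ∀ c' ∈ cfg k B e V, c' - c ∈ Mv N e V → Ec e V c ≤ Ec e V c' then
        1 / (((cfg k B e V).filter fun c' => c' - c ∈ Mv N e V ∧ Ec e V c' = Ec e V c).card : ℝ)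
      else 0 := by
  have hiff : (∀ δ ∈ Cl N B e V c, Ec e V c ≤ Ec e V (c + δ)) ↔
      ∀ c' ∈ cfg k B e V, c' - c ∈ Mv N e V → Ec e V c ≤ Ec e V c' := by
    constructor
    · intro h c' h1 h2
      simpa using h _ (class_sub h1 h2)
    · intro h δ hδ
      exact h _ (class_add hc hδ) (by simpa using hδ.1)
  have hcard : {δ ∈ Cl N B e V c | Ec e V (c + δ) = Ec e V c}.ncard =
      ((cfg k B e V).filter fun c' => c' - c ∈ Mv N e V ∧ Ec e V c' = Ec e V c).card := by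
    rw [← Set.ncard_coe_finset, ← Set.ncard_image_of_injective _ (add_right_injective c)]
    congr 1
    ext c'
    simp only [Set.mem_image, Set.mem_ofPred_eq, coe_filter]
    constructor
    · rintro ⟨δ, ⟨hδ, hE⟩, rfl⟩
      exact ⟨class_add hc hδ, by simpa using hδ.1, hE⟩
    · rintro ⟨h1, h2, h3⟩
      exact ⟨c' - c, ⟨class_sub h1 h2, by rw [add_sub_cancel]; exact h3⟩, add_sub_cancel _ _⟩
  unfold Gc
  rw [hcard]
  exact if_congr hiff rfl rfl

open Classical in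
/-- The optimal members of the class of `c₀` contribute `x ^ (least cost)`. -/
lemma class_pow_le (N : ℕ) {B : ℕ} {x : ℝ} (hx : 0 ≤ x) (hx1 : x ≤ 1) {V : Finset Q}
    {c₀ : Cf Q k} (hc : c₀ ∈ cfg k B e V) :
    x ^ Ec e V c₀ ≤ ∑ c ∈ cfg k B e V with c - c₀ ∈ Mv N e V, x ^ Ec e V c * Gc N B e V c := by
  have h0 : c₀ ∈ (cfg k B e V).filter fun c => c - c₀ ∈ Mv N e V :=
    mem_filter.2 ⟨hc, by rw [sub_self]; exact zero_mem_Mv N V⟩
  obtain ⟨c₁, hc₁, hmin⟩ := exists_min_image _ (Ec e V) ⟨c₀, h0⟩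
  set O := (cfg k B e V).filter fun c => c - c₀ ∈ Mv N e V ∧ Ec e V c = Ec e V c₁ with hO
  have hsub : O ⊆ (cfg k B e V).filter fun c => c - c₀ ∈ Mv N e V := fun c h =>
    mem_filter.2 ⟨(mem_filter.1 h).1, (mem_filter.1 h).2.1⟩
  have hpos : (0 : ℝ) < O.card := by
    have : c₁ ∈ O := mem_filter.2 ⟨(mem_filter.1 hc₁).1, (mem_filter.1 hc₁).2, rfl⟩
    exact_mod_cast card_pos.2 ⟨c₁, this⟩
  have hG : ∀ c ∈ O, x ^ Ec e V c * Gc N B e V c = x ^ Ec e V c₁ * (1 / O.card) := by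
    intro c h
    obtain ⟨h1, h2, h3⟩ := mem_filter.1 h
    rw [class_Gc N h1, if_pos, h3]
    · congr 4
      refine filter_congr fun c' _ => and_congr_left fun _ => ?_
      exact ⟨class_trans h2, class_trans (class_symm h2)⟩
    · intro c' h1' h2'
      rw [h3]
      exact hmin c' (mem_filter.2 ⟨h1', class_trans h2 h2'⟩)
  calc x ^ Ec e V c₀ ≤ x ^ Ec e V c₁ := pow_le_pow_of_le_one hx hx1 (hmin c₀ h0)
    _ = ∑ c ∈ O, x ^ Ec e V c * Gc N B e V c := by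
      rw [sum_congr rfl hG, sum_const, nsmul_eq_mul]
      field_simp
    _ ≤ _ := sum_le_sum_of_subset_of_nonneg hsub fun c _ _ =>
      mul_nonneg (pow_nonneg hx _) (Gc_nonneg _ _ _ _)

theorem le_ZZ (N B : ℕ) {x : ℝ} (hx : 0 ≤ x) (hx1 : x ≤ 1) (V : Finset Q) {ι : Type}
    (s : Finset ι) (φ : ι → Cf Q k) (h : ∀ i ∈ s, φ i ∈ cfg k B e V)
    (hinj : ∀ i ∈ s, ∀ j ∈ s, φ j - φ i ∈ Mv N e V → i = j) :
    ∑ i ∈ s, x ^ Ec e V (φ i) ≤ ZZ N k B e x V := by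
  classical
  unfold ZZ
  calc ∑ i ∈ s, x ^ Ec e V (φ i)
      ≤ ∑ i ∈ s, ∑ c ∈ cfg k B e V with c - φ i ∈ Mv N e V, x ^ Ec e V c * Gc N B e V c :=
        sum_le_sum fun i hi => class_pow_le N hx hx1 (h i hi)
    _ = ∑ c ∈ cfg k B e V, ∑ i ∈ s with c - φ i ∈ Mv N e V, x ^ Ec e V c * Gc N B e V c := by
        simp only [sum_filter]
        exact sum_comm
    _ ≤ _ := sum_le_sum fun c _ => by
        rw [sum_const, nsmul_eq_mul]
        refine mul_le_of_le_one_left (mul_nonneg (pow_nonneg hx _) (Gc_nonneg _ _ _ _)) ?_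
        have : (s.filter fun i => c - φ i ∈ Mv N e V).card ≤ 1 :=
          card_le_one.2 fun i hi j hj => hinj i (mem_filter.1 hi).1 j (mem_filter.1 hj).1
            (class_trans (mem_filter.1 hi).2 (class_symm (mem_filter.1 hj).2))
        exact_mod_cast this

theorem ZZ_le (N B : ℕ) {x : ℝ} (hx : 0 ≤ x) (V : Finset Q) {α : Type} (t : Finset α)
    (f : Cf Q k → α) (w : α → ℝ) (hw : ∀ a ∈ t, 0 ≤ w a) (hf : ∀ c ∈ cfg k B e V, f c ∈ t)
    (hrel : ∀ c ∈ cfg k B e V, ∀ c' ∈ cfg k B e V, f c = f c' → c' - c ∈ Mv N e V)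
    (hle : ∀ c ∈ cfg k B e V, x ^ Ec e V c ≤ w (f c)) :
    ZZ N k B e x V ≤ ∑ a ∈ t, w a := by
  classical
  unfold ZZ
  rw [← sum_fiberwise_of_maps_to hf]
  refine sum_le_sum fun a ha => ?_
  set A := ((cfg k B e V).filter fun c => f c = a).filter fun c => Gc N B e V c ≠ 0 with hA
  have mA : ∀ c ∈ A, c ∈ cfg k B e V ∧ f c = a ∧
      ∀ c' ∈ cfg k B e V, c' - c ∈ Mv N e V → Ec e V c ≤ Ec e V c' := by
    intro c hc
    obtain ⟨h1, h2⟩ := mem_filter.1 hc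
    obtain ⟨h1, h3⟩ := mem_filter.1 h1
    refine ⟨h1, h3, ?_⟩
    by_contra q
    rw [class_Gc N h1, if_neg q] at h2
    exact h2 rfl
  have hG : ∀ c ∈ A, x ^ Ec e V c * Gc N B e V c ≤ w a * (1 / A.card) := by
    intro c hc
    have hpos : (0 : ℝ) < A.card := by exact_mod_cast card_pos.2 ⟨c, hc⟩
    obtain ⟨h1, h2, h3⟩ := mA c hc
    refine mul_le_mul (h2 ▸ hle c h1) ?_ (Gc_nonneg _ _ _ _) (hw a ha)
    rw [class_Gc N h1, if_pos h3]
    refine one_div_le_one_div_of_le hpos (Nat.cast_le.2 (card_le_card fun c' hc' => ?_))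
    obtain ⟨h1', h2', h3'⟩ := mA c' hc'
    have r := hrel c h1 c' h1' (h2.trans h2'.symm)
    exact mem_filter.2 ⟨h1', r, le_antisymm (h3' c h1 (class_symm r)) (h3 c' h1' r)⟩
  have e0 : ∑ c ∈ (cfg k B e V).filter fun c => f c = a, x ^ Ec e V c * Gc N B e V c =
      ∑ c ∈ A, x ^ Ec e V c * Gc N B e V c :=
    (sum_filter_of_ne fun c _ q => right_ne_zero_of_mul q).symm
  rw [e0]
  refine (sum_le_sum hG).trans ?_
  rw [sum_const, nsmul_eq_mul, mul_left_comm, mul_one_div]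
  exact mul_le_of_le_one_right (hw a ha) (div_self_le_one _)

end Pool.Agent.MP_646035_al.PC
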