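import Pool.Agent.MP_646035_al.PC.Fc
import Pool.Agent.MP_646035_al.PC.Mod
import Pool.Agent.MP_646035_al.PC.Alg

namespace Pool.Agent.MP_646035_al.PC

open Finset PT

variable {n k : ℕ} {Q : Type} [AddCommGroup Q] [DecidableEq Q] {e : Fin 2 → Q}

/-- A path of length at most `l` from the state `(m, s)` to `(m', s')` with emission `w`. -/
def chainP (c m : ℤ) (s : ZMod 2) (m' : ℤ) (s' : ZMod 2) (w : Wm n k) (l : ℕ) : Prop :=
  (⟨0, gs m, s⟩ : El n k)⁻¹ * ⟨w, gs m', s'⟩ ∈ ball (gens n k c) l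

/-- `r` paths at the site `m` from the lane `s` to the other lane. -/
def chainA (c m : ℤ) (s : ZMod 2) : ℕ → Wm n k → ℕ → Prop
  | 0, w, _ => w = 0
  | r + 1, w, l => ∃ w1 w2 l1 l2, chainP c m s m (s + 1) w1 l1 ∧ chainA c m s r w2 l2 ∧
      w = w1 + w2 ∧ l1 + l2 ≤ l

/-- The main lane. -/
def chainL (h : ℤ) : ZMod 2 := if 1 ≤ h then 1 else 0

section

variable {c m m' m'' : ℤ} {s s' s'' : ZMod 2} {w w' : Wm n k} {l l' r r' : ℕ}

lemma chain_mk (w : Wm n k) (g : Dh) (s : ZMod 2) : (⟨w, g, s⟩ : El n k) = mm w * ⟨0, g, s⟩ := by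
  rw [mm_mul, add_zero]

lemma chain_mm_add (w w' : Wm n k) : mm (w + w') = mm w * mm w' := by
  rw [mm_mul]
  rfl

lemma chain_refl (c m : ℤ) (s : ZMod 2) : chainP c m s m s (0 : Wm n k) 0 := by
  rw [chainP, inv_mul_cancel]
  exact one_mem_ball _ _

lemma chain_mono (h : chainP c m s m' s' w l) (hl : l ≤ l') : chainP c m s m' s' w l' :=
  ball_mono _ hl h

lemma chain_trans (h : chainP c m s m' s' w l) (h' : chainP c m' s' m'' s'' w' l') :
    chainP c m s m'' s'' (w + w') (l + l') := by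
  have := mul_mem_ball h h'
  rw [chain_mk w, chain_mk w'] at this
  rw [chainP, chain_mk (w + w'), chain_mm_add]
  simpa only [mul_assoc, mul_inv_cancel_left] using this

lemma chain_symm (h : chainP c m s m' s' w l) : chainP c m' s' m s (-w) l := by
  have := inv_mem_ball h
  have e : (mm w)⁻¹ = mm (-w) := by
    rw [inv_eq_iff_mul_eq_one, ← chain_mm_add, add_neg_cancel]
    rfl
  rw [chainP, chain_mk (-w), ← e, ← mul_assoc, ← mul_inv_rev, ← chain_mk]
  rwa [mul_inv_rev, inv_inv] at this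

lemma chain_step {t : El n k} (h : t ∈ ball (gens n k c) l) (h1 : gs m' = gs m * t.g)
    (h2 : s' = s + t.s) : chainP c m s m' s' (iot s (aw (gs m) t.w)) l := by
  have e : (⟨iot s (aw (gs m) t.w), gs m', s'⟩ : El n k) = ⟨0, gs m, s⟩ * t := by
    ext1
    · exact (zero_add _).symm
    · exact h1
    · exact h2
  rwa [chainP, e, inv_mul_cancel_left]

lemma chain_move (c m : ℤ) (s : ZMod 2) : chainP c m s (m + 1) s (0 : Wm n k) 1 := by
  have h : (mv (if m % 2 = 0 then rho0 else rho1) : El n k) ∈ ball (gens n k c) 1 := by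
    split_ifs
    exacts [(mem_gens_ball c).1, (mem_gens_ball c).2.1]
  have := chain_step (s := s) h (gs_succ m) (add_zero s).symm
  rwa [show (mv (if m % 2 = 0 then rho0 else rho1) : El n k).w = 0 from rfl, map_zero,
    map_zero] at this

lemma chain_tog (c m : ℤ) (s : ZMod 2) (i : Fin k) :
    chainP c m s m (s + 1) (emU n m (Pi.single i (sgz s))) 1 :=
  emU_tog m s i ▸ chain_step ((mem_gens_ball c).2.2.2 i) (mul_one _).symm rfl

lemma chain_nsmul (h : chainP c m s m s w 1) (j : ℕ) : chainP c m s m s (j • w) j := by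
  induction j with
  | zero => exact zero_smul ℕ w ▸ chain_refl c m s
  | succ j ih => exact succ_nsmul w j ▸ chain_trans ih h

lemma chain_lamp (c m : ℤ) (s : ZMod 2) (z : ℤ) :
    chainP c m s m s (z • emL n k c m s) z.natAbs := by
  have h : chainP c m s m s (emL n k c m s) 1 :=
    chain_step (mem_gens_ball c).2.2.1 (mul_one _).symm (add_zero s).symm
  obtain ⟨j, rfl | rfl⟩ := z.eq_nat_or_neg
  · simpa using chain_nsmul h j
  · simpa using chain_symm (chain_nsmul h j)

lemma chain_append (h : chainA c m s r w l) (h' : chainA c m s r' w' l') :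
    chainA c m s (r + r') (w + w') (l + l') := by
  induction r' generalizing w' l' with
  | zero =>
    obtain rfl : w' = 0 := h'
    rw [add_zero, add_zero]
    rcases r with _ | r
    · exact h
    · obtain ⟨w1, w2, l1, l2, h1, h2, h3, h4⟩ := h
      exact ⟨w1, w2, l1, l2, h1, h2, h3, by omega⟩
  | succ r' ih =>
    obtain ⟨w1, w2, l1, l2, h1, h2, rfl, h4⟩ := h'
    exact ⟨w1, _, l1, _, h1, ih h2, by abel, by omega⟩

lemma chain_split (h : chainA c m s (r + r') w l) : ∃ w1 w2 l1 l2,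
    chainA c m s r w1 l1 ∧ chainA c m s r' w2 l2 ∧ w = w1 + w2 ∧ l1 + l2 ≤ l := by
  induction r' generalizing w l with
  | zero => exact ⟨w, 0, l, 0, h, rfl, (add_zero w).symm, le_rfl⟩
  | succ r' ih =>
    obtain ⟨w1, w2, l1, l2, h1, h2, rfl, h4⟩ := h
    obtain ⟨w3, w4, l3, l4, h5, h6, rfl, h8⟩ := ih h2
    exact ⟨w3, w1 + w4, l3, l1 + l4, h5, ⟨w1, w4, l1, l4, h1, h6, rfl, le_rfl⟩, by abel, by omega⟩

lemma chain_wrap (h : chainA c (m + 1) s r w l) : chainA c m s r w (l + 2 * r) := by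
  induction r generalizing w l with
  | zero => exact h
  | succ r ih =>
    obtain ⟨w1, w2, l1, l2, h1, h2, rfl, h4⟩ := h
    exact ⟨_, w2, _, _, chain_trans (chain_trans (chain_move c m s) h1)
      (chain_symm (chain_move c m (s + 1))), ih h2, by abel, by omega⟩

lemma chain_two (s : ZMod 2) : s + 1 + 1 = s := by rw [add_assoc, z2_one_add_one, add_zero]

lemma chain_alt (h : chainA c m s r w l) (h' : chainA c m (s + 1) r w' l') :
    chainP c m s m s (w + w') (l + l') := by
  induction r generalizing w l w' l' with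
  | zero =>
    obtain rfl : w = 0 := h
    obtain rfl : w' = 0 := h'
    rw [add_zero]
    exact chain_mono (chain_refl c m s) (Nat.zero_le _)
  | succ r ih =>
    obtain ⟨w1, w2, l1, l2, h1, h2, rfl, h4⟩ := h
    obtain ⟨w3, w4, l3, l4, h5, h6, rfl, h8⟩ := h'
    rw [chain_two] at h5
    have := chain_trans (chain_trans h1 h5) (ih h2 h6)
    rw [show w1 + w2 + (w3 + w4) = w1 + w3 + (w2 + w4) by abel]
    exact chain_mono this (by omega)

lemma chain_attach (h : chainA c m s r w l) (hr : r ≠ 0) (h' : chainP c m s' m s' w' l') :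
    chainA c m s r (w + w') (l + l') := by
  obtain ⟨r, rfl⟩ := Nat.exists_eq_succ_of_ne_zero hr
  obtain ⟨w1, w2, l1, l2, h1, h2, rfl, h4⟩ := h
  have hs : s' = s ∨ s' = s + 1 := (by decide : ∀ a b : ZMod 2, a = b ∨ a = b + 1) s' s
  rcases hs with rfl | rfl
  · exact ⟨_, w2, _, l2, chain_trans h' h1, h2, by abel, by omega⟩
  · exact ⟨_, w2, _, l2, chain_trans h1 h', h2, by abel, by omega⟩

lemma chain_togs (c m : ℤ) (s : ZMod 2) (v : Fin k → ℕ) (J : Finset (Fin k)) :
    chainA c m s (∑ i ∈ J, v i) (∑ i ∈ J, v i • emU n m (Pi.single i (sgz s))) (∑ i ∈ J, v i) := by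
  have key : ∀ (i : Fin k) (j : ℕ), chainA c m s j (j • emU n m (Pi.single i (sgz s))) j := by
    intro i j
    induction j with
    | zero => exact zero_smul ℕ _
    | succ j ih => exact ⟨_, _, 1, j, chain_tog c m s i, ih, succ_nsmul' _ _, by omega⟩
  induction J using Finset.induction_on with
  | empty => rfl
  | insert i J hi ih =>
    rw [sum_insert hi, sum_insert hi]
    exact chain_append (key i _) ih

lemma chain_emU (m : ℤ) (y : Fin k → ℤ) :
    ∑ i, (y i).toNat • emU n m (Pi.single i (sgz 0)) +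
      ∑ i, (-y i).toNat • emU n m (Pi.single i (sgz 1)) = emU n m y := by
  let φ : (Fin k → ℤ) →+ Wm n k := AddMonoidHom.mk' (emU n m) (emU_add m)
  have h : ∑ i, (y i).toNat • Pi.single i (sgz 0) + ∑ i, (-y i).toNat • Pi.single i (sgz 1) = y := by
    funext j
    simp only [Pi.add_apply, Finset.sum_apply, sgz_zero, sgz_one, nsmul_eq_mul, Pi.mul_apply,
      Pi.natCast_apply, Pi.single_apply, mul_ite, mul_zero, sum_ite_eq, mem_univ, if_true]
    omega
  have := congrArg φ h
  simp only [map_add, map_sum, map_nsmul] at this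
  exact this

lemma chain_keep {a : ℕ} (h : chainA c m s r w l) (h' : chainA c m (s + 1) a w' l')
    (hr : (s' = s ∧ r = r' + a) ∨ (s' = s + 1 ∧ r = r' + (a + 1))) : ∃ w1 w2 l1 l2,
    chainA c m s r' w1 l1 ∧ chainP c m s m s' w2 l2 ∧ w + w' = w1 + w2 ∧ l1 + l2 ≤ l + l' := by
  rcases hr with ⟨rfl, rfl⟩ | ⟨rfl, rfl⟩
  · obtain ⟨w1, w2, l1, l2, h1, h2, rfl, h4⟩ := chain_split h
    exact ⟨w1, _, l1, _, h1, chain_alt h2 h', by abel, by omega⟩
  · obtain ⟨w1, _, l1, l2, h1, ⟨w3, w4, l3, l4, h5, h6, rfl, h8⟩, rfl, h4⟩ := chain_split h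
    exact ⟨w1, _, l1, _, h1, chain_trans (chain_alt h6 h') h5, by abel, by omega⟩

lemma chain_comb {a0 a1 : ℕ} {h h' : ℤ} (h0 : chainA c m 0 a0 w l) (h1 : chainA c m 1 a1 w' l')
    (hc : (a0 : ℤ) - a1 = (if 1 ≤ h' then 1 else 0) - h) : ∃ w1 w2 l1 l2,
    chainA c m (chainL h) (rho h) w1 l1 ∧ chainP c m (chainL h) m (chainL h') w2 l2 ∧
      w + w' = w1 + w2 ∧ l1 + l2 ≤ l + l' := by
  unfold chainL
  by_cases hh : 1 ≤ h
  · rw [if_pos hh, add_comm w, add_comm l]
    refine chain_keep h1 (s := 1) h0 ?_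
    unfold rho
    split_ifs at hc ⊢
    · exact Or.inl ⟨rfl, by omega⟩
    · exact Or.inr ⟨rfl, by omega⟩
  · rw [if_neg hh]
    refine chain_keep h0 (s := 0) h1 ?_
    unfold rho
    split_ifs at hc ⊢
    · exact Or.inr ⟨rfl, by omega⟩
    · exact Or.inl ⟨rfl, by omega⟩

lemma chain_lane {h : ℤ} (h0 : rho h = 0) : chainL h = (h : ZMod 2) := by
  have : h = 0 ∨ h = 1 := by unfold rho at h0; omega
  rcases this with rfl | rfl <;> simp [chainL]

lemma chain_site (hk : 0 < k) {h h' : ℤ} {y : Fin k → ℤ} (z : ZMod 2 → ℤ)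
    (hy : ∑ i, y i = h' - h) (hA : chainA c m (chainL h') (rho h') w l) : ∃ w1 w2 l1 l2,
    chainA c m (chainL h) (rho h) w1 l1 ∧ chainP c m (chainL h) m (chainL h') w2 l2 ∧
      w + (emU n m y + ∑ σ, z σ • emL n k c m σ) = w1 + w2 ∧
      l1 + l2 ≤ l + (szJ univ y + szJ univ z) +
        2 * if y = 0 ∧ rho h' = 0 ∧ z ((h' : ZMod 2) + 1) ≠ 0 then 1 else 0 := by
  have u2 : ∀ {M : Type} [AddCommMonoid M] (f : ZMod 2 → M) (s : ZMod 2),
      ∑ σ, f σ = f s + f (s + 1) := fun f s => by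
    have : ∑ σ, f σ = f 0 + f 1 := Fin.sum_univ_two f
    rcases z2_cases s with rfl | rfl
    · rw [this, zero_add]
    · rw [this, z2_one_add_one, add_comm]
  by_cases hc : y = 0 ∧ rho h' = 0
  · obtain ⟨rfl, hr⟩ := hc
    obtain rfl : h' = h := by simp at hy; omega
    rw [hr] at hA
    obtain rfl : w = 0 := hA
    have e0 : emU n m (0 : Fin k → ℤ) = 0 := by
      have := emU_add (n := n) m (0 : Fin k → ℤ) 0
      rwa [add_zero, left_eq_add] at this
    rw [e0, zero_add, zero_add, chain_lane hr, hr, szJ, szJ, u2 _ (h' : ZMod 2),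
      u2 _ (h' : ZMod 2)]
    generalize (h' : ZMod 2) = s
    by_cases hz : z (s + 1) = 0
    · exact ⟨0, _, 0, _, rfl, chain_lamp c m s (z s), by rw [hz, zero_smul, add_zero, zero_add],
        by omega⟩
    · have t2 := chain_tog (n := n) c m (s + 1) ⟨0, hk⟩
      rw [chain_two] at t2
      refine ⟨0, _, 0, _, rfl, chain_trans (chain_trans (chain_trans (chain_lamp c m s (z s))
        (chain_tog c m s ⟨0, hk⟩)) (chain_lamp c m (s + 1) (z (s + 1)))) t2, ?_, ?_⟩
      · have e1 : emU n m (Pi.single (⟨0, hk⟩ : Fin k) (sgz s)) +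
            emU n m (Pi.single (⟨0, hk⟩ : Fin k) (sgz (s + 1))) = 0 := by
          rw [← emU_add, ← Pi.single_add, sgz_add, sgz_one, mul_neg, mul_one, add_neg_cancel,
            Pi.single_zero, e0]
        linear_combination (exp := 1) -e1
      · rw [if_pos ⟨rfl, rfl, hz⟩]
        omega
  · have t0 := chain_togs (n := n) c m 0 (fun i => (y i).toNat) univ
    have t1 := chain_togs (n := n) c m 1 (fun i => (-y i).toNat) univ
    have e1 : ∑ i, (y i).toNat + ∑ i, (-y i).toNat = szJ univ y := by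
      rw [szJ, ← sum_add_distrib]
      exact sum_congr rfl fun i _ => by omega
    have e2 : ((∑ i, (y i).toNat : ℕ) : ℤ) - (∑ i, (-y i).toNat : ℕ) = h' - h := by
      rw [← hy, Nat.cast_sum, Nat.cast_sum, ← sum_sub_distrib]
      exact sum_congr rfl fun i _ => by omega
    have e3 : y = 0 ∨ szJ univ y ≠ 0 := by
      by_contra hn
      push Not at hn
      exact hn.1 (funext fun i => Int.natAbs_eq_zero.1 (sum_eq_zero_iff.1 hn.2 i (mem_univ i)))
    rw [← chain_emU, ← e1, szJ, u2 _ 0, u2 _ 0, zero_add]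
    generalize ∑ i, (y i).toNat • emU n m (Pi.single i (sgz 0)) = w0 at t0
    generalize ∑ i, (-y i).toNat • emU n m (Pi.single i (sgz 1)) = w1 at t1
    generalize ∑ i, (y i).toNat = a0 at t0 e1 e2
    generalize ∑ i, (-y i).toNat = a1 at t1 e1 e2
    obtain ⟨b0, b1, v0, v1, l0, l1, p0, p1, q1, q2, q3, q4⟩ : ∃ b0 b1 v0 v1 l0 l1,
        chainA c m 0 b0 v0 l0 ∧ chainA c m 1 b1 v1 l1 ∧ v0 + v1 = w + (w0 + w1) ∧
          l0 + l1 = l + (a0 + a1) ∧ b0 + b1 = rho h' + (a0 + a1) ∧
          (b0 : ℤ) - b1 = (if 1 ≤ h' then 1 else 0) - h := by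
      unfold chainL at hA
      split_ifs at hA ⊢
      · exact ⟨_, _, _, _, _, _, t0, chain_append hA t1, by abel, by omega, by omega,
          by unfold rho; omega⟩
      · exact ⟨_, _, _, _, _, _, chain_append hA t0, t1, by abel, by omega, by omega,
          by unfold rho; omega⟩
    have hb : b0 ≠ 0 ∨ b1 ≠ 0 := by
      rcases e3 with e3 | e3
      · have : rho h' ≠ 0 := fun e => hc ⟨e3, e⟩
        omega
      · omega
    have L0 := chain_lamp (n := n) (k := k) c m 0 (z 0)
    have L1 := chain_lamp (n := n) (k := k) c m 1 (z 1)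
    rcases hb with hb | hb
    · obtain ⟨x1, x2, k1, k2, g1, g2, g3, g4⟩ :=
        chain_comb (chain_attach (chain_attach p0 hb L0) hb L1) p1 q4
      exact ⟨x1, x2, k1, k2, g1, g2, by linear_combination (exp := 1) g3 - q1, by omega⟩
    · obtain ⟨x1, x2, k1, k2, g1, g2, g3, g4⟩ :=
        chain_comb p0 (chain_attach (chain_attach p1 hb L0) hb L1) q4
      exact ⟨x1, x2, k1, k2, g1, g2, by linear_combination (exp := 1) g3 - q1, by omega⟩

end

lemma chain_main (hk : 0 < k) (c : ℤ) (H : ℤ → ℤ) (y : ℤ → Fin k → ℤ) (z : ℤ → ZMod 2 → ℤ)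
    (L : ℕ) (lo : ℤ) (hch : ∀ m ∈ Icc lo (lo + L), ∑ i, y m i = H m - H (m - 1))
    (h1 : rho (H (lo + L)) = 0) : ∃ w1 w2 l1 l2,
    chainA c lo (chainL (H (lo - 1))) (rho (H (lo - 1))) w1 l1 ∧
      chainP c lo (chainL (H (lo - 1))) (lo + L) (chainL (H (lo + L))) w2 l2 ∧
      ∑ m ∈ Icc lo (lo + L), (emU n m (y m) + ∑ σ, z m σ • emL n k c m σ) = w1 + w2 ∧
      l1 + l2 ≤ L + ∑ m ∈ Ico lo (lo + L), 2 * rho (H m) +
        ∑ m ∈ Icc lo (lo + L), (szJ univ (y m) + szJ univ (z m)) + 2 * ∑ m ∈ Icc lo (lo + L),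
          if y m = 0 ∧ rho (H m) = 0 ∧ z m ((H m : ZMod 2) + 1) ≠ 0 then 1 else 0 := by
  induction L generalizing lo with
  | zero =>
    simp only [Nat.cast_zero, add_zero, Icc_self, sum_singleton, Ico_self, sum_empty] at hch h1 ⊢
    obtain ⟨w1, w2, l1, l2, p1, p2, p3, p4⟩ := chain_site (n := n) (c := c) (m := lo) (w := 0)
      (l := 0) hk (z lo) (hch lo (mem_singleton_self _)) (by rw [h1]; rfl)
    exact ⟨w1, w2, l1, l2, p1, p2, by rw [← p3, zero_add], by omega⟩
  | succ L ih =>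
    have e0 : lo + ((L + 1 : ℕ) : ℤ) = lo + 1 + L := by push_cast; ring
    rw [e0] at hch h1 ⊢
    have e1 : Icc lo (lo + 1 + L) = insert lo (Icc (lo + 1) (lo + 1 + L)) := by
      ext x
      simp only [mem_Icc, mem_insert]
      omega
    have e2 : Ico lo (lo + 1 + L) = insert lo (Ico (lo + 1) (lo + 1 + L)) := by
      ext x
      simp only [mem_Ico, mem_insert]
      omega
    have n1 : lo ∉ Icc (lo + 1) (lo + 1 + L) := by simp
    have n2 : lo ∉ Ico (lo + 1) (lo + 1 + L) := by simp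
    rw [e1] at hch
    obtain ⟨w1, w2, l1, l2, p1, p2, p3, p4⟩ :=
      ih (lo + 1) (fun m hm => hch m (mem_insert_of_mem hm)) h1
    rw [add_sub_cancel_right] at p1 p2
    obtain ⟨w3, w4, l3, l4, q1, q2, q3, q4⟩ :=
      chain_site hk (z lo) (hch lo (mem_insert_self _ _)) (chain_wrap p1)
    rw [e1, e2, sum_insert n1, sum_insert n1, sum_insert n1, sum_insert n2, p3]
    exact ⟨w3, _, l3, _, q1, chain_trans (chain_trans q2 (chain_move c lo _)) p2,
      by linear_combination (exp := 1) q3, by omega⟩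

theorem chain_mem_ball (hk : 0 < k) (c lo : ℤ) (L : ℕ) (H : ℤ → ℤ) (y : ℤ → Fin k → ℤ)
    (z : ℤ → ZMod 2 → ℤ) (hch : ∀ m ∈ Icc lo (lo + L), ∑ i, y m i = H m - H (m - 1))
    (h0 : H (lo - 1) = 0 ∨ H (lo - 1) = 1) (h1 : H (lo + L) = 0 ∨ H (lo + L) = 1) :
    (⟨0, gs lo, (H (lo - 1) : ZMod 2)⟩ : El n k)⁻¹ *
        ⟨∑ m ∈ Icc lo (lo + L), (emU n m (y m) + ∑ σ, z m σ • emL n k c m σ), gs (lo + L),
          (H (lo + L) : ZMod 2)⟩ ∈
      ball (gens n k c) (L + ∑ m ∈ Ico lo (lo + L), 2 * rho (H m) +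
        ∑ m ∈ Icc lo (lo + L), (szJ univ (y m) + szJ univ (z m)) +
        2 * ((Icc lo (lo + L)).filter fun m =>
          y m = 0 ∧ rho (H m) = 0 ∧ z m ((H m : ZMod 2) + 1) ≠ 0).card) := by
  have r0 : rho (H (lo - 1)) = 0 := by unfold rho; omega
  have r1 : rho (H (lo + L)) = 0 := by unfold rho; omega
  obtain ⟨w1, w2, l1, l2, p1, p2, p3, p4⟩ := chain_main (n := n) hk c H y z L lo hch r1
  rw [r0] at p1
  obtain rfl : w1 = 0 := p1
  rw [chain_lane r0, chain_lane r1] at p2
  rw [p3, zero_add, card_filter]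
  exact chain_mono p2 (by omega)

end Pool.Agent.MP_646035_al.PC

namespace Pool.Agent.MP_646035_al.PC

open Finset PT

variable {n k : ℕ} {Q : Type} [AddCommGroup Q] [DecidableEq Q] {e : Fin 2 → Q}

/-- A function on the sites given by its values on the even and on the odd sites. -/
def realize_par {α : Type} (A B : ℤ → α) (m : ℤ) : α :=
  if m % 2 = 0 then A (m / 2) else B (m / 2)

lemma realize_par_even {α : Type} (A B : ℤ → α) (j : ℤ) : realize_par A B (2 * j) = A j := by
  unfold realize_par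
  rw [if_pos (by omega), show 2 * j / 2 = j by omega]

lemma realize_par_odd {α : Type} (A B : ℤ → α) (j : ℤ) : realize_par A B (2 * j + 1) = B j := by
  unfold realize_par
  rw [if_neg (by omega), show (2 * j + 1) / 2 = j by omega]

lemma realize_cases (m : ℤ) : ∃ j, m = 2 * j ∨ m = 2 * j + 1 := ⟨m / 2, by omega⟩

lemma realize_z2_sum {A : Type} [AddCommMonoid A] (f : ZMod 2 → A) :
    ∑ s, f s = f 0 + f 1 := Fin.sum_univ_two f

lemma realize_cast_even (j : ℤ) : ((2 * j : ℤ) : ZMod 2) = 0 := by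
  rw [ZMod.intCast_zmod_eq_zero_iff_dvd]
  exact ⟨j, rfl⟩

lemma realize_cast_odd (j : ℤ) : ((2 * j + 1 : ℤ) : ZMod 2) = 1 := by
  rw [Int.cast_add, realize_cast_even, zero_add, Int.cast_one]

lemma realize_sum_par {A : Type} [AddCommMonoid A] (a b : ℤ) (G : ℤ → A) :
    ∑ m ∈ Icc (2 * a) (2 * b + 1), G m = ∑ j ∈ Icc a b, (G (2 * j) + G (2 * j + 1)) := by
  have h : Icc (2 * a) (2 * b + 1) =
      (Icc a b).image (fun j => 2 * j) ∪ (Icc a b).image (fun j => 2 * j + 1) := by
    ext m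
    simp only [mem_union, mem_image, mem_Icc]
    constructor
    · intro hm
      obtain ⟨j, rfl | rfl⟩ := realize_cases m
      · exact Or.inl ⟨j, by omega, rfl⟩
      · exact Or.inr ⟨j, by omega, rfl⟩
    · rintro (⟨j, hj, rfl⟩ | ⟨j, hj, rfl⟩) <;> omega
  rw [h, sum_union, sum_image, sum_image, sum_add_distrib]
  · intro x _ y _ hxy
    simp only at hxy
    omega
  · intro x _ y _ hxy
    simp only at hxy
    omega
  · rw [disjoint_left]
    intro m h1 h2
    simp only [mem_image] at h1 h2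
    obtain ⟨x, _, hx⟩ := h1
    obtain ⟨y, _, hy⟩ := h2
    omega

lemma realize_shift {A : Type} [AddCommMonoid A] {a b t lo hi : ℤ} (h1 : a + t ≤ lo)
    (h2 : hi ≤ b + t) (F : ℤ → A) :
    ∑ j ∈ Icc a b, (if j + t ∈ Icc lo hi then F (j + t) else 0) = ∑ β ∈ Icc lo hi, F β := by
  rw [← sum_filter]
  refine sum_nbij' (fun j => j + t) (fun β => β - t) ?_ ?_ ?_ ?_ ?_
  · intro j hj
    exact (mem_filter.1 hj).2
  · intro β hβ
    simp only [mem_filter, mem_Icc] at hβ ⊢
    omega
  · intro j _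
    simp
  · intro β _
    simp
  · intro j _
    rfl

lemma realize_sum_le {α β : Type} [DecidableEq β] (S : Finset α) (T : Finset β) (F : α → ℕ)
    (f : β → ℕ) (g : α → β) (hg : Function.Injective g)
    (h : ∀ a ∈ S, F a ≠ 0 → g a ∈ T ∧ F a ≤ f (g a)) : ∑ a ∈ S, F a ≤ ∑ b ∈ T, f b := by
  classical
  calc ∑ a ∈ S, F a = ∑ a ∈ S with F a ≠ 0, F a := (sum_filter_ne_zero S).symm
    _ ≤ ∑ a ∈ S with F a ≠ 0, f (g a) :=
        sum_le_sum fun a ha => (h a (mem_filter.1 ha).1 (mem_filter.1 ha).2).2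
    _ = ∑ b ∈ (S.filter fun a => F a ≠ 0).image g, f b :=
        (sum_image fun x _ y _ hxy => hg hxy).symm
    _ ≤ ∑ b ∈ T, f b := by
        refine sum_le_sum_of_subset fun b hb => ?_
        obtain ⟨a, ha, rfl⟩ := mem_image.1 hb
        exact (h a (mem_filter.1 ha).1 (mem_filter.1 ha).2).1

lemma realize_emL_even (c j : ℤ) (σ : ZMod 2) :
    emL n k c (2 * j) σ = Pi.single none (Pi.single σ (tt n (j + c))) := by
  rw [← emL_even c (j + c) σ, add_sub_cancel_right]

lemma realize_emL_odd (c j : ℤ) (σ : ZMod 2) :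
    emL n k c (2 * j + 1) σ = Pi.single none (Pi.single (σ + 1) (tt n (j + -c))) := by
  rw [← emL_odd c (j + -c) σ, neg_add_cancel_right]

lemma realize_oc (c : ℤ) (cf : Cf ℤ k) (p : ℤ) :
    oc (eH c) cf p = (szJ univ fun i => cf.2 (p + 2 * c) (some i, 0)) +
      (szJ univ fun i => cf.2 p (some i, 1)) +
      ((cf.2 p (none, 0)).natAbs + (cf.2 p (none, 1)).natAbs) := by
  unfold oc szJ
  rw [Fintype.sum_prod_type, Fintype.sum_option, realize_z2_sum]
  simp only [realize_z2_sum, sum_add_distrib]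
  simp [ownO, add_comm]

lemma realize_owned (c : ℤ) (M : ℕ) (cf : Cf ℤ k)
    (h : ∀ q ∉ SS (str (eH c)) (Ico 0 (M : ℤ)), cf.2 q = 0) :
    ∑ p ∈ Icc (-1 : ℤ) M, oc (eH c) cf p + spc c M cf.2 ≤
      ∑ q ∈ SS (str (eH c)) (Ico 0 (M : ℤ)), szJ univ (cf.2 q) := by
  unfold oc spc szJ
  rw [sum_comm, sum_comm (s := SS (str (eH c)) (Ico 0 (M : ℤ))),
    sum_comm (s := SS (str (eH c)) (Ico 0 (M : ℤ))), ← sum_add_distrib]
  refine sum_le_sum fun d _ => ?_
  have h1 : ∑ p ∈ Icc (-1 : ℤ) M, (cf.2 (p + ownO (eH c) d) d).natAbs ≤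
      ∑ q ∈ SS (str (eH c)) (Ico 0 (M : ℤ)),
        if q - ownO (eH c) d ∈ Icc (-1 : ℤ) M then (cf.2 q d).natAbs else 0 := by
    refine realize_sum_le _ _ _ _ (fun p => p + ownO (eH c) d) (add_left_injective _) ?_
    intro p hp hne
    refine ⟨?_, ?_⟩
    · by_contra hq
      rw [h _ hq] at hne
      exact hne rfl
    · simp only [add_sub_cancel_right]
      rw [if_pos hp]
  refine (Nat.add_le_add_right h1 _).trans ?_
  rw [← sum_add_distrib]
  refine sum_le_sum fun q _ => ?_
  split_ifs <;> simp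

lemma realize_charge {c : ℤ} {B M : ℕ} {cf : Cf ℤ k}
    (hcf : cf ∈ cfg k B (eH c) (Ico 0 (M : ℤ))) {q : ℤ}
    (hq : q ∈ Icc (-1 : ℤ) M ∨ q - 2 * c ∈ Icc (-1 : ℤ) M) :
    ∑ i, cf.2 q (some i, 0) = cf.1 (q - 2 * c, 0) - cf.1 (q - (2 * c + 1), 1) ∧
      ∑ i, cf.2 q (some i, 1) = cf.1 (q, 1) - cf.1 (q, 0) := by
  obtain ⟨hv, h1, -, h3⟩ := mem_cfg.1 hcf
  rcases Nat.eq_zero_or_pos M with rfl | hM
  · have e0 : SS (str (eH c)) (Ico 0 ((0 : ℕ) : ℤ)) = ∅ := by simp [SS]
    rw [e0] at h1 h3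
    have a1 : ∀ a, cf.1 a = 0 := fun a => h1 a (by simp [slots])
    have a2 : cf.2 q = 0 := h3 q (by simp)
    simp [a1, a2]
  · have hq' : q ∈ SS (str (eH c)) (Ico 0 (M : ℤ)) := by
      simp only [SS, mem_biUnion, mem_str, eH_zero, eH_one, eT_eH, mem_Ico]
      simp only [mem_Icc] at hq
      rcases hq with hq | hq
      · exact ⟨max 0 (min q (M - 1)), by omega, by omega⟩
      · exact ⟨max 0 (min (q - 2 * c) (M - 1)), by omega, by omega⟩
    have := (hv.2 q hq').2
    simpa [hs, slot] using this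

/-- The heights to the right of the odd sites. -/
def realize_HO (M : ℕ) (cf : Cf ℤ k) (p : ℤ) : ℤ := cf.1 (max (-2) (min p M), 1)

/-- The heights along the line of sites. -/
noncomputable def realize_H (c : ℤ) (M : ℕ) (cf : Cf ℤ k) : ℤ → ℤ :=
  realize_par
    (fun j => if j + -c ∈ Icc (-1 : ℤ) M then cf.1 (j + -c, 0) else realize_HO M cf (j + -c))
    (fun j => realize_HO M cf (j + -c))

/-- The toggle digits along the line of sites. -/
noncomputable def realize_y (c : ℤ) (M : ℕ) (cf : Cf ℤ k) : ℤ → Fin k → ℤ :=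
  realize_par
    (fun j => if j + -c ∈ Icc (-1 : ℤ) M then fun i => cf.2 (j + -c + 2 * c) (some i, 0) else 0)
    (fun j => if j + -c ∈ Icc (-1 : ℤ) M then fun i => cf.2 (j + -c) (some i, 1) else 0)

open Classical in
/-- The lamps along the line of sites, for a choice of the lamps written at even sites. -/
noncomputable def realize_z (cg : ℤ) (M : ℕ) (cf : Cf ℤ k) (P : ℤ → ZMod 2 → Prop) :
    ℤ → ZMod 2 → ℤ :=
  realize_par
    (fun j => if j + cg ∈ Icc (-1 : ℤ) M then
      fun σ => if P (j + cg) σ then cf.2 (j + cg) (none, σ) else 0 else 0)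
    (fun j => if j + -cg ∈ Icc (-1 : ℤ) M then
      fun σ => if P (j + -cg) (σ + 1) then 0 else cf.2 (j + -cg) (none, σ + 1) else 0)

lemma realize_H_odd (c : ℤ) (M : ℕ) (cf : Cf ℤ k) (j : ℤ) :
    realize_H c M cf (2 * j + 1) = realize_HO M cf (j + -c) := realize_par_odd _ _ _

lemma realize_H_even (c : ℤ) (M : ℕ) (cf : Cf ℤ k) (j : ℤ) :
    realize_H c M cf (2 * j) =
      if j + -c ∈ Icc (-1 : ℤ) M then cf.1 (j + -c, 0) else realize_HO M cf (j + -c) :=
  realize_par_even _ _ _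

lemma realize_y_even (c : ℤ) (M : ℕ) (cf : Cf ℤ k) (j : ℤ) :
    realize_y c M cf (2 * j) =
      if j + -c ∈ Icc (-1 : ℤ) M then fun i => cf.2 (j + -c + 2 * c) (some i, 0) else 0 :=
  realize_par_even _ _ _

lemma realize_y_odd (c : ℤ) (M : ℕ) (cf : Cf ℤ k) (j : ℤ) :
    realize_y c M cf (2 * j + 1) =
      if j + -c ∈ Icc (-1 : ℤ) M then fun i => cf.2 (j + -c) (some i, 1) else 0 :=
  realize_par_odd _ _ _

open Classical in
lemma realize_z_even (cg : ℤ) (M : ℕ) (cf : Cf ℤ k) (P : ℤ → ZMod 2 → Prop) (j : ℤ) :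
    realize_z cg M cf P (2 * j) = if j + cg ∈ Icc (-1 : ℤ) M then
      fun σ => if P (j + cg) σ then cf.2 (j + cg) (none, σ) else 0 else 0 :=
  realize_par_even _ _ _

open Classical in
lemma realize_z_odd (cg : ℤ) (M : ℕ) (cf : Cf ℤ k) (P : ℤ → ZMod 2 → Prop) (j : ℤ) :
    realize_z cg M cf P (2 * j + 1) = if j + -cg ∈ Icc (-1 : ℤ) M then
      fun σ => if P (j + -cg) (σ + 1) then 0 else cf.2 (j + -cg) (none, σ + 1) else 0 :=
  realize_par_odd _ _ _

lemma realize_HO_in {M : ℕ} (cf : Cf ℤ k) {p : ℤ} (h1 : -2 ≤ p) (h2 : p ≤ M) :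
    realize_HO M cf p = cf.1 (p, 1) := by
  unfold realize_HO
  rw [show max (-2) (min p (M : ℤ)) = p by omega]

lemma realize_hch {c : ℤ} {B M : ℕ} {cf : Cf ℤ k}
    (hcf : cf ∈ cfg k B (eH c) (Ico 0 (M : ℤ))) (m : ℤ) :
    ∑ i, realize_y c M cf m i = realize_H c M cf m - realize_H c M cf (m - 1) := by
  obtain ⟨j, rfl | rfl⟩ := realize_cases m
  · rw [show 2 * j - 1 = 2 * (j - 1) + 1 by ring, realize_H_odd, realize_H_even, realize_y_even]
    split_ifs with h
    · have h' := mem_Icc.1 h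
      have := (realize_charge hcf (q := j + -c + 2 * c)
        (Or.inr (by rw [add_sub_cancel_right]; exact h))).1
      rw [this, realize_HO_in cf (by omega) (by omega), add_sub_cancel_right,
        show j + -c + 2 * c - (2 * c + 1) = j - 1 + -c by ring]
    · rw [mem_Icc] at h
      unfold realize_HO
      rw [show max (-2) (min (j + -c) (M : ℤ)) = max (-2) (min (j - 1 + -c) (M : ℤ)) by omega]
      simp
  · rw [add_sub_cancel_right, realize_H_odd, realize_H_even, realize_y_odd]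
    split_ifs with h
    · have h' := mem_Icc.1 h
      rw [(realize_charge hcf (Or.inl h)).2, realize_HO_in cf (by omega) (by omega)]
    · simp

lemma realize_rho {c : ℤ} {B M : ℕ} {cf : Cf ℤ k}
    (hcf : cf ∈ cfg k B (eH c) (Ico 0 (M : ℤ))) (S : Finset ℤ) :
    ∑ m ∈ S, 2 * rho (realize_H c M cf m) ≤
      ∑ a ∈ Ico 0 (M : ℤ) ×ˢ (univ : Finset (Fin 2)), 2 * rho (cf.1 a) := by
  obtain ⟨-, -, h2, -⟩ := mem_cfg.1 hcf
  have hO : ∀ p, rho (realize_HO M cf p) ≠ 0 → 0 ≤ p ∧ p < M := by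
    intro p hp
    by_contra hn
    refine hp (rho_eq_zero.2 (h2 _ ?_))
    simp only [mem_Ico]
    omega
  refine realize_sum_le _ _ _ _ (edg c) ?_ ?_
  · intro x y hxy
    simp only [edg, Prod.mk.injEq] at hxy
    obtain ⟨h1, h3⟩ := hxy
    split_ifs at h3 with a b b
    · omega
    · exact absurd h3 (by decide)
    · exact absurd h3 (by decide)
    · omega
  · intro m _ hne
    obtain ⟨j, rfl | rfl⟩ := realize_cases m
    · have he : edg c (2 * j) = (j + -c, 0) := by
        unfold edg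
        rw [if_pos (by omega), show 2 * j / 2 - c = j + -c by omega]
      rw [he]
      rw [realize_H_even] at hne ⊢
      split_ifs at hne ⊢ with h
      · refine ⟨?_, le_rfl⟩
        rw [mem_product]
        refine ⟨?_, mem_univ _⟩
        by_contra hn
        rw [rho_eq_zero.2 (h2 (j + -c, 0) hn)] at hne
        exact hne rfl
      · have := hO (j + -c) (by omega)
        rw [mem_Icc] at h
        omega
    · have he : edg c (2 * j + 1) = (j + -c, 1) := by
        unfold edg
        rw [if_neg (by omega), show (2 * j + 1) / 2 - c = j + -c by omega]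
      rw [he]
      rw [realize_H_odd] at hne ⊢
      have := hO (j + -c) (by omega)
      rw [realize_HO_in cf (by omega) (by omega)]
      refine ⟨?_, le_rfl⟩
      rw [mem_product, mem_Ico]
      exact ⟨this, mem_univ _⟩

lemma realize_size {c cg : ℤ} (hcg : |cg| ≤ |c|) (M : ℕ) (cf : Cf ℤ k)
    (P : ℤ → ZMod 2 → Prop) :
    ∑ m ∈ Icc (2 * (-1 - |c|)) (2 * (M + |c|) + 1),
      (szJ univ (realize_y c M cf m) + szJ univ (realize_z cg M cf P m)) =
      ∑ p ∈ Icc (-1 : ℤ) M, oc (eH c) cf p := by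
  classical
  have a1 := le_abs_self c
  have a2 := neg_abs_le c
  have a3 := le_abs_self cg
  have a4 := neg_abs_le cg
  have z1 : szJ univ (0 : Fin k → ℤ) = 0 := by simp [szJ]
  have z2 : szJ univ (0 : ZMod 2 → ℤ) = 0 := by simp [szJ]
  rw [realize_sum_par]
  simp only [realize_y_even, realize_y_odd, realize_z_even, realize_z_odd, apply_ite (szJ univ),
    z1, z2, sum_add_distrib]
  rw [realize_shift (by omega) (by omega)
      (fun p => szJ univ fun i => cf.2 (p + 2 * c) (some i, 0)),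
    realize_shift (by omega) (by omega) (fun p => szJ univ fun i => cf.2 p (some i, 1)),
    realize_shift (by omega) (by omega)
      (fun p => szJ univ fun σ => if P p σ then cf.2 p (none, σ) else 0),
    realize_shift (by omega) (by omega)
      (fun p => szJ univ fun σ => if P p (σ + 1) then 0 else cf.2 p (none, σ + 1))]
  simp only [← sum_add_distrib]
  refine sum_congr rfl fun p _ => ?_
  rw [realize_oc]
  have : (szJ univ fun σ => if P p σ then cf.2 p (none, σ) else 0) +
      (szJ univ fun σ => if P p (σ + 1) then 0 else cf.2 p (none, σ + 1)) =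
      (cf.2 p (none, 0)).natAbs + (cf.2 p (none, 1)).natAbs := by
    unfold szJ
    simp only [realize_z2_sum, zero_add, z2_one_add_one]
    split_ifs <;> simp [add_comm]
  omega

lemma realize_val {c cg : ℤ} (hcg : |cg| ≤ |c|) (M : ℕ) (cf : Cf ℤ k)
    (P : ℤ → ZMod 2 → Prop) :
    ∑ m ∈ Icc (2 * (-1 - |c|)) (2 * (M + |c|) + 1),
      (emU n m (realize_y c M cf m) + ∑ σ, realize_z cg M cf P m σ • emL n k cg m σ) =
      valS n c M cf.2 := by
  classical
  have a1 := le_abs_self c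
  have a2 := neg_abs_le c
  have a3 := le_abs_self cg
  have a4 := neg_abs_le cg
  rw [realize_sum_par]
  funext o s
  simp only [Finset.sum_apply, Pi.add_apply, Pi.smul_apply, realize_emL_even, realize_emL_odd]
  rcases o with _ | i
  · simp only [emU_none, Pi.zero_apply, zero_add, Pi.single_eq_same]
    have e1 : ∀ j, ∑ σ, realize_z cg M cf P (2 * j) σ •
        (Pi.single σ (tt n (j + cg)) : Lm n) s = if j + cg ∈ Icc (-1 : ℤ) M then
          (if P (j + cg) s then cf.2 (j + cg) (none, s) else 0) • tt n (j + cg) else 0 := by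
      intro j
      rw [sum_eq_single s, Pi.single_eq_same, realize_z_even]
      · split_ifs <;> simp [*]
      · intro σ _ hσ
        rw [Pi.single_eq_of_ne hσ.symm, smul_zero]
      · intro h
        exact absurd (mem_univ _) h
    have e2 : ∀ j, ∑ σ, realize_z cg M cf P (2 * j + 1) σ •
        (Pi.single (σ + 1) (tt n (j + -cg)) : Lm n) s = if j + -cg ∈ Icc (-1 : ℤ) M then
          (if P (j + -cg) s then 0 else cf.2 (j + -cg) (none, s)) • tt n (j + -cg) else 0 := by
      intro j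
      have hs : s + 1 + 1 = s := by rw [add_assoc, z2_one_add_one, add_zero]
      rw [sum_eq_single (s + 1), hs, Pi.single_eq_same, realize_z_odd]
      · split_ifs <;> simp [*]
      · intro σ _ hσ
        rw [Pi.single_eq_of_ne, smul_zero]
        rintro rfl
        exact hσ (by rw [add_assoc, z2_one_add_one, add_zero])
      · intro h
        exact absurd (mem_univ _) h
    simp only [e1, e2, sum_add_distrib]
    rw [realize_shift (by omega) (by omega)
        (fun p => (if P p s then cf.2 p (none, s) else 0) • tt n p),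
      realize_shift (by omega) (by omega)
        (fun p => (if P p s then 0 else cf.2 p (none, s)) • tt n p), ← sum_add_distrib]
    unfold valS
    refine sum_congr rfl fun p _ => ?_
    split_ifs <;> simp [ownO, off]
  · have e0 : ∀ f : Lm n, (Pi.single none f : Wm n k) (some i) s = 0 := fun f => by
      rw [Pi.single_eq_of_ne (by simp)]
      rfl
    simp only [e0, smul_zero, sum_const_zero, add_zero, emU_some, realize_cast_even,
      realize_cast_odd]
    have e1 : ∀ j : ℤ, 2 * j / 2 = j + -c + c := fun j => by omega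
    have e2 : ∀ j : ℤ, (2 * j + 1) / 2 = j + -c + c := fun j => by omega
    simp only [e1, e2, realize_y_even, realize_y_odd]
    unfold valS
    rcases z2_cases s with rfl | rfl
    · have := realize_shift (a := -1 - |c|) (b := M + |c|) (t := -c) (lo := -1) (hi := M)
        (by omega) (by omega) (fun p => cf.2 (p + 2 * c) (some i, 0) • tt n (p + c))
      refine Eq.trans (sum_congr rfl fun j _ => ?_) (this.trans (sum_congr rfl fun p _ => ?_))
      · by_cases hj : j + -c ∈ Icc (-1 : ℤ) M <;> simp [hj]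
      · simp only [ownO, off, ne_eq, reduceCtorEq, not_false_eq_true, and_self, if_true,
          if_false, eH_zero]
        rw [show p + 2 * c + -c = p + c by ring]
    · have := realize_shift (a := -1 - |c|) (b := M + |c|) (t := -c) (lo := -1) (hi := M)
        (by omega) (by omega) (fun p => cf.2 p (some i, 1) • tt n (p + c))
      refine Eq.trans (sum_congr rfl fun j _ => ?_) (this.trans (sum_congr rfl fun p _ => ?_))
      · by_cases hj : j + -c ∈ Icc (-1 : ℤ) M <;> simp [hj]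
      · simp [ownO, off]

/-- The lamp `φ` of the node `β` can be written at its even site without extra cost. -/
def realize_P (c cg : ℤ) (M : ℕ) (cf : Cf ℤ k) (β : ℤ) (φ : ZMod 2) : Prop :=
  ¬ (realize_y c M cf (2 * (β - cg)) = 0 ∧ rho (realize_H c M cf (2 * (β - cg))) = 0 ∧
    φ = (realize_H c M cf (2 * (β - cg)) : ZMod 2) + 1)

open Classical in
lemma realize_hard {c cg : ℤ} (hcg : cg = c ∨ cg = 0) {B M : ℕ} {cf : Cf ℤ k}
    (hcf : cf ∈ cfg k B (eH c) (Ico 0 (M : ℤ))) (S : Finset ℤ) :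
    (S.filter fun m => realize_y c M cf m = 0 ∧ rho (realize_H c M cf m) = 0 ∧
      realize_z cg M cf (realize_P c cg M cf) m ((realize_H c M cf m : ZMod 2) + 1) ≠ 0).card ≤
      ((SS (str (eH c)) (Ico 0 (M : ℤ))).filter fun q =>
        Hard (hs (eH c) cf.1 q) (cf.2 q)).card + (4 * c.natAbs + 2) := by
  have key : ∀ m, realize_y c M cf m = 0 → rho (realize_H c M cf m) = 0 →
      realize_z cg M cf (realize_P c cg M cf) m ((realize_H c M cf m : ZMod 2) + 1) ≠ 0 →
      m % 2 = 1 ∧ (m / 2 - c ∈ ((SS (str (eH c)) (Ico 0 (M : ℤ))).filter fun q =>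
        Hard (hs (eH c) cf.1 q) (cf.2 q)) ∪
          (Icc (-1) (-1 + 2 * |c|) ∪ Icc (M - 2 * |c|) (M : ℤ))) := by
    intro m hy hr hz
    obtain ⟨j, rfl | rfl⟩ := realize_cases m
    · exfalso
      rw [realize_z_even] at hz
      split_ifs at hz with h
      · simp only at hz
        rw [if_neg] at hz
        · exact hz rfl
        · unfold realize_P
          rw [add_sub_cancel_right, not_not]
          exact ⟨hy, hr, rfl⟩
      · exact hz rfl
    · refine ⟨by omega, ?_⟩
      rw [show (2 * j + 1) / 2 - c = j + -c by omega]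
      rw [realize_z_odd] at hz
      split_ifs at hz with h
      swap
      · exact absurd rfl hz
      simp only at hz
      split_ifs at hz with hP
      · exact absurd rfl hz
      unfold realize_P at hP
      rw [not_not] at hP
      obtain ⟨hy', hr', hφ⟩ := hP
      have hφ' := add_right_cancel hφ
      rcases hcg with rfl | rfl
      · by_cases hb : j + -cg - 2 * cg ∈ Icc (-1 : ℤ) M
        · refine mem_union_left _ (mem_filter.2 ⟨?_, ?_⟩)
          · by_contra hq
            rw [(mem_cfg.1 hcf).2.2.2 _ hq] at hz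
            exact hz rfl
          · have hb' : j + -cg - cg + -cg ∈ Icc (-1 : ℤ) M := by
              rwa [show j + -cg - cg + -cg = j + -cg - 2 * cg by ring]
            have hI := mem_Icc.1 h
            rw [realize_y_even, if_pos hb', show j + -cg - cg + -cg + 2 * cg = j + -cg by ring]
              at hy'
            rw [realize_y_odd, if_pos h] at hy
            rw [realize_H_even, if_pos hb', show j + -cg - cg + -cg = j + -cg - 2 * cg by ring]
              at hr' hφ'
            rw [realize_H_odd, realize_HO_in cf (by omega) (by omega)] at hr hφ' hz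
            obtain ⟨c0, c1⟩ := realize_charge hcf (Or.inl h)
            have y0 : ∀ i, cf.2 (j + -cg) (some i, 0) = 0 := fun i => congrFun hy' i
            have y1 : ∀ i, cf.2 (j + -cg) (some i, 1) = 0 := fun i => congrFun hy i
            simp only [y0, y1, sum_const_zero] at c0 c1
            refine ⟨fun i s => ?_, ?_⟩
            · rcases z2_cases s with rfl | rfl
              · exact y0 i
              · exact y1 i
            · have g0 : hs (eH cg) cf.1 (j + -cg) 0 = cf.1 (j + -cg - 2 * cg, 0) := by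
                simp only [hs, slot, Matrix.cons_val_zero, eH_one]
                omega
              have g2 : hs (eH cg) cf.1 (j + -cg) 2 = cf.1 (j + -cg, 1) := by
                have : hs (eH cg) cf.1 (j + -cg) 2 = cf.1 (j + -cg, 0) := rfl
                omega
              rw [g0, g2]
              rcases rho_eq_zero.1 hr with u | u <;> rcases rho_eq_zero.1 hr' with v | v <;>
                rw [u] at hφ' hz ⊢ <;> rw [v] at hφ' ⊢
              · exact absurd hφ' (by decide)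
              · exact Or.inr ⟨rfl, rfl, hz⟩
              · exact Or.inl ⟨rfl, rfl, hz⟩
              · exact absurd hφ' (by decide)
        · have a1 := le_abs_self cg
          have a2 := neg_abs_le cg
          refine mem_union_right _ ?_
          simp only [mem_union, mem_Icc] at h hb ⊢
          omega
      · exfalso
        have := realize_hch hcf (2 * j + 1)
        rw [hy, add_sub_cancel_right] at this
        simp only [Pi.zero_apply, sum_const_zero] at this
        rw [show j + -0 - 0 = j by ring, show realize_H c M cf (2 * j) =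
          realize_H c M cf (2 * j + 1) by omega] at hφ'
        exact absurd (add_left_cancel (hφ'.trans (add_zero _).symm)) (by decide)
  calc _ ≤ (((SS (str (eH c)) (Ico 0 (M : ℤ))).filter fun q =>
        Hard (hs (eH c) cf.1 q) (cf.2 q)) ∪
          (Icc (-1) (-1 + 2 * |c|) ∪ Icc (M - 2 * |c|) (M : ℤ))).card := by
        refine card_le_card_of_injOn (fun m => m / 2 - c) ?_ ?_
        · intro m hm
          obtain ⟨-, h1, h2, h3⟩ := mem_filter.1 (mem_coe.1 hm)
          exact mem_coe.2 (key m h1 h2 h3).2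
        · intro m hm m' hm' hmm
          obtain ⟨-, h1, h2, h3⟩ := mem_filter.1 (mem_coe.1 hm)
          obtain ⟨-, h1', h2', h3'⟩ := mem_filter.1 (mem_coe.1 hm')
          have := (key m h1 h2 h3).1
          have := (key m' h1' h2' h3').1
          simp only at hmm
          omega
    _ ≤ _ := by
        refine (card_union_le _ _).trans (Nat.add_le_add_left ((card_union_le _ _).trans ?_) _)
        rw [Int.card_Icc, Int.card_Icc, Int.abs_eq_natAbs]
        omega

theorem realize (hk : 0 < k) {c cg : ℤ} (hcg : cg = c ∨ cg = 0) :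
    ∃ (C : ℕ) (g0 : Dh), ∀ (B M : ℕ), ∀ cf ∈ cfg k B (eH c) (Ico 0 (M : ℤ)),
      ∃ (s0 s1 : ZMod 2) (g1 : Dh) (ℓ : ℕ),
        (⟨0, g0, s0⟩ : El n k)⁻¹ * ⟨valS n c M cf.2, g1, s1⟩ ∈ ball (gens n k cg) ℓ ∧
          ℓ + spc c M cf.2 ≤ 2 * M + Ec (eH c) (Ico 0 (M : ℤ)) cf + C := by
  classical
  refine ⟨12 * c.natAbs + 7, gs (2 * (-1 - |c|)), fun B M cf hcf => ?_⟩
  have hcg' : |cg| ≤ |c| := by
    rcases hcg with rfl | rfl
    · exact le_rfl
    · simp
  have a1 := le_abs_self c
  have a2 := neg_abs_le c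
  have hL : 2 * (-1 - |c|) + ((2 * M + 4 * c.natAbs + 3 : ℕ) : ℤ) = 2 * (M + |c|) + 1 := by
    rw [Int.abs_eq_natAbs]
    push_cast
    ring
  obtain ⟨-, -, h2, h3⟩ := mem_cfg.1 hcf
  have hO : ∀ p : ℤ, ¬ (0 ≤ p ∧ p < M) → realize_HO M cf p = 0 ∨ realize_HO M cf p = 1 := by
    intro p hp
    refine h2 _ ?_
    simp only [mem_Ico]
    omega
  have hb := chain_mem_ball (n := n) hk cg (2 * (-1 - |c|)) (2 * M + 4 * c.natAbs + 3)
    (realize_H c M cf) (realize_y c M cf) (realize_z cg M cf (realize_P c cg M cf))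
    (fun m _ => realize_hch hcf m)
    (by
      rw [show 2 * (-1 - |c|) - 1 = 2 * (-2 - |c|) + 1 by ring, realize_H_odd]
      exact hO _ (by omega))
    (by
      rw [hL, realize_H_odd]
      exact hO _ (by omega))
  rw [hL, realize_val hcg', realize_size hcg'] at hb
  refine ⟨_, _, _, _, hb, ?_⟩
  have b1 := realize_rho hcf (Ico (2 * (-1 - |c|)) (2 * (M + |c|) + 1))
  have b2 := realize_owned c M cf h3
  have b3 := realize_hard hcg hcf (Icc (2 * (-1 - |c|)) (2 * (M + |c|) + 1))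
  have b4 : Ec (eH c) (Ico 0 (M : ℤ)) cf =
      ∑ a ∈ Ico 0 (M : ℤ) ×ˢ (univ : Finset (Fin 2)), 2 * rho (cf.1 a) +
        (∑ q ∈ SS (str (eH c)) (Ico 0 (M : ℤ)), szJ univ (cf.2 q) +
          2 * ((SS (str (eH c)) (Ico 0 (M : ℤ))).filter fun q =>
            Hard (hs (eH c) cf.1 q) (cf.2 q)).card) := by
    unfold Ec nc
    rw [sum_add_distrib, ← sum_filter, sum_const, smul_eq_mul, mul_comm _ 2]
  rw [b4]
  convert_to _ + _ + _ + 2 * (filter (fun m => realize_y c M cf m = 0 ∧
    rho (realize_H c M cf m) = 0 ∧ realize_z cg M cf (realize_P c cg M cf) m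
      ((realize_H c M cf m : ZMod 2) + 1) ≠ 0)
        (Icc (2 * (-1 - |c|)) (2 * (M + |c|) + 1))).card + _ ≤ _
  omega

end Pool.Agent.MP_646035_al.PC

namespace Pool.Agent.MP_646035_al.PC

open Finset PT

variable {n k : ℕ} {Q : Type} [AddCommGroup Q] [DecidableEq Q] {e : Fin 2 → Q}

theorem rel_of_val {c : ℤ} {M : ℕ} {cf cf' : Cf ℤ k}
    (h1 : ∀ a : Ed ℤ, a.1 ∉ Ico 0 (M : ℤ) → cf.1 a = cf'.1 a)
    (h2 : ∀ q d, q - ownO (eH c) d ∉ Icc (-1 : ℤ) M → cf.2 q d = cf'.2 q d)
    (h3 : valS n c M cf.2 = valS n c M cf'.2) :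
    cf' - cf ∈ Mv (NN n) (eH c) (Ico 0 (M : ℤ)) := by
  have key : ∀ d : Dg k, ∃ κ : ℤ → ℤ, (∀ j, κ j ≠ 0 → -1 + 1 ≤ j ∧ j ≤ (M : ℤ) - 1) ∧
      ∀ j, (cf' - cf).2 (j + ownO (eH c) d) d = (NN n : ℤ) * κ j - κ (j - 1) - κ (j + 1) := by
    rintro ⟨o, s⟩
    refine exists_carry (fun j => (cf' - cf).2 (j + ownO (eH c) ((o, s) : Dg k)) (o, s)) (-1) M
      (fun j hj => ?_) ?_
    · by_contra hn
      refine hj ?_
      have := h2 (j + ownO (eH c) ((o, s) : Dg k)) (o, s) (by rwa [add_sub_cancel_right, mem_Icc])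
      simp only [Prod.snd_sub, Pi.sub_apply, this, sub_self]
    · have h4 := congrFun (congrFun h3 o) s
      simp only [valS, add_assoc, tt_add, ← smul_mul_assoc, ← sum_mul] at h4
      have h5 := mul_right_cancel₀ (mul_ne_zero (tt_ne_zero _) (tt_ne_zero _)) h4
      simp only [Prod.snd_sub, Pi.sub_apply, sub_smul, sum_sub_distrib]
      exact sub_eq_zero.2 h5.symm
  choose κ k1 k2 using key
  refine ⟨fun q d => κ d (q - ownO (eH c) d), fun a ha => ?_, fun q d hq => ?_, ?_⟩
  · simp only [Prod.fst_sub, Pi.sub_apply, h1 a ha, sub_self]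
  · by_contra hn
    have := k1 d _ hn
    exact hq (mem_Ico.2 ⟨by omega, by omega⟩)
  · funext q d
    have := k2 d (q - ownO (eH c) d)
    rw [sub_add_cancel] at this
    rw [this]
    simp only [carr, eT_eH]
    congr 2
    · congr 1; ring
    · ring

/-- The digits that are not owned by the cells `-1, …, M`. -/
noncomputable def lower_D (k : ℕ) (c : ℤ) (M : ℕ) : Finset (ℤ × Dg k) :=
  (SS (str (eH c)) (Ico 0 (M : ℤ)) ×ˢ univ).filter fun j =>
    j.1 - ownO (eH c) j.2 ∉ Icc (-1 : ℤ) M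

lemma lower_card_D (k : ℕ) (c : ℤ) (M : ℕ) :
    (lower_D k c M).card ≤ (8 * c.natAbs + 3) * Fintype.card (Dg k) := by
  have hsub : lower_D k c M ⊆ (Icc (-1 - 2 * |c|) (2 * |c|) ∪
      Icc ((M : ℤ) - 2 * |c|) (M + 2 * |c|)) ×ˢ univ := by
    rintro ⟨q, d⟩ hj
    obtain ⟨h1, h2⟩ := mem_filter.1 hj
    have h3 := mem_str_helix (c := c) (a := 0) (M := M) (q := q)
      (by rw [zero_add]; exact (mem_product.1 h1).1)
    have h4 : ownO (eH c) d = 2 * c ∨ ownO (eH c) d = 0 := by
      unfold ownO; split_ifs <;> simp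
    have h5 := le_abs_self c
    have h6 := neg_abs_le c
    simp only [mem_Icc] at h2
    simp only [mem_product, mem_union, mem_Icc, mem_univ, and_true]
    omega
  refine (card_le_card hsub).trans ?_
  rw [card_product, card_univ]
  refine Nat.mul_le_mul_right _ ((card_union_le _ _).trans ?_)
  rw [Int.card_Icc, Int.card_Icc, Int.abs_eq_natAbs]
  omega

lemma lower_card_E (c : ℤ) (M : ℕ) :
    (slots (eH c) (SS (str (eH c)) (Ico 0 (M : ℤ))) \ Ico 0 (M : ℤ) ×ˢ univ).card ≤
      8 * c.natAbs + 8 := by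
  have h1 := (card_helix c 0 M).2.2.2
  rw [zero_add] at h1
  have h2 : (Ico 0 (M : ℤ) ×ˢ (univ : Finset (Fin 2))) ⊆
      slots (eH c) (SS (str (eH c)) (Ico 0 (M : ℤ))) := by
    rintro ⟨p, j⟩ hp
    refine mem_biUnion.2 ⟨p, subset_str _ (mem_product.1 hp).1, mem_image.2 ?_⟩
    fin_cases j
    exacts [⟨2, mem_univ _, rfl⟩, ⟨3, mem_univ _, rfl⟩]
  rw [card_sdiff_of_subset h2, card_product, Int.card_Ico, card_univ, Fintype.card_fin]
  omega

lemma lower_spc (c : ℤ) (M : ℕ) (y : ℤ → Dg k → ℤ) :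
    ∑ j ∈ lower_D k c M, (y j.1 j.2).natAbs = spc c M y := by
  rw [lower_D, sum_filter, sum_product, spc]
  refine sum_congr rfl fun q _ => sum_congr rfl fun d _ => ?_
  simp only [ite_not]

theorem Z_lower (hk : 0 < k) {c cg : ℤ} (hcg : cg = c ∨ cg = 0) {e x : ℝ}
    (he : IsRate (gens n k cg) e) (hx : 0 < x) (hxe : x * e < 1) :
    ∃ C : ℝ, ∀ B M : ℕ, x ^ (2 * M) * ZZ (NN n) k B (eH c) x (Ico 0 (M : ℤ)) ≤ C := by
  classical
  obtain ⟨C0, g0, hre⟩ := realize (n := n) hk hcg
  obtain ⟨C1, hC1⟩ := lb he hx hxe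
  have hx1 : x < 1 := by nlinarith [he.one_le]
  have hγ : 1 ≤ (1 + x) / (1 - x) := (one_le_gam 0 hx.le).trans (gam_le 0 hx.le hx1)
  refine ⟨2 ^ (8 * c.natAbs + 8) * (((1 + x) / (1 - x)) ^ ((8 * c.natAbs + 3) *
    Fintype.card (Dg k)) * (2 * C1)) / x ^ C0, fun B M => ?_⟩
  choose! s0 s1 g1 ℓ hb hl using hre B M
  set V : Finset ℤ := Ico 0 (M : ℤ) with hV
  set E := slots (eH c) (SS (str (eH c)) V) \ V ×ˢ univ with hE
  set G : Cf ℤ k → El n k := fun cf =>
    (⟨0, g0, s0 cf⟩ : El n k)⁻¹ * ⟨valS n c M cf.2, g1 cf, s1 cf⟩ with hG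
  set len : El n k → ℕ := fun g => sInf {l | g ∈ ball (gens n k cg) l} with hlen
  set T := (cfg k B (eH c) V).image G with hT
  have hTs : ∑ g ∈ T, x ^ len g ≤ C1 := by
    refine hC1 _ T id len (Set.injOn_id _) fun g hg => ?_
    obtain ⟨cf, hcf, rfl⟩ := mem_image.1 hg
    exact Nat.sInf_mem (s := {l | G cf ∈ ball (gens n k cg) l}) ⟨_, hb cf hcf⟩
  have main := ZZ_le (NN n) B hx.le V (e := eH c)
    (asg 0 E ({0, 1} : Finset ℤ) ×ˢ asg 0 (lower_D k c M) (bx B) ×ˢ (univ : Finset (ZMod 2)) ×ˢ T)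
    (fun cf => (fun a => if a.1 ∈ V then 0 else cf.1 a,
      fun j => if j.1 - ownO (eH c) j.2 ∈ Icc (-1 : ℤ) M then 0 else cf.2 j.1 j.2, s0 cf, G cf))
    (fun a => (∏ j ∈ lower_D k c M, x ^ (a.2.1 j).natAbs) * x ^ len a.2.2.2 / x ^ (2 * M + C0))
    (fun a _ => div_nonneg (mul_nonneg (prod_nonneg fun _ _ => pow_nonneg hx.le _)
      (pow_nonneg hx.le _)) (pow_nonneg hx.le _)) ?_ ?_ ?_
  · have hs : ∑ a ∈ asg 0 E ({0, 1} : Finset ℤ) ×ˢ asg 0 (lower_D k c M) (bx B) ×ˢ
          (univ : Finset (ZMod 2)) ×ˢ T,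
        (∏ j ∈ lower_D k c M, x ^ (a.2.1 j).natAbs) * x ^ len a.2.2.2 / x ^ (2 * M + C0) =
        2 ^ E.card * (gam B x ^ (lower_D k c M).card * (2 * ∑ g ∈ T, x ^ len g)) /
          x ^ (2 * M + C0) := by
      rw [← sum_div]
      refine congrArg (· / x ^ (2 * M + C0)) ?_
      simp only [sum_product, sum_const, card_univ, ZMod.card, ← mul_sum, nsmul_eq_mul,
        card_asg, ← sum_mul]
      rw [sum_asg_prod 0 (lower_D k c M) (bx B) fun _ m => x ^ m.natAbs, prod_const,
        card_pair zero_ne_one]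
      push_cast
      rw [gam]
    rw [hs] at main
    have h0 : 0 ≤ ∑ g ∈ T, x ^ len g := sum_nonneg fun _ _ => pow_nonneg hx.le _
    have hg0 : 0 ≤ gam B x := zero_le_one.trans (one_le_gam B hx.le)
    calc x ^ (2 * M) * ZZ (NN n) k B (eH c) x V
        ≤ x ^ (2 * M) * (2 ^ E.card * (gam B x ^ (lower_D k c M).card *
          (2 * ∑ g ∈ T, x ^ len g)) / x ^ (2 * M + C0)) :=
          mul_le_mul_of_nonneg_left main (pow_nonneg hx.le _)
      _ = 2 ^ E.card * (gam B x ^ (lower_D k c M).card * (2 * ∑ g ∈ T, x ^ len g)) / x ^ C0 := by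
          rw [pow_add, ← mul_div_assoc, mul_div_mul_left _ _ (pow_pos hx _).ne']
      _ ≤ _ := by
          have a1 : (2 : ℝ) ^ E.card ≤ 2 ^ (8 * c.natAbs + 8) :=
            pow_le_pow_right₀ one_le_two (lower_card_E c M)
          have a2 : gam B x ^ (lower_D k c M).card ≤
              ((1 + x) / (1 - x)) ^ ((8 * c.natAbs + 3) * Fintype.card (Dg k)) :=
            (pow_le_pow_left₀ hg0 (gam_le B hx.le hx1) _).trans
              (pow_le_pow_right₀ hγ (lower_card_D k c M))
          refine div_le_div_of_nonneg_right (mul_le_mul a1 (mul_le_mul a2 (by linarith)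
            (by linarith) (pow_nonneg (by linarith) _))
            (mul_nonneg (pow_nonneg hg0 _) (by linarith)) (pow_nonneg zero_le_two _))
            (pow_nonneg hx.le _)
  · intro cf hcf
    obtain ⟨v, m1, m2, m3⟩ := mem_cfg.1 hcf
    refine mem_product.2 ⟨mem_asg.2 ⟨fun a ha => ?_, fun a ha => ?_⟩, mem_product.2
      ⟨mem_asg.2 ⟨fun j hj => ?_, fun j hj => ?_⟩,
        mem_product.2 ⟨mem_univ _, mem_image_of_mem G hcf⟩⟩⟩
    · by_cases h : a.1 ∈ V
      · simp [h]
      · simpa [h] using m2 a h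
    · by_cases h : a.1 ∈ V
      · exact if_pos h
      · refine (if_neg h).trans (m1 a fun h' => ha (mem_sdiff.2 ⟨h', fun h'' => h ?_⟩))
        exact (mem_product.1 h'').1
    · obtain ⟨j1, j2⟩ := mem_filter.1 hj
      refine mem_bx.2 ?_
      simp only [if_neg j2]
      exact (v.2 _ (mem_product.1 j1).1).1 _
    · by_cases h : j.1 - ownO (eH c) j.2 ∈ Icc (-1 : ℤ) M
      · exact if_pos h
      · refine (if_neg h).trans ?_
        rw [m3 j.1 fun h' => hj (mem_filter.2 ⟨mem_product.2 ⟨h', mem_univ _⟩, h⟩)]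
        rfl
  · intro cf _ cf' _ h
    simp only [Prod.mk.injEq] at h
    obtain ⟨e1, e2, e3, e4⟩ := h
    refine rel_of_val (fun a ha => ?_) (fun q d hq => ?_) ?_
    · have ha' : a.1 ∉ V := ha
      simpa only [if_neg ha'] using congrFun e1 a
    · simpa only [if_neg hq] using congrFun e2 (q, d)
    · simp only [hG, e3] at e4
      exact congrArg El.w (mul_left_cancel e4)
  · intro cf hcf
    have h1 : len (G cf) ≤ ℓ cf := Nat.sInf_le (hb cf hcf)
    have h2 := hl cf hcf
    have h3 : ∏ j ∈ lower_D k c M, x ^ (if j.1 - ownO (eH c) j.2 ∈ Icc (-1 : ℤ) M then 0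
        else cf.2 j.1 j.2).natAbs = x ^ spc c M cf.2 := by
      rw [← lower_spc, ← prod_pow_eq_pow_sum]
      exact prod_congr rfl fun j hj => by rw [if_neg (mem_filter.1 hj).2]
    simp only [h3]
    rw [le_div_iff₀ (pow_pos hx _), ← pow_add, ← pow_add]
    exact pow_le_pow_of_le_one hx.le hx1.le (by omega)

end Pool.Agent.MP_646035_al.PC
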