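import Pool.Agent.MP_646035_al.PC.Fc
import Pool.Agent.MP_646035_al.PC.Alg

namespace Pool.Agent.MP_646035_al.PC

open Finset PT

variable {n k : ℕ} {Q : Type} [AddCommGroup Q] [DecidableEq Q] {e : Fin 2 → Q}

section track

variable {c : ℤ} {h h' : El n k} {r : ℕ} {T : Finset ℤ} {Y : Dg k → ℤ → ℤ}
  {R L : ℤ → ZMod 2 → ℕ} {tg : ℤ → ℕ} {Vis : Set (ℤ × ZMod 2)}

lemma track_ud_zero (t : Track c h r T Y R L tg Vis) {m : ℤ} (hm : m ∉ T) (i : Fin k) :
    ud Y m i = 0 := by
  have h1 := (t.tog m).1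
  rw [(t.sR m hm).1, Nat.le_zero, szJ, sum_eq_zero_iff] at h1
  exact Int.natAbs_eq_zero.1 (h1 i (mem_univ i))

lemma track_enlarge (t : Track c h r T Y R L tg Vis) {T' : Finset ℤ} (hT : T ⊆ T') :
    Track c h r T' Y R L tg Vis where
  sY := fun d a ha => hT (t.sY d a ha)
  sR := fun m hm => t.sR m fun h1 => hm (hT h1)
  val := by
    rw [t.val]
    funext o s
    refine sum_subset hT fun a _ ha => ?_
    have : Y (o, s) a = 0 := by
      by_contra h1
      exact ha (t.sY _ _ h1)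
    rw [this, zero_smul]
  cost := by
    refine le_trans (le_of_eq ?_) t.cost
    congr 1
    · refine (sum_subset hT fun m _ hm => ?_).symm
      obtain ⟨h1, h2⟩ := t.sR m hm
      simp only [h1, (h2 0).1, (h2 0).2, (h2 1).1, (h2 1).2, add_zero]
    · refine (sum_subset hT fun a _ ha => sum_eq_zero fun φ _ => ?_).symm
      have : Y (none, φ) a = 0 := by
        by_contra h1
        exact ha (t.sY _ _ h1)
      rw [this, Int.natAbs_zero]
  tog := t.tog
  flow := t.flow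
  chg := fun m => by
    rw [← t.chg m]
    refine (sum_subset (filter_subset_filter _ hT) fun a ha ha' => ?_).symm
    refine sum_eq_zero fun i _ => track_ud_zero t (fun h1 => ha' ?_) i
    exact mem_filter.2 ⟨h1, (mem_filter.1 ha).2⟩
  cur := t.cur
  vtg := t.vtg
  lmp := t.lmp
  anc := t.anc
  con := t.con

lemma track_mono (t : Track c h r T Y R L tg Vis) : Track c h (r + 1) T Y R L tg Vis :=
  { t with cost := t.cost.trans (Nat.le_succ r) }

lemma track_val_cases (s : ZMod 2) : (s = 0 ∧ (s.val : ℤ) = 0) ∨ (s = 1 ∧ (s.val : ℤ) = 1) := by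
  revert s; decide

/-- One more crossing of the edge `p` in the lane `s`. -/
def trackBump (R : ℤ → ZMod 2 → ℕ) (p : ℤ) (s : ZMod 2) : ℤ → ZMod 2 → ℕ :=
  fun m σ => R m σ + if m = p ∧ σ = s then 1 else 0

lemma track_bump_sum (R : ℤ → ZMod 2 → ℕ) (p : ℤ) (s : ZMod 2) (m : ℤ) :
    trackBump R p s m 0 + trackBump R p s m 1 = R m 0 + R m 1 + if m = p then 1 else 0 := by
  unfold trackBump
  rcases z2_cases s with rfl | rfl <;> by_cases hm : m = p <;> simp [hm] <;> omega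

lemma track_bump_one (R : ℤ → ZMod 2 → ℕ) (p : ℤ) (s : ZMod 2) (m : ℤ) :
    (trackBump R p s m 1 : ℤ) = R m 1 + if m = p then (s.val : ℤ) else 0 := by
  unfold trackBump
  rcases track_val_cases s with ⟨rfl, h1⟩ | ⟨rfl, h1⟩ <;> by_cases hm : m = p <;> simp [hm, h1]

lemma track_bump_le (R : ℤ → ZMod 2 → ℕ) (p : ℤ) (s : ZMod 2) (m : ℤ) (σ : ZMod 2) :
    R m σ ≤ trackBump R p s m σ := Nat.le_add_right _ _

lemma track_bump_self (R : ℤ → ZMod 2 → ℕ) (p : ℤ) (s : ZMod 2) : trackBump R p s p s ≠ 0 := by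
  simp [trackBump]

lemma track_bump_ne (R : ℤ → ZMod 2 → ℕ) {p : ℤ} (s : ZMod 2) {m : ℤ} (hm : m ≠ p) (σ : ZMod 2) :
    trackBump R p s m σ = R m σ := by
  simp [trackBump, hm]

lemma track_sum_ite {p : ℤ} (hp : p ∈ T) (f : ℤ → ℕ) :
    ∑ m ∈ T, (f m + if m = p then 1 else 0) = ∑ m ∈ T, f m + 1 := by
  rw [sum_add_distrib, sum_ite_eq' T p, if_pos hp]

lemma track_right (t : Track c h r T Y R L tg Vis) (hp : site h.g ∈ T) (hw : h'.w = h.w)
    (hs : h'.s = h.s) (hg : site h'.g = site h.g + 1) :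
    Track c h' (r + 1) T Y (trackBump R (site h.g) h.s) L tg
      (insert (site h.g + 1, h.s) Vis) where
  sY := t.sY
  sR := fun m hm => ⟨(t.sR m hm).1, fun σ => by
    rw [track_bump_ne R _ (ne_of_mem_of_not_mem hp hm).symm]
    exact (t.sR m hm).2 σ⟩
  val := hw.trans t.val
  cost := by
    have h1 := t.cost
    have h2 := track_sum_ite hp fun m => R m 0 + R m 1 + L m 0 + L m 1 + tg m
    rw [sum_congr rfl (g := fun m => R m 0 + R m 1 + L m 0 + L m 1 + tg m +
      if m = site h.g then 1 else 0) fun m _ => by rw [track_bump_sum]; omega, h2]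
    omega
  tog := t.tog
  flow := fun m => by
    have h1 := t.flow m
    have h2 := congrArg (Nat.cast : ℕ → ℤ) (track_bump_sum R (site h.g) h.s m)
    push_cast at h2
    rw [hg]
    split_ifs at h1 h2 ⊢ <;> omega
  chg := fun m => by
    rw [t.chg m, track_bump_one, hg, hs]
    split_ifs <;> omega
  cur := by rw [hg, hs]; exact Set.mem_insert _ _
  vtg := fun m hm => (t.vtg m hm).imp fun _ h1 => Set.mem_insert_of_mem _ h1
  lmp := fun φ β hβ => (t.lmp φ β hβ).imp (Set.mem_insert_of_mem _) (Set.mem_insert_of_mem _)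
  anc := fun m σ hm => by
    rcases Set.mem_insert_iff.1 hm with h1 | h1
    · obtain ⟨rfl, rfl⟩ := Prod.mk.inj h1
      obtain ⟨m₀, h2, h3⟩ := t.anc _ _ t.cur
      refine ⟨m₀, h2, fun j hj hj' => ?_⟩
      by_cases hjp : j = site h.g
      · have := track_bump_self R (site h.g) h.s
        rw [hjp]; omega
      · have := h3 j (by omega) (by omega)
        rw [track_bump_ne R _ hjp]; exact this
    · obtain ⟨m₀, h2, h3⟩ := t.anc m σ h1
      refine ⟨m₀, h2, fun j hj hj' => ?_⟩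
      have := h3 j hj hj'
      have := track_bump_le R (site h.g) h.s j σ
      omega
  con := fun m σ hm j hj hj' => by
    rw [track_bump_sum]
    by_cases hjp : j = site h.g
    · rw [if_pos hjp]; omega
    · rw [if_neg hjp, add_zero]
      rcases Set.mem_insert_iff.1 hm with h1 | h1
      · obtain ⟨rfl, rfl⟩ := Prod.mk.inj h1
        exact t.con _ _ t.cur j (by omega) (by omega)
      · exact t.con m σ h1 j hj hj'

lemma track_left (t : Track c h r T Y R L tg Vis) (hp : site h.g - 1 ∈ T) (hw : h'.w = h.w)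
    (hs : h'.s = h.s) (hg : site h'.g = site h.g - 1) :
    Track c h' (r + 1) T Y R (trackBump L (site h.g - 1) h.s) tg
      (insert (site h.g - 1, h.s) Vis) where
  sY := t.sY
  sR := fun m hm => ⟨(t.sR m hm).1, fun σ => by
    rw [track_bump_ne L _ (ne_of_mem_of_not_mem hp hm).symm]
    exact (t.sR m hm).2 σ⟩
  val := hw.trans t.val
  cost := by
    have h1 := t.cost
    have h2 := track_sum_ite hp fun m => R m 0 + R m 1 + L m 0 + L m 1 + tg m
    rw [sum_congr rfl (g := fun m => R m 0 + R m 1 + L m 0 + L m 1 + tg m +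
      if m = site h.g - 1 then 1 else 0) fun m _ => by
        have := track_bump_sum L (site h.g - 1) h.s m
        omega, h2]
    omega
  tog := t.tog
  flow := fun m => by
    have h1 := t.flow m
    have h2 := congrArg (Nat.cast : ℕ → ℤ) (track_bump_sum L (site h.g - 1) h.s m)
    push_cast at h2
    rw [hg]
    split_ifs at h1 h2 ⊢ <;> omega
  chg := fun m => by
    rw [t.chg m, track_bump_one, hg, hs]
    split_ifs <;> omega
  cur := by rw [hg, hs]; exact Set.mem_insert _ _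
  vtg := fun m hm => (t.vtg m hm).imp fun _ h1 => Set.mem_insert_of_mem _ h1
  lmp := fun φ β hβ => (t.lmp φ β hβ).imp (Set.mem_insert_of_mem _) (Set.mem_insert_of_mem _)
  anc := fun m σ hm => by
    rcases Set.mem_insert_iff.1 hm with h1 | h1
    · obtain ⟨rfl, rfl⟩ := Prod.mk.inj h1
      obtain ⟨m₀, h2, h3⟩ := t.anc _ _ t.cur
      refine ⟨m₀, h2, fun j hj hj' => ?_⟩
      by_cases hjp : j = site h.g - 1
      · have := track_bump_self L (site h.g - 1) h.s
        rw [hjp]; omega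
      · have := h3 j (by omega) (by omega)
        rw [track_bump_ne L _ hjp]; exact this
    · obtain ⟨m₀, h2, h3⟩ := t.anc m σ h1
      refine ⟨m₀, h2, fun j hj hj' => ?_⟩
      have := h3 j hj hj'
      have := track_bump_le L (site h.g - 1) h.s j σ
      omega
  con := fun m σ hm j hj hj' => by
    have h0 := track_bump_sum L (site h.g - 1) h.s j
    by_cases hjp : j = site h.g - 1
    · rw [if_pos hjp] at h0; omega
    · rw [if_neg hjp, add_zero] at h0
      rcases Set.mem_insert_iff.1 hm with h1 | h1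
      · obtain ⟨rfl, rfl⟩ := Prod.mk.inj h1
        have := t.con _ _ t.cur j (by omega) (by omega)
        omega
      · have := t.con m σ h1 j hj hj'
        omega

/-- One more unit `ε` of the digit `d` at the position `a`. -/
def trackAdd (Y : Dg k → ℤ → ℤ) (d : Dg k) (a ε : ℤ) : Dg k → ℤ → ℤ :=
  fun d' a' => Y d' a' + if d' = d ∧ a' = a then ε else 0

lemma track_add_supp {d : Dg k} {a ε : ℤ} (hY : ∀ d a, Y d a ≠ 0 → a ∈ T) (ha : a ∈ T)
    (d' : Dg k) (a' : ℤ) (h1 : trackAdd Y d a ε d' a' ≠ 0) : a' ∈ T := by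
  by_cases h2 : a' = a
  · exact h2 ▸ ha
  · refine hY d' a' ?_
    simpa [trackAdd, h2] using h1

lemma track_add_val {d : Dg k} {a ε : ℤ} (ha : a ∈ T) (o : Option (Fin k)) (s : ZMod 2) :
    valW n T (trackAdd Y d a ε) o s =
      valW n T Y o s + if (o, s) = d then ε • tt n a else 0 := by
  unfold valW trackAdd
  simp only [add_smul, sum_add_distrib]
  congr 1
  by_cases h1 : (o, s) = d
  · simp only [h1, true_and, if_true, ite_smul, zero_smul]
    rw [sum_ite_eq' T a, if_pos ha]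
  · simp [h1]

lemma track_lamp (t : Track c h r T Y R L tg Vis) {φ : ZMod 2} {β ε : ℤ} (hβ : β ∈ T)
    (hε : ε.natAbs = 1) (hg : h'.g = h.g) (hs : h'.s = h.s)
    (hw : h'.w = h.w + ε • (Pi.single none (Pi.single φ (tt n β)) : Wm n k))
    (hv : (2 * (β - c), φ) ∈ Vis ∨ (2 * (β + c) + 1, φ + 1) ∈ Vis) :
    Track c h' (r + 1) T (trackAdd Y (none, φ) β ε) R L tg Vis := by
  have hud : ud (trackAdd Y (none, φ) β ε) = ud Y := by
    funext m i
    simp [ud, trackAdd]
  exact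
  { sY := track_add_supp t.sY hβ
    sR := t.sR
    val := by
      rw [hw, t.val]
      funext o s
      rw [track_add_val hβ, Pi.add_apply, Pi.add_apply]
      congr 1
      rcases o with _ | i
      · by_cases h1 : s = φ
        · simp [h1]
        · simp [h1]
      · simp
    cost := by
      have h1 := t.cost
      have h2 := track_sum_ite hβ fun a => ∑ ψ, (Y (none, ψ) a).natAbs
      have h3 : ∑ a ∈ T, ∑ ψ, (trackAdd Y (none, φ) β ε (none, ψ) a).natAbs ≤
          ∑ a ∈ T, (∑ ψ, (Y (none, ψ) a).natAbs + if a = β then 1 else 0) := by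
        refine sum_le_sum fun a _ => ?_
        calc ∑ ψ, (trackAdd Y (none, φ) β ε (none, ψ) a).natAbs
            ≤ ∑ ψ, ((Y (none, ψ) a).natAbs + if ψ = φ then (if a = β then 1 else 0) else 0) := by
              refine sum_le_sum fun ψ _ => (Int.natAbs_add_le _ _).trans ?_
              by_cases h4 : ψ = φ <;> by_cases h5 : a = β <;> simp [h4, h5, hε]
          _ = _ := by rw [sum_add_distrib, sum_ite_eq' univ φ, if_pos (mem_univ _)]
      omega
    tog := by rw [hud]; exact t.tog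
    flow := by rw [hg]; exact t.flow
    chg := by rw [hud, hg, hs]; exact t.chg
    cur := by rw [hg, hs]; exact t.cur
    vtg := t.vtg
    lmp := fun ψ a ha => by
      by_cases h1 : ψ = φ ∧ a = β
      · rw [h1.1, h1.2]; exact hv
      · refine t.lmp ψ a ?_
        simpa [trackAdd, h1] using ha
    anc := t.anc
    con := t.con }

lemma track_site_eq {m p : ℤ} : ((m : ZMod 2) = (p : ZMod 2) ∧ m / 2 = p / 2) ↔ m = p := by
  refine ⟨fun h1 => ?_, fun h1 => h1 ▸ ⟨rfl, rfl⟩⟩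
  have h2 := (ZMod.intCast_eq_intCast_iff' m p 2).1 h1.1
  have h3 := h1.2
  push_cast at h2
  omega

lemma track_ud_add (i : Fin k) (p ε m : ℤ) (j : Fin k) :
    ud (trackAdd Y (some i, (p : ZMod 2)) (p / 2) ε) m j =
      ud Y m j + if j = i then (if m = p then ε else 0) else 0 := by
  unfold ud trackAdd
  congr 1
  by_cases h1 : j = i
  · simp only [h1, Prod.mk.injEq, true_and, if_true, track_site_eq]
  · simp [h1]

lemma track_szJ (y : Fin k → ℤ) (i : Fin k) {ε : ℤ} (hε : ε = 1 ∨ ε = -1) :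
    szJ univ (fun j => y j + if j = i then ε else 0) = szJ univ y + 1 ∨
      szJ univ (fun j => y j + if j = i then ε else 0) + 1 = szJ univ y := by
  unfold szJ
  rw [← add_sum_erase _ _ (mem_univ i), ← add_sum_erase _ (fun j => (y j).natAbs) (mem_univ i),
    sum_congr rfl (g := fun j => (y j).natAbs) fun j hj => by
      simp only [if_neg (ne_of_mem_erase hj), add_zero]]
  simp only [if_true]
  omega

lemma track_tog (t : Track c h r T Y R L tg Vis) (i : Fin k) (hp : site h.g ∈ T)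
    (hp' : site h.g / 2 ∈ T) :
    Track c (h * tog n i) (r + 1) T
      (trackAdd Y (some i, ((site h.g : ℤ) : ZMod 2)) (site h.g / 2) (sgz h.s)) R L
      (fun m => tg m + if m = site h.g then 1 else 0) (insert (site h.g, h.s + 1) Vis) := by
  have hg : (h * tog n i).g = h.g := mul_one _
  have hs : (h * tog n i).s = h.s + 1 := rfl
  have hε : sgz h.s = 1 ∨ sgz h.s = -1 := by
    rcases z2_cases h.s with h1 | h1 <;> simp [h1]
  exact
  { sY := track_add_supp t.sY hp'
    sR := fun m hm => ⟨by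
      rw [if_neg (ne_of_mem_of_not_mem hp hm).symm]; exact (t.sR m hm).1, (t.sR m hm).2⟩
    val := by
      have h1 := emU_tog (n := n) (site h.g) h.s i
      rw [gs_site] at h1
      rw [mul_w, h1, t.val]
      funext o s
      rw [track_add_val hp', Pi.add_apply, Pi.add_apply]
      congr 1
      rcases o with _ | j
      · rw [emU_none]; simp
      · rw [emU_some]
        by_cases h2 : j = i
        · simp [h2]
        · simp [h2]
    cost := by
      have h1 := t.cost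
      have h2 := track_sum_ite hp fun m => R m 0 + R m 1 + L m 0 + L m 1 + tg m
      rw [sum_congr rfl (g := fun m => R m 0 + R m 1 + L m 0 + L m 1 + tg m +
        if m = site h.g then 1 else 0) fun m _ => by omega, h2]
      have h3 : ∀ φ β, trackAdd Y (some i, ((site h.g : ℤ) : ZMod 2)) (site h.g / 2) (sgz h.s)
          (none, φ) β = Y (none, φ) β := fun φ β => by simp [trackAdd]
      simp only [h3]
      omega
    tog := fun m => by
      have h1 := t.tog m
      have h2 := funext (track_ud_add (Y := Y) i (site h.g) (sgz h.s) m)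
      rw [h2]
      by_cases hm : m = site h.g
      · simp only [if_pos hm]
        have := track_szJ (ud Y m) i hε
        omega
      · simp only [if_neg hm, ite_self, add_zero]
        exact h1
    flow := by rw [hg]; exact t.flow
    chg := fun m => by
      simp only [track_ud_add, sum_add_distrib, sum_ite_eq' univ i, mem_univ, if_true]
      rw [t.chg m, sum_ite_eq', hg, hs]
      simp only [mem_filter, hp, true_and]
      have : ((h.s + 1).val : ℤ) = h.s.val + sgz h.s := by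
        generalize h.s = s
        revert s; decide
      split_ifs <;> omega
    cur := by rw [hg, hs]; exact Set.mem_insert _ _
    vtg := fun m hm => by
      by_cases h1 : m = site h.g
      · exact ⟨h.s + 1, h1 ▸ Set.mem_insert _ _⟩
      · rw [if_neg h1, add_zero] at hm
        exact (t.vtg m hm).imp fun _ h2 => Set.mem_insert_of_mem _ h2
    lmp := fun φ β hβ => (t.lmp φ β (by simpa [trackAdd] using hβ)).imp
      (Set.mem_insert_of_mem _) (Set.mem_insert_of_mem _)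
    anc := fun m σ hm => by
      rcases Set.mem_insert_iff.1 hm with h1 | h1
      · obtain ⟨rfl, rfl⟩ := Prod.mk.inj h1
        exact ⟨site h.g, Or.inl (by simp), fun j hj hj' => by omega⟩
      · obtain ⟨m₀, h2, h3⟩ := t.anc m σ h1
        exact ⟨m₀, h2.imp_left fun h4 => by omega, h3⟩
    con := fun m σ hm => by
      rcases Set.mem_insert_iff.1 hm with h1 | h1
      · obtain ⟨rfl, rfl⟩ := Prod.mk.inj h1
        exact t.con _ _ t.cur
      · exact t.con m σ h1 }

lemma track_base (c : ℤ) : Track c (1 : El n k) 0 ∅ 0 0 0 0 {(0, 0)} where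
  sY := fun _ _ h1 => absurd rfl h1
  sR := fun _ _ => ⟨rfl, fun _ => ⟨rfl, rfl⟩⟩
  val := rfl
  cost := by simp
  tog := fun m => by simp [szJ, ud]
  flow := fun m => by simp [site]
  chg := fun m => by simp
  cur := by simp [site]
  vtg := fun _ h1 => absurd rfl h1
  lmp := fun _ _ h1 => absurd rfl h1
  anc := fun m σ hm => by
    obtain ⟨rfl, rfl⟩ := Prod.mk.inj hm
    exact ⟨0, Or.inr ⟨rfl, rfl⟩, fun j hj hj' => by omega⟩
  con := fun m σ hm j hj hj' => by
    obtain ⟨rfl, rfl⟩ := Prod.mk.inj hm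
    omega

lemma track_site_mul (g : Dh) {ρ : Dh} (hρ : ρ = rho0 ∨ ρ = rho1) :
    site (g * ρ) = site g + 1 ∨ site (g * ρ) = site g - 1 := by
  have h1 : (1 : ZMod 2).val = 1 := rfl
  rcases hρ with rfl | rfl <;> rcases z2_cases g.b with h2 | h2 <;>
    simp [site, rho0, rho1, h2, h1, z2_one_add_one] <;> omega

lemma track_move (t : Track c h r T Y R L tg Vis) {ρ : Dh} (hρ : ρ = rho0 ∨ ρ = rho1) :
    ∃ (T : Finset ℤ) (Y : Dg k → ℤ → ℤ) (R L : ℤ → ZMod 2 → ℕ) (tg : ℤ → ℕ)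
      (Vis : Set (ℤ × ZMod 2)), Track c (h * mv ρ) (r + 1) T Y R L tg Vis := by
  have hw : (h * mv ρ).w = h.w := by simp [mul_w, mv]
  have hs : (h * mv ρ).s = h.s := by simp [mv]
  rcases track_site_mul h.g hρ with h1 | h1
  · exact ⟨_, _, _, _, _, _, track_right (track_enlarge t (subset_insert (site h.g) T))
      (mem_insert_self _ _) hw hs h1⟩
  · exact ⟨_, _, _, _, _, _, track_left (track_enlarge t (subset_insert (site h.g - 1) T))
      (mem_insert_self _ _) hw hs h1⟩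

lemma track_light (t : Track c h r T Y R L tg Vis) {ε : ℤ} (hε : ε.natAbs = 1) (hg : h'.g = h.g)
    (hs : h'.s = h.s) (hw : h'.w = h.w + ε • emL n k c (site h.g) h.s) :
    ∃ (T : Finset ℤ) (Y : Dg k → ℤ → ℤ) (R L : ℤ → ZMod 2 → ℕ) (tg : ℤ → ℕ)
      (Vis : Set (ℤ × ZMod 2)), Track c h' (r + 1) T Y R L tg Vis := by
  have hc := t.cur
  rcases Int.emod_two_eq_zero_or_one (site h.g) with h1 | h1
  · have h2 : site h.g = 2 * (site h.g / 2 + c - c) := by omega
    rw [h2] at hc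
    rw [h2, emL_even] at hw
    exact ⟨_, _, _, _, _, _, track_lamp (track_enlarge t (subset_insert _ T))
      (mem_insert_self _ _) hε hg hs hw (Or.inl hc)⟩
  · have h2 : site h.g = 2 * (site h.g / 2 - c + c) + 1 := by omega
    rw [h2] at hc
    rw [h2, emL_odd] at hw
    refine ⟨_, _, _, _, _, _, track_lamp (track_enlarge t (subset_insert _ T))
      (mem_insert_self _ _) hε hg hs hw (Or.inr ?_)⟩
    rwa [add_assoc, z2_one_add_one, add_zero]

end track

theorem exists_track (c : ℤ) {h : El n k} {r : ℕ} (hh : h ∈ ball (gens n k c) r) :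
    ∃ (T : Finset ℤ) (Y : Dg k → ℤ → ℤ) (R L : ℤ → ZMod 2 → ℕ) (tg : ℤ → ℕ)
      (Vis : Set (ℤ × ZMod 2)), Track c h r T Y R L tg Vis := by
  refine ball_induction (S := gens n k c) (fun r h => ∃ (T : Finset ℤ) (Y : Dg k → ℤ → ℤ)
    (R L : ℤ → ZMod 2 → ℕ) (tg : ℤ → ℕ) (Vis : Set (ℤ × ZMod 2)), Track c h r T Y R L tg Vis)
    ⟨_, _, _, _, _, _, track_base c⟩ ?_ ?_ r h hh
  · rintro r g ⟨T, Y, R, L, tg, Vis, t⟩
    exact ⟨_, _, _, _, _, _, track_mono t⟩
  · rintro r g x ⟨T, Y, R, L, tg, Vis, t⟩ hx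
    rcases letter_cases hx with rfl | rfl | rfl | rfl | ⟨i, rfl⟩
    · exact track_move t (Or.inl rfl)
    · exact track_move t (Or.inr rfl)
    · refine track_light (ε := 1) t rfl (mul_one _) (add_zero _) ?_
      rw [mul_w, emL, gs_site, one_smul]
    · refine track_light (ε := -1) t rfl (by simp [lamp, mm]) (by simp [lamp, mm]) ?_
      rw [mul_w, emL, gs_site, inv_w]
      simp [lamp, mm]
    · exact ⟨_, _, _, _, _, _, track_tog (track_enlarge t
        ((subset_insert (site g.g) T).trans (subset_insert (site g.g / 2) _))) i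
        (mem_insert_of_mem (mem_insert_self _ _)) (mem_insert_self _ _)⟩

end Pool.Agent.MP_646035_al.PC

namespace Pool.Agent.MP_646035_al.PC

open Finset PT

variable {n k : ℕ} {Q : Type} [AddCommGroup Q] [DecidableEq Q] {e : Fin 2 → Q}

lemma shape_z2 (s : ZMod 2) : s = 0 ∨ s = 1 := by revert s; decide

lemma shape_val (s : ZMod 2) : (s = 0 ∧ (s.val : ℤ) = 0) ∨ (s = 1 ∧ (s.val : ℤ) = 1) := by
  revert s; decide

lemma shape_ud (Y : Dg k → ℤ → ℤ) (a : ℤ) (s : ZMod 2) (i : Fin k) :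
    ud Y (2 * a + (s.val : ℤ)) i = Y (some i, s) a := by
  have h1 : ((2 * a + (s.val : ℤ) : ℤ) : ZMod 2) = s := by
    have : (2 : ZMod 2) = 0 := rfl
    push_cast
    rw [this, zero_mul, zero_add, ZMod.natCast_zmod_val]
  have h2 : (2 * a + (s.val : ℤ)) / 2 = a := by rcases shape_val s with h | h <;> omega
  rw [ud, h1, h2]

lemma shape_sz_ne {y : Fin k → ℤ} {i : Fin k} (h : y i ≠ 0) : szJ univ y ≠ 0 := fun h0 =>
  h (Int.natAbs_eq_zero.1 ((sum_eq_zero_iff.1 h0) i (mem_univ i)))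

lemma shape_rho (H : ℤ) : (rho H : ℤ) = max (H - 1) (-H) := by
  rw [rho]
  omega

lemma shape_digits (S : Finset ℤ) (Y : Dg k → ℤ → ℤ) :
    ∑ a ∈ S, ∑ d, (Y d a).natAbs = ∑ a ∈ S, ∑ φ, (Y (none, φ) a).natAbs +
      ∑ m ∈ (S ×ˢ (univ : Finset (ZMod 2))).image fun t => 2 * t.1 + (t.2.val : ℤ),
        szJ univ (ud Y m) := by
  rw [sum_image, sum_product, ← sum_add_distrib]
  · refine sum_congr rfl fun a _ => ?_
    rw [Fintype.sum_prod_type, Fintype.sum_option, sum_comm (s := univ) (t := univ)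
      (f := fun i s => (Y (some i, s) a).natAbs)]
    simp only [szJ, shape_ud]
  · rintro ⟨a, s⟩ - ⟨a', s'⟩ - h
    simp only at h
    rcases shape_val s with h1 | h1 <;> rcases shape_val s' with h2 | h2
    · exact Prod.ext (show a = a' by omega) (h1.1.trans h2.1.symm)
    · omega
    · omega
    · exact Prod.ext (show a = a' by omega) (h1.1.trans h2.1.symm)

section
variable {c : ℤ} {h : El n k} {r : ℕ} {T : Finset ℤ} {Y : Dg k → ℤ → ℤ} {R L : ℤ → ZMod 2 → ℕ}
  {tg : ℤ → ℕ} {Vis : Set (ℤ × ZMod 2)}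

lemma shape_tg (t : Track c h r T Y R L tg Vis) {m : ℤ} (hm : szJ univ (ud Y m) ≠ 0) :
    tg m ≠ 0 := by
  have := (t.tog m).1
  omega

lemma shape_T (t : Track c h r T Y R L tg Vis) {m : ℤ} (hm : tg m ≠ 0) : m ∈ T :=
  by_contra fun a => hm (t.sR m a).1

lemma shape_T' (t : Track c h r T Y R L tg Vis) {m : ℤ}
    (hm : R m 0 + R m 1 + L m 0 + L m 1 ≠ 0) : m ∈ T := by_contra fun a => by
  have h0 := (t.sR m a).2 0
  have h1 := (t.sR m a).2 1
  omega

lemma shape_bounds (t : Track c h r T Y R L tg Vis) : ∃ lo hi : ℤ, lo ≤ 0 ∧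
    (lo = 0 ∨ ∃ σ, (lo, σ) ∈ Vis) ∧ (∃ σ, (hi, σ) ∈ Vis) ∧
      ∀ m σ, (m, σ) ∈ Vis → lo ≤ m ∧ m ≤ hi := by
  classical
  obtain ⟨b, hb⟩ := (insert 0 T).bddAbove
  obtain ⟨a, ha⟩ := (insert 0 T).bddBelow
  have b0 : 0 ≤ b := hb (by simp)
  have a0 : a ≤ 0 := ha (by simp)
  obtain ⟨lo, l1, l2⟩ := Int.exists_least_of_bdd (P := fun m => m = 0 ∨ ∃ σ, (m, σ) ∈ Vis)
    ⟨a, fun m hm => by
      rcases hm with rfl | ⟨σ, hm⟩
      · exact a0
      rcases le_or_gt 0 m with h1 | h1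
      · omega
      exact ha (mem_coe.2 (mem_insert_of_mem (shape_T' t (t.con m σ hm m (by omega) (by omega)))))⟩
    ⟨0, Or.inl rfl⟩
  obtain ⟨hi, u1, u2⟩ := Int.exists_greatest_of_bdd (P := fun m => ∃ σ, (m, σ) ∈ Vis)
    ⟨b + 1, fun m ⟨σ, hm⟩ => by
      rcases le_or_gt m 0 with h1 | h1
      · omega
      have : m - 1 ≤ b := hb (mem_coe.2 (mem_insert_of_mem
        (shape_T' t (t.con m σ hm (m - 1) (by omega) (by omega)))))
      omega⟩ ⟨_, _, t.cur⟩
  exact ⟨lo, hi, l2 0 (Or.inl rfl), l1, u1, fun m σ hm => ⟨l2 m (Or.inr ⟨σ, hm⟩), u2 m ⟨σ, hm⟩⟩⟩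

lemma shape_hc (t : Track c h r T Y R L tg Vis) {lo : ℤ} (hl : ∀ m σ, (m, σ) ∈ Vis → lo ≤ m)
    {m : ℤ} (hm : m < site h.g) : hc Y lo m = (R m 1 : ℤ) - L m 1 := by
  have h1 := t.chg m
  rw [if_neg (not_le.2 hm), add_zero] at h1
  have h2 : ∀ m', ∑ i, ud Y m' i ≠ 0 → tg m' ≠ 0 := fun m' a => by
    obtain ⟨i, -, hi⟩ := exists_ne_zero_of_sum_ne_zero a
    exact shape_tg t (shape_sz_ne hi)
  rw [← h1, hc]
  refine (sum_subset inter_subset_left fun x a b => by_contra fun d => b ?_).symm.trans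
    (sum_subset (s₂ := T.filter (· ≤ m)) inter_subset_right fun x a b => by_contra fun d => b ?_)
  · exact mem_inter.2 ⟨a, mem_filter.2 ⟨shape_T t (h2 x d), (mem_Icc.1 a).2⟩⟩
  · obtain ⟨σ, hσ⟩ := t.vtg x (h2 x d)
    exact mem_inter.2 ⟨mem_Icc.2 ⟨hl x σ hσ, (mem_filter.1 a).2⟩, a⟩

lemma shape_hc_succ (Y : Dg k → ℤ → ℤ) {lo m : ℤ} (h1 : lo ≤ m) (h2 : ∀ i, ud Y m i = 0) :
    hc Y lo m = hc Y lo (m - 1) := by
  have : Icc lo m = insert m (Icc lo (m - 1)) := by
    ext x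
    simp only [mem_Icc, mem_insert]
    omega
  rw [hc, hc, this, sum_insert (by simp), sum_eq_zero fun i _ => h2 i, zero_add]

/-- A quiet site that is visited in the other lane. -/
def shapeBad (p : ℤ) (Y : Dg k → ℤ → ℤ) (lo : ℤ) (Vis : Set (ℤ × ZMod 2)) (m : ℤ) (σ : ZMod 2) :
    Prop :=
  0 < m ∧ m < p ∧ (∀ i, ud Y m i = 0) ∧ (m, σ) ∈ Vis ∧
    ((hc Y lo (m - 1) = 0 ∧ σ = 1) ∨ (hc Y lo (m - 1) = 1 ∧ σ = 0))

/-- An anchor on the left. -/
def shapeLA (R L : ℤ → ZMod 2 → ℕ) (tg : ℤ → ℕ) (m : ℤ) (σ : ZMod 2) : Prop :=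
  ∃ m₀, m₀ < m ∧ (tg m₀ ≠ 0 ∨ (m₀ = 0 ∧ σ = 0)) ∧ ∀ j, m₀ ≤ j → j < m → R j σ + L j σ ≠ 0

lemma shape_bad {p lo β : ℤ} (t : Track c h r T Y R L tg Vis) (h1 : 0 < 2 * (β - |c|))
    (h2 : 2 * (β + |c|) + 1 < p) (h3 : Hard (hN c (hc Y lo) β) fun d => Y d (β + off c d)) :
    ∃ m σ, (m = 2 * (β - c) ∨ m = 2 * (β + c) + 1) ∧ shapeBad p Y lo Vis m σ := by
  have a1 := le_abs_self c
  have a2 := neg_abs_le c
  have q0 : ∀ i, ud Y (2 * (β - c)) i = 0 := fun i => by
    have := shape_ud Y (β - c) 0 i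
    rw [ZMod.val_zero, Nat.cast_zero, add_zero] at this
    rw [this]
    exact h3.1 i 0
  have q1 : ∀ i, ud Y (2 * (β + c) + 1) i = 0 := fun i =>
    (shape_ud Y (β + c) 1 i).trans (h3.1 i 1)
  have e : 2 * (β + c) + 1 - 1 = 2 * (β + c) := by ring
  have o : ∀ φ, Y (none, φ) (β + off c ((none, φ) : Dg k)) = Y (none, φ) β := fun φ => by
    simp [off]
  rcases h3.2 with ⟨b1, b2, b3⟩ | ⟨b1, b2, b3⟩
  · rcases t.lmp 1 β (o 1 ▸ b3) with v | v
    · exact ⟨_, _, Or.inl rfl, by omega, by omega, q0, v, Or.inl ⟨b1, rfl⟩⟩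
    · exact ⟨_, _, Or.inr rfl, by omega, by omega, q1, v, Or.inr ⟨by rw [e]; exact b2, rfl⟩⟩
  · rcases t.lmp 0 β (o 0 ▸ b3) with v | v
    · exact ⟨_, _, Or.inl rfl, by omega, by omega, q0, v, Or.inr ⟨b1, rfl⟩⟩
    · exact ⟨_, _, Or.inr rfl, by omega, by omega, q1, v, Or.inl ⟨by rw [e]; exact b2, rfl⟩⟩

lemma shape_three {lo j : ℤ} {σ : ZMod 2} (t : Track c h r T Y R L tg Vis)
    (hl : ∀ m σ, (m, σ) ∈ Vis → lo ≤ m) (h0 : 0 ≤ j) (h1 : j < site h.g)
    (h2 : (hc Y lo j = 0 ∧ σ = 1) ∨ (hc Y lo j = 1 ∧ σ = 0)) (h3 : R j σ + L j σ ≠ 0) :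
    2 * rho (hc Y lo j) + 1 + 2 ≤ R j 0 + R j 1 + L j 0 + L j 1 := by
  have a := shape_hc t hl h1
  have b := t.flow j
  have d := shape_rho (hc Y lo j)
  rw [if_pos h1, if_neg (not_lt.2 h0)] at b
  rcases h2 with ⟨h2, rfl⟩ | ⟨h2, rfl⟩ <;> omega

open Classical in
lemma shape_charge {lo : ℤ} (t : Track c h r T Y R L tg Vis) (hl0 : lo ≤ 0)
    (hl : ∀ m σ, (m, σ) ∈ Vis → lo ≤ m) (Hd : Finset ℤ)
    (hH : ∀ β ∈ Hd, 0 < 2 * (β - |c|) ∧ 2 * (β + |c|) + 1 < site h.g ∧
      Hard (hN c (hc Y lo) β) fun d => Y d (β + off c d)) :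
    Hd.card ≤ (T.filter fun m => szJ univ (ud Y m) + 2 ≤ tg m).card +
      ((Ico 0 (site h.g)).filter fun j =>
        2 * rho (hc Y lo j) + 1 + 2 ≤ R j 0 + R j 1 + L j 0 + L j 1).card := by
  choose! m σ hm hb using fun β hβ => shape_bad t (hH β hβ).1 (hH β hβ).2.1 (hH β hβ).2.2
  have inj : ∀ β ∈ Hd, ∀ β' ∈ Hd, m β = m β' → β = β' := fun β a β' b e => by
    rcases hm β a with u | u <;> rcases hm β' b with v | v <;> omega
  have two : ∀ β ∈ Hd, ∀ β' ∈ Hd, tg (m β') = 0 → shapeLA R L tg (m β) (σ β) →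
      m β - 1 = m β' → shapeLA R L tg (m β') (σ β') := fun β a β' b z ⟨m₀, u1, u2, u3⟩ e => by
    obtain ⟨-, -, -, -, v⟩ := hb β a
    obtain ⟨w0, -, w1, -, w⟩ := hb β' b
    rw [← shape_hc_succ Y (by omega) w1, ← e] at w
    have s : σ β = σ β' := by
      rcases v with v | v <;> rcases w with w | w
      · exact v.2.trans w.2.symm
      · omega
      · omega
      · exact v.2.trans w.2.symm
    have ne : m₀ ≠ m β' := fun d => by
      rcases u2 with u2 | u2
      · exact u2 (d ▸ z)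
      · omega
    exact ⟨m₀, by omega, s ▸ u2, fun j j1 j2 => s ▸ u3 j j1 (by omega)⟩
  rw [← card_disjSum]
  refine card_le_card_of_injOn (fun β => if tg (m β) ≠ 0 then Sum.inl (m β) else
    if shapeLA R L tg (m β) (σ β) then Sum.inr (m β - 1) else Sum.inr (m β))
    (fun β hβ => ?_) fun β a β' b e => ?_
  · obtain ⟨v0, v1, v2, v3, v4⟩ := hb β hβ
    simp only [mem_coe]
    split_ifs with z y
    · have h1 := (t.tog (m β)).2
      have h2 : szJ univ (ud Y (m β)) = 0 := sum_eq_zero fun i _ => by rw [v2 i]; rfl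
      exact inl_mem_disjSum.2 (mem_filter.2 ⟨shape_T t z, by omega⟩)
    · obtain ⟨m₀, u1, -, u3⟩ := y
      exact inr_mem_disjSum.2 (mem_filter.2 ⟨mem_Ico.2 ⟨by omega, by omega⟩,
        shape_three t hl (by omega) (by omega) v4 (u3 _ (by omega) (by omega))⟩)
    · obtain ⟨m₀, u2, u3⟩ := t.anc _ _ v3
      have ne : m₀ ≠ m β := fun d => by
        rcases u2 with u2 | u2
        · exact z (d ▸ u2)
        · omega
      have gt : m β < m₀ := by
        by_contra d
        exact y ⟨m₀, by omega, u2, fun j j1 j2 => u3 j (by omega) (by omega)⟩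
      rw [← shape_hc_succ Y (by omega) v2] at v4
      exact inr_mem_disjSum.2 (mem_filter.2 ⟨mem_Ico.2 ⟨by omega, v1⟩,
        shape_three t hl (by omega) v1 v4 (u3 _ (by omega) (by omega))⟩)
  · simp only at e
    by_cases z : tg (m β) ≠ 0 <;> by_cases z' : tg (m β') ≠ 0
    · rw [if_pos z, if_pos z'] at e
      exact inj β a β' b (Sum.inl_injective e)
    · rw [if_pos z, if_neg z'] at e
      split_ifs at e
    · rw [if_neg z, if_pos z'] at e
      split_ifs at e
    rw [if_neg z, if_neg z'] at e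
    by_cases y : shapeLA R L tg (m β) (σ β) <;> by_cases y' : shapeLA R L tg (m β') (σ β')
    · rw [if_pos y, if_pos y'] at e
      have := Sum.inr_injective e
      exact inj β a β' b (by omega)
    · rw [if_pos y, if_neg y'] at e
      exact absurd (two β a β' b (not_not.1 z') y (Sum.inr_injective e)) y'
    · rw [if_neg y, if_pos y'] at e
      exact absurd (two β' b β a (not_not.1 z) y' (Sum.inr_injective e).symm) y
    · rw [if_neg y, if_neg y'] at e
      exact inj β a β' b (Sum.inr_injective e)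

lemma shape_gain (s : Finset ℤ) (f g : ℤ → ℕ) (h : ∀ m ∈ s, f m ≤ g m) :
    ∑ m ∈ s, f m + 2 * (s.filter fun m => f m + 2 ≤ g m).card ≤ ∑ m ∈ s, g m := by
  rw [card_filter, mul_sum, ← sum_add_distrib]
  refine sum_le_sum fun m hm => ?_
  have := h m hm
  split_ifs <;> omega

end

theorem exists_lift (c : ℤ) {h : El n k} {r : ℕ} (hh : h ∈ ball (gens n k c) r)
    (hp : 0 ≤ site h.g) : ∃ (lo hi : ℤ) (Y : Dg k → ℤ → ℤ), Lf c h r lo hi Y := by
  classical
  obtain ⟨T, Y, R, L, tg, Vis, t⟩ := exists_track c hh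
  obtain ⟨lo, hi, l0, l1, ⟨σh, u1⟩, hv⟩ := shape_bounds t
  have hl : ∀ m σ, (m, σ) ∈ Vis → lo ≤ m := fun m σ a => (hv m σ a).1
  have hph := (hv _ _ t.cur).2
  refine ⟨lo, hi, Y, l0, hph, fun i s a hY => ?_, fun φ β hY => ?_, fun S hS => ?_,
    fun S Hd hH => ?_⟩
  · obtain ⟨σ, hσ⟩ := t.vtg _ (shape_tg t (shape_sz_ne ((shape_ud Y a s i).trans_ne hY)))
    exact hv _ _ hσ
  · have a1 := le_abs_self c
    have a2 := neg_abs_le c
    rcases t.lmp φ β hY with v | v <;> have := hv _ _ v <;> omega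
  · rw [t.val]
    funext o s
    refine (sum_subset subset_union_right fun x _ b => ?_).trans
      (sum_subset (s₂ := S ∪ T) subset_union_left fun x _ b => ?_).symm
    · rw [not_not.1 fun d => b (t.sY _ x d), zero_smul]
    · rw [not_not.1 fun d => b (hS _ x d), zero_smul]
  have c1 := shape_charge t l0 hl Hd hH
  have c2 := shape_gain T (fun m => szJ univ (ud Y m)) tg fun m _ => (t.tog m).1
  have c3 := shape_gain (Ico 0 (site h.g)) (fun j => 2 * rho (hc Y lo j) + 1)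
    (fun j => R j 0 + R j 1 + L j 0 + L j 1) fun j hj => by
      have h1 := mem_Ico.1 hj
      have a := shape_hc t hl h1.2
      have b := t.flow j
      have d := shape_rho (hc Y lo j)
      rw [if_pos h1.2, if_neg (not_lt.2 h1.1)] at b
      omega
  have c4 : (Ico lo 0).card • 2 ≤ ∑ j ∈ Ico lo 0, (R j 0 + R j 1 + L j 0 + L j 1) :=
    card_nsmul_le_sum _ _ _ fun j hj => by
      have h1 := mem_Ico.1 hj
      obtain ⟨σ, hσ⟩ := l1.resolve_left (by omega)
      have a := t.con _ _ hσ j (by omega) (by omega)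
      have b := t.flow j
      rw [if_pos (by omega), if_pos h1.2] at b
      omega
  have c5 : (Ico (site h.g) hi).card • 2 ≤
      ∑ j ∈ Ico (site h.g) hi, (R j 0 + R j 1 + L j 0 + L j 1) :=
    card_nsmul_le_sum _ _ _ fun j hj => by
      have h1 := mem_Ico.1 hj
      have a := t.con _ _ u1 j (by omega) (by omega)
      have b := t.flow j
      rw [if_neg (by omega), if_neg (by omega)] at b
      omega
  have c6 : ∑ j ∈ Ico lo 0 ∪ Ico 0 (site h.g) ∪ Ico (site h.g) hi,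
      (R j 0 + R j 1 + L j 0 + L j 1) ≤ ∑ j ∈ T, (R j 0 + R j 1 + L j 0 + L j 1) :=
    sum_le_sum_of_ne_zero fun j _ a => shape_T' t a
  rw [sum_union (disjoint_left.2 fun x a b => by
      simp only [mem_union, mem_Ico] at a b
      omega), sum_union (Ico_disjoint_Ico_consecutive _ _ _)] at c6
  have c7 : ∑ a ∈ S, ∑ φ, (Y (none, φ) a).natAbs ≤ ∑ a ∈ T, ∑ φ, (Y (none, φ) a).natAbs :=
    sum_le_sum_of_ne_zero fun a _ b => by
      obtain ⟨φ, -, d⟩ := exists_ne_zero_of_sum_ne_zero b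
      exact t.sY _ a (Int.natAbs_ne_zero.1 d)
  have c8 : ∑ m ∈ (S ×ˢ (univ : Finset (ZMod 2))).image fun t => 2 * t.1 + (t.2.val : ℤ),
      szJ univ (ud Y m) ≤ ∑ m ∈ T, szJ univ (ud Y m) :=
    sum_le_sum_of_ne_zero fun m _ b => shape_T t (shape_tg t b)
  have c9 := t.cost
  rw [sum_add_distrib] at c9
  rw [sum_add_distrib, sum_const, Int.card_Ico, smul_eq_mul] at c3
  rw [Int.card_Ico, smul_eq_mul] at c4 c5
  rw [shape_digits]
  omega

end Pool.Agent.MP_646035_al.PC

namespace Pool.Agent.MP_646035_al.PC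

open Finset PT

variable {n k : ℕ} {Q : Type} [AddCommGroup Q] [DecidableEq Q] {e : Fin 2 → Q}

/-- The change of the height of the edge `m` under clipping. -/
def clipD (c : ℤ) (V : Finset ℤ) (H : ℤ → ℤ) (m : ℤ) : ℤ :=
  if m / 2 - c ∈ V then 0 else (if 1 ≤ H m then 1 else 0) - H m

/-- The correction of the digits. -/
def clipC (c : ℤ) (D : ℤ → ℤ) (i : Fin k) (q : ℤ) (d : Dg k) : ℤ :=
  (if d = (some i, 0) then D (2 * (q - c)) - D (2 * (q - c) - 1) else 0) +
    if d = (some i, 1) then D (2 * (q + c) + 1) - D (2 * (q + c)) else 0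

/-- The clipped configuration. -/
def clipF (c : ℤ) (V : Finset ℤ) (H : ℤ → ℤ) (i : Fin k) (Y : Dg k → ℤ → ℤ) : Cf ℤ k :=
  (fun a => if a ∈ slots (eH c) (SS (str (eH c)) V) then
      H (2 * (a.1 + c) + (a.2 : ℕ)) + clipD c V H (2 * (a.1 + c) + (a.2 : ℕ)) else 0,
    fun q d => if q ∈ SS (str (eH c)) V then Y d (q + off c d) + clipC c (clipD c V H) i q d else 0)

lemma clip_abs (c : ℤ) (V : Finset ℤ) (H : ℤ → ℤ) (m : ℤ) :
    (clipD c V H m).natAbs = if m / 2 - c ∈ V then 0 else rho (H m) := by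
  unfold clipD rho
  split_ifs <;> omega

lemma clip_pair (f : ℤ → ℕ) (X : Finset ℤ) (t p : ℤ)
    (h : ∀ q ∈ X, 0 ≤ 2 * q + t ∧ 2 * q + t + 1 < p) :
    ∑ q ∈ X, (f (2 * q + t) + f (2 * q + t + 1)) ≤ ∑ m ∈ Ico 0 p, f m := by
  rw [sum_add_distrib, ← sum_image (s := X) (g := fun q => 2 * q + t) (f := f)
    (fun a _ b _ h => by dsimp only at h; omega),
    ← sum_image (s := X) (g := fun q => 2 * q + t + 1) (f := f)
    (fun a _ b _ h => by dsimp only at h; omega), ← sum_union]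
  · refine sum_le_sum_of_subset fun m hm => ?_
    rcases mem_union.1 hm with hm | hm <;> obtain ⟨q, hq, rfl⟩ := mem_image.1 hm <;>
      have := h q hq <;> exact mem_Ico.2 (by omega)
  · refine disjoint_left.2 fun m h1 h2 => ?_
    obtain ⟨q, -, rfl⟩ := mem_image.1 h1
    obtain ⟨q', -, h3⟩ := mem_image.1 h2
    omega

lemma clip_hc (Y : Dg k → ℤ → ℤ) {lo m : ℤ} (h : lo ≤ m) :
    hc Y lo m = hc Y lo (m - 1) + ∑ i, ud Y m i := by
  have e1 : Icc lo m = insert m (Icc lo (m - 1)) := by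
    ext x; simp only [mem_Icc, mem_insert]; omega
  rw [hc, hc, e1, sum_insert (by simp), add_comm]

lemma clip_ud0 (Y : Dg k → ℤ → ℤ) (a : ℤ) (i : Fin k) : ud Y (2 * a) i = Y (some i, 0) a := by
  have h2 : (2 : ZMod 2) = 0 := by decide
  have h1 : ((2 * a : ℤ) : ZMod 2) = 0 := by push_cast; rw [h2, zero_mul]
  rw [ud, h1, show 2 * a / 2 = a by omega]

lemma clip_ud1 (Y : Dg k → ℤ → ℤ) (a : ℤ) (i : Fin k) : ud Y (2 * a + 1) i = Y (some i, 1) a := by
  have h2 : (2 : ZMod 2) = 0 := by decide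
  have h1 : ((2 * a + 1 : ℤ) : ZMod 2) = 1 := by push_cast; rw [h2, zero_mul, zero_add]
  rw [ud, h1, show (2 * a + 1) / 2 = a by omega]

lemma clip_off (c : ℤ) (d : Dg k) : -|c| ≤ off c d ∧ off c d ≤ |c| := by
  have h1 := le_abs_self c
  have h2 := neg_abs_le c
  unfold off
  split_ifs <;> omega

lemma clip_slot {c q : ℤ} {X : Finset ℤ} (hq : q ∈ X) (j : Fin 4) :
    slot (eH c) q j ∈ slots (eH c) X :=
  mem_biUnion.2 ⟨q, hq, mem_image_of_mem _ (mem_univ j)⟩

lemma clip_self {c q : ℤ} {V : Finset ℤ} (hq : q ∈ V) : q ∈ SS (str (eH c)) V :=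
  mem_SS.2 ⟨q, hq, mem_insert_self _ _⟩

lemma clip_cell {c q : ℤ} {V : Finset ℤ} (hq : q ∈ V) (j : Fin 2) :
    (q, j) ∈ slots (eH c) (SS (str (eH c)) V) := by
  fin_cases j
  exacts [clip_slot (clip_self hq) 2, clip_slot (clip_self hq) 3]

lemma clip_hs {c : ℤ} {V : Finset ℤ} (H : ℤ → ℤ) (i : Fin k) (Y : Dg k → ℤ → ℤ) {q : ℤ}
    (hq : q ∈ SS (str (eH c)) V) :
    hs (eH c) (clipF c V H i Y).1 q = hN c (fun m => H m + clipD c V H m) q := by
  funext j
  have h1 := clip_slot (c := c) hq j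
  rw [hs, clipF]
  dsimp only
  rw [if_pos h1]
  fin_cases j
  · rw [show 2 * ((slot (eH c) q ⟨0, by norm_num⟩).1 + c) + ((slot (eH c) q ⟨0, by norm_num⟩).2 : ℕ) =
      2 * (q - c) - 1 by simp [slot]; ring]
    rfl
  · rw [show 2 * ((slot (eH c) q ⟨1, by norm_num⟩).1 + c) + ((slot (eH c) q ⟨1, by norm_num⟩).2 : ℕ) =
      2 * (q - c) by simp [slot]; ring]
    rfl
  · rw [show 2 * ((slot (eH c) q ⟨2, by norm_num⟩).1 + c) + ((slot (eH c) q ⟨2, by norm_num⟩).2 : ℕ) =
      2 * (q + c) by simp [slot]]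
    rfl
  · rw [show 2 * ((slot (eH c) q ⟨3, by norm_num⟩).1 + c) + ((slot (eH c) q ⟨3, by norm_num⟩).2 : ℕ) =
      2 * (q + c) + 1 by simp [slot]]
    rfl

lemma clip_C0 (c : ℤ) (D : ℤ → ℤ) (i : Fin k) (q : ℤ) :
    ∑ j, clipC c D i q (some j, 0) = D (2 * (q - c)) - D (2 * (q - c) - 1) := by
  simp [clipC]

lemma clip_C1 (c : ℤ) (D : ℤ → ℤ) (i : Fin k) (q : ℤ) :
    ∑ j, clipC c D i q (some j, 1) = D (2 * (q + c) + 1) - D (2 * (q + c)) := by
  simp [clipC]

lemma clip_Csum (c : ℤ) (D : ℤ → ℤ) (i : Fin k) (q : ℤ) :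
    ∑ d, (clipC c D i q d).natAbs ≤
      ((D (2 * q + (-2 * c - 1))).natAbs + (D (2 * q + (-2 * c - 1) + 1)).natAbs) +
        ((D (2 * q + 2 * c)).natAbs + (D (2 * q + 2 * c + 1)).natAbs) := by
  rw [show 2 * q + (-2 * c - 1) + 1 = 2 * (q - c) by ring,
    show 2 * q + (-2 * c - 1) = 2 * (q - c) - 1 by ring, ← mul_add]
  calc _ ≤ ∑ d : Dg k, ((if d = (some i, 0) then
          (D (2 * (q - c) - 1)).natAbs + (D (2 * (q - c))).natAbs else 0) +
        if d = (some i, 1) then (D (2 * (q + c))).natAbs + (D (2 * (q + c) + 1)).natAbs else 0) :=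
        sum_le_sum fun d _ => by unfold clipC; split_ifs <;> omega
    _ = _ := by rw [sum_add_distrib, sum_ite_eq', sum_ite_eq', if_pos (mem_univ _), if_pos (mem_univ _)]

lemma clip_C_zero {c : ℤ} {V : Finset ℤ} (H : ℤ → ℤ) (i : Fin k) {q : ℤ} (h0 : q ∈ V)
    (h1 : q - 2 * c ∈ V) (h2 : q - 2 * c - 1 ∈ V) :
    clipD c V H (2 * (q - c) - 1) = 0 ∧ clipD c V H (2 * (q - c)) = 0 ∧
      clipD c V H (2 * (q + c)) = 0 ∧ clipD c V H (2 * (q + c) + 1) = 0 ∧
      ∀ d, clipC c (clipD c V H) i q d = 0 := by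
  have e0 : clipD c V H (2 * (q - c) - 1) = 0 :=
    if_pos (by rwa [show (2 * (q - c) - 1) / 2 - c = q - 2 * c - 1 by omega])
  have e1 : clipD c V H (2 * (q - c)) = 0 :=
    if_pos (by rwa [show 2 * (q - c) / 2 - c = q - 2 * c by omega])
  have e2 : clipD c V H (2 * (q + c)) = 0 :=
    if_pos (by rwa [show 2 * (q + c) / 2 - c = q by omega])
  have e3 : clipD c V H (2 * (q + c) + 1) = 0 :=
    if_pos (by rwa [show (2 * (q + c) + 1) / 2 - c = q by omega])
  exact ⟨e0, e1, e2, e3, fun d => by simp [clipC, e0, e1, e2, e3]⟩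

lemma clip_range {c p q : ℤ} (hq : q ∈ SS (str (eH c)) (inV c (inM c p))) :
    |c| + 1 ≤ q ∧ q ≤ p / 2 - |c| - 2 ∧ (inM c p : ℤ) = p / 2 - 6 * |c| - 4 := by
  have h1 := mem_str_helix hq
  obtain ⟨y, hy, -⟩ := mem_SS.1 hq
  have h2 := mem_Ico.1 hy
  unfold inM at h1 h2 ⊢
  omega

theorem clip (hk : 0 < k) (c : ℤ) : ∃ C : ℕ, ∀ (h : El n k) (r : ℕ) (lo hi : ℤ)
    (Y : Dg k → ℤ → ℤ), 0 ≤ site h.g → Lf c h r lo hi Y →
      ∃ cf ∈ cfg k (3 * r + 2) (eH c) (inV c (inM c (site h.g))), ∃ Yo : Dg k → ℤ → ℤ,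
        h.w = valW n (farS c (site h.g) lo hi ∪ band c (site h.g)) Yo +
          valN n c (SS (str (eH c)) (inV c (inM c (site h.g)))) cf.2 ∧
        (∀ d a, |Yo d a| ≤ 3 * r) ∧
        2 * (inM c (site h.g) : ℤ) + 2 * (-lo) + 2 * (hi - site h.g) +
          (∑ a ∈ farS c (site h.g) lo hi, ∑ d, (Yo d a).natAbs : ℕ) +
          (Ec (eH c) (inV c (inM c (site h.g))) cf : ℕ) ≤ r + C := by
  classical
  refine ⟨2 * (8 * c.natAbs + 4), fun h r lo hi Y hp hL => ?_⟩
  obtain ⟨lo0, phi, su, sl, hval, cost⟩ := hL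
  generalize site h.g = p at *
  have c1 := le_abs_self c
  have c2 := neg_abs_le c
  have c3 : (c.natAbs : ℤ) = |c| := Int.natCast_natAbs c
  have hR := fun q => clip_range (c := c) (p := p) (q := q)
  have hM : p / 2 - 6 * |c| - 4 ≤ inM c p ∧ 2 * (inM c p : ℤ) ≤ p := by unfold inM; omega
  have hV : ∀ q, q ∈ inV c (inM c p) ↔ 3 * |c| + 2 ≤ q ∧ q < 3 * |c| + 2 + inM c p :=
    fun q => mem_Ico
  generalize inM c p = M at *
  generalize inV c M = V at *
  have hcs := fun m => clip_hc Y (lo := lo) (m := m)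
  generalize hc Y lo = H at *
  let i0 : Fin k := ⟨0, hk⟩
  have bY : ∀ d a, (Y d a).natAbs ≤ r := fun d a => by
    have h1 := cost {a} ∅ (by simp)
    have h2 := single_le_sum (f := fun d => (Y d a).natAbs) (fun _ _ => Nat.zero_le _) (mem_univ d)
    rw [sum_singleton, card_empty] at h1
    omega
  have bH : ∀ m, 0 ≤ m → m < p → 2 * rho (H m) ≤ r := fun m h0 h1 => by
    have h3 := cost ∅ ∅ (by simp)
    have h2 := single_le_sum (f := fun m => 2 * rho (H m)) (fun _ _ => Nat.zero_le _)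
      (mem_Ico.2 ⟨h0, h1⟩)
    rw [sum_empty, card_empty] at h3
    omega
  have bD : ∀ m, 0 ≤ m → m < p → 2 * (clipD c V H m).natAbs ≤ r := fun m h0 h1 => by
    have := bH m h0 h1
    rw [clip_abs]
    split_ifs <;> omega
  have bC : ∀ q ∈ SS (str (eH c)) V, ∀ d, (clipC c (clipD c V H) i0 q d).natAbs ≤ 2 * r :=
    fun q hq d => by
    have h1 := hR q hq
    have h2 := bD (2 * (q - c) - 1) (by omega) (by omega)
    have h3 := bD (2 * (q - c)) (by omega) (by omega)
    have h4 := bD (2 * (q + c)) (by omega) (by omega)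
    have h5 := bD (2 * (q + c) + 1) (by omega) (by omega)
    unfold clipC
    split_ifs <;> omega
  have f2 : ∀ q ∈ SS (str (eH c)) V, ∀ d, (clipF c V H i0 Y).2 q d =
      Y d (q + off c d) + clipC c (clipD c V H) i0 q d := fun q hq d => if_pos hq
  have f3 : ∀ q ∉ SS (str (eH c)) V, ∀ d, (clipF c V H i0 Y).2 q d = 0 := fun q hq d => if_neg hq
  have f1 : ∀ q ∈ V, ∀ j : Fin 2, (clipF c V H i0 Y).1 (q, j) = H (2 * (q + c) + (j : ℕ)) :=
    fun q hq j => by
    have h1 : clipD c V H (2 * (q + c) + (j : ℕ)) = 0 :=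
      if_pos (by rwa [show (2 * (q + c) + ((j : ℕ) : ℤ)) / 2 - c = q by omega])
    refine (if_pos (clip_cell hq j)).trans ?_
    dsimp only
    rw [h1, add_zero]
  have f4 := fun q => clip_hs (c := c) (V := V) H i0 Y (q := q)
  refine ⟨clipF c V H i0 Y, mem_cfg.2 ⟨⟨fun q hq j => ?_, fun q hq => ?_⟩, fun a ha => if_neg ha,
    fun a ha => ?_, fun q hq => funext (f3 q hq)⟩,
    fun d a => Y d a - (clipF c V H i0 Y).2 (a - off c d) d, ?_, fun d a => ?_, ?_⟩
  · have h1 := hR q (clip_self hq)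
    have h2 := bH (2 * (q + c) + (j : ℕ)) (by omega) (by omega)
    rw [f1 q hq]
    omega
  · have h1 := hR q hq
    rw [f4 q hq]
    refine ⟨fun d => ?_, ?_, ?_⟩
    · have h2 := bY d (q + off c d)
      have h3 := bC q hq d
      rw [f2 q hq, abs_le]
      omega
    · have h2 := hcs (2 * (q - c)) (by omega)
      simp only [clip_ud0] at h2
      simp only [f2 q hq, sum_add_distrib, clip_C0]
      have e1 : ∀ i : Fin k, q + off c ((some i, 0) : Dg k) = q - c := fun i => by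
        simp [off, sub_eq_add_neg]
      simp only [e1]
      change _ = H (2 * (q - c)) + clipD c V H (2 * (q - c)) -
        (H (2 * (q - c) - 1) + clipD c V H (2 * (q - c) - 1))
      omega
    · have h2 := hcs (2 * (q + c) + 1) (by omega)
      simp only [clip_ud1, add_sub_cancel_right] at h2
      simp only [f2 q hq, sum_add_distrib, clip_C1]
      have e1 : ∀ i : Fin k, q + off c ((some i, 1) : Dg k) = q + c := fun i => by
        simp [off]
      simp only [e1]
      change _ = H (2 * (q + c) + 1) + clipD c V H (2 * (q + c) + 1) -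
        (H (2 * (q + c)) + clipD c V H (2 * (q + c)))
      omega
  · have h1 : (2 * (a.1 + c) + ((a.2 : ℕ) : ℤ)) / 2 - c ∉ V := by
      rwa [show (2 * (a.1 + c) + ((a.2 : ℕ) : ℤ)) / 2 - c = a.1 by omega]
    simp only [clipF, clipD, if_neg h1]
    split_ifs <;> omega
  · have mF : ∀ a, a ∈ farS c p lo hi ∪ band c p ↔
        (lo / 2 - |c| - 1 ≤ a ∧ a ≤ -|c| - 2 ∨ p / 2 + |c| + 2 ≤ a ∧ a ≤ hi / 2 + |c| + 1) ∨
          -|c| - 1 ≤ a ∧ a ≤ 6 * |c| + 3 ∨ p / 2 - 6 * |c| - 4 ≤ a ∧ a ≤ p / 2 + |c| + 1 := fun a => by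
      simp only [farS, band, mem_union, mem_Icc]
    generalize farS c p lo hi ∪ band c p = F at mF
    have sY : ∀ d a, Y d a ≠ 0 → lo / 2 - |c| ≤ a ∧ a ≤ hi / 2 + |c| := by
      rintro ⟨_ | i, s⟩ a ha
      · have := sl s a ha
        omega
      · have := su i s a ha
        have := ZMod.val_lt s
        omega
    rw [hval (F ∪ Icc 0 (p / 2)) fun d a ha => by
      have := sY d a ha
      rw [mem_union, mF, mem_Icc]
      omega]
    funext o s
    change ∑ a ∈ F ∪ Icc 0 (p / 2), Y (o, s) a • tt n a =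
      ∑ a ∈ F, (Y (o, s) a - (clipF c V H i0 Y).2 (a - off c ((o, s) : Dg k)) (o, s)) • tt n a +
      ∑ q ∈ SS (str (eH c)) V, (clipF c V H i0 Y).2 q (o, s) • tt n (q + off c ((o, s) : Dg k))
    generalize ((o, s) : Dg k) = d
    have ho := clip_off c d
    have e1 : ∑ a ∈ F, (Y d a - (clipF c V H i0 Y).2 (a - off c d) d) • tt n a =
        ∑ a ∈ F ∪ Icc 0 (p / 2), (Y d a - (clipF c V H i0 Y).2 (a - off c d) d) • tt n a := by
      refine sum_subset subset_union_left fun a _ ha => ?_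
      rw [mF] at ha
      by_cases hq : a - off c d ∈ SS (str (eH c)) V
      · have h1 := hR _ hq
        rw [f2 _ hq, sub_add_cancel, (clip_C_zero H i0 ((hV _).2 (by omega)) ((hV _).2 (by omega))
          ((hV _).2 (by omega))).2.2.2.2, add_zero, sub_self, zero_smul]
      · have h1 : a - off c d ∉ V := fun h => hq (clip_self h)
        have h2 : Y d a = 0 := by
          by_contra h2
          have := sY d a h2
          rw [hV] at h1
          omega
        rw [f3 _ hq, h2, sub_zero, zero_smul]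
    have e2 : ∑ q ∈ SS (str (eH c)) V, (clipF c V H i0 Y).2 q d • tt n (q + off c d) =
        ∑ a ∈ F ∪ Icc 0 (p / 2), (clipF c V H i0 Y).2 (a - off c d) d • tt n a := by
      rw [← sum_subset (s₁ := (SS (str (eH c)) V).image (· + off c d))
        (s₂ := F ∪ Icc 0 (p / 2)) (fun a ha => ?_)
        fun a _ ha => ?_, sum_image fun a _ b _ h => add_right_cancel h]
      · simp only [add_sub_cancel_right]
      · obtain ⟨q, hq, rfl⟩ := mem_image.1 ha
        have := hR q hq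
        exact mem_union_right _ (mem_Icc.2 (by omega))
      · rw [f3 _ fun h => ha (mem_image.2 ⟨_, h, sub_add_cancel _ _⟩), zero_smul]
    rw [e1, e2, ← sum_add_distrib]
    exact sum_congr rfl fun a _ => by rw [← add_smul, sub_add_cancel]
  · dsimp only
    by_cases hq : a - off c d ∈ SS (str (eH c)) V
    · have h3 := bC _ hq d
      rw [f2 _ hq, sub_add_cancel, abs_le]
      omega
    · have h2 := bY d a
      rw [f3 _ hq, abs_le]
      omega
  · have mF : ∀ a ∈ farS c p lo hi, a ≤ -|c| - 2 ∨ p / 2 + |c| + 2 ≤ a := fun a ha => by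
      simp only [farS, mem_union, mem_Icc] at ha
      omega
    generalize farS c p lo hi = F at mF
    have k1 : ∑ a ∈ F, ∑ d, (Y d a - (clipF c V H i0 Y).2 (a - off c d) d).natAbs =
        ∑ a ∈ F, ∑ d, (Y d a).natAbs := sum_congr rfl fun a ha => sum_congr rfl fun d _ => by
      have h1 := mF a ha
      have h2 := clip_off c d
      rw [f3 _ fun h => by have := hR _ h; omega, sub_zero]
    have k2 : ∑ q ∈ SS (str (eH c)) V, ∑ d, (Y d (q + off c d)).natAbs ≤
        ∑ a ∈ Icc 0 (p / 2), ∑ d, (Y d a).natAbs := by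
      rw [sum_comm, sum_comm (s := Icc 0 (p / 2))]
      refine sum_le_sum fun d _ => ?_
      rw [← sum_image (s := SS (str (eH c)) V) (g := (· + off c d)) (f := fun a => (Y d a).natAbs)
        fun a _ b _ h => add_right_cancel h]
      refine sum_le_sum_of_subset fun a ha => ?_
      obtain ⟨q, hq, rfl⟩ := mem_image.1 ha
      have h1 := hR q hq
      have h2 := clip_off c d
      exact mem_Icc.2 (by omega)
    have k4 : ∑ q ∈ SS (str (eH c)) V, ∑ d, (clipC c (clipD c V H) i0 q d).natAbs ≤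
        ∑ m ∈ Ico 0 p, (clipD c V H m).natAbs + ∑ m ∈ Ico 0 p, (clipD c V H m).natAbs := by
      refine (sum_le_sum fun q _ => clip_Csum c _ i0 q).trans ?_
      rw [sum_add_distrib]
      exact add_le_add
        (clip_pair (fun m => (clipD c V H m).natAbs) _ _ _ fun q hq => by have := hR q hq; omega)
        (clip_pair (fun m => (clipD c V H m).natAbs) _ _ _ fun q hq => by have := hR q hq; omega)
    have k5 : ∑ a ∈ V ×ˢ (univ : Finset (Fin 2)), 2 * rho ((clipF c V H i0 Y).1 a) ≤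
        ∑ m ∈ Ico 0 p, if m / 2 - c ∈ V then 2 * rho (H m) else 0 := by
      refine le_trans (le_of_eq ?_) (clip_pair _ V (2 * c) _ fun q hq => by
        have := hR q (clip_self hq); omega)
      rw [sum_product]
      refine sum_congr rfl fun q hq => ?_
      rw [Fin.sum_univ_two, f1 q hq, f1 q hq,
        if_pos (by rwa [show (2 * q + 2 * c) / 2 - c = q by omega]),
        if_pos (by rwa [show (2 * q + 2 * c + 1) / 2 - c = q by omega]), mul_add]
      simp
    have k6 : ∑ m ∈ Ico 0 p, (clipD c V H m).natAbs + ∑ m ∈ Ico 0 p, (clipD c V H m).natAbs +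
        ∑ m ∈ Ico 0 p, (if m / 2 - c ∈ V then 2 * rho (H m) else 0) =
        ∑ m ∈ Ico 0 p, 2 * rho (H m) := by
      rw [← sum_add_distrib, ← sum_add_distrib]
      refine sum_congr rfl fun m _ => ?_
      rw [clip_abs]
      split_ifs <;> omega
    have k7 : ∑ q ∈ SS (str (eH c)) V, szJ univ ((clipF c V H i0 Y).2 q) ≤
        ∑ q ∈ SS (str (eH c)) V, ∑ d, (Y d (q + off c d)).natAbs +
          ∑ q ∈ SS (str (eH c)) V, ∑ d, (clipC c (clipD c V H) i0 q d).natAbs := by
      rw [← sum_add_distrib]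
      refine sum_le_sum fun q hq => ?_
      rw [← sum_add_distrib]
      refine sum_le_sum fun d _ => ?_
      rw [f2 q hq]
      exact Int.natAbs_add_le _ _
    set Hd := (SS (str (eH c)) V).filter fun q =>
      Hard (hN c H q) fun d => Y d (q + off c d) with hHd
    have k8 : ((SS (str (eH c)) V).filter fun q =>
        Hard (hs (eH c) (clipF c V H i0 Y).1 q) ((clipF c V H i0 Y).2 q)).card ≤
        Hd.card + (8 * c.natAbs + 4) := by
      calc _ ≤ (Hd ∪ (Icc (|c| + 1) (5 * |c| + 2) ∪ Icc (|c| + 2 + M) (5 * |c| + 2 + M))).card := by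
            refine card_le_card fun q hq => ?_
            obtain ⟨h1, h2⟩ := mem_filter.1 hq
            have h3 := hR q h1
            rw [mem_union, mem_union, mem_Icc, mem_Icc]
            by_contra h4
            obtain ⟨e0, e1, e2, e3, e4⟩ := clip_C_zero (c := c) (q := q) H i0 ((hV _).2 (by omega))
              ((hV _).2 (by omega)) ((hV _).2 (by omega))
            refine h4 (.inl (mem_filter.2 ⟨h1, ?_⟩))
            have h5 : (clipF c V H i0 Y).2 q = fun d => Y d (q + off c d) :=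
              funext fun d => by rw [f2 q h1, e4, add_zero]
            rw [f4 q h1, h5, hN, e0, e1, e2, e3] at h2
            simpa only [add_zero, hN] using h2
        _ ≤ _ := by
            refine (card_union_le _ _).trans (Nat.add_le_add_left ((card_union_le _ _).trans ?_) _)
            rw [Int.card_Icc, Int.card_Icc]
            omega
    have k9 := cost (F ∪ Icc 0 (p / 2)) Hd fun q hq => by
      obtain ⟨h1, h2⟩ := mem_filter.1 hq
      have h3 := hR q h1
      exact ⟨by omega, by omega, h2⟩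
    rw [sum_union (disjoint_left.2 fun a ha hb => by
      have h1 := mF a ha
      have h2 := mem_Icc.1 hb
      omega)] at k9
    simp only [Ec, nc, sum_add_distrib, k1, ← sum_filter, sum_const, smul_eq_mul]
    omega

end Pool.Agent.MP_646035_al.PC

namespace Pool.Agent.MP_646035_al.PC

open Finset PT

variable {n k : ℕ} {Q : Type} [AddCommGroup Q] [DecidableEq Q] {e : Fin 2 → Q}

theorem val_of_rel {c : ℤ} {V : Finset ℤ} {δ : Cf ℤ k} (h : δ ∈ Mv (NN n) (eH c) V) :
    valN n c (SS (str (eH c)) V) δ.2 = 0 := by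
  obtain ⟨κ, -, h2, h3⟩ := h
  funext o s
  have key := sum_carry (n := n) (fun j => κ j (o, s)) (SS (str (eH c)) V) (fun j hj => by
    have hy : j - ownO (eH c) ((o, s) : Dg k) ∈ V := by
      by_contra hy
      exact hj (h2 j (o, s) hy)
    unfold ownO at hy
    split_ifs at hy with hd
    · refine ⟨mem_SS.2 ⟨_, hy, mem_str.2 ?_⟩, mem_SS.2 ⟨_, hy, mem_str.2 ?_⟩,
        mem_SS.2 ⟨_, hy, mem_str.2 ?_⟩⟩
      · simp only [eT_eH, eH_zero, eH_one]; omega
      · simp only [eT_eH, eH_zero, eH_one]; omega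
      · simp only [eT_eH, eH_zero, eH_one]; omega
    · refine ⟨mem_SS.2 ⟨_, hy, mem_str.2 ?_⟩, mem_SS.2 ⟨_, hy, mem_str.2 ?_⟩,
        mem_SS.2 ⟨_, hy, mem_str.2 ?_⟩⟩
      · simp only [eT_eH, eH_zero, eH_one]; omega
      · simp only [eT_eH, eH_zero, eH_one]; omega
      · simp only [eT_eH, eH_zero, eH_one]; omega)
  have : valN n c (SS (str (eH c)) V) δ.2 o s =
      (∑ j ∈ SS (str (eH c)) V,
        ((NN n : ℤ) * κ j (o, s) - κ (j - 1) (o, s) - κ (j + 1) (o, s)) • tt n j) *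
          tt n (off c ((o, s) : Dg k)) := by
    rw [sum_mul]
    refine sum_congr rfl fun q _ => ?_
    rw [h3, tt_add, smul_mul_assoc]
    simp only [carr, eT_eH]
  rw [this, key, zero_mul]
  rfl

lemma count_valN_sub (c : ℤ) (Λ : Finset ℤ) (y y' : ℤ → Dg k → ℤ) :
    valN n c Λ (y - y') = valN n c Λ y - valN n c Λ y' := by
  funext o s
  simp only [valN, Pi.sub_apply, sub_smul, sum_sub_distrib]

lemma count_valW_congr {S : Finset ℤ} {Y Y' : Dg k → ℤ → ℤ}
    (h : ∀ a ∈ S, ∀ d, Y d a = Y' d a) : valW n S Y = valW n S Y' := by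
  funext o s
  exact sum_congr rfl fun a ha => by rw [h a ha]

lemma count_card_band (c p : ℤ) : (band c p).card ≤ 14 * c.natAbs + 11 := by
  refine (card_union_le _ _).trans ?_
  rw [Int.card_Icc, Int.card_Icc, Int.abs_eq_natAbs]
  omega

lemma count_card_far (c : ℤ) (p A B : ℕ) :
    2 * (farS c p (-(A : ℤ)) (p + B)).card ≤ A + B + 2 := by
  have := card_union_le (Icc (-(A : ℤ) / 2 - |c| - 1) (-|c| - 2))
    (Icc ((p : ℤ) / 2 + |c| + 2) (((p : ℤ) + B) / 2 + |c| + 1))
  rw [Int.card_Icc, Int.card_Icc] at this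
  unfold farS
  generalize |c| = m at this ⊢
  omega

lemma count_card_Dg : Fintype.card (Dg k) = 2 * k + 2 := by
  simp [Fintype.card_prod, ZMod.card]
  ring

/-- The restriction of digits to the positions in `S`. -/
def countRes (S : Finset ℤ) (Y : Dg k → ℤ → ℤ) : ℤ × Dg k → ℤ :=
  fun t => if t.1 ∈ S then Y t.2 t.1 else 0

lemma count_res_mem {S : Finset ℤ} {Y : Dg k → ℤ → ℤ} {B : ℕ} (h : ∀ d a, |Y d a| ≤ B) :
    countRes S Y ∈ asg 0 (S ×ˢ (univ : Finset (Dg k))) (bx B) := by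
  refine mem_asg.2 ⟨fun t ht => ?_, fun t ht => ?_⟩
  · rw [mem_bx, countRes, if_pos (mem_product.1 ht).1]
    exact h _ _
  · rw [countRes, if_neg fun h' => ht (mem_product.2 ⟨h', mem_univ _⟩)]

lemma count_res_eq {S : Finset ℤ} {Y Y' : Dg k → ℤ → ℤ} (h : countRes S Y = countRes S Y')
    {a : ℤ} (ha : a ∈ S) (d : Dg k) : Y d a = Y' d a := by
  have := congrFun h (a, d)
  simpa only [countRes, if_pos ha] using this

lemma count_res_sz (S : Finset ℤ) (Y : Dg k → ℤ → ℤ) :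
    szJ (S ×ˢ (univ : Finset (Dg k))) (countRes S Y) = ∑ a ∈ S, ∑ d, (Y d a).natAbs := by
  rw [szJ, sum_product]
  refine sum_congr rfl fun a ha => sum_congr rfl fun d _ => ?_
  rw [countRes, if_pos ha]

lemma count_far_le {x : ℝ} (hx : 0 < x) (hx1 : x < 1)
    (hout : x ^ 2 * ((1 + x) / (1 - x)) ^ (k + 2) ≤ 1) (B0 m j : ℕ) (hm : 2 * m ≤ j + 2) :
    x ^ (2 * j) * gam B0 x ^ (m * (2 * k + 2)) ≤ ((1 + x) / (1 - x)) ^ (2 * k + 2) := by
  set G := (1 + x) / (1 - x) with hG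
  have hG1 : 1 ≤ G := by
    rw [hG, le_div_iff₀ (by linarith)]
    linarith
  have h1 : gam B0 x ^ (m * (2 * k + 2)) ≤ G ^ ((k + 1) * j + (2 * k + 2)) := by
    refine (pow_le_pow_left₀ (le_trans zero_le_one (one_le_gam B0 hx.le))
      (gam_le B0 hx.le hx1) _).trans (pow_le_pow_right₀ hG1 ?_)
    nlinarith
  have h2 : x ^ 2 * G ^ (k + 1) ≤ 1 := by
    refine le_trans ?_ hout
    exact mul_le_mul_of_nonneg_left (pow_le_pow_right₀ hG1 (by omega)) (by positivity)
  have h3 : (x ^ 2 * G ^ (k + 1)) ^ j ≤ 1 := pow_le_one₀ (by positivity) h2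
  calc x ^ (2 * j) * gam B0 x ^ (m * (2 * k + 2))
      ≤ x ^ (2 * j) * G ^ ((k + 1) * j + (2 * k + 2)) := by gcongr
    _ = (x ^ 2 * G ^ (k + 1)) ^ j * G ^ (2 * k + 2) := by
        rw [mul_pow, ← pow_mul, ← pow_mul, pow_add]; ring
    _ ≤ 1 * G ^ (2 * k + 2) := by gcongr
    _ = _ := one_mul _

/-- One class of elements with the same position, range and lane. -/
lemma count_fibre (c : ℤ) {x C : ℝ} (hx : 0 < x) (hx1 : x < 1)
    (hout : x ^ 2 * ((1 + x) / (1 - x)) ^ (k + 2) ≤ 1) (r C0 p A B : ℕ) (s0 : ZMod 2)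
    (hZ : x ^ (2 * inM c p) * ZZ (NN n) k (3 * r + 2) (eH c) x (inV c (inM c p)) ≤ C)
    (F : Finset (El n k)) (Yo : El n k → Dg k → ℤ → ℤ) (cf : El n k → Cf ℤ k)
    (hg : ∀ h ∈ F, site h.g = p) (hs : ∀ h ∈ F, h.s = s0)
    (hcf : ∀ h ∈ F, cf h ∈ cfg k (3 * r + 2) (eH c) (inV c (inM c p)))
    (hw : ∀ h ∈ F, h.w = valW n (farS c p (-(A : ℤ)) (p + B) ∪ band c p) (Yo h) +
      valN n c (SS (str (eH c)) (inV c (inM c p))) (cf h).2)
    (hY : ∀ h ∈ F, ∀ d a, |Yo h d a| ≤ (3 * r : ℕ))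
    (hc : ∀ h ∈ F, 2 * inM c p + 2 * (A + B) +
      (∑ a ∈ farS c p (-(A : ℤ)) (p + B), ∑ d, (Yo h d a).natAbs) +
      Ec (eH c) (inV c (inM c p)) (cf h) ≤ r + C0) :
    ∑ _h ∈ F, x ^ (r + C0) ≤ (6 * (r : ℝ) + 1) ^ ((14 * c.natAbs + 11) * (2 * k + 2)) *
      (((1 + x) / (1 - x)) ^ (2 * k + 2) * C) := by
  classical
  set Sf := farS c p (-(A : ℤ)) (p + B) with hSf
  set Sb := band c p with hSb
  set V := inV c (inM c p) with hV
  set Jf := Sf ×ˢ (univ : Finset (Dg k)) with hJf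
  set Jb := Sb ×ˢ (univ : Finset (Dg k)) with hJb
  have hZ0 : 0 ≤ ZZ (NN n) k (3 * r + 2) (eH c) x V := ZZ_nonneg _ _ _ hx.le _
  have hxp : ∀ m : ℕ, 0 ≤ x ^ m := fun m => pow_nonneg hx.le m
  have hC : 0 ≤ C := le_trans (mul_nonneg (hxp _) hZ0) hZ
  have hmap : ∀ h ∈ F, (countRes Sb (Yo h), countRes Sf (Yo h)) ∈
      asg 0 Jb (bx (3 * r)) ×ˢ asg 0 Jf (bx (3 * r)) := fun h hh =>
    mem_product.2 ⟨count_res_mem (hY h hh), count_res_mem (hY h hh)⟩
  rw [← sum_fiberwise_of_maps_to hmap]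
  have hfib : ∀ t ∈ asg 0 Jb (bx (3 * r)) ×ˢ asg 0 Jf (bx (3 * r)),
      ∑ _h ∈ F with (countRes Sb (Yo _h), countRes Sf (Yo _h)) = t, x ^ (r + C0) ≤
        x ^ (2 * (A + B)) * C * x ^ szJ Jf t.2 := by
    intro t _
    have h1 := le_ZZ (NN n) (3 * r + 2) hx.le hx1.le V
      (F.filter fun h => (countRes Sb (Yo h), countRes Sf (Yo h)) = t) cf
      (fun h hh => hcf h (mem_filter.1 hh).1) (fun i hi j hj hij => by
        obtain ⟨hi, hi'⟩ := mem_filter.1 hi
        obtain ⟨hj, hj'⟩ := mem_filter.1 hj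
        have he := hi'.trans hj'.symm
        have hb := (Prod.ext_iff.1 he).1
        have hf := (Prod.ext_iff.1 he).2
        have h0 := val_of_rel (n := n) hij
        rw [Prod.snd_sub, count_valN_sub, sub_eq_zero] at h0
        refine El.ext ?_ ?_ ?_
        · rw [hw i hi, hw j hj, h0, add_left_inj]
          refine count_valW_congr fun a ha d => ?_
          rcases mem_union.1 ha with ha | ha
          · exact count_res_eq hf ha d
          · exact count_res_eq hb ha d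
        · rw [← gs_site i.g, ← gs_site j.g, hg i hi, hg j hj]
        · rw [hs i hi, hs j hj])
    calc ∑ _h ∈ F with (countRes Sb (Yo _h), countRes Sf (Yo _h)) = t, x ^ (r + C0)
        ≤ ∑ h ∈ F with (countRes Sb (Yo h), countRes Sf (Yo h)) = t,
            x ^ (2 * (A + B)) * x ^ szJ Jf t.2 * x ^ (2 * inM c p) * x ^ Ec (eH c) V (cf h) := by
          refine sum_le_sum fun h hh => ?_
          obtain ⟨hh, ht⟩ := mem_filter.1 hh
          rw [← pow_add, ← pow_add, ← pow_add]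
          refine pow_le_pow_of_le_one hx.le hx1.le ?_
          have h2 := hc h hh
          rw [← count_res_sz, ← hJf] at h2
          rw [← ht]
          dsimp only
          omega
      _ = x ^ (2 * (A + B)) * x ^ szJ Jf t.2 * (x ^ (2 * inM c p) *
            ∑ h ∈ F with (countRes Sb (Yo h), countRes Sf (Yo h)) = t,
              x ^ Ec (eH c) V (cf h)) := by
          rw [← mul_sum, mul_assoc]
      _ ≤ x ^ (2 * (A + B)) * x ^ szJ Jf t.2 * C := by
          refine mul_le_mul_of_nonneg_left (le_trans ?_ hZ) (mul_nonneg (hxp _) (hxp _))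
          exact mul_le_mul_of_nonneg_left h1 (hxp _)
      _ = _ := by ring
  refine (sum_le_sum hfib).trans ?_
  rw [sum_product]
  dsimp only
  rw [sum_const, ← mul_sum, sum_asg_gam, card_asg, nsmul_eq_mul]
  have hcb : (bx (3 * r)).card = 6 * r + 1 := by
    rw [bx, Int.card_Icc]
    omega
  have h1 : (((bx (3 * r)).card ^ Jb.card : ℕ) : ℝ) ≤
      (6 * (r : ℝ) + 1) ^ ((14 * c.natAbs + 11) * (2 * k + 2)) := by
    rw [hcb]
    push_cast
    refine pow_le_pow_right₀ (by linarith [Nat.cast_nonneg (α := ℝ) r]) ?_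
    rw [hJb, card_product, card_univ, count_card_Dg]
    exact Nat.mul_le_mul_right _ (count_card_band c p)
  have h2 : x ^ (2 * (A + B)) * gam (3 * r) x ^ Jf.card ≤ ((1 + x) / (1 - x)) ^ (2 * k + 2) := by
    rw [hJf, card_product, card_univ, count_card_Dg]
    exact count_far_le hx hx1 hout _ _ _ (count_card_far c p A B)
  have h3 : x ^ (2 * (A + B)) * C * gam (3 * r) x ^ Jf.card ≤
      ((1 + x) / (1 - x)) ^ (2 * k + 2) * C := by
    rw [mul_right_comm]
    exact mul_le_mul_of_nonneg_right h2 hC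
  have h4 : 0 ≤ gam (3 * r) x := le_trans zero_le_one (one_le_gam _ hx.le)
  exact mul_le_mul h1 h3 (mul_nonneg (mul_nonneg (hxp _) hC) (pow_nonneg h4 _))
    ((Nat.cast_nonneg _).trans h1)

theorem count_le (hk : 0 < k) (c : ℤ) {x C : ℝ} (hx : 0 < x) (hx1 : x < 1)
    (hout : x ^ 2 * ((1 + x) / (1 - x)) ^ (k + 2) ≤ 1)
    (hZ : ∀ B M : ℕ, 2 ≤ B → x ^ (2 * M) * ZZ (NN n) k B (eH c) x (inV c M) ≤ C) :
    ∃ (C' : ℝ) (D : ℕ), ∀ r : ℕ,
      x ^ r * ({h ∈ ball (gens n k c) r | 0 ≤ site h.g}.ncard : ℝ) ≤ C' * ((r : ℝ) + 1) ^ D := by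
  classical
  obtain ⟨C0, hclip⟩ := clip (n := n) hk c
  set D0 := (14 * c.natAbs + 11) * (2 * k + 2) with hD0
  set K := ((1 + x) / (1 - x)) ^ (2 * k + 2) * C with hK
  have hC : 0 ≤ C :=
    le_trans (mul_nonneg (by positivity) (ZZ_nonneg _ _ _ hx.le _)) (hZ 2 0 le_rfl)
  have hK0 : 0 ≤ K := by
    have : 0 < 1 - x := by linarith
    positivity
  refine ⟨2 * 6 ^ D0 * K / x ^ C0, 3 + D0, fun r => ?_⟩
  have hfin : {h ∈ ball (gens n k c) r | 0 ≤ site h.g}.Finite :=
    (ball_finite _ _).subset fun h hh => hh.1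
  have key : ∀ h ∈ hfin.toFinset, ∃ (p A B : ℕ) (Yo : Dg k → ℤ → ℤ) (cf : Cf ℤ k),
      (p ≤ r ∧ A ≤ r ∧ B ≤ r) ∧ site h.g = p ∧
      cf ∈ cfg k (3 * r + 2) (eH c) (inV c (inM c p)) ∧
      h.w = valW n (farS c p (-(A : ℤ)) (p + B) ∪ band c p) Yo +
        valN n c (SS (str (eH c)) (inV c (inM c p))) cf.2 ∧
      (∀ d a, |Yo d a| ≤ (3 * r : ℕ)) ∧
      2 * inM c p + 2 * (A + B) +
        (∑ a ∈ farS c p (-(A : ℤ)) (p + B), ∑ d, (Yo d a).natAbs) +
        Ec (eH c) (inV c (inM c p)) cf ≤ r + C0 := by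
    intro h hh
    obtain ⟨hb, hp⟩ := hfin.mem_toFinset.1 hh
    obtain ⟨lo, hi, Y, hL⟩ := exists_lift c hb hp
    obtain ⟨cf, h1, Yo, h2, h3, h4⟩ := hclip h r lo hi Y hp hL
    have h5 := hL.cost ∅ ∅ (by simp)
    have h6 := hL.lo0
    have h7 := hL.phi
    obtain ⟨p, hp'⟩ := Int.eq_ofNat_of_zero_le hp
    obtain ⟨A, hA⟩ := Int.eq_ofNat_of_zero_le (show 0 ≤ -lo by omega)
    obtain ⟨B, hB⟩ := Int.eq_ofNat_of_zero_le (show 0 ≤ hi - site h.g by omega)
    obtain rfl : lo = -(A : ℤ) := by omega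
    obtain rfl : hi = (p : ℤ) + B := by omega
    rw [hp'] at h1 h2 h4 h5
    refine ⟨p, A, B, Yo, cf, ⟨by omega, by omega, by omega⟩, hp', h1, h2, fun d a => ?_, ?_⟩
    · exact_mod_cast h3 d a
    · omega
  choose! p A B Yo cf hbox hg hcf hw hY hc using key
  have hmap : ∀ h ∈ hfin.toFinset, ((p h, A h, B h), h.s) ∈
      (range (r + 1) ×ˢ range (r + 1) ×ˢ range (r + 1)) ×ˢ (univ : Finset (ZMod 2)) := by
    intro h hh
    obtain ⟨h1, h2, h3⟩ := hbox h hh
    simp only [mem_product, mem_range, mem_univ, and_true]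
    omega
  have hsum : ∑ _h ∈ hfin.toFinset, x ^ (r + C0) ≤
      2 * ((r : ℝ) + 1) ^ 3 * ((6 * (r : ℝ) + 1) ^ D0 * K) := by
    rw [← sum_fiberwise_of_maps_to hmap]
    refine (sum_le_card_nsmul _ _ ((6 * (r : ℝ) + 1) ^ D0 * K) fun t _ => ?_).trans (le_of_eq ?_)
    · obtain ⟨⟨p0, A0, B0⟩, s0⟩ := t
      have hF : ∀ h ∈ hfin.toFinset.filter fun h => ((p h, A h, B h), h.s) = ((p0, A0, B0), s0),
          h ∈ hfin.toFinset ∧ p h = p0 ∧ A h = A0 ∧ B h = B0 ∧ h.s = s0 := by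
        intro h hh
        obtain ⟨h1, h2⟩ := mem_filter.1 hh
        simp only [Prod.mk.injEq] at h2
        exact ⟨h1, h2.1.1, h2.1.2.1, h2.1.2.2, h2.2⟩
      refine count_fibre c hx hx1 hout r C0 p0 A0 B0 s0 (hZ _ _ (by omega)) _ Yo cf
        (fun h hh => ?_) (fun h hh => (hF h hh).2.2.2.2) (fun h hh => ?_) (fun h hh => ?_)
        (fun h hh => hY h (hF h hh).1) (fun h hh => ?_)
      · obtain ⟨h0, rfl, -⟩ := hF h hh
        exact hg h h0
      · obtain ⟨h0, rfl, -⟩ := hF h hh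
        exact hcf h h0
      · obtain ⟨h0, rfl, rfl, rfl, -⟩ := hF h hh
        exact hw h h0
      · obtain ⟨h0, rfl, rfl, rfl, -⟩ := hF h hh
        exact hc h h0
    · simp only [card_product, card_range, card_univ, ZMod.card, nsmul_eq_mul]
      push_cast
      ring
  rw [sum_const, nsmul_eq_mul, ← Set.ncard_eq_toFinset_card _ hfin] at hsum
  have h6 : (6 * (r : ℝ) + 1) ^ D0 ≤ 6 ^ D0 * ((r : ℝ) + 1) ^ D0 := by
    rw [← mul_pow]
    exact pow_le_pow_left₀ (by positivity) (by linarith) _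
  rw [div_mul_eq_mul_div, le_div_iff₀ (by positivity)]
  calc x ^ r * ({h ∈ ball (gens n k c) r | 0 ≤ site h.g}.ncard : ℝ) * x ^ C0
      = ({h ∈ ball (gens n k c) r | 0 ≤ site h.g}.ncard : ℝ) * x ^ (r + C0) := by
        rw [pow_add]; ring
    _ ≤ 2 * ((r : ℝ) + 1) ^ 3 * ((6 * (r : ℝ) + 1) ^ D0 * K) := hsum
    _ ≤ 2 * ((r : ℝ) + 1) ^ 3 * (6 ^ D0 * ((r : ℝ) + 1) ^ D0 * K) := by gcongr
    _ = _ := by rw [pow_add]; ring

lemma count_ball_le (c : ℤ) (r : ℕ) : (ball (gens n k c) r).ncard ≤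
    2 * {h ∈ ball (gens n k c) (r + 1) | 0 ≤ site h.g}.ncard := by
  have hfin : {h ∈ ball (gens n k c) (r + 1) | 0 ≤ site h.g}.Finite :=
    (ball_finite _ _).subset fun h hh => hh.1
  have hsub : ball (gens n k c) r ⊆ {h ∈ ball (gens n k c) (r + 1) | 0 ≤ site h.g} ∪
      (fun h => (mv rho1 : El n k)⁻¹ * h) '' {h ∈ ball (gens n k c) (r + 1) | 0 ≤ site h.g} := by
    intro h hh
    rcases le_or_gt 0 (site h.g) with hp | hp
    · exact .inl ⟨ball_mono _ (Nat.le_succ r) hh, hp⟩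
    · refine .inr ⟨mv rho1 * h, ⟨?_, ?_⟩, by simp⟩
      · rw [add_comm]
        exact mul_mem_ball (mem_gens_ball c).2.1 hh
      · have : (mv rho1 * h).g = rho1 * h.g := rfl
        rw [this, site_rho1_mul]
        omega
  refine (Set.ncard_le_ncard hsub (hfin.union (hfin.image _))).trans
    ((Set.ncard_union_le _ _).trans ?_)
  have := Set.ncard_image_le (f := fun h => (mv rho1 : El n k)⁻¹ * h) hfin
  omega

theorem rate_le (hk : 0 < k) (c : ℤ) {x C e : ℝ} (he : IsRate (gens n k c) e) (hx : 0 < x)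
    (hx1 : x < 1) (hout : x ^ 2 * ((1 + x) / (1 - x)) ^ (k + 2) ≤ 1)
    (hZ : ∀ B M : ℕ, 2 ≤ B → x ^ (2 * M) * ZZ (NN n) k B (eH c) x (inV c M) ≤ C) :
    x * e ≤ 1 := by
  obtain ⟨C', D, h⟩ := count_le hk c hx hx1 hout hZ
  refine rate_le_of_bound he (C := 2 * |C'| * 2 ^ D / x) (D := D) hx fun r => ?_
  have h1 := h (r + 1)
  have h2 : ((ball (gens n k c) r).ncard : ℝ) ≤
      2 * ({h ∈ ball (gens n k c) (r + 1) | 0 ≤ site h.g}.ncard : ℝ) := by
    exact_mod_cast count_ball_le c r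
  have h3 : (((r + 1 : ℕ) : ℝ) + 1) ^ D ≤ 2 ^ D * ((r : ℝ) + 1) ^ D := by
    rw [← mul_pow]
    refine pow_le_pow_left₀ (by positivity) ?_ _
    push_cast
    linarith [Nat.cast_nonneg (α := ℝ) r]
  rw [div_mul_eq_mul_div, le_div_iff₀ hx]
  calc x ^ r * ((ball (gens n k c) r).ncard : ℝ) * x
      ≤ x ^ r * (2 * ({h ∈ ball (gens n k c) (r + 1) | 0 ≤ site h.g}.ncard : ℝ)) * x := by gcongr
    _ = 2 * (x ^ (r + 1) * ({h ∈ ball (gens n k c) (r + 1) | 0 ≤ site h.g}.ncard : ℝ)) := by ring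
    _ ≤ 2 * (|C'| * (2 ^ D * ((r : ℝ) + 1) ^ D)) := by
        refine mul_le_mul_of_nonneg_left (h1.trans ?_) zero_le_two
        exact mul_le_mul (le_abs_self _) h3 (by positivity) (abs_nonneg _)
    _ = _ := by ring

end Pool.Agent.MP_646035_al.PC
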