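import Pool.Agent.MP_646035_al.PC.Two
import Pool.Agent.MP_646035_al.PC.Ana
import Pool.Agent.MP_646035_al.PC.Low
import Pool.Agent.MP_646035_al.PC.Up
import Pool.Agent.MP_646035_al.PC.Gen

namespace Pool.Agent.MP_646035_al.PC

open Finset PT

variable {n k : ℕ}

lemma main_k_pos {u : ℝ} (hu : Good k u) : 0 < k := by
  rcases Nat.eq_zero_or_pos k with rfl | h
  · have := hu.big
    norm_num at this
  · exact h

lemma main_x_le {u : ℝ} (hu : Good k u) : u ^ 4 ≤ 1 / 1000 := by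
  have h1 : u ≤ 1 / 10 := hu.u_le.trans (one_div_le_one_div_of_le (by norm_num)
    (le_self_pow₀ (by norm_num) (by norm_num)))
  calc u ^ 4 ≤ (1 / 10) ^ 4 := pow_le_pow_left₀ hu.pos.le h1 4
    _ ≤ 1 / 1000 := by norm_num

lemma main_rate {u : ℝ} (hu : Good k u) (c : ℤ) {g : ℝ} (hg : 0 < g) :
    ∃ τ : ℝ, 0 < τ ∧ ∀ y C : ℝ, 0 < y → y ≤ 11 / 10 * u ^ 4 →
      (∀ (B M : ℕ) (a : ℤ), 2 ≤ B →
        y ^ (2 * M) * ZZ (NN n) k B (eH c) y (Ico a (a + M)) ≤ C * Real.exp (-(g * M))) →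
      ∀ e, IsRate (gens n k c) e → y * (1 + τ) * e ≤ 1 := by
  obtain ⟨τ, h0, h1, h⟩ := Z_gain k c hg
  have hx := main_x_le hu
  refine ⟨τ, h0, fun y C hy hy1 hZ e he => ?_⟩
  obtain ⟨C', hC'⟩ := h (NN n) y C (3 * |c| + 2) hy (by linarith) fun B M hB => hZ B M _ hB
  have h2 : y * (1 + τ) ≤ 12 / 10 * u ^ 4 := by nlinarith
  have h3 : 0 < y * (1 + τ) := by positivity
  exact rate_le (main_k_pos hu) c he h3 (by linarith) (numOut hu h3 h2) hC'

lemma main_big {u : ℝ} (hu : Good k u) (hn : 25 ≤ n) (c : ℤ) {e : ℝ}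
    (he : IsRate (gens n k c) e) : 1 ≤ 11 / 10 * u ^ 4 * e := by
  have hx := main_x_le hu
  have hp := pow_pos hu.pos 4
  by_contra h
  exact absurd (block_gens hn c he (by positivity) (by linarith) (not_le.1 h)) (not_le.2 (numBlk hu))

theorem exists_smaller {u : ℝ} (hu : Good k u) (hn : 25 ≤ n) (hk : k + 4 ≤ n)
    (hN : Big k u (NN n)) {S : Finset (El n k)} (hS : Gen S) {e : ℝ} (he : IsRate S e) :
    ∃ c e', IsRate (gens n k c) e' ∧ e' < e := by
  have hx := main_x_le hu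
  have hp := pow_pos hu.pos 4
  rcases le_or_gt 1 (u ^ 4 * e) with h1 | h1
  · obtain ⟨g, C, hg, hZ⟩ := Z_star hu hN 1
    obtain ⟨τ, hτ, h⟩ := main_rate (n := n) hu 1 hg
    obtain ⟨e', he'⟩ := exists_isRate (gens n k 1)
    have h2 := h _ C hp (by linarith) hZ e' he'
    have h3 := he'.one_le
    refine ⟨1, e', he', lt_of_mul_lt_mul_left (a := u ^ 4) ?_ hp.le⟩
    nlinarith [mul_pos hp hτ]
  · obtain ⟨S', e1, Yl, he1, hle, hZ1⟩ := exists_Z1 hS he hu hk h1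
    obtain ⟨c, hc⟩ := two_cases hn hZ1 he1 hu
      (lt_of_le_of_lt (mul_le_mul_of_nonneg_left hle hp.le) h1)
    obtain ⟨e2, he2⟩ := exists_isRate (gens n k c)
    have hle2 : e2 ≤ e := (rate_mono he2 he1 hc).trans hle
    have h2 : u ^ 4 * e2 < 1 := lt_of_le_of_lt (mul_le_mul_of_nonneg_left hle2 hp.le) h1
    have h3 := main_big hu hn c he2
    have h4 : 0 < e2 := lt_of_lt_of_le one_pos he2.one_le
    obtain ⟨cm, hcm0, hcm⟩ : ∃ cm : ℤ, cm ≠ 0 ∧ (c = cm ∨ c = 0) := by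
      rcases eq_or_ne c 0 with h | h
      · exact ⟨1, one_ne_zero, .inr h⟩
      · exact ⟨c, h, .inl rfl⟩
    obtain ⟨c', -, g, C, hg, hC, hZ⟩ := Z_compare hu hN hcm0
    obtain ⟨τ, hτ, h⟩ := main_rate (n := n) hu c' hg
    obtain ⟨y, hy1, hy2, hy3⟩ : ∃ y : ℝ, u ^ 4 ≤ y ∧ y * e2 < 1 ∧ 1 < y * (1 + τ) * e2 := by
      have h5 : 1 / ((1 + τ) * e2) < 1 / e2 :=
        one_div_lt_one_div_of_lt h4 (by nlinarith)
      obtain ⟨y, hy1, hy2⟩ := exists_between (max_lt h5 ((lt_div_iff₀ h4).2 h2))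
      refine ⟨y, (le_max_right _ _).trans hy1.le, (lt_div_iff₀ h4).1 hy2, ?_⟩
      have := (div_lt_iff₀ (by positivity)).1 ((le_max_left _ _).trans_lt hy1)
      linarith
    have hy0 : 0 < y := hp.trans_le hy1
    have hy4 : y ≤ 11 / 10 * u ^ 4 := le_of_mul_le_mul_right (by linarith) h4
    have hR : Rng k u y := ⟨hy1, hy4, block_gens hn c he2 hy0 (by linarith) hy2⟩
    obtain ⟨C1, hC1⟩ := Z_lower (main_k_pos hu) hcm he2 hy0 hy2
    obtain ⟨e', he'⟩ := exists_isRate (gens n k c')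
    have h6 := h y (C * C1) hy0 hy4 (fun B M a hB => by
      calc y ^ (2 * M) * ZZ (NN n) k B (eH c') y (Ico a (a + M))
          ≤ y ^ (2 * M) * (C * Real.exp (-(g * M)) * ZZ (NN n) k B (eH cm) y (Ico 0 (M : ℤ))) :=
            mul_le_mul_of_nonneg_left (hZ y hR B M a hB) (by positivity)
        _ = C * Real.exp (-(g * M)) *
            (y ^ (2 * M) * ZZ (NN n) k B (eH cm) y (Ico 0 (M : ℤ))) := by ring
        _ ≤ C * Real.exp (-(g * M)) * C1 := mul_le_mul_of_nonneg_left (hC1 B M) (by positivity)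
        _ = C * C1 * Real.exp (-(g * M)) := by ring) e' he'
    refine ⟨c', e', he', lt_of_lt_of_le ?_ hle2⟩
    exact lt_of_mul_lt_mul_left (a := y * (1 + τ)) (by linarith) (by positivity)

theorem main : ∃ (m : ℕ) (L : Subgroup (GL (Fin m) ℝ)), IsClosed (L : Set (GL (Fin m) ℝ)) ∧
    Finite (ConnectedComponents L) ∧ ∃ Γ : Subgroup L, DiscreteTopology Γ ∧
      CompactSpace (L ⧸ Γ) ∧ Γ.FG ∧ (∃ e ∈ growthSet Γ, 1 < e) ∧
        ∀ e, ¬ IsLeast (growthSet Γ) e := by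
  obtain ⟨k, u, hu⟩ := exists_good
  obtain ⟨n, hn, hk, hN⟩ := exists_big hu
  have E : GG n k ≃* Gam n k := (GG n k).equivMapOfInjective _ phi_injective
  have hG : growthSet (Gam n k) = growthSet (GG n k) :=
    Set.Subset.antisymm (rep_growth E.symm) (rep_growth E)
  refine ⟨lN k, LL k, isClosed_LL, finite_components, Gam n k, discrete_Gam, compact_quot, ?_, ?_,
    ?_⟩
  · haveI := fg_GG (n := n) (k := k)
    exact (Group.fg_iff_subgroup_fg _).1 (Group.fg_of_surjective (f := E.toMonoidHom) E.surjective)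
  · obtain ⟨e, he⟩ := exists_isRate (gens n k 0)
    refine ⟨e, hG ▸ (growth_iff e).2 ⟨_, gen_gens 0, he⟩, ?_⟩
    have h1 := main_big hu hn 0 he
    have h2 := main_x_le hu
    have h3 := he.one_le
    have hp := pow_pos hu.pos 4
    by_contra h
    nlinarith
  · rw [hG]
    rintro e ⟨he, hmin⟩
    obtain ⟨S, hS, he⟩ := (growth_iff e).1 he
    obtain ⟨c, e', he', hlt⟩ := exists_smaller hu hn hk hN hS he
    exact absurd (hmin ((growth_iff e').2 ⟨_, gen_gens c, he'⟩)) (not_le.2 hlt)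

end Pool.Agent.MP_646035_al.PC
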