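import Pool.Agent.MP_646035_al.PC.Alg
import Pool.Agent.MP_646035_al.PC.W

namespace Pool.Agent.MP_646035_al.PC

open Finset PT

variable {n k : ℕ} {Q : Type} [AddCommGroup Q] [DecidableEq Q] {e : Fin 2 → Q}

/-- The combination of the emissions of type `b` with the digits `z`. -/
def caseab_L (Tl : Fin k → El n k) (z : Fin k → ℤ) (b : ZMod 2) : Fin k → Lm n :=
  ∑ j, z j • ty (Tl j) b

/-- The digits `z` of type `b` at the position `c`. -/
noncomputable def caseab_mo (z : Fin k → ℤ) (b : ZMod 2) (c : ℤ) : Fin k × ZMod 2 → LP :=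
  fun i => if i.2 = b then LaurentPolynomial.C (z i.1) * LaurentPolynomial.T c else 0

lemma caseab_coeff (z : Fin k → ℤ) (b : ZMod 2) (c : ℤ) (i : Fin k × ZMod 2) (a : ℤ) :
    (caseab_mo z b c i).coeff a = if i.2 = b ∧ a = c then z i.1 else 0 := by
  unfold caseab_mo
  by_cases h : i.2 = b
  · rw [if_pos h, ← LaurentPolynomial.single_eq_C_mul_T, AddMonoidAlgebra.coeff_single,
      Finsupp.single_apply]
    simp only [h, true_and, eq_comm]
  · simp [h]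

lemma caseab_coeff_add (p q : Fin k × ZMod 2 → LP) (i : Fin k × ZMod 2) (a : ℤ) :
    ((p + q) i).coeff a = (p i).coeff a + (q i).coeff a := by
  rw [Pi.add_apply, AddMonoidAlgebra.coeff_add, Finsupp.add_apply]

lemma caseab_ev (Tl : Fin k → El n k) (z : Fin k → ℤ) (b : ZMod 2) (c : ℤ) :
    ∑ i, ev n (caseab_mo z b c i) • ty (Tl i.1) i.2 = tt n c • caseab_L Tl z b := by
  rw [Fintype.sum_prod_type, caseab_L, smul_sum]
  refine sum_congr rfl fun j _ => ?_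
  rw [Finset.sum_eq_single b]
  · simp only [caseab_mo, if_true, map_mul, ev_C, ev_T]
    rw [mul_comm, mul_smul, Int.cast_smul_eq_zsmul]
  · intro b' _ hb
    simp [caseab_mo, hb]
  · simp

lemma caseab_ev_add (Tl : Fin k → El n k) (p q : Fin k × ZMod 2 → LP) :
    ∑ i, ev n ((p + q) i) • ty (Tl i.1) i.2 =
      ∑ i, ev n (p i) • ty (Tl i.1) i.2 + ∑ i, ev n (q i) • ty (Tl i.1) i.2 := by
  simp only [Pi.add_apply, map_add, add_smul, sum_add_distrib]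

lemma caseab_L_add (Tl : Fin k → El n k) (z z' : Fin k → ℤ) (b : ZMod 2) :
    caseab_L Tl (z + z') b = caseab_L Tl z b + caseab_L Tl z' b := by
  simp only [caseab_L, Pi.add_apply, add_smul, sum_add_distrib]

lemma caseab_L_smul (Tl : Fin k → El n k) (c : ℤ) (z : Fin k → ℤ) (b : ZMod 2) :
    caseab_L Tl (c • z) b = c • caseab_L Tl z b := by
  simp only [caseab_L, Pi.smul_apply, smul_eq_mul, mul_smul, smul_sum]

lemma caseab_L_single (Tl : Fin k → El n k) (i : Fin k) (b : ZMod 2) :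
    caseab_L Tl (Pi.single i 1) b = ty (Tl i) b := by
  rw [caseab_L, Finset.sum_eq_single i]
  · simp
  · intro j _ hj
    simp [hj]
  · simp

lemma caseab_ty_zero (h : El n k) : ty h 0 = uu h.w := by
  rw [ty, Dh.mk_zero, aw_one]

/-- The action on the toggle part. -/
def caseab_U (g : Dh) : (Fin k → Lm n) →+ (Fin k → Lm n) where
  toFun f := fun i => act g (f i)
  map_zero' := by ext1 o; simp
  map_add' w w' := by ext1 o; simp

lemma caseab_uu_aw (g : Dh) (w : Wm n k) : uu (aw g w) = caseab_U g (uu w) := rfl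

lemma caseab_U_smul (g : Dh) (c : OO n) (f : Fin k → Lm n) :
    caseab_U g (c • f) = bar g.b c • caseab_U g f := by
  ext1 i
  exact act_smul g c (f i)

lemma caseab_U_ty (g : Dh) (h : El n k) (b : ZMod 2) :
    caseab_U g (ty h b) = tt n g.a • ty h (g.b + b) := by
  have e : g * ⟨0, b⟩ = ⟨g.a, g.b + b⟩ := by ext1 <;> simp
  rw [ty, ← caseab_uu_aw, ← aw_mul, ty, ← map_smul, ← aw_mk, e]

lemma caseab_U_L (Tl : Fin k → El n k) (g : Dh) (z : Fin k → ℤ) (b : ZMod 2) :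
    caseab_U g (caseab_L Tl z b) = tt n g.a • caseab_L Tl z (g.b + b) := by
  simp only [caseab_L, map_sum, map_zsmul, caseab_U_ty, smul_sum]
  exact sum_congr rfl fun j _ => smul_comm _ _ _

lemma caseab_mul_u (h h' : El n k) :
    uu (h * h').w = uu h.w + sgz h.s • caseab_U h.g (uu h'.w) := by
  rw [mul_w, map_add, uu_iot, caseab_uu_aw]

lemma caseab_sw_u (Tl : Fin k → El n k) {J : Finset (Fin k)} {y : Fin k → ℤ}
    (hy : y ∈ sset Tl J) : uu (sw Tl J y).w = caseab_L Tl y 0 := by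
  have h := (mem_asg.1 (mem_filter.1 hy).1).2
  simp only [sw, map_sum, map_zsmul, caseab_L, caseab_ty_zero]
  exact sum_subset (subset_univ _) fun j _ hj => by rw [h j hj, zero_smul]

lemma caseab_sset {Tl : Fin k → El n k} {J : Finset (Fin k)} {y : Fin k → ℤ}
    (hy : y ∈ sset Tl J) : (∀ j, |y j| ≤ 2) ∧ ∀ j ∉ J, y j = 0 := by
  have h := mem_asg.1 (mem_filter.1 hy).1
  refine ⟨fun j => ?_, h.2⟩
  by_cases hj : j ∈ J
  · exact_mod_cast mem_bx.1 (h.1 j hj)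
  · rw [h.2 j hj]
    norm_num

lemma caseab_sgz (s : ZMod 2) : sgz s = 1 ∨ sgz s = -1 := by revert s; decide

lemma caseab_abs (s : ZMod 2) (z : ℤ) : |sgz s * z| = |z| := by
  rcases caseab_sgz s with h | h <;> simp [h]

lemma caseab_sgz_inj (s : ZMod 2) {z z' : ℤ} (h : sgz s * z = sgz s * z') : z = z' := by
  rcases caseab_sgz s with h1 | h1 <;> rw [h1] at h <;> omega

lemma caseab_mem {Tl : Fin k → El n k} {i : Fin k} : i ∈ Nn Tl ↔ (Tl i).g = 1 := by simp [Nn]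

/-- A site word followed by a letter. -/
def caseab_hb (Tl : Fin k → El n k) (ω : (Fin k → ℤ) × Fin k) : El n k :=
  sw Tl (Nn Tl) ω.1 * Tl ω.2

/-- Its digits. -/
def caseab_z (Tl : Fin k → El n k) (ω : (Fin k → ℤ) × Fin k) : Fin k → ℤ :=
  ω.1 + sgz (sw Tl (Nn Tl) ω.1).s • Pi.single ω.2 1

lemma caseab_g (Tl : Fin k → El n k) (ω : (Fin k → ℤ) × Fin k) :
    (caseab_hb Tl ω).g = (Tl ω.2).g := one_mul _

lemma caseab_u {Tl : Fin k → El n k} {ω : (Fin k → ℤ) × Fin k} (h : ω.1 ∈ sset Tl (Nn Tl)) :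
    uu (caseab_hb Tl ω).w = caseab_L Tl (caseab_z Tl ω) 0 := by
  rw [caseab_hb, caseab_mul_u, caseab_sw_u Tl h, caseab_z, caseab_L_add, caseab_L_smul,
    caseab_L_single, ← caseab_ty_zero, caseab_U_ty]
  simp [sw]

lemma caseab_bd {Tl : Fin k → El n k} {ω : (Fin k → ℤ) × Fin k} (h : ω.1 ∈ sset Tl (Nn Tl))
    (h2 : ω.2 ∉ Nn Tl) (j : Fin k) : |caseab_z Tl ω j| ≤ 2 := by
  by_cases hj : j = ω.2
  · subst hj
    simp only [caseab_z, Pi.add_apply, (caseab_sset h).2 _ h2, Pi.smul_apply, Pi.single_eq_same,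
      zero_add, smul_eq_mul, caseab_abs]
    norm_num
  · simpa [caseab_z, hj] using (caseab_sset h).1 j

lemma caseab_inj {Tl : Fin k → El n k} {ω ω' : (Fin k → ℤ) × Fin k}
    (h : ω.1 ∈ sset Tl (Nn Tl)) (h2 : ω.2 ∉ Nn Tl) (h' : ω'.1 ∈ sset Tl (Nn Tl))
    (hne : ω ≠ ω') : ∃ j, caseab_z Tl ω j ≠ caseab_z Tl ω' j := by
  by_contra hc
  push Not at hc
  have e2 : ω.2 = ω'.2 := by
    by_contra h3
    have := hc ω.2
    simp only [caseab_z, Pi.add_apply, (caseab_sset h).2 _ h2, (caseab_sset h').2 _ h2,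
      Pi.smul_apply, Pi.single_eq_same, Pi.single_eq_of_ne h3, smul_eq_mul] at this
    rcases caseab_sgz (sw Tl (Nn Tl) ω.1).s with h4 | h4 <;> rw [h4] at this <;> omega
  refine hne (Prod.ext (funext fun j => ?_) e2)
  by_cases hj : j = ω.2
  · rw [hj, (caseab_sset h).2 _ h2, (caseab_sset h').2 _ h2]
  · simpa [caseab_z, ← e2, hj] using hc j

lemma caseab_ball {S : Finset (El n k)} {Tl : Fin k → El n k} (hT : ∀ i, Tl i ∈ ball S 1)
    {ω : (Fin k → ℤ) × Fin k} (h : ω.1 ∈ sset Tl (Nn Tl)) :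
    caseab_hb Tl ω ∈ ball S (szJ (Nn Tl) ω.1 + 1) :=
  mul_mem_ball (sw_mem_ball Tl _ (fun i hi => ⟨hT i, caseab_mem.1 hi⟩) h) (hT _)

lemma caseab_sum (Tl : Fin k → El n k) (M : Finset (Fin k)) {x : ℝ} (hx : 0 ≤ x) (hx1 : x ≤ 1) :
    (M.card : ℝ) * x * AA 2 x (Nn Tl).card ≤
      ∑ ω ∈ sset Tl (Nn Tl) ×ˢ M, x ^ (szJ (Nn Tl) ω.1 + 1) := by
  rw [sum_product]
  simp only [sum_const, nsmul_eq_mul, pow_succ, ← mul_sum, ← sum_mul]
  rw [mul_assoc, mul_comm x]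
  gcongr
  exact sum_sset_ge Tl _ hx hx1

theorem caseab_pos {S : Finset (El n k)} {e x : ℝ} (he : IsRate S e) (hx : 0 < x) (hx1 : x ≤ 1)
    (hxe : x * e < 1) (hk : k + 4 ≤ n) (Tl : Fin k → El n k) (hT : ∀ i, Tl i ∈ ball S 1)
    (hψ : LinearIndependent (ZMod 2) (fun i => psi (Tl i))) (M : Finset (Fin k))
    (hM : ∀ i ∈ M, (Tl i).g.b = 0 ∧ 0 < (Tl i).g.a) :
    (M.card : ℝ) * x * AA 2 x (Nn Tl).card ≤ 1 := by
  have hs : ∀ ω ∈ sset Tl (Nn Tl) ×ˢ M, ω.1 ∈ sset Tl (Nn Tl) ∧ ω.2 ∉ Nn Tl ∧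
      (Tl ω.2).g.b = 0 ∧ 0 < (Tl ω.2).g.a := fun ω hω => by
    obtain ⟨h1, h2⟩ := mem_product.1 hω
    refine ⟨h1, fun h => ?_, hM _ h2⟩
    have := (hM _ h2).2
    rw [caseab_mem.1 h] at this
    exact lt_irrefl _ this
  refine (caseab_sum Tl M hx.le hx1).trans (block_lb he hx hxe _ (caseab_hb Tl) _
    (SepW.sep (sep_of_trace (fun i : Fin k × ZMod 2 => ty (Tl i.1) i.2) ⊥ (fun _ => True)
    (fun c _ h => ty_indep Tl hψ c h) _ _ (fun ω => caseab_mo (caseab_z Tl ω) 0 0)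
    (fun _ _ _ h => absurd trivial h) (fun ω hω => ?_) (fun ω hω i a => ?_) {0}
    (by rw [card_singleton]; omega) (fun ω _ i a h => ?_) (fun ω => (Tl ω.2).g.a)
    (fun ω hω => ?_) (Or.inl fun ω hω => (hs ω hω).2.2.2) (fun _ => Set.Ioi 0)
    (fun ω hω => (hs ω hω).2.2.2) (fun _ _ ω hω t ht => add_pos ht (hs ω hω).2.2.2)
    fun ω hω ω' hω' hne => ?_)) fun ω hω => caseab_ball hT (hs ω hω).1)
  · rw [caseab_ev, caseab_u (hs ω hω).1, tt_zero, one_smul, sub_self]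
    exact Submodule.zero_mem _
  · rw [caseab_coeff]
    split_ifs
    · exact_mod_cast caseab_bd (hs ω hω).1 (hs ω hω).2.1 _
    · norm_num
  · rw [caseab_coeff] at h
    exact mem_singleton.2 (by_contra fun h' => h (if_neg fun h2 => h' h2.2))
  · rw [caseab_g]
    exact Dh.ext rfl (hs ω hω).2.2.1
  · obtain ⟨j, hj⟩ := caseab_inj (hs ω hω).1 (hs ω hω).2.1 (hs ω' hω').1 hne
    refine ⟨(j, 0), 0, by simpa only [caseab_coeff, and_self, if_true] using hj,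
      fun ω'' _ t ht => ?_⟩
    have : 0 < t := ht.elim id id
    rw [caseab_coeff, if_neg fun h => by omega]

theorem caseA {S : Finset (El n k)} {e x : ℝ} (he : IsRate S e) (hx : 0 < x) (hx1 : x ≤ 1)
    (hxe : x * e < 1) (hk : k + 4 ≤ n) (Tl : Fin k → El n k) (hT : ∀ i, Tl i ∈ ball S 1)
    (hψ : LinearIndependent (ZMod 2) (fun i => psi (Tl i)))
    (hnum : 1 < ((univ.filter (fun i => (Tl i).g.b = 0 ∧ (Tl i).g ≠ 1)).card : ℝ) * x *
      AA 2 x (Nn Tl).card) : False := by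
  let Tl' : Fin k → El n k := fun i => if (Tl i).g.a < 0 then (Tl i)⁻¹ else Tl i
  have h1 : (fun i => psi (Tl' i)) = fun i => psi (Tl i) := by
    funext i
    simp only [Tl']
    split_ifs
    · exact psi_inv _
    · rfl
  have h2 : Nn Tl' = Nn Tl := by
    ext i
    simp only [caseab_mem, Tl']
    split_ifs
    · rw [inv_g, inv_eq_one]
    · rfl
  refine hnum.not_ge (h2 ▸ caseab_pos he hx hx1 hxe hk Tl' (fun i => ?_) (h1 ▸ hψ) _
    fun i hi => ?_)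
  · simp only [Tl']
    split_ifs
    · exact inv_mem_ball (hT i)
    · exact hT i
  · obtain ⟨h3, h4⟩ := (mem_filter.1 hi).2
    simp only [Tl']
    split_ifs with h
    · simpa [h3] using h
    · exact ⟨h3, lt_of_le_of_ne (not_lt.1 h) fun h5 => h4 (Dh.ext h5.symm h3)⟩

theorem caseB {S : Finset (El n k)} {e x : ℝ} (he : IsRate S e) (hx : 0 < x) (hx1 : x ≤ 1)
    (hxe : x * e < 1) (hk : k + 4 ≤ n) (Tl : Fin k → El n k) (hT : ∀ i, Tl i ∈ ball S 1)
    (hψ : LinearIndependent (ZMod 2) (fun i => psi (Tl i))) (θ : ℤ)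
    (hnum : 1 < ((univ.filter (fun i => (Tl i).g.b = 1 ∧ θ < (Tl i).g.a)).card : ℝ) *
      ((univ.filter (fun i => (Tl i).g.b = 1 ∧ (Tl i).g.a ≤ θ)).card : ℝ) * x ^ 2 *
      AA 2 x (Nn Tl).card ^ 2) : False := by
  set M := univ.filter (fun i => (Tl i).g.b = 1 ∧ θ < (Tl i).g.a)
  set M' := univ.filter (fun i => (Tl i).g.b = 1 ∧ (Tl i).g.a ≤ θ)
  have hn : ∀ i, (Tl i).g.b = 1 → i ∉ Nn Tl := fun i h h' => by
    rw [caseab_mem.1 h'] at h
    exact zero_ne_one h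
  have hs : ∀ ω ∈ (sset Tl (Nn Tl) ×ˢ M) ×ˢ (sset Tl (Nn Tl) ×ˢ M'),
      (ω.1.1 ∈ sset Tl (Nn Tl) ∧ (Tl ω.1.2).g.b = 1 ∧ θ < (Tl ω.1.2).g.a) ∧
        ω.2.1 ∈ sset Tl (Nn Tl) ∧ (Tl ω.2.2).g.b = 1 ∧ (Tl ω.2.2).g.a ≤ θ := fun ω hω => by
    obtain ⟨h1, h2⟩ := mem_product.1 hω
    exact ⟨⟨(mem_product.1 h1).1, (mem_filter.1 (mem_product.1 h1).2).2⟩,
      (mem_product.1 h2).1, (mem_filter.1 (mem_product.1 h2).2).2⟩
  have hco : ∀ (ω : ((Fin k → ℤ) × Fin k) × (Fin k → ℤ) × Fin k) i a,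
      ((caseab_mo (caseab_z Tl ω.1) 0 0 + caseab_mo (sgz (caseab_hb Tl ω.1).s • caseab_z Tl ω.2) 1
        (Tl ω.1.2).g.a) i).coeff a = if i.2 = 0 then if a = 0 then caseab_z Tl ω.1 i.1 else 0
          else if a = (Tl ω.1.2).g.a then sgz (caseab_hb Tl ω.1).s * caseab_z Tl ω.2 i.1
            else 0 := fun ω i a => by
    rw [caseab_coeff_add, caseab_coeff, caseab_coeff]
    rcases z2_cases i.2 with h | h <;> simp [h]
  have key := block_lb he hx hxe ((sset Tl (Nn Tl) ×ˢ M) ×ˢ (sset Tl (Nn Tl) ×ˢ M'))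
    (fun ω => caseab_hb Tl ω.1 * caseab_hb Tl ω.2)
    (fun ω => szJ (Nn Tl) ω.1.1 + 1 + (szJ (Nn Tl) ω.2.1 + 1))
    (SepW.sep (sep_of_trace (fun i : Fin k × ZMod 2 => ty (Tl i.1) i.2) ⊥ (fun _ => True)
    (fun c _ h => ty_indep Tl hψ c h) _ _
    (fun ω => caseab_mo (caseab_z Tl ω.1) 0 0 +
      caseab_mo (sgz (caseab_hb Tl ω.1).s • caseab_z Tl ω.2) 1 (Tl ω.1.2).g.a)
    (fun _ _ _ h => absurd trivial h) (fun ω hω => ?_) (fun ω hω i a => ?_)
    (insert 0 (univ.image fun i => (Tl i).g.a)) ?_ (fun ω _ i a h => ?_)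
    (fun ω => (Tl ω.1.2).g.a - (Tl ω.2.2).g.a) (fun ω hω => ?_) (Or.inl fun ω hω => ?_)
    (fun ω => Set.Ici ((Tl ω.1.2).g.a - θ))
    (fun ω hω => sub_le_sub_left (hs ω hω).2.2.2 _) (fun _ _ ω hω t ht => ?_)
    fun ω hω ω' hω' hne => ?_))
    fun ω hω => mul_mem_ball (caseab_ball hT (hs ω hω).1.1) (caseab_ball hT (hs ω hω).2.1)
  · simp only [pow_add x (_ + 1)] at key
    rw [sum_product, ← sum_mul_sum
      (f := fun ω : (Fin k → ℤ) × Fin k => x ^ (szJ (Nn Tl) ω.1 + 1))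
      (g := fun ω : (Fin k → ℤ) × Fin k => x ^ (szJ (Nn Tl) ω.1 + 1))] at key
    have hA := (one_le_AA 2 hx.le (Nn Tl).card).trans' zero_le_one
    have := mul_le_mul (caseab_sum Tl M hx.le hx1) (caseab_sum Tl M' hx.le hx1) (by positivity)
      (sum_nonneg fun _ _ => by positivity)
    exact hnum.not_ge (le_of_eq_of_le (by ring) (this.trans key))
  · obtain ⟨⟨h1, h2, -⟩, h3, -, -⟩ := hs ω hω
    rw [caseab_ev_add, caseab_ev, caseab_ev, caseab_mul_u, caseab_u h1, caseab_u h3, caseab_U_L,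
      caseab_g, h2, tt_zero, one_smul, add_zero, caseab_L_smul, smul_comm, sub_self]
    exact Submodule.zero_mem _
  · obtain ⟨⟨h1, h2, -⟩, h3, h4, -⟩ := hs ω hω
    rw [hco]
    split_ifs
    · exact_mod_cast caseab_bd h1 (hn _ h2) _
    · norm_num
    · rw [caseab_abs]
      exact_mod_cast caseab_bd h3 (hn _ h4) _
    · norm_num
  · have h1 := card_image_le (s := (univ : Finset (Fin k))) (f := fun i => (Tl i).g.a)
    have h2 := card_insert_le 0 (univ.image fun i => (Tl i).g.a)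
    rw [card_univ, Fintype.card_fin] at h1
    omega
  · rw [hco] at h
    split_ifs at h with h1 h2 h3
    · rw [h2]
      exact mem_insert_self _ _
    · exact absurd rfl h
    · rw [h3]
      exact mem_insert_of_mem (mem_image_of_mem _ (mem_univ _))
    · exact absurd rfl h
  · obtain ⟨⟨-, h2, -⟩, -, h4, -⟩ := hs ω hω
    rw [mul_g, caseab_g, caseab_g]
    refine Dh.ext ?_ ?_
    · simp [h2, sub_eq_add_neg]
    · rw [Dh.mul_b, h2, h4, z2_one_add_one]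
  · obtain ⟨⟨-, -, h1⟩, -, -, h2⟩ := hs ω hω
    omega
  · obtain ⟨⟨-, -, h1⟩, -, -, h2⟩ := hs ω hω
    exact le_add_of_le_of_nonneg ht (sub_nonneg.2 (h2.trans h1.le))
  · obtain ⟨⟨h1, h2, h3⟩, h4, h5, -⟩ := hs ω hω
    obtain ⟨⟨g1, -, g3⟩, g4, -, -⟩ := hs ω' hω'
    by_cases e1 : ω.1 = ω'.1
    · obtain ⟨j, hj⟩ := caseab_inj h4 (hn _ h5) g4 (fun h => hne (Prod.ext e1 h))
      refine ⟨(j, 1), (Tl ω.1.2).g.a, ?_, fun ω'' h t ht => ?_⟩
      · rw [hco, hco]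
        simp only [one_ne_zero, if_false, ← e1, if_true]
        exact fun h => hj (caseab_sgz_inj _ h)
      · have := (hs ω'' h).1.2.2
        rw [← e1, or_self, Set.mem_Ici] at ht
        rw [hco, if_neg one_ne_zero, if_neg (by omega)]
    · obtain ⟨j, hj⟩ := caseab_inj h1 (hn _ h2) g1 e1
      refine ⟨(j, 0), 0, by simpa only [hco, if_true] using hj, fun ω'' _ t ht => ?_⟩
      simp only [Set.mem_Ici] at ht
      rw [hco, if_pos rfl, if_neg (by omega)]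

end Pool.Agent.MP_646035_al.PC

namespace Pool.Agent.MP_646035_al.PC

open Finset PT

variable {n k : ℕ} {Q : Type} [AddCommGroup Q] [DecidableEq Q] {e : Fin 2 → Q}

lemma casec_inv_u (h : El n k) : uu h⁻¹.w = -(sgz h.s • caseab_U h.g⁻¹ (ty h 0)) := by
  rw [inv_w, map_neg, uu_iot, caseab_uu_aw, caseab_ty_zero]

lemma casec_ite {P : Prop} [Decidable P] {a b : ℤ} (ha : |a| ≤ 2) (hb : |b| ≤ 2) :
    |if P then a else b| ≤ 2 := by
  split_ifs <;> assumption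

lemma casec_asg {ι : Type} [DecidableEq ι] {J : Finset ι} {y : ι → ℤ} (hy : y ∈ asg 0 J (bx 2))
    (p : ι) : |y p| ≤ 2 ∧ (y p ≠ 0 → p ∈ J) := by
  have h := mem_asg.1 hy
  by_cases hp : p ∈ J
  · exact ⟨by exact_mod_cast mem_bx.1 (h.1 p hp), fun _ => hp⟩
  · rw [h.2 p hp]
    simp

lemma casec_gadget {S : Finset (El n k)} (Tl : Fin k → El n k) (hT : ∀ i, Tl i ∈ ball S 1)
    (a : ℤ) (I0 : Finset (Fin k)) (hI : I0.card ≤ 2) {x : ℝ} (hx : 0 ≤ x) :
    ∃ (α : Type) (Γ : Finset α) (G : α → El n k) (ℓ : α → ℕ) (d : α → ZMod 2 → Fin k → ℤ),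
      (∀ γ ∈ Γ, G γ ∈ ball S (ℓ γ) ∧ (G γ).g = ⟨a, 1⟩ ∧
        uu (G γ).w = caseab_L Tl (d γ 0) 0 + tt n a • caseab_L Tl (d γ 1) 1 ∧
        ∀ b j, |d γ b j| ≤ 2 ∧ (d γ b j ≠ 0 → j ∉ Nn Tl ∧ j ∉ I0)) ∧
      (∀ γ ∈ Γ, ∀ γ' ∈ Γ, d γ = d γ' → γ = γ') ∧
      GW x (2 * (univ.filter (fun i => (Tl i).g = ⟨a, 1⟩ ∧ (Tl i).s = 0)).card - 4)
        (2 * (univ.filter (fun i => (Tl i).g = ⟨a, 1⟩ ∧ (Tl i).s = 1)).card - 4) ≤
          ∑ γ ∈ Γ, x ^ ℓ γ := by
  obtain ⟨F, hF⟩ : ∃ F : ZMod 2 → Finset (Fin k × ZMod 2), F = fun s =>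
      (univ.filter (fun i => (Tl i).g = ⟨a, 1⟩ ∧ (Tl i).s = s) \ I0) ×ˢ univ := ⟨_, rfl⟩
  have mF : ∀ s, ∀ p ∈ F s, (Tl p.1).g = ⟨a, 1⟩ ∧ (Tl p.1).s = s ∧ p.1 ∉ I0 := fun s p hp => by
    simpa [hF, and_assoc] using hp
  have cF : ∀ s, 2 * (univ.filter (fun i => (Tl i).g = ⟨a, 1⟩ ∧ (Tl i).s = s)).card - 4 ≤
      (F s).card := fun s => by
    have := le_card_sdiff I0 (univ.filter (fun i => (Tl i).g = ⟨a, 1⟩ ∧ (Tl i).s = s))
    simp only [hF, card_product, card_univ, ZMod.card]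
    omega
  have hi : (⟨a, 1⟩ : Dh)⁻¹ = ⟨a, 1⟩ := by ext1 <;> simp
  obtain ⟨Z, hZ⟩ : ∃ Z : Fin k × ZMod 2 → El n k,
      Z = fun p => if p.2 = 0 then Tl p.1 else (Tl p.1)⁻¹ := ⟨_, rfl⟩
  have mZ : ∀ s, ∀ p ∈ F s, Z p ∈ ball S 1 ∧ (Z p).g = ⟨a, 1⟩ ∧ (Z p).s = s := fun s p hp => by
    obtain ⟨h1, h2, -⟩ := mF s p hp
    simp only [hZ]
    split_ifs
    · exact ⟨hT _, h1, h2⟩
    · exact ⟨inv_mem_ball (hT _), by rw [inv_g, h1, hi], h2⟩
  obtain ⟨A, hA⟩ : ∃ A : ZMod 2 → ℤ → Finset (Fin k × ZMod 2 → ℤ), A = fun s c =>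
      (asg 0 (F s) (bx 2)).filter (fun y => ∑ p ∈ F s, y p = c) := ⟨_, rfl⟩
  have mA : ∀ s c, ∀ y ∈ A s c, y ∈ asg 0 (F s) (bx 2) ∧ ∑ p ∈ F s, y p = c := fun s c y hy => by
    simpa only [hA, mem_filter] using hy
  have mG : ∀ γ ∈ A 0 1 ×ˢ A 1 0 ∪ A 0 0 ×ˢ A 1 1,
      γ.1 ∈ asg 0 (F 0) (bx 2) ∧ γ.2 ∈ asg 0 (F 1) (bx 2) := fun γ hγ => by
    rcases mem_union.1 hγ with h | h <;>
      exact ⟨(mA _ _ _ (mem_product.1 h).1).1, (mA _ _ _ (mem_product.1 h).2).1⟩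
  have dj : ∀ γ ∈ A 0 1 ×ˢ A 1 0 ∪ A 0 0 ×ˢ A 1 1, ∀ p, γ.1 p = 0 ∨ γ.2 p = 0 := fun γ hγ p => by
    by_contra hc
    push Not at hc
    have h1 := (mF _ _ ((casec_asg (mG γ hγ).1 p).2 hc.1)).2.1
    have h2 := (mF _ _ ((casec_asg (mG γ hγ).2 p).2 hc.2)).2.1
    exact zero_ne_one (h1.symm.trans h2)
  have su : ∀ γ ∈ A 0 1 ×ˢ A 1 0 ∪ A 0 0 ×ˢ A 1 1, ∀ p, |γ.1 p + γ.2 p| ≤ 2 ∧
      (γ.1 p + γ.2 p ≠ 0 → (Tl p.1).g = ⟨a, 1⟩ ∧ p.1 ∉ I0) := fun γ hγ p => by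
    rcases dj γ hγ p with h | h
    · rw [h, zero_add]
      have := casec_asg (mG γ hγ).2 p
      exact ⟨this.1, fun h2 => ⟨(mF _ _ (this.2 h2)).1, (mF _ _ (this.2 h2)).2.2⟩⟩
    · rw [h, add_zero]
      have := casec_asg (mG γ hγ).1 p
      exact ⟨this.1, fun h2 => ⟨(mF _ _ (this.2 h2)).1, (mF _ _ (this.2 h2)).2.2⟩⟩
  refine ⟨(Fin k × ZMod 2 → ℤ) × (Fin k × ZMod 2 → ℤ), A 0 1 ×ˢ A 1 0 ∪ A 0 0 ×ˢ A 1 1,
    fun γ => ⟨∑ p ∈ F 0, γ.1 p • (Z p).w + ∑ p ∈ F 1, γ.2 p • (Z p).w, ⟨a, 1⟩,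
      ((∑ p ∈ F 1, γ.2 p : ℤ) : ZMod 2)⟩, fun γ => szJ (F 0) γ.1 + szJ (F 1) γ.2,
    fun γ b j => sgz (b * ((Tl j).s + 1)) * (γ.1 (j, b) + γ.2 (j, b)),
    fun γ hγ => ⟨?_, rfl, ?_, fun b j => ⟨?_, fun h => ?_⟩⟩, fun γ hγ γ' hγ' h => ?_, ?_⟩
  · rcases mem_union.1 hγ with h | h
    · obtain ⟨h1, h2⟩ := mem_product.1 h
      have := mul_mem_ball (alt0 Z (F 1) _ _ (mZ 1) γ.2 (mA _ _ _ h2).2)
        (alt1 Z (F 0) _ _ (mZ 0) γ.1 (mA _ _ _ h1).2)
      rw [mm_mul, add_comm (szJ _ _), add_comm (∑ i ∈ F 1, _)] at this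
      simpa only [(mA _ _ _ h2).2, Int.cast_zero] using this
    · obtain ⟨h1, h2⟩ := mem_product.1 h
      have := mul_mem_ball (alt0 Z (F 0) _ _ (mZ 0) γ.1 (mA _ _ _ h1).2)
        (alt1 Z (F 1) _ _ (mZ 1) γ.2 (mA _ _ _ h2).2)
      rw [mm_mul] at this
      simpa only [(mA _ _ _ h2).2, Int.cast_one] using this
  · have e : ∀ s, ∀ y ∈ asg 0 (F s) (bx 2), ∑ p ∈ F s, y p • (Z p).w = ∑ p, y p • (Z p).w :=
      fun s y hy => sum_subset (subset_univ _) fun p _ hp => by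
        rw [(mem_asg.1 hy).2 p hp, zero_smul]
    simp only
    rw [e _ _ (mG γ hγ).1, e _ _ (mG γ hγ).2, ← sum_add_distrib, map_sum, Fintype.sum_prod_type,
      caseab_L, caseab_L, smul_sum, ← sum_add_distrib]
    refine sum_congr rfl fun j _ => ?_
    rw [show ∀ f : ZMod 2 → Fin k → Lm n, ∑ b, f b = f 0 + f 1 from fun f => Fin.sum_univ_two f]
    simp only [← add_smul, map_zsmul, hZ, if_true, one_ne_zero, if_false, zero_mul, sgz_zero,
      one_mul, caseab_ty_zero]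
    congr 1
    by_cases h : γ.1 (j, 1) + γ.2 (j, 1) = 0
    · simp [h]
    · rw [casec_inv_u, ((su γ hγ _).2 h).1, hi, caseab_U_ty, sgz_add, sgz_one, add_zero,
        smul_comm (tt n a), mul_comm _ (_ + _), mul_smul, mul_neg_one, neg_smul]
  · rw [caseab_abs]
    exact (su γ hγ _).1
  · have h2 := (su γ hγ (j, b)).2 (right_ne_zero_of_mul h)
    refine ⟨fun h3 => ?_, h2.2⟩
    exact one_ne_zero (congrArg Dh.b (h2.1.symm.trans (caseab_mem.1 h3)))
  · have e : ∀ p, γ.1 p + γ.2 p = γ'.1 p + γ'.2 p := fun p =>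
      caseab_sgz_inj _ (congrFun (congrFun h p.2) p.1)
    have z : ∀ s, ∀ y ∈ asg 0 (F s) (bx 2), ∀ p, (Tl p.1).s ≠ s → y p = 0 := fun s y hy p hp =>
      by_contra fun h0 => hp (mF _ _ ((casec_asg hy p).2 h0)).2.1
    refine Prod.ext (funext fun p => ?_) (funext fun p => ?_) <;>
      have := e p <;> rcases z2_cases (Tl p.1).s with h0 | h0
    · rwa [z 1 _ (mG γ hγ).2 p (h0 ▸ zero_ne_one), z 1 _ (mG γ' hγ').2 p (h0 ▸ zero_ne_one),
        add_zero, add_zero] at this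
    · rw [z 0 _ (mG γ hγ).1 p (h0 ▸ one_ne_zero), z 0 _ (mG γ' hγ').1 p (h0 ▸ one_ne_zero)]
    · rw [z 1 _ (mG γ hγ).2 p (h0 ▸ zero_ne_one), z 1 _ (mG γ' hγ').2 p (h0 ▸ zero_ne_one)]
    · rwa [z 0 _ (mG γ hγ).1 p (h0 ▸ one_ne_zero), z 0 _ (mG γ' hγ').1 p (h0 ▸ one_ne_zero),
        zero_add, zero_add] at this
  · refine (GW_mono hx (cF 0) (cF 1)).trans (le_of_eq ?_)
    rw [sum_union (disjoint_left.2 fun γ h1 h2 => one_ne_zero
      ((mA _ _ _ (mem_product.1 h1).1).2.symm.trans (mA _ _ _ (mem_product.1 h2).1).2))]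
    simp only [pow_add, sum_product, ← sum_mul_sum, hA, sum_asg_WW, GW]

lemma casec_half {S : Finset (El n k)} (Tl : Fin k → El n k) (hT : ∀ i, Tl i ∈ ball S 1)
    (a : ℤ) (I0 : Finset (Fin k)) (hI : I0.card ≤ 2) {x : ℝ} (hx : 0 ≤ x) (hx1 : x ≤ 1) :
    ∃ (α : Type) (s : Finset α) (H : α → El n k) (ℓ : α → ℕ) (z : α → ZMod 2 → Fin k → ℤ),
      (∀ ω ∈ s, H ω ∈ ball S (ℓ ω) ∧ (H ω).g = ⟨a, 1⟩ ∧
        uu (H ω).w = caseab_L Tl (z ω 0) 0 + tt n a • caseab_L Tl (z ω 1) 1 ∧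
        ∀ b j, |z ω b j| ≤ 2 ∧ (j ∈ I0 → z ω b j = 0)) ∧
      (∀ ω ∈ s, ∀ ω' ∈ s, z ω = z ω' → ω = ω') ∧
      GW x (2 * (univ.filter (fun i => (Tl i).g = ⟨a, 1⟩ ∧ (Tl i).s = 0)).card - 4)
        (2 * (univ.filter (fun i => (Tl i).g = ⟨a, 1⟩ ∧ (Tl i).s = 1)).card - 4) *
          AA 2 x ((Nn Tl).card - 2) ^ 2 ≤ ∑ ω ∈ s, x ^ ℓ ω := by
  obtain ⟨α, Γ, G, ℓ, d, hG, hd, hΓ⟩ := casec_gadget Tl hT a I0 hI hx
  obtain ⟨J, hJ⟩ : ∃ J, J = Nn Tl \ I0 := ⟨_, rfl⟩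
  have mJ : ∀ i ∈ J, Tl i ∈ ball S 1 ∧ (Tl i).g = 1 := fun i hi =>
    ⟨hT i, caseab_mem.1 (mem_sdiff.1 (hJ ▸ hi)).1⟩
  have ms : ∀ ω ∈ sset Tl J ×ˢ Γ ×ˢ sset Tl J, ω.1 ∈ sset Tl J ∧ ω.2.1 ∈ Γ ∧ ω.2.2 ∈ sset Tl J :=
    fun ω h => by simpa only [mem_product] using h
  have y0 : ∀ y ∈ sset Tl J, ∀ j, j ∉ Nn Tl ∨ j ∈ I0 → y j = 0 := fun y hy j hj =>
    (caseab_sset hy).2 j fun h => by
      rw [hJ, mem_sdiff] at h
      exact hj.elim (fun h2 => h2 h.1) h.2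
  have d0 : ∀ γ ∈ Γ, ∀ b j, j ∈ Nn Tl ∨ j ∈ I0 → d γ b j = 0 := fun γ hγ b j hj =>
    by_contra fun h => hj.elim (((hG γ hγ).2.2.2 b j).2 h).1 (((hG γ hγ).2.2.2 b j).2 h).2
  refine ⟨(Fin k → ℤ) × α × (Fin k → ℤ), sset Tl J ×ˢ Γ ×ˢ sset Tl J,
    fun ω => sw Tl J ω.1 * G ω.2.1 * sw Tl J ω.2.2, fun ω => szJ J ω.1 + ℓ ω.2.1 + szJ J ω.2.2,
    fun ω b => sgz (sw Tl J ω.1).s • d ω.2.1 b +
      if b = 0 then ω.1 else sgz ((sw Tl J ω.1).s + (G ω.2.1).s) • ω.2.2,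
    fun ω hω => ⟨?_, ?_, ?_, fun b j => ⟨?_, fun h => ?_⟩⟩, fun ω hω ω' hω' h => ?_, ?_⟩
  · obtain ⟨h1, h2, h3⟩ := ms ω hω
    exact mul_mem_ball (mul_mem_ball (sw_mem_ball Tl J mJ h1) (hG _ h2).1) (sw_mem_ball Tl J mJ h3)
  · simp only [mul_g, (hG _ (ms ω hω).2.1).2.1, sw, one_mul, mul_one]
  · obtain ⟨h1, h2, h3⟩ := ms ω hω
    have g1 : (sw Tl J ω.1).g = 1 := rfl
    simp only [if_true, one_ne_zero, if_false, caseab_L_add, caseab_L_smul]
    rw [caseab_mul_u, caseab_mul_u, caseab_sw_u Tl h1, caseab_sw_u Tl h3, mul_g, g1, one_mul,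
      (hG _ h2).2.1, caseab_U_L, ← caseab_uu_aw, aw_one, (hG _ h2).2.2.1, mul_s, add_zero]
    simp only [smul_add, smul_comm (tt n a)]
    abel
  · obtain ⟨h1, h2, h3⟩ := ms ω hω
    simp only [Pi.add_apply, Pi.smul_apply, smul_eq_mul]
    by_cases hj : j ∈ Nn Tl
    · rw [d0 _ h2 b j (Or.inl hj), mul_zero, zero_add]
      split_ifs
      · exact (caseab_sset h1).1 j
      · rw [Pi.smul_apply, smul_eq_mul, caseab_abs]
        exact (caseab_sset h3).1 j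
    · have : (if b = 0 then ω.1 else sgz ((sw Tl J ω.1).s + (G ω.2.1).s) • ω.2.2) j = 0 := by
        split_ifs
        · exact y0 _ h1 j (Or.inl hj)
        · rw [Pi.smul_apply, y0 _ h3 j (Or.inl hj), smul_zero]
      rw [this, add_zero, caseab_abs]
      exact ((hG _ h2).2.2.2 b j).1
  · obtain ⟨h1, h2, h3⟩ := ms ω hω
    simp only [Pi.add_apply, Pi.smul_apply, d0 _ h2 b j (Or.inr h), smul_zero, zero_add]
    split_ifs
    · exact y0 _ h1 j (Or.inr h)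
    · rw [Pi.smul_apply, y0 _ h3 j (Or.inr h), smul_zero]
  · obtain ⟨h1, h2, h3⟩ := ms ω hω
    obtain ⟨g1, g2, g3⟩ := ms ω' hω'
    have e0 := fun j => congrFun (congrFun h 0) j
    have e1 := fun j => congrFun (congrFun h 1) j
    simp only [if_true, one_ne_zero, if_false, Pi.add_apply, Pi.smul_apply, smul_eq_mul] at e0 e1
    have k1 : ω.1 = ω'.1 := funext fun j => by
      by_cases hj : j ∈ Nn Tl
      · simpa only [d0 _ h2 0 j (Or.inl hj), d0 _ g2 0 j (Or.inl hj), mul_zero, zero_add]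
          using e0 j
      · rw [y0 _ h1 j (Or.inl hj), y0 _ g1 j (Or.inl hj)]
    have k2 : ω.2.1 = ω'.2.1 := hd _ h2 _ g2 (funext fun b => funext fun j => by
      by_cases hj : j ∈ Nn Tl
      · rw [d0 _ h2 b j (Or.inl hj), d0 _ g2 b j (Or.inl hj)]
      · rcases z2_cases b with rfl | rfl
        · have := e0 j
          rw [← k1] at this
          exact caseab_sgz_inj _ (add_right_cancel this)
        · have := e1 j
          rw [← k1, y0 _ h3 j (Or.inl hj), y0 _ g3 j (Or.inl hj), mul_zero, mul_zero] at this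
          exact caseab_sgz_inj _ (add_right_cancel this))
    refine Prod.ext k1 (Prod.ext k2 (funext fun j => ?_))
    have := e1 j
    rw [← k1, ← k2] at this
    exact caseab_sgz_inj _ (add_left_cancel this)
  · have hc : (Nn Tl).card - 2 ≤ J.card := by
      have := le_card_sdiff I0 (Nn Tl)
      rw [hJ]
      omega
    have h1 := (AA_mono 2 hx hc).trans (sum_sset_ge Tl J hx hx1)
    have h2 := (one_le_AA 2 hx ((Nn Tl).card - 2)).trans' zero_le_one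
    have h3 : 0 ≤ ∑ γ ∈ Γ, x ^ ℓ γ := sum_nonneg fun _ _ => by positivity
    simp only [pow_add, sum_product, mul_assoc, ← mul_sum, ← sum_mul]
    refine (mul_le_mul_of_nonneg_right hΓ (by positivity)).trans ?_
    rw [← mul_assoc, mul_comm _ (∑ γ ∈ Γ, _), mul_assoc, ← _root_.sq]
    gcongr

theorem caseC {S : Finset (El n k)} {e x : ℝ} (he : IsRate S e) (hx : 0 < x) (hx1 : x ≤ 1)
    (hxe : x * e < 1) (hk : k + 4 ≤ n) (Tl : Fin k → El n k) (hT : ∀ i, Tl i ∈ ball S 1)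
    (hψ : LinearIndependent (ZMod 2) (fun i => psi (Tl i)))
    (ϱ : Dh) (hϱ : ϱ.b = 1) (v : El n k) (hv : v ∈ ball S 1) (hv1 : v.g ≠ 1) (hv2 : v.g ≠ ϱ)
    (hnum : 1 < GW x (2 * (univ.filter (fun i => (Tl i).g = ϱ ∧ (Tl i).s = 0)).card - 4)
      (2 * (univ.filter (fun i => (Tl i).g = ϱ ∧ (Tl i).s = 1)).card - 4) * x *
        AA 2 x ((Nn Tl).card - 2) ^ 2) : False := by
  obtain ⟨a, b⟩ := ϱ
  obtain rfl : b = 1 := hϱ
  obtain ⟨I0, hI, hy0⟩ := drop_many (fun i : Fin k × ZMod 2 => ty (Tl i.1) i.2)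
    (ty_indep Tl hψ) 2 ![ty v 0, ty v 1]
  obtain ⟨W0, hW⟩ : ∃ W0, W0 = Submodule.span (OO n) (Set.range ![ty v 0, ty v 1]) := ⟨_, rfl⟩
  have hy : ∀ c : Fin k × ZMod 2 → OO n, (∀ i, ¬ i.1 ∉ I0 → c i = 0) →
      ∑ i, c i • ty (Tl i.1) i.2 ∈ W0 → c = 0 :=
    fun c h1 h2 => hy0 c (fun i hi b => h1 (i, b) (not_not.2 hi)) (hW ▸ h2)
  have w0 : ∀ b, ty v b ∈ W0 := fun b => by
    rw [hW]
    rcases z2_cases b with rfl | rfl
    · exact Submodule.subset_span ⟨0, rfl⟩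
    · exact Submodule.subset_span ⟨1, rfl⟩
  have w1 : ∀ g b, caseab_U g (ty v b) ∈ W0 := fun g b => by
    rw [caseab_U_ty]
    exact W0.smul_mem _ (w0 _)
  have w2 : ∀ g (c : ℤ), c • caseab_U g (uu v.w) ∈ W0 := fun g c =>
    zsmul_mem (caseab_ty_zero v ▸ w1 g 0) c
  have w3 : ∀ g (c : ℤ), c • caseab_U g (uu v⁻¹.w) ∈ W0 := fun g c => by
    rw [casec_inv_u, map_neg, map_zsmul, caseab_U_ty, caseab_U_smul]
    exact zsmul_mem (neg_mem (zsmul_mem (W0.smul_mem _ (w1 _ _)) _)) c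
  obtain ⟨α, s, H, ℓ, z, hH, hz, hs⟩ := casec_half Tl hT a I0 hI hx.le hx1
  replace hnum : 1 < (∑ ω ∈ s, x ^ ℓ ω) * x := by
    rw [mul_right_comm] at hnum
    exact hnum.trans_le (mul_le_mul_of_nonneg_right hs hx.le)
  have hco : ∀ ω i c, ((caseab_mo (z ω 0) 0 0 + caseab_mo (z ω 1) 1 a) i).coeff c =
      if c = (if i.2 = 0 then 0 else a) then z ω i.2 i.1 else 0 := fun ω i c => by
    rw [caseab_coeff_add, caseab_coeff, caseab_coeff]
    rcases z2_cases i.2 with h | h <;> simp [h]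
  obtain ⟨m, hm | hm⟩ : ∃ m, v.g = ⟨m, 0⟩ ∨ v.g = ⟨m, 1⟩ :=
    ⟨v.g.a, (z2_cases v.g.b).imp (Dh.ext rfl) (Dh.ext rfl)⟩
  · have n0 : m ≠ 0 := fun h => hv1 (by rw [hm, h]; rfl)
    have g1 : ∀ ω ∈ s, (H ω * v).g = ⟨a - m, 1⟩ := fun ω h => by
      rw [mul_g, (hH ω h).2.1, hm]; ext1 <;> simp [sub_eq_add_neg]
    have g2 : ∀ ω ∈ s, ∀ ω' ∈ s, (H ω * v * H ω').g = ⟨-m, 0⟩ := fun ω h ω' h' => by
      rw [mul_g, g1 ω h, (hH ω' h').2.1]; ext1 <;> simp [z2_one_add_one]; ring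
    have hc2 : ∀ (ω : α × α) i c, ((caseab_mo (z ω.1 0) 0 0 + caseab_mo (z ω.1 1) 1 a +
        (caseab_mo (sgz (H ω.1 * v).s • z ω.2 0) 1 (a - m) +
          caseab_mo (sgz (H ω.1 * v).s • z ω.2 1) 0 (-m))) i).coeff c =
        if c = (if i.2 = 0 then 0 else a) then z ω.1 i.2 i.1 else
          if c = (if i.2 = 0 then 0 else a) - m then sgz (H ω.1 * v).s * z ω.2 (i.2 + 1) i.1
            else 0 := fun ω i c => by
      rw [caseab_coeff_add, hco, caseab_coeff_add, caseab_coeff, caseab_coeff]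
      rcases z2_cases i.2 with h | h <;>
        simp only [h, if_true, one_ne_zero, zero_ne_one, if_false, false_and, true_and, zero_add,
          add_zero, zero_sub, Pi.smul_apply, smul_eq_mul, z2_one_add_one] <;>
        split_ifs <;> omega
    have := block_lb he hx hxe (s ×ˢ s) (fun ω => H ω.1 * v * H ω.2 * v⁻¹)
      (fun ω => ℓ ω.1 + 1 + ℓ ω.2 + 1) (sep_periodic _ W0 (fun i => i.1 ∉ I0) hy _ _
        (fun ω => caseab_mo (z ω.1 0) 0 0 + caseab_mo (z ω.1 1) 1 a +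
          (caseab_mo (sgz (H ω.1 * v).s • z ω.2 0) 1 (a - m) +
            caseab_mo (sgz (H ω.1 * v).s • z ω.2 1) 0 (-m)))
        (fun ω h i hi => ?_) (fun ω h => ?_) (fun ω h i c => ?_) {0, a, -m, a - m}
        (card_le_four.trans (by omega)) (fun ω _ i c hc => ?_) (-(2 * m)) (by omega)
        (fun ω h => ?_)
        (fun i => {if i.2 = 0 then 0 else a, (if i.2 = 0 then 0 else a) - m})
        (fun ω _ i c hc => ?_) (fun i c hc c' hc' r hr => ?_) fun ω hω ω' hω' e => ?_).sep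
      fun ω h => mul_mem_ball (mul_mem_ball (mul_mem_ball (hH _ (mem_product.1 h).1).1 hv)
        (hH _ (mem_product.1 h).2).1) (inv_mem_ball hv)
    · simp only [sum_product, pow_succ, pow_add, mul_assoc, ← mul_sum, ← sum_mul] at this
      nlinarith
    · obtain ⟨h1, h2⟩ := mem_product.1 h
      ext c
      rw [hc2, ((hH _ h1).2.2.2 _ _).2 (not_not.1 hi), ((hH _ h2).2.2.2 _ _).2 (not_not.1 hi)]
      simp
    · obtain ⟨h1, h2⟩ := mem_product.1 h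
      have e : uu (H ω.1 * v * H ω.2).w = uu (H ω.1).w + sgz (H ω.1).s •
          caseab_U (H ω.1).g (uu v.w) + sgz (H ω.1 * v).s •
            (tt n (a - m) • caseab_L Tl (z ω.2 0) 1 + tt n (-m) • caseab_L Tl (z ω.2 1) 0) := by
        rw [caseab_mul_u, caseab_mul_u, g1 _ h1, (hH _ h2).2.2.1, map_add, caseab_U_smul,
          caseab_U_L, caseab_U_L, bar_tt, smul_smul, ← tt_add]
        simp only [add_zero, z2_one_add_one, sgz_one, neg_mul, one_mul, neg_add_cancel_left,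
          sub_eq_add_neg]
      rw [caseab_mul_u, e, caseab_ev_add, caseab_ev_add, caseab_ev_add, caseab_ev, caseab_ev,
        caseab_ev, caseab_ev, (hH _ h1).2.2.1, tt_zero, one_smul, caseab_L_smul, caseab_L_smul,
        smul_comm (tt n (a - m)), smul_comm (tt n (-m)), ← smul_add]
      convert W0.add_mem (w2 (H ω.1).g (sgz (H ω.1).s))
        (w3 (H ω.1 * v * H ω.2).g (sgz (H ω.1 * v * H ω.2).s)) using 1
      abel
    · obtain ⟨h1, h2⟩ := mem_product.1 h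
      rw [hc2]
      exact casec_ite ((hH _ h1).2.2.2 _ _).1 (casec_ite
        (by rw [caseab_abs]; exact ((hH _ h2).2.2.2 _ _).1) (by norm_num))
    · rw [hc2] at hc
      by_contra h
      simp only [mem_insert, mem_singleton, not_or] at h
      rw [if_neg (by split_ifs <;> omega), if_neg (by split_ifs <;> omega)] at hc
      exact hc rfl
    · rw [mul_g, g2 _ (mem_product.1 h).1 _ (mem_product.1 h).2, inv_g, hm]
      ext1 <;> simp
      ring
    · rw [hc2] at hc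
      by_contra h
      simp only [Set.mem_insert_iff, Set.mem_singleton_iff, not_or] at h
      rw [if_neg h.1, if_neg h.2] at hc
      exact hc rfl
    · have : m * (2 * r) = 0 ∨ m * (2 * r - 1) = 0 ∨ m * (2 * r + 1) = 0 := by
        rcases hc with rfl | rfl <;> rcases hc' with rfl | rfl
        exacts [Or.inl (by linarith), Or.inr (Or.inl (by linarith)), Or.inr (Or.inr (by linarith)),
          Or.inl (by linarith)]
      simp only [mul_eq_zero, n0, false_or] at this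
      omega
    · obtain ⟨h1, h2⟩ := mem_product.1 hω
      obtain ⟨h1', h2'⟩ := mem_product.1 hω'
      have e1 := fun (i : Fin k × ZMod 2) c => congrArg (·.coeff c) (congrFun e i)
      simp only [hc2] at e1
      have k1 : ω.1 = ω'.1 := hz _ h1 _ h1' (funext fun b => funext fun j => by
        simpa only [if_true] using e1 (j, b) (if b = 0 then 0 else a))
      refine Prod.ext k1 (hz _ h2 _ h2' (funext fun b => funext fun j => ?_))
      have := e1 (j, b + 1) ((if b + 1 = 0 then 0 else a) - m)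
      simp only [sub_eq_self, n0, if_false, if_true, add_assoc, z2_one_add_one, add_zero,
        ← k1] at this
      exact caseab_sgz_inj _ this
  · have n0 : a - m ≠ 0 := fun h => hv2 (by rw [hm, sub_eq_zero.1 h])
    have := block_lb he hx hxe s (fun ω => H ω * v) (fun ω => ℓ ω + 1)
      (sep_periodic _ W0 (fun i => i.1 ∉ I0) hy _ _
        (fun ω => caseab_mo (z ω 0) 0 0 + caseab_mo (z ω 1) 1 a)
        (fun ω h i hi => ?_) (fun ω h => ?_) (fun ω h i c => ?_) {0, a}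
        (card_le_two.trans (by omega)) (fun ω _ i c hc => ?_) (a - m) n0 (fun ω h => ?_)
        (fun i => {if i.2 = 0 then 0 else a}) (fun ω _ i c hc => ?_) (fun i c hc c' hc' r hr => ?_)
        fun ω hω ω' hω' e => ?_).sep fun ω h => mul_mem_ball (hH _ h).1 hv
    · simp only [pow_succ, ← sum_mul] at this
      linarith
    · ext c
      rw [hco, ((hH _ h).2.2.2 _ _).2 (not_not.1 hi)]
      simp
    · rw [caseab_mul_u, caseab_ev_add, caseab_ev, caseab_ev, (hH _ h).2.2.1, tt_zero, one_smul,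
        add_sub_cancel_left]
      exact w2 _ _
    · rw [hco]
      exact casec_ite ((hH _ h).2.2.2 _ _).1 (by norm_num)
    · rw [hco] at hc
      by_contra h
      simp only [mem_insert, mem_singleton, not_or] at h
      rw [if_neg (by split_ifs <;> omega)] at hc
      exact hc rfl
    · rw [mul_g, (hH ω h).2.1, hm]
      ext1 <;> simp [z2_one_add_one, sub_eq_add_neg]
    · rw [hco] at hc
      exact by_contra fun h => hc (if_neg h)
    · rw [hc', hc, left_eq_add, mul_eq_zero] at hr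
      exact hr.resolve_right n0
    · refine hz _ hω _ hω' (funext fun b => funext fun j => ?_)
      have := congrArg (·.coeff (if b = 0 then 0 else a)) (congrFun e (j, b))
      simpa only [hco, if_true] using this

end Pool.Agent.MP_646035_al.PC

namespace Pool.Agent.MP_646035_al.PC

open Finset PT

variable {n k : ℕ} {Q : Type} [AddCommGroup Q] [DecidableEq Q] {e : Fin 2 → Q}

/-- The trace of the block with two site words. -/
noncomputable def cased2_tr (Tl : Fin k → El n k) (J : Finset (Fin k)) (a : ℤ) (σ : ZMod 2)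
    (y : (Fin k → ℤ) × (Fin k → ℤ)) (i : Fin k × ZMod 2) : LP :=
  LaurentPolynomial.C (if i.2 = 0 then y.1 i.1 else sgz ((sw Tl J y.1).s + σ) * y.2 i.1) *
    LaurentPolynomial.T (if i.2 = 0 then 0 else a)

lemma cased2_coeff (c a m : ℤ) :
    (LaurentPolynomial.C c * LaurentPolynomial.T a : LP).coeff m = if a = m then c else 0 := by
  rw [← LaurentPolynomial.single_eq_C_mul_T, AddMonoidAlgebra.coeff_single, Finsupp.single_apply]

lemma cased2_out {Tl : Fin k → El n k} {J : Finset (Fin k)} {y : Fin k → ℤ}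
    (hy : y ∈ sset Tl J) {i : Fin k} (hi : i ∉ J) : y i = 0 :=
  (mem_asg.1 (mem_filter.1 hy).1).2 i hi

lemma cased2_bd {Tl : Fin k → El n k} {J : Finset (Fin k)} {y : Fin k → ℤ}
    (hy : y ∈ sset Tl J) (i : Fin k) : |y i| ≤ 2 := by
  by_cases hi : i ∈ J
  · exact_mod_cast mem_bx.1 ((mem_asg.1 (mem_filter.1 hy).1).1 i hi)
  · rw [cased2_out hy hi]; norm_num

lemma cased2_abs (u : ZMod 2) (c : ℤ) : |sgz u * c| = |c| := by
  rcases z2_cases u with rfl | rfl <;> simp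

lemma cased2_sw {Tl : Fin k → El n k} {J : Finset (Fin k)} {y : Fin k → ℤ}
    (hy : y ∈ sset Tl J) (b : ZMod 2) :
    uu (aw ⟨0, b⟩ (sw Tl J y).w) = ∑ i, (y i : OO n) • ty (Tl i) b := by
  have h : (sw Tl J y).w = ∑ i, y i • (Tl i).w :=
    sum_subset (subset_univ J) fun i _ hi => by rw [cased2_out hy hi, zero_smul]
  rw [h, map_sum, map_sum]
  refine sum_congr rfl fun i _ => ?_
  rw [map_zsmul, map_zsmul, Int.cast_smul_eq_zsmul]
  rfl

lemma cased2_w {Tl : Fin k → El n k} {J : Finset (Fin k)} {y : (Fin k → ℤ) × (Fin k → ℤ)}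
    (h1 : y.1 ∈ sset Tl J) (h2 : y.2 ∈ sset Tl J) (r v : El n k) (hrb : r.g.b = 1) :
    uu (sw Tl J y.1 * r * sw Tl J y.2 * v).w -
        ∑ i, ev n (cased2_tr Tl J r.g.a r.s y i) • ty (Tl i.1) i.2 =
      (sgz (sw Tl J y.1).s : OO n) • uu r.w +
        ((sgz ((sw Tl J y.1).s + r.s + (sw Tl J y.2).s) : OO n) * tt n r.g.a) • ty v 1 := by
  have hg : r.g = ⟨r.g.a, 1⟩ := Dh.ext rfl hrb
  have g1 : (sw Tl J y.1).g = 1 := rfl
  have g2 : (sw Tl J y.2).g = 1 := rfl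
  have e0 := cased2_sw h1 0
  have e1 := cased2_sw h2 1
  rw [Dh.mk_zero, aw_one] at e0
  have hsum : ∑ i : Fin k × ZMod 2, ev n (cased2_tr Tl J r.g.a r.s y i) • ty (Tl i.1) i.2 =
      ∑ i, (y.1 i : OO n) • ty (Tl i) 0 +
        ((sgz ((sw Tl J y.1).s + r.s) : OO n) * tt n r.g.a) •
          ∑ i, (y.2 i : OO n) • ty (Tl i) 1 := by
    rw [Fintype.sum_prod_type, smul_sum, ← sum_add_distrib]
    refine sum_congr rfl fun i _ => ?_
    have : (univ : Finset (ZMod 2)) = {0, 1} := by decide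
    rw [this, sum_pair (by decide)]
    simp only [cased2_tr, if_true, one_ne_zero, if_false, map_mul, ev_C, ev_T, tt_zero, mul_one,
      smul_smul]
    congr 2
    ring
  rw [hsum, ← e0, ← e1]
  simp only [mul_w, mul_s, mul_g, g1, g2, one_mul, mul_one, aw_one, map_add, uu_iot]
  rw [hg, aw_mk _ _ (sw Tl J y.2).w, aw_mk _ _ v.w]
  simp only [map_smul, ty, mul_smul, Int.cast_smul_eq_zsmul]
  abel

theorem caseD2 {S : Finset (El n k)} {e x : ℝ} (he : IsRate S e) (hx : 0 < x) (hx1 : x ≤ 1)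
    (hxe : x * e < 1) (hk : k + 4 ≤ n) (Tl : Fin k → El n k) (hT : ∀ i, Tl i ∈ ball S 1)
    (hψ : LinearIndependent (ZMod 2) (fun i => psi (Tl i)))
    (r r' v : El n k) (hr : r ∈ ball S 1) (hr' : r' ∈ ball S 1)
    (hv : v ∈ ball S 1) (hne : r ≠ r') (hg : r.g = r'.g) (hs : r.s = r'.s) (hrb : r.g.b = 1)
    (hvb : v.g.b = 1) (hvr : v.g ≠ r.g) (A : ℝ) (hA : A = AA 2 x ((Nn Tl).card - 6))
    (hnum : 1 < 2 * (x * A) ^ 2) : False := by
  obtain ⟨z, hz⟩ : ∃ z, z = r'.w - r.w := ⟨_, rfl⟩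
  have hz0 : z ≠ 0 := fun h => hne (El.ext (sub_eq_zero.1 (hz ▸ h)).symm hg hs)
  have hr2 : r' = mm z * r := by
    rw [mm_mul]
    exact El.ext (by simp [hz]) hg.symm hs.symm
  obtain ⟨I0, hI, hI0⟩ := drop_many (fun i => ty (Tl i.1) i.2) (ty_indep Tl hψ) 3
    ![uu r.w, ty v 1, uu z]
  obtain ⟨W0, hW⟩ : ∃ W0, W0 = Submodule.span (OO n) (Set.range ![uu r.w, ty v 1, uu z]) :=
    ⟨_, rfl⟩
  rw [← hW] at hI0
  have w0 : uu r.w ∈ W0 := hW ▸ Submodule.subset_span ⟨0, rfl⟩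
  have w1 : ty v 1 ∈ W0 := hW ▸ Submodule.subset_span ⟨1, rfl⟩
  have w2 : uu z ∈ W0 := hW ▸ Submodule.subset_span ⟨2, rfl⟩
  obtain ⟨J, hJ⟩ : ∃ J, J = Nn Tl \ I0 := ⟨_, rfl⟩
  have hJT : ∀ i ∈ J, Tl i ∈ ball S 1 ∧ (Tl i).g = 1 := fun i hi => by
    rw [hJ] at hi
    exact ⟨hT i, (mem_filter.1 (mem_sdiff.1 hi).1).2⟩
  have hJI : ∀ i ∈ I0, i ∉ J := fun i hi h => (mem_sdiff.1 (hJ ▸ h)).2 hi
  have hn : r.g.a - v.g.a ≠ 0 := fun h => hvr (Dh.ext (by omega) (hvb.trans hrb.symm))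
  have hw : r.g * v.g = ⟨r.g.a - v.g.a, 0⟩ := by
    ext1 <;> simp [hrb, hvb, z2_one_add_one, sub_eq_add_neg]
  have hfg : ∀ y : (Fin k → ℤ) × (Fin k → ℤ),
      (sw Tl J y.1 * r * sw Tl J y.2 * v).g = ⟨r.g.a - v.g.a, 0⟩ := fun y => by
    rw [← hw]
    simp [sw]
  have hsupp : ∀ (y : (Fin k → ℤ) × (Fin k → ℤ)) i a,
      (cased2_tr Tl J r.g.a r.s y i).coeff a ≠ 0 → (if i.2 = 0 then 0 else r.g.a) = a := by
    intro y i a h
    rw [cased2_tr, cased2_coeff] at h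
    by_contra h'
    exact h (if_neg h')
  have h0 : SepW W0 (sset Tl J ×ˢ sset Tl J) (fun y => sw Tl J y.1 * r * sw Tl J y.2 * v) := by
    refine sep_periodic (fun i : Fin k × ZMod 2 => ty (Tl i.1) i.2) W0 (fun i => i.1 ∉ I0)
      (fun c hc => hI0 c fun i hi b => hc (i, b) fun h => h hi) _ _
      (cased2_tr Tl J r.g.a r.s) ?_ ?_ ?_ {0, r.g.a} (card_le_two.trans (by omega)) ?_
      (r.g.a - v.g.a) hn (fun y _ => hfg y) (fun i => {if i.2 = 0 then 0 else r.g.a})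
      (fun y _ i a h => (hsupp y i a h).symm) ?_ ?_
    · intro y hy i hi
      have hi' := hJI i.1 (not_not.1 hi)
      simp [cased2_tr, cased2_out (mem_product.1 hy).1 hi', cased2_out (mem_product.1 hy).2 hi']
    · intro y hy
      rw [cased2_w (mem_product.1 hy).1 (mem_product.1 hy).2 r v hrb]
      exact W0.add_mem (W0.smul_mem _ w0) (W0.smul_mem _ w1)
    · intro y hy i a
      rw [cased2_tr, cased2_coeff]
      have b1 := cased2_bd (mem_product.1 hy).1 i.1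
      have b2 := cased2_bd (mem_product.1 hy).2 i.1
      split_ifs
      · exact b1
      · norm_num
      · rw [cased2_abs]; exact b2
      · norm_num
    · intro y _ i a h
      rw [← hsupp y i a h]
      split_ifs <;> simp
    · rintro i a rfl a' rfl m h
      simpa [hn] using h
    · intro y _ y' _ h
      have e1 : y.1 = y'.1 := funext fun i => by
        have := congrArg (fun p : LP => p.coeff 0) (congrFun h (i, 0))
        simpa only [cased2_tr, cased2_coeff, if_true] using this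
      refine Prod.ext e1 (funext fun i => ?_)
      have := congrArg (fun p : LP => p.coeff r.g.a) (congrFun h (i, 1))
      simp only [cased2_tr, cased2_coeff, one_ne_zero, if_false, if_true, e1] at this
      refine mul_left_cancel₀ (fun h' => ?_) this
      have h2 := sgz_mul_self ((sw Tl J y'.1).s + r.s)
      rw [h', zero_mul] at h2
      exact zero_ne_one h2
  have hsep := mdecode _ _ _ hn (fun y _ => hfg y) W0 h0 z hz0 w2
    (fun y => iot (sw Tl J y.1).s z) fun y _ => by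
      rcases z2_cases (sw Tl J y.1).s with h | h <;> simp [h]
  have h := block_lb he hx hxe _ _ (fun p => szJ J p.1.1 + 1 + szJ J p.1.2 + 1) hsep (by
    rintro ⟨y, b⟩ hy
    have hy' := mem_product.1 (mem_product.1 hy).1
    have b1 := sw_mem_ball Tl J hJT hy'.1
    have b2 := sw_mem_ball Tl J hJT hy'.2
    cases b
    · simpa using mul_mem_ball (mul_mem_ball (mul_mem_ball b1 hr) b2) hv
    · have e1 : sw Tl J y.1 * r' = mm (iot (sw Tl J y.1).s z) * (sw Tl J y.1 * r) := by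
        have g1 : (sw Tl J y.1).g = 1 := rfl
        rw [hr2, ← mul_assoc, mul_mm, g1, aw_one, mul_assoc]
      have := mul_mem_ball (mul_mem_ball (mul_mem_ball b1 hr') b2) hv
      rw [e1] at this
      simpa only [if_true, mul_assoc] using this)
  obtain ⟨s, hsd⟩ : ∃ s, s = ∑ y ∈ sset Tl J, x ^ szJ J y := ⟨_, rfl⟩
  have hsum : ∑ p ∈ (sset Tl J ×ˢ sset Tl J) ×ˢ (univ : Finset Bool),
      x ^ (szJ J p.1.1 + 1 + szJ J p.1.2 + 1) = 2 * (x * s) ^ 2 := by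
    have : 2 * (x * s) ^ 2 = (2 * x ^ 2) * (s * s) := by ring
    rw [this, hsd, sum_mul_sum, sum_product, sum_product, mul_sum]
    refine sum_congr rfl fun y _ => ?_
    rw [mul_sum]
    refine sum_congr rfl fun y' _ => ?_
    simp only [sum_const, card_univ, Fintype.card_bool, nsmul_eq_mul, Nat.cast_ofNat]
    ring
  rw [hsum] at h
  have hc : (Nn Tl).card - 6 ≤ J.card := by
    have := le_card_sdiff I0 (Nn Tl)
    rw [← hJ] at this
    omega
  have h1 : A ≤ s := by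
    rw [hA, hsd]
    exact (AA_mono 2 hx.le hc).trans (sum_sset_ge Tl J hx.le hx1)
  have h2 : 0 ≤ A := hA ▸ zero_le_one.trans (one_le_AA 2 hx.le _)
  have h3 : (x * A) ^ 2 ≤ (x * s) ^ 2 := by gcongr
  linarith

end Pool.Agent.MP_646035_al.PC
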