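import Pool.Agent.MP_646035_al.PC.Alg
import Pool.Agent.MP_646035_al.PC.W

namespace Pool.Agent.MP_646035_al.PC

open Finset PT

variable {n k : ℕ} {Q : Type} [AddCommGroup Q] [DecidableEq Q] {e : Fin 2 → Q}

/-- The emission of the digits `y` at the position `g` in the lane `s`. -/
noncomputable def cased1_em (g : Dh) (s : ZMod 2) (y : Fin k → ℤ) (i : Fin k × ZMod 2) : LP :=
  if i.2 = g.b then LaurentPolynomial.C (sgz s * y i.1) * LaurentPolynomial.T g.a else 0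

/-- The total emission of a block. -/
noncomputable def cased1_tr {m : ℕ} (p : Fin m → Dh) (s : Fin m → ZMod 2) (y : Fin m → Fin k → ℤ) :
    Fin k × ZMod 2 → LP := ∑ j, cased1_em (p j) (s j) (y j)

lemma cased1_mem {Tl : Fin k → El n k} {J : Finset (Fin k)} {y : Fin k → ℤ}
    (hy : y ∈ sset Tl J) : (∀ i, |y i| ≤ 2) ∧ ∀ i ∉ J, y i = 0 := by
  obtain ⟨h1, h2⟩ := mem_asg.1 (mem_filter.1 hy).1
  refine ⟨fun i => ?_, h2⟩
  by_cases hi : i ∈ J
  · exact mem_bx.1 (h1 i hi)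
  · rw [h2 i hi]; norm_num

lemma cased1_uu (g : Dh) (h : El n k) : uu (aw g h.w) = tt n g.a • ty h g.b := by
  rw [ty, ← map_smul, ← aw_mk]

lemma cased1_em_sum (Tl : Fin k → El n k) {J : Finset (Fin k)} {y : Fin k → ℤ}
    (hy : ∀ i ∉ J, y i = 0) (g : Dh) (s : ZMod 2) :
    ∑ i, ev n (cased1_em g s y i) • ty (Tl i.1) i.2 =
      uu (iot s (aw g (∑ i ∈ J, y i • (Tl i).w))) := by
  rw [uu_iot, map_sum, map_sum, Fintype.sum_prod_type, smul_sum,
    sum_subset (subset_univ J) (fun i _ hi => by simp [hy i hi])]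
  refine sum_congr rfl fun i _ => ?_
  rw [Finset.sum_eq_single g.b (fun b _ hb => by simp [cased1_em, hb]) (by simp), map_zsmul,
    map_zsmul, cased1_uu, cased1_em, if_pos rfl, map_mul, ev_C, ev_T, mul_smul,
    Int.cast_smul_eq_zsmul, mul_smul]

/-- All translates of the digits of `t` lie in `W0`. -/
def cased1_In (W0 : Submodule (OO n) (Fin k → Lm n)) (t : El n k) : Prop :=
  ∀ g, uu (aw g t.w) ∈ W0

lemma cased1_In_of {W0 : Submodule (OO n) (Fin k → Lm n)} {t : El n k} (h0 : ty t 0 ∈ W0)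
    (h1 : ty t 1 ∈ W0) : cased1_In W0 t := fun g => by
  rw [cased1_uu]
  rcases z2_cases g.b with h | h <;> rw [h]
  exacts [W0.smul_mem _ h0, W0.smul_mem _ h1]

lemma cased1_In_inv {W0 : Submodule (OO n) (Fin k → Lm n)} {t : El n k} (h : cased1_In W0 t) :
    cased1_In W0 t⁻¹ := fun g => by
  rw [inv_w, map_neg, map_neg, ← iot_aw, ← aw_mul, uu_iot]
  exact neg_mem (zsmul_mem (h _) _)

/-- The toggle digits of `h` are given by `φ` modulo `W0`. -/
def cased1_R (Tl : Fin k → El n k) (W0 : Submodule (OO n) (Fin k → Lm n)) (h : El n k)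
    (φ : Fin k × ZMod 2 → LP) : Prop :=
  uu h.w - ∑ i, ev n (φ i) • ty (Tl i.1) i.2 ∈ W0

lemma cased1_step {Tl : Fin k → El n k} {W0 : Submodule (OO n) (Fin k → Lm n)} {h : El n k}
    {φ : Fin k × ZMod 2 → LP} (hR : cased1_R Tl W0 h φ) {J : Finset (Fin k)} {y : Fin k → ℤ}
    (hy : y ∈ sset Tl J) {t : El n k} (ht : cased1_In W0 t) :
    cased1_R Tl W0 (h * sw Tl J y * t) (φ + cased1_em h.g h.s y) := by
  have h1 : uu (iot (h * sw Tl J y).s (aw (h * sw Tl J y).g t.w)) ∈ W0 := by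
    rw [uu_iot]; exact zsmul_mem (ht _) _
  have h2 := add_mem hR h1
  unfold cased1_R
  simp only [Pi.add_apply, map_add, add_smul, sum_add_distrib, cased1_em_sum Tl (cased1_mem hy).2]
  rw [mul_w, mul_w, map_add, map_add]
  convert h2 using 1
  simp only [sw]
  abel

lemma cased1_first {Tl : Fin k → El n k} {W0 : Submodule (OO n) (Fin k → Lm n)}
    {J : Finset (Fin k)} {y : Fin k → ℤ} (hy : y ∈ sset Tl J) {t : El n k} (ht : cased1_In W0 t) :
    cased1_R Tl W0 (sw Tl J y * t) (cased1_em 1 0 y) := by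
  simpa using cased1_step (Tl := Tl) (W0 := W0) (h := 1) (φ := 0) (by simp [cased1_R]) hy ht

lemma cased1_coeff {m : ℕ} (p : Fin m → Dh) (s : Fin m → ZMod 2) (y : Fin m → Fin k → ℤ)
    (i : Fin k) (g : Dh) :
    (cased1_tr p s y (i, g.b)).coeff g.a = ∑ j, if p j = g then sgz (s j) * y j i else 0 := by
  simp only [cased1_tr, Finset.sum_apply, AddMonoidAlgebra.coeff_sum, Finsupp.coe_finsetSum]
  refine sum_congr rfl fun j _ => ?_
  by_cases h2 : g.b = (p j).b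
  · rw [cased1_em, if_pos h2, ← LaurentPolynomial.single_eq_C_mul_T,
      AddMonoidAlgebra.coeff_single_apply]
    simp [Dh.ext_iff, h2]
  · rw [cased1_em, if_neg h2, if_neg fun h => h2 (by rw [h])]
    rfl

lemma cased1_supp {m : ℕ} {p : Fin m → Dh} {s : Fin m → ZMod 2} {y : Fin m → Fin k → ℤ}
    {i : Fin k × ZMod 2} {a : ℤ} (h : (cased1_tr p s y i).coeff a ≠ 0) : ∃ j, p j = ⟨a, i.2⟩ := by
  have := cased1_coeff p s y i.1 ⟨a, i.2⟩
  by_contra hc
  push Not at hc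
  exact h (this.trans (sum_eq_zero fun j _ => if_neg (hc j)))

lemma cased1_read {m : ℕ} {p : Fin m → Dh} (hp : Function.Injective p) (s : Fin m → ZMod 2)
    (y : Fin m → Fin k → ℤ) (i : Fin k) (j : Fin m) :
    (cased1_tr p s y (i, (p j).b)).coeff (p j).a = sgz (s j) * y j i := by
  rw [cased1_coeff, Finset.sum_eq_single j (fun j' _ hj => if_neg fun h => hj (hp h)) (by simp),
    if_pos rfl]

lemma cased1_sgz (s : ZMod 2) : sgz s ≠ 0 ∧ |sgz s| = 1 := by revert s; decide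

lemma cased1_bd {m : ℕ} {p : Fin m → Dh} (hp : Function.Injective p) (s : Fin m → ZMod 2)
    {y : Fin m → Fin k → ℤ} (hy : ∀ j i, |y j i| ≤ 2) (i : Fin k × ZMod 2) :
    Bd (cased1_tr p s y i) 2 := fun a => by
  by_cases h : (cased1_tr p s y i).coeff a = 0
  · rw [h]; norm_num
  · obtain ⟨j, hj⟩ := cased1_supp h
    have := cased1_read hp s y i.1 j
    rw [hj] at this
    rw [this, abs_mul, (cased1_sgz _).2, one_mul]
    exact hy j i.1

lemma cased1_inj {m : ℕ} {p : Fin m → Dh} (hp : Function.Injective p)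
    {s : (Fin m → Fin k → ℤ) → Fin m → ZMod 2}
    (hs : ∀ y y' j, (∀ j' < j, y j' = y' j') → s y j = s y' j) {y y' : Fin m → Fin k → ℤ}
    (h : cased1_tr p (s y) y = cased1_tr p (s y') y') : y = y' := by
  funext j
  induction j using WellFoundedLT.induction with
  | ind j ih =>
    funext i
    have h1 := cased1_read hp (s y) y i j
    rw [h, cased1_read hp, hs y y' j ih] at h1
    exact (mul_left_cancel₀ (cased1_sgz _).1 h1).symm

lemma cased1_ok {m : ℕ} (p : Fin m → Dh) (s : Fin m → ZMod 2) {y : Fin m → Fin k → ℤ}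
    {i : Fin k × ZMod 2} (h : ∀ j, y j i.1 = 0) : cased1_tr p s y i = 0 := by
  simp [cased1_tr, Finset.sum_apply, cased1_em, h]

lemma cased1_sum {m : ℕ} (σ : Fin m → Finset (Fin k → ℤ)) (J : Finset (Fin k)) (x : ℝ) :
    ∑ y ∈ Fintype.piFinset σ, x ^ (m + ∑ j, szJ J (y j)) =
      x ^ m * ∏ j, ∑ y ∈ σ j, x ^ szJ J y := by
  rw [Finset.prod_univ_sum, mul_sum]
  exact sum_congr rfl fun L _ => by rw [pow_add, prod_pow_eq_pow_sum]

/-- Blocks with two possible skeletons. -/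
theorem cased1_gen {S : Finset (El n k)} {e x : ℝ} (he : IsRate S e) (hx : 0 < x)
    (hxe : x * e < 1) (Tl : Fin k → El n k) (W0 : Submodule (OO n) (Fin k → Lm n))
    (I0 J : Finset (Fin k)) (hJ : ∀ i ∈ I0, i ∉ J)
    (hI : ∀ c : Fin k × ZMod 2 → OO n, (∀ i ∈ I0, ∀ b, c (i, b) = 0) →
      ∑ i, c i • ty (Tl i.1) i.2 ∈ W0 → c = 0) {m1 m2 : ℕ}
    (f1 : (Fin m1 → Fin k → ℤ) → El n k) (f2 : (Fin m2 → Fin k → ℤ) → El n k)
    (p1 : Fin m1 → Dh) (p2 : Fin m2 → Dh) (s1 : (Fin m1 → Fin k → ℤ) → Fin m1 → ZMod 2)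
    (s2 : (Fin m2 → Fin k → ℤ) → Fin m2 → ZMod 2) (n0 : ℤ) (hn0 : n0 ≠ 0)
    (hs1 : ∀ y y' j, (∀ j' < j, y j' = y' j') → s1 y j = s1 y' j)
    (hs2 : ∀ y y' j, (∀ j' < j, y j' = y' j') → s2 y j = s2 y' j)
    (hw1 : ∀ y, (f1 y).g = ⟨n0, 0⟩) (hw2 : ∀ y, (f2 y).g = ⟨n0, 0⟩)
    (hR1 : ∀ y, (∀ j, y j ∈ sset Tl J) → cased1_R Tl W0 (f1 y) (cased1_tr p1 (s1 y) y))
    (hR2 : ∀ y, (∀ j, y j ∈ sset Tl J) → cased1_R Tl W0 (f2 y) (cased1_tr p2 (s2 y) y))
    (hb1 : ∀ y, (∀ j, y j ∈ sset Tl J) → f1 y ∈ ball S (m1 + ∑ j, szJ J (y j)))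
    (hb2 : ∀ y, (∀ j, y j ∈ sset Tl J) → f2 y ∈ ball S (m2 + ∑ j, szJ J (y j)))
    (hp1 : Function.Injective p1) (hp2 : Function.Injective p2) (j0 : Fin m1)
    (hj0 : ∀ j, p2 j ≠ p1 j0) (Off : Finset ℤ) (hO : Off.card ≤ n) (lo : ZMod 2 → ℤ)
    (hl1 : ∀ j, (p1 j).a ∈ Off ∧ lo (p1 j).b ≤ (p1 j).a ∧ (p1 j).a < lo (p1 j).b + |n0|)
    (hl2 : ∀ j, (p2 j).a ∈ Off ∧ lo (p2 j).b ≤ (p2 j).a ∧ (p2 j).a < lo (p2 j).b + |n0|)
    {B : ℝ} (hB : B = ∑ y ∈ sset Tl J, x ^ szJ J y) :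
    x ^ m1 * (B ^ (m1 - 1) * (B - 1)) + x ^ m2 * B ^ m2 ≤ 1 := by
  classical
  let σ : Fin m1 → Finset (Fin k → ℤ) :=
    Function.update (fun _ => sset Tl J) j0 ((sset Tl J).erase 0)
  have hσ : ∀ y ∈ Fintype.piFinset σ, (∀ j, y j ∈ sset Tl J) ∧ y j0 ≠ 0 := by
    intro y hy
    rw [Fintype.mem_piFinset] at hy
    have h0 := hy j0
    simp only [σ, Function.update_self, mem_erase] at h0
    refine ⟨fun j => ?_, h0.1⟩
    by_cases hj : j = j0
    · exact hj ▸ h0.2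
    · simpa only [σ, Function.update_of_ne hj] using hy j
  have hσ2 : ∀ y ∈ Fintype.piFinset (fun _ : Fin m2 => sset Tl J), ∀ j, y j ∈ sset Tl J :=
    fun y hy j => Fintype.mem_piFinset.1 hy j
  have hsep : SepW W0 ((Fintype.piFinset σ).disjSum (Fintype.piFinset fun _ : Fin m2 => sset Tl J))
      (Sum.elim f1 f2) := by
    refine sep_periodic (fun i : Fin k × ZMod 2 => ty (Tl i.1) i.2) W0 (fun i => i.1 ∉ I0)
      (fun c hc => hI c fun i hi b => hc (i, b) fun h => h hi) _ _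
      (Sum.elim (fun y => cased1_tr p1 (s1 y) y) fun y => cased1_tr p2 (s2 y) y) ?_ ?_ ?_ Off hO ?_
      n0 hn0 ?_ (fun i => Set.Ico (lo i.2) (lo i.2 + |n0|)) ?_ ?_ ?_
    · rintro (y | y) hy i hi <;> rw [not_not] at hi
      · exact cased1_ok _ _ fun j => (cased1_mem ((hσ y (inl_mem_disjSum.1 hy)).1 j)).2 _ (hJ _ hi)
      · exact cased1_ok _ _ fun j => (cased1_mem (hσ2 y (inr_mem_disjSum.1 hy) j)).2 _ (hJ _ hi)
    · rintro (y | y) hy
      · exact hR1 y (hσ y (inl_mem_disjSum.1 hy)).1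
      · exact hR2 y (hσ2 y (inr_mem_disjSum.1 hy))
    · rintro (y | y) hy i
      · exact cased1_bd hp1 _ (fun j => (cased1_mem ((hσ y (inl_mem_disjSum.1 hy)).1 j)).1) i
      · exact cased1_bd hp2 _ (fun j => (cased1_mem (hσ2 y (inr_mem_disjSum.1 hy) j)).1) i
    · rintro (y | y) - i a h <;> obtain ⟨j, hj⟩ := cased1_supp h
      · simpa [hj] using (hl1 j).1
      · simpa [hj] using (hl2 j).1
    · rintro (y | y) -
      exacts [hw1 y, hw2 y]
    · rintro (y | y) - i a h <;> obtain ⟨j, hj⟩ := cased1_supp h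
      · simpa [hj] using (hl1 j).2
      · simpa [hj] using (hl2 j).2
    · rintro i a ⟨h1, h2⟩ a' ⟨h3, h4⟩ m rfl
      by_contra hm
      have h5 : |m * n0| < |n0| := abs_lt.2 ⟨by omega, by omega⟩
      rw [abs_mul] at h5
      nlinarith [Int.one_le_abs hm, abs_nonneg n0]
    · have hlr : ∀ y ∈ Fintype.piFinset σ, ∀ y', cased1_tr p1 (s1 y) y ≠
          cased1_tr p2 (s2 y') y' := by
        intro y hy y' h
        obtain ⟨i, hi⟩ := Function.ne_iff.1 (hσ y hy).2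
        have h1 : (cased1_tr p1 (s1 y) y (i, (p1 j0).b)).coeff (p1 j0).a ≠ 0 := by
          rw [cased1_read hp1]
          exact mul_ne_zero (cased1_sgz _).1 hi
        rw [h] at h1
        obtain ⟨j, hj⟩ := cased1_supp h1
        exact hj0 j hj
      rintro (y | y) hy (y' | y') hy' h
      · exact congrArg _ (cased1_inj hp1 hs1 h)
      · exact absurd h (hlr y (inl_mem_disjSum.1 hy) y')
      · exact absurd h.symm (hlr y' (inl_mem_disjSum.1 hy') y)
      · exact congrArg _ (cased1_inj hp2 hs2 h)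
  have h := block_lb he hx hxe _ _
    (Sum.elim (fun y => m1 + ∑ j, szJ J (y j)) fun y => m2 + ∑ j, szJ J (y j)) hsep.sep
    (by
      rintro (y | y) hy
      exacts [hb1 y (hσ y (inl_mem_disjSum.1 hy)).1, hb2 y (hσ2 y (inr_mem_disjSum.1 hy))])
  simp only [sum_disjSum, Sum.elim_inl, Sum.elim_inr, cased1_sum, ← hB,
    prod_const, card_univ, Fintype.card_fin] at h
  have h2 : ∏ j, ∑ y ∈ σ j, x ^ szJ J y = B ^ (m1 - 1) * (B - 1) := by
    rw [← prod_erase_mul _ _ (mem_univ j0), prod_congr rfl (g := fun _ => B)]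
    · have h3 : ∑ y ∈ (sset Tl J).erase 0, x ^ szJ J y = B - 1 := by
        rw [hB, ← add_sum_erase _ _ (zero_mem_sset Tl J)]
        simp [szJ]
      simp only [σ, Function.update_self, h3, prod_const,
        card_erase_of_mem (mem_univ j0), card_univ, Fintype.card_fin]
    · intro j hj
      simp only [σ, Function.update_of_ne (mem_erase.1 hj).1, hB]
  rwa [h2] at h

lemma cased1_sw_g (Tl : Fin k → El n k) (J : Finset (Fin k)) (y : Fin k → ℤ) :
    (sw Tl J y).g = 1 := rfl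

theorem caseD1 {S : Finset (El n k)} {e x : ℝ} (he : IsRate S e) (hx : 0 < x) (hx1 : x ≤ 1)
    (hxe : x * e < 1) (hk : k + 4 ≤ n) (Tl : Fin k → El n k) (hT : ∀ i, Tl i ∈ ball S 1)
    (hψ : LinearIndependent (ZMod 2) (fun i => psi (Tl i)))
    (τ r : El n k) (hτ : τ ∈ ball S 1) (hτb : τ.g.b = 0) (hτ1 : τ.g ≠ 1)
    (hr : r ∈ ball S 1) (hrb : r.g.b = 1) (A : ℝ) (hA : A = AA 2 x ((Nn Tl).card - 6))
    (hnum : 1 < (x * A) ^ 2 + (x * A) ^ 3 * (x * (A - 1))) : False := by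
  classical
  have hn : τ.g.a ≠ 0 := fun h => hτ1 (Dh.ext h hτb)
  have e2 : r.g * τ⁻¹.g = ⟨r.g.a + τ.g.a, 1⟩ := by ext1 <;> simp [hτb, hrb]
  have e3 : (⟨r.g.a + τ.g.a, 1⟩ : Dh) * r⁻¹.g = ⟨τ.g.a, 0⟩ := by
    ext1 <;> simp [hrb, z2_one_add_one]
  have hab : |2 * τ.g.a| = 2 * |τ.g.a| := by rw [abs_mul]; rfl
  have a1 := le_abs_self τ.g.a
  have a2 := neg_abs_le τ.g.a
  have a3 := abs_pos.2 hn
  obtain ⟨I0, hI4, hI⟩ := drop_many (fun i => ty (Tl i.1) i.2) (ty_indep Tl hψ) 4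
    ![ty τ 0, ty τ 1, ty r 0, ty r 1]
  set W0 := Submodule.span (OO n) (Set.range ![ty τ 0, ty τ 1, ty r 0, ty r 1])
  have iτ : cased1_In W0 τ :=
    cased1_In_of (Submodule.subset_span ⟨0, rfl⟩) (Submodule.subset_span ⟨1, rfl⟩)
  have ir : cased1_In W0 r :=
    cased1_In_of (Submodule.subset_span ⟨2, rfl⟩) (Submodule.subset_span ⟨3, rfl⟩)
  set J := Nn Tl \ I0 with hJ
  have hw : ∀ y ∈ sset Tl J, sw Tl J y ∈ ball S (szJ J y) := fun y hy =>
    sw_mem_ball Tl J (fun i hi => ⟨hT i, (mem_filter.1 (mem_sdiff.1 hi).1).2⟩) hy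
  have h := cased1_gen he hx hxe Tl W0 I0 J (fun i hi h => (mem_sdiff.1 h).2 hi) hI
    (fun y : Fin 4 → Fin k → ℤ => sw Tl J (y 0) * r * sw Tl J (y 1) * τ⁻¹ * sw Tl J (y 2) * r⁻¹ *
      sw Tl J (y 3) * τ)
    (fun y : Fin 2 → Fin k → ℤ => sw Tl J (y 0) * τ * sw Tl J (y 1) * τ)
    ![1, r.g, r.g * τ⁻¹.g, r.g * τ⁻¹.g * r⁻¹.g] ![1, τ.g]
    (fun y => ![0, (sw Tl J (y 0) * r).s, (sw Tl J (y 0) * r * sw Tl J (y 1) * τ⁻¹).s,
      (sw Tl J (y 0) * r * sw Tl J (y 1) * τ⁻¹ * sw Tl J (y 2) * r⁻¹).s])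
    (fun y => ![0, (sw Tl J (y 0) * τ).s]) (2 * τ.g.a) (by omega)
    (by
      intro y y' j h
      fin_cases j
      · rfl
      · simp only [h 0 (by decide)]; rfl
      · simp only [h 0 (by decide), h 1 (by decide)]; rfl
      · simp only [h 0 (by decide), h 1 (by decide), h 2 (by decide)])
    (by
      intro y y' j h
      fin_cases j
      · rfl
      · simp only [h 0 (by decide)])
    (fun y => by
      simp only [mul_g, cased1_sw_g, one_mul, mul_one]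
      rw [e2, e3]; ext1 <;> simp [hτb, two_mul])
    (fun y => by
      simp only [mul_g, cased1_sw_g, one_mul, mul_one]
      ext1 <;> simp [hτb, two_mul])
    (fun y hy => by
      have h := cased1_step (cased1_step (cased1_step (cased1_first (hy 0) ir) (hy 1)
        (cased1_In_inv iτ)) (hy 2) (cased1_In_inv ir)) (hy 3) iτ
      simp only [mul_g, cased1_sw_g, one_mul, mul_one] at h
      rw [cased1_tr, Fin.sum_univ_four]
      exact h)
    (fun y hy => by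
      have h := cased1_step (cased1_first (hy 0) iτ) (hy 1) iτ
      simp only [mul_g, cased1_sw_g, one_mul] at h
      rw [cased1_tr, Fin.sum_univ_two]
      exact h)
    (fun y hy => by
      refine ball_mono S (le_of_eq ?_) (mul_mem_ball (mul_mem_ball (mul_mem_ball (mul_mem_ball
        (mul_mem_ball (mul_mem_ball (mul_mem_ball (hw _ (hy 0)) hr) (hw _ (hy 1)))
          (inv_mem_ball hτ)) (hw _ (hy 2))) (inv_mem_ball hr)) (hw _ (hy 3))) hτ)
      rw [Fin.sum_univ_four]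
      omega)
    (fun y hy => by
      refine ball_mono S (le_of_eq ?_)
        (mul_mem_ball (mul_mem_ball (mul_mem_ball (hw _ (hy 0)) hτ) (hw _ (hy 1))) hτ)
      rw [Fin.sum_univ_two]
      omega)
    (by
      rw [e2, e3]
      intro i j
      fin_cases i <;> fin_cases j <;> simp [Dh.ext_iff, hrb, hn, hn.symm])
    (by
      intro i j
      fin_cases i <;> fin_cases j <;> simp [Dh.ext_iff, hn, hn.symm])
    1 (by
      intro j
      fin_cases j <;> simp [Dh.ext_iff, hrb, hτb])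
    {0, τ.g.a, r.g.a, r.g.a + τ.g.a} (card_le_four.trans (by omega))
    (fun b => (if b = 0 then 0 else r.g.a) + min 0 τ.g.a)
    (by
      rw [e2, e3, hab]
      intro j
      fin_cases j <;> simp [hrb] <;> omega)
    (by
      rw [hab]
      intro j
      fin_cases j <;> simp [hτb] <;> omega) rfl
  have hB := sum_sset_ge Tl J hx.le hx1
  generalize ∑ y ∈ sset Tl J, x ^ szJ J y = B at h hB
  have hc : (Nn Tl).card - 6 ≤ J.card := by
    have := le_card_sdiff I0 (Nn Tl)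
    rw [hJ]
    omega
  replace hB : A ≤ B := hA ▸ (AA_mono 2 hx.le hc).trans hB
  have h1 : 1 ≤ A := hA ▸ one_le_AA 2 hx.le _
  have h2 : (x * A) ^ 2 + (x * A) ^ 3 * (x * (A - 1)) ≤
      (x * B) ^ 2 + (x * B) ^ 3 * (x * (B - 1)) := by
    have : 0 ≤ A - 1 := by linarith
    have : 0 ≤ B := by linarith
    gcongr
  norm_num at h
  linarith

end Pool.Agent.MP_646035_al.PC

namespace Pool.Agent.MP_646035_al.PC

open Finset PT

variable {n k : ℕ} {Q : Type} [AddCommGroup Q] [DecidableEq Q] {e : Fin 2 → Q}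

/-- The emission of the digits `y` at the position `g` in the lane `s`. -/
noncomputable def cased3_em (g : Dh) (s : ZMod 2) (y : Fin k → ℤ) : Fin k × ZMod 2 → LP :=
  fun i => if g.b = i.2 then LaurentPolynomial.C (sgz s * y i.1) * LaurentPolynomial.T g.a else 0

/-- The emissions at the positions `p j`. -/
noncomputable def cased3_tr (p : Fin 4 → Dh) (ε : Fin 4 → ZMod 2) (L : Fin 4 → Fin k → ℤ) :
    Fin k × ZMod 2 → LP := ∑ j, cased3_em (p j) (ε j) (L j)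

lemma cased3_uu (g : Dh) (h : El n k) : uu (aw g h.w) = tt n g.a • ty h g.b := by
  have : g = ⟨g.a, g.b⟩ := rfl
  rw [this, aw_mk, map_smul]
  rfl

lemma cased3_em_sum (Tl : Fin k → El n k) (J : Finset (Fin k)) {y : Fin k → ℤ}
    (hy : ∀ i ∉ J, y i = 0) (g : Dh) (s : ZMod 2) :
    ∑ i, ev n (cased3_em g s y i) • ty (Tl i.1) i.2 = sgz s • uu (aw g (sw Tl J y).w) := by
  simp only [sw, map_sum, map_zsmul, cased3_uu]
  rw [Fintype.sum_prod_type, ← Finset.sum_subset (subset_univ J), Finset.smul_sum]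
  · refine sum_congr rfl fun i _ => ?_
    rw [Finset.sum_eq_single g.b]
    · simp only [cased3_em, if_true, map_mul, ev_C, ev_T, mul_smul,
        Int.cast_smul_eq_zsmul]
    · intro b _ hb
      simp [cased3_em, hb.symm]
    · simp
  · intro i _ hi
    simp [cased3_em, hy i hi]

/-- The toggle digits of `h` are the emissions `φ` modulo `W0`. -/
def cased3_R (W0 : Submodule (OO n) (Fin k → Lm n)) (Tl : Fin k → El n k) (h : El n k)
    (φ : Fin k × ZMod 2 → LP) : Prop :=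
  uu h.w - ∑ i, ev n (φ i) • ty (Tl i.1) i.2 ∈ W0

lemma cased3_step {W0 : Submodule (OO n) (Fin k → Lm n)} {Tl : Fin k → El n k} {h : El n k}
    {φ : Fin k × ZMod 2 → LP} (hR : cased3_R W0 Tl h φ) (J : Finset (Fin k)) {y : Fin k → ℤ}
    (hy : ∀ i ∉ J, y i = 0) {t : El n k} (ht : ∀ b, ty t b ∈ W0) :
    cased3_R W0 Tl (h * sw Tl J y * t) (φ + cased3_em h.g h.s y) := by
  have h1 : sgz (h * sw Tl J y).s • tt n (h * sw Tl J y).g.a • ty t (h * sw Tl J y).g.b ∈ W0 :=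
    zsmul_mem (W0.smul_mem _ (ht _)) _
  have h2 := W0.add_mem hR h1
  unfold cased3_R
  convert h2 using 1
  simp only [Pi.add_apply, map_add, add_smul, sum_add_distrib, cased3_em_sum Tl J hy]
  rw [mul_w, map_add, uu_iot, cased3_uu, mul_w, map_add, uu_iot]
  abel

/-- A block with four moving letters. -/
def cased3_f (Tl : Fin k → El n k) (J : Finset (Fin k)) (t0 t1 t2 t3 : El n k)
    (L : Fin 4 → Fin k → ℤ) : El n k :=
  sw Tl J (L 0) * t0 * sw Tl J (L 1) * t1 * sw Tl J (L 2) * t2 * sw Tl J (L 3) * t3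

/-- The lanes in which the sites of a block are visited. -/
def cased3_ln (Tl : Fin k → El n k) (J : Finset (Fin k)) (t0 t1 t2 : El n k)
    (L : Fin 4 → Fin k → ℤ) : Fin 4 → ZMod 2 :=
  ![0, (sw Tl J (L 0) * t0).s, (sw Tl J (L 0) * t0 * sw Tl J (L 1) * t1).s,
    (sw Tl J (L 0) * t0 * sw Tl J (L 1) * t1 * sw Tl J (L 2) * t2).s]

lemma cased3_sw_g (Tl : Fin k → El n k) (J : Finset (Fin k)) (y : Fin k → ℤ) :
    (sw Tl J y).g = 1 := rfl

lemma cased3_f_g (Tl : Fin k → El n k) (J : Finset (Fin k)) (t0 t1 t2 t3 : El n k)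
    (L : Fin 4 → Fin k → ℤ) :
    (cased3_f Tl J t0 t1 t2 t3 L).g = t0.g * t1.g * t2.g * t3.g := by
  simp [cased3_f, cased3_sw_g]

lemma cased3_four {W0 : Submodule (OO n) (Fin k → Lm n)} (Tl : Fin k → El n k)
    (J : Finset (Fin k)) {L : Fin 4 → Fin k → ℤ} (hL : ∀ j, ∀ i ∉ J, L j i = 0)
    {t0 t1 t2 t3 : El n k} (h0 : ∀ b, ty t0 b ∈ W0) (h1 : ∀ b, ty t1 b ∈ W0)
    (h2 : ∀ b, ty t2 b ∈ W0) (h3 : ∀ b, ty t3 b ∈ W0) :
    cased3_R W0 Tl (cased3_f Tl J t0 t1 t2 t3 L)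
      (cased3_tr ![1, t0.g, t0.g * t1.g, t0.g * t1.g * t2.g] (cased3_ln Tl J t0 t1 t2 L) L) := by
  have hb : cased3_R W0 Tl 1 0 := by simp [cased3_R]
  have := cased3_step (cased3_step (cased3_step (cased3_step hb J (hL 0) h0) J (hL 1) h1)
    J (hL 2) h2) J (hL 3) h3
  simp only [one_mul, zero_add, mul_g, cased3_sw_g, mul_one, one_g, one_s] at this
  simpa only [cased3_tr, Fin.sum_univ_four, cased3_f, cased3_ln, Matrix.cons_val_zero,
    Matrix.cons_val_one, Matrix.cons_val] using this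

lemma cased3_ball {S : Finset (El n k)} {Tl : Fin k → El n k} {J : Finset (Fin k)}
    (hT : ∀ i ∈ J, Tl i ∈ ball S 1 ∧ (Tl i).g = 1) {L : Fin 4 → Fin k → ℤ}
    (hL : ∀ j, L j ∈ sset Tl J) {t0 t1 t2 t3 : El n k} (h0 : t0 ∈ ball S 1) (h1 : t1 ∈ ball S 1)
    (h2 : t2 ∈ ball S 1) (h3 : t3 ∈ ball S 1) :
    cased3_f Tl J t0 t1 t2 t3 L ∈ ball S (4 + ∑ j, szJ J (L j)) := by
  have h := fun j => sw_mem_ball Tl J hT (hL j)
  refine ball_mono S (le_of_eq ?_) (mul_mem_ball (mul_mem_ball (mul_mem_ball (mul_mem_ball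
    (mul_mem_ball (mul_mem_ball (mul_mem_ball (h 0) h0) (h 1)) h1) (h 2)) h2) (h 3)) h3)
  rw [Fin.sum_univ_four]
  omega

lemma cased3_coeff (p : Fin 4 → Dh) (ε : Fin 4 → ZMod 2) (L : Fin 4 → Fin k → ℤ) (i : Fin k)
    (g : Dh) :
    (cased3_tr p ε L (i, g.b)).coeff g.a = ∑ j, if p j = g then sgz (ε j) * L j i else 0 := by
  simp only [cased3_tr, Finset.sum_apply, AddMonoidAlgebra.coeff_sum, Finsupp.coe_finsetSum]
  refine sum_congr rfl fun j _ => ?_
  by_cases h2 : (p j).b = g.b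
  · simp only [cased3_em, h2, if_true, ← LaurentPolynomial.single_eq_C_mul_T, Dh.ext_iff,
      and_true, AddMonoidAlgebra.coeff_single, Finsupp.single_apply]
  · simp [cased3_em, h2, Dh.ext_iff]

lemma cased3_supp {p : Fin 4 → Dh} {ε : Fin 4 → ZMod 2} {L : Fin 4 → Fin k → ℤ}
    {i : Fin k × ZMod 2} {a : ℤ} (h : (cased3_tr p ε L i).coeff a ≠ 0) :
    ∃ j, p j = ⟨a, i.2⟩ := by
  have := cased3_coeff p ε L i.1 ⟨a, i.2⟩
  by_contra hc
  push Not at hc
  exact h (this.trans (sum_eq_zero fun j _ => if_neg (hc j)))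

lemma cased3_read {p : Fin 4 → Dh} (hp : Function.Injective p) (ε : Fin 4 → ZMod 2)
    (L : Fin 4 → Fin k → ℤ) (i : Fin k) (j : Fin 4) :
    (cased3_tr p ε L (i, (p j).b)).coeff (p j).a = sgz (ε j) * L j i := by
  rw [cased3_coeff, Finset.sum_eq_single j]
  · simp
  · exact fun j' _ hj => if_neg fun h => hj (hp h)
  · simp

lemma cased3_sgz_ne (s : ZMod 2) : sgz s ≠ 0 := by revert s; decide

lemma cased3_abs_sgz (s : ZMod 2) : |sgz s| = 1 := by revert s; decide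

lemma cased3_bd {p : Fin 4 → Dh} (hp : Function.Injective p) (ε : Fin 4 → ZMod 2)
    {L : Fin 4 → Fin k → ℤ} (hL : ∀ j i, |L j i| ≤ 2) (i : Fin k × ZMod 2) :
    Bd (cased3_tr p ε L i) 2 := by
  intro a
  by_cases h : (cased3_tr p ε L i).coeff a = 0
  · simp [h]
  · obtain ⟨j, hj⟩ := cased3_supp h
    have := cased3_read hp ε L i.1 j
    rw [hj] at this
    rw [this, abs_mul, cased3_abs_sgz, one_mul]
    exact_mod_cast hL j i.1

lemma cased3_inj {p : Fin 4 → Dh} (hp : Function.Injective p) (Tl : Fin k → El n k)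
    (J : Finset (Fin k)) (t0 t1 t2 : El n k) {L L' : Fin 4 → Fin k → ℤ}
    (h : cased3_tr p (cased3_ln Tl J t0 t1 t2 L) L =
      cased3_tr p (cased3_ln Tl J t0 t1 t2 L') L') : L = L' := by
  have key : ∀ j, cased3_ln Tl J t0 t1 t2 L j = cased3_ln Tl J t0 t1 t2 L' j → L j = L' j := by
    intro j hj
    ext i
    have := cased3_read hp (cased3_ln Tl J t0 t1 t2 L) L i j
    rw [h, cased3_read hp, hj] at this
    exact (mul_left_cancel₀ (cased3_sgz_ne _) this).symm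
  have e0 : L 0 = L' 0 := key 0 rfl
  have e1 : L 1 = L' 1 := key 1 (by simp only [cased3_ln, e0, Matrix.cons_val_zero,
    Matrix.cons_val_one])
  have e2 : L 2 = L' 2 := key 2 (by simp only [cased3_ln, e0, e1, Matrix.cons_val])
  have e3 : L 3 = L' 3 := key 3 (by simp only [cased3_ln, e0, e1, e2, Matrix.cons_val])
  ext1 j
  fin_cases j
  exacts [e0, e1, e2, e3]

lemma cased3_ok (p : Fin 4 → Dh) (ε : Fin 4 → ZMod 2) {L : Fin 4 → Fin k → ℤ}
    {i : Fin k × ZMod 2} (h : ∀ j, L j i.1 = 0) : cased3_tr p ε L i = 0 := by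
  simp [cased3_tr, Finset.sum_apply, cased3_em, h]

lemma cased3_sum (J : Finset (Fin k)) (σ : Fin 4 → Finset (Fin k → ℤ)) (x : ℝ) :
    ∑ L ∈ Fintype.piFinset σ, x ^ (4 + ∑ j, szJ J (L j)) =
      x ^ 4 * ∏ j, ∑ y ∈ σ j, x ^ szJ J y := by
  rw [Finset.prod_univ_sum, mul_sum]
  exact sum_congr rfl fun L _ => by rw [pow_add, prod_pow_eq_pow_sum]

lemma cased3_mem {Tl : Fin k → El n k} {J : Finset (Fin k)} {y : Fin k → ℤ}
    (hy : y ∈ sset Tl J) : (∀ i ∉ J, y i = 0) ∧ ∀ i, |y i| ≤ 2 := by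
  have h := mem_asg.1 (mem_filter.1 hy).1
  refine ⟨h.2, fun i => ?_⟩
  by_cases hi : i ∈ J
  · exact_mod_cast mem_bx.1 (h.1 i hi)
  · simp [h.2 i hi]

theorem caseD3 {S : Finset (El n k)} {e x : ℝ} (he : IsRate S e) (hx : 0 < x) (hx1 : x ≤ 1)
    (hxe : x * e < 1) (hk : k + 4 ≤ n) (Tl : Fin k → El n k) (hT : ∀ i, Tl i ∈ ball S 1)
    (hψ : LinearIndependent (ZMod 2) (fun i => psi (Tl i)))
    (r1 r2 r3 : El n k) (h1 : r1 ∈ ball S 1) (h2 : r2 ∈ ball S 1)
    (h3 : r3 ∈ ball S 1) (b1 : r1.g.b = 1) (b2 : r2.g.b = 1) (b3 : r3.g.b = 1)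
    (h13 : r1.g.a < r3.g.a) (h23 : r2.g.a < r3.g.a) (h12 : r1.g.a ≠ r2.g.a)
    (A : ℝ) (hA : A = AA 2 x ((Nn Tl).card - 6))
    (hnum : 1 < (x * A) ^ 4 + (x * A) ^ 3 * (x * (A - 1))) : False := by
  have hn : 8 ≤ n := by
    by_contra hc
    have c1 : (Nn Tl).card ≤ k := by simpa using card_le_univ (Nn Tl)
    have c2 : (Nn Tl).card - 6 = 0 := by omega
    have c3 : A = 1 := by simp [hA, c2, AA, WW_zero]
    have c4 : x ^ 4 ≤ 1 := pow_le_one₀ hx.le hx1
    rw [c3] at hnum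
    norm_num at hnum
    linarith
  obtain ⟨I0, hI0, hdrop⟩ := drop_many (fun i => ty (Tl i.1) i.2) (ty_indep Tl hψ) 6
    ![ty r1 0, ty r1 1, ty r2 0, ty r2 1, ty r3 0, ty r3 1]
  set W0 := Submodule.span (OO n)
    (Set.range ![ty r1 0, ty r1 1, ty r2 0, ty r2 1, ty r3 0, ty r3 1]) with hW0
  have w1 : ∀ b, ty r1 b ∈ W0 := fun b => by
    rcases z2_cases b with rfl | rfl
    exacts [Submodule.subset_span ⟨0, rfl⟩, Submodule.subset_span ⟨1, rfl⟩]
  have w2 : ∀ b, ty r2 b ∈ W0 := fun b => by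
    rcases z2_cases b with rfl | rfl
    exacts [Submodule.subset_span ⟨2, rfl⟩, Submodule.subset_span ⟨3, rfl⟩]
  have w3 : ∀ b, ty r3 b ∈ W0 := fun b => by
    rcases z2_cases b with rfl | rfl
    exacts [Submodule.subset_span ⟨4, rfl⟩, Submodule.subset_span ⟨5, rfl⟩]
  set J := Nn Tl \ I0 with hJ
  have hTJ : ∀ i ∈ J, Tl i ∈ ball S 1 ∧ (Tl i).g = 1 :=
    fun i hi => ⟨hT i, (mem_filter.1 (mem_sdiff.1 hi).1).2⟩
  set B := ∑ y ∈ sset Tl J, x ^ szJ J y with hB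
  have hAB : A ≤ B := by
    refine le_trans ?_ (sum_sset_ge Tl J hx.le hx1)
    rw [hA]
    refine AA_mono 2 hx.le ?_
    have := le_card_sdiff I0 (Nn Tl)
    rw [← hJ] at this
    omega
  have hA1 : 1 ≤ A := hA ▸ one_le_AA 2 hx.le _
  have e2 : ∀ r : El n k, r.g.b = 1 → r3.g * r.g = ⟨r3.g.a - r.g.a, 0⟩ := fun r hr => by
    ext1 <;> simp [b3, hr, z2_one_add_one, sub_eq_add_neg]
  have e3 : ∀ m : ℤ, (⟨m, 0⟩ : Dh) * r3.g = ⟨m + r3.g.a, 1⟩ := fun m => by ext1 <;> simp [b3]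
  set p1 : Fin 4 → Dh := ![1, r3.g, r3.g * r1.g, r3.g * r1.g * r3.g] with hp1
  set p2 : Fin 4 → Dh := ![1, r3.g, r3.g * r2.g, r3.g * r2.g * r3.g] with hp2
  have i1 : Function.Injective p1 := by
    rw [hp1, e2 r1 b1, e3]
    intro i j
    fin_cases i <;> fin_cases j <;> simp [Dh.ext_iff, b3] <;> omega
  have i2 : Function.Injective p2 := by
    rw [hp2, e2 r2 b2, e3]
    intro i j
    fin_cases i <;> fin_cases j <;> simp [Dh.ext_iff, b3] <;> omega
  have hj0 : ∀ j, p2 j ≠ p1 2 := by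
    rw [hp1, hp2, e2 r1 b1, e2 r2 b2, e3, e3]
    intro j
    fin_cases j <;> simp [Dh.ext_iff, b3] <;> omega
  set m0 := 2 * r3.g.a - r1.g.a - r2.g.a with hm0
  have hm : 0 < m0 := by omega
  let lo : ZMod 2 → ℤ := fun b => if b = 0 then 0 else r3.g.a
  have hl1 : ∀ j, lo (p1 j).b ≤ (p1 j).a ∧ (p1 j).a < lo (p1 j).b + m0 := by
    rw [hp1, e2 r1 b1, e3]
    intro j
    fin_cases j <;> simp [b3, lo] <;> omega
  have hl2 : ∀ j, lo (p2 j).b ≤ (p2 j).a ∧ (p2 j).a < lo (p2 j).b + m0 := by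
    rw [hp2, e2 r2 b2, e3]
    intro j
    fin_cases j <;> simp [b3, lo] <;> omega
  let σ : Fin 4 → Finset (Fin k → ℤ) :=
    Function.update (fun _ => sset Tl J) 2 ((sset Tl J).erase 0)
  have hσ : ∀ L ∈ Fintype.piFinset σ, (∀ j, L j ∈ sset Tl J) ∧ L 2 ≠ 0 := by
    intro L hL
    rw [Fintype.mem_piFinset] at hL
    have h0 := hL 2
    simp only [σ, Function.update_self, mem_erase] at h0
    refine ⟨fun j => ?_, h0.1⟩
    by_cases hj : j = 2
    · exact hj ▸ h0.2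
    · simpa [σ, Function.update_of_ne hj] using hL j
  have hσ2 : ∀ L ∈ Fintype.piFinset (fun _ : Fin 4 => sset Tl J), ∀ j, L j ∈ sset Tl J :=
    fun L hL j => Fintype.mem_piFinset.1 hL j
  have hsep : SepW W0 ((Fintype.piFinset σ).disjSum (Fintype.piFinset fun _ : Fin 4 => sset Tl J))
      (Sum.elim (cased3_f Tl J r3 r1 r3 r2) (cased3_f Tl J r3 r2 r3 r1)) := by
    refine sep_periodic (fun i : Fin k × ZMod 2 => ty (Tl i.1) i.2) W0 (fun i => i.1 ∉ I0)
      (fun c hc => hdrop c fun i hi b => hc (i, b) fun h => h hi) _ _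
      (Sum.elim (fun L => cased3_tr p1 (cased3_ln Tl J r3 r1 r3 L) L)
        (fun L => cased3_tr p2 (cased3_ln Tl J r3 r2 r3 L) L)) ?_ ?_ ?_
      (univ.image (fun j => (p1 j).a) ∪ univ.image (fun j => (p2 j).a)) ?_ ?_ m0 hm.ne' ?_
      (fun i => Set.Ico (lo i.2) (lo i.2 + m0)) ?_ ?_ ?_
    · rintro (L | L) hL i hi <;> rw [not_not] at hi
      · exact cased3_ok _ _ fun j => (cased3_mem ((hσ L (inl_mem_disjSum.1 hL)).1 j)).1 _
          fun h => (mem_sdiff.1 h).2 hi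
      · exact cased3_ok _ _ fun j => (cased3_mem (hσ2 L (inr_mem_disjSum.1 hL) j)).1 _
          fun h => (mem_sdiff.1 h).2 hi
    · rintro (L | L) hL
      · exact cased3_four Tl J (fun j => (cased3_mem ((hσ L (inl_mem_disjSum.1 hL)).1 j)).1)
          w3 w1 w3 w2
      · exact cased3_four Tl J (fun j => (cased3_mem (hσ2 L (inr_mem_disjSum.1 hL) j)).1)
          w3 w2 w3 w1
    · rintro (L | L) hL
      · exact cased3_bd i1 _ fun j => (cased3_mem ((hσ L (inl_mem_disjSum.1 hL)).1 j)).2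
      · exact cased3_bd i2 _ fun j => (cased3_mem (hσ2 L (inr_mem_disjSum.1 hL) j)).2
    · refine (card_union_le _ _).trans (le_trans (add_le_add card_image_le card_image_le) ?_)
      simpa using hn
    · rintro (L | L) - i a h <;> obtain ⟨j, hj⟩ := cased3_supp h
      · exact mem_union_left _ (mem_image.2 ⟨j, mem_univ _, by rw [hj]⟩)
      · exact mem_union_right _ (mem_image.2 ⟨j, mem_univ _, by rw [hj]⟩)
    · rintro (L | L) -
      · rw [Sum.elim_inl, cased3_f_g, e2 r1 b1, e3]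
        ext1 <;> simp [b2, z2_one_add_one]
        omega
      · rw [Sum.elim_inr, cased3_f_g, e2 r2 b2, e3]
        ext1 <;> simp [b1, z2_one_add_one]
        omega
    · rintro (L | L) - i a h <;> obtain ⟨j, hj⟩ := cased3_supp h
      · simpa [hj] using hl1 j
      · simpa [hj] using hl2 j
    · rintro i a ⟨c1, c2⟩ a' ⟨c3, c4⟩ m rfl
      by_contra hm'
      have h5 : |m * m0| < m0 := abs_lt.2 ⟨by omega, by omega⟩
      rw [abs_mul, abs_of_pos hm] at h5
      nlinarith [Int.one_le_abs hm']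
    · have hlr : ∀ L ∈ Fintype.piFinset σ, ∀ L' ε ε', cased3_tr p1 ε L ≠ cased3_tr p2 ε' L' := by
        intro L hL L' ε ε' h
        obtain ⟨i, hi⟩ := Function.ne_iff.1 (hσ L hL).2
        have c1 := cased3_read i1 ε L i 2
        rw [h] at c1
        obtain ⟨j, hj⟩ := cased3_supp (c1 ▸ mul_ne_zero (cased3_sgz_ne _) hi)
        exact hj0 j hj
      rintro (L | L) hL (L' | L') hL' h
      · exact congrArg _ (cased3_inj i1 Tl J _ _ _ h)
      · exact absurd h (hlr L (inl_mem_disjSum.1 hL) L' _ _)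
      · exact absurd h.symm (hlr L' (inl_mem_disjSum.1 hL') L _ _)
      · exact congrArg _ (cased3_inj i2 Tl J _ _ _ h)
  have h := block_lb he hx hxe _ _
    (Sum.elim (fun L => 4 + ∑ j, szJ J (L j)) fun L => 4 + ∑ j, szJ J (L j)) hsep.sep
    (by
      rintro (L | L) hL
      · exact cased3_ball hTJ (hσ L (inl_mem_disjSum.1 hL)).1 h3 h1 h3 h2
      · exact cased3_ball hTJ (hσ2 L (inr_mem_disjSum.1 hL)) h3 h2 h3 h1)
  simp only [sum_disjSum, Sum.elim_inl, Sum.elim_inr, cased3_sum, prod_const, card_univ,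
    Fintype.card_fin, ← hB] at h
  have c0 : ∑ y ∈ (sset Tl J).erase 0, x ^ szJ J y = B - 1 := by
    rw [hB, ← add_sum_erase _ _ (zero_mem_sset Tl J)]
    simp [szJ]
  have c2 : ∏ j, ∑ y ∈ σ j, x ^ szJ J y = B ^ 3 * (B - 1) := by
    rw [← prod_erase_mul _ _ (mem_univ 2), prod_congr rfl (g := fun _ => B)]
    · simp only [σ, Function.update_self, c0, prod_const,
        card_erase_of_mem (mem_univ (2 : Fin 4)), card_univ, Fintype.card_fin]
    · intro j hj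
      simp only [σ, Function.update_of_ne (mem_erase.1 hj).1, hB]
  rw [c2] at h
  have c3 : (x * A) ^ 4 + (x * A) ^ 3 * (x * (A - 1)) ≤
      (x * B) ^ 4 + (x * B) ^ 3 * (x * (B - 1)) := by
    have : 0 ≤ A - 1 := by linarith
    have : 0 ≤ B := by linarith
    gcongr
  have c4 : (x * B) ^ 4 + (x * B) ^ 3 * (x * (B - 1)) =
      x ^ 4 * (B ^ 3 * (B - 1)) + x ^ 4 * B ^ 4 := by ring
  linarith

end Pool.Agent.MP_646035_al.PC
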