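import Pool.Agent.MP_646035_al.PC.Mod

namespace Pool.Agent.MP_646035_al.PC

open Finset PT

variable {n k : ℕ} {Q : Type} [AddCommGroup Q] [DecidableEq Q] {e : Fin 2 → Q}

lemma slot_map {Q' : Type} [AddCommGroup Q'] [DecidableEq Q'] {e' : Fin 2 → Q'} {π : Q' → Q}
    (hπ : Mor e' e π) (q : Q') (i : Fin 4) :
    slot e (π q) i = Prod.map π id (slot e' q i) := by
  fin_cases i <;> simp [slot, hπ.sub]

section Aux

variable {Q' : Type} [AddCommGroup Q'] [DecidableEq Q'] {e' : Fin 2 → Q'} {π : Q' → Q}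

omit [DecidableEq Q] [DecidableEq Q'] in
lemma gcmap_add (hπ : Mor e' e π) (p : Q') : π (p + eT e') = π p + eT e := by
  unfold eT
  rw [← add_sub_assoc, hπ.sub, hπ, add_sub_assoc]

omit [DecidableEq Q] [DecidableEq Q'] in
lemma gcmap_sub (hπ : Mor e' e π) (p : Q') : π (p - eT e') = π p - eT e := by
  have := gcmap_add hπ (p - eT e')
  rw [sub_add_cancel] at this
  rw [this, add_sub_cancel_right]

omit [DecidableEq Q] [DecidableEq Q'] in
lemma gcmap_own (hπ : Mor e' e π) (p : Q') (d : Dg k) : π (p + ownO e' d) = π p + ownO e d := by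
  unfold ownO
  split_ifs
  · exact hπ p 0
  · rw [add_zero, add_zero]

omit [DecidableEq Q] [DecidableEq Q'] in
lemma gcmap_own' (hπ : Mor e' e π) (p : Q') (d : Dg k) : π (p - ownO e' d) = π p - ownO e d := by
  have := gcmap_own hπ (p - ownO e' d) d
  rw [sub_add_cancel] at this
  rw [this, add_sub_cancel_right]

lemma gcmap_str (hπ : Mor e' e π) (y : Q') : str e (π y) = (str e' y).image π := by
  simp only [str, image_insert, image_singleton, hπ y, gcmap_add hπ, gcmap_sub hπ]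

lemma gcmap_n0 (y : Q) (d : Dg k) : y - 0 + ownO e d ∈ str e y := by
  unfold ownO
  split_ifs <;> simp [str]

lemma gcmap_n1 (y : Q) (d : Dg k) : y - eT e + ownO e d ∈ str e y := by
  unfold ownO
  split_ifs
  · rw [sub_add_eq_add_sub]
    simp [str]
  · simp [str]

lemma gcmap_n2 (y : Q) (d : Dg k) : y - -eT e + ownO e d ∈ str e y := by
  unfold ownO
  split_ifs
  · have : y - -eT e + e 0 = y + e 1 := by
      unfold eT
      abel
    rw [this]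
    simp [str]
  · simp [str]

lemma gcmap_tr3 (X : Finset Q) : X ⊆ SS (tr3 e) X := fun q hq =>
  mem_SS.2 ⟨q, hq, by simp [tr3]⟩

lemma gcmap_slot_mem {X : Finset Q} {q : Q} (hq : q ∈ X) (i : Fin 4) : slot e q i ∈ slots e X :=
  mem_biUnion.2 ⟨q, hq, mem_image_of_mem _ (mem_univ i)⟩

lemma gcmap_slots_fst {X : Finset Q} {a : Ed Q} (ha : a ∈ slots e X) : a.1 ∈ SS (tr3 e) X := by
  obtain ⟨q, hq, h⟩ := mem_biUnion.1 ha
  obtain ⟨i, -, rfl⟩ := mem_image.1 h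
  refine mem_SS.2 ⟨q, hq, ?_⟩
  fin_cases i <;> simp [slot, tr3]

lemma gcmap_own_slot {X : Finset Q} {p : Q} (hp : p ∈ X) (j : Fin 2) : (p, j) ∈ slots e X := by
  fin_cases j
  · exact gcmap_slot_mem hp 2
  · exact gcmap_slot_mem hp 3

lemma gcmap_SS_mono {At : Type} (s : At → Finset Q) {A B : Finset At} (h : A ⊆ B) :
    SS s A ⊆ SS s B := fun _ hq => by
  obtain ⟨a, ha, h'⟩ := mem_SS.1 hq
  exact mem_SS.2 ⟨a, h ha, h'⟩

lemma gcmap_slots_mono {A B : Finset Q} (h : A ⊆ B) : slots e A ⊆ slots e B :=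
  biUnion_subset_biUnion_of_subset_left _ h

end Aux

lemma str_map {Q' : Type} [AddCommGroup Q'] [DecidableEq Q'] {e' : Fin 2 → Q'} {π : Q' → Q}
    (hπ : Mor e' e π) (V : Finset Q') :
    SS (str e) (V.image π) = (SS (str e') V).image π := by
  unfold SS
  rw [image_biUnion, biUnion_image]
  exact biUnion_congr rfl fun y _ => gcmap_str hπ y

lemma slots_map {Q' : Type} [AddCommGroup Q'] [DecidableEq Q'] {e' : Fin 2 → Q'} {π : Q' → Q}
    (hπ : Mor e' e π) (X : Finset Q') :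
    slots e (X.image π) = (slots e' X).image (Prod.map π id) := by
  unfold slots
  rw [image_biUnion, biUnion_image]
  refine biUnion_congr rfl fun q _ => ?_
  rw [image_image]
  exact image_congr fun i _ => slot_map hπ q i

lemma s1_map {Q' : Type} [AddCommGroup Q'] [DecidableEq Q'] {e' : Fin 2 → Q'} {π : Q' → Q}
    (hπ : Mor e' e π) (𝒳 : Finset (At1 Q')) :
    SS (s1 e) (𝒳.image (map1 π)) = (SS (s1 e') 𝒳).image π := by
  unfold SS
  rw [image_biUnion, biUnion_image]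
  refine biUnion_congr rfl fun α _ => ?_
  rcases α with a | y
  · simp [s1, map1, hπ a.1]
  · exact gcmap_str hπ y

section Aux2

variable {Q' : Type} [AddCommGroup Q'] [DecidableEq Q'] {e' : Fin 2 → Q'} {π : Q' → Q}

/-- `c'` is the pull back of `c` near `V`. -/
def gcmapPull (e' : Fin 2 → Q') (π : Q' → Q) (V : Finset Q') (c : Cf Q k) (c' : Cf Q' k) : Prop :=
  (∀ a ∈ slots e' (SS (str e') V), c.1 (Prod.map π id a) = c'.1 a) ∧
    ∀ q ∈ SS (str e') V, c.2 (π q) = c'.2 q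

/-- The pull back of a move. -/
def gcmapPhi (e' : Fin 2 → Q') (π : Q' → Q) (V : Finset Q') (δ : Cf Q k) : Cf Q' k :=
  (fun a => if a.1 ∈ V then δ.1 (π a.1, a.2) else 0,
    fun q => if q ∈ SS (str e') V then δ.2 (π q) else 0)

omit [AddCommGroup Q] [DecidableEq Q] in
lemma gcmap_pull_add {V : Finset Q'} {c δ : Cf Q k} {c' δ' : Cf Q' k}
    (h : gcmapPull e' π V c c') (h' : gcmapPull e' π V δ δ') :
    gcmapPull e' π V (c + δ) (c' + δ') :=
  ⟨fun a ha => congrArg₂ (· + ·) (h.1 a ha) (h'.1 a ha),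
    fun q hq => congrArg₂ (· + ·) (h.2 q hq) (h'.2 q hq)⟩

omit [DecidableEq Q] in
lemma gcmap_hs (hπ : Mor e' e π) {V : Finset Q'} {c : Cf Q k} {c' : Cf Q' k}
    (h : gcmapPull e' π V c c') {q : Q'} (hq : q ∈ SS (str e') V) :
    hs e c.1 (π q) = hs e' c'.1 q := by
  classical
  funext i
  unfold hs
  rw [slot_map hπ, h.1 _ (gcmap_slot_mem hq i)]

omit [AddCommGroup Q] [DecidableEq Q] in
lemma gcmap_ht {V : Finset Q'} {c : Cf Q k} {c' : Cf Q' k}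
    (h : gcmapPull e' π V c c') {p : Q'} (hp : p ∈ V) (j : Fin 2) : c.1 (π p, j) = c'.1 (p, j) :=
  h.1 (p, j) (gcmap_own_slot (subset_str V hp) j)

lemma gcmap_val (hπ : Mor e' e π) (B : ℕ) {V : Finset Q'} {c : Cf Q k} {c' : Cf Q' k}
    (h : gcmapPull e' π V c c') : Val B e (V.image π) c ↔ Val B e' V c' := by
  unfold Val
  rw [str_map hπ, forall_mem_image, forall_mem_image]
  refine and_congr (forall₂_congr fun p hp => forall_congr' fun j => ?_)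
    (forall₂_congr fun q hq => ?_)
  · rw [gcmap_ht h hp]
  · rw [gcmap_hs hπ h hq, h.2 q hq]

lemma gcmap_Ec (hπ : Mor e' e π) {V : Finset Q'} (hinj : Set.InjOn π (SS (str e') V : Finset Q'))
    {c : Cf Q k} {c' : Cf Q' k} (h : gcmapPull e' π V c c') :
    Ec e (V.image π) c = Ec e' V c' := by
  unfold Ec
  rw [str_map hπ, sum_image hinj, sum_product, sum_product,
    sum_image (hinj.mono (coe_subset.2 (subset_str V)))]
  refine congrArg₂ (· + ·) (sum_congr rfl fun p hp => sum_congr rfl fun j _ => ?_)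
    (sum_congr rfl fun q hq => ?_)
  · rw [gcmap_ht h hp]
  · rw [gcmap_hs hπ h hq, h.2 q hq]

lemma gcmap_pull {N : ℕ} {V : Finset Q'}
    (hinj : Set.InjOn π (SS (tr3 e') (SS (str e') V) : Finset Q')) {δ : Cf Q k}
    (hδ : δ ∈ Mv N e (V.image π)) : gcmapPull e' π V δ (gcmapPhi e' π V δ) := by
  obtain ⟨κ, h1, -, -⟩ := hδ
  refine ⟨fun a ha => ?_, fun q hq => (if_pos hq).symm⟩
  by_cases h : a.1 ∈ V
  · exact (if_pos h).symm
  · refine (h1 _ fun h' => h ?_).trans (if_neg h).symm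
    obtain ⟨y, hy, e1⟩ := mem_image.1 h'
    rwa [← hinj (gcmap_tr3 _ (subset_str V hy)) (gcmap_slots_fst ha) e1]

lemma gcmap_key (hπ : Mor e' e π) {V : Finset Q'}
    (hinj : Set.InjOn π (SS (str e') V : Finset Q')) {t' : Q'} {t : Q}
    (ht : ∀ p, π (p + t') = π p + t) {d : Dg k} (hs : ∀ y, y - t' + ownO e' d ∈ str e' y)
    {q : Q'} (hq : q ∈ SS (str e') V) (h : π (q + t') - ownO e d ∈ V.image π) :
    q + t' - ownO e' d ∈ V := by
  obtain ⟨y, hy, e1⟩ := mem_image.1 h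
  have e2 := ht (y - t')
  rw [sub_add_cancel, e1, ht] at e2
  have e3 : π (y - t' + ownO e' d) = π q := by
    rw [gcmap_own hπ, eq_sub_of_add_eq e2.symm]
    abel
  have e4 := hinj (mem_SS.2 ⟨y, hy, hs y⟩) hq e3
  rw [← e4]
  have : y - t' + ownO e' d + t' - ownO e' d = y := by abel
  rwa [this]

lemma gcmap_rep (hπ : Mor e' e π) {N : ℕ} {V : Finset Q'}
    (hinj : Set.InjOn π (SS (str e') V : Finset Q')) {δ : Cf Q k} {κ : Q → Dg k → ℤ}
    (h : Rep N e (V.image π) δ κ) : Rep N e' V (gcmapPhi e' π V δ)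
      fun q d => if q - ownO e' d ∈ V then κ (π q) d else 0 := by
  obtain ⟨-, h2, h3⟩ := h
  refine ⟨fun a ha => if_neg ha, fun q d hq => if_neg hq, funext fun q => funext fun d => ?_⟩
  have a0 : ∀ p, π (p + 0) = π p + 0 := fun p => by rw [add_zero, add_zero]
  have a2 : ∀ p, π (p + -eT e') = π p + -eT e := fun p => by
    rw [← sub_eq_add_neg, ← sub_eq_add_neg, gcmap_sub hπ]
  by_cases hq : q ∈ SS (str e') V
  · have k0 : ∀ (t' : Q') (t : Q), (∀ p, π (p + t') = π p + t) →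
        (∀ y, y - t' + ownO e' d ∈ str e' y) →
        (if q + t' - ownO e' d ∈ V then κ (π (q + t')) d else 0) = κ (π q + t) d := by
      intro t' t ht hs
      split_ifs with h
      · rw [ht]
      · rw [← ht]
        exact (h2 _ _ fun h' => h (gcmap_key hπ hinj ht hs hq h')).symm
    have k1 := k0 0 0 a0 fun y => gcmap_n0 y d
    have k2 := k0 _ _ (gcmap_add hπ) fun y => gcmap_n1 y d
    have k3 := k0 _ _ a2 fun y => gcmap_n2 y d
    rw [add_zero, add_zero] at k1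
    rw [← sub_eq_add_neg, ← sub_eq_add_neg] at k3
    simp only [gcmapPhi, if_pos hq, h3, carr, k1, k2, k3]
  · have k0 : ∀ t' : Q', (∀ y, y - t' + ownO e' d ∈ str e' y) → q + t' - ownO e' d ∉ V := by
      intro t' hs h
      have := hs (q + t' - ownO e' d)
      rw [show q + t' - ownO e' d - t' + ownO e' d = q by abel] at this
      exact hq (mem_SS.2 ⟨_, h, this⟩)
    have k1 := k0 0 fun y => gcmap_n0 y d
    have k2 := k0 _ fun y => gcmap_n1 y d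
    have k3 := k0 _ fun y => gcmap_n2 y d
    rw [add_zero] at k1
    rw [← sub_eq_add_neg] at k3
    simp only [gcmapPhi, if_neg hq, carr, if_neg k1, if_neg k2, if_neg k3, Pi.zero_apply,
      mul_zero, sub_zero]

lemma gcmap_inj (hπ : Mor e' e π) {N : ℕ} {V : Finset Q'} :
    Set.InjOn (gcmapPhi (k := k) e' π V) (Mv N e (V.image π)) := by
  intro δ hδ δ' hδ' h
  refine Prod.ext (funext fun a => ?_) (funext fun q => ?_)
  · by_cases ha : a.1 ∈ V.image π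
    · obtain ⟨y, hy, e1⟩ := mem_image.1 ha
      have := congrFun (congrArg Prod.fst h) (y, a.2)
      simp only [gcmapPhi, if_pos hy, e1] at this
      exact this
    · obtain ⟨κ, h1, -⟩ := hδ
      obtain ⟨κ', h1', -⟩ := hδ'
      rw [h1 a ha, h1' a ha]
  · by_cases hq : q ∈ SS (str e) (V.image π)
    · rw [str_map hπ] at hq
      obtain ⟨y, hy, rfl⟩ := mem_image.1 hq
      have := congrFun (congrArg Prod.snd h) y
      simp only [gcmapPhi, if_pos hy] at this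
      exact this
    · rw [(Mv_digit hδ hq).1, (Mv_digit hδ' hq).1]

lemma gcmap_surj (hπ : Mor e' e π) {N : ℕ} {V : Finset Q'}
    (hinj : Set.InjOn π (SS (str e') V : Finset Q')) {δ' : Cf Q' k} (h : δ' ∈ Mv N e' V) :
    ∃ δ ∈ Mv N e (V.image π), gcmapPhi e' π V δ = δ' := by
  obtain ⟨κ', h1, h2, h3⟩ := h
  have hι : ∀ y ∈ V, Function.invFunOn π V (π y) = y := fun y hy =>
    (hinj.mono (coe_subset.2 (subset_str V))).leftInvOn_invFunOn hy
  set ι := Function.invFunOn π V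
  set κ : Q → Dg k → ℤ := fun q d =>
    if q - ownO e d ∈ V.image π then κ' (ι (q - ownO e d) + ownO e' d) d else 0 with hκ
  have hr : Rep N e (V.image π)
      (fun a => if a.1 ∈ V.image π then δ'.1 (ι a.1, a.2) else 0, carr N e κ) κ :=
    ⟨fun a ha => if_neg ha, fun q d hq => if_neg hq, rfl⟩
  refine ⟨_, ⟨κ, hr⟩, Prod.ext (funext fun a => ?_) ?_⟩
  · by_cases ha : a.1 ∈ V
    · simp only [gcmapPhi, if_pos ha, if_pos (mem_image_of_mem π ha), hι _ ha]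
    · simp only [gcmapPhi, if_neg ha, h1 a ha]
  · rw [(gcmap_rep hπ hinj hr).2.2, h3]
    refine congrArg _ (funext fun q => funext fun d => ?_)
    split_ifs with hq
    · simp only [hκ, ← gcmap_own' hπ, if_pos (mem_image_of_mem π hq), hι _ hq, sub_add_cancel]
    · exact (h2 q d hq).symm

end Aux2

theorem Gc_map {Q' : Type} [AddCommGroup Q'] [DecidableEq Q'] {e' : Fin 2 → Q'} {π : Q' → Q}
    (hπ : Mor e' e π) (N B : ℕ) {V : Finset Q'}
    (hinj : Set.InjOn π (SS (tr3 e') (SS (str e') V) : Finset Q')) {c' : Cf Q' k} {c : Cf Q k}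
    (h1 : ∀ a ∈ slots e' (SS (str e') V), c.1 (Prod.map π id a) = c'.1 a)
    (h2 : ∀ q ∈ SS (str e') V, c.2 (π q) = c'.2 q) :
    Gc N B e (V.image π) c = Gc N B e' V c' := by
  have hi : Set.InjOn π (SS (str e') V : Finset Q') := hinj.mono (coe_subset.2 (gcmap_tr3 _))
  have hc : gcmapPull e' π V c c' := ⟨h1, h2⟩
  have hE := gcmap_Ec hπ hi hc
  have hP : ∀ δ ∈ Mv N e (V.image π), gcmapPull e' π V (c + δ) (c' + gcmapPhi e' π V δ) :=
    fun δ hδ => gcmap_pull_add hc (gcmap_pull hinj hδ)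
  have hA : ∀ δ ∈ Cl N B e (V.image π) c, gcmapPhi e' π V δ ∈ Cl N B e' V c' := fun δ hδ => by
    obtain ⟨κ, hκ⟩ := hδ.1
    exact ⟨⟨_, gcmap_rep hπ hi hκ⟩, (gcmap_val hπ B (hP δ hδ.1)).1 hδ.2⟩
  have hB : ∀ δ' ∈ Cl N B e' V c', ∃ δ ∈ Cl N B e (V.image π) c, gcmapPhi e' π V δ = δ' := by
    intro δ' hδ'
    obtain ⟨δ, hδ, rfl⟩ := gcmap_surj hπ hi hδ'.1
    exact ⟨δ, ⟨hδ, (gcmap_val hπ B (hP δ hδ)).2 hδ'.2⟩, rfl⟩
  have e1 : (∀ δ ∈ Cl N B e (V.image π) c, Ec e (V.image π) c ≤ Ec e (V.image π) (c + δ)) ↔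
      ∀ δ ∈ Cl N B e' V c', Ec e' V c' ≤ Ec e' V (c' + δ) := by
    constructor
    · intro h δ' hδ'
      obtain ⟨δ, hδ, rfl⟩ := hB δ' hδ'
      rw [← hE, ← gcmap_Ec hπ hi (hP δ hδ.1)]
      exact h δ hδ
    · intro h δ hδ
      rw [hE, gcmap_Ec hπ hi (hP δ hδ.1)]
      exact h _ (hA δ hδ)
  have e2 : {δ ∈ Cl N B e' V c' | Ec e' V (c' + δ) = Ec e' V c'} = gcmapPhi e' π V ''
      {δ ∈ Cl N B e (V.image π) c | Ec e (V.image π) (c + δ) = Ec e (V.image π) c} := by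
    ext δ'
    constructor
    · rintro ⟨hδ', h⟩
      obtain ⟨δ, hδ, rfl⟩ := hB δ' hδ'
      exact ⟨δ, ⟨hδ, by rw [hE, gcmap_Ec hπ hi (hP δ hδ.1), h]⟩, rfl⟩
    · rintro ⟨δ, ⟨hδ, h⟩, rfl⟩
      exact ⟨hA δ hδ, by rw [← hE, ← gcmap_Ec hπ hi (hP δ hδ.1), h]⟩
  unfold Gc
  rw [e2, Set.InjOn.ncard_image ((gcmap_inj hπ).mono fun δ hδ => hδ.1.1)]
  by_cases h : ∀ δ ∈ Cl N B e' V c', Ec e' V c' ≤ Ec e' V (c' + δ)
  · rw [if_pos h, if_pos (e1.2 h)]
  · rw [if_neg h, if_neg fun h' => h (e1.1 h')]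

theorem Kc_map {Q' : Type} [AddCommGroup Q'] [DecidableEq Q'] {e' : Fin 2 → Q'} {π : Q' → Q}
    (hπ : Mor e' e π) (N B : ℕ) {Y : Finset Q'}
    (hinj : Set.InjOn π (SS (tr3 e') (SS (str e') Y) : Finset Q')) {c' : Cf Q' k} {c : Cf Q k}
    (h1 : ∀ a ∈ slots e' (SS (str e') Y), c.1 (Prod.map π id a) = c'.1 a)
    (h2 : ∀ q ∈ SS (str e') Y, c.2 (π q) = c'.2 q) :
    Kc N B e (Y.image π) c = Kc N B e' Y c' := by
  have hYi : Set.InjOn π Y := hinj.mono (coe_subset.2 ((subset_str Y).trans (gcmap_tr3 _)))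
  unfold Kc
  rw [powerset_image, sum_image]
  · refine sum_congr rfl fun V hV => ?_
    have hV' := mem_powerset.1 hV
    have hS := gcmap_SS_mono (str e') hV'
    rw [Gc_map hπ N B (hinj.mono (coe_subset.2 (gcmap_SS_mono _ hS)))
      (fun a ha => h1 a (gcmap_slots_mono hS ha)) fun q hq => h2 q (hS hq),
      ← image_sdiff_of_injOn hYi hV', card_image_of_injOn (hYi.mono (coe_subset.2 sdiff_subset))]
  · intro A hA A' hA' h
    have k : ∀ {C C' : Finset Q'}, C ⊆ Y → C' ⊆ Y → C.image π = C'.image π → C ⊆ C' := by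
      intro C C' hC hC' h x hx
      obtain ⟨y, hy, e1⟩ := mem_image.1 (h ▸ mem_image_of_mem π hx)
      rwa [← hYi (hC' hy) (hC hx) e1]
    exact Subset.antisymm (k (mem_powerset.1 hA) (mem_powerset.1 hA') h)
      (k (mem_powerset.1 hA') (mem_powerset.1 hA) h.symm)

theorem Kc_congr (N B : ℕ) {Y : Finset Q} {c c' : Cf Q k}
    (h1 : ∀ a ∈ slots e (SS (str e) Y), c.1 a = c'.1 a)
    (h2 : ∀ q ∈ SS (str e) Y, c.2 q = c'.2 q) : Kc N B e Y c = Kc N B e Y c' := by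
  have := Kc_map (e := e) (e' := e) (π := id) (fun _ _ => rfl) N B (Set.injOn_id _) h1 h2
  rwa [image_id] at this

theorem PhiK_congr (N k B : ℕ) (x : ℝ) {Y : Finset Q} {H H' : Ed Q → ℤ}
    (h : ∀ a ∈ slots e (SS (str e) Y), H a = H' a) :
    PhiK N k B e x Y H = PhiK N k B e x Y H' := by
  have h1 : ∀ q ∈ SS (str e) Y, hs e H q = hs e H' q := fun q hq =>
    funext fun i => h _ (gcmap_slot_mem hq i)
  unfold PhiK
  refine sum_congr rfl fun y _ => ?_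
  have e1 : (∀ q ∈ SS (str e) Y, Okn B (hs e H q) (y q)) ↔
      ∀ q ∈ SS (str e) Y, Okn B (hs e H' q) (y q) := forall₂_congr fun q hq => by rw [h1 q hq]
  have e2 : ∑ q ∈ SS (str e) Y, nc (hs e H q) (y q) = ∑ q ∈ SS (str e) Y, nc (hs e H' q) (y q) :=
    sum_congr rfl fun q hq => by rw [h1 q hq]
  rw [Kc_congr N B (c := (H, y)) (c' := (H', y)) h fun _ _ => rfl, e2]
  by_cases k : ∀ q ∈ SS (str e) Y, Okn B (hs e H' q) (y q)
  · rw [if_pos k, if_pos (e1.2 k)]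
  · rw [if_neg k, if_neg fun k' => k (e1.1 k')]

end Pool.Agent.MP_646035_al.PC

namespace Pool.Agent.MP_646035_al.PC

open Finset PT

variable {n k : ℕ} {Q : Type} [AddCommGroup Q] [DecidableEq Q] {e : Fin 2 → Q}

lemma gcmul_SS_union (V₁ V₂ : Finset Q) :
    SS (str e) (V₁ ∪ V₂) = SS (str e) V₁ ∪ SS (str e) V₂ := by
  unfold SS
  exact union_biUnion

lemma gcmul_SS_mono {V V' : Finset Q} (h : V ⊆ V') : SS (str e) V ⊆ SS (str e) V' :=
  biUnion_subset_biUnion_of_subset_left _ h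

lemma gcmul_disj {V₁ V₂ : Finset Q} (h : Disjoint (SS (str e) V₁) (SS (str e) V₂)) :
    Disjoint V₁ V₂ := h.mono (subset_str V₁) (subset_str V₂)

lemma gcmul_pt {N : ℕ} {V₁ V₂ : Finset Q} (h : Disjoint (SS (str e) V₁) (SS (str e) V₂))
    (c : Cf Q k) {δ : Cf Q k} (hδ : δ ∈ Mv N e V₂) :
    (∀ p ∈ V₁, ∀ j, (c + δ).1 (p, j) = c.1 (p, j)) ∧
      ∀ q ∈ SS (str e) V₁, hs e (c + δ).1 q = hs e c.1 q ∧ (c + δ).2 q = c.2 q := by
  refine ⟨fun p hp j => ?_, fun q hq => ?_⟩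
  · obtain ⟨κ, h1, -, -⟩ := hδ
    have : δ.1 (p, j) = 0 := h1 (p, j) (disjoint_left.1 (gcmul_disj h) hp)
    simp [this]
  · obtain ⟨h2, h1⟩ := Mv_digit hδ (disjoint_left.1 h hq)
    refine ⟨funext fun i => ?_, by simp [h2]⟩
    have := congrFun h1 i
    simp only [hs, Pi.zero_apply] at this
    simp [hs, this]

lemma gcmul_val {N B : ℕ} {V₁ V₂ : Finset Q} (h : Disjoint (SS (str e) V₁) (SS (str e) V₂))
    (c : Cf Q k) {δ : Cf Q k} (hδ : δ ∈ Mv N e V₂) : Val B e V₁ (c + δ) ↔ Val B e V₁ c := by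
  obtain ⟨h1, h2⟩ := gcmul_pt h c hδ
  unfold Val
  refine and_congr (forall₂_congr fun p hp => forall_congr' fun j => by rw [h1 p hp j])
    (forall₂_congr fun q hq => by rw [(h2 q hq).1, (h2 q hq).2])

lemma gcmul_Ec {N : ℕ} {V₁ V₂ : Finset Q} (h : Disjoint (SS (str e) V₁) (SS (str e) V₂))
    (c : Cf Q k) {δ : Cf Q k} (hδ : δ ∈ Mv N e V₂) : Ec e V₁ (c + δ) = Ec e V₁ c := by
  obtain ⟨h1, h2⟩ := gcmul_pt h c hδ
  unfold Ec
  congr 1
  · refine sum_congr rfl fun a ha => ?_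
    rw [show a = (a.1, a.2) from rfl, h1 a.1 (mem_product.1 ha).1 a.2]
  · exact sum_congr rfl fun q hq => by rw [(h2 q hq).1, (h2 q hq).2]

lemma gcmul_Ec_union {V₁ V₂ : Finset Q} (h : Disjoint (SS (str e) V₁) (SS (str e) V₂))
    (c : Cf Q k) : Ec e (V₁ ∪ V₂) c = Ec e V₁ c + Ec e V₂ c := by
  unfold Ec
  rw [gcmul_SS_union, sum_union h, union_product,
    sum_union (disjoint_product.2 (Or.inl (gcmul_disj h)))]
  ring

lemma gcmul_val_union {B : ℕ} {V₁ V₂ : Finset Q} (c : Cf Q k) :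
    Val B e (V₁ ∪ V₂) c ↔ Val B e V₁ c ∧ Val B e V₂ c := by
  refine ⟨fun h => ⟨h.mono subset_union_left, h.mono subset_union_right⟩, fun h => ⟨?_, ?_⟩⟩
  · intro p hp j
    rcases mem_union.1 hp with hp | hp
    · exact h.1.1 p hp j
    · exact h.2.1 p hp j
  · intro q hq
    rw [gcmul_SS_union] at hq
    rcases mem_union.1 hq with hq | hq
    · exact h.1.2 q hq
    · exact h.2.2 q hq

lemma gcmul_split {N : ℕ} {V₁ V₂ : Finset Q} {δ : Cf Q k} (hδ : δ ∈ Mv N e (V₁ ∪ V₂)) :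
    ∃ δ₁ ∈ Mv N e V₁, ∃ δ₂ ∈ Mv N e V₂, δ₁ + δ₂ = δ := by
  obtain ⟨κ, h1, h2, h3⟩ := hδ
  refine ⟨(fun a => if a.1 ∈ V₁ then δ.1 a else 0,
      carr N e fun q d => if q - ownO e d ∈ V₁ then κ q d else 0),
    ⟨_, fun a ha => if_neg ha, fun q d hq => if_neg hq, rfl⟩,
    (fun a => if a.1 ∈ V₁ then 0 else δ.1 a,
      carr N e fun q d => if q - ownO e d ∈ V₁ then 0 else κ q d),
    ⟨_, fun a ha => ?_, fun q d hq => ?_, rfl⟩, ?_⟩
  · dsimp only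
    split_ifs with h
    · rfl
    · exact h1 a (by simp [h, ha])
  · split_ifs with h
    · rfl
    · exact h2 q d (by simp [h, hq])
  · refine Prod.ext (funext fun a => ?_) ?_
    · simp only [Prod.fst_add, Pi.add_apply]
      split_ifs <;> simp
    · rw [h3]
      funext q d
      simp only [Prod.snd_add, Pi.add_apply, carr]
      split_ifs <;> ring

lemma gcmul_zero {N : ℕ} {V₁ V₂ : Finset Q} (h : Disjoint (SS (str e) V₁) (SS (str e) V₂))
    {δ : Cf Q k} (h₁ : δ ∈ Mv N e V₁) (h₂ : δ ∈ Mv N e V₂) : δ = 0 := by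
  refine Prod.ext (funext fun a => ?_) (funext fun q => ?_)
  · obtain ⟨κ₁, a1, -, -⟩ := h₁
    obtain ⟨κ₂, a2, -, -⟩ := h₂
    by_cases ha : a.1 ∈ V₁
    · exact a2 a (disjoint_left.1 (gcmul_disj h) ha)
    · exact a1 a ha
  · by_cases hq : q ∈ SS (str e) V₁
    · exact (Mv_digit h₂ (disjoint_left.1 h hq)).1
    · exact (Mv_digit h₁ hq).1

theorem Gc_mul (N B : ℕ) {V₁ V₂ : Finset Q} (h : Disjoint (SS (str e) V₁) (SS (str e) V₂))
    {c : Cf Q k} (hc : Val B e (V₁ ∪ V₂) c) :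
    Gc N B e (V₁ ∪ V₂) c = Gc N B e V₁ c * Gc N B e V₂ c := by
  have hc1 : Val B e V₁ c := hc.mono subset_union_left
  have hc2 : Val B e V₂ c := hc.mono subset_union_right
  have hE0 := gcmul_Ec_union h c
  have hEn : ∀ δ₁ ∈ Mv N e V₁, ∀ δ₂ ∈ Mv N e V₂,
      Ec e (V₁ ∪ V₂) (c + (δ₁ + δ₂)) = Ec e V₁ (c + δ₁) + Ec e V₂ (c + δ₂) := by
    intro δ₁ h₁ δ₂ h₂
    rw [gcmul_Ec_union h]
    congr 1
    · rw [← add_assoc, gcmul_Ec h _ h₂]
    · rw [add_comm δ₁, ← add_assoc, gcmul_Ec h.symm _ h₁]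
  have hV : ∀ δ₁ ∈ Mv N e V₁, ∀ δ₂ ∈ Mv N e V₂,
      Val B e (V₁ ∪ V₂) (c + (δ₁ + δ₂)) ↔ Val B e V₁ (c + δ₁) ∧ Val B e V₂ (c + δ₂) := by
    intro δ₁ h₁ δ₂ h₂
    rw [gcmul_val_union]
    refine and_congr ?_ ?_
    · rw [← add_assoc, gcmul_val h _ h₂]
    · rw [add_comm δ₁, ← add_assoc, gcmul_val h.symm _ h₁]
  have hmem : ∀ δ₁ ∈ Cl N B e V₁ c, ∀ δ₂ ∈ Cl N B e V₂ c,
      δ₁ + δ₂ ∈ Cl N B e (V₁ ∪ V₂) c := fun δ₁ h₁ δ₂ h₂ =>
    ⟨Mv_add (Mv_mono subset_union_left h₁.1) (Mv_mono subset_union_right h₂.1),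
      (hV δ₁ h₁.1 δ₂ h₂.1).2 ⟨h₁.2, h₂.2⟩⟩
  have hsurj : ∀ δ ∈ Cl N B e (V₁ ∪ V₂) c, ∃ δ₁ ∈ Cl N B e V₁ c, ∃ δ₂ ∈ Cl N B e V₂ c,
      δ₁ + δ₂ = δ := by
    intro δ hδ
    obtain ⟨δ₁, h₁, δ₂, h₂, rfl⟩ := gcmul_split hδ.1
    have := (hV δ₁ h₁ δ₂ h₂).1 hδ.2
    exact ⟨δ₁, ⟨h₁, this.1⟩, δ₂, ⟨h₂, this.2⟩, rfl⟩
  have hi1 : (0 : Cf Q k) ∈ Cl N B e V₁ c := ⟨zero_mem_Mv N V₁, by rwa [add_zero]⟩
  have hi2 : (0 : Cf Q k) ∈ Cl N B e V₂ c := ⟨zero_mem_Mv N V₂, by rwa [add_zero]⟩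
  have hopt : (∀ δ ∈ Cl N B e (V₁ ∪ V₂) c, Ec e (V₁ ∪ V₂) c ≤ Ec e (V₁ ∪ V₂) (c + δ)) ↔
      (∀ δ ∈ Cl N B e V₁ c, Ec e V₁ c ≤ Ec e V₁ (c + δ)) ∧
        ∀ δ ∈ Cl N B e V₂ c, Ec e V₂ c ≤ Ec e V₂ (c + δ) := by
    refine ⟨fun hh => ⟨fun δ hδ => ?_, fun δ hδ => ?_⟩, fun hh δ hδ => ?_⟩
    · have := hh _ (hmem δ hδ _ hi2)
      rw [hEn δ hδ.1 _ hi2.1, hE0, add_zero c] at this
      omega
    · have := hh _ (hmem _ hi1 δ hδ)
      rw [hEn _ hi1.1 δ hδ.1, hE0, add_zero c] at this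
      omega
    · obtain ⟨δ₁, h₁, δ₂, h₂, rfl⟩ := hsurj δ hδ
      rw [hEn δ₁ h₁.1 δ₂ h₂.1, hE0]
      exact add_le_add (hh.1 δ₁ h₁) (hh.2 δ₂ h₂)
  unfold Gc
  by_cases o1 : ∀ δ ∈ Cl N B e V₁ c, Ec e V₁ c ≤ Ec e V₁ (c + δ)
  swap
  · rw [if_neg o1, if_neg fun hh => o1 (hopt.1 hh).1, zero_mul]
  by_cases o2 : ∀ δ ∈ Cl N B e V₂ c, Ec e V₂ c ≤ Ec e V₂ (c + δ)
  swap
  · rw [if_neg o2, if_neg fun hh => o2 (hopt.1 hh).2, mul_zero]
  rw [if_pos o1, if_pos o2, if_pos (hopt.2 ⟨o1, o2⟩), div_mul_div_comm, one_mul, ← Nat.cast_mul,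
    ← Set.ncard_prod]
  congr 2
  rw [← Set.InjOn.ncard_image (f := fun p : Cf Q k × Cf Q k => p.1 + p.2)]
  · congr 1
    ext δ
    simp only [Set.mem_ofPred_eq, Set.mem_image, Set.mem_prod]
    constructor
    · rintro ⟨hδ, hE⟩
      obtain ⟨δ₁, h₁, δ₂, h₂, rfl⟩ := hsurj δ hδ
      rw [hEn δ₁ h₁.1 δ₂ h₂.1, hE0] at hE
      have := o1 δ₁ h₁
      have := o2 δ₂ h₂
      exact ⟨(δ₁, δ₂), ⟨⟨h₁, by dsimp only; omega⟩, h₂, by dsimp only; omega⟩, rfl⟩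
    · rintro ⟨⟨δ₁, δ₂⟩, ⟨⟨h₁, e1⟩, h₂, e2⟩, rfl⟩
      refine ⟨hmem δ₁ h₁ δ₂ h₂, ?_⟩
      dsimp only at e1 e2 ⊢
      rw [hEn δ₁ h₁.1 δ₂ h₂.1, hE0, e1, e2]
  · rintro ⟨δ₁, δ₂⟩ ⟨⟨h₁, -⟩, h₂, -⟩ ⟨δ₁', δ₂'⟩ ⟨⟨h₁', -⟩, h₂', -⟩ heq
    dsimp only at h₁ h₂ h₁' h₂' heq
    have e1 : δ₁ + -δ₁' = δ₂' + -δ₂ := by
      rw [← sub_eq_add_neg, ← sub_eq_add_neg, sub_eq_sub_iff_add_eq_add, heq, add_comm]
    have z : δ₁ + -δ₁' = 0 :=
      gcmul_zero h (Mv_add h₁.1 (Mv_neg h₁'.1)) (e1 ▸ Mv_add h₂'.1 (Mv_neg h₂.1))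
    have z1 : δ₁ = δ₁' := by rwa [← sub_eq_add_neg, sub_eq_zero] at z
    have z2 : δ₂ = δ₂' := by
      rw [z1] at heq
      exact add_left_cancel heq
    rw [z1, z2]

theorem Kc_mul (N B : ℕ) {Y₁ Y₂ : Finset Q} (h : Disjoint (SS (str e) Y₁) (SS (str e) Y₂))
    {c : Cf Q k} (hc : Val B e (Y₁ ∪ Y₂) c) :
    Kc N B e (Y₁ ∪ Y₂) c = Kc N B e Y₁ c * Kc N B e Y₂ c := by
  have hY := gcmul_disj h
  unfold Kc
  rw [gbasic_sum_powerset_union hY, sum_mul_sum]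
  refine sum_congr rfl fun V₁ h₁ => sum_congr rfl fun V₂ h₂ => ?_
  rw [mem_powerset] at h₁ h₂
  have e1 : (Y₁ ∪ Y₂) \ (V₁ ∪ V₂) = Y₁ \ V₁ ∪ Y₂ \ V₂ := by
    ext x
    simp only [mem_sdiff, mem_union, not_or]
    have a := fun hx : x ∈ Y₁ => disjoint_left.1 hY hx
    have b := @h₁ x
    have d := @h₂ x
    exact ⟨fun ⟨h, h1, h2⟩ => h.imp (⟨·, h1⟩) (⟨·, h2⟩), fun h => h.elim
      (fun h => ⟨.inl h.1, h.2, fun k => a h.1 (d k)⟩)
      fun h => ⟨.inr h.1, fun k => a (b k) h.1, h.2⟩⟩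
  rw [Gc_mul N B (h.mono (gcmul_SS_mono h₁) (gcmul_SS_mono h₂))
    (hc.mono (union_subset_union h₁ h₂)), e1,
    card_union_of_disjoint (hY.mono sdiff_subset sdiff_subset), pow_add]
  ring

end Pool.Agent.MP_646035_al.PC

namespace Pool.Agent.MP_646035_al.PC

open Finset PT

variable {n k : ℕ} {Q : Type} [AddCommGroup Q] [DecidableEq Q] {e : Fin 2 → Q}

/-- The exchange of the two lamps. -/
def gcflip_sw (d : Dg k) : Dg k := if d.1 = none then (none, d.2 + 1) else d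

lemma gcflip_sw_sw (d : Dg k) : gcflip_sw (gcflip_sw d) = d := by
  obtain ⟨_ | i, s⟩ := d
  · simp only [gcflip_sw, if_true, add_assoc]
    rw [show (1 + 1 : ZMod 2) = 0 from rfl, add_zero]
  · simp [gcflip_sw]

/-- The flip of the digits of a node. -/
def gcflip_d (t : ZMod 2) (y : Dg k → ℤ) : Dg k → ℤ := fun d =>
  if t = 0 then y d else if d.1 = none then y (none, d.2 + 1) else -y d

/-- The flip of a height. -/
def gcflip_h (t : ZMod 2) (h : ℤ) : ℤ := if t = 0 then h else 1 - h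

/-- The linear part of the flip. -/
def gcflip_lin (τ : Ed Q → ZMod 2) (δ : Cf Q k) : Cf Q k :=
  (fun a => if τ a = 0 then δ.1 a else -δ.1 a, fun q => gcflip_d (τ (q, 0)) (δ.2 q))

lemma gcflip_dd (t : ZMod 2) (y : Dg k → ℤ) : gcflip_d t (gcflip_d t y) = y := by
  funext ⟨o, s⟩
  by_cases h : t = 0
  · simp [gcflip_d, h]
  · rcases o with _ | i
    · simp only [gcflip_d, h, if_true, if_false, add_assoc]
      rw [show (1 + 1 : ZMod 2) = 0 from rfl, add_zero]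
    · simp [gcflip_d, h]

lemma gcflip_hh (t : ZMod 2) (h : ℤ) : gcflip_h t (gcflip_h t h) = h := by
  unfold gcflip_h
  split_ifs <;> ring

lemma gcflip_d_zero (t : ZMod 2) : gcflip_d t (0 : Dg k → ℤ) = 0 := by
  funext d
  simp [gcflip_d]

lemma gcflip_abs (t : ZMod 2) (y : Dg k → ℤ) (d : Dg k) :
    |gcflip_d t y d| = |y (if t = 0 then d else gcflip_sw d)| := by
  unfold gcflip_d gcflip_sw
  split_ifs <;> simp

lemma gcflip_rho (t : ZMod 2) (h : ℤ) : rho (gcflip_h t h) = rho h := by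
  unfold gcflip_h rho
  split_ifs
  · rfl
  · omega

lemma gcflip_okn1 {B : ℕ} {h : Fin 4 → ℤ} {y : Dg k → ℤ} (t : ZMod 2) (H : Okn B h y) :
    Okn B (fun i => gcflip_h t (h i)) (gcflip_d t y) := by
  obtain ⟨h1, h2, h3⟩ := H
  refine ⟨fun d => gcflip_abs t y d ▸ h1 _, ?_, ?_⟩ <;> by_cases ht : t = 0
  · simpa [gcflip_d, gcflip_h, ht] using h2
  · simp only [gcflip_d, gcflip_h, ht, if_false, reduceCtorEq, sum_neg_distrib, h2]
    ring
  · simpa [gcflip_d, gcflip_h, ht] using h3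
  · simp only [gcflip_d, gcflip_h, ht, if_false, reduceCtorEq, sum_neg_distrib, h3]
    ring

lemma gcflip_okn {B : ℕ} {h : Fin 4 → ℤ} {y : Dg k → ℤ} (t : ZMod 2) :
    Okn B (fun i => gcflip_h t (h i)) (gcflip_d t y) ↔ Okn B h y :=
  ⟨fun H => by simpa only [gcflip_hh, gcflip_dd] using gcflip_okn1 t H, gcflip_okn1 t⟩

lemma gcflip_hard1 {h : Fin 4 → ℤ} {y : Dg k → ℤ} (t : ZMod 2) (H : Hard h y) :
    Hard (fun i => gcflip_h t (h i)) (gcflip_d t y) := by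
  obtain ⟨h1, h2⟩ := H
  refine ⟨fun i s => by simp [gcflip_d, h1], ?_⟩
  by_cases ht : t = 0
  · simpa [gcflip_d, gcflip_h, ht] using h2
  · simp only [gcflip_d, gcflip_h, ht, if_false, if_true, zero_add]
    rw [show (1 + 1 : ZMod 2) = 0 from rfl]
    rcases h2 with ⟨a, b, c⟩ | ⟨a, b, c⟩
    · exact Or.inr ⟨by omega, by omega, c⟩
    · exact Or.inl ⟨by omega, by omega, c⟩

lemma gcflip_nc (t : ZMod 2) (h : Fin 4 → ℤ) (y : Dg k → ℤ) :
    nc (fun i => gcflip_h t (h i)) (gcflip_d t y) = nc h y := by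
  have h1 : Hard (fun i => gcflip_h t (h i)) (gcflip_d t y) ↔ Hard h y :=
    ⟨fun H => by simpa only [gcflip_hh, gcflip_dd] using gcflip_hard1 t H, gcflip_hard1 t⟩
  have h2 : szJ univ (gcflip_d t y) = szJ univ y := by
    have h3 : ∀ d, (gcflip_d t y d).natAbs = (y (if t = 0 then d else gcflip_sw d)).natAbs :=
      fun d => Int.natAbs_eq_natAbs_iff.2 (abs_eq_abs.1 (gcflip_abs t y d))
    simp only [szJ, h3]
    split_ifs
    · rfl
    · exact Equiv.sum_comp (Function.Involutive.toPerm gcflip_sw gcflip_sw_sw)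
        fun d => (y d).natAbs
  classical
  rw [nc, nc, h2, if_congr h1 rfl rfl]

omit [AddCommGroup Q] [DecidableEq Q] in
lemma gcflip_add (τ : Ed Q → ZMod 2) (c δ : Cf Q k) :
    flp τ (c + δ) = flp τ c + gcflip_lin τ δ := by
  refine Prod.ext (funext fun a => ?_) (funext fun q => funext fun d => ?_)
  · simp only [flp, gcflip_lin, Prod.fst_add, Pi.add_apply]
    split_ifs <;> ring
  · simp only [flp, gcflip_lin, gcflip_d, Prod.snd_add, Pi.add_apply]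
    split_ifs <;> ring

omit [AddCommGroup Q] [DecidableEq Q] in
lemma gcflip_lin_lin (τ : Ed Q → ZMod 2) (δ : Cf Q k) : gcflip_lin τ (gcflip_lin τ δ) = δ := by
  refine Prod.ext (funext fun a => ?_) (funext fun q => gcflip_dd _ _)
  simp only [gcflip_lin]
  split_ifs <;> ring

section

variable {V : Finset Q} {τ : Ed Q → ZMod 2} (hτ : Flat e (SS (str e) V) τ)
include hτ

lemma gcflip_str {y q : Q} (hy : y ∈ V) (hq : q ∈ str e y) : τ (q, 0) = τ (y, 0) := by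
  have F : ∀ q ∈ str e y, ∀ i, τ (slot e q i) = τ (q, 0) := fun q hq =>
    hτ q (mem_SS.2 ⟨y, hy, hq⟩)
  have a0 : τ (y, 1) = τ (y, 0) := F y (by simp [mem_str]) 3
  have a1 : τ (y + e 0 - e 0, 0) = τ (y + e 0, 0) := F _ (by simp [mem_str]) 1
  have a2 : τ (y + e 1 - e 1, 1) = τ (y + e 1, 0) := F _ (by simp [mem_str]) 0
  have a3 : τ (y + e 1 - e 0, 0) = τ (y + e 1, 0) := F _ (by simp [mem_str]) 1
  have a4 : τ (y + e 0 - e 1, 1) = τ (y + e 0, 0) := F _ (by simp [mem_str]) 0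
  have a5 : τ (y - eT e, 1) = τ (y - eT e, 0) := F (y - eT e) (by simp [mem_str]) 3
  have a6 : τ (y + e 0 - eT e - e 0, 0) = τ (y + e 0 - eT e, 0) := F _ (by simp [mem_str]) 1
  rw [add_sub_cancel_right] at a1 a2
  rw [show y + e 1 - e 0 = y + eT e by rw [eT]; abel] at a3
  rw [show y + e 0 - e 1 = y - eT e by rw [eT]; abel] at a4
  rw [show y + e 0 - eT e - e 0 = y - eT e by abel] at a6
  rcases mem_str.1 hq with rfl | rfl | rfl | rfl | rfl | rfl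
  · rfl
  · exact a1.symm
  · exact a2.symm.trans a0
  · exact a3.trans (a2.symm.trans a0)
  · exact a5.symm.trans (a4.trans a1.symm)
  · exact a6.symm.trans (a5.symm.trans (a4.trans a1.symm))

lemma gcflip_near {κ : Q → Dg k → ℤ} (hκ : ∀ q d, q - ownO e d ∉ V → κ q d = 0) {q q' : Q}
    (h : q' = q - eT e ∨ q' = q + eT e) :
    gcflip_d (τ (q', 0)) (κ q') = gcflip_d (τ (q, 0)) (κ q') := by
  by_cases h0 : κ q' = 0
  · rw [h0, gcflip_d_zero, gcflip_d_zero]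
  obtain ⟨d, hd⟩ := Function.ne_iff.1 h0
  have hy : q' - ownO e d ∈ V := by_contra fun h => hd (hκ q' d h)
  have h1 : q' ∈ str e (q' - ownO e d) ∧ q ∈ str e (q' - ownO e d) := by
    simp only [mem_str, ownO, eT] at h ⊢
    split_ifs
    · refine ⟨Or.inr (Or.inl (by abel)), ?_⟩
      rcases h with rfl | rfl
      · exact Or.inr (Or.inr (Or.inl (by abel)))
      · exact Or.inr (Or.inr (Or.inr (Or.inr (Or.inr (by abel)))))
    · refine ⟨Or.inl (by abel), ?_⟩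
      rcases h with rfl | rfl
      · exact Or.inr (Or.inr (Or.inr (Or.inl (by abel))))
      · exact Or.inr (Or.inr (Or.inr (Or.inr (Or.inl (by abel)))))
  rw [gcflip_str hτ hy h1.1, gcflip_str hτ hy h1.2]

lemma gcflip_mv {N : ℕ} {δ : Cf Q k} (h : δ ∈ Mv N e V) : gcflip_lin τ δ ∈ Mv N e V := by
  obtain ⟨κ, h1, h2, h3⟩ := h
  refine ⟨fun q => gcflip_d (τ (q, 0)) (κ q), fun a ha => by simp [gcflip_lin, h1 a ha],
    fun q d hd => ?_, funext fun q => funext fun d => ?_⟩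
  · obtain ⟨_ | i, s⟩ := d
    · have : ∀ s, κ q (none, s) = 0 := fun s => h2 q _ (by simpa [ownO] using hd)
      simp [gcflip_d, this]
    · simp [gcflip_d, h2 q _ hd]
  · simp only [gcflip_lin, carr, h3]
    rw [gcflip_near hτ h2 (Or.inl rfl), gcflip_near hτ h2 (q := q) (Or.inr rfl)]
    simp only [gcflip_d, carr]
    split_ifs <;> ring

lemma gcflip_hs (c : Cf Q k) {q : Q} (hq : q ∈ SS (str e) V) :
    hs e (flp τ c).1 q = fun i => gcflip_h (τ (q, 0)) (hs e c.1 q i) := by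
  funext i
  rw [← hτ q hq i]
  rfl

lemma gcflip_okn' (B : ℕ) (c : Cf Q k) {q : Q} (hq : q ∈ SS (str e) V) :
    Okn B (hs e (flp τ c).1 q) ((flp τ c).2 q) ↔ Okn B (hs e c.1 q) (c.2 q) := by
  rw [gcflip_hs hτ c hq]
  exact gcflip_okn _

lemma gcflip_nc' (c : Cf Q k) {q : Q} (hq : q ∈ SS (str e) V) :
    nc (hs e (flp τ c).1 q) ((flp τ c).2 q) = nc (hs e c.1 q) (c.2 q) := by
  rw [gcflip_hs hτ c hq]
  exact gcflip_nc _ _ _

lemma gcflip_val (B : ℕ) (c : Cf Q k) : Val B e V (flp τ c) ↔ Val B e V c :=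
  and_congr (forall₂_congr fun p _ => forall_congr' fun j =>
    (gcflip_rho (τ (p, j)) (c.1 (p, j))) ▸ Iff.rfl)
    (forall₂_congr fun _ hq => gcflip_okn' hτ B c hq)

lemma gcflip_ec (c : Cf Q k) : Ec e V (flp τ c) = Ec e V c :=
  congrArg₂ (· + ·) (sum_congr rfl fun a _ => congrArg (2 * ·) (gcflip_rho (τ a) (c.1 a)))
    (sum_congr rfl fun _ hq => gcflip_nc' hτ c hq)

lemma gcflip_cl (N B : ℕ) (c δ : Cf Q k) :
    gcflip_lin τ δ ∈ Cl N B e V (flp τ c) ↔ δ ∈ Cl N B e V c :=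
  and_congr ⟨fun h => gcflip_lin_lin τ δ ▸ gcflip_mv hτ h, gcflip_mv hτ⟩
    (by rw [← gcflip_add, gcflip_val hτ])

end

theorem Gc_flp (N B : ℕ) {V : Finset Q} {τ : Ed Q → ZMod 2} (hτ : Flat e (SS (str e) V) τ)
    (c : Cf Q k) : Gc N B e V (flp τ c) = Gc N B e V c := by
  have hi : Function.Involutive (gcflip_lin (k := k) τ) := gcflip_lin_lin τ
  have h1 : (∀ δ ∈ Cl N B e V (flp τ c), Ec e V (flp τ c) ≤ Ec e V (flp τ c + δ)) ↔
      ∀ δ ∈ Cl N B e V c, Ec e V c ≤ Ec e V (c + δ) := by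
    rw [hi.surjective.forall]
    refine forall_congr' fun δ => ?_
    rw [gcflip_cl hτ, ← gcflip_add, gcflip_ec hτ, gcflip_ec hτ]
  have h2 : {δ ∈ Cl N B e V (flp τ c) | Ec e V (flp τ c + δ) = Ec e V (flp τ c)} =
      gcflip_lin τ '' {δ ∈ Cl N B e V c | Ec e V (c + δ) = Ec e V c} := by
    ext δ
    obtain ⟨δ, rfl⟩ := hi.surjective δ
    rw [hi.injective.mem_set_image, Set.mem_ofPred_eq, Set.mem_ofPred_eq, gcflip_cl hτ,
      ← gcflip_add, gcflip_ec hτ, gcflip_ec hτ]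
  classical
  rw [Gc, Gc, h2, Set.ncard_image_of_injective _ hi.injective, if_congr h1 rfl rfl]

theorem PhiK_flip (N k B : ℕ) (x : ℝ) {Y : Finset Q} {τ : Ed Q → ZMod 2}
    (hτ : Flat e (SS (str e) Y) τ) (σ : Ed Q → ZMod 2) (r : Ed Q → ℕ) :
    PhiK N k B e x Y (Hf (σ + τ) r) = PhiK N k B e x Y (Hf σ r) := by
  have hH : ∀ y : Q → Dg k → ℤ, Hf (σ + τ) r = (flp τ (Hf σ r, y)).1 := fun y => by
    funext a
    have : ∀ s t : ZMod 2, hgt (s + t) (r a) = if t = 0 then hgt s (r a) else 1 - hgt s (r a) := by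
      have h2 : ∀ s : ZMod 2, s = 0 ∨ s = 1 := by decide
      intro s t
      rcases h2 s with rfl | rfl <;> rcases h2 t with rfl | rfl <;>
        simp [hgt, show (1 + 1 : ZMod 2) = 0 from rfl]
    exact this _ _
  have hK : ∀ c : Cf Q k, Kc N B e Y (flp τ c) = Kc N B e Y c := fun c =>
    sum_congr rfl fun V hV => by
      rw [Gc_flp N B fun q hq => hτ q (biUnion_subset_biUnion_of_subset_left _
        (mem_powerset.1 hV) hq)]
  have hm : ∀ y ∈ asg 0 (SS (str e) Y) (dbox k B),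
      (fun q => gcflip_d (τ (q, 0)) (y q)) ∈ asg 0 (SS (str e) Y) (dbox k B) := fun y hy => by
    rw [mem_asg] at hy ⊢
    refine ⟨fun q hq => Fintype.mem_piFinset.2 fun d => mem_bx.2 ?_, fun q hq => ?_⟩
    · rw [gcflip_abs]
      exact mem_bx.1 (Fintype.mem_piFinset.1 (hy.1 q hq) _)
    · rw [hy.2 q hq, gcflip_d_zero]
  classical
  symm
  refine sum_nbij' (fun y q => gcflip_d (τ (q, 0)) (y q)) (fun y q => gcflip_d (τ (q, 0)) (y q))
    hm hm (fun y _ => funext fun q => gcflip_dd _ _) (fun y _ => funext fun q => gcflip_dd _ _)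
    fun y _ => ?_
  rw [hH y]
  refine if_congr (forall₂_congr fun q hq => (gcflip_okn' hτ B (Hf σ r, y) hq).symm) ?_ rfl
  exact congrArg₂ (· * ·) (congrArg (x ^ ·) (sum_congr rfl fun q hq =>
    (gcflip_nc' hτ (Hf σ r, y) hq).symm)) (hK (Hf σ r, y)).symm

end Pool.Agent.MP_646035_al.PC

namespace Pool.Agent.MP_646035_al.PC

open Finset PT

variable {n k : ℕ} {Q : Type} [AddCommGroup Q] [DecidableEq Q] {e : Fin 2 → Q}

lemma repa_mono {Y V : Finset Q} (h : Y ⊆ V) : SS (str e) Y ⊆ SS (str e) V := fun _ hq => by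
  obtain ⟨y, hy, hq⟩ := mem_SS.1 hq
  exact mem_SS.2 ⟨y, h hy, hq⟩

open Classical in
lemma repa_y (N k B : ℕ) (x : ℝ) {Y S : Finset Q} (h : SS (str e) Y ⊆ S) (H : Ed Q → ℤ) :
    (∑ y ∈ asg 0 S (dbox k B), if ∀ q ∈ S, Okn B (hs e H q) (y q) then
        x ^ (∑ q ∈ S, nc (hs e H q) (y q)) * Kc N B e Y (H, y) else 0) =
      PhiK N k B e x Y H * ∏ q ∈ S \ SS (str e) Y, FF k B x (hs e H q) := by
  obtain ⟨T, rfl, hd⟩ : ∃ T, S = SS (str e) Y ∪ T ∧ Disjoint (SS (str e) Y) T :=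
    ⟨S \ SS (str e) Y, (union_sdiff_of_subset h).symm, disjoint_sdiff⟩
  rw [union_sdiff_cancel_left hd, sum_asg_union 0 hd, PhiK]
  simp only [FF]
  rw [← sum_asg_prod 0 T (dbox k B)
    fun q y => if Okn B (hs e H q) y then x ^ nc (hs e H q) y else 0, sum_mul_sum]
  refine sum_congr rfl fun y₁ _ => sum_congr rfl fun y₂ _ => ?_
  have h1 : ∀ q ∈ SS (str e) Y, (SS (str e) Y).piecewise y₁ y₂ q = y₁ q :=
    fun q hq => piecewise_eq_of_mem _ _ _ hq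
  have h2 : ∀ q ∈ T, (SS (str e) Y).piecewise y₁ y₂ q = y₂ q :=
    fun q hq => piecewise_eq_of_notMem _ _ _ (disjoint_right.1 hd hq)
  have hK : Kc N B e Y (H, (SS (str e) Y).piecewise y₁ y₂) = Kc N B e Y (H, y₁) :=
    Kc_congr N B (fun _ _ => rfl) h1
  by_cases a : ∀ q ∈ SS (str e) Y, Okn B (hs e H q) (y₁ q)
  · by_cases b : ∀ q ∈ T, Okn B (hs e H q) (y₂ q)
    · rw [if_pos, if_pos a, hK, sum_union hd, sum_congr rfl fun q hq => by rw [h1 q hq],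
        sum_congr rfl (s₁ := T) fun q hq => by rw [h2 q hq],
        prod_congr rfl fun q hq => if_pos (b q hq), prod_pow_eq_pow_sum, pow_add]
      · ring
      · intro q hq
        rcases mem_union.1 hq with c | c
        · rw [h1 q c]
          exact a q c
        · rw [h2 q c]
          exact b q c
    · rw [if_neg]
      · push Not at b
        obtain ⟨q, hq, b⟩ := b
        rw [prod_eq_zero hq (if_neg b), mul_zero]
      · intro c
        exact b fun q hq => h2 q hq ▸ c q (mem_union_right _ hq)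
  · rw [if_neg, if_neg a, zero_mul]
    intro c
    exact a fun q hq => h1 q hq ▸ c q (mem_union_left _ hq)

lemma repa_r {α : Type} [DecidableEq α] (E : Finset α) (B : ℕ) (F : (α → ℕ) → ℝ) :
    ∑ r ∈ asg 0 E (range (B + 1)), F r = ∑ R ∈ E.powerset, ∑ r ∈ asg 0 R (Icc 1 B), F r := by
  classical
  rw [← sum_fiberwise_of_maps_to (s := asg 0 E (range (B + 1)))
    (g := fun r : α → ℕ => E.filter fun a => r a ≠ 0)
    (t := E.powerset) (fun r _ => mem_powerset.2 (filter_subset _ _)) F]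
  refine sum_congr rfl fun R hR => sum_congr ?_ fun _ _ => rfl
  have hR := mem_powerset.1 hR
  ext r
  simp only [mem_filter, mem_asg, mem_range, mem_Icc]
  constructor
  · rintro ⟨⟨a, b⟩, rfl⟩
    refine ⟨fun j hj => ?_, fun j hj => ?_⟩
    · have c := mem_filter.1 hj
      have d := a j c.1
      have f := c.2
      omega
    · by_cases c : j ∈ E
      · exact by_contra fun d => hj (mem_filter.2 ⟨c, d⟩)
      · exact b j c
  · rintro ⟨a, b⟩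
    refine ⟨⟨fun j _ => ?_, fun j hj => b j fun c => hj (hR c)⟩, ?_⟩
    · by_cases c : j ∈ R
      · have := a j c
        omega
      · have := b j c
        omega
    · ext j
      rw [mem_filter]
      refine ⟨fun c => by_contra fun d => c.2 (b j d), fun c => ⟨hR c, ?_⟩⟩
      have := a j c
      omega

lemma repa_sub1 (R : Finset (Ed Q)) (Y : Finset Q) :
    SS (str e) Y ⊆ SS (s1 e) (R.disjSum Y) := fun _ hq => by
  obtain ⟨y, hy, hq⟩ := mem_SS.1 hq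
  exact mem_SS.2 ⟨.inr y, inr_mem_disjSum.2 hy, hq⟩

lemma repa_sub2 {V Y : Finset Q} {R : Finset (Ed Q)} (hR : R ⊆ V ×ˢ univ) (hY : Y ⊆ V) :
    SS (s1 e) (R.disjSum Y) ⊆ SS (str e) V := fun q hq => by
  obtain ⟨a | y, ha, hq⟩ := mem_SS.1 hq
  · have h := (mem_product.1 (hR (inl_mem_disjSum.1 ha))).1
    refine mem_SS.2 ⟨a.1, h, mem_str.2 ?_⟩
    obtain ⟨p, j⟩ := a
    simp only [s1, mem_insert, mem_singleton] at hq
    rcases hq with hq | hq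
    · exact .inl hq
    · fin_cases j
      · exact .inr (.inl hq)
      · exact .inr (.inr (.inl hq))
  · exact mem_SS.2 ⟨y, hY (inr_mem_disjSum.1 ha), hq⟩

lemma repa_hs {R : Finset (Ed Q)} {Y : Finset Q} {r : Ed Q → ℕ} (hr : ∀ a ∉ R, r a = 0)
    (σ : Ed Q → ZMod 2) {q : Q} (hq : q ∉ SS (s1 e) (R.disjSum Y)) :
    hs e (Hf σ r) q = hs e (Hf σ 0) q := by
  funext i
  have : r (slot e q i) = 0 := hr _ fun h => hq (mem_SS.2 ⟨.inl (slot e q i),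
    inl_mem_disjSum.2 h, by
      simp only [s1, mem_insert, mem_singleton]
      exact (slot_end q i).imp Eq.symm Eq.symm⟩)
  simp only [hs, Hf, this, Pi.zero_apply]

theorem ZZ_eq_sum (N k B : ℕ) (x : ℝ) (V : Finset Q) :
    ZZ N k B e x V = ∑ σ ∈ asg 0 (slots e (SS (str e) V)) univ, ∑ 𝒳 ∈ (at1 V).powerset,
      Psw N k B e x 𝒳 σ * ∏ q ∈ SS (str e) V \ SS (s1 e) 𝒳, FF k B x (hs e (Hf σ 0) q) := by
  classical
  rw [ZZ, sum_cfg]
  refine sum_congr rfl fun σ _ => ?_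
  rw [at1, rep_sum_disjSum, repa_r]
  refine sum_congr rfl fun R hR => ?_
  have hR := mem_powerset.1 hR
  simp only [Psw, toLeft_disjSum, toRight_disjSum, sum_mul]
  rw [sum_comm (s := V.powerset)]
  refine sum_congr rfl fun r hr => ?_
  have hr := (mem_asg.1 hr).2
  have e1 : ∑ a ∈ V ×ˢ (univ : Finset (Fin 2)), 2 * rho (Hf σ r a) = ∑ a ∈ R, 2 * r a := by
    simp only [Hf, rho_hgt]
    exact (sum_subset hR fun a _ ha => by rw [hr a ha, mul_zero]).symm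
  have e2 : ∀ Y ∈ V.powerset, x ^ (∑ a ∈ R, 2 * r a) * PhiK N k B e x Y (Hf σ r) *
      (∏ q ∈ SS (s1 e) (R.disjSum Y) \ SS (str e) Y, FF k B x (hs e (Hf σ r) q)) *
      ∏ q ∈ SS (str e) V \ SS (s1 e) (R.disjSum Y), FF k B x (hs e (Hf σ 0) q) =
      ∑ y ∈ asg 0 (SS (str e) V) (dbox k B), x ^ (∑ a ∈ R, 2 * r a) *
        if ∀ q ∈ SS (str e) V, Okn B (hs e (Hf σ r) q) (y q) then
          x ^ (∑ q ∈ SS (str e) V, nc (hs e (Hf σ r) q) (y q)) * Kc N B e Y (Hf σ r, y)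
        else 0 := by
    intro Y hY
    have hY := mem_powerset.1 hY
    rw [← mul_sum _ _ (x ^ (∑ a ∈ R, 2 * r a)), repa_y N k B x (repa_mono hY), mul_assoc, mul_assoc,
      ← prod_congr rfl fun q hq => congrArg (FF k B x) (repa_hs hr σ (mem_sdiff.1 hq).2),
      ← prod_union, union_comm, sdiff_union_sdiff_cancel (repa_sub2 hR hY) (repa_sub1 R Y)]
    exact disjoint_left.2 fun q a b => (mem_sdiff.1 b).2 (mem_sdiff.1 a).1
  rw [sum_congr rfl e2, sum_comm]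
  refine sum_congr rfl fun y _ => ?_
  split_ifs with h
  · rw [← mul_sum _ _ (x ^ (∑ a ∈ R, 2 * r a)), ← mul_sum V.powerset, sum_Kc, Ec, pow_add, e1,
      mul_assoc]
  · simp

end Pool.Agent.MP_646035_al.PC

namespace Pool.Agent.MP_646035_al.PC

open Finset PT

variable {n k : ℕ} {Q : Type} [AddCommGroup Q] [DecidableEq Q] {e : Fin 2 → Q}

lemma repm_SS_union {Pt At : Type} [DecidableEq Pt] [DecidableEq At] (supp : At → Finset Pt)
    (A B : Finset At) : SS supp (A ∪ B) = SS supp A ∪ SS supp B := by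
  ext q
  simp only [mem_SS, mem_union]
  constructor
  · rintro ⟨a, ha | ha, hq⟩
    · exact .inl ⟨a, ha, hq⟩
    · exact .inr ⟨a, ha, hq⟩
  · rintro (⟨a, ha, hq⟩ | ⟨a, ha, hq⟩)
    · exact ⟨a, .inl ha, hq⟩
    · exact ⟨a, .inr ha, hq⟩

lemma repm_str_subset (𝒳 : Finset (At1 Q)) : SS (str e) 𝒳.toRight ⊆ SS (s1 e) 𝒳 := by
  intro q hq
  obtain ⟨y, hy, hq⟩ := mem_SS.1 hq
  exact mem_SS.2 ⟨.inr y, mem_toRight.1 hy, hq⟩

lemma repm_end {𝒳 : Finset (At1 Q)} {q : Q} {i : Fin 4} (h : slot e q i ∈ 𝒳.toLeft) :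
    q ∈ SS (s1 e) 𝒳 := by
  refine mem_SS.2 ⟨.inl (slot e q i), mem_toLeft.1 h, ?_⟩
  rcases slot_end (e := e) q i with h1 | h1
  · exact mem_insert.2 (.inl h1.symm)
  · exact mem_insert.2 (.inr (mem_singleton.2 h1.symm))

lemma repm_mem_slots {X : Finset Q} {a : Ed Q} (h : a ∈ slots e X) :
    ∃ q ∈ X, ∃ i, slot e q i = a := by
  obtain ⟨q, hq, ha⟩ := mem_biUnion.1 h
  obtain ⟨i, -, hi⟩ := mem_image.1 ha
  exact ⟨q, hq, i, hi⟩

theorem PhiK_empty (N k B : ℕ) (x : ℝ) (H : Ed Q → ℤ) : PhiK N k B e x ∅ H = 1 := by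
  simp [PhiK, SS, asg_empty, Kc_empty]

theorem Psw_empty (N k B : ℕ) (x : ℝ) (σ : Ed Q → ZMod 2) : Psw N k B e x ∅ σ = 1 := by
  have h1 : (∅ : Finset (At1 Q)).toLeft = ∅ := by ext; simp
  have h2 : (∅ : Finset (At1 Q)).toRight = ∅ := by ext; simp
  unfold Psw
  rw [h1, h2, asg_empty]
  simp [PhiK_empty, SS]

theorem PhiK_mul (N k B : ℕ) (x : ℝ) {Y₁ Y₂ : Finset Q}
    (h : Disjoint (SS (str e) Y₁) (SS (str e) Y₂)) {H : Ed Q → ℤ} (hH : ∀ a, rho (H a) ≤ B) :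
    PhiK N k B e x (Y₁ ∪ Y₂) H = PhiK N k B e x Y₁ H * PhiK N k B e x Y₂ H := by
  unfold PhiK
  rw [repm_SS_union, sum_asg_union 0 h, sum_mul_sum]
  refine sum_congr rfl fun y₁ _ => sum_congr rfl fun y₂ _ => ?_
  generalize hy : (SS (str e) Y₁).piecewise y₁ y₂ = y
  have e1 : ∀ q ∈ SS (str e) Y₁, y q = y₁ q := fun q hq => by
    rw [← hy]; exact piecewise_eq_of_mem _ _ _ hq
  have e2 : ∀ q ∈ SS (str e) Y₂, y q = y₂ q := fun q hq => by
    rw [← hy]; exact piecewise_eq_of_notMem _ _ _ (disjoint_right.1 h hq)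
  by_cases c1 : ∀ q ∈ SS (str e) Y₁, Okn B (hs e H q) (y₁ q)
  · by_cases c2 : ∀ q ∈ SS (str e) Y₂, Okn B (hs e H q) (y₂ q)
    · have c : ∀ q ∈ SS (str e) Y₁ ∪ SS (str e) Y₂, Okn B (hs e H q) (y q) := by
        intro q hq
        rcases mem_union.1 hq with hq | hq
        · rw [e1 q hq]; exact c1 q hq
        · rw [e2 q hq]; exact c2 q hq
      have hv : Val B e (Y₁ ∪ Y₂) ((H, y) : Cf Q k) :=
        ⟨fun p _ j => hH _, fun q hq => c q (by rwa [repm_SS_union] at hq)⟩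
      have k1 : Kc N B e Y₁ ((H, y) : Cf Q k) = Kc N B e Y₁ (H, y₁) :=
        Kc_congr N B (fun _ _ => rfl) e1
      have k2 : Kc N B e Y₂ ((H, y) : Cf Q k) = Kc N B e Y₂ (H, y₂) :=
        Kc_congr N B (fun _ _ => rfl) e2
      have s1 : ∑ q ∈ SS (str e) Y₁, nc (hs e H q) (y q) =
          ∑ q ∈ SS (str e) Y₁, nc (hs e H q) (y₁ q) := sum_congr rfl fun q hq => by rw [e1 q hq]
      have s2 : ∑ q ∈ SS (str e) Y₂, nc (hs e H q) (y q) =
          ∑ q ∈ SS (str e) Y₂, nc (hs e H q) (y₂ q) := sum_congr rfl fun q hq => by rw [e2 q hq]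
      rw [if_pos c, if_pos c1, if_pos c2, sum_union h, Kc_mul N B h hv, k1, k2, s1, s2, pow_add]
      ring
    · have c : ¬ ∀ q ∈ SS (str e) Y₁ ∪ SS (str e) Y₂, Okn B (hs e H q) (y q) := fun c =>
        c2 fun q hq => by rw [← e2 q hq]; exact c q (mem_union_right _ hq)
      rw [if_neg c, if_neg c2, mul_zero]
  · have c : ¬ ∀ q ∈ SS (str e) Y₁ ∪ SS (str e) Y₂, Okn B (hs e H q) (y q) := fun c =>
      c1 fun q hq => by rw [← e1 q hq]; exact c q (mem_union_left _ hq)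
    rw [if_neg c, if_neg c1, zero_mul]

theorem Psw_mul (N k B : ℕ) (x : ℝ) {𝒳₁ 𝒳₂ : Finset (At1 Q)}
    (h : Disjoint (SS (s1 e) 𝒳₁) (SS (s1 e) 𝒳₂)) (σ : Ed Q → ZMod 2) :
    Psw N k B e x (𝒳₁ ∪ 𝒳₂) σ = Psw N k B e x 𝒳₁ σ * Psw N k B e x 𝒳₂ σ := by
  have hL : Disjoint 𝒳₁.toLeft 𝒳₂.toLeft := by
    refine disjoint_left.2 fun a h1 h2 => ?_
    exact disjoint_left.1 h (mem_SS.2 ⟨.inl a, mem_toLeft.1 h1, mem_insert_self _ _⟩)
      (mem_SS.2 ⟨.inl a, mem_toLeft.1 h2, mem_insert_self _ _⟩)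
  have t1 := repm_str_subset (e := e) 𝒳₁
  have t2 := repm_str_subset (e := e) 𝒳₂
  have hR : Disjoint (SS (str e) 𝒳₁.toRight) (SS (str e) 𝒳₂.toRight) := h.mono t1 t2
  have hD : Disjoint (SS (s1 e) 𝒳₁ \ SS (str e) 𝒳₁.toRight)
      (SS (s1 e) 𝒳₂ \ SS (str e) 𝒳₂.toRight) := h.mono sdiff_subset sdiff_subset
  have hS : (SS (s1 e) 𝒳₁ ∪ SS (s1 e) 𝒳₂) \ (SS (str e) 𝒳₁.toRight ∪ SS (str e) 𝒳₂.toRight) =
      (SS (s1 e) 𝒳₁ \ SS (str e) 𝒳₁.toRight) ∪ (SS (s1 e) 𝒳₂ \ SS (str e) 𝒳₂.toRight) := by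
    ext q
    have a1 := @t1 q
    have a2 := @t2 q
    have a3 := @disjoint_left.1 h q
    simp only [mem_sdiff, mem_union, not_or]
    exact ⟨fun ⟨h, h1, h2⟩ => h.imp (⟨·, h1⟩) (⟨·, h2⟩), fun h => h.elim
      (fun h => ⟨.inl h.1, h.2, fun k => a3 h.1 (a2 k)⟩)
      fun h => ⟨.inr h.1, fun k => a3 (a1 k) h.1, h.2⟩⟩
  unfold Psw
  rw [toLeft_union, toRight_union, repm_SS_union, repm_SS_union, hS, sum_asg_union 0 hL,
    sum_mul_sum]
  refine sum_congr rfl fun r₁ h₁ => sum_congr rfl fun r₂ h₂ => ?_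
  generalize hr : 𝒳₁.toLeft.piecewise r₁ r₂ = r
  have m₁ := mem_asg.1 h₁
  have m₂ := mem_asg.1 h₂
  have e1 : ∀ a ∈ 𝒳₁.toLeft, r a = r₁ a := fun a ha => by
    rw [← hr]; exact piecewise_eq_of_mem _ _ _ ha
  have e2 : ∀ a ∉ 𝒳₁.toLeft, r a = r₂ a := fun a ha => by
    rw [← hr]; exact piecewise_eq_of_notMem _ _ _ ha
  have f1 : ∀ q ∈ SS (s1 e) 𝒳₁, ∀ i, r (slot e q i) = r₁ (slot e q i) := by
    intro q hq i
    by_cases ha : slot e q i ∈ 𝒳₁.toLeft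
    · exact e1 _ ha
    · rw [e2 _ ha, m₁.2 _ ha]
      exact m₂.2 _ fun hb => disjoint_left.1 h hq (repm_end hb)
  have f2 : ∀ q ∈ SS (s1 e) 𝒳₂, ∀ i, r (slot e q i) = r₂ (slot e q i) := by
    intro q hq i
    exact e2 _ fun hb => disjoint_left.1 h (repm_end hb) hq
  have hH : ∀ a, rho (Hf σ r a) ≤ B := by
    intro a
    show rho (hgt (σ a) (r a)) ≤ B
    rw [rho_hgt]
    by_cases ha : a ∈ 𝒳₁.toLeft
    · rw [e1 a ha]; exact (mem_Icc.1 (m₁.1 a ha)).2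
    · rw [e2 a ha]
      by_cases hb : a ∈ 𝒳₂.toLeft
      · exact (mem_Icc.1 (m₂.1 a hb)).2
      · rw [m₂.2 a hb]; exact Nat.zero_le _
  have p1 : PhiK N k B e x 𝒳₁.toRight (Hf σ r) = PhiK N k B e x 𝒳₁.toRight (Hf σ r₁) := by
    refine PhiK_congr N k B x fun a ha => ?_
    obtain ⟨q, hq, i, rfl⟩ := repm_mem_slots ha
    show hgt _ _ = hgt _ _
    rw [f1 q (t1 hq) i]
  have p2 : PhiK N k B e x 𝒳₂.toRight (Hf σ r) = PhiK N k B e x 𝒳₂.toRight (Hf σ r₂) := by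
    refine PhiK_congr N k B x fun a ha => ?_
    obtain ⟨q, hq, i, rfl⟩ := repm_mem_slots ha
    show hgt _ _ = hgt _ _
    rw [f2 q (t2 hq) i]
  have g1 : ∀ q ∈ SS (s1 e) 𝒳₁, hs e (Hf σ r) q = hs e (Hf σ r₁) q := fun q hq =>
    funext fun i => by
      show hgt _ _ = hgt _ _
      rw [f1 q hq i]
  have g2 : ∀ q ∈ SS (s1 e) 𝒳₂, hs e (Hf σ r) q = hs e (Hf σ r₂) q := fun q hq =>
    funext fun i => by
      show hgt _ _ = hgt _ _
      rw [f2 q hq i]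
  have q1 : ∏ q ∈ SS (s1 e) 𝒳₁ \ SS (str e) 𝒳₁.toRight, FF k B x (hs e (Hf σ r) q) =
      ∏ q ∈ SS (s1 e) 𝒳₁ \ SS (str e) 𝒳₁.toRight, FF k B x (hs e (Hf σ r₁) q) :=
    prod_congr rfl fun q hq => by rw [g1 q (mem_sdiff.1 hq).1]
  have q2 : ∏ q ∈ SS (s1 e) 𝒳₂ \ SS (str e) 𝒳₂.toRight, FF k B x (hs e (Hf σ r) q) =
      ∏ q ∈ SS (s1 e) 𝒳₂ \ SS (str e) 𝒳₂.toRight, FF k B x (hs e (Hf σ r₂) q) :=
    prod_congr rfl fun q hq => by rw [g2 q (mem_sdiff.1 hq).1]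
  have s1' : ∑ a ∈ 𝒳₁.toLeft, 2 * r a = ∑ a ∈ 𝒳₁.toLeft, 2 * r₁ a :=
    sum_congr rfl fun a ha => by rw [e1 a ha]
  have s2' : ∑ a ∈ 𝒳₂.toLeft, 2 * r a = ∑ a ∈ 𝒳₂.toLeft, 2 * r₂ a :=
    sum_congr rfl fun a ha => by rw [e2 a (disjoint_right.1 hL ha)]
  rw [sum_union hL, prod_union hD, PhiK_mul N k B x hR hH, p1, p2, q1, q2, s1', s2', pow_add]
  ring

end Pool.Agent.MP_646035_al.PC
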