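import Pool.Agent.MP_646035_al.PC.W
import Pool.Agent.MP_646035_al.PC.Alg

namespace Pool.Agent.MP_646035_al.PC

open Finset PT

variable {n k : ℕ} {Q : Type} [AddCommGroup Q] [DecidableEq Q] {e : Fin 2 → Q}

lemma sitep_mem {Yl : Option (Fin k) → El n k} {Sp : Finset (Option (Fin k))}
    {al : Finset ((Option (Fin k) × ZMod 2) × Bool)} {s : ZMod 2} {ω : St0 k} :
    ω ∈ pset Yl Sp al s ↔ ω.2 ∈ asg 0 Spᶜ (bx 2) ∧
      (tch Yl univ (dig ω) = 0 ∨ tch Yl univ (dig ω) = 1) ∧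
      ∀ o ε φ, ω.1 = some (o, ε, φ) → ((o, s), φ) ∈ al ∧
        ((Yl o).s = 0 → φ = true → ∃ o', (Yl o').s = 1 ∧ ω.2 o' ≠ 0) := by
  unfold pset
  simp only [mem_filter, mem_product, mem_univ, true_and]

lemma sitep_mem_sset {ι : Type} [DecidableEq ι] {Tl : ι → El n k} {J : Finset ι} {y : ι → ℤ} :
    y ∈ sset Tl J ↔ y ∈ asg 0 J (bx 2) ∧ (tch Tl J y = 0 ∨ tch Tl J y = 1) := by
  unfold sset
  rw [mem_filter]

lemma sitep_sz {ι : Type} [DecidableEq ι] {J J' : Finset ι} (h : J ⊆ J') {y : ι → ℤ}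
    (hy : ∀ i ∉ J, y i = 0) : szJ J' y = szJ J y :=
  (sum_subset h fun i _ hi => by rw [hy i hi]; rfl).symm

lemma sitep_tch {ι : Type} [DecidableEq ι] (Tl : ι → El n k) {J J' : Finset ι} (h : J ⊆ J')
    {y : ι → ℤ} (hy : ∀ i ∉ J, y i = 0) : tch Tl J' y = tch Tl J y := by
  unfold tch
  refine (sum_subset (filter_subset_filter _ h) fun i hi hi' => hy i fun hJ => hi' ?_).symm
  exact mem_filter.2 ⟨hJ, (mem_filter.1 hi).2⟩

lemma sitep_tch_add {ι : Type} [DecidableEq ι] [Fintype ι] (Tl : ι → El n k) (y : ι → ℤ) (o : ι)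
    (c : ℤ) : tch Tl univ (fun i => y i + if o = i then c else 0) =
      tch Tl univ y + if (Tl o).s = 1 then c else 0 := by
  unfold tch
  rw [sum_add_distrib, sum_ite_eq]
  simp only [mem_filter, mem_univ, true_and]

lemma sitep_sum_add {ι : Type} [DecidableEq ι] [Fintype ι] (w : ι → Wm n k) (y : ι → ℤ) (o : ι)
    (c : ℤ) : ∑ i, (y i + if o = i then c else 0) • w i = ∑ i, y i • w i + c • w o := by
  simp only [add_smul, sum_add_distrib, ite_smul, zero_smul, sum_ite_eq, mem_univ, if_true]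

lemma sitep_sz_add {ι : Type} [DecidableEq ι] [Fintype ι] (y : ι → ℤ) (o : ι) (c : ℤ) :
    szJ univ (fun i => y i + if o = i then c else 0) + (y o).natAbs =
      szJ univ y + (y o + c).natAbs := by
  unfold szJ
  rw [← add_sum_erase univ _ (mem_univ o), ← add_sum_erase univ _ (mem_univ o)]
  dsimp only
  rw [if_pos rfl]
  have : ∑ i ∈ univ.erase o, (y i + if o = i then c else 0).natAbs =
      ∑ i ∈ univ.erase o, (y i).natAbs :=
    sum_congr rfl fun i hi => by rw [if_neg (ne_of_mem_erase hi).symm, add_zero]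
  rw [this]
  ring

lemma sitep_natAbs_sgz (ε : ZMod 2) : (sgz ε).natAbs = 1 := by revert ε; decide

lemma sitep_dig_none (y : Option (Fin k) → ℤ) : dig ((none, y) : St0 k) = y := by
  funext o; simp [dig]

lemma sitep_dig_some (o : Option (Fin k)) (ε : ZMod 2) (φ : Bool) (y : Option (Fin k) → ℤ) :
    dig ((some (o, ε, φ), y) : St0 k) = fun i => y i + if o = i then sgz ε else 0 := rfl

lemma sitep_asg_univ {ι : Type} [DecidableEq ι] [Fintype ι] {J : Finset ι} {y : ι → ℤ}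
    (hy : y ∈ asg 0 J (bx 2)) (i : ι) : |y i| ≤ 2 := by
  rw [mem_asg] at hy
  by_cases hi : i ∈ J
  · exact_mod_cast mem_bx.1 (hy.1 i hi)
  · rw [hy.2 i hi]; norm_num

lemma sitep_mem_asg_univ {ι : Type} [DecidableEq ι] [Fintype ι] {y : ι → ℤ}
    (hy : ∀ i, |y i| ≤ 2) : y ∈ asg 0 (univ : Finset ι) (bx 2) :=
  mem_asg.2 ⟨fun i _ => mem_bx.2 (by exact_mod_cast hy i), fun i hi => absurd (mem_univ i) hi⟩

/-- A letter without toggle applied in the other lane. -/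
lemma sitep_other {S : Finset (El n k)} {Yl : Option (Fin k) → El n k} (hZ : Z1 S Yl)
    {y : Option (Fin k) → ℤ} (hy : ∀ i, |y i| ≤ 2)
    (hc : tch Yl univ y = 0 ∨ tch Yl univ y = 1) (hne : ∃ o', (Yl o').s = 1 ∧ y o' ≠ 0)
    {v : Wm n k} (hv : mm v ∈ ball S 1) :
    (⟨∑ o, y o • (Yl o).w + iot 1 v, 1, (tch Yl univ y : ZMod 2)⟩ : El n k) ∈
      ball S (szJ univ y + 1) := by
  have hT : ∀ i ∈ (univ : Finset (Option (Fin k))), Yl i ∈ ball S 1 ∧ (Yl i).g = 1 :=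
    fun i _ => ⟨hZ.hY i, hZ.hg i⟩
  have key : ∀ y : Option (Fin k) → ℤ, (∀ i, |y i| ≤ 2) → tch Yl univ y = 1 →
      (⟨∑ o, y o • (Yl o).w + iot 1 v, 1, 1⟩ : El n k) ∈ ball S (szJ univ y + 1) := by
    intro y hy h1
    have h2 := mul_mem_ball
      (sw_mem_ball Yl univ hT (sitep_mem_sset.2 ⟨sitep_mem_asg_univ hy, Or.inr h1⟩)) hv
    have h3 : sw Yl univ y * mm v = ⟨∑ o, y o • (Yl o).w + iot 1 v, 1, 1⟩ := by
      ext1
      · simp only [mul_w, sw, mm, h1, Int.cast_one, aw_one]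
      · simp only [mul_g, sw, mm, mul_one]
      · simp only [mul_s, sw, mm, h1, Int.cast_one, add_zero]
    rwa [h3] at h2
  rcases hc with h0 | h1
  · obtain ⟨j, hj1, hj2⟩ : ∃ j, (Yl j).s = 1 ∧ y j < 0 := by
      by_contra hcon
      push Not at hcon
      obtain ⟨o', ho1, ho2⟩ := hne
      unfold tch at h0
      rw [sum_eq_zero_iff_of_nonneg fun i hi => hcon i (mem_filter.1 hi).2] at h0
      exact ho2 (h0 o' (mem_filter.2 ⟨mem_univ _, ho1⟩))
    have h2 := key (fun i => y i + if j = i then 1 else 0) (fun i => by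
      have := hy i
      by_cases h : j = i
      · subst h
        rw [if_pos rfl, abs_le]
        rw [abs_le] at this
        omega
      · rwa [if_neg h, add_zero]) (by rw [sitep_tch_add, h0, if_pos hj1, zero_add])
    have h3 := mul_mem_ball h2 (inv_mem_ball (hZ.hY j))
    have h4 := sitep_sz_add y j 1
    have h5 : szJ univ (fun i => y i + if j = i then 1 else 0) + 1 + 1 = szJ univ y + 1 := by
      omega
    rw [h5, sitep_sum_add (fun i => (Yl i).w)] at h3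
    have h6 : (⟨∑ i, y i • (Yl i).w + (1 : ℤ) • (Yl j).w + iot 1 v, 1, 1⟩ : El n k) * (Yl j)⁻¹ =
        ⟨∑ o, y o • (Yl o).w + iot 1 v, 1, (tch Yl univ y : ZMod 2)⟩ := by
      ext1
      · simp only [mul_w, inv_w, hZ.hg j, hj1, inv_one, aw_one, map_neg, iot_iot,
          z2_one_add_one, iot_zero, one_smul]
        abel
      · simp only [mul_g, inv_g, hZ.hg j, inv_one, mul_one]
      · simp only [mul_s, inv_s, hj1, h0, z2_one_add_one, Int.cast_zero]
    rwa [h6] at h3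
  · have := key y hy h1
    rwa [h1, Int.cast_one]

theorem se_mem_ball {S : Finset (El n k)} {Yl : Option (Fin k) → El n k} (hZ : Z1 S Yl)
    {Sp : Finset (Option (Fin k))} {al : Finset ((Option (Fin k) × ZMod 2) × Bool)}
    (hal : ∀ a ∈ al, a.1.1 ∈ Sp) {s : ZMod 2} {ω : St0 k} (hω : ω ∈ pset Yl Sp al s) :
    se Yl ω ∈ ball S (scost ω) := by
  have hT : ∀ i ∈ (univ : Finset (Option (Fin k))), Yl i ∈ ball S 1 ∧ (Yl i).g = 1 :=
    fun i _ => ⟨hZ.hY i, hZ.hg i⟩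
  obtain ⟨hy, hc, hsp⟩ := sitep_mem.1 hω
  obtain ⟨t, y⟩ := ω
  dsimp only at hy hsp
  have hy2 := sitep_asg_univ hy
  rcases t with _ | ⟨o, ε, φ⟩
  · rw [sitep_dig_none] at hc
    have h1 := sw_mem_ball Yl univ hT (sitep_mem_sset.2 ⟨sitep_mem_asg_univ hy2, hc⟩)
    have h2 : se Yl (none, y) = sw Yl univ y := by
      unfold se sw
      rw [sitep_dig_none]
      simp only [Option.elim_none, sub_zero]
    have h3 : scost ((none, y) : St0 k) = szJ univ y := by simp [scost]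
    rw [h2, h3]
    exact h1
  · obtain ⟨hmem, hex⟩ := hsp o ε φ rfl
    have ho : y o = 0 := (mem_asg.1 hy).2 o (by simpa using hal _ hmem)
    have h3 : scost ((some (o, ε, φ), y) : St0 k) = szJ univ y + 1 := by simp [scost]
    have hsz : szJ univ (dig ((some (o, ε, φ), y) : St0 k)) = szJ univ y + 1 := by
      have := sitep_sz_add y o (sgz ε)
      rw [ho, zero_add, sitep_natAbs_sgz] at this
      rw [sitep_dig_some]
      simpa using this
    have hd : ∀ i, |dig ((some (o, ε, φ), y) : St0 k) i| ≤ 2 := by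
      intro i
      rw [sitep_dig_some]
      by_cases h : o = i
      · subst h
        dsimp only
        rw [if_pos rfl, ho, zero_add, Int.abs_eq_natAbs, sitep_natAbs_sgz]
        norm_num
      · dsimp only
        rw [if_neg h, add_zero]
        exact hy2 i
    rw [h3]
    cases φ with
    | false =>
      have h1 := sw_mem_ball Yl univ hT (sitep_mem_sset.2 ⟨sitep_mem_asg_univ hd, hc⟩)
      have h2 : se Yl (some (o, ε, false), y) = sw Yl univ (dig (some (o, ε, false), y)) := by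
        unfold se sw
        simp only [Option.elim_some, Bool.false_eq_true, if_false, sub_zero]
      rw [h2, ← hsz]
      exact h1
    | true =>
      rcases z2_cases (Yl o).s with hs | hs
      · have hm : mm (Yl o).w ∈ ball S 1 := by
          have : mm (Yl o).w = Yl o := by
            ext1
            · rfl
            · exact (hZ.hg o).symm
            · exact hs.symm
          rw [this]
          exact hZ.hY o
        have hv := mm_zsmul_mem hm (-sgz ε)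
        rw [Int.natAbs_neg, sitep_natAbs_sgz] at hv
        have ht : tch Yl univ (dig ((some (o, ε, true), y) : St0 k)) = tch Yl univ y := by
          rw [sitep_dig_some, sitep_tch_add, hs, if_neg zero_ne_one, add_zero]
        rw [ht] at hc
        have h1 := sitep_other hZ hy2 hc (hex hs rfl) hv
        have h2 : se Yl (some (o, ε, true), y) =
            ⟨∑ i, y i • (Yl i).w + iot 1 (-sgz ε • (Yl o).w), 1, (tch Yl univ y : ZMod 2)⟩ := by
          unfold se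
          rw [ht, sitep_dig_some, sitep_sum_add (fun i => (Yl i).w)]
          ext1
          · simp only [Option.elim_some, if_true, smul_add, map_zsmul, neg_smul, map_neg]
            abel
          · rfl
          · rfl
        rw [h2]
        exact h1
      · obtain ⟨Yl', hY1, hY2⟩ : ∃ Yl' : Option (Fin k) → El n k,
            Yl' o = (Yl o)⁻¹ ∧ ∀ i, i ≠ o → Yl' i = Yl i :=
          ⟨Function.update Yl o (Yl o)⁻¹, Function.update_self _ _ _,
            fun i hi => Function.update_of_ne hi _ _⟩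
        have hs' : ∀ i, (Yl' i).s = (Yl i).s := fun i => by
          by_cases h : i = o
          · rw [h, hY1, inv_s]
          · rw [hY2 i h]
        have hT' : ∀ i ∈ (univ : Finset (Option (Fin k))), Yl' i ∈ ball S 1 ∧ (Yl' i).g = 1 :=
          fun i _ => by
            by_cases h : i = o
            · rw [h, hY1, inv_g, hZ.hg, inv_one]
              exact ⟨inv_mem_ball (hZ.hY o), rfl⟩
            · rw [hY2 i h]
              exact ⟨hZ.hY i, hZ.hg i⟩
        have ht : ∀ z, tch Yl' univ z = tch Yl univ z := fun z => by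
          unfold tch
          simp only [hs']
        have h1 := sw_mem_ball Yl' univ hT'
          (sitep_mem_sset.2 ⟨sitep_mem_asg_univ hd, by rw [ht]; exact hc⟩)
        have h2 : se Yl (some (o, ε, true), y) = sw Yl' univ (dig (some (o, ε, true), y)) := by
          unfold se sw
          rw [ht, sitep_dig_some, sitep_sum_add (fun i => (Yl i).w),
            sitep_sum_add (fun i => (Yl' i).w)]
          have h4 : ∑ i, y i • (Yl' i).w = ∑ i, y i • (Yl i).w :=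
            sum_congr rfl fun i _ => by
              by_cases h : i = o
              · rw [h, ho, zero_smul, zero_smul]
              · rw [hY2 i h]
          ext1
          · simp only [Option.elim_some, if_true, smul_add, h4, hY1, inv_w, hZ.hg o, hs,
              inv_one, aw_one, smul_neg]
            abel
          · rfl
          · rfl
        rw [h2, ← hsz]
        exact h1

lemma sitep_fib (Yl : Option (Fin k) → El n k) (Sp : Finset (Option (Fin k)))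
    (al : Finset ((Option (Fin k) × ZMod 2) × Bool)) (s : ZMod 2) (x : ℝ)
    (t : Option (Option (Fin k) × ZMod 2 × Bool)) (U : Finset (St0 k))
    (hU : ∀ ω, ω ∈ U ↔ ω ∈ pset Yl Sp al s ∧ ω.1 = t) (T : Finset (Option (Fin k) → ℤ))
    (hT : ∀ y, y ∈ T ↔ (t, y) ∈ pset Yl Sp al s) :
    ∑ ω ∈ U, x ^ scost ω = x ^ (if t.isSome then 1 else 0) * ∑ y ∈ T, x ^ szJ Spᶜ y := by
  rw [mul_sum]
  refine sum_nbij' (fun ω => ω.2) (fun y => (t, y)) ?_ ?_ ?_ ?_ ?_
  · rintro ⟨t', y⟩ h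
    obtain ⟨h1, h2⟩ := (hU _).1 h
    dsimp only at h2
    subst h2
    exact (hT _).2 h1
  · intro y h
    exact (hU _).2 ⟨(hT _).1 h, rfl⟩
  · rintro ⟨t', y⟩ h
    obtain ⟨-, h2⟩ := (hU _).1 h
    dsimp only at h2
    rw [h2]
  · intro y _
    rfl
  · rintro ⟨t', y⟩ h
    obtain ⟨h1, h2⟩ := (hU _).1 h
    dsimp only at h2
    subst h2
    unfold scost
    dsimp only
    rw [sitep_sz (subset_univ Spᶜ) (mem_asg.1 (sitep_mem.1 h1).1).2, pow_add, mul_comm]

theorem sum_pset_none (Yl : Option (Fin k) → El n k) (Sp : Finset (Option (Fin k)))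
    (al : Finset ((Option (Fin k) × ZMod 2) × Bool)) (s : ZMod 2) (x : ℝ) :
    ∑ ω ∈ (pset Yl Sp al s).filter (fun ω => ω.1 = none), x ^ scost ω =
      gam 2 x ^ nN Yl Spᶜ * AA 2 x (nT Yl Spᶜ) := by
  rw [sitep_fib Yl Sp al s x none _ (fun ω => mem_filter) (sset Yl Spᶜ) fun y => ?_, sum_sset]
  · simp
  · rw [sitep_mem_sset, sitep_mem, sitep_dig_none]
    dsimp only
    refine and_congr_right fun hy => ?_
    rw [sitep_tch Yl (subset_univ Spᶜ) (mem_asg.1 hy).2]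
    simp

lemma sitep_two {ι : Type} [DecidableEq ι] (Tl : ι → El n k) (J : Finset ι) (x : ℝ) {a b : ℤ}
    (hab : a ≠ b) :
    ∑ y ∈ (asg 0 J (bx 2)).filter (fun y => tch Tl J y = a ∨ tch Tl J y = b), x ^ szJ J y =
      gam 2 x ^ nN Tl J * (WW 2 x (nT Tl J) a + WW 2 x (nT Tl J) b) := by
  classical
  rw [filter_or, sum_union, sum_tch, sum_tch, mul_add]
  exact disjoint_filter.2 fun y _ h1 h2 => hab (h1.symm.trans h2)

lemma sitep_drop (Yl : Option (Fin k) → El n k) (J : Finset (Option (Fin k))) (x : ℝ) :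
    ∑ y ∈ sset Yl J \ asg 0 (J.filter fun i => (Yl i).s = 0) (bx 2), x ^ szJ J y =
      gam 2 x ^ nN Yl J * (AA 2 x (nT Yl J) - 1) := by
  have hsub : asg 0 (J.filter fun i => (Yl i).s = 0) (bx 2) ⊆ sset Yl J := by
    intro y hy
    have hy' := mem_asg.1 hy
    refine sitep_mem_sset.2 ⟨mem_asg.2 ⟨fun i _ => mem_bx.2 ?_, fun i hi => hy'.2 i fun h =>
      hi (mem_filter.1 h).1⟩, Or.inl ?_⟩
    · exact_mod_cast sitep_asg_univ hy i
    · refine sum_eq_zero fun i hi => hy'.2 i fun h => ?_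
      exact zero_ne_one ((mem_filter.1 h).2.symm.trans (mem_filter.1 hi).2)
  have h1 := sum_sdiff (f := fun y => x ^ szJ J y) hsub
  have h2 : ∑ y ∈ asg 0 (J.filter fun i => (Yl i).s = 0) (bx 2), x ^ szJ J y =
      gam 2 x ^ nN Yl J := by
    rw [nN, ← sum_asg_gam]
    exact sum_congr rfl fun y hy => by rw [sitep_sz (filter_subset _ J) (mem_asg.1 hy).2]
  rw [sum_sset, h2] at h1
  linarith

lemma sitep_one (Yl : Option (Fin k) → El n k) {Sp : Finset (Option (Fin k))}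
    {al : Finset ((Option (Fin k) × ZMod 2) × Bool)} (s : ZMod 2) {x : ℝ} (hx : 0 ≤ x)
    (o : Option (Fin k)) (φ : Bool) (h : ((o, s), φ) ∈ al) :
    ∑ ε : ZMod 2, ∑ ω ∈ (pset Yl Sp al s).filter (fun ω => ω.1 = some (o, ε, φ)), x ^ scost ω =
      gam 2 x ^ nN Yl Spᶜ * AA 2 x (nT Yl Spᶜ) * actv Yl x (nT Yl Spᶜ) ((o, s), φ) := by
  have hA : AA 2 x (nT Yl Spᶜ) ≠ 0 := (zero_lt_one.trans_le (one_le_AA 2 hx _)).ne'
  have hm : ∀ (ε : ZMod 2) (y : Option (Fin k) → ℤ),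
      ((some (o, ε, φ), y) : St0 k) ∈ pset Yl Sp al s ↔ y ∈ asg 0 Spᶜ (bx 2) ∧
        (tch Yl Spᶜ y + (if (Yl o).s = 1 then sgz ε else 0) = 0 ∨
          tch Yl Spᶜ y + (if (Yl o).s = 1 then sgz ε else 0) = 1) ∧
        ((Yl o).s = 0 → φ = true → ∃ o', (Yl o').s = 1 ∧ y o' ≠ 0) := by
    intro ε y
    rw [sitep_mem, sitep_dig_some, sitep_tch_add]
    dsimp only
    refine and_congr_right fun hy => ?_
    rw [sitep_tch Yl (subset_univ Spᶜ) (mem_asg.1 hy).2]
    refine and_congr_right fun _ => ⟨fun h1 => (h1 o ε φ rfl).2, fun h1 o' ε' φ' h2 => ?_⟩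
    obtain ⟨rfl, rfl, rfl⟩ : o = o' ∧ ε = ε' ∧ φ = φ' := by simpa using h2
    exact ⟨h, h1⟩
  have hu : (univ : Finset (ZMod 2)) = {0, 1} := by decide
  rw [hu, sum_pair zero_ne_one]
  unfold actv
  dsimp only
  rcases z2_cases (Yl o).s with hs | hs
  · have hs' : ¬(Yl o).s = 1 := by rw [hs]; exact zero_ne_one
    rw [if_neg hs']
    cases φ with
    | false =>
      have hT : ∀ (ε : ZMod 2) (y : Option (Fin k) → ℤ), y ∈ sset Yl Spᶜ ↔
          ((some (o, ε, false), y) : St0 k) ∈ pset Yl Sp al s := fun ε y => by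
        rw [hm, sitep_mem_sset, if_neg hs', add_zero]
        simp
      rw [sitep_fib Yl Sp al s x _ _ (fun ω => mem_filter) _ (hT 0),
        sitep_fib Yl Sp al s x _ _ (fun ω => mem_filter) _ (hT 1), sum_sset]
      simp only [Option.isSome_some, if_true, pow_one, Bool.false_eq_true, if_false]
      ring
    | true =>
      have hT : ∀ (ε : ZMod 2) (y : Option (Fin k) → ℤ),
          y ∈ sset Yl Spᶜ \ asg 0 (Spᶜ.filter fun i => (Yl i).s = 0) (bx 2) ↔
          ((some (o, ε, true), y) : St0 k) ∈ pset Yl Sp al s := fun ε y => by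
        rw [hm, mem_sdiff, sitep_mem_sset, if_neg hs', add_zero, and_assoc]
        refine and_congr_right fun hy => and_congr_right fun _ => ?_
        have hy' := mem_asg.1 hy
        constructor
        · intro h1 _ _
          by_contra hcon
          push Not at hcon
          refine h1 (mem_asg.2 ⟨fun i hi => hy'.1 i (mem_filter.1 hi).1, fun i hi => ?_⟩)
          by_cases h2 : i ∈ Spᶜ
          · exact hcon i ((z2_cases _).resolve_left fun h3 => hi (mem_filter.2 ⟨h2, h3⟩))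
          · exact hy'.2 i h2
        · intro h1 h2
          obtain ⟨o', h3, h4⟩ := h1 hs rfl
          exact h4 ((mem_asg.1 h2).2 o' fun h5 =>
            zero_ne_one ((mem_filter.1 h5).2.symm.trans h3))
      rw [sitep_fib Yl Sp al s x _ _ (fun ω => mem_filter) _ (hT 0),
        sitep_fib Yl Sp al s x _ _ (fun ω => mem_filter) _ (hT 1), sitep_drop]
      simp only [Option.isSome_some, if_true, pow_one, aF]
      field_simp
      ring
  · have hs' : ¬(Yl o).s = 0 := by rw [hs]; exact one_ne_zero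
    rw [if_pos hs]
    have hT0 : ∀ y : Option (Fin k) → ℤ,
        y ∈ (asg 0 Spᶜ (bx 2)).filter (fun y => tch Yl Spᶜ y = -1 ∨ tch Yl Spᶜ y = 0) ↔
        ((some (o, 0, φ), y) : St0 k) ∈ pset Yl Sp al s := fun y => by
      rw [hm, mem_filter, if_pos hs, sgz_zero]
      refine and_congr_right fun _ => ⟨fun h1 => ⟨by omega, fun h2 => absurd h2 hs'⟩,
        fun h1 => by omega⟩
    have hT1 : ∀ y : Option (Fin k) → ℤ,
        y ∈ (asg 0 Spᶜ (bx 2)).filter (fun y => tch Yl Spᶜ y = 1 ∨ tch Yl Spᶜ y = 2) ↔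
        ((some (o, 1, φ), y) : St0 k) ∈ pset Yl Sp al s := fun y => by
      rw [hm, mem_filter, if_pos hs, sgz_one]
      refine and_congr_right fun _ => ⟨fun h1 => ⟨by omega, fun h2 => absurd h2 hs'⟩,
        fun h1 => by omega⟩
    rw [sitep_fib Yl Sp al s x _ _ (fun ω => mem_filter) _ hT0,
      sitep_fib Yl Sp al s x _ _ (fun ω => mem_filter) _ hT1,
      sitep_two Yl Spᶜ x (by norm_num), sitep_two Yl Spᶜ x (by norm_num), WW_neg]
    simp only [Option.isSome_some, if_true, pow_one, aT]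
    field_simp
    ring

theorem sum_pset_some (Yl : Option (Fin k) → El n k) {Sp : Finset (Option (Fin k))}
    {al : Finset ((Option (Fin k) × ZMod 2) × Bool)} (hal : ∀ a ∈ al, a.1.1 ∈ Sp) (s : ZMod 2)
    {x : ℝ} (hx : 0 ≤ x) (o : Option (Fin k)) :
    ∑ ω ∈ (pset Yl Sp al s).filter (fun ω => ω.1.map Prod.fst = some o), x ^ scost ω =
      gam 2 x ^ nN Yl Spᶜ * AA 2 x (nT Yl Spᶜ) *
        ∑ a ∈ al.filter (fun a => a.1 = (o, s)), actv Yl x (nT Yl Spᶜ) a := by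
  have _ := hal
  rw [mul_sum, ← sum_fiberwise_of_maps_to
    (t := (al.filter (fun a => a.1 = (o, s)) ×ˢ (univ : Finset (ZMod 2))).image
      fun p => some (o, p.2, p.1.2)) (g := fun ω : St0 k => ω.1), sum_image, sum_product]
  · refine sum_congr rfl fun a ha => ?_
    obtain ⟨a, φ⟩ := a
    obtain ⟨h1, h2⟩ := mem_filter.1 ha
    dsimp only at h2
    subst h2
    rw [← sitep_one Yl s hx o φ h1]
    refine sum_congr rfl fun ε _ => sum_congr ?_ fun _ _ => rfl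
    rw [filter_filter]
    refine filter_congr fun ω _ => ⟨fun h => h.2, fun h => ⟨?_, h⟩⟩
    rw [h]
    rfl
  · rintro ⟨⟨a, φ⟩, ε⟩ hp ⟨⟨a', φ'⟩, ε'⟩ hp' h
    have h1 := (mem_filter.1 (mem_product.1 (mem_coe.1 hp)).1).2
    have h2 := (mem_filter.1 (mem_product.1 (mem_coe.1 hp')).1).2
    dsimp only at h1 h2
    obtain ⟨rfl, rfl⟩ : ε = ε' ∧ φ = φ' := by simpa using h
    rw [h1, h2]
  · rintro ⟨t, y⟩ hω
    obtain ⟨h1, h2⟩ := mem_filter.1 hω
    rcases t with _ | ⟨o', ε, φ⟩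
    · simp at h2
    · obtain rfl : o' = o := by simpa using h2
      exact mem_image.2 ⟨(((o', s), φ), ε), mem_product.2
        ⟨mem_filter.2 ⟨((sitep_mem.1 h1).2.2 o' ε φ rfl).1, rfl⟩, mem_univ _⟩, rfl⟩

lemma actv_bounds (Yl : Option (Fin k) → El n k) {x : ℝ} (hx : 0 ≤ x) (hx1 : x ≤ 1) (j : ℕ)
    (a : (Option (Fin k) × ZMod 2) × Bool) : 0 ≤ actv Yl x j a ∧ actv Yl x j a ≤ 2 * x := by
  have hA := one_le_AA 2 hx j
  have hA0 : 0 < AA 2 x j := zero_lt_one.trans_le hA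
  unfold actv
  split_ifs
  · have h0 := WW_nonneg 2 hx j 0
    have h1 := WW_nonneg 2 hx j 1
    have h2 := WW_nonneg 2 hx j 2
    have h3 : WW 2 x j 2 ≤ WW 2 x j 0 := WW_anti 2 hx hx1 j (by simp)
    unfold aT
    refine ⟨by positivity, ?_⟩
    rw [div_le_iff₀ hA0]
    unfold AA
    have := mul_le_mul_of_nonneg_left h3 hx
    linarith
  · unfold aF
    refine ⟨div_nonneg (mul_nonneg (by positivity) (by linarith)) hA0.le, ?_⟩
    rw [div_le_iff₀ hA0]
    linarith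
  · exact ⟨by positivity, le_rfl⟩

end Pool.Agent.MP_646035_al.PC

namespace Pool.Agent.MP_646035_al.PC

open Finset PT

variable {n k : ℕ} {Q : Type} [AddCommGroup Q] [DecidableEq Q] {e : Fin 2 → Q}

lemma psweep_sum2 {M : Type*} [AddCommMonoid M] (f : ZMod 2 → M) : ∑ s, f s = f 0 + f 1 :=
  Fin.sum_univ_two f

lemma psweep_g (Yl : Option (Fin k) → El n k) {N : ℕ} (P : Fin N × ZMod 2 → St0 k) (b : ℕ)
    (s : ZMod 2) : (hP Yl P b s).g = 1 := by
  unfold hP
  split_ifs <;> rfl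

lemma psweep_hP (Yl : Option (Fin k) → El n k) {N : ℕ} (P : Fin N × ZMod 2 → St0 k) (b : Fin N)
    (s : ZMod 2) : hP Yl P b s = se Yl (P (b, s)) := dif_pos b.2

lemma psweep_pv (Yl : Option (Fin k) → El n k) (ω : St0 k) :
    pv (se Yl ω).w = ∑ o, dig ω o • pv (Yl o).w := by
  obtain ⟨_ | ⟨o, ε, _ | _⟩, y⟩ := ω <;>
    simp only [se, Option.elim, map_sub, map_sum, map_zsmul, sub_zero, pv_add_iot,
      smul_zero, if_true, if_false, Bool.false_eq_true]

lemma psweep_gm (Yl : Option (Fin k) → El n k) (ω : St0 k) :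
    gm (se Yl ω).w = ∑ o, (tdig ω o : OO n) * gm (Yl o).w := by
  obtain ⟨_ | ⟨o, ε, _ | _⟩, y⟩ := ω <;>
    simp only [se, dig, tdig, Option.elim, map_sub, map_sum, map_zsmul, sub_zero,
      gm_add_iot, if_true, if_false, Bool.false_eq_true] <;>
    simp only [zsmul_eq_mul]
  simp only [Int.cast_add, add_mul, sum_add_distrib, Int.cast_ite, ite_mul, Int.cast_zero,
    zero_mul, sum_ite_eq, mem_univ, if_true, Int.cast_neg]
  ring

lemma psweep_coeff {N : ℕ} (c : Fin N → ℤ) (a : ℤ) :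
    (∑ b : Fin N, LaurentPolynomial.C (c b) * LaurentPolynomial.T (b.val : ℤ) : LP).coeff a =
      ∑ b : Fin N, if (b.val : ℤ) = a then c b else 0 := by
  simp only [← LaurentPolynomial.single_eq_C_mul_T, AddMonoidAlgebra.coeff_sum,
    AddMonoidAlgebra.coeff_single, Finsupp.finsetSum_apply, Finsupp.single_apply]

lemma psweep_in {N : ℕ} (c : Fin N → ℤ) (b : Fin N) :
    (∑ b : Fin N, LaurentPolynomial.C (c b) * LaurentPolynomial.T (b.val : ℤ) : LP).coeff
      (b.val : ℤ) = c b := by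
  rw [psweep_coeff, sum_eq_single b (fun b' _ h => if_neg fun c => h (Fin.ext (by omega)))
    (by simp), if_pos rfl]

lemma psweep_out {N : ℕ} (c : Fin N → ℤ) {a : ℤ} (ha : ∀ b : Fin N, (b.val : ℤ) ≠ a) :
    (∑ b : Fin N, LaurentPolynomial.C (c b) * LaurentPolynomial.T (b.val : ℤ) : LP).coeff a =
      0 := by
  rw [psweep_coeff]
  exact sum_eq_zero fun b _ => if_neg (ha b)

lemma psweep_bd {N : ℕ} (c : Fin N → ℤ) {B : ℕ} (h : ∀ b, |c b| ≤ B) :
    Bd (∑ b : Fin N, LaurentPolynomial.C (c b) * LaurentPolynomial.T (b.val : ℤ)) B := by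
  intro a
  by_cases ha : ∃ b : Fin N, (b.val : ℤ) = a
  · obtain ⟨b, rfl⟩ := ha
    rw [psweep_in]
    exact h b
  · rw [psweep_out c fun b e => ha ⟨b, e⟩]
    simp

lemma psweep_abs (s : ZMod 2) : |sgz s| = 1 := by revert s; decide

lemma psweep_ne (s : ZMod 2) : sgz s ≠ 0 := by revert s; decide

lemma psweep_cast (s : ZMod 2) : ((sgz s : ℤ) : ZMod 2) = 1 := by revert s; decide

lemma psweep_inj {s s' : ZMod 2} (h : sgz s = sgz s') : s = s' := by revert s s'; decide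

section

variable {Yl : Option (Fin k) → El n k} {Sp : Finset (Option (Fin k))}
  {al : Finset ((Option (Fin k) × ZMod 2) × Bool)} {s : ZMod 2} {ω : St0 k}

lemma psweep_mem (h : ω ∈ pset Yl Sp al s) : ω.2 ∈ asg 0 Spᶜ (bx 2) ∧
    ∀ o ε φ, ω.1 = some (o, ε, φ) → ((o, s), φ) ∈ al := by
  simp only [pset, mem_filter] at h
  exact ⟨(mem_product.1 h.1).2, fun o ε φ e => (h.2.2 o ε φ e).1⟩

lemma psweep_zero (h : ω ∈ pset Yl Sp al s) {o : Option (Fin k)} (ho : o ∈ Sp) : ω.2 o = 0 :=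
  (mem_asg.1 (psweep_mem h).1).2 o (by simpa using ho)

lemma psweep_two (h : ω ∈ pset Yl Sp al s) {o : Option (Fin k)} (ho : o ∉ Sp) : |ω.2 o| ≤ 2 :=
  mem_bx.1 ((mem_asg.1 (psweep_mem h).1).1 o (by simpa using ho))

lemma psweep_al (h : ω ∈ pset Yl Sp al s) {o : Option (Fin k)} {ε : ZMod 2} {φ : Bool}
    (e : ω.1 = some (o, ε, φ)) : ((o, s), φ) ∈ al :=
  (psweep_mem h).2 o ε φ e

lemma psweep_notin (hal : ∀ a ∈ al, a.1.1 ∈ Sp) (h : ω ∈ pset Yl Sp al s) {o : Option (Fin k)}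
    (ho : o ∉ Sp) : dig ω o = ω.2 o ∧ tdig ω o = ω.2 o := by
  rcases e : ω.1 with _ | ⟨o', ε, φ⟩
  · simp [dig, tdig, e]
  · have : o' ≠ o := fun c => ho (c ▸ hal _ (psweep_al h e))
    simp [dig, tdig, e, this]

lemma psweep_some (h : ω ∈ pset Yl Sp al s) {o : Option (Fin k)} (ho : o ∈ Sp) {ε : ZMod 2}
    {φ : Bool} (e : ω.1 = some (o, ε, φ)) :
    dig ω o = sgz ε ∧ tdig ω o = if φ then -sgz ε else sgz ε := by
  simp [dig, tdig, e, psweep_zero h ho]

lemma psweep_dark (h : ω ∈ pset Yl Sp al s) {o : Option (Fin k)} (ho : o ∈ Sp)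
    (e : ¬ ∃ ε φ, ω.1 = some (o, ε, φ)) : dig ω o = 0 ∧ tdig ω o = 0 := by
  rcases e' : ω.1 with _ | ⟨o', ε, φ⟩
  · simp [dig, tdig, e', psweep_zero h ho]
  · have : o' ≠ o := fun c => e ⟨ε, φ, c ▸ e'⟩
    simp [dig, tdig, e', this, psweep_zero h ho]

lemma psweep_lit (h : ω ∈ pset Yl Sp al s) {o : Option (Fin k)} (ho : o ∈ Sp) :
    ((∃ ε φ, ω.1 = some (o, ε, φ)) ↔ dig ω o ≠ 0) ∧
      ((∃ ε φ, ω.1 = some (o, ε, φ)) ↔ tdig ω o ≠ 0) := by
  refine ⟨⟨fun ⟨ε, φ, e⟩ => ?_, fun c => by_contra fun e => c (psweep_dark h ho e).1⟩,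
    ⟨fun ⟨ε, φ, e⟩ => ?_, fun c => by_contra fun e => c (psweep_dark h ho e).2⟩⟩
  · rw [(psweep_some h ho e).1]
    exact psweep_ne ε
  · rw [(psweep_some h ho e).2]
    split_ifs
    · exact neg_ne_zero.2 (psweep_ne ε)
    · exact psweep_ne ε

lemma psweep_one (h : ω ∈ pset Yl Sp al s) {o : Option (Fin k)} (ho : o ∈ Sp) :
    |dig ω o| ≤ 1 ∧ |tdig ω o| ≤ 1 := by
  by_cases e : ∃ ε φ, ω.1 = some (o, ε, φ)
  · obtain ⟨ε, φ, e⟩ := e
    rw [(psweep_some h ho e).1, (psweep_some h ho e).2]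
    split_ifs <;> simp [psweep_abs]
  · rw [(psweep_dark h ho e).1, (psweep_dark h ho e).2]
    simp

end

theorem sweep_g (h : ℕ → ZMod 2 → El n k) (hh : ∀ b s, (h b s).g = 1) (N : ℕ) :
    (sweep h N).g = ⟨N, 0⟩ := by
  induction N with
  | zero => rfl
  | succ N ih =>
    ext1 <;> simp [sweep, ih, hh, mv, rho0, rho1, z2_one_add_one]

theorem sweep_s (h : ℕ → ZMod 2 → El n k) (N : ℕ) : (sweep h N).s = slane h N 0 := by
  induction N with
  | zero => simp [sweep, slane]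
  | succ N ih =>
    simp only [slane, zero_mul, add_zero] at ih ⊢
    simp [sweep, ih, mv, sum_range_succ]

theorem sweep_w (h : ℕ → ZMod 2 → El n k) (hh : ∀ b s, (h b s).g = 1) (N : ℕ) :
    (sweep h N).w = ∑ b ∈ range N, ∑ s : ZMod 2, iot (slane h b s) (aw ⟨b, s⟩ (h b s).w) := by
  induction N with
  | zero => rfl
  | succ N ih =>
    have e1 : (⟨N, 1⟩ : Dh) = ⟨N, 0⟩ * rho0 := by ext1 <;> simp [rho0]
    have e2 : slane h N 1 = slane h N 0 + (h N 0).s := by simp [slane]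
    rw [sum_range_succ, psweep_sum2, ← ih, e1, e2, aw_mul, ← iot_iot, iot_aw (h N 0).s, sweep,
      mul_w, sweep_g h hh, sweep_s]
    simp [mul_w, mv, hh]

theorem sweep_mem_ball {S : Finset (El n k)} (h0 : mv rho0 ∈ ball S 1) (h1 : mv rho1 ∈ ball S 1)
    (h : ℕ → ZMod 2 → El n k) (ℓ : ℕ → ZMod 2 → ℕ) (N : ℕ)
    (hℓ : ∀ b < N, ∀ s, h b s ∈ ball S (ℓ b s)) :
    sweep h N ∈ ball S (2 * N + ∑ b ∈ range N, ∑ s : ZMod 2, ℓ b s) := by
  induction N with
  | zero => exact one_mem_ball S _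
  | succ N ih =>
    have a := mul_mem_ball (ih fun b hb => hℓ b (by omega)) (mul_mem_ball (mul_mem_ball
      (mul_mem_ball (hℓ N (by omega) 0) h0) (hℓ N (by omega) 1)) h1)
    refine ball_mono S (le_of_eq ?_) a
    rw [sum_range_succ, psweep_sum2 (ℓ N)]
    ring

theorem pval_mem_ball {S : Finset (El n k)} {Yl : Option (Fin k) → El n k} {Sp : Finset (Option (Fin k))}
    {al : Finset ((Option (Fin k) × ZMod 2) × Bool)} (hal : ∀ a ∈ al, a.1.1 ∈ Sp) {N : ℕ}
    {P : Fin N × ZMod 2 → St0 k} (hP1 : ∀ p, P p ∈ pset Yl Sp al p.2) (hZ : Z1 S Yl) :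
    pval Yl P ∈ ball S (2 * N + ∑ p, scost (P p)) := by
  have a := sweep_mem_ball hZ.h0 hZ.h1 (hP Yl P)
    (fun b s => if hb : b < N then scost (P (⟨b, hb⟩, s)) else 0) N fun b hb s => by
      simp only [hP, dif_pos hb]
      exact se_mem_ball hZ hal (hP1 (⟨b, hb⟩, s))
  rw [sum_range] at a
  simp only [Fin.is_lt, dif_pos, Fin.eta] at a
  rwa [Fintype.sum_prod_type]

theorem pval_pv (Yl : Option (Fin k) → El n k) {N : ℕ} (P : Fin N × ZMod 2 → St0 k) :
    pv (pval Yl P).w = ∑ τ, ev n (dpoly Yl P τ) • vt (Yl τ.1) τ.2 := by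
  rw [pval, sweep_w _ (psweep_g Yl P), sum_range, Fintype.sum_prod_type_right]
  simp only [map_sum, pv_iot, pv_aw, psweep_hP, psweep_pv, dpoly, map_mul, ev_C, ev_T, sum_smul,
    map_zsmul, smul_sum]
  rw [sum_comm]
  refine sum_congr rfl fun s _ => ?_
  rw [sum_comm]
  refine sum_congr rfl fun o _ => sum_congr rfl fun b _ => ?_
  rw [aw_mk, vt, mul_smul, mul_smul, Int.cast_smul_eq_zsmul, Int.cast_smul_eq_zsmul]

theorem pval_gm (Yl : Option (Fin k) → El n k) {N : ℕ} (P : Fin N × ZMod 2 → St0 k) :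
    gm (pval Yl P).w = ∑ τ, ev n (mpoly P τ) * bar τ.2 (gm (Yl τ.1).w) := by
  rw [pval, sweep_w _ (psweep_g Yl P), sum_range, Fintype.sum_prod_type_right]
  simp only [map_sum, gm_iot, gm_aw, psweep_hP, psweep_gm, mpoly, map_mul, ev_C, ev_T, sum_mul,
    map_intCast, mul_sum]
  rw [sum_comm]
  refine sum_congr rfl fun s _ => ?_
  rw [sum_comm]
  refine sum_congr rfl fun o _ => sum_congr rfl fun b _ => ?_
  ring

lemma coeff_dpoly (Yl : Option (Fin k) → El n k) {N : ℕ} (P : Fin N × ZMod 2 → St0 k)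
    (τ : Option (Fin k) × ZMod 2) (b : Fin N) :
    (dpoly Yl P τ).coeff (b.val : ℤ) =
      sgz (slane (hP Yl P) b τ.2) * dig (P (b, τ.2)) τ.1 :=
  psweep_in (fun b : Fin N => sgz (slane (hP Yl P) b τ.2) * dig (P (b, τ.2)) τ.1) b

lemma coeff_dpoly_out (Yl : Option (Fin k) → El n k) {N : ℕ} (P : Fin N × ZMod 2 → St0 k)
    (τ : Option (Fin k) × ZMod 2) {a : ℤ} (ha : ∀ b : Fin N, (b.val : ℤ) ≠ a) :
    (dpoly Yl P τ).coeff a = 0 := psweep_out _ ha

lemma coeff_mpoly {N : ℕ} (P : Fin N × ZMod 2 → St0 k) (τ : Option (Fin k) × ZMod 2)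
    (b : Fin N) : (mpoly P τ).coeff (b.val : ℤ) = tdig (P (b, τ.2)) τ.1 :=
  psweep_in (fun b : Fin N => tdig (P (b, τ.2)) τ.1) b

lemma coeff_mpoly_out {N : ℕ} (P : Fin N × ZMod 2 → St0 k) (τ : Option (Fin k) × ZMod 2)
    {a : ℤ} (ha : ∀ b : Fin N, (b.val : ℤ) ≠ a) : (mpoly P τ).coeff a = 0 := psweep_out _ ha

theorem bd_polys {Yl : Option (Fin k) → El n k} {Sp : Finset (Option (Fin k))}
    {al : Finset ((Option (Fin k) × ZMod 2) × Bool)} (hal : ∀ a ∈ al, a.1.1 ∈ Sp) {N : ℕ}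
    {P : Fin N × ZMod 2 → St0 k} (hP1 : ∀ p, P p ∈ pset Yl Sp al p.2) (τ : Option (Fin k) × ZMod 2) :
    Bd (dpoly Yl P τ) 2 ∧ Bd (mpoly P τ) 2 ∧
      (τ.1 ∈ Sp → Bd (dpoly Yl P τ) 1 ∧ Bd (mpoly P τ) 1) := by
  have a : ∀ b : Fin N, |dig (P (b, τ.2)) τ.1| ≤ 2 ∧ |tdig (P (b, τ.2)) τ.1| ≤ 2 := fun b => by
    by_cases ho : τ.1 ∈ Sp
    · exact (psweep_one (hP1 (b, τ.2)) ho).imp (fun h => h.trans one_le_two)
        fun h => h.trans one_le_two
    · rw [(psweep_notin hal (hP1 (b, τ.2)) ho).1, (psweep_notin hal (hP1 (b, τ.2)) ho).2]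
      exact ⟨psweep_two (hP1 (b, τ.2)) ho, psweep_two (hP1 (b, τ.2)) ho⟩
  refine ⟨psweep_bd _ fun b => ?_, psweep_bd _ fun b => (a b).2, fun ho =>
    ⟨psweep_bd _ fun b => ?_, psweep_bd _ fun b => (psweep_one (hP1 (b, τ.2)) ho).2⟩⟩
  · rw [abs_mul, psweep_abs, one_mul]
    exact (a b).1
  · rw [abs_mul, psweep_abs, one_mul]
    exact (psweep_one (hP1 (b, τ.2)) ho).1

theorem lit_iff {Yl : Option (Fin k) → El n k} {Sp : Finset (Option (Fin k))}
    {al : Finset ((Option (Fin k) × ZMod 2) × Bool)} (hal : ∀ a ∈ al, a.1.1 ∈ Sp) {N : ℕ}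
    {P : Fin N × ZMod 2 → St0 k} (hP1 : ∀ p, P p ∈ pset Yl Sp al p.2)
    {f : (Option (Fin k) × ZMod 2) × ℤ} (hf : f.1.1 ∈ Sp) (D : ℤ) :
    (Lit P f D ↔ (dpoly Yl P f.1).coeff (f.2 + D) ≠ 0) ∧
      (Lit P f D ↔ (mpoly P f.1).coeff (f.2 + D) ≠ 0) := by
  by_cases ha : ∃ b : Fin N, (b.val : ℤ) = f.2 + D
  · obtain ⟨b, hb⟩ := ha
    have a : Lit P f D ↔ ∃ ε φ, (P (b, f.1.2)).1 = some (f.1.1, ε, φ) :=
      ⟨fun ⟨b', h1, h2⟩ => (Fin.ext (by omega) : b' = b) ▸ h2, fun h => ⟨b, hb, h⟩⟩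
    rw [a, ← hb, coeff_dpoly, coeff_mpoly, mul_ne_zero_iff_left (psweep_ne _)]
    exact psweep_lit (hP1 (b, f.1.2)) hf
  · have a : ¬ Lit P f D := fun ⟨b, h1, _⟩ => ha ⟨b, h1⟩
    rw [coeff_dpoly_out _ _ _ fun b e => ha ⟨b, e⟩, coeff_mpoly_out _ _ fun b e => ha ⟨b, e⟩]
    simp [a]

theorem dpoly_eq_zero {Yl : Option (Fin k) → El n k} {Sp : Finset (Option (Fin k))}
    {al : Finset ((Option (Fin k) × ZMod 2) × Bool)} (hal : ∀ a ∈ al, a.1.1 ∈ Sp) {N : ℕ}
    {P : Fin N × ZMod 2 → St0 k} (hP1 : ∀ p, P p ∈ pset Yl Sp al p.2)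
    {τ : Option (Fin k) × ZMod 2} (h1 : τ.1 ∈ Sp) (h2 : ∀ φ, (τ, φ) ∉ al) :
    dpoly Yl P τ = 0 := by
  refine sum_eq_zero fun b _ => ?_
  rw [(psweep_dark (hP1 (b, τ.2)) h1 fun ⟨ε, φ, e⟩ => h2 φ (psweep_al (hP1 (b, τ.2)) e)).1]
  simp

theorem slane_eq (Yl : Option (Fin k) → El n k) {N : ℕ} (P P' : Fin N × ZMod 2 → St0 k)
    (h : ∀ τ : Option (Fin k) × ZMod 2, (Yl τ.1).s = 1 → dpoly Yl P τ = dpoly Yl P' τ)
    (b : Fin N) (s : ZMod 2) : slane (hP Yl P) b s = slane (hP Yl P') b s := by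
  have a : ∀ b s, (hP Yl P b s).s = (hP Yl P' b s).s := fun b s => by
    unfold hP
    split_ifs with hb
    · simp only [se, tch, Int.cast_sum]
      refine sum_congr rfl fun o ho => ?_
      have c := coeff_dpoly Yl P (o, s) ⟨b, hb⟩
      rw [h (o, s) (mem_filter.1 ho).2, coeff_dpoly] at c
      have c' := congrArg (Int.cast : ℤ → ZMod 2) c
      simpa only [Int.cast_mul, psweep_cast, one_mul] using c'.symm
    · rfl
  simp only [slane, a]

theorem tdig_eq_dig {Yl : Option (Fin k) → El n k} {Sp : Finset (Option (Fin k))}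
    {al : Finset ((Option (Fin k) × ZMod 2) × Bool)} (hal : ∀ a ∈ al, a.1.1 ∈ Sp) {N : ℕ}
    {P : Fin N × ZMod 2 → St0 k} (hP1 : ∀ p, P p ∈ pset Yl Sp al p.2)
    {τ : Option (Fin k) × ZMod 2} (h : (τ, true) ∉ al) (b : Fin N) :
    tdig (P (b, τ.2)) τ.1 = dig (P (b, τ.2)) τ.1 := by
  rcases e : (P (b, τ.2)).1 with _ | ⟨o, ε, _ | _⟩
  · simp [dig, tdig, e]
  · simp [dig, tdig, e]
  · have : o ≠ τ.1 := fun c => h (c ▸ psweep_al (hP1 (b, τ.2)) e :)
    simp [dig, tdig, e, this]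

lemma psweep_dig (Yl : Option (Fin k) → El n k) {N : ℕ} (P P' : Fin N × ZMod 2 → St0 k)
    (h : ∀ τ : Option (Fin k) × ZMod 2, (Yl τ.1).s = 1 → dpoly Yl P τ = dpoly Yl P' τ)
    {τ : Option (Fin k) × ZMod 2} (h2 : dpoly Yl P τ = dpoly Yl P' τ) (b : Fin N) :
    dig (P (b, τ.2)) τ.1 = dig (P' (b, τ.2)) τ.1 := by
  have c := coeff_dpoly Yl P τ b
  rw [h2, coeff_dpoly, slane_eq Yl P P' h] at c
  exact (mul_left_cancel₀ (psweep_ne _) c).symm

theorem eq_of_polys {Yl : Option (Fin k) → El n k} {Sp : Finset (Option (Fin k))}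
    {al : Finset ((Option (Fin k) × ZMod 2) × Bool)} (hal : ∀ a ∈ al, a.1.1 ∈ Sp) {N : ℕ}
    {P : Fin N × ZMod 2 → St0 k} (hP1 : ∀ p, P p ∈ pset Yl Sp al p.2)
    {P' : Fin N × ZMod 2 → St0 k} (hP2 : ∀ p, P' p ∈ pset Yl Sp al p.2)
    (h1 : ∀ τ, dpoly Yl P τ = dpoly Yl P' τ)
    (h2 : ∀ τ, (τ, true) ∈ al → mpoly P τ = mpoly P' τ) : P = P' := by
  funext ⟨b, s⟩
  have d : ∀ o, dig (P (b, s)) o = dig (P' (b, s)) o := fun o =>
    psweep_dig Yl P P' (fun τ _ => h1 τ) (h1 (o, s)) b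
  have m := hP1 (b, s)
  have m' := hP2 (b, s)
  refine Prod.ext ?_ (funext fun o => ?_)
  · rcases e : (P (b, s)).1 with _ | ⟨o, ε, φ⟩
    · rcases e' : (P' (b, s)).1 with _ | ⟨o, ε, φ⟩
      · rfl
      · have ho : o ∈ Sp := hal _ (psweep_al m' e')
        obtain ⟨ε', φ', c⟩ := (psweep_lit m ho).1.2 (d o ▸ (psweep_lit m' ho).1.1 ⟨ε, φ, e'⟩)
        rw [e] at c
        cases c
    · have ho : o ∈ Sp := hal _ (psweep_al m e)
      obtain ⟨ε', φ', e'⟩ := (psweep_lit m' ho).1.2 (d o ▸ (psweep_lit m ho).1.1 ⟨ε, φ, e⟩)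
      obtain rfl : ε = ε' :=
        psweep_inj ((psweep_some m ho e).1.symm.trans ((d o).trans (psweep_some m' ho e').1))
      have t : ((o, s), true) ∈ al → φ = φ' := fun c => by
        have c1 := coeff_mpoly P (o, s) b
        rw [h2 _ c, coeff_mpoly, (psweep_some m ho e).2, (psweep_some m' ho e').2] at c1
        have := psweep_ne ε
        cases φ <;> cases φ' <;> simp at c1 ⊢ <;> omega
      obtain rfl : φ = φ' := by
        cases φ <;> cases φ'
        · rfl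
        · exact t (psweep_al m' e')
        · exact t (psweep_al m e)
        · rfl
      exact e'.symm
  · by_cases ho : o ∈ Sp
    · rw [psweep_zero m ho, psweep_zero m' ho]
    · rw [← (psweep_notin hal m ho).1, ← (psweep_notin hal m' ho).1, d]

theorem mpoly_eq {Yl : Option (Fin k) → El n k} {Sp : Finset (Option (Fin k))}
    {al : Finset ((Option (Fin k) × ZMod 2) × Bool)} (hal : ∀ a ∈ al, a.1.1 ∈ Sp) {N : ℕ}
    {P : Fin N × ZMod 2 → St0 k} (hP1 : ∀ p, P p ∈ pset Yl Sp al p.2)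
    {P' : Fin N × ZMod 2 → St0 k} (hP2 : ∀ p, P' p ∈ pset Yl Sp al p.2)
    (h1 : ∀ τ : Option (Fin k) × ZMod 2, (Yl τ.1).s = 1 → dpoly Yl P τ = dpoly Yl P' τ)
    {τ : Option (Fin k) × ZMod 2} (h2 : dpoly Yl P τ = dpoly Yl P' τ) (h3 : (τ, true) ∉ al) :
    mpoly P τ = mpoly P' τ := by
  refine sum_congr rfl fun b _ => ?_
  rw [tdig_eq_dig hal hP1 h3, tdig_eq_dig hal hP2 h3, psweep_dig Yl P P' h1 h2]

end Pool.Agent.MP_646035_al.PC

namespace Pool.Agent.MP_646035_al.PC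

open Finset PT

variable {n k : ℕ} {Q : Type} [AddCommGroup Q] [DecidableEq Q] {e : Fin 2 → Q}

/-- Two points are at the same site or lie in one translate of `F`. -/
def proglb_adj {I : Type} {N : ℕ} (Sp : Finset I) (F : Finset ((I × ZMod 2) × ℤ))
    (u v : (Fin N × ZMod 2) × I) : Prop :=
  u ≠ v ∧ ((u.1 = v.1 ∧ u.2 ∈ Sp ∧ v.2 ∈ Sp) ∨ ∃ f ∈ F, ∃ f' ∈ F, f.1 = (u.2, u.1.2) ∧
    f'.1 = (v.2, v.1.2) ∧ (u.1.1.val : ℤ) - f.2 = (v.1.1.val : ℤ) - f'.2)

lemma proglb_symm {I : Type} {N : ℕ} (Sp : Finset I) (F : Finset ((I × ZMod 2) × ℤ))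
    (u v : (Fin N × ZMod 2) × I) (h : proglb_adj Sp F u v) : proglb_adj Sp F v u := by
  obtain ⟨hne, ⟨h1, h2, h3⟩ | ⟨f, hf, f', hf', h1, h2, h3⟩⟩ := h
  · exact ⟨hne.symm, Or.inl ⟨h1.symm, h3, h2⟩⟩
  · exact ⟨hne.symm, Or.inr ⟨f', hf', f, hf, h2, h1, h3.symm⟩⟩

lemma proglb_deg {I : Type} [Fintype I] [DecidableEq I] {N : ℕ} {Sp : Finset I} (hSp : Sp.card ≤ 3)
    {F : Finset ((I × ZMod 2) × ℤ)} (hF : F.card ≤ 4) [DecidableRel (proglb_adj (N := N) Sp F)]
    (v : (Fin N × ZMod 2) × I) : (univ.filter (proglb_adj Sp F v)).card ≤ 15 := by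
  have hsub : (univ.filter (proglb_adj Sp F v)).image (fun u => ((u.2, u.1.2), (u.1.1.val : ℤ))) ⊆
      Sp.image (fun o => ((o, v.1.2), (v.1.1.val : ℤ))) ∪
        F.offDiag.image (fun p => (p.2.1, (v.1.1.val : ℤ) - p.1.2 + p.2.2)) := by
    intro w hw
    obtain ⟨u, hu, rfl⟩ := mem_image.1 hw
    obtain ⟨hne, ⟨h1, -, h3⟩ | ⟨f, hf, f', hf', h1, h2, h3⟩⟩ := (mem_filter.1 hu).2
    · exact mem_union_left _ (mem_image.2 ⟨u.2, h3, by rw [h1]⟩)
    refine mem_union_right _ (mem_image.2 ⟨(f, f'), mem_offDiag.2 ⟨hf, hf', ?_⟩, ?_⟩)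
    · intro hff
      apply hne
      have hff' : f = f' := hff
      subst hff'
      have h4 := Prod.mk.inj (h1.symm.trans h2)
      refine Prod.ext (Prod.ext (Fin.ext ?_) h4.2) h4.1
      have : (v.1.1.val : ℤ) = u.1.1.val := by linarith
      exact_mod_cast this
    · refine Prod.ext h2 ?_
      simp only
      linarith
  have hinj : Function.Injective fun u : (Fin N × ZMod 2) × I =>
      ((u.2, u.1.2), (u.1.1.val : ℤ)) := by
    intro u u' h
    simp only [Prod.mk.injEq, Nat.cast_inj] at h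
    exact Prod.ext (Prod.ext (Fin.ext h.2) h.1.2) h.1.1
  rw [← card_image_of_injective _ hinj]
  refine (card_le_card hsub).trans ((card_union_le _ _).trans ?_)
  have h4 : F.card * F.card - F.card ≤ 12 := by
    generalize F.card = n at hF
    interval_cases n <;> simp
  have h5 := (card_image_le (s := F.offDiag)
    (f := fun p => (p.2.1, (v.1.1.val : ℤ) - p.1.2 + p.2.2))).trans (offDiag_card F).le
  have h6 := (card_image_le (s := Sp) (f := fun o => ((o, v.1.2), (v.1.1.val : ℤ)))).trans hSp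
  omega

lemma proglb_one_add {ι : Type} (s : Finset ι) {f : ι → ℝ} (hf : ∀ i, 0 ≤ f i) :
    1 + ∑ i ∈ s, f i ≤ ∏ i ∈ s, (1 + f i) := by
  classical
  induction s using Finset.induction_on with
  | empty => simp
  | insert i s hi ih =>
    rw [sum_insert hi, prod_insert hi]
    have h1 : 0 ≤ ∑ i ∈ s, f i := sum_nonneg fun i _ => hf i
    nlinarith [mul_le_mul_of_nonneg_left ih (add_nonneg zero_le_one (hf i)), mul_nonneg (hf i) h1]

lemma proglb_num {x : ℝ} (hx : 0 < x) (hx1 : x ≤ 1 / 100) : 1 - 60 * x ≤ 1 / (1 + 4 * x) ^ 15 := by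
  have h1 : 1 + (15 : ℕ) * (-(4 * x)) ≤ (1 + -(4 * x)) ^ 15 := one_add_mul_le_pow (by linarith) 15
  have h2 : (1 + -(4 * x)) ^ 15 * (1 + 4 * x) ^ 15 ≤ 1 := by
    rw [← mul_pow]
    exact pow_le_one₀ (by nlinarith) (by nlinarith)
  rw [le_div_iff₀ (by positivity)]
  refine le_trans (mul_le_mul_of_nonneg_right ?_ (by positivity)) h2
  push_cast at h1
  linarith

/-- The lit points of a choice of special letters. -/
def proglb_lit {P I : Type} [Fintype P] [Fintype I] [DecidableEq I] (ξ : P → Option I) :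
    Finset (P × I) := univ.filter fun v => ξ v.1 = some v.2

lemma proglb_prod {P I : Type} [Fintype P] [Fintype I] [DecidableEq I] (ξ : P → Option I)
    (a : P × I → ℝ) : ∏ v ∈ proglb_lit ξ, a v = ∏ p, (ξ p).elim 1 fun o => a (p, o) := by
  rw [proglb_lit, prod_filter, Fintype.prod_prod_type]
  refine prod_congr rfl fun p _ => ?_
  cases h : ξ p with
  | none => simp [h]
  | some o => simp [h]

lemma proglb_exists {P I : Type} [Fintype P] [Fintype I] [DecidableEq I] (X : Finset (P × I))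
    (h : ∀ u ∈ X, ∀ v ∈ X, u.1 = v.1 → u = v) : ∃ ξ : P → Option I, proglb_lit ξ = X := by
  have : ∀ p, ∃ r : Option I, ∀ o, r = some o ↔ (p, o) ∈ X := fun p => by
    by_cases hp : ∃ o, (p, o) ∈ X
    · obtain ⟨o, ho⟩ := hp
      exact ⟨some o, fun o' => ⟨fun e => Option.some.inj e ▸ ho,
        fun ho' => congrArg (fun v => some v.2) (h _ ho _ ho' rfl)⟩⟩
    · exact ⟨none, fun o => ⟨fun e => by simp at e, fun ho => absurd ⟨o, ho⟩ hp⟩⟩
  choose ξ hξ using this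
  exact ⟨ξ, Finset.ext fun v => by rw [proglb_lit, mem_filter, hξ]; simp⟩

lemma proglb_img {α β : Type} [Fintype α] (g : α → β) (T : Finset β) (w : β → ℝ)
    (nn : ∀ X, 0 ≤ w X) (h : ∀ X ∈ T, w X ≠ 0 → ∃ ξ, g ξ = X) :
    ∃ Ξ : Finset α, (∀ ξ ∈ Ξ, g ξ ∈ T) ∧ ∑ X ∈ T, w X ≤ ∑ ξ ∈ Ξ, w (g ξ) := by
  classical
  refine ⟨univ.filter fun ξ => g ξ ∈ T, fun ξ hξ => (mem_filter.1 hξ).2,
    le_trans ?_ (sum_image_le_of_nonneg fun X _ => nn X)⟩
  rw [← sum_filter_ne_zero]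
  refine sum_le_sum_of_subset_of_nonneg (fun X hX => ?_) fun X _ _ => nn X
  obtain ⟨hX, hX0⟩ := mem_filter.1 hX
  obtain ⟨ξ, rfl⟩ := h X hX hX0
  exact mem_image.2 ⟨ξ, mem_filter.2 ⟨mem_univ _, hX⟩, rfl⟩

open Classical in
lemma proglb_hard {I : Type} [Fintype I] [DecidableEq I] {N : ℕ} {Sp : Finset I} (hSp : Sp.card ≤ 3)
    {F : Finset ((I × ZMod 2) × ℤ)} (hF : F.card ≤ 4) (a : I × ZMod 2 → ℝ) {am : ℝ}
    (h0 : ∀ τ, 0 ≤ a τ) (h1 : ∀ τ, a τ ≤ am) (h2 : ∀ τ, a τ ≠ 0 → τ.1 ∈ Sp) :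
    ∃ Ξ : Finset (Fin N × ZMod 2 → Option I),
      (∀ ξ ∈ Ξ, ∀ u ∈ proglb_lit ξ, ∀ v ∈ proglb_lit ξ, ¬ proglb_adj Sp F u v) ∧
      (1 + ∑ τ, a τ / (1 + am) ^ 15) ^ N ≤ ∑ ξ ∈ Ξ, ∏ p, (ξ p).elim 1 fun o => a (o, p.2) := by
  have ham : ∀ τ, 0 ≤ a τ / (1 + am) ^ 15 := fun τ => by
    have := (h0 τ).trans (h1 τ)
    exact div_nonneg (h0 τ) (by positivity)
  have hc := hardcore (proglb_adj (N := N) Sp F) (proglb_symm Sp F) (fun v h => h.1 rfl) 15
    (proglb_deg hSp hF) (fun v => a (v.2, v.1.2)) am (fun _ => h0 _) fun _ => h1 _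
  obtain ⟨Ξ, hΞ, hs⟩ := proglb_img (α := Fin N × ZMod 2 → Option I) proglb_lit
    (univ.filter fun X => ∀ u ∈ X, ∀ v ∈ X, ¬ proglb_adj Sp F u v)
    (fun X => ∏ v ∈ X, a (v.2, v.1.2)) (fun X => prod_nonneg fun _ _ => h0 _) fun X hX hX0 =>
    proglb_exists X fun u hu v hv e => by
      by_contra hne
      exact (mem_filter.1 hX).2 u hu v hv ⟨hne, Or.inl ⟨e, h2 _ (prod_ne_zero_iff.1 hX0 u hu),
        h2 _ (prod_ne_zero_iff.1 hX0 v hv)⟩⟩
  refine ⟨Ξ, fun ξ hξ => (mem_filter.1 (hΞ ξ hξ)).2, le_trans ?_ (hc.trans (hs.trans_eq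
    (sum_congr rfl fun ξ _ => proglb_prod ξ _)))⟩
  rw [Fintype.prod_prod_type, Fintype.prod_prod_type]
  simp only
  rw [Fin.prod_const, prod_comm, ← Fintype.prod_prod_type
    (f := fun τ : I × ZMod 2 => 1 + a τ / (1 + am) ^ 15)]
  exact pow_le_pow_left₀ (add_nonneg zero_le_one (sum_nonneg fun τ _ => ham τ))
    (proglb_one_add _ ham) N

lemma proglb_inj {N : ℕ} {Sp : Finset (Option (Fin k))}
    {F : Finset ((Option (Fin k) × ZMod 2) × ℤ)} {P : Fin N × ZMod 2 → St0 k}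
    (h : ∀ u ∈ proglb_lit fun p => (P p).1.map Prod.fst,
      ∀ v ∈ proglb_lit fun p => (P p).1.map Prod.fst, ¬ proglb_adj Sp F u v)
    {D : ℤ} {f f' : (Option (Fin k) × ZMod 2) × ℤ} (hf : f ∈ F) (hf' : f' ∈ F) (hne : f ≠ f')
    (h1 : Lit P f D) (h2 : Lit P f' D) : False := by
  obtain ⟨b, hb, ε, φ, e⟩ := h1
  obtain ⟨b', hb', ε', φ', e'⟩ := h2
  refine h ((b, f.1.2), f.1.1) (mem_filter.2 ⟨mem_univ _, by simp [e]⟩) ((b', f'.1.2), f'.1.1)
    (mem_filter.2 ⟨mem_univ _, by simp [e']⟩) ⟨fun hh => hne ?_,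
      Or.inr ⟨f, hf, f', hf', rfl, rfl, by simp only; linarith⟩⟩
  simp only [Prod.mk.injEq] at hh
  refine Prod.ext (Prod.ext hh.2 hh.1.2) ?_
  have h3 : (b.val : ℤ) = b'.val := by rw [hh.1.1]
  linarith

theorem prog_lb {S : Finset (El n k)} {Yl : Option (Fin k) → El n k} (hZ : Z1 S Yl) {e x : ℝ}
    (he : IsRate S e) (hx : 0 < x) (hx1 : x ≤ 1 / 100) (hxe : x * e < 1)
    {Sp : Finset (Option (Fin k))} (hSp : Sp.card ≤ 3)
    {al : Finset ((Option (Fin k) × ZMod 2) × Bool)} (hal : ∀ a ∈ al, a.1.1 ∈ Sp)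
    {F : Finset ((Option (Fin k) × ZMod 2) × ℤ)} (hF : F.card ≤ 4) (H : Confl Yl Sp al F) :
    (x * (gam 2 x ^ nN Yl Spᶜ * AA 2 x (nT Yl Spᶜ))) ^ 2 *
      (1 + (∑ a ∈ al, actv Yl x (nT Yl Spᶜ) a) * (1 - 60 * x)) ≤ 1 := by
  classical
  obtain ⟨C, hC⟩ := lb he hx hxe
  set Z0 := gam 2 x ^ nN Yl Spᶜ * AA 2 x (nT Yl Spᶜ) with hZ0
  have Z00 : 0 ≤ Z0 := mul_nonneg (pow_nonneg (zero_le_one.trans (one_le_gam 2 hx.le)) _)
    (zero_le_one.trans (one_le_AA 2 hx.le _))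
  have ab := actv_bounds Yl hx.le (by linarith) (nT Yl Spᶜ)
  set a : Option (Fin k) × ZMod 2 → ℝ := fun τ =>
    ∑ c ∈ al.filter (fun c => c.1 = τ), actv Yl x (nT Yl Spᶜ) c with ha
  have a0 : ∀ τ, 0 ≤ a τ := fun τ => sum_nonneg fun c _ => (ab c).1
  have a1 : ∀ τ, a τ ≤ 4 * x := fun τ => by
    have h1 : (al.filter fun c => c.1 = τ).card ≤ 2 :=
      (card_le_card_of_injOn (t := univ) Prod.snd (fun _ _ => mem_univ _) fun c hc c' hc' e =>
        Prod.ext ((mem_filter.1 hc).2.trans (mem_filter.1 hc').2.symm) e).trans (by simp)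
    have h2 := sum_le_card_nsmul (al.filter fun c => c.1 = τ) _ _ fun c _ => (ab c).2
    rw [nsmul_eq_mul] at h2
    have h3 : ((al.filter fun c => c.1 = τ).card : ℝ) ≤ 2 := by exact_mod_cast h1
    exact h2.trans (by nlinarith)
  have a2 : ∀ τ, a τ ≠ 0 → τ.1 ∈ Sp := fun τ h => by
    obtain ⟨c, hc, -⟩ := exists_ne_zero_of_sum_ne_zero h
    exact (mem_filter.1 hc).2 ▸ hal c (mem_filter.1 hc).1
  have hs : ∑ τ, a τ = ∑ c ∈ al, actv Yl x (nT Yl Spᶜ) c :=
    sum_fiberwise_of_maps_to (fun _ _ => mem_univ _) _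
  have site : ∀ (s : ZMod 2) (r : Option (Option (Fin k))),
      ∑ ω ∈ (pset Yl Sp al s).filter (fun ω => ω.1.map Prod.fst = r), x ^ scost ω =
        Z0 * r.elim 1 fun o => a (o, s) := by
    intro s r
    cases r with
    | none =>
      simp only [Option.map_eq_none_iff, Option.elim, mul_one]
      convert sum_pset_none Yl Sp al s x
    | some o =>
      simp only [Option.elim, ha]
      convert sum_pset_some Yl hal s hx.le o
  have hb : (x * Z0) ^ 2 * (1 + ∑ τ, a τ / (1 + 4 * x) ^ 15) ≤ 1 := by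
    refine le_one_of_pow_bdd (C := C) fun N => ?_
    obtain ⟨Ξ, hΞ, h1⟩ := proglb_hard (N := N) hSp hF a a0 a1 a2
    set Pr := (Fintype.piFinset fun p : Fin N × ZMod 2 => pset Yl Sp al p.2).filter
      fun P => (fun p => (P p).1.map Prod.fst) ∈ Ξ with hPr
    have m1 : ∀ P ∈ Pr, ∀ p, P p ∈ pset Yl Sp al p.2 := fun P hP =>
      Fintype.mem_piFinset.1 (mem_filter.1 hP).1
    have h2 := hC _ Pr (pval Yl) (fun P => 2 * N + ∑ p, scost (P p)) (fun P hP P' hP' hh => by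
      by_contra hne
      obtain ⟨D, f, hf, f', hf', hff, h | h⟩ := H N P P' (m1 P hP) (m1 P' hP') hne hh
      · exact proglb_inj (hΞ _ (mem_filter.1 hP).2) hf hf' hff h.1 h.2
      · exact proglb_inj (hΞ _ (mem_filter.1 hP').2) hf hf' hff h.1 h.2)
      fun P hP => pval_mem_ball hal (m1 P hP) hZ
    simp only [pow_add, ← prod_pow_eq_pow_sum] at h2
    rw [← mul_sum, ← sum_fiberwise_of_maps_to (s := Pr) (t := Ξ)
      (g := fun (P : Fin N × ZMod 2 → St0 k) p => (P p).1.map Prod.fst)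
      fun P hP => (mem_filter.1 hP).2] at h2
    have h3 : ∀ ξ ∈ Ξ, ∑ P ∈ Pr.filter (fun P => (fun p => (P p).1.map Prod.fst) = ξ),
        ∏ p, x ^ scost (P p) = Z0 ^ (2 * N) * ∏ p, (ξ p).elim 1 fun o => a (o, p.2) := by
      intro ξ hξ
      have e : Pr.filter (fun P => (fun p => (P p).1.map Prod.fst) = ξ) =
          Fintype.piFinset fun p : Fin N × ZMod 2 =>
            (pset Yl Sp al p.2).filter fun ω => ω.1.map Prod.fst = ξ p := by
        ext P
        simp only [hPr, mem_filter, Fintype.mem_piFinset]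
        exact ⟨fun h p => ⟨h.1.1 p, congrFun h.2 p⟩, fun h =>
          ⟨⟨fun p => (h p).1, (funext fun p => (h p).2 : _ = ξ) ▸ hξ⟩, funext fun p => (h p).2⟩⟩
      rw [e, ← prod_univ_sum _ fun _ ω => x ^ scost ω]
      simp only [site]
      rw [prod_mul_distrib, prod_const, card_univ, Fintype.card_prod, Fintype.card_fin, ZMod.card,
        mul_comm N]
    rw [sum_congr rfl h3, ← mul_sum] at h2
    refine le_trans ?_ h2
    rw [mul_pow, ← pow_mul, mul_pow, mul_assoc]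
    exact mul_le_mul_of_nonneg_left (mul_le_mul_of_nonneg_left h1 (pow_nonneg Z00 _))
      (by positivity)
  refine le_trans (mul_le_mul_of_nonneg_left ?_ (sq_nonneg _)) hb
  rw [← sum_div, hs, div_eq_mul_one_div]
  exact add_le_add le_rfl (mul_le_mul_of_nonneg_left (proglb_num hx hx1)
    (sum_nonneg fun c _ => (ab c).1))

end Pool.Agent.MP_646035_al.PC
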