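import Pool.Agent.MP_646035_al.PC.Geo

namespace Pool.Agent.MP_646035_al.PC

open Finset PT

variable {n k : ℕ} {Q : Type} [AddCommGroup Q] [DecidableEq Q] {e : Fin 2 → Q}

lemma pord_two : ∀ A ∈ Ev, (¬ IsCross A → A 0 = A 1 ∧ A 2 = A 3) ∧ (IsCross A → A 2 ≠ A 3) := by
  decide

lemma pord_cases : ∀ A ∈ Ev, A = 0 ∨ A = ![1, 1, 0, 0] ∨ A = ![0, 0, 1, 1] ∨ A = ![1, 1, 1, 1] ∨
    (IsCross A ∧ ∑ i, (A i).val = 2) := by
  decide

lemma pord_iff {D : Finset (Ed Q)} {q : Q} {i j : Fin 4} :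
    pat e D q i = pat e D q j ↔ (slot e q i ∈ D ↔ slot e q j ∈ D) := by
  unfold pat
  split_ifs with a b b <;> simp [a, b]

lemma pord_ends {D : Finset (Ed Q)} {q : Q} {i : Fin 4} (h : slot e q i ∈ D) : q ∈ ends e D := by
  refine mem_biUnion.2 ⟨_, h, ?_⟩
  fin_cases i <;> simp [slot]

lemma pord_cross {D : Finset (Ed Q)} {q : Q} (h : IsCross (pat e D q)) : q ∈ ends e D := by
  by_contra hc
  have a : ∀ i, pat e D q i = 0 := fun i => if_neg fun h => hc (pord_ends h)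
  unfold IsCross at h
  rw [a, a] at h
  exact absurd h (by decide)

lemma pord_odd {D : Finset (Ed Q)} (hB : Balc e D) {q : Q} (h : ¬ IsCross (pat e D q)) :
    (q, 0) ∈ D ↔ (q, 1) ∈ D := pord_iff.1 ((pord_two _ (hB q)).1 h).2

lemma pord_even {D : Finset (Ed Q)} (hB : Balc e D) {p : Q} (h : ¬ IsCross (pat e D (p + e 1))) :
    (p, 1) ∈ D ↔ (p + eT e, 0) ∈ D := by
  have := pord_iff.1 ((pord_two _ (hB _)).1 h).1
  simpa [slot, eT, add_sub_assoc] using this

theorem one_le_crs (he : DirT e) {D : Finset (Ed Q)} (hB : Balc e D) (hD : D.Nonempty) :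
    1 ≤ crs e D := by
  obtain ⟨ht, hht⟩ := he
  by_contra hc
  have h0 : ∀ q, ¬ IsCross (pat e D q) := fun q hq =>
    hc (card_pos.2 ⟨q, mem_filter.2 ⟨pord_cross hq, hq⟩⟩)
  obtain ⟨⟨p, j⟩, ha, hmax⟩ := exists_max_image D (fun a => ht a.1) hD
  have h1 : (p, 1) ∈ D := by
    fin_cases j
    · exact (pord_odd hB (h0 p)).1 ha
    · exact ha
  have := hmax _ ((pord_even hB (h0 _)).1 h1)
  simp only [map_add, hht] at this
  omega

theorem crs_ne_one {D : Finset (Ed (ℤ × ℤ))} (hB : Balc eP D) : crs eP D ≠ 1 := by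
  intro h
  obtain ⟨⟨a, b⟩, hq⟩ := card_eq_one.1 h
  have h0 : ∀ q, IsCross (pat eP D q) ↔ q = (a, b) := fun q => by
    rw [← mem_singleton, ← hq, mem_filter]
    exact ⟨fun h => ⟨pord_cross h, h⟩, fun h => h.2⟩
  have h1 : ∀ x y : ℤ, x + y = a + b → (((x, y), 1) ∈ D ↔ ((x - 1, y + 1), 0) ∈ D) := by
    intro x y hxy
    have := pord_even hB (p := (x, y)) (by
      rw [h0]
      simp only [eP_one, Prod.mk_add_mk, Prod.mk.injEq]
      omega)
    simpa [eT, sub_eq_add_neg] using this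
  have h2 : ∀ x y : ℤ, y ≠ b → (((x, y), 0) ∈ D ↔ ((x, y), 1) ∈ D) := fun x y hy =>
    pord_odd hB (by
      rw [h0]
      simp only [Prod.mk.injEq]
      omega)
  have h3 : ¬ (((a, b), 0) ∈ D ↔ ((a, b), 1) ∈ D) := fun h =>
    (pord_two _ (hB _)).2 ((h0 _).2 rfl) (pord_iff.2 h)
  by_cases hc : ((a, b), 1) ∈ D
  · have : ∀ j : ℕ, ((a - j, b + j), (1 : Fin 2)) ∈ D := by
      intro j
      induction j with
      | zero => simpa using hc
      | succ j ih =>
        have := (h2 _ _ (by omega)).1 ((h1 _ _ (by ring)).1 ih)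
        push_cast
        rwa [← sub_sub, ← add_assoc]
    refine Set.infinite_of_injective_forall_mem
      (f := fun j : ℕ => ((a - j, b + j), (1 : Fin 2))) (fun i j hij => ?_) this D.finite_toSet
    simp only [Prod.mk.injEq] at hij
    omega
  · have hc' : ((a, b), 0) ∈ D := by tauto
    have : ∀ j : ℕ, ((a + j, b - j), (0 : Fin 2)) ∈ D := by
      intro j
      induction j with
      | zero => simpa using hc'
      | succ j ih =>
        have := (h1 (a + j + 1) (b - j - 1) (by ring)).2 (by simpa using ih)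
        have := (h2 _ _ (by omega)).2 this
        push_cast
        rwa [← sub_sub, ← add_assoc]
    refine Set.infinite_of_injective_forall_mem
      (f := fun j : ℕ => ((a + j, b - j), (0 : Fin 2))) (fun i j hij => ?_) this D.finite_toSet
    simp only [Prod.mk.injEq] at hij
    omega

lemma balc_of_wgt {ν : Nums} {f : Pat → ℝ} {ψ : Finset (At1 Q) → (Q → Pat) → ℝ} {C : Finset (Atm Q)} (h : wgt ν e f ψ C ≠ 0) :
    Balc e C.toRight.toRight := by
  by_contra hc
  exact h (if_neg fun a => hc a.2.2.2)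

lemma pord_aor {C : Finset (Atm Q)} (hC : Vld e C) (hD : C.toRight.toRight = ∅) :
    ∀ α ∈ C, 1 ≤ aor α := by
  intro α hα
  rcases α with X | X | a
  · have : X.Nonempty := (hC.2 _ hα).1
    have := card_pos.2 this
    simp only [aor]
    split_ifs <;> omega
  · simp [aor]
  · have : a ∈ C.toRight.toRight := mem_toRight.2 (mem_toRight.2 hα)
    rw [hD] at this
    exact absurd this (notMem_empty _)

theorem one_le_ord (he : DirT e) {C : Finset (Atm Q)} (hC : Vld e C)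
    (hB : Balc e C.toRight.toRight) : 1 ≤ ord e C := by
  rcases C.toRight.toRight.eq_empty_or_nonempty with hD | hD
  · obtain ⟨α, hα⟩ := hC.1.1
    exact ((pord_aor hC hD α hα).trans (single_le_sum (f := aor) (fun _ _ => Nat.zero_le _) hα)).trans
      (Nat.le_add_left _ _)
  · exact (one_le_crs he hB hD).trans (Nat.le_add_right _ _)

theorem min_le_ord {C : Finset (Atm (ℤ × ℤ))} (hC : Vld eP C)
    (hB : Balc eP C.toRight.toRight) : min (lenP (SS (asp eP) C)) 2 ≤ ord eP C := by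
  by_cases h2 : 2 ≤ ord eP C
  · exact (min_le_right _ _).trans h2
  refine (min_le_left _ _).trans (le_trans ?_ (one_le_ord dirT_eP hC hB))
  have h1 := crs_ne_one hB
  unfold ord at h2
  have hD : C.toRight.toRight = ∅ := by
    by_contra hc
    have := one_le_crs dirT_eP hB (nonempty_iff_ne_empty.2 hc)
    omega
  have h3 := pord_aor hC hD
  have h4 : C.card ≤ ∑ α ∈ C, aor α := by
    simpa using card_nsmul_le_sum C aor 1 h3
  have h5 := card_pos.2 hC.1.1
  obtain ⟨α, rfl⟩ := card_eq_one.1 (show C.card = 1 by omega)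
  rw [sum_singleton] at h2
  rcases α with X | X | a
  · have h6 : X.Nonempty := (hC.2 _ (mem_singleton_self _)).1
    have h7 := card_pos.2 h6
    simp only [aor] at h2
    split_ifs at h2 with h8
    swap
    · omega
    obtain ⟨β, rfl⟩ := card_eq_one.1 (show X.card = 1 by omega)
    rcases β with ⟨⟨x, y⟩, j⟩ | y
    swap
    · have : y ∈ ({Sum.inr y} : Finset (At1 (ℤ × ℤ))).toRight := by simp
      rw [h8] at this
      exact absurd this (notMem_empty _)
    have key : ∀ p ∈ (SS (asp eP) ({Sum.inl {Sum.inl ((x, y), j)}} : Finset (Atm (ℤ × ℤ)))).biUnion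
        (ph eP), p = (x, y) ∨ p = (x, y) + eP j := by
      intro p hp
      obtain ⟨⟨q, t⟩, ht, hp⟩ := mem_biUnion.1 hp
      simp only [SS, singleton_biUnion, asp, h8, if_true, s1, mem_product, mem_insert,
        mem_singleton] at ht
      have : t ≠ 2 := by rcases ht.2 with rfl | rfl <;> decide
      simp only [ph, this, if_false, mem_singleton] at hp
      rw [hp]
      exact ht.1
    have k1 : diam (((SS (asp eP) ({Sum.inl {Sum.inl ((x, y), j)}} :
        Finset (Atm (ℤ × ℤ)))).biUnion (ph eP)).image Prod.fst) ≤ (eP j).1.natAbs := by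
      refine diam_le fun a ha b hb => ?_
      obtain ⟨p, hp, rfl⟩ := mem_image.1 ha
      obtain ⟨p', hp', rfl⟩ := mem_image.1 hb
      rcases key p hp with rfl | rfl <;> rcases key p' hp' with rfl | rfl <;> simp
    have k2 : diam (((SS (asp eP) ({Sum.inl {Sum.inl ((x, y), j)}} :
        Finset (Atm (ℤ × ℤ)))).biUnion (ph eP)).image Prod.snd) ≤ (eP j).2.natAbs := by
      refine diam_le fun a ha b hb => ?_
      obtain ⟨p, hp, rfl⟩ := mem_image.1 ha
      obtain ⟨p', hp', rfl⟩ := mem_image.1 hb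
      rcases key p hp with rfl | rfl <;> rcases key p' hp' with rfl | rfl <;> simp
    refine (Nat.add_le_add k1 k2).trans ?_
    fin_cases j <;> simp
  · simp only [aor] at h2
    omega
  · simpa [aor] using h3 _ (mem_singleton_self _)

lemma pord_node {ν : Nums} (hν : ν.Ok) {f : Pat → ℝ} (hf : FB ν f) {A : Pat} (hA : A ∈ Ev) :
    0 < f A ∧ (f A * (2 ^ ν.m1) ^ (if IsCross A then 1 else 0)) ^ 2 ≤ ν.ηh ^ ∑ i, (A i).val := by
  have l0 := hν.l0
  rcases pord_cases A hA with rfl | rfl | rfl | rfl | ⟨h1, h2⟩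
  · rw [if_neg (by decide), hf.f0]
    simp
  · rw [if_neg (by decide), show ∑ i, ((![1, 1, 0, 0] : Pat) i).val = 2 by decide, pow_zero, mul_one]
    have := l0.trans_le hf.a.1
    exact ⟨this, pow_le_pow_left₀ this.le hf.a.2 2⟩
  · rw [if_neg (by decide), show ∑ i, ((![0, 0, 1, 1] : Pat) i).val = 2 by decide, pow_zero, mul_one]
    have := l0.trans_le hf.b.1
    exact ⟨this, pow_le_pow_left₀ this.le hf.b.2 2⟩
  · rw [if_neg (by decide), show ∑ i, ((![1, 1, 1, 1] : Pat) i).val = 2 * 2 by decide, pow_zero,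
      mul_one, pow_mul]
    exact ⟨hf.ab.1, pow_le_pow_left₀ hf.ab.1.le hf.ab.2 2⟩
  · rw [if_pos h1, h2, pow_one]
    have a := hf.cr A hA h1
    have := hν.x0.trans_le a.1
    refine ⟨this, pow_le_pow_left₀ (by positivity) (le_trans ?_ hν.h2) 2⟩
    gcongr
    exact a.2

lemma pord_cnt (D : Finset (Ed Q)) (i : Fin 4) (j : Fin 2) (v : Q) (h : ∀ q, slot e q i = (q - v, j)) :
    ∑ q ∈ ends e D, (pat e D q i).val = (D.filter fun a => a.2 = j).card := by
  have a : ∀ q, (pat e D q i).val = if slot e q i ∈ D then 1 else 0 := fun q => by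
    unfold pat
    split_ifs <;> rfl
  simp only [a]
  rw [← card_filter]
  refine card_bij (fun q _ => slot e q i) (fun q hq => ?_) (fun q _ q' _ hq => ?_) fun b hb => ?_
  · exact mem_filter.2 ⟨(mem_filter.1 hq).2, by rw [h]⟩
  · simpa [h] using hq
  · obtain ⟨b1, b2⟩ := mem_filter.1 hb
    have c : slot e (b.1 + v) i = b := by rw [h, add_sub_cancel_right, ← b2]
    exact ⟨b.1 + v, mem_filter.2 ⟨pord_ends (i := i) (by rwa [c]), by rwa [c]⟩, c⟩

lemma pord_deg (D : Finset (Ed Q)) : ∑ q ∈ ends e D, ∑ i, (pat e D q i).val = D.card * 2 := by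
  rw [sum_comm, Fin.sum_univ_four, pord_cnt D 0 1 (e 1) fun _ => rfl,
    pord_cnt D 1 0 (e 0) fun _ => rfl, pord_cnt D 2 0 0 fun _ => by simp [slot],
    pord_cnt D 3 1 0 fun _ => by simp [slot]]
  have := card_filter_add_card_filter_not (s := D) fun a => a.2 = 0
  have e : (D.filter fun a => ¬ a.2 = 0) = D.filter fun a => a.2 = 1 :=
    filter_congr fun a _ => by
      generalize a.2 = j
      revert j
      decide
  rw [e] at this
  omega

theorem prod_f_le {ν : Nums} (hν : ν.Ok) {f : Pat → ℝ} (hf : FB ν f) {D : Finset (Ed Q)}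
    (hB : Balc e D) :
    0 < ∏ q ∈ ends e D, f (pat e D q) ∧
      (∏ q ∈ ends e D, f (pat e D q)) * (2 ^ ν.m1) ^ crs e D ≤ ν.ηh ^ D.card := by
  refine ⟨prod_pos fun q _ => (pord_node hν hf (hB q)).1, ?_⟩
  refine (pow_le_pow_iff_left₀ (n := 2) ?_ (pow_nonneg hν.h0.le _) two_ne_zero).1 ?_
  · exact mul_nonneg (prod_nonneg fun q _ => (pord_node hν hf (hB q)).1.le) (by positivity)
  rw [← pow_mul ν.ηh, ← pord_deg (e := e), crs, card_filter, ← prod_pow_eq_pow_sum,
    ← prod_pow_eq_pow_sum, ← prod_mul_distrib, ← prod_pow]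
  exact prod_le_prod (fun _ _ => sq_nonneg _) fun q _ => (pord_node hν hf (hB q)).2

theorem ghost_of_neg {ν : Nums} {f : Pat → ℝ} {ψ : Finset (At1 Q) → (Q → Pat) → ℝ} (hν : ν.Ok) (hf : FB ν f) (hψ : QB ν e ψ)
    {C : Finset (Atm Q)} (hC : Vld e C) (h : wgt ν e f ψ C < 0) :
    ∃ X : Finset (At1 Q), C = {.inr (.inl X)} ∧ X.toRight ≠ ∅ := by
  classical
  unfold wgt at h
  split_ifs at h with hh
  swap
  · exact absurd h (lt_irrefl 0)
  obtain ⟨-, h2, h3, hB⟩ := hh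
  rcases C.toRight.toLeft.eq_empty_or_nonempty with h0 | ⟨X, hX⟩
  · rw [h0, prod_empty, mul_one] at h
    refine absurd h (not_lt.mpr (mul_nonneg (prod_nonneg fun X _ => ?_)
      (prod_f_le hν hf hB).1.le))
    by_cases a : X.toRight = ∅
    · rw [Th, if_pos a, add_zero]
      exact (hψ.pure X _ a hB).1
    · linarith [(abs_le.1 (hψ.mix X _ a hB)).1]
  have hX' : Sum.inr (Sum.inl X) ∈ C := mem_toRight.mp (mem_toLeft.mp hX)
  refine ⟨X, eq_singleton_iff_unique_mem.mpr ⟨hX', ?_⟩, fun a => ?_⟩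
  · refine hC.1.induction (fun α => α = Sum.inr (Sum.inl X)) hX' rfl ?_
    rintro _ - β hβ rfl hd
    obtain ⟨q, q1, q2⟩ := not_disjoint_iff.mp hd
    obtain ⟨q3, q4⟩ := mem_product.mp q1
    rcases β with X' | X' | b
    · exact absurd q3 (disjoint_left.mp (h3 X' (mem_toLeft.mpr hβ) X hX) (mem_product.mp q2).1)
    · by_contra hne
      exact disjoint_left.mp (h2 X' (mem_toLeft.mpr (mem_toRight.mpr hβ)) X hX
        fun h => hne (by rw [h])) (mem_product.mp q2).1 q3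
    · simp only [asp, mem_insert, mem_singleton] at q2
      rcases q2 with rfl | rfl <;> simp at q4
  · rw [prod_eq_zero hX (by rw [Th, if_pos a, neg_zero])] at h
    simp at h

end Pool.Agent.MP_646035_al.PC

namespace Pool.Agent.MP_646035_al.PC

open Finset PT

variable {n k : ℕ} {Q : Type} [AddCommGroup Q] [DecidableEq Q] {e : Fin 2 → Q}

/-- The bound for the weight of one atom. -/
noncomputable def psum_b (ν : Nums) : Atm Q → ℝ
  | .inl X => if X.toRight = ∅ then ν.θE ^ X.card else 2 * Th ν X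
  | .inr (.inl X) => Th ν X
  | .inr (.inr _) => ν.ηh

omit [AddCommGroup Q] in
lemma psum_Th_nonneg {ν : Nums} (hν : ν.Ok) (X : Finset (At1 Q)) : 0 ≤ Th ν X := by
  unfold Th
  split_ifs
  · exact le_rfl
  · exact mul_nonneg (pow_nonneg hν.e0 _) (pow_nonneg hν.y0 _)

omit [AddCommGroup Q] in
lemma psum_b_nonneg {ν : Nums} (hν : ν.Ok) (α : Atm Q) : 0 ≤ psum_b ν α := by
  rcases α with X | X | a
  · simp only [psum_b]
    split_ifs
    · exact pow_nonneg hν.e0 _
    · exact mul_nonneg zero_le_two (psum_Th_nonneg hν X)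
  · exact psum_Th_nonneg hν X
  · exact hν.h0.le

lemma psum_abs_wgt {ν : Nums} {f : Pat → ℝ} {ψ : Finset (At1 Q) → (Q → Pat) → ℝ} (hν : ν.Ok)
    (hf : FB ν f) (hψ : QB ν e ψ) (C : Finset (Atm Q)) :
    |wgt ν e f ψ C| * (2 ^ ν.m1) ^ crs e C.toRight.toRight ≤ ∏ α ∈ C, psum_b ν α := by
  classical
  unfold wgt
  split_ifs with h
  swap
  · rw [abs_zero, zero_mul]
    exact prod_nonneg fun α _ => psum_b_nonneg hν α
  obtain ⟨-, -, -, hB⟩ := h
  rw [prod_sum_eq_prod_toLeft_mul_prod_toRight, prod_sum_eq_prod_toLeft_mul_prod_toRight]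
  set D := C.toRight.toRight
  obtain ⟨p0, p1⟩ := prod_f_le hν hf hB
  have h1 : |∏ X ∈ C.toLeft, (ψ X (pat e D) + Th ν X)| ≤
      ∏ X ∈ C.toLeft, psum_b ν (.inl X : Atm Q) := by
    rw [abs_prod]
    refine prod_le_prod (fun _ _ => abs_nonneg _) fun X _ => ?_
    simp only [psum_b]
    split_ifs with hX
    · obtain ⟨a, b⟩ := hψ.pure X (pat e D) hX hB
      have : Th ν X = 0 := if_pos hX
      rw [this, add_zero, abs_of_nonneg a]
      exact b
    · have a := hψ.mix X (pat e D) hX hB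
      have b := psum_Th_nonneg hν X
      refine (abs_add_le _ _).trans ?_
      rw [abs_of_nonneg b]
      linarith
  have h2 : |∏ X ∈ C.toRight.toLeft, -Th ν X| ≤
      ∏ X ∈ C.toRight.toLeft, psum_b ν (.inr (.inl X) : Atm Q) := by
    rw [abs_prod]
    refine prod_le_prod (fun _ _ => abs_nonneg _) fun X _ => ?_
    rw [abs_neg, abs_of_nonneg (psum_Th_nonneg hν X)]
    exact le_rfl
  have h3 : ∏ a ∈ D, psum_b ν (.inr (.inr a) : Atm Q) = ν.ηh ^ D.card := by
    simp only [psum_b, prod_const]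
  have q1 : 0 ≤ ∏ X ∈ C.toLeft, psum_b ν (.inl X : Atm Q) := (abs_nonneg _).trans h1
  have q2 : 0 ≤ ∏ X ∈ C.toRight.toLeft, psum_b ν (.inr (.inl X) : Atm Q) :=
    (abs_nonneg _).trans h2
  rw [h3, abs_mul, abs_mul, abs_of_pos p0, mul_assoc, ← mul_assoc (∏ X ∈ C.toLeft, _)]
  exact mul_le_mul (mul_le_mul h1 h2 (abs_nonneg _) q1) p1 (by positivity) (mul_nonneg q1 q2)

lemma psum_card_s1 (α : At1 Q) : (s1 e α).card ≤ 6 := by
  rcases α with a | y
  · exact card_le_two.trans (by norm_num)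
  · exact card_le_six

lemma psum_sites {ρ : ℝ} (h0 : 0 ≤ ρ) (h1 : ρ ≤ 1 / 729000) (𝒳 : Finset (Finset (At1 Q)))
    (h𝒳 : ∀ X ∈ 𝒳, Conn (s1 e) X) (v : Q) :
    ∑ X ∈ 𝒳 with v ∈ SS (s1 e) X, ρ ^ X.card ≤ 1 / 100 := by
  have h := tree_bound_pt (supp := s1 e) (𝒳.biUnion id) (fun _ => ρ) (fun _ _ => h0)
    (s := 1 / 100) (by norm_num) (fun q => ?_) v
  · simp only [prod_const] at h
    refine le_trans (sum_le_sum_of_subset_of_nonneg (filter_subset_filter _ fun X hX => ?_)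
      fun _ _ _ => pow_nonneg h0 _) h
    exact mem_conns.mpr ⟨subset_biUnion_of_mem id hX, h𝒳 X hX⟩
  · refine (summ_few (T := (({(q, 0), (q, 1), (q - e 0, 0), (q - e 1, 1)} : Finset (Ed Q)).disjSum
      ({q, q - e 0, q - e 1, q - eT e, q + eT e, q - e 0 + eT e} : Finset Q)))
      (c := ρ * 729) (k := 10) (by positivity) (fun j hj => ?_) ?_ fun j _ => ?_).trans
      (by push_cast; linarith)
    · have := (mem_filter.mp hj).2
      rcases j with ⟨p, i⟩ | y
      · simp only [s1, mem_insert, mem_singleton] at this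
        rw [inl_mem_disjSum]
        rcases this with rfl | rfl <;> fin_cases i <;> simp
      · simp only [s1, str, mem_insert, mem_singleton] at this
        rw [inr_mem_disjSum]
        simp only [mem_insert, mem_singleton]
        rcases this with rfl | rfl | rfl | rfl | rfl | rfl
        · exact Or.inl rfl
        · exact Or.inr (Or.inl (by abel))
        · exact Or.inr (Or.inr (Or.inl (by abel)))
        · exact Or.inr (Or.inr (Or.inr (Or.inl (by abel))))
        · exact Or.inr (Or.inr (Or.inr (Or.inr (Or.inl (by abel)))))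
        · exact Or.inr (Or.inr (Or.inr (Or.inr (Or.inr (by abel)))))
    · rw [card_disjSum]
      exact Nat.add_le_add card_le_four card_le_six
    · refine mul_le_mul_of_nonneg_left ((summ_exp _).trans ?_) h0
      exact (pow_le_pow_right₀ (by norm_num) (psum_card_s1 j)).trans (by norm_num)

lemma psum_exp (X : Finset (At1 Q)) {m : ℕ} (hm : m ≤ (SS (s1 e) X).card * 3) :
    Real.exp (2 * m) * Real.exp m ≤ (3 ^ 54) ^ X.card := by
  have h1 : (SS (s1 e) X).card ≤ X.card * 6 :=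
    card_biUnion_le_card_mul _ _ _ fun j _ => psum_card_s1 j
  rw [← Real.exp_add, ← pow_mul, show 2 * (m : ℝ) + m = (3 * m : ℕ) by push_cast; ring]
  exact (summ_exp _).trans (pow_le_pow_right₀ (by norm_num) (by omega))

omit [AddCommGroup Q] in
lemma psum_Th_le {ν : Nums} (hν : ν.Ok) (X : Finset (At1 Q)) :
    Th ν X * (((2 : ℝ) ^ ν.m2) ^ (28 * X.card) * (2 ^ ν.m1) ^ 2) ≤ (1 / 10 ^ 40) ^ X.card := by
  unfold Th
  split_ifs with hX
  · rw [zero_mul]
    positivity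
  have hR : 1 ≤ X.toRight.card := card_pos.mpr (nonempty_iff_ne_empty.mpr hX)
  rw [← card_toLeft_add_card_toRight (u := X)]
  generalize X.toLeft.card = L at *
  generalize X.toRight.card = R at *
  have hE := hν.e0
  have hY := hν.y0
  have one1 : (1 : ℝ) ≤ 2 ^ ν.m1 := one_le_pow₀ one_le_two
  have a1 : (ν.θE * 2 ^ ν.m1 * 2 ^ (28 * ν.m2)) ^ L ≤ (1 / 10 ^ 40) ^ L :=
    pow_le_pow_left₀ (by positivity) hν.h3 L
  have a2 : (ν.θY * 4 ^ ν.m1 * 2 ^ (28 * ν.m2)) ^ R ≤ (1 / 10 ^ 40) ^ R :=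
    pow_le_pow_left₀ (by positivity) hν.h4 R
  have a3 : ((2 : ℝ) ^ ν.m1) ^ 2 ≤ (2 ^ ν.m1) ^ L * (4 ^ ν.m1) ^ R := by
    have e4 : (4 : ℝ) ^ ν.m1 = (2 ^ ν.m1) ^ 2 := by
      rw [← pow_mul, mul_comm, pow_mul]
      norm_num
    rw [e4, ← pow_mul (2 ^ ν.m1 : ℝ) 2 R, ← pow_add]
    exact pow_le_pow_right₀ one1 (by omega)
  have e2 : ((2 : ℝ) ^ ν.m2) ^ (28 * (L + R)) =
      (2 ^ (28 * ν.m2)) ^ L * (2 ^ (28 * ν.m2)) ^ R := by
    rw [← pow_add, ← pow_mul, ← pow_mul]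
    congr 1
    ring
  rw [e2, pow_add (1 / 10 ^ 40 : ℝ)]
  refine le_trans ?_ (mul_le_mul a1 a2 (by positivity) (by positivity))
  rw [mul_pow, mul_pow, mul_pow, mul_pow]
  generalize ((2 : ℝ) ^ ν.m1) ^ 2 = A at *
  have b1 : 0 ≤ ν.θE ^ L * ν.θY ^ R *
      ((2 ^ (28 * ν.m2)) ^ L * (2 ^ (28 * ν.m2)) ^ R) := by positivity
  have := mul_le_mul_of_nonneg_left a3 b1
  linarith

omit [AddCommGroup Q] [DecidableEq Q] in
lemma psum_pure_le {ν : Nums} (hν : ν.Ok) (m : ℕ) :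
    ν.θE ^ m * (((2 : ℝ) ^ ν.m2) ^ (2 * m) * (2 ^ ν.m1) ^ m) ≤ (1 / 10 ^ 40) ^ m := by
  have hE := hν.e0
  refine le_trans ?_ (pow_le_pow_left₀ (by positivity) hν.h3 m)
  have a : ((2 : ℝ) ^ ν.m2) ^ (2 * m) ≤ (2 ^ (28 * ν.m2)) ^ m := by
    rw [← pow_mul, ← pow_mul]
    exact pow_le_pow_right₀ one_le_two (by nlinarith [Nat.zero_le (ν.m2 * m)])
  rw [mul_pow, mul_pow]
  have b1 : 0 ≤ ν.θE ^ m * ((2 : ℝ) ^ ν.m1) ^ m := by positivity
  have := mul_le_mul_of_nonneg_left a b1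
  linarith

lemma psum_comb {b A B W c u v : ℝ} {m : ℕ} (hW : b * W ≤ c * u ^ m)
    (hAB : A * B ≤ v ^ m) (h0 : 0 ≤ b * W) (hA : 0 ≤ A * B) :
    b * A * W * B ≤ c * (u * v) ^ m := by
  have := mul_le_mul hW hAB hA (h0.trans hW)
  rw [mul_pow]
  linarith

lemma psum_atoms {ν : Nums} (hν : ν.Ok) (𝒜 : Finset (Atm Q)) (h𝒜 : ∀ α ∈ 𝒜, VAtm e α)
    (t : Q × Fin 3) : ∑ β ∈ 𝒜 with t ∈ asp e β,
      psum_b ν β * Real.exp (2 * (asp e β).card) *
        ((2 ^ ν.m2) ^ asz' β * (2 ^ ν.m1) ^ aor β) * Real.exp (asp e β).card ≤ 1 / 6 := by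
  have h0 : (0 : ℝ) ≤ 1 / 10 ^ 40 * 3 ^ 54 := by positivity
  have h1 : (1 / 10 ^ 40 * 3 ^ 54 : ℝ) ≤ 1 / 729000 := by norm_num
  set S := 𝒜.filter fun β => t ∈ asp e β with hS
  have key : ∀ (𝒳 : Finset (Finset (At1 Q))) (g : Finset (At1 Q) → ℝ),
      (∀ X ∈ 𝒳, Conn (s1 e) X ∧ t.1 ∈ SS (s1 e) X) →
      (∀ X ∈ 𝒳, g X ≤ 2 * (1 / 10 ^ 40 * 3 ^ 54) ^ X.card) → ∑ X ∈ 𝒳, g X ≤ 2 / 100 := by
    intro 𝒳 g a b
    have := psum_sites h0 h1 𝒳 (fun X hX => (a X hX).1) t.1
    rw [filter_true_of_mem fun X hX => (a X hX).2] at this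
    refine (sum_le_sum b).trans ?_
    rw [← mul_sum]
    linarith
  have hη := hν.h0
  have hη1 := hν.h1
  rw [sum_sum_eq_sum_toLeft_add_sum_toRight, sum_sum_eq_sum_toLeft_add_sum_toRight]
  refine (add_le_add (key _ _ (fun X hX => ?_) fun X _ => ?_) (add_le_add
    (key _ _ (fun X hX => ?_) fun X _ => ?_) (summ_few (c := ν.ηh * 2 ^ ν.m2 * 3 ^ 6) (k := 4)
      (T := {(t.1, 0), (t.1, 1), (t.1 - e 0, 0), (t.1 - e 1, 1)})
      (by positivity) (fun b hb => ?_) card_le_four fun b _ => ?_))).trans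
    (by push_cast; linarith)
  · obtain ⟨a, b⟩ := mem_filter.mp (mem_toLeft.mp hX)
    exact ⟨h𝒜 _ a, (mem_product.mp b).1⟩
  · have hc : (asp e (.inl X)).card ≤ (SS (s1 e) X).card * 3 := by
      simp only [asp, card_product]
      refine Nat.mul_le_mul_left _ ((card_le_univ _).trans ?_)
      simp
    refine psum_comb ?_ (psum_exp X hc) (mul_nonneg (psum_b_nonneg hν _) (by positivity))
      (by positivity)
    simp only [psum_b, asz', aor]
    split_ifs with hX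
    · have := psum_pure_le hν X.card
      have p : (0 : ℝ) ≤ (1 / 10 ^ 40) ^ X.card := by positivity
      linarith
    · have := psum_Th_le hν X
      linarith
  · obtain ⟨a, b⟩ := mem_filter.mp (mem_toRight.mp (mem_toLeft.mp hX))
    exact ⟨h𝒜 _ a, (mem_product.mp b).1⟩
  · have hc : (asp e (.inr (.inl X))).card ≤ (SS (s1 e) X).card * 3 := by
      simp only [asp, card_product]
      refine Nat.mul_le_mul_left _ ((card_le_univ _).trans ?_)
      simp
    refine psum_comb ?_ (psum_exp X hc) (mul_nonneg (psum_b_nonneg hν _) (by positivity))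
      (by positivity)
    simp only [psum_b, asz', aor]
    have := psum_Th_le hν X
    have p : (0 : ℝ) ≤ (1 / 10 ^ 40) ^ X.card := by positivity
    linarith
  · obtain ⟨j, i⟩ := b
    have := (mem_filter.mp (mem_toRight.mp (mem_toRight.mp hb))).2
    simp only [asp, mem_insert, mem_singleton] at this
    rcases this with rfl | rfl <;> fin_cases i <;> simp
  · have hc : (asp e (.inr (.inr b))).card ≤ 2 := card_le_two
    generalize (asp e (.inr (.inr b))).card = m at hc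
    have h2 : Real.exp (2 * m) * Real.exp m ≤ 3 ^ 6 := by
      rw [← Real.exp_add, show 2 * (m : ℝ) + m = (3 * m : ℕ) by push_cast; ring]
      exact (summ_exp _).trans (pow_le_pow_right₀ (by norm_num) (by omega))
    have h3 : 0 ≤ ν.ηh * 2 ^ ν.m2 := by positivity
    have := mul_le_mul_of_nonneg_left h2 h3
    simp only [psum_b, asz', aor, pow_one, pow_zero, mul_one]
    linarith

theorem sum_wgt_le {ν : Nums} {f : Pat → ℝ} {ψ : Finset (At1 Q) → (Q → Pat) → ℝ} (hν : ν.Ok) (hf : FB ν f) (hψ : QB ν e ψ)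
    (U : Finset (Finset (Atm Q))) (hU : ∀ C ∈ U, Vld e C) (t : Q × Fin 3) :
    ∑ C ∈ U with t ∈ SS (asp e) C, |wgt ν e f ψ C| * Real.exp (2 * (SS (asp e) C).card) *
      ((2 ^ ν.m2) ^ (∑ α ∈ C, asz' α) * (2 ^ ν.m1) ^ ord e C) ≤ 1 / 6 := by
  have hω : ∀ α : Atm Q, 0 ≤ psum_b ν α * Real.exp (2 * (asp e α).card) *
      ((2 ^ ν.m2) ^ asz' α * (2 ^ ν.m1) ^ aor α) :=
    fun α => by have := psum_b_nonneg hν α; positivity
  have h := tree_bound_pt (supp := asp e) (U.biUnion id)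
    (fun α => psum_b ν α * Real.exp (2 * (asp e α).card) *
      ((2 ^ ν.m2) ^ asz' α * (2 ^ ν.m1) ^ aor α)) (fun α _ => hω α)
    (s := 1 / 6) (by norm_num) (psum_atoms hν _ fun α hα => by
      obtain ⟨C, hC, hα⟩ := mem_biUnion.mp hα
      exact (hU C hC).2 α hα) t
  refine le_trans (sum_le_sum fun C _ => ?_) (le_trans (sum_le_sum_of_subset_of_nonneg
    (filter_subset_filter _ fun C hC => ?_) fun _ _ _ => prod_nonneg fun α _ => hω α) h)
  · rw [prod_mul_distrib, prod_mul_distrib, prod_mul_distrib, prod_pow_eq_pow_sum,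
      prod_pow_eq_pow_sum, ← Real.exp_sum, ← mul_sum]
    have h1 := psum_abs_wgt hν hf hψ C
    have h2 : ((SS (asp e) C).card : ℝ) ≤ ∑ α ∈ C, ((asp e α).card : ℝ) := by
      exact_mod_cast (card_biUnion_le : (SS (asp e) C).card ≤ _)
    have h3 : Real.exp (2 * (SS (asp e) C).card) ≤
        Real.exp (2 * ∑ α ∈ C, ((asp e α).card : ℝ)) := Real.exp_le_exp.mpr (by linarith)
    have h4 := mul_le_mul h1 h3 (Real.exp_pos _).le (le_trans (by positivity) h1)
    have h5 : (0 : ℝ) ≤ (2 ^ ν.m2) ^ (∑ α ∈ C, asz' α) * (2 ^ ν.m1) ^ ∑ α ∈ C, aor α := by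
      positivity
    have h6 := mul_le_mul_of_nonneg_right h4 h5
    unfold ord
    rw [pow_add]
    linarith
  · exact mem_conns.mpr ⟨subset_biUnion_of_mem id hC, (hU C hC).1⟩

lemma psum_one_le (a b c d : ℕ) : (1 : ℝ) ≤ (2 ^ a) ^ b * (2 ^ c) ^ d :=
  one_le_mul_of_one_le_of_one_le (one_le_pow₀ (one_le_pow₀ one_le_two))
    (one_le_pow₀ (one_le_pow₀ one_le_two))

theorem kp_of_vld {ν : Nums} {f : Pat → ℝ} {ψ : Finset (At1 Q) → (Q → Pat) → ℝ} (hν : ν.Ok) (hf : FB ν f) (hψ : QB ν e ψ)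
    (U : Finset (Finset (Atm Q))) (hU : ∀ C ∈ U, Vld e C) :
    KP (SS (asp e)) (wgt ν e f ψ) U := by
  refine ⟨fun C hC => (hU C hC).nonempty, fun q => le_trans (sum_le_sum fun C _ => ?_)
    ((sum_wgt_le hν hf hψ U hU q).trans (by norm_num))⟩
  refine le_trans ?_ (le_mul_of_one_le_right (by positivity) (psum_one_le _ _ _ _))
  have : (0 : ℝ) ≤ (SS (asp e) C).card := by positivity
  exact mul_le_mul_of_nonneg_left (Real.exp_le_exp.mpr (by linarith)) (abs_nonneg _)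

theorem total_le {ν : Nums} {f : Pat → ℝ} {ψ : Finset (At1 Q) → (Q → Pat) → ℝ} (hν : ν.Ok) (hf : FB ν f) (hψ : QB ν e ψ)
    (U : Finset (Finset (Atm Q))) (A : Finset Q) (hU : ∀ C ∈ U, Vld e C ∧ nds e C ⊆ A) :
    ∑ C ∈ U, |wgt ν e f ψ C| * Real.exp (2 * (SS (asp e) C).card) *
      ((2 ^ ν.m2) ^ (∑ α ∈ C, asz' α) * (2 ^ ν.m1) ^ ord e C) ≤ A.card / 2 := by
  have h := conn_union_bound U (A ×ˢ (univ : Finset (Fin 3))) (fun t C => t ∈ SS (asp e) C)
    (fun _ => True) (fun C => |wgt ν e f ψ C| * Real.exp (2 * (SS (asp e) C).card) *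
      ((2 ^ ν.m2) ^ (∑ α ∈ C, asz' α) * (2 ^ ν.m1) ^ ord e C)) (fun C _ => by positivity)
    fun C hC _ => by
      obtain ⟨t, ht⟩ := (hU C hC).1.nonempty
      exact ⟨t, mem_product.mpr ⟨(hU C hC).2 (mem_image_of_mem _ ht), mem_univ _⟩, ht⟩
  rw [filter_true_of_mem fun _ _ => trivial] at h
  refine h.trans ((sum_le_sum fun t _ => sum_wgt_le hν hf hψ U (fun C hC => (hU C hC).1) t).trans
    (le_of_eq ?_))
  rw [sum_const, card_product, card_univ, Fintype.card_fin, nsmul_eq_mul]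
  push_cast
  ring

theorem abs_lX_le (he : DirT e) {ν : Nums} {f : Pat → ℝ} {ψ : Finset (At1 Q) → (Q → Pat) → ℝ} (hν : ν.Ok) (hf : FB ν f) (hψ : QB ν e ψ)
    (U : Finset (Finset (Atm Q))) (A : Finset Q) (hU : ∀ C ∈ U, Vld e C ∧ nds e C ⊆ A) :
    |lX ν e f ψ U| ≤ A.card / 2 ^ ν.m1 := by
  classical
  have hK := kp_of_vld hν hf hψ U fun C hC => (hU C hC).1
  have h := hK.remove (Λ := U) (N := U) Subset.rfl
  rw [Finset.sdiff_self, Xi_empty, Real.log_one, sub_zero, filter_true_of_mem fun _ h => h] at h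
  have ht := total_le hν hf hψ U A hU
  have hp : (0 : ℝ) < 2 ^ ν.m1 := by positivity
  refine h.trans ?_
  rw [le_div_iff₀ hp, sum_mul]
  refine le_trans (sum_le_sum (g := fun C => 2 * (|wgt ν e f ψ C| *
    Real.exp (2 * (SS (asp e) C).card) *
      ((2 ^ ν.m2) ^ (∑ α ∈ C, asz' α) * (2 ^ ν.m1) ^ ord e C))) fun C hC => ?_) ?_
  · by_cases hw : wgt ν e f ψ C = 0
    · simp [hw]
    have ho := one_le_ord he (hU C hC).1 (balc_of_wgt hw)
    have a1 : (2 : ℝ) ^ ν.m1 ≤ (2 ^ ν.m2) ^ (∑ α ∈ C, asz' α) * (2 ^ ν.m1) ^ ord e C :=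
      (le_self_pow₀ (one_le_pow₀ one_le_two) (by omega)).trans
        (le_mul_of_one_le_left (by positivity) (one_le_pow₀ (one_le_pow₀ one_le_two)))
    have a0 : (0 : ℝ) ≤ (SS (asp e) C).card := by positivity
    have a2 : Real.exp (SS (asp e) C).card ≤ Real.exp (2 * (SS (asp e) C).card) :=
      Real.exp_le_exp.mpr (by linarith)
    have a3 := mul_le_mul_of_nonneg_left (mul_le_mul a2 a1 hp.le (Real.exp_pos _).le)
      (abs_nonneg (wgt ν e f ψ C))
    linarith
  · rw [← mul_sum]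
    linarith

theorem lX_window {ν : Nums} {f : Pat → ℝ} {ψ : Finset (At1 Q) → (Q → Pat) → ℝ} (hν : ν.Ok) (hf : FB ν f) (hψ : QB ν e ψ) (V : Finset Q) :
    |lX ν e f ψ (conns (asp e) (atms e V)) - lX ν e f ψ (pls e V)| ≤
      3 * (SS (str e) V \ V).card := by
  classical
  have hK := kp_of_vld hν hf hψ (conns (asp e) (atms e V)) fun C hC => (vld_of_mem_conns hC).1
  have h := hK.Dl_le Subset.rfl ((SS (str e) V \ V) ×ˢ (univ : Finset (Fin 3)))
  have he : away (SS (asp e)) (conns (asp e) (atms e V))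
      ((SS (str e) V \ V) ×ˢ (univ : Finset (Fin 3))) = pls e V := by
    unfold away pls above
    refine filter_congr fun C hC => ?_
    have hs := (vld_of_mem_conns hC).2
    rw [disjoint_left]
    refine forall₂_congr fun q hq => ?_
    have := hs (mem_image_of_mem Prod.fst hq)
    simp only [mem_product, mem_sdiff, mem_univ, and_true, this, true_and, not_not]
  unfold Dl at h
  rw [he, card_product, card_univ, Fintype.card_fin] at h
  unfold lX
  refine h.trans (le_of_eq ?_)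
  push_cast
  ring

end Pool.Agent.MP_646035_al.PC

namespace Pool.Agent.MP_646035_al.PC

open Finset PT

variable {n k : ℕ} {Q : Type} [AddCommGroup Q] [DecidableEq Q] {e : Fin 2 → Q}

lemma lenP_mono {A B : Finset ((ℤ × ℤ) × Fin 3)} (h : A ⊆ B) : lenP A ≤ lenP B :=
  add_le_add (diam_mono (image_subset_image (biUnion_subset_biUnion_of_subset_left _ h)))
    (diam_mono (image_subset_image (biUnion_subset_biUnion_of_subset_left _ h)))

lemma lenP_union {A B : Finset ((ℤ × ℤ) × Fin 3)} (h : ¬ Disjoint A B) :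
    lenP (A ∪ B) ≤ lenP A + lenP B := by
  obtain ⟨q, hA, hB⟩ := not_disjoint_iff.1 h
  have h0 : q.1 ∈ ph eP q := by
    unfold ph tr3
    split_ifs <;> simp
  have hA' : q.1 ∈ A.biUnion (ph eP) := mem_biUnion.2 ⟨q, hA, h0⟩
  have hB' : q.1 ∈ B.biUnion (ph eP) := mem_biUnion.2 ⟨q, hB, h0⟩
  have h1 := diam_union (not_disjoint_iff.2
    ⟨_, mem_image_of_mem Prod.fst hA', mem_image_of_mem Prod.fst hB'⟩)
  have h2 := diam_union (not_disjoint_iff.2
    ⟨_, mem_image_of_mem Prod.snd hA', mem_image_of_mem Prod.snd hB'⟩)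
  simp only [lenP, union_biUnion, image_union]
  omega

lemma le_lenP {A : Finset ((ℤ × ℤ) × Fin 3)} {u v : ℤ × ℤ} (hu : u ∈ A.biUnion (ph eP))
    (hv : v ∈ A.biUnion (ph eP)) : (u.1 - v.1).natAbs + (u.2 - v.2).natAbs ≤ lenP A :=
  add_le_add (le_diam (mem_image_of_mem _ hu) (mem_image_of_mem _ hv))
    (le_diam (mem_image_of_mem _ hu) (mem_image_of_mem _ hv))

lemma mem_ph (t : Q × Fin 3) : t.1 ∈ ph e t := by
  unfold ph tr3
  split_ifs <;> simp

lemma prH_eq {c s : ℤ} {u v : ℤ × ℤ} (h : prH c s u = prH c s v)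
    (hl : (u.1 - v.1).natAbs + (u.2 - v.2).natAbs < n0 c) : u = v := by
  obtain ⟨t, ht⟩ : ∃ t, t = u.1 - v.1 + (u.2 - v.2) := ⟨_, rfl⟩
  have h1 : u.1 - v.1 = (2 * c + 1) * t := by
    unfold prH at h
    rw [ht]
    linarith
  have h2 : u.2 - v.2 = -(2 * c) * t := by
    unfold prH at h
    rw [ht]
    linarith
  have h3 : t = 0 := by
    by_contra h0
    rw [h1, h2, Int.natAbs_mul, Int.natAbs_mul, n0] at hl
    have h4 := Nat.le_mul_of_pos_right (2 * c + 1).natAbs (Int.natAbs_pos.2 h0)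
    have h5 := Nat.le_mul_of_pos_right (-(2 * c)).natAbs (Int.natAbs_pos.2 h0)
    omega
  rw [h3, mul_zero] at h1 h2
  exact Prod.ext (by omega) (by omega)

lemma injOn_prH (c s : ℤ) {A : Finset ((ℤ × ℤ) × Fin 3)} (h : lenP A < n0 c) :
    Set.InjOn (prH c s) (A.biUnion (ph eP) : Finset (ℤ × ℤ)) :=
  fun _ hu _ hv huv => prH_eq huv ((le_lenP (mem_coe.1 hu) (mem_coe.1 hv)).trans_lt h)

lemma three_le_n0 {c : ℤ} (hc : c ≠ 0) : 3 ≤ n0 c := by
  unfold n0
  omega

lemma lenW_lt_iff {ν : Nums} (hν : ν.Ok) {c : ℤ} (hc : c ≠ 0) (A : Finset ((ℤ × ℤ) × Fin 3)) :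
    lenW ν A < 2 * ν.m1 + 2 * ν.m2 * n0 c ↔ lenP A < n0 c := by
  have h3 := three_le_n0 hc
  have h2 : 0 < 2 * ν.m2 := by have := hν.m2; omega
  unfold lenW
  constructor
  · intro h
    by_contra h4
    have h5 := Nat.mul_le_mul_left (2 * ν.m2) (not_lt.1 h4)
    rw [min_eq_right (by omega)] at h
    omega
  · intro h
    have h4 := Nat.mul_le_mul_left ν.m1 (min_le_right (lenP A) 2)
    have h5 := Nat.mul_lt_mul_of_pos_left h h2
    omega

lemma pcyl_shift {c s s' : ℤ} {u : ℤ × ℤ} (C : Finset (Atm (ℤ × ℤ)))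
    (h : 2 * c * u.1 + (2 * c + 1) * u.2 + s = s') :
    mapP (prH c s) (mapP (fun v => v + u) C) = mapP (prH c s') C := by
  rw [mapP_comp]
  congr 1
  funext v
  simp only [Function.comp, prH, Prod.fst_add, Prod.snd_add, ← h]
  ring

lemma pcyl_ph {t : Q × Fin 3} {u v : Q} (h : v ∈ ph e (Prod.map (fun v => v + u) id t)) :
    v - u ∈ ph e t := by
  unfold ph tr3 at h ⊢
  by_cases h2 : t.2 = 2
  · rw [if_pos (by exact h2)] at h
    rw [if_pos h2]
    simp only [Prod.map_fst, mem_insert, mem_singleton] at h ⊢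
    rcases h with rfl | rfl | rfl
    · exact .inl (by abel)
    · exact .inr (.inl (by abel))
    · exact .inr (.inr (by abel))
  · rw [if_neg (by exact h2)] at h
    rw [if_neg h2, mem_singleton.1 h]
    simp

lemma pcyl_len (u : ℤ × ℤ) (C : Finset (Atm (ℤ × ℤ))) :
    lenP (SS (asp eP) (mapP (fun v => v + u) C)) ≤ lenP (SS (asp eP) C) := by
  rw [SS_mapP (cyl_mor u)]
  have key : ∀ v ∈ ((SS (asp eP) C).image (Prod.map (fun v => v + u) id)).biUnion (ph eP),
      v - u ∈ (SS (asp eP) C).biUnion (ph eP) := fun v hv => by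
    obtain ⟨_, ht, hv⟩ := mem_biUnion.1 hv
    obtain ⟨t, ht', rfl⟩ := mem_image.1 ht
    exact mem_biUnion.2 ⟨t, ht', pcyl_ph hv⟩
  refine add_le_add (diam_le ?_) (diam_le ?_) <;>
  · simp only [forall_mem_image]
    intro a ha b hb
    refine le_of_eq_of_le ?_
      (le_diam (mem_image_of_mem _ (key a ha)) (mem_image_of_mem _ (key b hb)))
    simp

lemma pcyl_lift {c : ℤ} (s : ℤ) {C : Finset (Atm ℤ)} (h : Sml c C) (q : (ℤ × ℤ) × Fin 3)
    (hq : Prod.map (prH c s) id q ∈ SS (asp (eH c)) C) :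
    ∃ C', Vld eP C' ∧ mapP (prH c s) C' = C ∧ q ∈ SS (asp eP) C' ∧
      lenP (SS (asp eP) C') < n0 c := by
  obtain ⟨C', hV, hl, rfl⟩ := h
  rw [SS_mapP (mor_prH c 0)] at hq
  obtain ⟨q', hq', he⟩ := mem_image.1 hq
  obtain ⟨he1, he2⟩ := Prod.ext_iff.1 he
  simp only [Prod.map, id, prH] at he1 he2
  refine ⟨_, hV.map (cyl_mor (q.1 - q'.1)), pcyl_shift _ (by
    rw [Prod.fst_sub, Prod.snd_sub]; linarith), ?_, (pcyl_len _ _).trans_lt hl⟩
  rw [SS_mapP (cyl_mor _)]
  exact mem_image.2 ⟨q', hq', Prod.ext (by simp) he2⟩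

/-- Two connected sets with the same image agree if atoms are determined by one good point. -/
lemma pcyl_gen {Pt At Bt : Type} [DecidableEq Pt] [DecidableEq At] [DecidableEq Bt]
    {supp : At → Finset Pt} {f : At → Bt} (G : Pt → Prop) {X X' : Finset At} (hX : Conn supp X)
    (him : X.image f = X'.image f) (hG : ∀ β ∈ X', ∀ p ∈ supp β, G p)
    (rig : ∀ β ∈ X, ∀ β' ∈ X', f β = f β' → ∀ p ∈ supp β, G p → β = β')
    (ne : ∀ β ∈ X, (supp β).Nonempty) {p : Pt} (hp : p ∈ SS supp X) (hp' : G p) : X = X' := by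
  have key : ∀ β ∈ X, ∀ p ∈ supp β, G p → β ∈ X' := fun β hβ p h1 h2 => by
    obtain ⟨β', h3, h4⟩ := mem_image.1 (him ▸ mem_image_of_mem f hβ)
    exact rig β hβ β' h3 h4.symm p h1 h2 ▸ h3
  obtain ⟨β₀, h0, h1⟩ := mem_SS.1 hp
  have hsub := hX.induction (· ∈ X') h0 (key β₀ h0 p h1 hp') fun α _ β hβ h hd => by
    obtain ⟨r, r1, r2⟩ := not_disjoint_iff.1 hd
    exact key β hβ r r2 (hG α h r r1)
  refine Subset.antisymm hsub fun β' h => ?_
  obtain ⟨β, h3, h4⟩ := mem_image.1 (him.symm ▸ mem_image_of_mem f h)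
  obtain ⟨r, hr⟩ := ne β h3
  exact rig β h3 β' h h4 r hr (hG β (hsub β h3) r hr) ▸ h3

lemma pcyl_rig1 {c s : ℤ} {T : Finset (ℤ × ℤ)} (hT : Set.InjOn (prH c s) T)
    {β β' : At1 (ℤ × ℤ)} (h : map1 (prH c s) β = map1 (prH c s) β')
    (h' : ∀ p ∈ s1 eP β', p ∈ T) {p : ℤ × ℤ} (hp : p ∈ s1 eP β) (hp' : p ∈ T) : β = β' := by
  have key : ∀ y y' : ℤ × ℤ, prH c s y = prH c s y' → p + (y' - y) ∈ T → y = y' :=
    fun y y' h1 h2 => by
      have h3 : p + (y' - y) = p := hT h2 hp' (by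
        simp only [prH, Prod.fst_add, Prod.snd_add, Prod.fst_sub, Prod.snd_sub] at h1 ⊢
        linarith)
      exact (sub_eq_zero.1 (add_eq_left.1 h3)).symm
  rcases β with ⟨a, j⟩ | y <;> rcases β' with ⟨a', j'⟩ | y' <;>
    simp only [map1, Sum.map_inl, Sum.map_inr, Sum.inl.injEq, Sum.inr.injEq, reduceCtorEq,
      Prod.map, id, Prod.mk.injEq] at h ⊢
  · obtain ⟨h, rfl⟩ := h
    refine ⟨key a a' h (h' _ ?_), rfl⟩
    simp only [s1, mem_insert, mem_singleton] at hp ⊢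
    rcases hp with rfl | rfl
    · exact .inl (by abel)
    · exact .inr (by abel)
  · refine key y y' h (h' _ ?_)
    simp only [s1, str, mem_insert, mem_singleton] at hp ⊢
    rcases hp with rfl | rfl | rfl | rfl | rfl | rfl
    · exact .inl (by abel)
    · exact .inr (.inl (by abel))
    · exact .inr (.inr (.inl (by abel)))
    · exact .inr (.inr (.inr (.inl (by abel))))
    · exact .inr (.inr (.inr (.inr (.inl (by abel)))))
    · exact .inr (.inr (.inr (.inr (.inr (by abel)))))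

lemma pcyl_uniq {c : ℤ} (s : ℤ) {C C' : Finset (Atm (ℤ × ℤ))} (hC : Vld eP C)
    (h : mapP (prH c s) C = mapP (prH c s) C') {q : (ℤ × ℤ) × Fin 3}
    (hq : q ∈ SS (asp eP) C) (hl : lenP (insert q (SS (asp eP) C')) < n0 c) : C = C' := by
  have hT := injOn_prH c s hl
  have hG : ∀ β ∈ C', ∀ t ∈ asp eP β, t.1 ∈ (insert q (SS (asp eP) C')).biUnion (ph eP) :=
    fun β hβ t ht => mem_biUnion.2 ⟨t, mem_insert_of_mem (mem_SS.2 ⟨β, hβ, ht⟩), mem_ph t⟩
  refine @pcyl_gen _ _ _ (_) (_) (_) _ _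
    (fun t => t.1 ∈ (insert q (SS (asp eP) C')).biUnion (ph eP)) _ _ hC.1 h hG ?_
    (fun β hβ => asp_nonempty (hC.2 β hβ)) _ hq
    (mem_biUnion.2 ⟨q, mem_insert_self _ _, mem_ph q⟩)
  have blob : ∀ X X' : Finset (At1 (ℤ × ℤ)), Conn (s1 eP) X →
      X.image (map1 (prH c s)) = X'.image (map1 (prH c s)) →
      (∀ p ∈ SS (s1 eP) X', p ∈ (insert q (SS (asp eP) C')).biUnion (ph eP)) →
      ∀ p ∈ SS (s1 eP) X, p ∈ (insert q (SS (asp eP) C')).biUnion (ph eP) → X = X' :=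
    fun X X' h1 h2 h3 p h4 h5 => pcyl_gen (· ∈ (insert q (SS (asp eP) C')).biUnion (ph eP)) h1 h2
      (fun β hβ r hr => h3 r (mem_SS.2 ⟨β, hβ, hr⟩))
      (fun β _ β' hβ he r hr hr' =>
        pcyl_rig1 hT he (fun r hr => h3 r (mem_SS.2 ⟨β', hβ, hr⟩)) hr hr')
      (fun β _ => s1_nonempty β) h4 h5
  rintro (X | X | a) h1 (X' | X' | a') h2 he t ht ht' <;>
    simp only [mapA, Sum.map_inl, Sum.map_inr, Sum.inl.injEq, Sum.inr.injEq, reduceCtorEq]
      at he ⊢
  · exact blob X X' (hC.2 _ h1) he (fun p hp => hG _ h2 (p, 1)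
      (mk_mem_product hp (by split_ifs <;> simp))) t.1 (mem_product.1 ht).1 ht'
  · exact blob X X' (hC.2 _ h1) he (fun p hp => hG _ h2 (p, 1)
      (mk_mem_product hp (by simp))) t.1 (mem_product.1 ht).1 ht'
  · refine Sum.inl.inj (pcyl_rig1 hT (β := .inl a) (β' := .inl a') (congrArg Sum.inl he)
      (fun p hp => hG _ h2 (p, 0) ?_) (p := t.1) ?_ ht')
    · simp only [s1, asp, mem_insert, mem_singleton] at hp ⊢
      rcases hp with rfl | rfl <;> simp
    · simp only [s1, asp, mem_insert, mem_singleton] at ht ⊢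
      rcases ht with rfl | rfl <;> simp

lemma sml_map (c s : ℤ) {C : Finset (Atm (ℤ × ℤ))} (hC : Vld eP C)
    (hl : lenP (SS (asp eP) C) < n0 c) : Sml c (mapP (prH c s) C) :=
  ⟨_, hC.map (cyl_mor (-s, s)), (pcyl_len _ _).trans_lt hl, pcyl_shift _ (by ring)⟩

theorem coverH {ν : Nums} {f : Pat → ℝ} {ψP : Finset (At1 (ℤ × ℤ)) → (ℤ × ℤ → Pat) → ℝ} {c : ℤ}
    {ψ : Finset (At1 ℤ) → (ℤ → Pat) → ℝ} (h : Cmp ν f ψP c ψ) (s : ℤ) (A : Finset ℤ) :
    Cover (SS (asp eP)) (wgt ν eP f ψP) {C | Vld eP C} (SS (asp (eH c))) (wgt ν (eH c) f ψ)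
      (spls c A) (mapP (prH c s)) (Prod.map (prH c s) id) (lenW ν)
      (2 * ν.m1 + 2 * ν.m2 * n0 c) 2 := by
  classical
  refine ⟨one_le_two, fun _ _ hAB => ?_, fun A B hAB => ?_, fun _ h => Vld.nonempty h,
    fun δ _ hl => ⟨wgt_map (mor_prH c s) (h.mp s) h.qP.loc
      (injOn_prH c s ((lenW_lt_iff h.ok h.ne _).1 hl)), SS_mapP (mor_prH c s) δ⟩,
    fun δ hδ q hq => ?_, fun δ hδ δ' _ he q hq _ hl =>
      pcyl_uniq s hδ he hq ((lenW_lt_iff h.ok h.ne _).1 hl), fun N hN q => ?_,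
    kp_of_vld h.ok h.fb h.qH _ fun C hC => (mem_pls.1 (mem_filter.1 hC).1).1⟩
  · exact add_le_add (Nat.mul_le_mul_left _ (min_le_min_right _ (lenP_mono hAB)))
      (Nat.mul_le_mul_left _ (lenP_mono hAB))
  · have h1 := lenP_union hAB
    have h2 := Nat.mul_le_mul_left (2 * ν.m2) h1
    have h3 := Nat.mul_le_mul_left ν.m1
      (show min (lenP (A ∪ B)) 2 ≤ min (lenP A) 2 + min (lenP B) 2 by omega)
    rw [mul_add] at h2 h3
    unfold lenW
    omega
  · obtain ⟨C', h1, h2, h3, h4⟩ := pcyl_lift s (mem_filter.1 hδ).2 q hq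
    exact ⟨C', h1, h2, h3, (lenW_lt_iff h.ok h.ne _).2 h4⟩
  · refine le_trans (sum_le_sum fun C hC => ?_) (sum_wgt_le h.ok h.fb h.qP N hN q)
    by_cases hw : wgt ν eP f ψP C = 0
    · simp [hw]
    have hV : Vld eP C := hN C (mem_filter.1 hC).1
    refine mul_le_mul_of_nonneg_left ?_ (by positivity)
    rw [← pow_mul, ← pow_mul, ← pow_add]
    refine pow_le_pow_right₀ one_le_two ?_
    have h1 := Nat.mul_le_mul_left ν.m1 (min_le_ord hV (balc_of_wgt hw))
    have h2 := Nat.mul_le_mul_left ν.m2 (two_lenP_le hV (balc_of_wgt hw))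
    rw [lenW, add_comm, mul_comm 2 ν.m2, mul_assoc]
    exact add_le_add h2 h1

end Pool.Agent.MP_646035_al.PC

namespace Pool.Agent.MP_646035_al.PC

open Finset PT

variable {n k : ℕ} {Q : Type} [AddCommGroup Q] [DecidableEq Q] {e : Fin 2 → Q}

theorem sml_of_card {c : ℤ} {C : Finset (Atm ℤ)} (hC : Vld (eH c) C)
    (h : (nds (eH c) C).card < 2 * c.natAbs) : Sml c C := by
  obtain ⟨ρ, hρ⟩ := cyc_residue h
  obtain ⟨M, hM⟩ : ∃ M : ℤ, M = ((2 * c.natAbs : ℕ) : ℤ) := ⟨_, rfl⟩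
  rw [← hM] at hρ
  have M0 : 0 < M := by omega
  have c0 : 2 * c ≠ 0 := by omega
  have d1 : M ∣ 2 * c := by
    rcases le_total 0 c with a | a
    · exact ⟨1, by omega⟩
    · exact ⟨-1, by omega⟩
  have d2 : 2 * c ∣ M := by
    rcases le_total 0 c with a | a
    · exact ⟨1, by omega⟩
    · exact ⟨-1, by omega⟩
  have d3 : ∀ p, M ∣ p - ρ - (p - ρ) % M := fun p => Int.dvd_self_sub_emod
  choose u hu using fun p => d2.trans (d3 p)
  have key : ∀ p p' δ : ℤ, p' = p + 2 * c + δ → |(p' - ρ) % M - ((p - ρ) % M + δ)| < M →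
      (p' - ρ) % M = (p - ρ) % M + δ ∧ u p' = u p + 1 := fun p p' δ e1 e2 => by
    have a1 : M ∣ (p' - ρ) % M - ((p - ρ) % M + δ) := by
      have := (d1.add (d3 p)).sub (d3 p')
      rwa [show 2 * c + (p - ρ - (p - ρ) % M) - (p' - ρ - (p' - ρ) % M) =
        (p' - ρ) % M - ((p - ρ) % M + δ) by linear_combination -e1] at this
    have a2 := Int.eq_zero_of_abs_lt_dvd a1 e2
    refine ⟨by linarith, mul_left_cancel₀ c0 ?_⟩
    linear_combination hu p - hu p' + e1 - a2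
  obtain ⟨hV, hS⟩ := hC.map_of_local (e := eP)
    (π := fun p : ℤ => (u p - ρ - (p - ρ) % M, ρ + (p - ρ) % M)) (by
      intro j p _ hp
      have h0 := Int.emod_nonneg (p - ρ) M0.ne'
      have h1 := Int.emod_lt_of_pos (p - ρ) M0
      have h2 := Int.emod_nonneg (p + eH c j - ρ) M0.ne'
      have h3 := Int.emod_lt_of_pos (p + eH c j - ρ) M0
      have h4 := hρ _ hp
      fin_cases j
      · obtain ⟨a, b⟩ := key p (p + eH c 0) 0 (by simp) (abs_lt.2 (by
          simp only [Fin.zero_eta] at h2 h3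
          omega))
        refine Prod.ext ?_ ?_
        · change u (p + eH c 0) - ρ - (p + eH c 0 - ρ) % M = u p - ρ - (p - ρ) % M + 1
          omega
        · change ρ + (p + eH c 0 - ρ) % M = ρ + (p - ρ) % M + 0
          omega
      · obtain ⟨a, b⟩ := key p (p + eH c 1) 1 (by simp [add_assoc]) (abs_lt.2 (by
          simp only [Fin.mk_one] at h2 h3 h4
          omega))
        refine Prod.ext ?_ ?_
        · change u (p + eH c 1) - ρ - (p + eH c 1 - ρ) % M = u p - ρ - (p - ρ) % M + 0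
          omega
        · change ρ + (p + eH c 1 - ρ) % M = ρ + (p - ρ) % M + 1
          omega)
  refine ⟨_, hV, ?_, ?_⟩
  · have h1 := lenP_le_card hV
    have h3 : (nds eP (mapP (fun p : ℤ => (u p - ρ - (p - ρ) % M, ρ + (p - ρ) % M)) C)).card ≤
        (nds (eH c) C).card := by
      have e : nds eP (mapP (fun p : ℤ => (u p - ρ - (p - ρ) % M, ρ + (p - ρ) % M)) C) =
          (nds (eH c) C).image fun p : ℤ => (u p - ρ - (p - ρ) % M, ρ + (p - ρ) % M) := by
        rw [nds, hS, nds, image_image, image_image]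
        rfl
      rw [e]
      exact card_image_le
    unfold n0
    omega
  · have e : (prH c 0 ∘ fun p : ℤ => (u p - ρ - (p - ρ) % M, ρ + (p - ρ) % M)) = id := by
      funext p
      change 2 * c * (u p - ρ - (p - ρ) % M) + (2 * c + 1) * (ρ + (p - ρ) % M) + 0 = p
      linear_combination -hu p
    rw [mapP_comp, e, mapP_id]

lemma pcyc_mem0 {c i p : ℤ} : ((p, 0) : Ed ℤ) ∈ cyE c i ↔
    min (2 * (i - c)) (2 * (i + c) + 1) ≤ 2 * (p + c) ∧
      2 * (p + c) < max (2 * (i - c)) (2 * (i + c) + 1) := by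
  rw [cyE, mem_image]
  constructor
  · rintro ⟨m, hm, h⟩
    rw [mem_Ico] at hm
    rw [edg, Prod.mk.injEq] at h
    have : m % 2 = 0 := by
      by_contra a
      simp [a] at h
    omega
  · intro h
    refine ⟨2 * (p + c), mem_Ico.2 h, ?_⟩
    rw [edg, if_pos (by omega), Prod.mk.injEq]
    exact ⟨by omega, rfl⟩

lemma pcyc_mem1 {c i p : ℤ} : ((p, 1) : Ed ℤ) ∈ cyE c i ↔
    min (2 * (i - c)) (2 * (i + c) + 1) ≤ 2 * (p + c) + 1 ∧
      2 * (p + c) + 1 < max (2 * (i - c)) (2 * (i + c) + 1) := by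
  rw [cyE, mem_image]
  constructor
  · rintro ⟨m, hm, h⟩
    rw [mem_Ico] at hm
    rw [edg, Prod.mk.injEq] at h
    have : ¬m % 2 = 0 := by
      intro a
      simp [a] at h
    omega
  · intro h
    refine ⟨2 * (p + c) + 1, mem_Ico.2 h, ?_⟩
    rw [edg, if_neg (by omega), Prod.mk.injEq]
    exact ⟨by omega, rfl⟩

lemma pcyc_pat (c i q : ℤ) : pat (eH c) (cyE c i) q =
    ![if (q - (2 * c + 1), (1 : Fin 2)) ∈ cyE c i then 1 else 0,
      if (q - 2 * c, (0 : Fin 2)) ∈ cyE c i then 1 else 0,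
      if (q, (0 : Fin 2)) ∈ cyE c i then 1 else 0,
      if (q, (1 : Fin 2)) ∈ cyE c i then 1 else 0] := by
  funext j
  fin_cases j <;> rfl

lemma pcyc_ends {c : ℤ} (i : ℤ) :
    ends (eH c) (cyE c i) ⊆ Icc (i - (n0 c / 2 : ℕ)) (i + (n0 c / 2 : ℕ)) := by
  intro q hq
  obtain ⟨⟨p, j⟩, ha, h⟩ := mem_biUnion.1 hq
  rw [mem_insert, mem_singleton] at h
  rw [mem_Icc, n0]
  fin_cases j
  · have := pcyc_mem0.1 ha
    simp only [Fin.zero_eta, eH_zero] at h
    omega
  · have := pcyc_mem1.1 ha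
    simp only [Fin.mk_one, eH_one] at h
    omega

lemma pcyc_card {c : ℤ} (i : ℤ) : (ends (eH c) (cyE c i)).card ≤ n0 c := by
  refine (card_le_card (pcyc_ends i)).trans ?_
  rw [Int.card_Icc, n0]
  omega

lemma pcyc_plain {c i q : ℤ} (hq : q ∈ ends (eH c) (cyE c i)) (hi : q ≠ i) :
    pat (eH c) (cyE c i) q = ![1, 1, 0, 0] ∨ pat (eH c) (cyE c i) q = ![0, 0, 1, 1] := by
  have h := pcyc_ends i hq
  rw [mem_Icc, n0] at h
  rw [pcyc_pat]
  simp only [pcyc_mem0, pcyc_mem1]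
  by_cases a : (0 ≤ c ∧ i < q) ∨ (c < 0 ∧ q < i)
  · left
    rw [if_pos (by omega), if_pos (by omega), if_neg (by omega), if_neg (by omega)]
  · right
    rw [if_neg (by omega), if_neg (by omega), if_pos (by omega), if_pos (by omega)]

lemma pcyc_cross (c i : ℤ) : pat (eH c) (cyE c i) i ∈ Ev ∧ IsCross (pat (eH c) (cyE c i) i) := by
  rw [pcyc_pat]
  simp only [pcyc_mem0, pcyc_mem1]
  by_cases a : 0 ≤ c
  · rw [if_neg (by omega), if_pos (by omega), if_pos (by omega), if_neg (by omega)]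
    decide
  · rw [if_pos (by omega), if_neg (by omega), if_neg (by omega), if_pos (by omega)]
    decide

lemma pcyc_self (c i : ℤ) : i ∈ ends (eH c) (cyE c i) := by
  by_contra h
  have := (pcyc_cross c i).2
  rw [pat_eq_zero h] at this
  exact absurd this (by decide)

lemma pcyc_balc (c i : ℤ) : Balc (eH c) (cyE c i) := fun q => by
  by_cases hq : q ∈ ends (eH c) (cyE c i)
  · by_cases hi : q = i
    · exact hi ▸ (pcyc_cross c q).1
    · rcases pcyc_plain hq hi with h | h <;> rw [h] <;> decide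
  · rw [pat_eq_zero hq]
    decide

lemma pcyc_crs (c i : ℤ) : crs (eH c) (cyE c i) = 1 := by
  refine card_eq_one.2 ⟨i, eq_singleton_iff_unique_mem.2
    ⟨mem_filter.2 ⟨pcyc_self c i, (pcyc_cross c i).2⟩, fun q hq => ?_⟩⟩
  by_contra hi
  obtain ⟨h1, h2⟩ := mem_filter.1 hq
  rcases pcyc_plain h1 hi with h | h <;> rw [h] at h2 <;> exact absurd h2 (by decide)

lemma pcyc_bonds (c i : ℤ) : (cyP c i).toRight.toRight = cyE c i := by
  ext b
  simp only [cyP, mem_toRight, mem_image, Sum.inr.injEq, exists_eq_right]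

lemma pcyc_SS (c i : ℤ) :
    SS (asp (eH c)) (cyP c i) ⊆ (ends (eH c) (cyE c i)).image fun q => (q, (0 : Fin 3)) := by
  intro t ht
  obtain ⟨α, hα, h⟩ := mem_SS.1 ht
  obtain ⟨a, ha, rfl⟩ := mem_image.1 hα
  rw [asp, mem_insert, mem_singleton] at h
  rcases h with rfl | rfl
  · exact mem_image_of_mem _ (mem_biUnion.2 ⟨a, ha, mem_insert_self _ _⟩)
  · exact mem_image_of_mem _ (mem_biUnion.2 ⟨a, ha, mem_insert_of_mem (mem_singleton_self _)⟩)

lemma pcyc_adj (c m : ℤ) : ¬ Disjoint (asp (eH c) (.inr (.inr (edg c m))))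
    (asp (eH c) (.inr (.inr (edg c (m + 1))))) := by
  rw [not_disjoint_iff]
  by_cases h : m % 2 = 0
  · refine ⟨(m / 2 - c, 0), mem_insert_self _ _, ?_⟩
    rw [asp, edg, show (m + 1) / 2 = m / 2 by omega]
    exact mem_insert_self _ _
  · refine ⟨(m / 2 + c + 1, 0), ?_, ?_⟩
    · rw [asp, edg, if_neg h, mem_insert, mem_singleton]
      exact Or.inr (Prod.ext (by simp only [eH_one]; ring) rfl)
    · rw [asp, edg, if_pos (by omega), mem_insert, mem_singleton]
      exact Or.inr (Prod.ext (by simp only [eH_zero]; omega) rfl)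

lemma pcyc_vld (c i : ℤ) : Vld (eH c) (cyP c i) := by
  have hm : ∀ m, min (2 * (i - c)) (2 * (i + c) + 1) ≤ m → m < max (2 * (i - c)) (2 * (i + c) + 1) →
      (.inr (.inr (edg c m)) : Atm ℤ) ∈ cyP c i := fun m h1 h2 =>
    mem_image_of_mem _ (mem_image_of_mem _ (mem_Ico.2 ⟨h1, h2⟩))
  refine ⟨conn_of_induction (hm _ le_rfl (by omega)) fun D hD h0 hcl => ?_, fun α hα => ?_⟩
  · have key : ∀ m, min (2 * (i - c)) (2 * (i + c) + 1) ≤ m →
        m < max (2 * (i - c)) (2 * (i + c) + 1) → (.inr (.inr (edg c m)) : Atm ℤ) ∈ D := by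
      intro m hj
      induction m, hj using Int.leInduction with
      | base => exact fun _ => h0
      | succ j hj ih =>
        intro h
        exact hcl _ (ih (by omega)) _ (hm _ (by omega) h) (pcyc_adj c j)
    refine Subset.antisymm hD fun α hα => ?_
    obtain ⟨a, ha, rfl⟩ := mem_image.1 hα
    obtain ⟨m, h, rfl⟩ := mem_image.1 ha
    exact key m (mem_Ico.1 h).1 (mem_Ico.1 h).2
  · obtain ⟨a, -, rfl⟩ := mem_image.1 hα
    trivial

theorem cyP_facts {c : ℤ} (hc : c ≠ 0) (i : ℤ) :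
    Vld (eH c) (cyP c i) ∧ nds (eH c) (cyP c i) ⊆ Icc (i - 2 * |c|) (i + 2 * |c|) ∧
      (SS (asp (eH c)) (cyP c i)).card ≤ n0 c ∧ ¬ Sml c (cyP c i) := by
  refine ⟨pcyc_vld c i, fun q hq => ?_,
    (card_le_card (pcyc_SS c i)).trans (card_image_le.trans (pcyc_card i)), ?_⟩
  · obtain ⟨t, ht, rfl⟩ := mem_image.1 hq
    obtain ⟨p, hp, rfl⟩ := mem_image.1 (pcyc_SS c i ht)
    have := pcyc_ends i hp
    rw [mem_Icc, n0] at this
    rw [mem_Icc, Int.abs_eq_natAbs]
    omega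
  · rintro ⟨C, -, hl, he⟩
    have h1 := bonds_mapP (prH c 0) C
    rw [he, pcyc_bonds] at h1
    obtain ⟨h2, h3⟩ := balc_map (mor_prH c 0) (D := C.toRight.toRight)
      ((injOn_prH c 0 hl).mono fun v hv => by
        obtain ⟨a, ha, h⟩ := mem_biUnion.1 (mem_coe.1 hv)
        refine mem_coe.2 (mem_biUnion.2 ⟨(v, 0), mem_SS.2 ⟨.inr (.inr a),
          mem_toRight.1 (mem_toRight.1 ha), ?_⟩, mem_ph (v, 0)⟩)
        rw [mem_insert, mem_singleton] at h
        rw [asp, mem_insert, mem_singleton]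
        rcases h with rfl | rfl
        exacts [Or.inl rfl, Or.inr rfl])
    rw [← h1] at h2 h3
    exact crs_ne_one (h2.1 (pcyc_balc c i)) (h3.symm.trans (pcyc_crs c i))

theorem cyP_injective {c : ℤ} (hc : c ≠ 0) : Function.Injective (cyP c) := fun i j h => by
  by_contra hne
  have e : cyE c i = cyE c j := by rw [← pcyc_bonds, h, pcyc_bonds]
  have h1 := (pcyc_cross c i).2
  have h2 := pcyc_self c i
  rw [e] at h1 h2
  rcases pcyc_plain h2 hne with a | a <;> rw [a] at h1 <;> exact absurd h1 (by decide)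

theorem wgt_cyP {ν : Nums} (hν : ν.Ok) {f : Pat → ℝ} (hf : FB ν f) {c : ℤ} (hc : c ≠ 0)
    (ψ : Finset (At1 ℤ) → (ℤ → Pat) → ℝ) (i : ℤ) :
    ν.ξl * ν.ηl ^ (n0 c - 1) ≤ wgt ν (eH c) f ψ (cyP c i) := by
  have h1 : (cyP c i).toLeft = ∅ := by
    ext X
    simp [cyP]
  have h2 : (cyP c i).toRight.toLeft = ∅ := by
    ext X
    simp [cyP]
  have l1 : ν.ηl ≤ 1 := by
    have a := hν.h1
    have b : (1 : ℝ) ≤ 2 ^ ν.m2 := one_le_pow₀ one_le_two
    have d := hf.a.1.trans hf.a.2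
    have g := le_mul_of_one_le_right hν.h0.le b
    norm_num at a
    linarith
  unfold wgt
  rw [h1, h2, pcyc_bonds, if_pos ⟨by simp [Compat], by simp [Compat], by simp, pcyc_balc c i⟩,
    prod_empty, prod_empty, one_mul, one_mul, ← mul_prod_erase _ _ (pcyc_self c i)]
  have h3 := (hf.cr _ (pcyc_cross c i).1 (pcyc_cross c i).2).1
  refine mul_le_mul h3 ?_ (pow_nonneg hν.l0.le _) (hν.x0.le.trans h3)
  refine (pow_le_pow_of_le_one hν.l0.le l1 (m := ((ends (eH c) (cyE c i)).erase i).card) ?_).trans ?_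
  · rw [card_erase_of_mem (pcyc_self c i)]
    exact Nat.sub_le_sub_right (pcyc_card i) 1
  · rw [← prod_const]
    refine prod_le_prod (fun _ _ => hν.l0.le) fun q hq => ?_
    rcases pcyc_plain (mem_erase.1 hq).2 (mem_erase.1 hq).1 with a | a <;> rw [a]
    exacts [hf.a.1, hf.b.1]

end Pool.Agent.MP_646035_al.PC
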