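import Pool.Agent.MP_646035_al.PC.Prog
import Pool.Agent.MP_646035_al.PC.Alg
import Pool.Agent.MP_646035_al.PC.Num
import Pool.Agent.MP_646035_al.PC.Gen
import Pool.Agent.MP_646035_al.PC.Case
import Pool.Agent.MP_646035_al.PC.CaseD

namespace Pool.Agent.MP_646035_al.PC

open Finset PT

variable {n k : ℕ} {Q : Type} [AddCommGroup Q] [DecidableEq Q] {e : Fin 2 → Q}

section aux

variable {Yl : Option (Fin k) → El n k} {Sp : Finset (Option (Fin k))}
  {al : Finset ((Option (Fin k) × ZMod 2) × Bool)} {N : ℕ} {P P' : Fin N × ZMod 2 → St0 k}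

lemma confla_pv (h : pval Yl P = pval Yl P') :
    ∑ τ, ev n (dpoly Yl P τ - dpoly Yl P' τ) • vt (Yl τ.1) τ.2 = 0 := by
  simp only [map_sub, sub_smul, sum_sub_distrib, ← pval_pv, h, sub_self]

lemma confla_gm (h : pval Yl P = pval Yl P') :
    ∑ τ, ev n (mpoly P τ - mpoly P' τ) * bar τ.2 (gm (Yl τ.1).w) = 0 := by
  simp only [map_sub, sub_mul, sum_sub_distrib, ← pval_gm, h, sub_self]

lemma confla_inj (hn : 25 ≤ n) {p q : LP} (hp : Bd p 2) (hq : Bd q 2) (h : ev n (p - q) = 0) :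
    p = q := sub_eq_zero.1 (ev_inj (hp.sub hq) (by omega) h)

lemma confla_gm_ne {h : El n k} (e : Psi h none = 1) : gm h.w ≠ 0 := fun c => by
  have := aug_gm h
  rw [c, map_zero, e] at this
  exact zero_ne_one this

lemma confla_deq (hn : 25 ≤ n) {S : Finset (El n k)} (hZ : Z1 S Yl) (hal : ∀ a ∈ al, a.1.1 ∈ Sp)
    (h1 : ∀ p, P p ∈ pset Yl Sp al p.2) (h2 : ∀ p, P' p ∈ pset Yl Sp al p.2)
    (h : pval Yl P = pval Yl P') (hs : none ∈ Sp) (ha : ∀ φ, ((none, 1), φ) ∉ al) (τ) :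
    dpoly Yl P τ = dpoly Yl P' τ := by
  have := vt_indep Yl hZ.hpsi hZ.hPsi 1 (fun τ => ev n (dpoly Yl P τ - dpoly Yl P' τ))
    (by rw [dpoly_eq_zero hal h1 (τ := (none, 1)) hs ha,
      dpoly_eq_zero hal h2 (τ := (none, 1)) hs ha, sub_self, map_zero]) (confla_pv h)
  exact confla_inj hn (bd_polys hal h1 τ).1 (bd_polys hal h2 τ).1 (congrFun this τ)

lemma confla_one (hn : 25 ≤ n) (hal : ∀ a ∈ al, a.1.1 ∈ Sp)
    (h1 : ∀ p, P p ∈ pset Yl Sp al p.2) (h2 : ∀ p, P' p ∈ pset Yl Sp al p.2)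
    (h : pval Yl P = pval Yl P') (hd : ∀ τ, dpoly Yl P τ = dpoly Yl P' τ) {E : Option (Fin k)}
    (hE : Psi (Yl E) none = 1) (ha : ∀ τ, (τ, true) ∈ al → τ = (E, 0)) : P = P' := by
  refine eq_of_polys hal h1 h2 hd fun τ hτ => ?_
  obtain rfl := ha τ hτ
  have e := confla_gm h
  rw [sum_eq_single (E, 0) (fun τ _ hne => by
    rw [mpoly_eq hal h1 h2 (fun τ _ => hd τ) (hd τ) fun c => hne (ha τ c), sub_self, map_zero,
      zero_mul]) (by simp), bar_zero] at e
  exact confla_inj hn (bd_polys hal h1 _).2.1 (bd_polys hal h2 _).2.1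
    ((mul_eq_zero.1 e).resolve_right (confla_gm_ne hE))

lemma confla_coeff (p q : LP) (a : ℤ) : (p - q).coeff a = p.coeff a - q.coeff a := by simp

lemma confla_lit (hal : ∀ a ∈ al, a.1.1 ∈ Sp)
    (h1 : ∀ p, P p ∈ pset Yl Sp al p.2) (h2 : ∀ p, P' p ∈ pset Yl Sp al p.2)
    (hd : ∀ τ, dpoly Yl P τ = dpoly Yl P' τ) {f : (Option (Fin k) × ZMod 2) × ℤ} (hf : f.1.1 ∈ Sp)
    {D : ℤ} (h : (mpoly P f.1 - mpoly P' f.1).coeff (f.2 + D) ≠ 0) : Lit P f D := by
  by_contra c
  have a := lit_iff hal h1 hf D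
  have b := lit_iff hal h2 hf D
  have c' : ¬ Lit P' f D := fun k => c (a.1.2 (by rw [hd f.1]; exact b.1.1 k))
  apply h
  rw [confla_coeff, not_not.1 (mt a.2.2 c), not_not.1 (mt b.2.2 c'), sub_self]

lemma confla_exE (h : LinearIndependent (ZMod 2) (fun o => Psi (Yl o))) :
    ∃ E, Psi (Yl E) none = 1 := by
  by_contra c
  have c0 : ∀ E, Psi (Yl E) none = 0 := fun E => (z2_cases _).resolve_right fun k => c ⟨E, k⟩
  have : Fact (Nat.Prime 2) := ⟨Nat.prime_two⟩
  have sp := h.span_eq_top_of_card_eq_finrank' (by simp)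
  have le : Submodule.span (ZMod 2) (Set.range fun o => Psi (Yl o)) ≤
      LinearMap.ker (LinearMap.proj (R := ZMod 2) (φ := fun _ : Option (Fin k) => ZMod 2) none) :=
    Submodule.span_le.2 (by rintro _ ⟨o, rfl⟩; exact c0 o)
  rw [sp] at le
  exact one_ne_zero (α := ZMod 2) (le (Submodule.mem_top (x := fun _ => 1)))

end aux

theorem confl_bulk (hn : 25 ≤ n) {S : Finset (El n k)} {Yl : Option (Fin k) → El n k}
    (hZ : Z1 S Yl) : Confl Yl {none} ∅ ∅ := by
  intro N P P' h1 h2 hne h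
  exact (hne (eq_of_polys (by simp) h1 h2
    (confla_deq hn hZ (by simp) h1 h2 h (by simp) (by simp)) (by simp))).elim

theorem mono_or_confl (hn : 25 ≤ n) {S : Finset (El n k)} {Yl : Option (Fin k) → El n k}
    (hZ : Z1 S Yl) :
    (∃ (a : ℤ) (ε : ZMod 2), tt n a • vt (Yl none) 1 = sgz ε • vt (Yl none) 0) ∨
      ∃ (o E : Option (Fin k)) (F : Finset ((Option (Fin k) × ZMod 2) × ℤ)), F.card ≤ 4 ∧
        Confl Yl {none, o, E} (alC {none, o, E} E) F := by
  rcases code_cases hn (fun τ : Option (Fin k) × ZMod 2 => vt (Yl τ.1) τ.2) (none, 0) (none, 1)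
    (by simp) (vt_indep Yl hZ.hpsi hZ.hPsi 0) (vt_indep Yl hZ.hpsi hZ.hPsi 1) with
    c | ⟨τ, F, hF, hm, c⟩
  · exact Or.inl c
  obtain ⟨E, hE⟩ := confla_exE hZ.hPsi
  refine Or.inr ⟨τ.1, E, F, hF, fun N P P' h1 h2 hne h => ?_⟩
  have hal : ∀ a ∈ alC {none, τ.1, E} E, a.1.1 ∈ ({none, τ.1, E} : Finset _) := by
    intro a ha
    rcases mem_insert.1 ha with rfl | ha
    · simp
    · exact (mem_product.1 (mem_product.1 ha).1).1
  have hs : ∀ f ∈ F, f.1.1 ∈ ({none, τ.1, E} : Finset _) := fun f hf => by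
    rcases hm f hf with e | e | e <;> simp [e]
  have bd : ∀ σ : Option (Fin k) × ZMod 2, σ.1 ∈ ({none, τ.1, E} : Finset _) →
      Bd (dpoly Yl P σ - dpoly Yl P' σ) 2 := fun σ hσ =>
    ((bd_polys hal h1 σ).2.2 hσ).1.sub ((bd_polys hal h2 σ).2.2 hσ).1
  obtain ⟨D, f, hf, f', hf', ne, c1, c2, c3⟩ := c (fun σ => dpoly Yl P σ - dpoly Yl P' σ)
    (bd _ (by simp)) (bd _ (by simp)) (bd _ (by simp)) (confla_pv h) (by
      by_contra c0
      push Not at c0
      refine hne (confla_one hn hal h1 h2 h (fun σ => confla_inj hn (bd_polys hal h1 σ).1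
        (bd_polys hal h2 σ).1 (c0 σ)) hE fun σ hσ => ?_)
      simpa [alC] using hσ)
  have lit : ∀ g ∈ F, (dpoly Yl P g.1 - dpoly Yl P' g.1).coeff (g.2 + D) ≠ 0 →
      Lit P g D ∨ Lit P' g D := fun g hg e => by
    rw [(lit_iff hal h1 (hs g hg) D).1, (lit_iff hal h2 (hs g hg) D).1]
    rw [confla_coeff] at e
    omega
  have l1 := lit f hf c1
  have l2 := lit f' hf' c2
  rcases c3 with c3 | ⟨g, hg, n1, n2, c3⟩
  · have b1 := ((bd_polys hal h1 f.1).2.2 (hs f hf)).1 (f.2 + D)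
    have b2 := ((bd_polys hal h2 f.1).2.2 (hs f hf)).1 (f.2 + D)
    rw [confla_coeff] at c3
    rw [abs_le] at b1 b2
    rw [abs_eq (by norm_num)] at c3
    have k1 : Lit P f D := (lit_iff hal h1 (hs f hf) D).1.2 (by omega)
    have k2 : Lit P' f D := (lit_iff hal h2 (hs f hf) D).1.2 (by omega)
    exact ⟨D, f, hf, f', hf', ne, l2.imp (fun a => ⟨k1, a⟩) fun a => ⟨k2, a⟩⟩
  · have l3 := lit g hg c3
    rcases l1 with l1 | l1 <;> rcases l2 with l2 | l2
    · exact ⟨D, f, hf, f', hf', ne, Or.inl ⟨l1, l2⟩⟩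
    · rcases l3 with l3 | l3
      · exact ⟨D, g, hg, f, hf, n1, Or.inl ⟨l3, l1⟩⟩
      · exact ⟨D, g, hg, f', hf', n2, Or.inr ⟨l3, l2⟩⟩
    · rcases l3 with l3 | l3
      · exact ⟨D, g, hg, f', hf', n2, Or.inl ⟨l3, l2⟩⟩
      · exact ⟨D, g, hg, f, hf, n1, Or.inr ⟨l3, l1⟩⟩
    · exact ⟨D, f, hf, f', hf', ne, Or.inr ⟨l1, l2⟩⟩

theorem confl_two (hn : 25 ≤ n) {S : Finset (El n k)} {Yl : Option (Fin k) → El n k}
    (hZ : Z1 S Yl) (hP : Psi (Yl none) none = 1) :
    Confl Yl {none} {((none, 0), false), ((none, 0), true)} ∅ := by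
  intro N P P' h1 h2 hne h
  exact (hne (confla_one hn (by simp) h1 h2 h
    (confla_deq hn hZ (by simp) h1 h2 h (by simp) (by simp)) hP (by simp))).elim

theorem confl_tog (hn : 25 ≤ n) {S : Finset (El n k)} {Yl : Option (Fin k) → El n k}
    (hZ : Z1 S Yl) (hP : Psi (Yl none) none = 1) (i : Fin k) (hi : gm (Yl (some i)).w ≠ 0) :
    ∃ F : Finset ((Option (Fin k) × ZMod 2) × ℤ), F.card ≤ 4 ∧
      Confl Yl {none, some i} {((none, 0), false), ((none, 0), true), ((some i, 0), false),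
        ((some i, 0), true), ((some i, 1), false)} F := by
  obtain ⟨Δ, hΔ⟩ := tops hn (confla_gm_ne hP) (neg_ne_zero.2 hi)
  refine ⟨{((none, 0), Δ), ((some i, 0), 0)}, card_le_two.trans (by norm_num),
    fun N P P' h1 h2 hne h => ?_⟩
  generalize hA : ({((none, 0), false), ((none, 0), true), ((some i, 0), false),
    ((some i, 0), true), ((some i, 1), false)} :
      Finset ((Option (Fin k) × ZMod 2) × Bool)) = al at h1 h2
  have hal : ∀ a ∈ al, a.1.1 ∈ ({none, some i} : Finset _) := by simp [← hA]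
  have hd := confla_deq hn hZ hal h1 h2 h (by simp) (by simp [← hA])
  have ha : ∀ τ, (τ, true) ∈ al → τ = (none, 0) ∨ τ = (some i, 0) := by simp [← hA]
  have e := confla_gm h
  rw [sum_eq_add (none, 0) (some i, 0) (by simp) (fun τ _ hτ => by
    rw [mpoly_eq hal h1 h2 (fun τ _ => hd τ) (hd τ) fun c => (ha τ c).elim hτ.1 hτ.2, sub_self,
      map_zero, zero_mul]) (by simp) (by simp), bar_zero, bar_zero] at e
  have bd := fun τ => (bd_polys hal h1 τ).2.1
  have bd' := fun τ => (bd_polys hal h2 τ).2.1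
  by_cases m : mpoly P (some i, 0) - mpoly P' (some i, 0) = 0
  · rw [m, map_zero, zero_mul, add_zero] at e
    refine (hne (eq_of_polys hal h1 h2 hd fun τ hτ => ?_)).elim
    rcases ha τ hτ with rfl | rfl
    · exact confla_inj hn (bd _) (bd' _) ((mul_eq_zero.1 e).resolve_right (confla_gm_ne hP))
    · exact sub_eq_zero.1 m
  obtain ⟨d, hd1⟩ := exists_isTop m
  have hd2 := hΔ _ _ ((bd (none, 0)).sub (bd' (none, 0))) ((bd _).sub (bd' _))
    (by rw [mul_neg]; exact eq_neg_of_add_eq_zero_left e) d hd1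
  refine ⟨d, ((none, 0), Δ), by simp, ((some i, 0), 0), by simp, by simp, Or.inl
    ⟨confla_lit hal h1 h2 hd (by simp) ?_, confla_lit hal h1 h2 hd (by simp) ?_⟩⟩
  · rw [add_comm]
    exact hd2.1
  · rw [zero_add]
    exact hd1.1

end Pool.Agent.MP_646035_al.PC

namespace Pool.Agent.MP_646035_al.PC

open Finset PT

variable {n k : ℕ} {Q : Type} [AddCommGroup Q] [DecidableEq Q] {e : Fin 2 → Q}

lemma conflb_aug (ε : ZMod 2) (f : OO n) : aug ((sgz ε : OO n) * f) = aug f := by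
  rcases z2_cases ε with rfl | rfl
  · simp
  · simp [ZMod.neg_eq_self_mod_two]

lemma conflb_sq (ε : ZMod 2) : (sgz ε : OO n) * (sgz ε : OO n) = 1 := by
  rw [← Int.cast_mul, sgz_mul_self, Int.cast_one]

lemma conflb_two {f : OO n} (h : 2 * f = 0) : f = 0 :=
  (mul_eq_zero.1 h).resolve_left (by norm_num)

lemma conflb_abs (ε : ZMod 2) (z : ℤ) : |sgz ε * z| = |z| := by
  rcases z2_cases ε with rfl | rfl <;> simp

theorem mono_facts {S : Finset (El n k)} {Yl : Option (Fin k) → El n k} (hZ : Z1 S Yl)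
    {a : ℤ} {ε : ZMod 2} (h : tt n a • vt (Yl none) 1 = sgz ε • vt (Yl none) 0) :
    (Yl none).s = 0 ∧ Psi (Yl none) none = 1 ∧
      sgz ε • (tt n a * bar 1 (gm (Yl none).w)) ≠ gm (Yl none).w ∧
      (sgz ε • (tt n a * bar 1 (gm (Yl none).w)) = -gm (Yl none).w →
        aw ⟨a, 1⟩ (Yl none).w = -(sgz ε • iot 1 (Yl none).w)) := by
  set w := (Yl none).w with hw
  have hη := conflb_sq (n := n) ε
  have h0 : tt n a * (bar 1 (w none 1) - bar 1 (w none 0)) =
      (sgz ε : OO n) * (w none 0 - w none 1) := by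
    have := congrFun (congrFun h none) 0
    simpa [vt, aw_apply, act_apply, pv_none, kap_apply, z2_one_add_one, ← hw] using this
  have h1 : ∀ i s, tt n a * bar 1 (w (some i) (s + 1)) = (sgz ε : OO n) * w (some i) s := by
    intro i s
    have := congrFun (congrFun h (some i)) s
    simpa [vt, aw_apply, act_apply, pv_some, ← hw] using this
  have h2 : psi (Yl none) = 0 := by
    funext i
    have := congrArg aug (h1 i 0)
    rw [conflb_aug, map_mul, aug_tt, aug_bar, one_mul, zero_add] at this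
    simp only [psi, tot_apply, ← hw, this, z2_add_self, Pi.zero_apply]
  have h3 : Psi (Yl none) none = 1 := by
    refine (z2_cases _).resolve_left fun h3 => hZ.hPsi.ne_zero none ?_
    funext o
    rcases o with _ | i
    · exact h3
    · exact congrFun h2 i
  refine ⟨by simp [hZ.hs, h2], h3, fun h4 => ?_, fun h4 => ?_⟩
  · rw [zsmul_eq_mul, gm_apply, map_add] at h4
    have h5 : (sgz ε : OO n) * (tt n a * bar 1 (w none 1)) - w none 0 = 0 :=
      conflb_two (by linear_combination h4 + (sgz ε : OO n) * h0 + (w none 0 - w none 1) * hη)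
    have h6 := congrArg aug (sub_eq_zero.1 h5)
    rw [conflb_aug, map_mul, aug_tt, aug_bar, one_mul] at h6
    simp only [Psi, tot_apply, ← hw, h6, z2_add_self] at h3
    exact zero_ne_one h3
  · rw [zsmul_eq_mul, gm_apply, map_add] at h4
    have h5 : (sgz ε : OO n) * (tt n a * bar 1 (w none 1)) + w none 1 = 0 :=
      conflb_two (by linear_combination h4 + (sgz ε : OO n) * h0 + (w none 0 - w none 1) * hη)
    have h6 : (sgz ε : OO n) * (tt n a * bar 1 (w none 0)) + w none 0 = 0 :=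
      conflb_two (by linear_combination h4 - (sgz ε : OO n) * h0 - (w none 0 - w none 1) * hη)
    funext o s
    rcases o with _ | i
    · simp only [aw_apply, act_apply, Pi.neg_apply, Pi.smul_apply, iot_none, kap_apply]
      rw [zsmul_eq_mul]
      rcases z2_cases s with rfl | rfl
      · rw [zero_add]
        linear_combination (sgz ε : OO n) * h5 - tt n a * bar 1 (w none 1) * hη
      · rw [z2_one_add_one]
        linear_combination (sgz ε : OO n) * h6 - tt n a * bar 1 (w none 0) * hη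
    · simp only [aw_apply, act_apply, Pi.neg_apply, Pi.smul_apply, iot_some, h1, sgz_one]
      rw [neg_one_smul, smul_neg, neg_neg, zsmul_eq_mul]

lemma conflb_three {ι : Type} {F : Finset ι} {A B : ι → Prop} {f1 f2 f3 : ι} (m1 : f1 ∈ F)
    (m2 : f2 ∈ F) (m3 : f3 ∈ F) (h12 : f1 ≠ f2) (h13 : f1 ≠ f3) (h23 : f2 ≠ f3)
    (h1 : A f1 ∨ B f1) (h2 : A f2 ∨ B f2) (h3 : A f3 ∨ B f3) :
    ∃ f ∈ F, ∃ f' ∈ F, f ≠ f' ∧ ((A f ∧ A f') ∨ (B f ∧ B f')) := by
  rcases h1 with h1 | h1 <;> rcases h2 with h2 | h2 <;> rcases h3 with h3 | h3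
  · exact ⟨f1, m1, f2, m2, h12, .inl ⟨h1, h2⟩⟩
  · exact ⟨f1, m1, f2, m2, h12, .inl ⟨h1, h2⟩⟩
  · exact ⟨f1, m1, f3, m3, h13, .inl ⟨h1, h3⟩⟩
  · exact ⟨f2, m2, f3, m3, h23, .inr ⟨h2, h3⟩⟩
  · exact ⟨f2, m2, f3, m3, h23, .inl ⟨h2, h3⟩⟩
  · exact ⟨f1, m1, f3, m3, h13, .inr ⟨h1, h3⟩⟩
  · exact ⟨f1, m1, f2, m2, h12, .inr ⟨h1, h2⟩⟩
  · exact ⟨f1, m1, f2, m2, h12, .inr ⟨h1, h2⟩⟩

lemma conflb_both {ι : Type} {F : Finset ι} {A B : ι → Prop} {f1 f2 : ι} (m1 : f1 ∈ F)
    (m2 : f2 ∈ F) (h12 : f1 ≠ f2) (h1 : A f1 ∧ B f1) (h2 : A f2 ∨ B f2) :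
    ∃ f ∈ F, ∃ f' ∈ F, f ≠ f' ∧ ((A f ∧ A f') ∨ (B f ∧ B f')) := by
  rcases h2 with h2 | h2
  · exact ⟨f1, m1, f2, m2, h12, .inl ⟨h1.1, h2⟩⟩
  · exact ⟨f1, m1, f2, m2, h12, .inr ⟨h1.2, h2⟩⟩

lemma conflb_lit {p p' : LP} {A B : Prop} {b : ℤ} (hA : A ↔ p.coeff b ≠ 0)
    (hB : B ↔ p'.coeff b ≠ 0) (h : Bd p 1) (h' : Bd p' 1) :
    ((p - p').coeff b ≠ 0 → A ∨ B) ∧ (|(p - p').coeff b| = 2 → A ∧ B) := by
  have h1 := abs_le.1 (h b)
  have h2 := abs_le.1 (h' b)
  rw [hA, hB, AddMonoidAlgebra.coeff_sub, Finsupp.sub_apply]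
  push_cast at h1 h2
  refine ⟨fun h3 => by omega, fun h3 => ?_⟩
  rcases abs_cases (p.coeff b - p'.coeff b) with h4 | h4 <;> omega

lemma conflb_coeff (z a : ℤ) (p : LP) (b : ℤ) :
    (LaurentPolynomial.C z * (LaurentPolynomial.T (-a) * p)).coeff b = z * p.coeff (b + a) := by
  rw [← LaurentPolynomial.smul_eq_C_mul, AddMonoidAlgebra.coeff_smul, Finsupp.smul_apply,
    coeff_T_mul, sub_neg_eq_add, smul_eq_mul]

theorem confl_mono (hn : 25 ≤ n) {S : Finset (El n k)} {Yl : Option (Fin k) → El n k}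
    (hZ : Z1 S Yl) {a : ℤ} {ε : ZMod 2}
    (h : tt n a • vt (Yl none) 1 = sgz ε • vt (Yl none) 0)
    (hne : sgz ε • (tt n a * bar 1 (gm (Yl none).w)) ≠ -gm (Yl none).w) :
    ∃ F : Finset ((Option (Fin k) × ZMod 2) × ℤ), F.card ≤ 4 ∧
      Confl Yl {none} (alC {none} none) F := by
  obtain ⟨hs0, hP0, hne', -⟩ := mono_facts hZ h
  set G := gm (Yl none).w with hG
  have hη := conflb_sq (n := n) ε
  have hta := tt_neg_mul (n := n) a
  rw [zsmul_eq_mul] at hne hne'
  have haug : aug G = 1 := (aug_gm _).trans hP0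
  have hG0 : G ≠ 0 := fun h0 => by
    rw [h0, map_zero] at haug
    exact zero_ne_one haug
  have hG1 : -((sgz ε : OO n) * (tt n a * bar 1 G)) ≠ 0 := fun h0 => by
    have := congrArg aug (neg_eq_zero.1 h0)
    rw [conflb_aug, map_mul, aug_tt, aug_bar, one_mul, haug, map_zero] at this
    exact one_ne_zero this
  obtain ⟨Δ, d0, hd0, H⟩ := two_three hn hG0 hG1
  refine ⟨{((none, 0), 0), ((none, 1), a), ((none, 0), Δ), ((none, 0), -d0)}, card_le_four, ?_⟩
  intro N P P' hP hP' hPP hval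
  have hal : ∀ x ∈ alC ({none} : Finset (Option (Fin k))) none, x.1.1 ∈ ({none} : Finset _) := by
    intro x hx
    simp only [alC, mem_insert, mem_product, mem_singleton] at hx ⊢
    rcases hx with rfl | hx
    · rfl
    · exact hx.1.1
  have hal1 : ∀ τ : Option (Fin k) × ZMod 2,
      (τ, true) ∈ alC ({none} : Finset (Option (Fin k))) none → τ = (none, 0) := by
    intro τ hx
    simpa [alC] using hx
  have hb := bd_polys hal hP
  have hb' := bd_polys hal hP'
  set c : Option (Fin k) × ZMod 2 → LP := fun τ => dpoly Yl P τ - dpoly Yl P' τ with hc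
  set m : Option (Fin k) × ZMod 2 → LP := fun τ => mpoly P τ - mpoly P' τ with hm
  have hrel : ∑ τ, ev n (c τ) • vt (Yl τ.1) τ.2 = 0 := by
    simp only [hc, map_sub, sub_smul, sum_sub_distrib, ← pval_pv, hval, sub_self]
  have hrel2 : ∑ τ, ev n (m τ) * bar τ.2 (gm (Yl τ.1).w) = 0 := by
    simp only [hm, map_sub, sub_mul, sum_sub_distrib, ← pval_gm Yl, hval, sub_self]
  have hvt : vt (Yl none) 1 = ((sgz ε : OO n) * tt n (-a)) • vt (Yl none) 0 := by
    rw [mul_comm, mul_smul, Int.cast_smul_eq_zsmul, ← h, smul_smul, hta, one_smul]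
  have hc' := vt_indep Yl hZ.hpsi hZ.hPsi 1
    ((fun τ => ev n (c τ)) + Pi.single (none, 0) (ev n (c (none, 1)) * ((sgz ε : OO n) * tt n (-a)))
      - Pi.single (none, 1) (ev n (c (none, 1)))) (by simp) (by
      simp only [Pi.add_apply, Pi.sub_apply, add_smul, sub_smul, sum_add_distrib, sum_sub_distrib,
        hrel, Pi.single_apply, ite_smul, zero_smul, sum_ite_eq', mem_univ, if_true]
      rw [hvt, smul_smul, zero_add, sub_self])
  have hcs : ∀ i s, dpoly Yl P (some i, s) = dpoly Yl P' (some i, s) := fun i s => by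
    have h1 := congrFun hc' (some i, s)
    simp only [Pi.add_apply, Pi.sub_apply, Pi.single_apply, Prod.mk.injEq, reduceCtorEq, false_and,
      if_false, add_zero, sub_zero, Pi.zero_apply] at h1
    exact sub_eq_zero.1 (ev_inj ((hb _).1.sub (hb' _).1) (by omega) h1)
  have hc0 : Bd (c (none, 0)) 2 := ((hb _).2.2 (by simp)).1.sub ((hb' _).2.2 (by simp)).1
  have hc1 : Bd (c (none, 1)) 2 := ((hb _).2.2 (by simp)).1.sub ((hb' _).2.2 (by simp)).1
  have hm0 : Bd (m (none, 0)) 2 := ((hb _).2.2 (by simp)).2.sub ((hb' _).2.2 (by simp)).2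
  have h01 : ∀ b, |(c (none, 0)).coeff b| = |(c (none, 1)).coeff (b + a)| := fun b => by
    have h1 := congrFun hc' (none, 0)
    simp only [Pi.add_apply, Pi.sub_apply, Pi.single_apply, Prod.mk.injEq, zero_ne_one, and_false,
      if_false, if_true, sub_zero, Pi.zero_apply] at h1
    have h2 : Bd (LaurentPolynomial.C (-sgz ε) * (LaurentPolynomial.T (-a) * c (none, 1))) 2 :=
      fun b => by
        rw [conflb_coeff, neg_mul, abs_neg, conflb_abs]
        exact hc1 _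
    have h3 := ev_inj (n := n) (hc0.sub h2) (by omega) (by
      rw [map_sub, map_mul, map_mul, ev_C, ev_T, ← h1]
      push_cast
      ring)
    rw [sub_eq_zero.1 h3, conflb_coeff, neg_mul, abs_neg, conflb_abs]
  have htog : ∀ τ : Option (Fin k) × ZMod 2, (Yl τ.1).s = 1 → dpoly Yl P τ = dpoly Yl P' τ := by
    rintro ⟨_ | i, s⟩ h1
    · exact absurd (hs0.symm.trans h1) zero_ne_one
    · exact hcs i s
  have hm1 : ∀ b, |(m (none, 1)).coeff b| = |(c (none, 1)).coeff b| := fun b => by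
    have h1 : ((none, 1), true) ∉ alC ({none} : Finset (Option (Fin k))) none := fun h1 => by
      simpa using hal1 _ h1
    simp only [hm, hc, AddMonoidAlgebra.coeff_sub, Finsupp.sub_apply]
    by_cases hb : ∃ b' : Fin N, (b'.val : ℤ) = b
    · obtain ⟨b', rfl⟩ := hb
      rw [coeff_mpoly, coeff_mpoly, coeff_dpoly, coeff_dpoly, tdig_eq_dig hal hP h1,
        tdig_eq_dig hal hP' h1, slane_eq Yl P P' htog, ← mul_sub, conflb_abs]
    · push Not at hb
      rw [coeff_mpoly_out _ _ hb, coeff_mpoly_out _ _ hb, coeff_dpoly_out _ _ _ hb,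
        coeff_dpoly_out _ _ _ hb]
  have hms : ∀ i s, m (some i, s) = 0 := fun i s =>
    sub_eq_zero.2 (mpoly_eq hal hP hP' htog (hcs i s) fun h1 => by simpa using hal1 _ h1)
  set p' : LP := LaurentPolynomial.C (sgz ε) * (LaurentPolynomial.T (-a) * m (none, 1)) with hp'
  have hpc : ∀ b, |p'.coeff b| = |(c (none, 1)).coeff (b + a)| := fun b => by
    rw [hp', conflb_coeff, conflb_abs, hm1]
  have heq : ev n (m (none, 0)) * G = ev n p' * -((sgz ε : OO n) * (tt n a * bar 1 G)) := by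
    rw [Fintype.sum_prod_type, Fintype.sum_option] at hrel2
    simp only [hms, map_zero, zero_mul, sum_const_zero, add_zero] at hrel2
    rw [show ∑ s : ZMod 2, ev n (m (none, s)) * bar s (gm (Yl none).w) =
      ev n (m (none, 0)) * bar 0 G + ev n (m (none, 1)) * bar 1 G from Fin.sum_univ_two _,
      bar_zero] at hrel2
    rw [hp', map_mul, map_mul, ev_C, ev_T]
    linear_combination hrel2 + ev n (m (none, 1)) * bar 1 G * (tt n (-a) * tt n a) * hη +
      ev n (m (none, 1)) * bar 1 G * hta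
  have hp0 : p' ≠ 0 := fun h0 => by
    have h1 : ∀ b, (c (none, 1)).coeff (b + a) = 0 := fun b => by
      rw [← abs_eq_zero, ← hpc, h0]
      rfl
    refine hPP (eq_of_polys hal hP hP' ?_ fun τ hτ => ?_)
    · rintro ⟨_ | i, s⟩
      · refine sub_eq_zero.1 (AddMonoidAlgebra.coeff_injective (Finsupp.ext fun b => ?_))
        rcases z2_cases s with rfl | rfl
        · exact abs_eq_zero.1 ((h01 b).trans (abs_eq_zero.2 (h1 b)))
        · have := h1 (b - a)
          rwa [sub_add_cancel] at this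
      · exact hcs i s
    · rw [hal1 τ hτ]
      rw [h0, map_zero, zero_mul, mul_eq_zero] at heq
      exact sub_eq_zero.1 (ev_inj hm0 (by omega) (heq.resolve_right hG0))
  obtain ⟨d, hd⟩ := exists_isTop hp0
  obtain ⟨ht, halt⟩ := H _ _ hm0 (fun b => (hpc b).trans_le (hc1 _)) heq d hd
  have hL : ∀ (s : ZMod 2) (x : ℤ),
      (((c (none, s)).coeff (x + d) ≠ 0 → Lit P ((none, s), x) d ∨ Lit P' ((none, s), x) d) ∧
        (|(c (none, s)).coeff (x + d)| = 2 →
          Lit P ((none, s), x) d ∧ Lit P' ((none, s), x) d)) ∧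
      (((m (none, s)).coeff (x + d) ≠ 0 → Lit P ((none, s), x) d ∨ Lit P' ((none, s), x) d) ∧
        (|(m (none, s)).coeff (x + d)| = 2 →
          Lit P ((none, s), x) d ∧ Lit P' ((none, s), x) d)) := fun s x =>
    ⟨conflb_lit (lit_iff hal hP (f := ((none, s), x)) (by simp) d).1
      (lit_iff hal hP' (f := ((none, s), x)) (by simp) d).1
      ((hb _).2.2 (by simp)).1 ((hb' _).2.2 (by simp)).1,
    conflb_lit (lit_iff hal hP (f := ((none, s), x)) (by simp) d).2
      (lit_iff hal hP' (f := ((none, s), x)) (by simp) d).2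
      ((hb _).2.2 (by simp)).2 ((hb' _).2.2 (by simp)).2⟩
  have hA := (hL 0 0).1.1 (by
    rw [zero_add, ← abs_ne_zero, h01, ← hpc, abs_ne_zero]; exact hd.1)
  have hB := (hL 1 a).1.1 (by
    rw [add_comm, ← abs_ne_zero, ← hpc, abs_ne_zero]; exact hd.1)
  refine ⟨d, ?_⟩
  rcases ne_or_eq Δ 0 with hΔ | rfl
  · exact conflb_three (A := fun f => Lit P f d) (B := fun f => Lit P' f d) (by simp) (by simp)
      (by simp) (by simp) (by simpa using hΔ.symm) (by simp) hA hB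
      ((hL 0 Δ).2.1 (by rw [add_comm]; exact ht.1))
  have h3 := fun hD => conflb_three (A := fun f => Lit P f d) (B := fun f => Lit P' f d)
    (F := {((none, 0), 0), ((none, 1), a), ((none, 0), 0), ((none, 0), -d0)})
    (f3 := ((none, 0), -d0)) (by simp) (by simp) (by simp) (by simp) (by simpa using hd0.ne')
    (by simp) hA hB hD
  rw [tt_zero, one_mul, add_zero] at halt
  rcases halt with (h1 | h1) | h1 | h1 | h1 | h1
  · exact absurd (neg_eq_iff_eq_neg.1 h1) hne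
  · exact absurd (neg_injective h1) hne'
  · exact conflb_both (A := fun f => Lit P f d) (B := fun f => Lit P' f d) (by simp) (by simp)
      (by simp) ((hL 0 0).2.2 (by rwa [zero_add])) hB
  · exact conflb_both (A := fun f => Lit P f d) (B := fun f => Lit P' f d) (by simp) (by simp)
      (by simp) ((hL 1 a).1.2 (by rwa [add_comm, ← hpc])) hA
  · exact h3 ((hL 0 (-d0)).2.1 (by rwa [neg_add_eq_sub]))
  · exact h3 ((hL 0 (-d0)).1.1 (by
      rwa [neg_add_eq_sub, ← abs_ne_zero, h01, ← hpc, abs_ne_zero]))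

end Pool.Agent.MP_646035_al.PC

namespace Pool.Agent.MP_646035_al.PC

open Finset PT

variable {n k : ℕ} {Q : Type} [AddCommGroup Q] [DecidableEq Q] {e : Fin 2 → Q}

lemma two_x {u : ℝ} (hu : Good k u) : 0 < u ^ 4 ∧ u ^ 4 ≤ 1 / 100 := by
  have h0 := hu.pos
  have h1 : u ≤ 1 / 10 ^ 1 := hu.u_le.trans
    (one_div_le_one_div_of_le (by positivity) (pow_le_pow_right₀ (by norm_num) (by norm_num)))
  exact ⟨by positivity, (pow_le_pow_left₀ h0.le h1 4).trans (by norm_num)⟩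

lemma two_card (Yl : Option (Fin k) → El n k) (Sp : Finset (Option (Fin k))) :
    nN Yl Spᶜ + nT Yl Spᶜ + Sp.card = k + 1 := by
  rw [nN_add_nT, add_comm, card_add_card_compl, Fintype.card_option, Fintype.card_fin]

lemma two_nT (Yl : Option (Fin k) → El n k) (o E : Option (Fin k)) {Sp : Finset (Option (Fin k))}
    (h : Sp ⊆ {none, o, E}) : nT Yl {none}ᶜ ≤ nT Yl Spᶜ + 2 := by
  refine le_trans (card_le_card (t := (Spᶜ.filter fun i => (Yl i).s = 1) ∪ {o, E}) fun i hi => ?_)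
    ((card_union_le _ _).trans (Nat.add_le_add_left card_le_two _))
  simp only [mem_filter, mem_compl, mem_singleton, mem_union, mem_insert] at hi ⊢
  by_cases hS : i ∈ Sp
  · have := h hS
    simp only [mem_insert, mem_singleton] at this
    exact Or.inr (this.resolve_left hi.1)
  · exact Or.inl ⟨hS, hi.2⟩

lemma two_p1 {S : Finset (El n k)} {Yl : Option (Fin k) → El n k}
    (hZ : Z1 S Yl) {e u : ℝ} (he : IsRate S e) (hu : Good k u) (hxe : u ^ 4 * e < 1)
    {Sp : Finset (Option (Fin k))} (h1 : 1 ≤ Sp.card) (h3 : Sp.card ≤ 3)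
    {al : Finset ((Option (Fin k) × ZMod 2) × Bool)} (hal : ∀ a ∈ al, a.1.1 ∈ Sp)
    (hc : al.card = 2 * Sp.card + 1) (hj : k ≤ 2 * nT Yl Spᶜ + 4)
    {F : Finset ((Option (Fin k) × ZMod 2) × ℤ)} (hF : F.card ≤ 4) : ¬Confl Yl Sp al F := by
  intro H
  obtain ⟨x0, x1⟩ := two_x hu
  refine absurd (prog_lb hZ he x0 x1 hxe h3 hal hF H)
    (not_le.2 (numP1 hu h1 h3 (two_card Yl Sp) ?_))
  have a := numAct hu hj
  have b : al.card • (198 / 100 * u ^ 4) ≤ ∑ a ∈ al, actv Yl (u ^ 4) (nT Yl Spᶜ) a :=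
    card_nsmul_le_sum _ _ _ fun a _ => by
      unfold actv
      split_ifs <;> linarith
  refine le_trans ?_ b
  rw [hc, nsmul_eq_mul, ← mul_assoc]
  have : (Sp.card : ℝ) ≤ 3 := by exact_mod_cast h3
  push_cast
  exact mul_le_mul_of_nonneg_right (by linarith) x0.le

lemma two_alC {Sp : Finset (Option (Fin k))} {E : Option (Fin k)} (hE : E ∈ Sp) :
    (∀ a ∈ alC Sp E, a.1.1 ∈ Sp) ∧ (alC Sp E).card = 2 * Sp.card + 1 := by
  constructor
  · intro a ha
    rcases mem_insert.1 ha with rfl | ha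
    · exact hE
    · exact (mem_product.1 (mem_product.1 ha).1).1
  · rw [alC, card_insert_of_notMem (by simp), card_product, card_product, card_singleton,
      card_univ, ZMod.card]
    ring

theorem two_cases (hn : 25 ≤ n) {S : Finset (El n k)} {Yl : Option (Fin k) → El n k}
    (hZ : Z1 S Yl) {e u : ℝ} (he : IsRate S e) (hu : Good k u) (hxe : u ^ 4 * e < 1) :
    ∃ c : ℤ, ∀ r, (ball (gens n k c) r).ncard ≤ (ball S r).ncard := by
  by_contra hc
  obtain ⟨x0, x1⟩ := two_x hu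
  have c1 : nN Yl {none}ᶜ + nT Yl {none}ᶜ = k := by
    have := two_card Yl {none}
    rw [card_singleton] at this
    omega
  have hj : k < 2 * nT Yl {none}ᶜ := by
    by_contra! h
    have a := prog_lb hZ he x0 x1 hxe (by simp) (by simp) (by simp) (confl_bulk hn hZ)
    rw [sum_empty, zero_mul, add_zero, mul_one] at a
    exact absurd a (not_le.2 (numR0 hu c1 h))
  rcases mono_or_confl hn hZ with ⟨a, ε, h⟩ | ⟨o, E, F, hF, H⟩
  · obtain ⟨f1, f2, -, f4⟩ := mono_facts hZ h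
    by_cases hne : sgz ε • (tt n a * bar 1 (gm (Yl none).w)) = -gm (Yl none).w
    · refine hc (pure_le hZ f1 f2 (f4 hne) fun i => ⟨?_, ?_⟩)
      · refine (z2_cases _).resolve_left fun hi => ?_
        have b := prog_lb hZ he x0 x1 hxe (by simp) (by simp) (by simp) (confl_two hn hZ f2)
        rw [sum_pair (by simp)] at b
        simp only [actv, f1, zero_ne_one, if_false, if_true, Bool.false_eq_true] at b
        refine absurd b (not_le.2 (numP2 hu (card_pos.2 ⟨some i, ?_⟩) c1 (by omega)))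
        simp [hi]
      · by_contra hi
        obtain ⟨F, hF, H⟩ := confl_tog hn hZ f2 i hi
        have c2 : ({none, some i} : Finset (Option (Fin k))).card = 2 := card_pair (by simp)
        have c3 := two_nT Yl (some i) (some i) (Sp := {none, some i}) (by simp)
        refine two_p1 hZ he hu hxe (by omega) (by omega) (by simp) ?_ (by omega) hF H
        rw [c2, card_insert_of_notMem (by simp), card_insert_of_notMem (by simp),
          card_insert_of_notMem (by simp), card_pair (by simp)]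
    · obtain ⟨F, hF, H⟩ := confl_mono hn hZ h hne
      obtain ⟨b1, b2⟩ := two_alC (Sp := {none}) (E := none) (k := k) (by simp)
      exact two_p1 hZ he hu hxe (by simp) (by simp) b1 b2 (by omega) hF H
  · obtain ⟨b1, b2⟩ := two_alC (Sp := {none, o, E}) (E := E) (by simp)
    have c3 := two_nT Yl o E Subset.rfl
    exact two_p1 hZ he hu hxe (card_pos.2 ⟨none, by simp⟩) card_le_three b1 b2 (by omega) hF H

theorem block_gens (hn : 25 ≤ n) (c : ℤ) {e y : ℝ} (he : IsRate (gens n k c) e) (hy : 0 < y)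
    (hy1 : y ≤ 1 / 100) (hye : y * e < 1) : y * AA 2 y k ≤ 1 := by
  have a := prog_lb (Z1_gens c) he hy hy1 hye (by simp) (by simp) (by simp)
    (confl_bulk hn (Z1_gens c))
  have c1 := two_card (fun o : Option (Fin k) => o.elim (lamp n k c) (tog n)) {none}
  have c2 : nN (fun o : Option (Fin k) => o.elim (lamp n k c) (tog n)) {none}ᶜ = 0 := by
    rw [nN, card_eq_zero, filter_eq_empty_iff]
    rintro (_ | i) hi
    · simp at hi
    · exact one_ne_zero
  rw [c2, card_singleton, zero_add, Nat.add_right_cancel_iff] at c1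
  rw [c1, c2, sum_empty, zero_mul, add_zero, mul_one, pow_zero, one_mul] at a
  exact le_of_abs_le ((sq_le_one_iff_abs_le_one _).1 a)

end Pool.Agent.MP_646035_al.PC

namespace Pool.Agent.MP_646035_al.PC

open Finset PT

variable {n k : ℕ} {Q : Type} [AddCommGroup Q] [DecidableEq Q] {e : Fin 2 → Q}

lemma classify_x {u : ℝ} (hu : Good k u) : 0 < u ^ 4 ∧ u ^ 4 ≤ 1 :=
  ⟨pow_pos hu.pos 4, pow_le_one₀ hu.pos.le (hu.u_le.trans
    (div_le_one_of_le₀ (one_le_pow₀ (by norm_num)) (by positivity)))⟩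

theorem classify_big {S : Finset (El n k)} (hS : Gen S) {e u : ℝ} (he : IsRate S e)
    (hu : Good k u) (hkn : k + 4 ≤ n) (hxe : u ^ 4 * e < 1) (Tl : Fin k → El n k)
    (hT : ∀ i, Tl i ∈ ball S 1) (hψ : LinearIndependent (ZMod 2) (fun i => psi (Tl i))) :
    k ≤ (Nn Tl).card + 99 := by
  by_contra hk
  have hn : (Nn Tl).card ≤ k := by simpa using card_le_univ (Nn Tl)
  obtain ⟨j, hj⟩ : ∃ j, k = (Nn Tl).card + j := Nat.exists_eq_add_of_le hn
  obtain ⟨x0, x1⟩ := classify_x hu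
  have hA0 := numA hu (j := j) (by omega) (by omega)
  have hC := fun j0 j1 => numC hu (j := j) (j0 := j0) (j1 := j1) (by omega) (by omega)
  rw [show k - j = (Nn Tl).card by omega] at hA0 hC
  generalize u ^ 4 = x at *
  have z0 : 0 < x * AA 2 x ((Nn Tl).card - 2) :=
    mul_pos x0 (one_pos.trans_le (one_le_AA 2 x0.le _))
  have zy : x * AA 2 x ((Nn Tl).card - 2) ≤ x * AA 2 x (Nn Tl).card :=
    mul_le_mul_of_nonneg_left (AA_mono 2 x0.le (Nat.sub_le _ _)) x0.le
  have y0 := z0.trans_le zy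
  obtain ⟨lam, l0, hA, hb⟩ : ∃ lam : ℝ, 0 < lam ∧ 25 * lam ≤ j ∧
      1 ≤ lam * (x * AA 2 x (Nn Tl).card) := by
    refine ⟨(x * AA 2 x ((Nn Tl).card - 2))⁻¹, inv_pos.2 z0, ?_, ?_⟩
    · rw [← div_eq_mul_inv, div_le_iff₀ z0]
      exact hA0
    · rw [← div_eq_inv_mul, one_le_div z0]
      exact zy
  have h1 : ((univ.filter (fun i => (Tl i).g.b = 0 ∧ (Tl i).g ≠ 1)).card : ℝ) ≤ lam :=
    le_of_not_gt fun h => caseA he x0 x1 hxe hkn Tl hT hψ (by
      rw [mul_assoc]
      exact hb.trans_lt (mul_lt_mul_of_pos_right h y0))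
  have cov : ∀ θ : ℤ, j ≤ (univ.filter (fun i => (Tl i).g.b = 0 ∧ (Tl i).g ≠ 1)).card +
      (univ.filter (fun i => (Tl i).g.b = 1 ∧ θ < (Tl i).g.a)).card +
      (univ.filter (fun i => (Tl i).g.b = 1 ∧ (Tl i).g.a ≤ θ - 1)).card +
      (univ.filter (fun i => (Tl i).g = ⟨θ, 1⟩)).card := by
    intro θ
    have h2 : (univ : Finset (Fin k)) ⊆ Nn Tl ∪
        univ.filter (fun i => (Tl i).g.b = 0 ∧ (Tl i).g ≠ 1) ∪
        univ.filter (fun i => (Tl i).g.b = 1 ∧ θ < (Tl i).g.a) ∪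
        univ.filter (fun i => (Tl i).g.b = 1 ∧ (Tl i).g.a ≤ θ - 1) ∪
        univ.filter (fun i => (Tl i).g = ⟨θ, 1⟩) := by
      intro i _
      simp only [Nn, mem_union, mem_filter, mem_univ, true_and, Dh.ext_iff, ne_eq]
      rcases z2_cases (Tl i).g.b with h | h
      · exact .inl (.inl (.inl ((em _).imp id fun k => ⟨h, k⟩)))
      · simp only [h, true_and, and_true]
        omega
    have h3 := (card_le_card h2).trans ((card_union_le _ _).trans (Nat.add_le_add_right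
      ((card_union_le _ _).trans (Nat.add_le_add_right ((card_union_le _ _).trans
        (Nat.add_le_add_right (card_union_le _ _) _)) _)) _))
    rw [card_univ, Fintype.card_fin] at h3
    omega
  have bd : ∀ i, |(Tl i).g.a| ≤ ∑ i, |(Tl i).g.a| := fun i =>
    single_le_sum (f := fun i => |(Tl i).g.a|) (fun _ _ => abs_nonneg _) (mem_univ i)
  obtain ⟨θ, h2, h3⟩ := Int.exists_least_of_bdd
    (P := fun θ => lam < (univ.filter (fun i => (Tl i).g.b = 1 ∧ (Tl i).g.a ≤ θ)).card)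
    ⟨-∑ i, |(Tl i).g.a|, fun θ h => by
      obtain ⟨i, hi⟩ := card_pos.mp (Nat.cast_pos.mp (l0.trans h))
      linarith [(mem_filter.mp hi).2.2, bd i, neg_abs_le (Tl i).g.a]⟩
    ⟨∑ i, |(Tl i).g.a| + 1 - 1, by
      have h4 := cov (∑ i, |(Tl i).g.a| + 1)
      rw [filter_false_of_mem (p := fun i => (Tl i).g.b = 1 ∧ _ < (Tl i).g.a) fun i _ h => by
          linarith [h.2, bd i, le_abs_self (Tl i).g.a],
        filter_false_of_mem (p := fun i => (Tl i).g = _) fun i _ h => by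
          linarith [(show (Tl i).g.a = ∑ i, |(Tl i).g.a| + 1 from congrArg Dh.a h), bd i,
            le_abs_self (Tl i).g.a]] at h4
      have h5 := (Nat.cast_le (α := ℝ)).mpr h4
      simp only [card_empty, add_zero, Nat.cast_add] at h5
      linarith⟩
  have h4 : ((univ.filter (fun i => (Tl i).g.b = 1 ∧ θ < (Tl i).g.a)).card : ℝ) ≤ lam :=
    le_of_not_gt fun h => caseB he x0 x1 hxe hkn Tl hT hψ θ (by
      have h5 := mul_lt_mul_of_pos_right (mul_lt_mul'' h h2 l0.le l0.le) (mul_pos y0 y0)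
      have h6 := one_le_mul_of_one_le_of_one_le hb hb
      refine (h6.trans_eq (by ring)).trans_lt (h5.trans_eq (by ring)))
  have h5 : ((univ.filter (fun i => (Tl i).g.b = 1 ∧ (Tl i).g.a ≤ θ - 1)).card : ℝ) ≤ lam :=
    le_of_not_gt fun h => by have := h3 _ h; omega
  have h6 := (Nat.cast_le (α := ℝ)).mpr (cov θ)
  push_cast at h6
  have h7 : (univ.filter (fun i => (Tl i).g = ⟨θ, 1⟩)).card ≤ j := by
    have h8 : Disjoint (Nn Tl) (univ.filter (fun i => (Tl i).g = ⟨θ, 1⟩)) :=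
      disjoint_filter.mpr fun i _ h h' => by simpa using congrArg Dh.b (h.symm.trans h')
    have h9 := card_le_univ (Nn Tl ∪ univ.filter (fun i => (Tl i).g = ⟨θ, 1⟩))
    rw [card_union_of_disjoint h8, Fintype.card_fin] at h9
    omega
  have h7' : 22 * j ≤ 25 * (univ.filter (fun i => (Tl i).g = ⟨θ, 1⟩)).card :=
    (Nat.cast_le (α := ℝ)).mp (by push_cast; linarith)
  have h9 : (univ.filter (fun i => (Tl i).g = ⟨θ, 1⟩ ∧ (Tl i).s = 0)).card +
      (univ.filter (fun i => (Tl i).g = ⟨θ, 1⟩ ∧ (Tl i).s = 1)).card =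
      (univ.filter (fun i => (Tl i).g = ⟨θ, 1⟩)).card := by
    rw [← card_union_of_disjoint (disjoint_filter.mpr fun i _ h h' =>
      zero_ne_one (h.2.symm.trans h'.2)), ← filter_or]
    refine congrArg card (filter_congr fun i _ => ?_)
    exact ⟨fun k => k.elim And.left And.left, fun k => (z2_cases (Tl i).s).imp (⟨k, ·⟩) (⟨k, ·⟩)⟩
  rw [← h9] at h7 h7'
  obtain ⟨v, hv, hv1, hv2⟩ := exists_other hS ⟨θ, 1⟩ rfl
  exact caseC he x0 x1 hxe hkn Tl hT hψ ⟨θ, 1⟩ rfl v hv hv1 hv2 (hC _ _ h7 h7')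

theorem classify_conj (g : Dh) (h : El n k) : Psi (mv g * h * (mv g)⁻¹) = Psi h := by
  rw [Psi_mul, Psi_mul, Psi_inv, show Psi (mv g : El n k) = 0 by ext o; simp [Psi, mv],
    zero_add, add_zero]

lemma classify_conj_s (g : Dh) (h : El n k) : (mv g * h * (mv g)⁻¹).s = h.s := by simp [mv]

lemma classify_conj_sq {G : Type*} [Group G] (g h : G) (hh : h * h = 1) :
    g * h * g⁻¹ * (g * h * g⁻¹) = 1 := by
  rw [show g * h * g⁻¹ * (g * h * g⁻¹) = g * (h * h) * g⁻¹ by group, hh, mul_one, mul_inv_cancel]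

theorem exists_Z1 {S : Finset (El n k)} (hS : Gen S) {e u : ℝ} (he : IsRate S e) (hu : Good k u)
    (hk : k + 4 ≤ n) (hxe : u ^ 4 * e < 1) :
    ∃ (S' : Finset (El n k)) (e' : ℝ) (Yl : Option (Fin k) → El n k),
      IsRate S' e' ∧ e' ≤ e ∧ Z1 S' Yl := by
  obtain ⟨Tl, hT0, hψ⟩ := exists_basis hS
  have hT := fun i => mem_ball_one (hT0 i)
  obtain ⟨x0, x1⟩ := classify_x hu
  obtain ⟨n1, n3, n2⟩ := numD hu (classify_big hS he hu hk hxe Tl hT hψ) _ rfl
  obtain ⟨r, hr, rb⟩ := exists_refl hS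
  have d1 : ∀ s ∈ ball S 1, s.g ≠ 1 → s.g.b = 1 := fun s hs h => (z2_cases _).resolve_left
    fun hb => caseD1 he x0 x1 hxe hk Tl hT hψ s r hs hb h hr rb _ rfl n1
  obtain ⟨v, hv, v1, vr⟩ := exists_other hS r.g rb
  have vb := d1 v hv v1
  have d3 : ∀ s ∈ ball S 1, s.g = 1 ∨ s.g = r.g ∨ s.g = v.g := by
    intro s hs
    by_contra h
    simp only [not_or] at h
    have sb := d1 s hs h.1
    have a1 : s.g.a ≠ r.g.a := fun e => h.2.1 (Dh.ext e (sb.trans rb.symm))
    have a2 : s.g.a ≠ v.g.a := fun e => h.2.2 (Dh.ext e (sb.trans vb.symm))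
    have a3 : v.g.a ≠ r.g.a := fun e => vr (Dh.ext e (vb.trans rb.symm))
    have D := fun r1 r2 r3 h1 h2 h3 b1 b2 b3 c1 c2 c3 =>
      caseD3 he x0 x1 hxe hk Tl hT hψ r1 r2 r3 h1 h2 h3 b1 b2 b3 c1 c2 c3 _ rfl n3
    rcases (by omega : (r.g.a < s.g.a ∧ v.g.a < s.g.a) ∨ (s.g.a < r.g.a ∧ v.g.a < r.g.a) ∨
      (s.g.a < v.g.a ∧ r.g.a < v.g.a)) with c | c | c
    · exact D r v s hr hv hs rb vb sb c.1 c.2 a3.symm
    · exact D s v r hs hv hr sb vb rb c.1 c.2 a2
    · exact D s r v hs hr hv sb rb vb c.1 c.2 a1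
  have d2 : ∀ r ∈ ball S 1, ∀ v ∈ ball S 1, r.g.b = 1 → v.g.b = 1 → v.g ≠ r.g →
      r * r = 1 ∧ r.s = 0 ∧ Psi r = 0 := by
    intro r hr v hv rb vb vr
    have hq : r * r = 1 := mul_eq_one_iff_eq_inv.mpr (by_contra fun h =>
      caseD2 he x0 x1 hxe hk Tl hT hψ r r⁻¹ v hr (inv_mem_ball hr) hv h
        (Dh.ext (by simp [rb]) rfl) rfl rb vb vr _ rfl n2)
    obtain ⟨p1, p2⟩ := invol_psi r rb hq
    have hs : r.s = 0 := by rw [s_eq_of_mem (hS.mem hr), p1]; simp
    exact ⟨hq, hs, p2 hs⟩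
  obtain ⟨y, hy, hΨ⟩ := exists_ext hS Tl hψ
  have hY : ∀ o : Option (Fin k), o.elim y Tl ∈ ball S 1 := by
    rintro (_ | i)
    exacts [mem_ball_one hy, hT i]
  have hg : ∀ o : Option (Fin k), (o.elim y Tl).g = 1 := fun o => by_contra fun h => by
    have hb := d1 _ (hY o) h
    refine hΨ.ne_zero o ?_
    by_cases c : (o.elim y Tl).g = r.g
    · exact (d2 _ (hY o) v hv hb vb (c ▸ vr)).2.2
    · exact (d2 _ (hY o) r hr hb rb (Ne.symm c)).2.2
  have fin : ∀ (g : Dh) (r v : El n k), r ∈ ball S 1 → v ∈ ball S 1 →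
      (r * r = 1 ∧ r.s = 0 ∧ Psi r = 0) → (v * v = 1 ∧ v.s = 0 ∧ Psi v = 0) →
      g * r.g * g⁻¹ = rho0 → g * v.g * g⁻¹ = rho1 →
      ∃ (S' : Finset (El n k)) (e' : ℝ) (Yl : Option (Fin k) → El n k),
        IsRate S' e' ∧ e' ≤ e ∧ Z1 S' Yl := by
    intro g r v hr hv pr pv e0 e1
    obtain ⟨S1, h1, h2⟩ := exists_conj he (mv g : El n k)
    obtain ⟨S', Yl, c1, c2, c3, c4⟩ := normalise (S := S1) _ _ (h2 r 1 hr) (h2 v 1 hv) e0 e1
      ((classify_conj_s g r).trans pr.2.1) ((classify_conj_s g v).trans pv.2.1)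
      (classify_conj_sq _ _ pr.1) (classify_conj_sq _ _ pv.1)
      (fun o => mv g * o.elim y Tl * (mv g)⁻¹) (fun o => h2 _ 1 (hY o)) (fun o => by simp [hg o])
    obtain ⟨e', he'⟩ := exists_isRate S'
    have hP : ∀ o, Psi (Yl o) = Psi (o.elim y Tl) := fun o =>
      (c4 o).2.2.2.trans (classify_conj g _)
    have hp : ∀ o, psi (Yl o) = psi (o.elim y Tl) := fun o =>
      funext fun i => congrFun (hP o) (some i)
    refine ⟨S', e', Yl, he', rate_mono he' h1 c1, c2, c3, fun o => (c4 o).1,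
      fun o => (c4 o).2.1, fun o => ?_, ?_, ?_⟩
    · rw [hp o, (c4 o).2.2.1, classify_conj_s]
      exact s_eq_of_mem (hS.mem (hY o))
    · simpa only [hp, Option.elim_some] using hψ
    · simpa only [hP] using hΨ
  have pr := d2 r hr v hv rb vb vr
  have pv := d2 v hv r hr vb rb (Ne.symm vr)
  obtain ⟨g, h | h⟩ := adjacent hS r.g v.g rb vb d3
  · exact fin g r v hr hv pr pv h.1 h.2
  · exact fin g v r hv hr pv pr h.1 h.2

end Pool.Agent.MP_646035_al.PC
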